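import Pool.Agent.Helper24.WH.St3

set_option autoImplicit false

namespace Pool.Agent.Helper24.WH

open Set TopologicalSpace Ordinal Topology

private theorem sub_HO {X : Type} (τ : TopologicalSpace X) (z : Set X → Set X) (B : Set X) :
    HomOp τ z B ⊆ B := by
  rintro x ⟨W, ⟨hW, -⟩, hx⟩
  exact hW hx

private theorem mem_HO {X : Type} (τ : TopologicalSpace X) (z : Set X → Set X) {W B : Set X}
    (h1 : W ⊆ B) (h2 : W ⊆ closure[τ] (z W)) : W ⊆ HomOp τ z B :=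
  fun _ hx => ⟨W, ⟨h1, h2⟩, hx⟩

private theorem cl_HO {X : Type} (τ : TopologicalSpace X) (z : Set X → Set X)
    (hz : ∀ A B, A ⊆ B → z A ⊆ z B) (B : Set X) :
    HomOp τ z B ⊆ closure[τ] (z (HomOp τ z B)) := by
  rintro x ⟨W, ⟨hW, hW2⟩, hx⟩
  have h1 : W ⊆ HomOp τ z B := mem_HO τ z hW hW2
  exact @closure_mono X τ _ _ (hz _ _ h1) _ (hW2 hx)

theorem hHO : StHO := by
  intro X τ z hz
  refine ⟨sub_HO τ z, ?_, cl_HO τ z hz, fun W B => mem_HO τ z, ?_, ?_, ?_, ?_⟩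
  · rintro A B hAB x ⟨W, ⟨hW, hW2⟩, hx⟩
    exact ⟨W, ⟨hW.trans hAB, hW2⟩, hx⟩
  · intro B hB
    have h1 : closure[τ] (HomOp τ z B) ⊆ HomOp τ z B := by
      refine mem_HO τ z ?_ ?_
      · exact @closure_minimal X τ _ _ (sub_HO τ z B) hB
      · refine (@closure_minimal X τ _ _ (cl_HO τ z hz B) (@isClosed_closure X τ _)).trans ?_
        exact @closure_mono X τ _ _ (hz _ _ (@subset_closure X τ _))
    exact @isClosed_of_closure_subset X τ _ h1
  · intro B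
    exact Set.Subset.antisymm (sub_HO τ z _) (mem_HO τ z subset_rfl (cl_HO τ z hz B))
  · intro hloc O B hO
    refine Set.Subset.antisymm ?_ ?_
    · rintro x ⟨W, ⟨hW, hW2⟩, hx⟩
      exact ⟨⟨W, ⟨hW.trans inter_subset_left, hW2⟩, hx⟩, (hW hx).2⟩
    · refine mem_HO τ z (inter_subset_inter_left _ (sub_HO τ z B)) ?_
      rintro x ⟨hx, hxO⟩
      have h1 := cl_HO τ z hz B hx
      have hop : IsOpen[τ] O := @IsClopen.isOpen X τ _ hO
      have h2 : x ∈ closure[τ] (z (HomOp τ z B) ∩ O) := by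
        rw [inter_comm]
        exact @IsOpen.inter_closure X τ _ _ hop _ ⟨hxO, h1⟩
      rwa [← hloc O _ hO] at h2
  · intro τ' z' hτ hz' B
    rintro x ⟨W, ⟨hW, hW2⟩, hx⟩
    refine ⟨W, ⟨hW, ?_⟩, hx⟩
    exact (hW2.trans (@closure_mono X τ' _ _ (hz' W))).trans (closure.mono hτ)

end Pool.Agent.Helper24.WH
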