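import Pool.Agent.Helper24.WH.St5
import Pool.Agent.Helper24.WH.M_HO

/-!
# PROJECT WH, module BA: a fixpoint of `del c` has `V_c` dense
-/

set_option autoImplicit false

namespace Pool.Agent.Helper24.WH

open Set TopologicalSpace Topology
open Ordinal hiding univ

/-- a closed set for a topology with a countable basis of sets closed for a second topology is `G_δ` there -/
private theorem gd_BA {X : Type} (σ σ' : TopologicalSpace X) (P : Set (Set X)) (hc : P.Countable)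
    (hcl : ∀ O ∈ P, IsClosed[σ'] O)
    (hb : ∀ (x : X) (U : Set X), IsOpen[σ] U → x ∈ U → ∃ O ∈ P, x ∈ O ∧ O ⊆ U)
    (F : Set X) (hF : IsClosed[σ] F) : @IsGδ X σ' F := by
  refine ⟨{V | ∃ O ∈ P, O ⊆ Fᶜ ∧ V = Oᶜ}, ?_, ?_, ?_⟩
  · rintro V ⟨O, hO, -, rfl⟩
    exact @IsClosed.isOpen_compl X σ' O (hcl O hO)
  · refine (hc.image compl).mono ?_
    rintro V ⟨O, hO, -, rfl⟩
    exact ⟨O, hO, rfl⟩
  · ext x
    simp only [mem_sInter, mem_ofPred_eq]
    constructor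
    · rintro hx V ⟨O, -, hOF, rfl⟩ hxO
      exact hOF hxO hx
    · intro h
      by_contra hx
      have hop : IsOpen[σ] (Fᶜ) := @IsClosed.isOpen_compl X σ F hF
      obtain ⟨O, hO, hxO, hOF⟩ := hb x Fᶜ hop hx
      exact h Oᶜ ⟨O, hO, hOF, rfl⟩ hxO

/-- Baire category on a closed subset of a Polish space -/
private theorem baire_BA {X : Type} [TopologicalSpace X] [PolishSpace X] {B : Set X} (hB : IsClosed B)
    {ι : Type} [Countable ι] (D : ι → Set X) (hG : ∀ i, IsGδ (D i)) (hDB : ∀ i, D i ⊆ B)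
    (hD : ∀ i, B ⊆ closure (D i)) : B ⊆ closure (B ∩ ⋂ i, D i) := by
  have : PolishSpace B := hB.polishSpace
  have hd : Dense (⋂ i, ((Subtype.val : B → X) ⁻¹' (D i))) := by
    refine dense_iInter_of_Gδ (fun i => ?_) (fun i => ?_)
    · exact (hG i).preimage continuous_subtype_val
    · intro x
      rw [closure_subtype, Subtype.image_preimage_coe, inter_eq_right.2 (hDB i)]
      exact hD i x.2
  intro x hx
  have h1 := hd ⟨x, hx⟩
  rw [closure_subtype] at h1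
  refine closure_mono ?_ h1
  rintro y ⟨z, hz, rfl⟩
  refine ⟨z.2, ?_⟩
  simp only [mem_iInter, mem_preimage] at hz ⊢
  exact hz

/-- the fibres of `h ∘ g` -/
private theorem fib_BA {X S : Type} [Finite S] (τ : ℕ → TopologicalSpace X) (g : X → S) (h : S → Bool)
    (hg : Fib τ g) (s : Bool) : Clp (τ 0) ((h ∘ g) ⁻¹' {s}) := by
  have e : (h ∘ g) ⁻¹' {s} = ⋃ s' ∈ {s' : S | h s' = s}, g ⁻¹' {s'} := by
    ext x
    simp
  rw [e]
  let _i := τ 0
  exact Set.Finite.isClopen_biUnion (Set.toFinite _) (fun i _ => hg i)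

private theorem Vbot_BA {X : Type} (τ : ℕ → TopologicalSpace X) (f : X → Bool) (m : ℕ) (B : Set X) :
    Vo τ f m (Cd.bot m) B = B := by
  cases m with
  | zero =>
    change {x ∈ B | Cd.B (Cd.bot 0) = false} = B
    ext x
    exact ⟨fun h => h.1, fun h => ⟨h, rfl⟩⟩
  | succ m => rfl

theorem hBA (hCA : StCA) (hRA : StRA) (hRB : StRB) : StBA := by
  intro X S _ n τ g h P hS m hm c hc B hB hfix
  obtain ⟨hcnt, hbotle, hwfb, -, hval, -⟩ := hCA m
  obtain ⟨-, -, -, hZle, -, -, -, -, hZV, hVZ, hlim, -⟩ := hRA X τ (h ∘ g) m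
  obtain ⟨-, hZder, -⟩ := hRB X τ (h ∘ g) hS.tow (fib_BA τ g h hS.fib) m
  by_cases hbot : c = Cd.bot m
  · subst hbot
    rw [Vbot_BA]
    exact @subset_closure X (τ (m + 1)) B
  -- the family of all valid codes below `c`
  let D : {c' : Cd m // Cd.wf m c' ∧ Cd.vd m c' ∧ c' ≤ c} × Bool → Set X :=
    fun p => Zo τ (h ∘ g) m p.1.1 p.2 B
  have hBm : IsClosed[τ m] B := @IsClosed.mono X (τ m) (τ (m + 1)) B hB (hS.tow.mono m)
  have hclD : ∀ p, IsClosed[τ m] (D p) := fun p => (hZder p.1.1 p.2).closed B hBm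
  have hGD : ∀ p, @IsGδ X (τ (m + 1)) (D p) := fun p =>
    gd_BA (τ m) (τ (m + 1)) (P (m + 1)) (hS.cnt (m + 1)) (hS.cl (m + 1) hm)
      (hS.basis m (Nat.le_of_succ_le hm)) (D p) (hclD p)
  have hDB : ∀ p, D p ⊆ B := fun p => hZle _ _ _
  have hden : ∀ p, B ⊆ closure[τ (m + 1)] (D p) := by
    rintro ⟨⟨c', hc'⟩, s⟩
    obtain ⟨h1, -, h3, -⟩ := hHO X (τ (m + 1)) (Zo τ (h ∘ g) m c' s) (fun A B hAB =>
      (hRA X τ (h ∘ g) m).2.2.1 c' s A B hAB)
    have h4 : B ⊆ HomOp (τ (m + 1)) (Zo τ (h ∘ g) m c' s) B := by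
      intro x hx
      have h5 := hfix hx
      have h6 := h5.2
      simp only [mem_iInter] at h6
      exact h6 c' hc' s
    have h5 : HomOp (τ (m + 1)) (Zo τ (h ∘ g) m c' s) B = B := Subset.antisymm (h1 B) h4
    have h6 := h3 B
    rw [h5] at h6
    exact h6
  have hmain := @baire_BA X (τ (m + 1)) (hS.pol (m + 1) hm) B hB _ _ D hGD hDB hden
  refine hmain.trans (@closure_mono X (τ (m + 1)) _ _ ?_)
  rintro x ⟨hxB, hx⟩
  simp only [mem_iInter] at hx
  by_cases hvc : Cd.vd m c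
  · rw [hVZ c B hc hvc]
    exact ⟨hx ⟨⟨c, hc, hvc, le_rfl⟩, false⟩, hx ⟨⟨c, hc, hvc, le_rfl⟩, true⟩⟩
  · refine hlim c B hc hvc hbot x (fun c' hc' hlt => ?_)
    obtain ⟨r, hr, hvr, hcr, hrc⟩ := hval c' c hc' hc hlt
    exact hZV r c' false B hr hvr hc' hcr (hx ⟨⟨r, hr, hvr, hrc⟩, false⟩)

end Pool.Agent.Helper24.WH
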