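import Pool.Agent.Helper24.WH.St4

/-!
# PROJECT WH (MP_76577a_lc), module BB: the base tower
-/

set_option autoImplicit false

namespace Pool.Agent.Helper24.WH

open Set TopologicalSpace Topology
open Ordinal hiding univ

theorem closed_mono_BB {X : Type} {τ τ' : TopologicalSpace X} (h : τ' ≤ τ) {F : Set X}
    (hF : IsClosed[τ] F) : IsClosed[τ'] F := by
  rw [← @isOpen_compl_iff X F τ'] 
  rw [← @isOpen_compl_iff X F τ] at hF
  exact h _ hF

/-- the least closed definable set above `s` -/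
def Cl_BB {A S : Type} (τ : TopologicalSpace (Tre A)) (g : Tre A → S) (s : S) : Set S :=
  {x | ∀ K : Set S, IsClosed[τ] (g ⁻¹' K) → s ∈ K → x ∈ K}

theorem Cl_closed_BB {A S : Type} (τ : TopologicalSpace (Tre A)) (g : Tre A → S) (s : S) :
    IsClosed[τ] (g ⁻¹' (Cl_BB τ g s)) := by
  letI := τ
  have e : g ⁻¹' (Cl_BB τ g s) =
      ⋂ K : {K : Set S // IsClosed[τ] (g ⁻¹' K) ∧ s ∈ K}, g ⁻¹' K.1 := by
    ext x
    simp only [mem_preimage, Cl_BB, mem_setOf_eq, mem_iInter, Subtype.forall]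
    exact ⟨fun h K hK => h K hK.1 hK.2, fun h K h1 h2 => h K ⟨h1, h2⟩⟩
  rw [e]
  exact isClosed_iInter fun K => K.2.1

theorem mem_Cl_BB {A S : Type} (τ : TopologicalSpace (Tre A)) (g : Tre A → S) (s : S) :
    s ∈ Cl_BB τ g s := fun _ _ h => h

theorem split_BB {A S : Type} [Finite S] (τ : TopologicalSpace (Tre A)) (g : Tre A → S)
    (Ga : A → S × S → S) (hg : ∀ a p, g (Tre.mk a p) = Ga a (g p.1, g p.2)) (a : A)
    (hCE : CE (@instTopologicalSpaceProd _ _ τ τ) τ (Tre.mk a)) (K : Set S)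
    (hK : IsClosed[τ] (g ⁻¹' K)) :
    ∃ (k : ℕ) (K₀ K₁ : Fin k → Set S),
      (∀ q, IsClosed[τ] (g ⁻¹' (K₀ q))) ∧ (∀ q, IsClosed[τ] (g ⁻¹' (K₁ q))) ∧
      g ⁻¹' K ∩ range (Tre.mk a) = ⋃ q, Tre.mk a '' ((g ⁻¹' (K₀ q)) ×ˢ (g ⁻¹' (K₁ q))) := by
  classical
  letI := τ
  have hcont : Continuous (Tre.mk a : Tre A × Tre A → Tre A) := by
    rw [continuous_iff_le_induced]
    exact hCE.2.1.le
  -- sections
  have sec1 : ∀ y : Tre A, IsClosed (g ⁻¹' {s : S | Ga a (s, g y) ∈ K}) := by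
    intro y
    have h1 : Continuous fun x : Tre A => Tre.mk a (x, y) := hcont.comp (by fun_prop)
    have h2 := hK.preimage h1
    have e : (fun x : Tre A => Tre.mk a (x, y)) ⁻¹' (g ⁻¹' K) =
        g ⁻¹' {s : S | Ga a (s, g y) ∈ K} := by
      ext x
      simp only [mem_preimage, mem_setOf_eq, hg]
    rw [e] at h2
    exact h2
  have sec2 : ∀ x : Tre A, IsClosed (g ⁻¹' {s : S | Ga a (g x, s) ∈ K}) := by
    intro x
    have h1 : Continuous fun y : Tre A => Tre.mk a (x, y) := hcont.comp (by fun_prop)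
    have h2 := hK.preimage h1
    have e : (fun y : Tre A => Tre.mk a (x, y)) ⁻¹' (g ⁻¹' K) =
        g ⁻¹' {s : S | Ga a (g x, s) ∈ K} := by
      ext y
      simp only [mem_preimage, mem_setOf_eq, hg]
    rw [e] at h2
    exact h2
  have key : ∀ x₀ y₀ : Tre A, Ga a (g x₀, g y₀) ∈ K → ∀ x y : Tre A,
      g x ∈ Cl_BB τ g (g x₀) → g y ∈ Cl_BB τ g (g y₀) → Ga a (g x, g y) ∈ K := by
    intro x₀ y₀ h x y hx hy
    have h1 : Ga a (g x, g y₀) ∈ K := hx _ (sec1 y₀) h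
    exact hy _ (sec2 x) h1
  let I := {p : S × S // p.1 ∈ range g ∧ p.2 ∈ range g ∧ Ga a p ∈ K}
  let e : I ≃ Fin (Nat.card I) := Finite.equivFin I
  refine ⟨Nat.card I, fun q => Cl_BB τ g (e.symm q).1.1, fun q => Cl_BB τ g (e.symm q).1.2,
    fun q => Cl_closed_BB τ g _, fun q => Cl_closed_BB τ g _, ?_⟩
  ext t
  constructor
  · rintro ⟨ht, ⟨⟨x, y⟩, rfl⟩⟩
    rw [mem_preimage, hg] at ht
    rw [mem_iUnion]
    refine ⟨e ⟨(g x, g y), ⟨x, rfl⟩, ⟨y, rfl⟩, ht⟩, (x, y), ⟨?_, ?_⟩, rfl⟩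
    · show g x ∈ Cl_BB τ g _
      rw [Equiv.symm_apply_apply]
      exact mem_Cl_BB τ g _
    · show g y ∈ Cl_BB τ g _
      rw [Equiv.symm_apply_apply]
      exact mem_Cl_BB τ g _
  · rw [mem_iUnion]
    rintro ⟨q, ⟨x, y⟩, ⟨hx, hy⟩, rfl⟩
    refine ⟨?_, ⟨(x, y), rfl⟩⟩
    rw [mem_preimage, hg]
    have hx' : g x ∈ Cl_BB τ g (e.symm q).1.1 := hx
    have hy' : g y ∈ Cl_BB τ g (e.symm q).1.2 := hy
    obtain ⟨x₀, hx₀⟩ := (e.symm q).2.1
    obtain ⟨y₀, hy₀⟩ := (e.symm q).2.2.1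
    have hR : Ga a ((e.symm q).1.1, (e.symm q).1.2) ∈ K := (e.symm q).2.2.2
    rw [← hx₀] at hx' hR
    rw [← hy₀] at hy' hR
    exact key x₀ y₀ hR x y hx' hy'

theorem hBB (hNT : StNT) : StBB := by
  intro A S _ _ g Ga hg
  obtain ⟨n1, n2, -, n4, -, n6, -⟩ := hNT A
  have step : ∀ j, bT g (j + 1) ≤ bT g j ∧
      ∀ a, CE (@instTopologicalSpaceProd _ _ (bT g j) (bT g j)) (bT g j) (Tre.mk a) := by
    intro j
    induction j with
    | zero =>
      refine ⟨n1 ∅ _ (empty_subset _), fun a => n6 ∅ (fun F hF => absurd hF (notMem_empty F)) a⟩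
    | succ j ih =>
      refine ⟨n1 _ _ ?_, fun a => n6 _ ?_ a⟩
      · rintro F ⟨K, hF, hcl⟩
        exact ⟨K, hF, closed_mono_BB ih.1 hcl⟩
      · rintro F ⟨K, hF, hcl⟩ a
        rw [hF] at hcl
        obtain ⟨k, K₀, K₁, h0, h1, h2⟩ := split_BB (bT g j) g Ga hg a (ih.2 a) K hcl
        refine ⟨k, fun q => g ⁻¹' (K₀ q), fun q => g ⁻¹' (K₁ q), fun q => ?_, fun q => ?_, ?_⟩
        · exact n2 _ _ ⟨K₀ q, rfl, h0 q⟩
        · exact n2 _ _ ⟨K₁ q, rfl, h1 q⟩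
        · rw [hF]
          exact h2
  intro j
  refine ⟨(step j).1, ?_, (step j).2, fun K hK a => split_BB (bT g j) g Ga hg a ((step j).2 a) K hK⟩
  rcases j with _ | j
  · exact n4 ∅ fun F hF => absurd hF (notMem_empty F)
  · refine n4 _ ?_
    rintro F ⟨K, hF, hcl⟩
    exact closed_mono_BB (step j).1 hcl

end Pool.Agent.Helper24.WH
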