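import Pool.Agent.Helper24.WH.St1

/-!
# PROJECT WH, module BF: a finite set with equality is a better quasi order
-/

set_option autoImplicit false

namespace Pool.Agent.Helper24.WH

open Set TopologicalSpace Ordinal Topology

theorem hBF (h : StGP) : StBF := by
  intro S _ c _ hm
  obtain ⟨k, ⟨e⟩⟩ := Finite.exists_equiv_fin S
  obtain ⟨Y, s, hY⟩ := h k (fun X => e (c X)) (fun s => by
    have : (fun X => e (c X)) ⁻¹' {s} = c ⁻¹' {e.symm s} := by
      ext X
      simp [Equiv.eq_symm_apply]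
    rw [this]
    exact hm _)
  refine ⟨Y, ?_⟩
  have h1 : Y.comp ⟨fun n => n, strictMono_id⟩ = Y := rfl
  have h2 : Y.comp ⟨fun n => n + 1, fun _ _ hh => Nat.add_lt_add_right hh 1⟩ = Y.sh := rfl
  have a1 := hY ⟨fun n => n, strictMono_id⟩
  have a2 := hY ⟨fun n => n + 1, fun _ _ hh => Nat.add_lt_add_right hh 1⟩
  rw [h1] at a1
  rw [h2] at a2
  exact e.injective (a1.trans a2.symm)

end Pool.Agent.Helper24.WH
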