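import Pool.Agent.Helper24.WH.St1

/-!
# PROJECT WH, module BP: product of a better quasi order with a finite set
-/

set_option autoImplicit false

namespace Pool.Agent.Helper24.WH

open Set TopologicalSpace Ordinal Topology

private theorem comp_cont_BP (Y : Inc) : Continuous (fun Z : Inc => Y.comp Z) := by
  refine Continuous.subtype_mk (f := fun Z : Inc => Y.1 ∘ Z.1) ?_ _
  refine continuous_pi fun n => ?_
  exact (continuous_of_discreteTopology (f := Y.1)).comp
    ((continuous_apply n).comp (continuous_subtype_val (p := fun X : ℕ → ℕ => StrictMono X)))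

private theorem sh_comp_BP (Y Z : Inc) : (Y.comp Z).sh = Y.comp Z.sh := rfl

theorem hBP (h : StGP) : StBP := by
  intro Q r k hr c hcr hcm
  have h2 : ∀ s : Fin k, MeasurableSet ((fun X => (c X).2) ⁻¹' {s}) := by
    intro s
    have he : (fun X => (c X).2) ⁻¹' {s} =
        ⋃ q ∈ (Prod.fst '' range c), c ⁻¹' {(q, s)} := by
      ext X
      simp only [mem_preimage, mem_singleton_iff, mem_iUnion, exists_prop]
      constructor
      · intro hX
        exact ⟨(c X).1, ⟨c X, ⟨X, rfl⟩, rfl⟩, Prod.ext rfl hX⟩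
      · rintro ⟨q, _, hq⟩
        rw [hq]
    rw [he]
    exact MeasurableSet.biUnion (hcr.image _) fun q _ => hcm (q, s)
  obtain ⟨Y, s, hY⟩ := h k (fun X => (c X).2) h2
  have hmeas : Measurable (fun Z : Inc => Y.comp Z) := (comp_cont_BP Y).measurable
  obtain ⟨X, hX⟩ := hr (fun Z => (c (Y.comp Z)).1) (by
      refine (hcr.image Prod.fst).mono ?_
      rintro _ ⟨Z, rfl⟩
      exact ⟨c (Y.comp Z), ⟨Y.comp Z, rfl⟩, rfl⟩) (by
      intro q
      have he : (fun Z => (c (Y.comp Z)).1) ⁻¹' {q} =
          (fun Z : Inc => Y.comp Z) ⁻¹' (c ⁻¹' {(q, s)}) := by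
        ext Z
        simp only [mem_preimage, mem_singleton_iff]
        constructor
        · intro hZ
          exact Prod.ext hZ (hY Z)
        · intro hZ
          rw [hZ]
      rw [he]
      exact hmeas (hcm (q, s)))
  refine ⟨Y.comp X, ?_, ?_⟩
  · rw [sh_comp_BP]
    exact hX
  · rw [sh_comp_BP]
    exact (hY X).trans (hY X.sh).symm

end Pool.Agent.Helper24.WH
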