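import Pool.Agent.Helper24.WH.St1

/-!
# PROJECT WH, module BT: trees over a better quasi order
-/

set_option autoImplicit false

namespace Pool.Agent.Helper24.WH

open Set TopologicalSpace Ordinal Topology

private theorem cont_sh_BT : Continuous Inc.sh := by
  refine continuous_induced_rng.2 ?_
  refine continuous_pi fun n => ?_
  exact (continuous_apply (n + 1)).comp continuous_induced_dom

/-- the child number `i` (a leaf is its own child) -/
private def chd_BT {A : Type} (i : ℕ) : Tr A → Tr A
  | .leaf a => .leaf a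
  | .node _ F => F i

open Classical in
/-- one step of the tree argument -/
private noncomputable def stp_BT {A : Type} (r : A → A → Prop) (t u : Tr A) : Tr A :=
  if h : r t.lab u.lab ∧ ∃ i, ¬ Tr.Le r (chd_BT i t) u then chd_BT (Nat.find h.2) t else t

private theorem stp_eq_BT {A : Type} (r : A → A → Prop) (t u : Tr A) :
    stp_BT r t u = t ∨ ∃ i, stp_BT r t u = chd_BT i t := by
  classical
  unfold stp_BT
  split_ifs with h
  · exact Or.inr ⟨_, rfl⟩
  · exact Or.inl rfl

private theorem child_ex_BT {A : Type} (r : A → A → Prop) (t u : Tr A) (h : ¬ Tr.Le r t u)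
    (hl : r t.lab u.lab) : (∃ a F, t = Tr.node a F) ∧ ∃ i, ¬ Tr.Le r (chd_BT i t) u := by
  cases t with
  | leaf a => exact absurd (Tr.Le.leaf a u hl) h
  | node a F =>
    refine ⟨⟨a, F, rfl⟩, ?_⟩
    by_contra hcon
    push Not at hcon
    exact h (Tr.Le.node a F u hl fun i => hcon i)

private theorem stp_not_BT {A : Type} (r : A → A → Prop) (t u : Tr A) (h : ¬ Tr.Le r t u) :
    ¬ Tr.Le r (stp_BT r t u) u := by
  classical
  unfold stp_BT
  split_ifs with h1
  · exact Nat.find_spec h1.2
  · exact h

private theorem le_chd_BT {A : Type} (r : A → A → Prop) (s u : Tr A) (i : ℕ)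
    (h : Tr.Le r s (chd_BT i u)) : Tr.Le r s u := by
  cases u with
  | leaf a => exact h
  | node a F => exact Tr.Le.sub s a F i h

/-- no tree is its own child -/
private theorem irr_BT {A : Type} : ∀ (t : Tr A) (a : A) (F : ℕ → Tr A) (i : ℕ), t = Tr.node a F → F i ≠ t := by
  intro t
  induction t with
  | leaf b =>
    intro a F i h
    exact absurd h (by simp)
  | node b G ih =>
    intro a F i h hF
    injection h with h1 h2
    subst h1
    subst h2
    exact ih i b G i hF rfl

/-- a sequence which moves to children is eventually constant -/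
private theorem lim_BT {A : Type} : ∀ (t : Tr A) (x : ℕ → Tr A), x 0 = t →
    (∀ k, x (k + 1) = x k ∨ ∃ i, x (k + 1) = chd_BT i (x k)) → ∃ K, ∀ k ≥ K, x k = x K := by
  intro t
  induction t with
  | leaf b =>
    intro x h0 hx
    refine ⟨0, fun k _ => ?_⟩
    induction k with
    | zero => rfl
    | succ k ih =>
      have ih' : x k = x 0 := ih (Nat.zero_le _)
      rcases hx k with h | ⟨i, h⟩
      · rw [h, ih']
      · rw [h, ih', h0]
        rfl
  | node b G ih =>
    intro x h0 hx
    by_cases hall : ∀ k, x k = Tr.node b G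
    · exact ⟨0, fun k _ => by rw [hall k, hall 0]⟩
    · push Not at hall
      classical
      have hm := Nat.find_spec hall
      obtain ⟨m, hm1⟩ : ∃ m, Nat.find hall = m + 1 := by
        rcases Nat.eq_zero_or_eq_succ_pred (Nat.find hall) with h | h
        · rw [h] at hm
          exact absurd h0 hm
        · exact ⟨_, h⟩
      have hmin : x m = Tr.node b G := by
        have := Nat.find_min hall (m := m) (by omega)
        push Not at this
        exact this
      rw [hm1] at hm
      rcases hx m with h | ⟨i, h⟩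
      · exact absurd (h.trans hmin) hm
      · rw [hmin] at h
        have h' : x (m + 1) = G i := h
        obtain ⟨K, hK⟩ := ih i (fun k => x (m + 1 + k)) h' (fun k => hx (m + 1 + k))
        refine ⟨m + 1 + K, fun k hk => ?_⟩
        have h9 : x (m + 1 + (k - (m + 1))) = x (m + 1 + K) := hK (k - (m + 1)) (by omega)
        rw [show m + 1 + (k - (m + 1)) = k by omega] at h9
        exact h9

/-- the arrays of the argument -/
private noncomputable def cs_BT {A : Type} (r : A → A → Prop) (c : Inc → Tr A) : ℕ → Inc → Tr A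
  | 0 => c
  | (k + 1) => fun X => stp_BT r (cs_BT r c k X) (cs_BT r c k X.sh)

/-- iterated children -/
private def D_BT {A : Type} (S : Set (Tr A)) : ℕ → Set (Tr A)
  | 0 => S
  | (k + 1) => D_BT S k ∪ ⋃ i, chd_BT i '' D_BT S k

private theorem D_count_BT {A : Type} (S : Set (Tr A)) (hS : S.Countable) : ∀ k, (D_BT S k).Countable
  | 0 => hS
  | (k + 1) => (D_count_BT S hS k).union (countable_iUnion fun _ => (D_count_BT S hS k).image _)

private theorem cs_mem_BT {A : Type} (r : A → A → Prop) (c : Inc → Tr A) : ∀ k X,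
    cs_BT r c k X ∈ D_BT (range c) k
  | 0, X => ⟨X, rfl⟩
  | (k + 1), X => by
      have h := cs_mem_BT r c k X
      rcases stp_eq_BT r (cs_BT r c k X) (cs_BT r c k X.sh) with h1 | ⟨i, h1⟩
      · left
        show stp_BT r (cs_BT r c k X) (cs_BT r c k X.sh) ∈ _
        rw [h1]
        exact h
      · right
        show stp_BT r (cs_BT r c k X) (cs_BT r c k X.sh) ∈ _
        rw [h1]
        exact mem_iUnion.2 ⟨i, mem_image_of_mem _ h⟩

private theorem cs_meas_BT {A : Type} (r : A → A → Prop) (c : Inc → Tr A) (hc : (range c).Countable)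
    (hm : ∀ q, MeasurableSet (c ⁻¹' {q})) : ∀ k q, MeasurableSet (cs_BT r c k ⁻¹' {q})
  | 0, q => hm q
  | (k + 1), q => by
      have ih := cs_meas_BT r c hc hm k
      have hset : cs_BT r c (k + 1) ⁻¹' {q} =
          ⋃ p ∈ {p : Tr A × Tr A | (p.1 ∈ D_BT (range c) k ∧ p.2 ∈ D_BT (range c) k) ∧ stp_BT r p.1 p.2 = q},
            (cs_BT r c k ⁻¹' {p.1}) ∩ Inc.sh ⁻¹' (cs_BT r c k ⁻¹' {p.2}) := by
        ext X
        simp only [mem_preimage, mem_singleton_iff, mem_ofPred_eq, mem_iUnion, mem_inter_iff, exists_prop,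
          Prod.exists]
        constructor
        · intro h
          exact ⟨cs_BT r c k X, cs_BT r c k X.sh, ⟨⟨cs_mem_BT r c k X, cs_mem_BT r c k X.sh⟩, h⟩, rfl, rfl⟩
        · rintro ⟨t, u, ⟨_, h1⟩, h2, h3⟩
          show stp_BT r (cs_BT r c k X) (cs_BT r c k X.sh) = q
          rw [h2, h3, h1]
      rw [hset]
      refine MeasurableSet.biUnion ?_ fun p _ => (ih p.1).inter (cont_sh_BT.measurable (ih p.2))
      refine Set.Countable.mono ?_ ((D_count_BT _ hc k).prod (D_count_BT _ hc k))
      rintro p ⟨h1, _⟩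
      exact mem_prod.2 h1

private theorem cs_bad_BT {A : Type} (r : A → A → Prop) (c : Inc → Tr A)
    (hb : ∀ X : Inc, ¬ Tr.Le r (c X) (c X.sh)) : ∀ k X, ¬ Tr.Le r (cs_BT r c k X) (cs_BT r c k X.sh)
  | 0, X => hb X
  | (k + 1), X => by
      intro h
      have h1 := stp_not_BT r _ _ (cs_bad_BT r c hb k X)
      apply h1
      change Tr.Le r (stp_BT r (cs_BT r c k X) (cs_BT r c k X.sh))
        (stp_BT r (cs_BT r c k X.sh) (cs_BT r c k X.sh.sh)) at h
      rcases stp_eq_BT r (cs_BT r c k X.sh) (cs_BT r c k X.sh.sh) with h2 | ⟨i, h2⟩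
      · rw [h2] at h
        exact h
      · rw [h2] at h
        exact le_chd_BT r _ _ i h

/-- trees over a better quasi order -/
theorem hBT : StBT := by
  intro A r _ _ hr c hc hm
  by_contra hcon
  push Not at hcon
  have hbad := cs_bad_BT r c hcon
  -- the limit
  have hlim : ∀ X, ∃ K, ∀ k ≥ K, cs_BT r c k X = cs_BT r c K X := by
    intro X
    exact lim_BT _ (fun k => cs_BT r c k X) rfl (fun k => stp_eq_BT r _ _)
  choose K hK using hlim
  set ci : Inc → Tr A := fun X => cs_BT r c (K X) X with hci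
  have hci1 : ∀ X, ∀ k ≥ K X, cs_BT r c k X = ci X := fun X k hk => hK X k hk
  have hnr : ∀ X : Inc, ¬ r (ci X).lab (ci X.sh).lab := by
    intro X hX
    set k := max (K X) (K X.sh) with hk
    have e1 : cs_BT r c k X = ci X := hci1 X k (le_max_left _ _)
    have e2 : cs_BT r c k X.sh = ci X.sh := hci1 X.sh k (le_max_right _ _)
    have e3 : cs_BT r c (k + 1) X = ci X := hci1 X (k + 1) ((le_max_left _ _).trans (Nat.le_succ _))
    have e4 : stp_BT r (ci X) (ci X.sh) = ci X := by
      rw [← e1, ← e2]
      rw [← e1] at e3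
      exact e3
    have hb : ¬ Tr.Le r (ci X) (ci X.sh) := by
      rw [← e1, ← e2]
      exact hbad k X
    obtain ⟨⟨a, F, hF⟩, hi⟩ := child_ex_BT r _ _ hb hX
    classical
    have h5 : stp_BT r (ci X) (ci X.sh) = chd_BT (Nat.find hi) (ci X) := by
      unfold stp_BT
      rw [dif_pos ⟨hX, hi⟩]
    rw [h5] at e4
    have h6 : ∀ n, chd_BT n (ci X) = F n := by
      intro n
      rw [hF]
      rfl
    exact irr_BT (ci X) a F (Nat.find hi) hF ((h6 _).symm.trans e4)
  -- countable range
  have hDc : (⋃ k, D_BT (range c) k).Countable := countable_iUnion fun k => D_count_BT _ hc k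
  have hciD : ∀ X, ci X ∈ ⋃ k, D_BT (range c) k := fun X => mem_iUnion.2 ⟨K X, cs_mem_BT r c (K X) X⟩
  have hcim : ∀ q, MeasurableSet (ci ⁻¹' {q}) := by
    intro q
    have hset : ci ⁻¹' {q} = ⋃ n : ℕ, ⋂ j : ℕ, cs_BT r c (n + j) ⁻¹' {q} := by
      ext X
      simp only [mem_preimage, mem_singleton_iff, mem_iUnion, mem_iInter]
      constructor
      · intro h
        exact ⟨K X, fun j => by rw [hci1 X (K X + j) (Nat.le_add_right _ _)]; exact h⟩
      · rintro ⟨n, h⟩
        rw [← hci1 X (n + K X) (Nat.le_add_left _ _)]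
        exact h (K X)
    rw [hset]
    exact MeasurableSet.iUnion fun n => MeasurableSet.iInter fun j => cs_meas_BT r c hc hm (n + j) q
  obtain ⟨X, hX⟩ := hr (fun X => (ci X).lab) (by
      refine Set.Countable.mono ?_ (hDc.image Tr.lab)
      rintro _ ⟨X, rfl⟩
      exact mem_image_of_mem _ (hciD X)) (by
      intro a
      have hset : (fun X => (ci X).lab) ⁻¹' {a} =
          ⋃ t ∈ {t : Tr A | t ∈ ⋃ k, D_BT (range c) k ∧ t.lab = a}, ci ⁻¹' {t} := by
        ext X
        simp only [mem_preimage, mem_singleton_iff, mem_iUnion, mem_ofPred_eq, exists_prop]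
        constructor
        · intro h
          exact ⟨ci X, ⟨mem_iUnion.1 (hciD X), h⟩, rfl⟩
        · rintro ⟨t, ⟨_, h1⟩, h2⟩
          rw [h2, h1]
      rw [hset]
      refine MeasurableSet.biUnion ?_ fun t _ => hcim t
      refine Set.Countable.mono ?_ hDc
      intro t ht
      exact ht.1)
  exact hnr X hX

end Pool.Agent.Helper24.WH
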