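import Pool.Agent.Helper24.WH.St1

/-!
# WH module BW: better quasi orders are well quasi orders, also for sequences under domination
-/

set_option autoImplicit false

namespace Pool.Agent.Helper24.WH

open Set TopologicalSpace Ordinal Topology

private theorem cont_BW (n : ℕ) : Continuous fun X : Inc => X.1 n :=
  (continuous_apply n).comp (continuous_subtype_val (p := fun X : ℕ → ℕ => StrictMono X))

private theorem array_BW {Q : Type} {r : Q → Q → Prop} (h : BQ r) (g : ℕ × ℕ → Q) :
    ∃ X : Inc, r (g (X.1 0, X.1 1)) (g (X.1 1, X.1 2)) := by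
  have hc : Continuous fun X : Inc => (X.1 0, X.1 1) := (cont_BW 0).prodMk (cont_BW 1)
  obtain ⟨X, hX⟩ := h (fun X => g (X.1 0, X.1 1))
    ((countable_range g).mono (by rintro _ ⟨X, rfl⟩; exact ⟨_, rfl⟩)) (by
      intro q
      have h1 : (fun X : Inc => g (X.1 0, X.1 1)) ⁻¹' {q} =
          (fun X : Inc => (X.1 0, X.1 1)) ⁻¹' (g ⁻¹' {q}) := rfl
      rw [h1]
      exact ((isOpen_discrete (g ⁻¹' {q})).preimage hc).measurableSet)
  exact ⟨X, hX⟩

theorem hBW : StBW := by
  intro Q r h
  constructor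
  · intro f
    obtain ⟨X, hX⟩ := array_BW h (fun p => f p.1)
    exact ⟨X.1 0, X.1 1, X.2 one_pos, hX⟩
  · intro F
    by_contra hcon
    have h1 : ∀ i j : ℕ, ∃ k : ℕ, i < j → ∀ l, ¬ r (F i k) (F j l) := by
      intro i j
      by_cases hij : i < j
      · by_contra h2
        push Not at h2
        exact hcon ⟨i, j, hij, fun k => (h2 k).2⟩
      · exact ⟨0, fun h2 => absurd h2 hij⟩
    choose k hk using h1
    obtain ⟨X, hX⟩ := array_BW h (fun p => F p.1 (k p.1 p.2))
    exact hk (X.1 0) (X.1 1) (X.2 one_pos) _ hX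

end Pool.Agent.Helper24.WH
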