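import Pool.Agent.Helper24.WH.St6

/-!
# PROJECT WH, module C0: the case `M = 0` of the comparison theorem
-/

set_option autoImplicit false

namespace Pool.Agent.Helper24.WH

open Set TopologicalSpace Topology

/-- a strategy built from single steps which see the length of the history and the current set -/
noncomputable def strat_C0 {X Y : Type} (Q : Set Y)
    (step : Set X × Set Y → ℕ → Set Y → Set Y) : Hist X Y → Set Y
  | [] => Q
  | mv :: h => step mv h.length (strat_C0 Q step h)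

private theorem length_hist_C0 {X Y : Type} (p : ℕ → Set X × Set Y) : ∀ l, (hist p l).length = l
  | 0 => rfl
  | l + 1 => by rw [hist, List.length_cons, length_hist_C0 p l]

theorem hC0 (hSH : StSH) : StC0 := by
  classical
  intro X A₂ n τ P f τ' P' f' hP hP' s A hA A' hA' Q hQ hf hcl
  set E : Set (Tre A₂) := A' ∩ f' ⁻¹' {s} with hE
  have hEP : E ∈ P' 0 := hP'.rich.fP A' hA' s
  have hEA : E ⊆ A' := inter_subset_left
  have hEcl : IsClosed[τ' 0] E := hP'.rich.cl 0 (Nat.zero_le _) E hEP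
  obtain ⟨m, hm, hc⟩ := (@PolishSpace.toIsCompletelyMetrizableSpace _ (τ' 0) hP'.rich.pol).complete
  -- the balls are open
  have hball : ∀ z (ε : ℝ), IsOpen[τ' 0] (@Metric.ball _ m.toPseudoMetricSpace z ε) := by
    intro z ε
    rw [← hm]
    exact @Metric.isOpen_ball _ m.toPseudoMetricSpace z ε
  -- good answers
  let G : Set X × Set (Tre A₂) → ℕ → Set (Tre A₂) → Set (Tre A₂) → Prop := fun mv k R Q₁ =>
    Q₁ ∈ P' 1 ∧ Q₁ ⊆ mv.2 ∩ R ∧ (∃ z, z ∈ Q₁ ∩ E ∧ Q₁ ⊆ Cyl k z ∧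
      Q₁ ⊆ @Metric.ball _ m.toPseudoMetricSpace z ((1 / 2 : ℝ) ^ k)) ∧
      Q₁ ⊆ closure[τ' 1] (Q₁ ∩ E)
  let step : Set X × Set (Tre A₂) → ℕ → Set (Tre A₂) → Set (Tre A₂) := fun mv k R =>
    if h : ∃ Q₁, G mv k R Q₁ then h.choose else ∅
  let σ : Hist X (Tre A₂) → Set (Tre A₂) := strat_C0 Q step
  have hσ0 : σ [] = Q := rfl
  have hσ1 : ∀ mv h, σ (mv :: h) = step mv h.length (σ h) := fun _ _ => rfl
  -- an answer exists
  have hex : ∀ (mv : Set X × Set (Tre A₂)) (k : ℕ) (R : Set (Tre A₂)), R ∈ P' 1 →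
      A' ∩ R ⊆ closure[τ' 1] (R ∩ E) → IsOpen[τ' 1] mv.2 → (mv.2 ∩ R ∩ A').Nonempty →
      ∃ Q₁, G mv k R Q₁ := by
    intro mv k R hR hRc hmo hne
    obtain ⟨y, ⟨hy1, hy2⟩, hy3⟩ := hne
    have hy := hRc ⟨hy3, hy2⟩
    obtain ⟨z, hz1, hz2, hz3⟩ := (@mem_closure_iff _ (τ' 1) _ _).1 hy mv.2 hmo hy1
    have hU : IsOpen[τ' 0] (mv.2 ∩ R ∩ @Metric.ball _ m.toPseudoMetricSpace z ((1 / 2 : ℝ) ^ k)) :=
      @IsOpen.inter _ (τ' 0) _ _ (@IsOpen.inter _ (τ' 0) _ _ (hP'.rich.tow.mono 0 _ hmo)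
        (hP'.rich.op 0 (Nat.zero_le _) R hR)) (hball z _)
    have hzb : z ∈ @Metric.ball _ m.toPseudoMetricSpace z ((1 / 2 : ℝ) ^ k) :=
      @Metric.mem_ball_self _ m.toPseudoMetricSpace z _ (by positivity)
    obtain ⟨Q₁, hQ1, hQz, hQU, hQC, hQcl⟩ := hSH A₂ n τ' P' f' hP' 0 (Nat.zero_le _) E hEP z hz3 _
      hU ⟨⟨hz1, hz2⟩, hzb⟩ k
    exact ⟨Q₁, hQ1, fun y hy => (hQU hy).1, ⟨z, ⟨hQz, hz3⟩, hQC, fun y hy => (hQU hy).2⟩, hQcl⟩
  -- the invariant
  have hinv : ∀ h, Legal (P 1) A (τ' 1) A' σ h →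
      σ h ∈ P' 1 ∧ A' ∩ σ h ⊆ closure[τ' 1] (σ h ∩ E) := by
    intro h
    induction h with
    | nil => intro _; exact ⟨hQ, fun y hy => hcl hy⟩
    | cons mv h ih =>
      intro hl
      obtain ⟨hl0, -, -, -, ho, hne⟩ := hl
      have hg := hex mv h.length (σ h) (ih hl0).1 (ih hl0).2 ho hne
      have hs : G mv h.length (σ h) (σ (mv :: h)) := by
        rw [hσ1]
        simp only [step, dif_pos hg]
        exact hg.choose_spec
      exact ⟨hs.1, fun y hy => hs.2.2.2 hy.2⟩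
  have hgood : ∀ mv h, Legal (P 1) A (τ' 1) A' σ (mv :: h) → G mv h.length (σ h) (σ (mv :: h)) := by
    intro mv h hl
    obtain ⟨hl0, -, -, -, ho, hne⟩ := hl
    have hg := hex mv h.length (σ h) (hinv h hl0).1 (hinv h hl0).2 ho hne
    rw [hσ1]
    simp only [step, dif_pos hg]
    exact hg.choose_spec
  refine ⟨σ, hσ0, ?_, ?_⟩
  · intro mv h hl
    obtain ⟨g1, g2, ⟨z, hz, -, -⟩, -⟩ := hgood mv h hl
    exact ⟨g1, g2, ⟨z, hz.1, hEA hz.2⟩⟩
  · intro p hp x hx hxp _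
    have hg : ∀ l, σ (hist p (l + 1)) ∈ P' 1 ∧ σ (hist p (l + 1)) ⊆ (p l).2 ∩ σ (hist p l) ∧
        (∃ z, z ∈ σ (hist p (l + 1)) ∩ E ∧ σ (hist p (l + 1)) ⊆ Cyl l z ∧
          σ (hist p (l + 1)) ⊆ @Metric.ball _ m.toPseudoMetricSpace z ((1 / 2 : ℝ) ^ l)) ∧
        σ (hist p (l + 1)) ⊆ closure[τ' 1] (σ (hist p (l + 1)) ∩ E) := by
      intro l
      have := hgood (p l) (hist p l) (hp (l + 1))
      rwa [length_hist_C0] at this
    have g2 := fun l => (hg l).2.1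
    choose z hz hzC hzB using fun l => (hg l).2.2.1
    have hsub : ∀ l k, l ≤ k → σ (hist p k) ⊆ σ (hist p l) := by
      intro l k hlk
      induction hlk with
      | refl => exact subset_rfl
      | step _ ih => exact fun y hy => ih (g2 _ hy).2
    -- the points form a Cauchy sequence
    have hd : ∀ l, @dist _ m.toDist (z l) (z (l + 1)) ≤ (1 : ℝ) * (1 / 2 : ℝ) ^ l := by
      intro l
      have h1 : z (l + 1) ∈ σ (hist p (l + 1)) := (g2 _ (hz (l + 1)).1).2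
      have h2 := hzB l h1
      have h3 : @dist _ m.toDist (z (l + 1)) (z l) < (1 / 2 : ℝ) ^ l := h2
      rw [@dist_comm _ m.toPseudoMetricSpace, one_mul]
      exact h3.le
    have hcau : @CauchySeq _ _ m.toUniformSpace _ z :=
      @cauchySeq_of_le_geometric _ m.toPseudoMetricSpace _ _ z (by norm_num) hd
    obtain ⟨x', hx'⟩ := @cauchySeq_tendsto_of_complete _ _ m.toUniformSpace _ hc z hcau
    have hx'2 : Filter.Tendsto z Filter.atTop (@nhds _ (τ' 0) x') := by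
      rw [← hm]; exact hx'
    have hmem : ∀ C : Set (Tre A₂), IsClosed[τ' 0] C → (∃ l, ∀ k, l ≤ k → z k ∈ C) → x' ∈ C := by
      intro C hC hl
      obtain ⟨l, hl⟩ := hl
      letI : TopologicalSpace (Tre A₂) := τ' 0
      exact IsClosed.mem_of_tendsto hC hx'2 (Filter.eventually_atTop.2 ⟨l, hl⟩)
    have hxE : x' ∈ E := hmem E hEcl ⟨0, fun k _ => (hz k).2⟩
    have hxσ : ∀ l, x' ∈ σ (hist p l) := by
      intro l
      refine hmem _ ?_ ⟨l, fun k hk => hsub l (k + 1) (by omega) (hz k).1⟩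
      exact hP'.rich.cl 0 (Nat.zero_le _) _ (hP'.rich.anti 0 (hinv _ (hp l)).1)
    refine ⟨x', hEA hxE, hxσ, ?_, ?_⟩
    · rw [hf x hx]; exact hxE.2
    · intro k
      refine ⟨k + 1, fun y hy u hu => ?_⟩
      have h1 := hzC k (hxσ (k + 1)) u hu
      have h2 := hzC k hy u hu
      rw [h1, h2]

end Pool.Agent.Helper24.WH
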