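import Pool.Agent.Helper24.WH.St5

/-!
# PROJECT WH, module CA: combinatorics of codes I
-/

set_option autoImplicit false

namespace Pool.Agent.Helper24.WH

open Set TopologicalSpace Topology
open Ordinal hiding univ

/-! ## Lists over a linear order -/

private theorem lt_split_CA {α : Type} [LinearOrder α] (l l' : List α) (h : l < l') :
    (∃ (e : α) (r : List α), l' = l ++ e :: r) ∨
    (∃ (p : List α) (e e' : α) (r r' : List α), l = p ++ e :: r ∧ l' = p ++ e' :: r' ∧ e < e') := by
  have h' : List.Lex (· < ·) l l' := h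
  clear h
  induction h' with
  | nil => exact Or.inl ⟨_, _, rfl⟩
  | @cons a as bs _ ih =>
    rcases ih with ⟨e, r, hr⟩ | ⟨p, e, e', r, r', h1, h2, h3⟩
    · exact Or.inl ⟨e, r, by rw [hr]; rfl⟩
    · exact Or.inr ⟨a :: p, e, e', r, r', by rw [h1]; rfl, by rw [h2]; rfl, h3⟩
  | @rel a as b bs hab => exact Or.inr ⟨[], a, b, as, bs, rfl, rfl, hab⟩

private theorem lt_app_CA {α : Type} [LinearOrder α] (l : List α) (e : α) (r : List α) :
    l < l ++ e :: r := by
  have : List.Lex (· < ·) (l ++ []) (l ++ e :: r) := List.Lex.append_left _ List.Lex.nil l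
  rw [List.append_nil] at this
  exact this

private theorem lt_rel_CA {α : Type} [LinearOrder α] (p : List α) (e e' : α) (r r' : List α) (h : e < e') :
    p ++ e :: r < p ++ e' :: r' := by
  have : List.Lex (· < ·) (p ++ e :: r) (p ++ e' :: r') :=
    List.Lex.append_left _ (List.Lex.rel h) p
  exact this

private theorem nil_le_CA {α : Type} [LinearOrder α] (l : List α) : [] ≤ l := by
  cases l with
  | nil => exact le_rfl
  | cons a as => exact le_of_lt (lt_app_CA [] a as)

private theorem app_le_CA {α : Type} [LinearOrder α] (l : List α) (o e : α) (r : List α) (h : o ≤ e) :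
    l ++ [o] ≤ l ++ e :: r := by
  rcases lt_or_eq_of_le h with h | h
  · exact le_of_lt (lt_rel_CA l o e [] r h)
  · subst h
    cases r with
    | nil => exact le_rfl
    | cons a as =>
      have := lt_app_CA (l ++ [o]) a as
      rw [List.append_assoc] at this
      exact le_of_lt this

/-! ## The least nonzero code -/

private def one_CA : (m : ℕ) → Cd m
  | 0 => true
  | (m + 1) => Cd.of [toLex (one_CA m, 0)]

private theorem one_ne_CA : ∀ m : ℕ, one_CA m ≠ Cd.bot m
  | 0 => by
    intro h
    have : (true : Bool) = false := h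
    exact absurd this (by decide)
  | (m + 1) => by
    intro h
    have : ([toLex (one_CA m, 0)] : List (Cd m ×ₗ ℕ)) = [] := h
    exact absurd this (by simp)

private theorem one_wf_CA : ∀ m : ℕ, Cd.wf m (one_CA m)
  | 0 => trivial
  | (m + 1) => by
    refine ⟨List.pairwise_singleton _ _, ?_⟩
    intro e he
    have : e = toLex (one_CA m, 0) := by simpa [one_CA] using he
    subst this
    exact ⟨one_wf_CA m, one_ne_CA m⟩

private theorem one_vd_CA : ∀ m : ℕ, Cd.vd m (one_CA m)
  | 0 => rfl
  | (m + 1) => ⟨[], one_CA m, rfl, one_vd_CA m⟩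

private theorem toLex_le_CA {m : ℕ} (c : Cd m) (e : Cd m ×ₗ ℕ) (h : c ≤ (ofLex e).1) :
    toLex (c, 0) ≤ e := by
  rw [Prod.Lex.le_iff]
  rcases lt_or_eq_of_le h with h | h
  · exact Or.inl h
  · exact Or.inr ⟨h, Nat.zero_le _⟩

private theorem bot_le_CA : ∀ (m : ℕ) (c : Cd m), Cd.bot m ≤ c
  | 0, c => Bool.false_le c
  | (_ + 1), l => nil_le_CA (Cd.L l)

private theorem one_min_CA : ∀ (m : ℕ) (c : Cd m), Cd.wf m c → c ≠ Cd.bot m → one_CA m ≤ c
  | 0, c => by
    intro _ hc
    have hb : Cd.B c = true := by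
      cases hB : Cd.B c with
      | true => rfl
      | false => exact absurd hB hc
    have : (true : Bool) ≤ Cd.B c := by rw [hb]
    exact this
  | (m + 1), l => by
    intro hw hl
    have key : ∀ l' : List (Cd m ×ₗ ℕ), l' = Cd.L l → [toLex (one_CA m, 0)] ≤ l' := by
      intro l' hl'
      cases l' with
      | nil => exact absurd hl'.symm hl
      | cons e r =>
        have he : e ∈ Cd.L l := by rw [← hl']; exact List.mem_cons_self
        have h1 := hw.2 e he
        have h2 := one_min_CA m _ h1.1 h1.2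
        exact app_le_CA [] _ e r (toLex_le_CA _ e h2)
    exact key _ rfl

private theorem next_CA (m : ℕ) (c c' : Cd (m + 1)) (hc : Cd.wf (m + 1) c) (hc' : Cd.wf (m + 1) c')
    (h : c < c') : ∃ r, Cd.wf (m + 1) r ∧ Cd.vd (m + 1) r ∧ c < r ∧ r ≤ c' := by
  refine ⟨Cd.of (Cd.L c ++ [toLex (one_CA m, 0)]), ⟨?_, ?_⟩, ⟨Cd.L c, one_CA m, rfl, one_vd_CA m⟩, ?_, ?_⟩
  · rw [List.pairwise_append]
    refine ⟨hc.1, List.pairwise_singleton _ _, ?_⟩
    intro a ha b hb
    have : b = toLex (one_CA m, 0) := by simpa using hb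
    subst this
    have h1 := hc.2 a ha
    exact toLex_le_CA _ a (one_min_CA m _ h1.1 h1.2)
  · intro e he
    rcases List.mem_append.1 he with he | he
    · exact hc.2 e he
    · have : e = toLex (one_CA m, 0) := by simpa using he
      subst this
      exact ⟨one_wf_CA m, one_ne_CA m⟩
  · exact lt_app_CA (Cd.L c) _ []
  · have h' : Cd.L c < Cd.L c' := h
    have goal : Cd.L c ++ [toLex (one_CA m, 0)] ≤ Cd.L c' := by
      rcases lt_split_CA _ _ h' with ⟨e, r, hr⟩ | ⟨p, e, e', r, r', h1, h2, h3⟩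
      · rw [hr]
        have he : e ∈ Cd.L c' := by rw [hr]; simp
        have h1 := hc'.2 e he
        exact app_le_CA _ _ e r (toLex_le_CA _ e (one_min_CA m _ h1.1 h1.2))
      · rw [h1, h2, List.append_assoc]
        exact le_of_lt (lt_rel_CA p e e' _ r' h3)
    exact goal

private theorem countable_CA : ∀ m : ℕ, Countable (Cd m)
  | 0 => inferInstanceAs (Countable Bool)
  | (m + 1) => by
    haveI := countable_CA m
    haveI : Countable (Cd m ×ₗ ℕ) := inferInstanceAs (Countable (Cd m × ℕ))
    exact inferInstanceAs (Countable (List (Cd m ×ₗ ℕ)))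

private theorem bot_wf_CA : ∀ m : ℕ, Cd.wf m (Cd.bot m)
  | 0 => trivial
  | (m + 1) => ⟨List.Pairwise.nil, fun e he => absurd he (by simp [Cd.bot])⟩

private theorem bot_vd_CA : ∀ m : ℕ, ¬ Cd.vd m (Cd.bot m)
  | 0 => fun h => by
    have : (false : Bool) = true := h
    exact absurd this (by decide)
  | (m + 1) => fun ⟨l₀, c, h, _⟩ => by
    have : ([] : List (Cd m ×ₗ ℕ)) = l₀ ++ [toLex (c, 0)] := h
    exact absurd this (by simp)

/-- **CA** -/
theorem hCA : StCA := by
  intro m
  refine ⟨countable_CA m, bot_le_CA m, bot_wf_CA m, bot_vd_CA m, ?_, ?_, ?_, ?_, ?_, ?_⟩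
  · cases m with
    | zero =>
      intro c c' _ _ h
      exact ⟨c', trivial, by
        have h' : Cd.B c < Cd.B c' := h
        change Cd.B c' = true
        cases hB : Cd.B c' with
        | true => rfl
        | false => rw [hB] at h'; exact absurd h' (by simp), h, le_rfl⟩
    | succ m => exact fun c c' hc hc' h => next_CA m c c' hc hc' h
  · intro l c x hw
    have hw1 : List.Pairwise (fun a b : Cd m ×ₗ ℕ => b ≤ a) (Cd.L l ++ [toLex (c, x)]) := hw.1
    have hw2 : ∀ e ∈ Cd.L l ++ [toLex (c, x)], Cd.wf m (ofLex e).1 ∧ (ofLex e).1 ≠ Cd.bot m := hw.2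
    have hlast := hw2 (toLex (c, x)) (by simp)
    refine ⟨⟨(List.pairwise_append.1 hw1).1, fun e he => hw2 e (List.mem_append_left _ he)⟩,
      hlast.1, hlast.2, ?_⟩
    exact lt_app_CA (Cd.L l) _ []
  · intro l c c' x x' hw hc' hb hle
    have hw1 : List.Pairwise (fun a b : Cd m ×ₗ ℕ => b ≤ a) (Cd.L l ++ [toLex (c, x)]) := hw.1
    have hw2 : ∀ e ∈ Cd.L l ++ [toLex (c, x)], Cd.wf m (ofLex e).1 ∧ (ofLex e).1 ≠ Cd.bot m := hw.2
    have goal1 : List.Pairwise (fun a b : Cd m ×ₗ ℕ => b ≤ a) (Cd.L l ++ [toLex (c', x')]) := by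
      rw [List.pairwise_append] at hw1 ⊢
      refine ⟨hw1.1, List.pairwise_singleton _ _, ?_⟩
      intro a ha b hbb
      have : b = toLex (c', x') := by simpa using hbb
      subst this
      exact le_trans hle (hw1.2.2 a ha _ (by simp))
    have goal2 : ∀ e ∈ Cd.L l ++ [toLex (c', x')], Cd.wf m (ofLex e).1 ∧ (ofLex e).1 ≠ Cd.bot m := by
      intro e he
      rcases List.mem_append.1 he with he | he
      · exact hw2 e (List.mem_append_left _ he)
      · have : e = toLex (c', x') := by simpa using he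
        subst this
        exact ⟨hc', hb⟩
    exact ⟨goal1, goal2⟩
  · intro l c c' x x' h
    exact lt_rel_CA (Cd.L l) _ _ [] [] h
  · intro l hl
    have hl' : Cd.L l ≠ [] := hl
    refine ⟨Cd.of ((Cd.L l).dropLast), (ofLex ((Cd.L l).getLast hl')).1, (ofLex ((Cd.L l).getLast hl')).2, ?_⟩
    exact (List.dropLast_append_getLast hl').symm
  · intro l l' h
    exact lt_split_CA (Cd.L l) (Cd.L l') h

end Pool.Agent.Helper24.WH
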