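import Pool.Agent.Helper24.WH.St5

/-!
# Project WH, module CB: combinatorics of codes II, the ordinal map
-/

set_option autoImplicit false

namespace Pool.Agent.Helper24.WH

open Set TopologicalSpace Topology
open Ordinal hiding univ

/-! ### Height zero -/

private def one_CB : Cd 0 := (true : Bool)

private theorem cases0_CB (P : Cd 0 → Prop) (h1 : P (Cd.bot 0)) (h2 : P one_CB) (c : Cd 0) :
    P c := @Bool.rec (fun b => P b) h1 h2 c

private theorem up_bot_CB : Cd.up 0 (Cd.bot 0) = Cd.of [] := rfl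

private theorem up_one_CB : Cd.up 0 one_CB = Cd.of [toLex (one_CB, 0)] := rfl

private theorem pi_bot_CB : Cd.pi 0 (Cd.bot 0) = 0 := by
  change (if (false : Bool) = true then (1 : Ordinal.{0}) else 0) = 0
  rw [if_neg (by decide)]

private theorem pi_one_CB : Cd.pi 0 one_CB = 1 := by
  change (if (true : Bool) = true then (1 : Ordinal.{0}) else 0) = 1
  rw [if_pos rfl]

private theorem bot_lt_one_CB : Cd.bot 0 < one_CB := by
  change (false : Bool) < true
  decide

private theorem bot_ne_one_CB : Cd.bot 0 ≠ one_CB := bot_lt_one_CB.ne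

/-! ### The ordinal map -/

/-- the exponent of an entry -/
private noncomputable def E_CB {m : ℕ} (e : Cd m ×ₗ ℕ) : Ordinal.{0} :=
  ω * (Cd.pi m (ofLex e).1 - 1) + ((ofLex e).2 : Ordinal.{0})

/-- the value of a list -/
private noncomputable def S_CB {m : ℕ} (l : List (Cd m ×ₗ ℕ)) : Ordinal.{0} :=
  (l.map (fun e => ω ^ E_CB e)).sum

private theorem pi_succ_CB {m : ℕ} (l : Cd (m + 1)) : Cd.pi (m + 1) l = S_CB (Cd.L l) := rfl

private theorem S_nil_CB {m : ℕ} : S_CB ([] : List (Cd m ×ₗ ℕ)) = 0 := rfl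

private theorem S_cons_CB {m : ℕ} (e : Cd m ×ₗ ℕ) (l : List (Cd m ×ₗ ℕ)) :
    S_CB (e :: l) = ω ^ E_CB e + S_CB l := by
  unfold S_CB
  rw [List.map_cons, List.sum_cons]

/-- (4) without well-formedness -/
private theorem one_le_CB (m : ℕ) (c : Cd m) (h : c ≠ Cd.bot m) : 1 ≤ Cd.pi m c := by
  cases m with
  | zero =>
    revert h
    refine cases0_CB (fun c => c ≠ Cd.bot 0 → 1 ≤ Cd.pi 0 c) ?_ ?_ c
    · intro h
      exact absurd rfl h
    · intro _
      rw [pi_one_CB]
  | succ m =>
    rw [pi_succ_CB]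
    have h' : Cd.L c ≠ [] := h
    revert h'
    generalize Cd.L c = l
    intro h'
    cases l with
    | nil => exact absurd rfl h'
    | cons e l =>
      rw [S_cons_CB]
      refine le_trans ?_ (le_self_add)
      rw [Order.one_le_iff_pos]
      exact opow_pos _ omega0_pos

private theorem E_lt_CB {m : ℕ} (ih : ∀ c c' : Cd m, Cd.wf m c → Cd.wf m c' → c < c' →
    Cd.pi m c < Cd.pi m c') {e e' : Cd m ×ₗ ℕ} (h1 : Cd.wf m (ofLex e).1)
    (h2 : (ofLex e).1 ≠ Cd.bot m) (h3 : Cd.wf m (ofLex e').1) (h4 : (ofLex e').1 ≠ Cd.bot m)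
    (h : e < e') : E_CB e < E_CB e' := by
  unfold E_CB
  rw [Prod.Lex.lt_iff] at h
  rcases h with h | ⟨h5, h6⟩
  · have h5 := ih _ _ h1 h3 h
    have h6 := Ordinal.add_sub_cancel_of_le (one_le_CB m _ h2)
    have h7 := Ordinal.add_sub_cancel_of_le (one_le_CB m _ h4)
    have h8 : Cd.pi m (ofLex e).1 - 1 < Cd.pi m (ofLex e').1 - 1 := by
      rw [← h6, ← h7] at h5
      exact lt_of_add_lt_add_left h5
    calc ω * (Cd.pi m (ofLex e).1 - 1) + ((ofLex e).2 : Ordinal.{0})
        < ω * (Cd.pi m (ofLex e).1 - 1) + ω := by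
          gcongr
          exact natCast_lt_omega0 _
      _ = ω * (Cd.pi m (ofLex e).1 - 1 + 1) := by rw [mul_add, mul_one]
      _ ≤ ω * (Cd.pi m (ofLex e').1 - 1) := by
          gcongr
          rw [← Order.succ_eq_add_one]
          exact Order.succ_le_of_lt h8
      _ ≤ ω * (Cd.pi m (ofLex e').1 - 1) + ((ofLex e').2 : Ordinal.{0}) := le_self_add
  · have h5' : (ofLex e).1 = (ofLex e').1 := h5
    rw [h5']
    gcongr

/-- a list with small entries has a small value -/
private theorem S_lt_CB {m : ℕ} (x : Ordinal.{0}) (l : List (Cd m ×ₗ ℕ))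
    (h : ∀ e ∈ l, E_CB e < x) : S_CB l < ω ^ x := by
  induction l with
  | nil =>
    rw [S_nil_CB]
    exact opow_pos _ omega0_pos
  | cons e l ih =>
    rw [S_cons_CB]
    refine isPrincipal_add_omega0_opow x ?_ (ih fun e' he' => h e' (List.mem_cons_of_mem _ he'))
    exact (opow_lt_opow_iff_right one_lt_omega0).2 (h e List.mem_cons_self)

private theorem S_mono_CB {m : ℕ} (ih : ∀ c c' : Cd m, Cd.wf m c → Cd.wf m c' → c < c' →
    Cd.pi m c < Cd.pi m c') {l l' : List (Cd m ×ₗ ℕ)} (h : List.Lex (· < ·) l l') :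
    (∀ e ∈ l, Cd.wf m (ofLex e).1 ∧ (ofLex e).1 ≠ Cd.bot m) →
    (∀ e ∈ l', Cd.wf m (ofLex e).1 ∧ (ofLex e).1 ≠ Cd.bot m) →
    l.Pairwise (fun a b => b ≤ a) → S_CB l < S_CB l' := by
  induction h with
  | @nil b l' =>
    intro _ _ _
    rw [S_nil_CB, S_cons_CB]
    exact lt_of_lt_of_le (opow_pos _ omega0_pos) le_self_add
  | @cons a l l' h ihl =>
    intro h1 h2 h3
    rw [S_cons_CB, S_cons_CB]
    have h4 := ihl (fun e he => h1 e (List.mem_cons_of_mem _ he))
      (fun e he => h2 e (List.mem_cons_of_mem _ he)) (List.pairwise_cons.1 h3).2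
    gcongr
  | @rel a l b l' hab =>
    intro h1 h2 h3
    have h4 : S_CB (a :: l) < ω ^ E_CB b := by
      refine S_lt_CB _ _ fun e he => ?_
      have hb := h2 b List.mem_cons_self
      refine E_lt_CB ih (h1 e he).1 (h1 e he).2 hb.1 hb.2 ?_
      rcases List.mem_cons.1 he with rfl | he
      · exact hab
      · exact lt_of_le_of_lt ((List.pairwise_cons.1 h3).1 e he) hab
    rw [S_cons_CB b]
    exact lt_of_lt_of_le h4 le_self_add

/-- (1) -/
private theorem pi_mono_CB (m : ℕ) : ∀ c c' : Cd m, Cd.wf m c → Cd.wf m c' → c < c' →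
    Cd.pi m c < Cd.pi m c' := by
  induction m with
  | zero =>
    intro c c' _ _ h
    revert h
    refine cases0_CB (fun c => c < c' → Cd.pi 0 c < Cd.pi 0 c') ?_ ?_ c
    · refine cases0_CB (fun c' => Cd.bot 0 < c' → Cd.pi 0 (Cd.bot 0) < Cd.pi 0 c') ?_ ?_ c'
      · intro h
        exact absurd h (lt_irrefl _)
      · intro _
        rw [pi_bot_CB, pi_one_CB]
        exact zero_lt_one
    · refine cases0_CB (fun c' => one_CB < c' → Cd.pi 0 one_CB < Cd.pi 0 c') ?_ ?_ c'
      · intro h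
        exact absurd (h.trans bot_lt_one_CB) (lt_irrefl _)
      · intro h
        exact absurd h (lt_irrefl _)
  | succ m ih =>
    intro c c' h1 h2 h
    rw [pi_succ_CB, pi_succ_CB]
    exact S_mono_CB ih h h1.2 h2.2 h1.1

/-! ### Values below `ε₀` -/

private theorem eps_add_CB {a b : Ordinal.{0}} (ha : a < Ordinal.epsilon 0)
    (hb : b < Ordinal.epsilon 0) : a + b < Ordinal.epsilon 0 := by
  have h := isPrincipal_add_omega0_opow (Ordinal.epsilon 0)
  rw [omega0_opow_epsilon] at h
  exact h ha hb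

private theorem eps_mul_CB {a b : Ordinal.{0}} (ha : a < Ordinal.epsilon 0)
    (hb : b < Ordinal.epsilon 0) : a * b < Ordinal.epsilon 0 := by
  have h := isPrincipal_mul_omega0_opow_opow (Ordinal.epsilon 0)
  rw [omega0_opow_epsilon, omega0_opow_epsilon] at h
  exact h ha hb

private theorem eps_pow_CB {a : Ordinal.{0}} (ha : a < Ordinal.epsilon 0) :
    ω ^ a < Ordinal.epsilon 0 := by
  rw [← omega0_opow_epsilon 0]
  exact (opow_lt_opow_iff_right one_lt_omega0).2 ha

/-- (2) -/
private theorem pi_lt_CB (m : ℕ) : ∀ c : Cd m, Cd.pi m c < Ordinal.epsilon 0 := by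
  induction m with
  | zero =>
    refine cases0_CB _ ?_ ?_
    · rw [pi_bot_CB]
      exact epsilon_pos _
    · rw [pi_one_CB]
      exact_mod_cast natCast_lt_epsilon 1 0
  | succ m ih =>
    intro c
    rw [pi_succ_CB]
    generalize Cd.L c = l
    induction l with
    | nil =>
      rw [S_nil_CB]
      exact epsilon_pos _
    | cons e l ihl =>
      rw [S_cons_CB]
      refine eps_add_CB (eps_pow_CB ?_) ihl
      unfold E_CB
      refine eps_add_CB (eps_mul_CB (omega0_lt_epsilon 0) ?_) (natCast_lt_epsilon _ 0)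
      exact lt_of_le_of_lt (Ordinal.sub_le_self _ _) (ih _)

/-- (3) -/
private theorem pi_zero_CB (m : ℕ) : Cd.pi m (Cd.bot m) = 0 := by
  cases m with
  | zero => exact pi_bot_CB
  | succ m => rfl

/-! ### The embedding `up` -/

/-- `up` on entries -/
private def g_CB (m : ℕ) (e : Cd m ×ₗ ℕ) : Cd (m + 1) ×ₗ ℕ :=
  toLex (Cd.up m (ofLex e).1, (ofLex e).2)

private theorem up_succ_CB (m : ℕ) (l : Cd (m + 1)) :
    Cd.up (m + 1) l = Cd.of ((Cd.L l).map (g_CB m)) := rfl

/-- (5) -/
private theorem pi_up_CB (m : ℕ) : ∀ c : Cd m, Cd.pi (m + 1) (Cd.up m c) = Cd.pi m c := by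
  induction m with
  | zero =>
    refine cases0_CB _ ?_ ?_
    · rw [pi_bot_CB]
      rfl
    · rw [pi_one_CB, pi_succ_CB, up_one_CB]
      change S_CB [toLex (one_CB, 0)] = 1
      rw [S_cons_CB, S_nil_CB, add_zero]
      unfold E_CB
      have e1 : (ofLex (toLex (one_CB, 0) : Cd 0 ×ₗ ℕ)).1 = one_CB := rfl
      have e2 : (ofLex (toLex (one_CB, 0) : Cd 0 ×ₗ ℕ)).2 = 0 := rfl
      rw [e1, e2, pi_one_CB, Ordinal.sub_self, mul_zero, Nat.cast_zero, add_zero, opow_zero]
  | succ m ih =>
    intro c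
    rw [pi_succ_CB, pi_succ_CB, up_succ_CB]
    change S_CB ((Cd.L c).map (g_CB m)) = S_CB (Cd.L c)
    generalize Cd.L c = l
    induction l with
    | nil => rfl
    | cons e l ihl =>
      rw [List.map_cons, S_cons_CB, S_cons_CB, ihl]
      congr 2
      unfold E_CB
      have e1 : (ofLex (g_CB m e)).1 = Cd.up m (ofLex e).1 := rfl
      have e2 : (ofLex (g_CB m e)).2 = (ofLex e).2 := rfl
      rw [e1, e2, ih]

private theorem g_mono_CB {m : ℕ} (ih : StrictMono (Cd.up m)) : StrictMono (g_CB m) := by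
  intro e e' h
  rw [Prod.Lex.lt_iff] at h ⊢
  rcases h with h | ⟨h1, h2⟩
  · exact Or.inl (ih h)
  · refine Or.inr ⟨?_, h2⟩
    have h1' : (ofLex e).1 = (ofLex e').1 := h1
    change Cd.up m (ofLex e).1 = Cd.up m (ofLex e').1
    rw [h1']

private theorem lex_map_CB {α β : Type} [LT α] [LT β] {g : α → β} (hg : ∀ a b, a < b → g a < g b)
    {l l' : List α} (h : List.Lex (· < ·) l l') : List.Lex (· < ·) (l.map g) (l'.map g) := by
  induction h with
  | nil => exact List.Lex.nil
  | cons _ ih => exact List.Lex.cons ih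
  | rel h => exact List.Lex.rel (hg _ _ h)

/-- (6), one direction -/
private theorem up_mono_CB (m : ℕ) : StrictMono (Cd.up m) := by
  induction m with
  | zero =>
    intro c c'
    refine cases0_CB (fun c => c < c' → Cd.up 0 c < Cd.up 0 c') ?_ ?_ c
    · refine cases0_CB (fun c' => Cd.bot 0 < c' → Cd.up 0 (Cd.bot 0) < Cd.up 0 c') ?_ ?_ c'
      · intro h
        exact absurd h (lt_irrefl _)
      · intro _
        exact (List.Lex.nil : List.Lex (· < ·) ([] : List (Cd 0 ×ₗ ℕ)) [toLex (one_CB, 0)])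
    · refine cases0_CB (fun c' => one_CB < c' → Cd.up 0 one_CB < Cd.up 0 c') ?_ ?_ c'
      · intro h
        exact absurd (h.trans bot_lt_one_CB) (lt_irrefl _)
      · intro h
        exact absurd h (lt_irrefl _)
  | succ m ih =>
    intro l l' h
    exact lex_map_CB (g := g_CB m) (fun a b hab => g_mono_CB ih hab) h

/-- (9) -/
private theorem up_bot'_CB (m : ℕ) : Cd.up m (Cd.bot m) = Cd.bot (m + 1) := by
  cases m with
  | zero => rfl
  | succ m => rfl

private theorem up_ne_CB {m : ℕ} {c : Cd m} (h : c ≠ Cd.bot m) : Cd.up m c ≠ Cd.bot (m + 1) := by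
  intro h1
  rw [← up_bot'_CB] at h1
  exact h ((up_mono_CB m).injective h1)

/-- (7) -/
private theorem up_wf_CB (m : ℕ) : ∀ c : Cd m, Cd.wf m c → Cd.wf (m + 1) (Cd.up m c) := by
  induction m with
  | zero =>
    intro c _
    refine cases0_CB (fun c => Cd.wf 1 (Cd.up 0 c)) ?_ ?_ c
    · exact ⟨List.Pairwise.nil, fun e he => absurd he List.not_mem_nil⟩
    · refine ⟨List.pairwise_singleton _ _, fun e he => ?_⟩
      have he' : e ∈ [(toLex (one_CB, 0) : Cd 0 ×ₗ ℕ)] := he
      rw [List.mem_singleton.1 he']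
      exact ⟨trivial, bot_ne_one_CB.symm⟩
  | succ m ih =>
    intro l hl
    refine ⟨?_, ?_⟩
    · change List.Pairwise _ ((Cd.L l).map (g_CB m))
      rw [List.pairwise_map]
      exact hl.1.imp fun {a b} hab => (g_mono_CB (up_mono_CB m)).monotone hab
    · intro e he
      have he' : e ∈ (Cd.L l).map (g_CB m) := he
      obtain ⟨e₀, h0, rfl⟩ := List.mem_map.1 he'
      exact ⟨ih _ (hl.2 e₀ h0).1, up_ne_CB (hl.2 e₀ h0).2⟩

/-- (8) -/
private theorem up_vd_CB (m : ℕ) : ∀ c : Cd m, Cd.vd m c ↔ Cd.vd (m + 1) (Cd.up m c) := by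
  induction m with
  | zero =>
    refine cases0_CB _ ?_ ?_
    · constructor
      · intro h
        have h' : (false : Bool) = true := h
        exact absurd h' (by decide)
      · rintro ⟨l₀, c, h, _⟩
        have h' : ([] : List (Cd 0 ×ₗ ℕ)) = l₀ ++ [toLex (c, 0)] := h
        simp at h'
    · constructor
      · intro h
        exact ⟨[], one_CB, rfl, h⟩
      · intro _
        exact (rfl : (true : Bool) = true)
  | succ m ih =>
    intro l
    constructor
    · rintro ⟨l₀, c, h, hc⟩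
      refine ⟨l₀.map (g_CB m), Cd.up m c, ?_, (ih c).1 hc⟩
      change (Cd.L l).map (g_CB m) = _
      rw [h, List.map_append]
      rfl
    · rintro ⟨l₁, c₁, h, hc⟩
      have h' : (Cd.L l).map (g_CB m) = l₁ ++ [toLex (c₁, 0)] := h
      rw [List.map_eq_append_iff] at h'
      obtain ⟨l₂, l₃, h1, h2, h3⟩ := h'
      rw [List.map_eq_singleton_iff] at h3
      obtain ⟨e, h4, h5⟩ := h3
      have h6 : Cd.up m (ofLex e).1 = c₁ := congrArg (fun z => (ofLex z).1) h5
      have h7 : (ofLex e).2 = 0 := congrArg (fun z => (ofLex z).2) h5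
      refine ⟨l₂, (ofLex e).1, ?_, ?_⟩
      · rw [h1, h4]
        congr 1
        have h8 : e = toLex ((ofLex e).1, (ofLex e).2) := rfl
        rw [h7] at h8
        rw [← h8]
      · rw [ih, h6]
        exact hc

/-- (10) -/
private theorem up_init_CB (m : ℕ) : ∀ (c : Cd m) (c' : Cd (m + 1)), Cd.wf m c →
    Cd.wf (m + 1) c' → c' ≤ Cd.up m c → ∃ c₀ : Cd m, Cd.wf m c₀ ∧ c' = Cd.up m c₀ := by
  -- an empty or nonempty list below another list
  have A : ∀ (k : ℕ) (a b : Cd (k + 1)), a ≤ b → ∀ (e : Cd k ×ₗ ℕ) (r : List (Cd k ×ₗ ℕ)),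
      Cd.L a = e :: r → ∃ (e' : Cd k ×ₗ ℕ) (r' : List (Cd k ×ₗ ℕ)), Cd.L b = e' :: r' ∧
        e ≤ e' ∧ (e = e' → ¬ List.Lex (· < ·) r' r) := by
    intro k a b hab e r ha
    have hnot : ¬ List.Lex (· < ·) (Cd.L b) (Cd.L a) := not_lt_of_ge hab
    rw [ha] at hnot
    cases hb : Cd.L b with
    | nil =>
      rw [hb] at hnot
      exact absurd List.Lex.nil hnot
    | cons e' r' =>
      rw [hb] at hnot
      refine ⟨e', r', rfl, ?_, ?_⟩
      · exact le_of_not_gt fun h => hnot (List.Lex.rel h)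
      · rintro rfl h
        exact hnot (List.Lex.cons h)
  induction m with
  | zero =>
    intro c c' _ hw hle
    cases hc' : Cd.L c' with
    | nil =>
      refine ⟨Cd.bot 0, trivial, ?_⟩
      exact hc'
    | cons e r =>
      obtain ⟨e', r', h1, h2, h3⟩ := A 0 c' (Cd.up 0 c) hle e r hc'
      have hce := (hw.2 e (by rw [hc']; exact List.mem_cons_self)).2
      have he1 : (ofLex e).1 = one_CB := by
        revert hce
        refine cases0_CB (fun z => z ≠ Cd.bot 0 → z = one_CB) ?_ ?_ (ofLex e).1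
        · intro h
          exact absurd rfl h
        · intro _
          rfl
      revert h1
      refine cases0_CB (fun c => Cd.L (Cd.up 0 c) = e' :: r' →
        ∃ c₀ : Cd 0, Cd.wf 0 c₀ ∧ c' = Cd.up 0 c₀) ?_ ?_ c
      · intro h1
        have h1' : ([] : List (Cd 0 ×ₗ ℕ)) = e' :: r' := h1
        exact absurd h1' (by simp)
      · intro h1
        have h1' : [(toLex (one_CB, 0) : Cd 0 ×ₗ ℕ)] = e' :: r' := h1
        have h4 : toLex (one_CB, 0) = e' := (List.cons.inj h1').1
        have h5 : [] = r' := (List.cons.inj h1').2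
        have h6 : e = e' := by
          rw [← h4] at h2 ⊢
          rw [Prod.Lex.le_iff] at h2
          rcases h2 with h2 | h2
          · rw [he1] at h2
            exact absurd h2 (lt_irrefl _)
          · have h7 : (ofLex e).2 = 0 := Nat.le_zero.1 h2.2
            have h8 : e = toLex ((ofLex e).1, (ofLex e).2) := rfl
            rw [he1, h7] at h8
            exact h8
        have h7 := h3 h6
        have h8 : r = [] := by
          cases r with
          | nil => rfl
          | cons a r =>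
            rw [← h5] at h7
            exact absurd List.Lex.nil h7
        refine ⟨one_CB, trivial, ?_⟩
        rw [h8, h6, ← h4] at hc'
        exact hc'
  | succ m ih =>
    intro l l' hl hl' hle
    have B : ∀ e ∈ Cd.L l', ∃ e₀ : Cd m ×ₗ ℕ, g_CB m e₀ = e ∧ Cd.wf m (ofLex e₀).1 ∧
        (ofLex e₀).1 ≠ Cd.bot m := by
      intro e he
      cases hc' : Cd.L l' with
      | nil =>
        rw [hc'] at he
        exact absurd he List.not_mem_nil
      | cons a r =>
        obtain ⟨a', r', h1, h2, _⟩ := A (m + 1) l' (Cd.up (m + 1) l) hle a r hc'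
        have h1' : (Cd.L l).map (g_CB m) = a' :: r' := h1
        rw [List.map_eq_cons_iff] at h1'
        obtain ⟨b, t, h3, h4, _⟩ := h1'
        have h5 : e ≤ a' := by
          rw [hc'] at he
          rcases List.mem_cons.1 he with rfl | he
          · exact h2
          · have h6 := hl'.1
            rw [hc'] at h6
            exact ((List.pairwise_cons.1 h6).1 e he).trans h2
        have h6 : (ofLex e).1 ≤ Cd.up m (ofLex b).1 := by
          rw [← h4, Prod.Lex.le_iff] at h5
          rcases h5 with h5 | h5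
          · exact h5.le
          · exact h5.1.le
        have hb := hl.2 b (by rw [h3]; exact List.mem_cons_self)
        have hwe := hl'.2 e he
        obtain ⟨c₀, h7, h8⟩ := ih (ofLex b).1 (ofLex e).1 hb.1 hwe.1 h6
        refine ⟨toLex (c₀, (ofLex e).2), ?_, h7, ?_⟩
        · change toLex (Cd.up m c₀, (ofLex e).2) = e
          rw [← h8]
          rfl
        · intro h9
          have h10 : c₀ = Cd.bot m := h9
          rw [h10, up_bot'_CB] at h8
          exact hwe.2 h8
    have C : ∀ l' : List (Cd (m + 1) ×ₗ ℕ), (∀ e ∈ l', ∃ e₀ : Cd m ×ₗ ℕ, g_CB m e₀ = e ∧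
        Cd.wf m (ofLex e₀).1 ∧ (ofLex e₀).1 ≠ Cd.bot m) → ∃ l₀ : List (Cd m ×ₗ ℕ),
        l' = l₀.map (g_CB m) ∧ ∀ e ∈ l₀, Cd.wf m (ofLex e).1 ∧ (ofLex e).1 ≠ Cd.bot m := by
      intro l'
      induction l' with
      | nil =>
        intro _
        exact ⟨[], rfl, fun e he => absurd he List.not_mem_nil⟩
      | cons a l' ihl =>
        intro h
        obtain ⟨l₀, h1, h2⟩ := ihl fun e he => h e (List.mem_cons_of_mem _ he)
        obtain ⟨e₀, h3, h4⟩ := h a List.mem_cons_self
        refine ⟨e₀ :: l₀, ?_, ?_⟩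
        · rw [List.map_cons, h3, ← h1]
        · intro e he
          rcases List.mem_cons.1 he with rfl | he
          · exact h4
          · exact h2 e he
    obtain ⟨l₀, h1, h2⟩ := C (Cd.L l') B
    refine ⟨Cd.of l₀, ⟨?_, h2⟩, h1⟩
    have h3 := hl'.1
    rw [h1, List.pairwise_map] at h3
    exact h3.imp fun {a b} hab => (g_mono_CB (up_mono_CB m)).le_iff_le.1 hab

/-- **CB** -/
theorem hCB : StCB := by
  intro m
  refine ⟨pi_mono_CB m, pi_lt_CB m, pi_zero_CB m, fun c _ h => one_le_CB m c h, pi_up_CB m,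
    fun c c' => (up_mono_CB m).lt_iff_lt.symm, up_wf_CB m, up_vd_CB m, up_bot'_CB m,
    up_init_CB m, ?_⟩
  exact Subrelation.wf (r := InvImage (fun a b : Ordinal.{0} => a < b)
    (fun c : {c : Cd m // Cd.wf m c} => Cd.pi m c.1))
    (fun {c c'} h => pi_mono_CB m c.1 c'.1 c.2 c'.2 h) (InvImage.wf _ wellFounded_lt)

end Pool.Agent.Helper24.WH
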