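import Pool.Agent.Helper24.WH.St6

/-!
# PROJECT WH (MP_76577a_lc), module CM: comparison at the top (9.1)
-/

set_option autoImplicit false

namespace Pool.Agent.Helper24.WH

open Set TopologicalSpace Topology
open Ordinal hiding univ

private theorem compact_CM (A : Type) [Finite A] : @CompactSpace (Tre A) (pT A) := by
  let _ : TopologicalSpace A := ⊥
  exact (inferInstance : CompactSpace (List Bool → A))

private theorem openAux_CM (A : Type) (l : ℕ) (x : List Bool → A) :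
    @IsOpen (List Bool → A) (@Pi.topologicalSpace (List Bool) (fun _ => A) (fun _ => ⊥))
      {t | ∀ u : List Bool, u.length < l → t u = x u} := by
  let _ : TopologicalSpace A := ⊥
  have : DiscreteTopology A := ⟨rfl⟩
  have e : {t : List Bool → A | ∀ u : List Bool, u.length < l → t u = x u} =
      ⋂ u ∈ {u : List Bool | u.length < l}, (fun t : List Bool → A => t u) ⁻¹' {x u} := by
    ext t
    simp
  have h : IsOpen (⋂ u ∈ {u : List Bool | u.length < l}, (fun t : List Bool → A => t u) ⁻¹' {x u}) :=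
    (List.finite_length_lt Bool l).isOpen_biInter fun u _ =>
      (isOpen_discrete _).preimage (continuous_apply u)
  rw [e]
  exact h

private theorem openCyl_CM (A : Type) (l : ℕ) (x : Tre A) : IsOpen[pT A] (Cyl l x) :=
  openAux_CM A l x

private theorem cylBasis_CM (A : Type) (U : Set (Tre A)) (hU : IsOpen[pT A] U) (x : Tre A) (hx : x ∈ U) :
    ∃ l, Cyl l x ⊆ U := by
  let _ : TopologicalSpace A := ⊥
  have hU' : @IsOpen (List Bool → A) _ U := hU
  obtain ⟨I, u, h1, h2⟩ := isOpen_pi_iff.1 hU' x hx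
  refine ⟨I.sup List.length + 1, fun t ht => h2 ?_⟩
  intro i hi
  have hlen : i.length < I.sup List.length + 1 := Nat.lt_succ_of_le (Finset.le_sup (f := List.length) hi)
  rw [ht i hlen]
  exact (h1 i hi).2

private theorem cont_CM (A₁ A₂ : Type) (φ : Tre A₁ → Tre A₂)
    (h : ∀ x k, ∃ l, ∀ y, y ∈ Cyl l x → φ y ∈ Cyl k (φ x)) : @Continuous _ _ (pT A₁) (pT A₂) φ := by
  let _ : TopologicalSpace A₂ := ⊥
  have : DiscreteTopology A₂ := ⟨rfl⟩
  let _ : TopologicalSpace (Tre A₁) := pT A₁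
  have key : Continuous (fun t : Tre A₁ => (fun u => φ t u : List Bool → A₂)) := by
    refine continuous_pi fun u => ?_
    rw [continuous_discrete_rng]
    intro a
    rw [isOpen_iff_mem_nhds]
    intro x hx
    obtain ⟨l, hl⟩ := h x (u.length + 1)
    refine Filter.mem_of_superset ((openCyl_CM A₁ l x).mem_nhds (fun u _ => rfl)) fun y hy => ?_
    have := hl y hy u (Nat.lt_succ_self _)
    show φ y u = a
    rw [this]
    exact hx
  exact key

private theorem sep_CM {X : Type} (τ : TopologicalSpace X) (P : Set (Set X)) (h0 : ∅ ∈ P)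
    (hun : ∀ B ∈ P, ∀ B' ∈ P, B ∪ B' ∈ P) (hop : ∀ B ∈ P, IsOpen[τ] B)
    (hbas : ∀ x U, IsOpen[τ] U → x ∈ U → ∃ O ∈ P, x ∈ O ∧ O ⊆ U) (K U : Set X)
    (hK : @IsCompact X τ K) (hU : IsOpen[τ] U) (hKU : K ⊆ U) : ∃ A ∈ P, K ⊆ A ∧ A ⊆ U := by
  let _ := τ
  refine hK.induction_on (p := fun s => ∃ A ∈ P, s ⊆ A ∧ A ⊆ U) ⟨∅, h0, subset_rfl, empty_subset _⟩
    ?_ ?_ ?_
  · rintro s t hst ⟨A, hA, h1, h2⟩
    exact ⟨A, hA, hst.trans h1, h2⟩
  · rintro s t ⟨A, hA, h1, h2⟩ ⟨B, hB, h3, h4⟩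
    exact ⟨A ∪ B, hun A hA B hB, union_subset_union h1 h3, union_subset h2 h4⟩
  · intro x hx
    obtain ⟨O, hO, hxO, hOU⟩ := hbas x U hU (hKU hx)
    exact ⟨O, mem_nhdsWithin_of_mem_nhds ((hop O hO).mem_nhds hxO), O, hO, subset_rfl, hOU⟩

private theorem clTop_CM {X : Type} (B : Set X) (hB : B.Nonempty) :
    closure[(⊤ : TopologicalSpace X)] B = univ := by
  have h1 : IsOpen[(⊤ : TopologicalSpace X)] (closure[(⊤ : TopologicalSpace X)] B)ᶜ :=
    @IsClosed.isOpen_compl _ ⊤ _ (@isClosed_closure _ ⊤ B)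
  rcases (TopologicalSpace.isOpen_top_iff _).1 h1 with h | h
  · exact compl_empty_iff.1 h
  · exfalso
    rw [compl_univ_iff] at h
    obtain ⟨t, ht⟩ := hB
    have := @subset_closure _ ⊤ B t ht
    rw [h] at this
    exact this

theorem hCM (hCTI : StCTI) (hRE : StRE) (hRA : StRA) (hRB : StRB) : StCM := by
  intro A₁ A₂ _ _ _ _ n τ P f τ' P' f' hR hR' hτ hτ' r hwf hvd hV hex himp
  classical
  have hn := hR.rich
  have hn' := hR'.rich
  -- winning on a set without one side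
  have win : ∀ s, (Zo τ' f' n r s univ).Nonempty → ∀ A ∈ P n, Zo τ f n r (!s) A = ∅ →
      WinG τ P f τ' P' f' n A univ univ := by
    intro s hs A hA hZ
    refine hCTI (Tre A₁) A₂ n τ P f τ' P' f' hn hR' n le_rfl r s hwf hvd A hA univ (hn'.univ n) univ
      (hn'.univ (n + 1)) hZ ?_
    rw [hn'.top (n + 1) (Nat.lt_succ_self n), univ_inter, univ_inter, clTop_CM _ hs]
  by_cases hone : ∃ s, (Zo τ' f' n r s univ).Nonempty ∧ Zo τ f n r (!s) univ = ∅
  · obtain ⟨s, hs, hZ⟩ := hone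
    obtain ⟨φ, h1, h2⟩ := hRE A₁ A₂ n τ P f τ' P' f' hR hR' hτ hτ' univ (hn.univ _)
      (win s hs univ (hn.univ n) hZ)
    refine ⟨φ, cont_CM A₁ A₂ φ fun x k => ?_, fun x => h1 x (mem_univ x)⟩
    obtain ⟨l, hl⟩ := h2 x (mem_univ x) k
    exact ⟨l, fun y hy => hl y (mem_univ y) hy⟩
  · push Not at hone
    -- both sides of the source are nonempty
    have hboth : ∀ s, (Zo τ' f' n r s univ).Nonempty := by
      obtain ⟨s, hs⟩ := hex
      have h1 : (Zo τ f n r (!s) univ).Nonempty := hone s hs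
      have h2 : (Zo τ' f' n r (!s) univ).Nonempty := himp _ h1
      intro s'
      by_cases h : s' = s
      · rw [h]; exact hs
      · have : s' = !s := by cases s <;> cases s' <;> simp_all
        rw [this]; exact h2
    have hd : ∀ s, IsDer (τ n) (Zo τ f n r s) := ((hRB (Tre A₁) τ f hn.tow hn.fib n).2.1 r)
    have hdis : Zo τ f n r false univ ∩ Zo τ f n r true univ = ∅ := by
      rw [← (hRA (Tre A₁) τ f n).2.2.2.2.2.2.2.2.2.1 r univ hwf hvd, hV]
    have hclZ : ∀ s, IsClosed[τ n] (Zo τ f n r s univ) := fun s =>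
      (hd s).closed univ (@isClosed_univ _ (τ n))
    have hcomp : @CompactSpace (Tre A₁) (τ n) := by rw [hτ]; exact compact_CM A₁
    have hop : ∀ B ∈ P (n + 1), IsOpen[τ n] B := hn.op n le_rfl
    have hclP : ∀ B ∈ P (n + 1), IsClosed[τ n] B := fun B hB => hn.cl n le_rfl B (hn.anti n hB)
    have sep := sep_CM (τ n) (P (n + 1)) (hn.empty _) (hn.union _) hop (hn.basis n le_rfl)
    obtain ⟨A, hA, hKA, hAU⟩ := sep (Zo τ f n r false univ) (Zo τ f n r true univ)ᶜ
      (@IsClosed.isCompact _ (τ n) _ hcomp (hclZ false))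
      (@IsClosed.isOpen_compl _ (τ n) _ (hclZ true))
      (fun x hx hx' => by
        have : x ∈ Zo τ f n r false univ ∩ Zo τ f n r true univ := ⟨hx, hx'⟩
        rw [hdis] at this
        exact this)
    have hAc : Aᶜ ∈ P (n + 1) := by
      have h1 : IsOpen[τ n] Aᶜ := @IsClosed.isOpen_compl _ (τ n) _ (hclP A hA)
      have h2 : IsClosed[τ n] Aᶜ := @IsOpen.isClosed_compl _ (τ n) _ (hop A hA)
      obtain ⟨B, hB, h3, h4⟩ := sep Aᶜ Aᶜ (@IsClosed.isCompact _ (τ n) _ hcomp h2) h1 subset_rfl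
      rwa [← subset_antisymm h4 h3]
    have hloc : ∀ s, ∀ B ∈ P (n + 1), Zo τ f n r s B = Zo τ f n r s univ ∩ B := by
      intro s B hB
      have := (hd s).loc B univ ⟨hclP B hB, hop B hB⟩
      rwa [univ_inter] at this
    have hZA : Zo τ f n r (!false) A = ∅ := by
      rw [Bool.not_false, hloc true A hA, inter_comm]
      exact Set.subset_empty_iff.1 fun x hx => hAU hx.1 hx.2
    have hZAc : Zo τ f n r (!true) Aᶜ = ∅ := by
      rw [Bool.not_true, hloc false Aᶜ hAc]
      exact Set.subset_empty_iff.1 fun x hx => hx.2 (hKA hx.1)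
    obtain ⟨φ₁, h1, h2⟩ := hRE A₁ A₂ n τ P f τ' P' f' hR hR' hτ hτ' A hA
      (win false (hboth false) A (hn.anti n hA) hZA)
    obtain ⟨φ₂, h3, h4⟩ := hRE A₁ A₂ n τ P f τ' P' f' hR hR' hτ hτ' Aᶜ hAc
      (win true (hboth true) Aᶜ (hn.anti n hAc) hZAc)
    have hopA : IsOpen[pT A₁] A := by rw [← hτ]; exact hop A hA
    have hopAc : IsOpen[pT A₁] Aᶜ := by rw [← hτ]; exact hop Aᶜ hAc
    refine ⟨fun x => if x ∈ A then φ₁ x else φ₂ x, cont_CM A₁ A₂ _ fun x k => ?_, fun x => ?_⟩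
    · by_cases hx : x ∈ A
      · obtain ⟨l, hl⟩ := h2 x hx k
        obtain ⟨l', hl'⟩ := cylBasis_CM A₁ A hopA x hx
        refine ⟨max l l', fun y hy => ?_⟩
        have hyA : y ∈ A := hl' fun u hu => hy u (lt_of_lt_of_le hu (le_max_right _ _))
        simp only [hx, hyA, if_true]
        exact hl y hyA fun u hu => hy u (lt_of_lt_of_le hu (le_max_left _ _))
      · obtain ⟨l, hl⟩ := h4 x hx k
        obtain ⟨l', hl'⟩ := cylBasis_CM A₁ Aᶜ hopAc x hx
        refine ⟨max l l', fun y hy => ?_⟩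
        have hyA : y ∈ Aᶜ := hl' fun u hu => hy u (lt_of_lt_of_le hu (le_max_right _ _))
        have hyA' : y ∉ A := hyA
        simp only [hx, hyA', if_false]
        exact hl y hyA fun u hu => hy u (lt_of_lt_of_le hu (le_max_left _ _))
    · by_cases hx : x ∈ A
      · simp only [hx, if_true]
        exact h1 x hx
      · simp only [hx, if_false]
        exact h3 x hx

end Pool.Agent.Helper24.WH
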