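import Pool.Agent.Helper24.WH.St4

set_option autoImplicit false

namespace Pool.Agent.Helper24.WH

open Set TopologicalSpace Topology
open Ordinal hiding univ

private theorem nil_CN {S : Type} (n : ℕ) (ok : ℕ → Set S → Prop) (N : Nm S) (i : Ordinal.{0})
    (hg : Good n ok N (n + 1) i) : N = .nil := by
  cases N with
  | nil => rfl
  | leaf a rest => exact a.elim
  | cons l kids rest =>
    exfalso
    cases l with
    | base M K =>
      obtain ⟨h1, h2, h3, h4, h5, h6⟩ := hg
      omega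
    | cl M s j =>
      obtain ⟨h1, h2, h3, h4, h5, h6⟩ := hg
      omega
    | dd m L x j =>
      obtain ⟨h1, h2, h3, h4, h5⟩ := hg
      omega

theorem hCN (hNV : StNV) (hCT : StCT) (hEC : StEC) (hSU : StSU) (hSG : StSG) (hNT : StNT) :
    StCN := by
  intro A S _ _ n g Ga hH
  obtain ⟨s1, s2, s3, s4, s5, s6, s7, s8, s9⟩ := hSU A S n g
  obtain ⟨i₀, hi₀⟩ := hEC (Tre A) (stg n g) (fun i j hij m => s4 i j m hij)
  obtain ⟨g1, g2⟩ := hSG A S n g Ga hH
  have hwqo : ∀ (h : ℕ) (f : ℕ → Set (Tre A)),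
      (∀ k, f k ∈ {F | ∃ N i, GN n g N h i ∧ F = vl n g N}) → ∃ i j, i < j ∧ f j ⊆ f i := by
    intro h f hf
    choose N i hN using hf
    obtain ⟨⟨k, l, hkl, hsub⟩, _⟩ := hNV A S n g Ga hH N (fun k => ⟨h, i k, (hN k).1⟩)
    refine ⟨k, l, hkl, ?_⟩
    rw [(hN k).2, (hN l).2]
    exact hsub
  have hmain : ∀ (k h : ℕ), h + k = n + 1 →
      {F : Set (Tre A) | ∃ N i, GN n g N h i ∧ F = vl n g N}.Countable := by
    intro k
    induction k with
    | zero =>
      intro h hk
      have hh : h = n + 1 := by omega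
      subst hh
      apply (Set.countable_singleton (univ : Set (Tre A))).mono
      rintro F ⟨N, i, hN, rfl⟩
      have : N = .nil := nil_CN n _ N i hN
      subst this
      rw [mem_singleton_iff]
      rfl
    | succ k ih =>
      intro h hk
      have hc := ih (h + 1) (by omega)
      have hsc : @SecondCountableTopology (Tre A) (stg n g i₀ h) := by
        rw [s1 i₀ h]
        apply (hNT A).2.2.2.2.2.2.1
        apply hc.mono
        rintro F ⟨N, hN, rfl⟩
        exact ⟨N, i₀, hN, rfl⟩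
      apply hCT (Tre A) (stg n g i₀ h) hsc _ _ (hwqo h)
      rintro F ⟨N, i, hN, rfl⟩
      have hcl := (g2 N h i hN).1
      rcases le_total i i₀ with hi | hi
      · exact hcl.mono (s4 i i₀ h hi)
      · rw [hi₀ i hi] at hcl
        exact hcl
  apply (hmain (n + 1) 0 (by omega)).mono
  rintro F ⟨N, h, i, hN, rfl⟩
  exact ⟨N, i, s2 N h 0 i i (Nat.zero_le _) le_rfl hN, rfl⟩

end Pool.Agent.Helper24.WH
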