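import Pool.Agent.Helper24.WH.St2

set_option autoImplicit false

namespace Pool.Agent.Helper24.WH

open Set TopologicalSpace Ordinal Topology

/-- finite basis property for reverse inclusion -/
private lemma fb_CT {X : Type} {𝓕 : Set (Set X)}
    (hw : ∀ f : ℕ → Set X, (∀ i, f i ∈ 𝓕) → ∃ i j, i < j ∧ f j ⊆ f i)
    (𝓐 : Set (Set X)) (hA : 𝓐 ⊆ 𝓕) :
    ∃ 𝓑 : Set (Set X), 𝓑.Finite ∧ 𝓑 ⊆ 𝓐 ∧ ∀ F ∈ 𝓐, ∃ G ∈ 𝓑, F ⊆ G := by
  by_contra hcon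
  have h : ∀ s : Finset (Set X), (∀ x ∈ s, x ∈ 𝓐) → ∃ y, y ∈ 𝓐 ∧ ∀ x ∈ s, ¬ y ⊆ x := by
    intro s hs
    by_contra h2
    apply hcon
    refine ⟨↑s, s.finite_toSet, hs, ?_⟩
    intro F hF
    by_contra h3
    apply h2
    refine ⟨F, hF, ?_⟩
    intro x hx hFx
    exact h3 ⟨x, hx, hFx⟩
  obtain ⟨f, hf1, hf2⟩ := exists_seq_of_forall_finset_exists (fun x => x ∈ 𝓐)
    (fun x y => ¬ y ⊆ x) h
  obtain ⟨i, j, hij, hsub⟩ := hw f fun i => hA (hf1 i)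
  exact hf2 i j hij hsub

/-- a family of closed sets of a second countable space, well quasi ordered by reverse inclusion,
is countable -/
theorem hCT : StCT := by
  intro X τ hτ 𝓕 hcl hw
  letI := τ
  haveI := hτ
  have hB := isBasis_countableBasis X
  -- the finite sets of minimal elements
  have h1 : ∀ b : Set X, ∃ 𝓑 : Set (Set X), 𝓑.Finite ∧ 𝓑 ⊆ {F | F ∈ 𝓕 ∧ Disjoint b F} ∧
      ∀ F ∈ {F | F ∈ 𝓕 ∧ Disjoint b F}, ∃ G ∈ 𝓑, F ⊆ G :=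
    fun b => fb_CT hw _ fun F hF => hF.1
  choose M hMf hMs hMe using h1
  let MM : Set (Set X) := ⋃ b ∈ countableBasis X, M b
  have hMM : MM.Countable :=
    (countable_countableBasis X).biUnion fun b _ => (hMf b).countable
  have hMMF : MM ⊆ 𝓕 := by
    intro G hG
    simp only [MM, mem_iUnion] at hG
    obtain ⟨b, _, hb⟩ := hG
    exact (hMs b hb).1
  have h2 : ∀ F : Set X, ∃ 𝓑 : Set (Set X), 𝓑.Finite ∧ 𝓑 ⊆ {G | G ∈ MM ∧ ¬ F ⊆ G} ∧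
      ∀ G ∈ {G | G ∈ MM ∧ ¬ F ⊆ G}, ∃ W ∈ 𝓑, G ⊆ W :=
    fun F => fb_CT hw _ fun G hG => hMMF hG.1
  choose N hNf hNs hNe using h2
  -- `F` is the intersection of the members of `MM` containing it
  have h3 : ∀ F ∈ 𝓕, ∀ x, x ∉ F → ∃ G ∈ MM, F ⊆ G ∧ x ∉ G := by
    intro F hF x hx
    have ho : IsOpen Fᶜ := (hcl F hF).isOpen_compl
    obtain ⟨b, hb, hxb, hbF⟩ := hB.exists_subset_of_mem_open (a := x) hx ho
    have hd : Disjoint b F := Set.disjoint_left.2 fun y hy hyF => hbF hy hyF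
    obtain ⟨G, hG, hFG⟩ := hMe b F ⟨hF, hd⟩
    refine ⟨G, ?_, hFG, ?_⟩
    · simp only [MM, mem_iUnion]
      exact ⟨b, hb, hG⟩
    · exact Set.disjoint_left.1 (hMs b hG).2 hxb
  have h4 : ∀ F ∈ 𝓕, ∀ F' ∈ 𝓕, N F = N F' → F' ⊆ F := by
    intro F hF F' hF' hN x hx
    by_contra hxF
    obtain ⟨G, hG, hFG, hxG⟩ := h3 F hF x hxF
    have h5 : ¬ F' ⊆ G := fun h => hxG (h hx)
    obtain ⟨W, hW, hGW⟩ := hNe F' G ⟨hG, h5⟩
    rw [← hN] at hW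
    exact (hNs F hW).2 (hFG.trans hGW)
  have h6 : {t : Set (Set X) | t.Finite ∧ t ⊆ MM}.Countable := countable_setOf_finite_subset hMM
  refine MapsTo.countable_of_injOn (f := N) (t := {t : Set (Set X) | t.Finite ∧ t ⊆ MM})
    ?_ ?_ h6
  · intro F _
    exact ⟨hNf F, fun G hG => (hNs F hG).1⟩
  · intro F hF F' hF' hN
    exact Subset.antisymm (h4 F' hF' F hF hN.symm) (h4 F hF F' hF' hN)

end Pool.Agent.Helper24.WH
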