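import Pool.Agent.Helper24.WH.St6

/-!
# PROJECT WH (MP_76577a_lc), module CTB: combination at height `M+1`
-/

set_option autoImplicit false

namespace Pool.Agent.Helper24.WH

open Set TopologicalSpace Topology
open Ordinal hiding univ

open Classical in
/-- the combined strategy: `σB` while the source set meets `B`, the waiting answer `W` afterwards -/
private noncomputable def sg_CTB {X Y : Type} (B : Set X) (Q : Set Y) (σB : Hist X Y → Set Y) (W : Set Y → Set Y) :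
    Hist X Y → Set Y
  | [] => Q
  | mv :: h => if (mv.1 ∩ B).Nonempty then σB (mv :: h) else W (mv.2 ∩ sg_CTB B Q σB W h)

private theorem sg_nil_CTB {X Y : Type} (B : Set X) (Q : Set Y) (σB : Hist X Y → Set Y) (W : Set Y → Set Y) :
    sg_CTB B Q σB W [] = Q := rfl

private theorem sg_pos_CTB {X Y : Type} (B : Set X) (Q : Set Y) (σB : Hist X Y → Set Y) (W : Set Y → Set Y)
    (mv : Set X × Set Y) (h : Hist X Y) (hp : (mv.1 ∩ B).Nonempty) :
    sg_CTB B Q σB W (mv :: h) = σB (mv :: h) := by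
  simp only [sg_CTB]
  exact if_pos hp

private theorem sg_neg_CTB {X Y : Type} (B : Set X) (Q : Set Y) (σB : Hist X Y → Set Y) (W : Set Y → Set Y)
    (mv : Set X × Set Y) (h : Hist X Y) (hp : ¬ (mv.1 ∩ B).Nonempty) :
    sg_CTB B Q σB W (mv :: h) = W (mv.2 ∩ sg_CTB B Q σB W h) := by
  rw [sg_CTB]
  exact if_neg hp

/-- while the source set meets `B`, the history is legal against `σB` and the answers agree -/
private theorem sg_agree_CTB {X Y : Type} (P : Set (Set X)) (A B : Set X) (τ' : TopologicalSpace Y) (A' Q : Set Y)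
    (σB : Hist X Y → Set Y) (W : Set Y → Set Y) (h0 : σB [] = Q) :
    ∀ h : Hist X Y, Legal P A τ' A' (sg_CTB B Q σB W) h → (lastO h ∩ B).Nonempty →
      Legal P B τ' A' σB h ∧ sg_CTB B Q σB W h = σB h := by
  intro h
  induction h with
  | nil =>
    intro _ _
    exact ⟨trivial, by rw [sg_nil_CTB, h0]⟩
  | cons mv h ih =>
    intro hl hB
    obtain ⟨hl1, hP, hsub, hA, hop, hne⟩ := hl
    have hB' : (mv.1 ∩ B).Nonempty := hB
    have hB2 : (lastO h ∩ B).Nonempty := hB'.mono (inter_subset_inter_left _ hsub)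
    obtain ⟨hl2, he⟩ := ih hl1 hB2
    refine ⟨⟨hl2, hP, hsub, hB', hop, ?_⟩, sg_pos_CTB _ _ _ _ _ _ hB'⟩
    rw [← he]
    exact hne

private theorem anti_CTB {X : Type} (P : ℕ → Set (Set X)) (ha : ∀ M, P (M + 1) ⊆ P M) : ∀ M, P M ⊆ P 0 := by
  intro M
  induction M with
  | zero => exact Subset.rfl
  | succ M ih => exact (ha M).trans ih

theorem hCTB (hSH : StSH) (hSW : StSW) (hRX : StRX) (hRB : StRB) : StCTB := by
  intro X A₂ n τ P f τ' P' f' hR hR' M hMn A hA A' hA' H' hH' Q hQ γ ρ hγ hρ hγρ hHA hcl hσB hIH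
  obtain ⟨σB, hσ0, hσW, hσI⟩ := hσB
  obtain ⟨hVD, hZD, -, -⟩ := hRB X τ f hR.tow hR.fib (M + 1)
  have hBA : Vo τ f (M + 1) γ A ⊆ A := (hVD γ).le A
  have hH0 : H' ∈ P' 0 := anti_CTB P' hR'.rich.anti (M + 1) hH'
  -- the waiting answers
  have hWex : ∀ U : Set (Tre A₂), ∃ V : Set (Tre A₂), IsOpen[τ' (M + 1)] U → (U ∩ H').Nonempty →
      V ∈ P' (M + 2) ∧ V ⊆ U ∧ (V ∩ H').Nonempty ∧ V ⊆ closure[τ' (M + 2)] (V ∩ H') := by
    intro U
    by_cases hU : IsOpen[τ' (M + 1)] U ∧ (U ∩ H').Nonempty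
    · obtain ⟨hUo, z, hzU, hzH⟩ := hU
      obtain ⟨Q₁, hQ1, hz1, hQU, -, hQc⟩ := hSH A₂ n τ' P' f' hR' (M + 1) hMn H' hH0 z hzH U hUo hzU 0
      exact ⟨Q₁, fun _ _ => ⟨hQ1, hQU, ⟨z, hz1, hzH⟩, hQc⟩⟩
    · exact ⟨U, fun h1 h2 => absurd ⟨h1, h2⟩ hU⟩
  choose W hW using hWex
  -- invariant and legal answers
  have hinv : ∀ h : Hist X (Tre A₂),
      Legal (P (M + 2)) A (τ' (M + 2)) A' (sg_CTB (Vo τ f (M + 1) γ A) Q σB W) h →
      sg_CTB (Vo τ f (M + 1) γ A) Q σB W h ∈ P' (M + 2) ∧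
        A' ∩ sg_CTB (Vo τ f (M + 1) γ A) Q σB W h ⊆
          closure[τ' (M + 2)] (sg_CTB (Vo τ f (M + 1) γ A) Q σB W h ∩ H') ∧
        ∀ mv h', h = mv :: h' →
          sg_CTB (Vo τ f (M + 1) γ A) Q σB W h ⊆ mv.2 ∩ sg_CTB (Vo τ f (M + 1) γ A) Q σB W h' ∧
          (sg_CTB (Vo τ f (M + 1) γ A) Q σB W h ∩ A').Nonempty := by
    intro h
    induction h with
    | nil =>
      intro _
      refine ⟨hQ, hcl, ?_⟩
      intro mv h' he
      exact absurd he (by simp)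
    | cons mv h ih =>
      intro hl
      obtain ⟨ihP, ihc, -⟩ := ih hl.1
      by_cases hp : (mv.1 ∩ Vo τ f (M + 1) γ A).Nonempty
      · -- the case of `σB`
        obtain ⟨hlB, heq⟩ := sg_agree_CTB (P (M + 2)) A (Vo τ f (M + 1) γ A) (τ' (M + 2)) A' Q σB W hσ0 (mv :: h) hl hp
        have hp2 : (lastO h ∩ Vo τ f (M + 1) γ A).Nonempty := hp.mono (inter_subset_inter_left _ hl.2.2.1)
        obtain ⟨-, heq2⟩ := sg_agree_CTB (P (M + 2)) A (Vo τ f (M + 1) γ A) (τ' (M + 2)) A' Q σB W hσ0 h hl.1 hp2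
        obtain ⟨hm1, hm2, hm3⟩ := hσW.move mv h hlB
        refine ⟨?_, ?_, ?_⟩
        · rw [heq]; exact hm1
        · rw [heq]; exact hσI (mv :: h) hlB
        · intro mv' h' he
          have e1 : mv = mv' := (List.cons.inj he).1
          have e2 : h = h' := (List.cons.inj he).2
          subst e1; subst e2
          rw [heq, heq2]
          exact ⟨hm2, hm3⟩
      · -- the waiting case
        obtain ⟨hl1, hP, hsub, hAne, hop, y, ⟨hy1, hy2⟩, hyA⟩ := hl
        have hUo : IsOpen[τ' (M + 1)] (mv.2 ∩ sg_CTB (Vo τ f (M + 1) γ A) Q σB W h) := by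
          have o1 : IsOpen[τ' (M + 1)] mv.2 := hR'.rich.tow.mono (M + 1) _ hop
          have o2 : IsOpen[τ' (M + 1)] (sg_CTB (Vo τ f (M + 1) γ A) Q σB W h) := hR'.rich.op (M + 1) hMn _ ihP
          exact @IsOpen.inter _ (τ' (M + 1)) _ _ o1 o2
        have hUne : ((mv.2 ∩ sg_CTB (Vo τ f (M + 1) γ A) Q σB W h) ∩ H').Nonempty := by
          have hyc := ihc ⟨hyA, hy2⟩
          have := (@mem_closure_iff _ (τ' (M + 2)) _ _).1 hyc mv.2 hop hy1
          obtain ⟨z, hz1, hz2, hz3⟩ := this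
          exact ⟨z, ⟨hz1, hz2⟩, hz3⟩
        obtain ⟨hw1, hw2, hw3, hw4⟩ := hW _ hUo hUne
        have heq := sg_neg_CTB (Vo τ f (M + 1) γ A) Q σB W mv h hp
        refine ⟨?_, ?_, ?_⟩
        · rw [heq]; exact hw1
        · rw [heq]; exact inter_subset_right.trans hw4
        · intro mv' h' he
          have e1 : mv = mv' := (List.cons.inj he).1
          have e2 : h = h' := (List.cons.inj he).2
          subst e1; subst e2
          rw [heq]
          exact ⟨hw2, hw3.mono (inter_subset_inter_right _ hHA)⟩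
  -- switching
  refine hSW X A₂ (P (M + 2)) (τ (M + 1)) (P' (M + 2)) (τ' (M + 2)) f f' A A'
    (sg_CTB (Vo τ f (M + 1) γ A) Q σB W)
    (fun O => ∃ (r : Cd (M + 1)) (s : Bool), Cd.wf (M + 1) r ∧ Cd.vd (M + 1) r ∧ r < ρ ∧
      Zo τ f (M + 1) r (!s) (A ∩ O) = ∅) ?_ ?_ ?_ ?_
  · -- events are inherited by subsets
    intro O O' hO hE
    obtain ⟨r, s, h1, h2, h3, h4⟩ := hE
    refine ⟨r, s, h1, h2, h3, ?_⟩
    exact subset_eq_empty ((hZD r (!s)).mono _ _ (inter_subset_inter_right _ hO)) h4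
  · -- legal answers
    intro mv h hl
    obtain ⟨h1, -, h3⟩ := hinv (mv :: h) hl
    obtain ⟨h4, h5⟩ := h3 mv h rfl
    exact ⟨h1, h4, h5⟩
  · -- the event happens
    intro mv h hl hE
    obtain ⟨r, s, h1, h2, h3, h4⟩ := hE
    obtain ⟨g1, g2, -⟩ := hinv (mv :: h) hl
    exact hIH r s h1 h2 h3 mv.1 hl.2.1 _ g1 h4 g2
  · -- plays without the event
    intro p hleg hnoE x hxA hxp hconv
    have hxB : x ∈ Vo τ f (M + 1) γ A := by
      by_contra hxB
      obtain ⟨r, s, hrw, hrv, -, hrc, -, hrz⟩ := hRX X n τ P f hR (M + 1) hMn A hA x hxA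
      have hrγ : r ≤ γ := by
        by_contra hlt
        exact hxB (hrc γ hγ (not_le.1 hlt))
      have hcl2 : IsClosed[τ (M + 1)] (Zo τ f (M + 1) r (!s) A) :=
        (hZD r (!s)).closed A (hR.cl (M + 1) hMn A hA)
      obtain ⟨l, hl⟩ := hconv (Zo τ f (M + 1) r (!s) A)ᶜ hcl2.isOpen_compl hrz
      apply hnoE l
      refine ⟨r, s, hrw, hrv, lt_of_le_of_lt hrγ hγρ, ?_⟩
      have hPl : (p l).1 ∈ P (M + 2) := (hleg (l + 1)).2.1
      have hclp : Clp (τ (M + 1)) (p l).1 :=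
        ⟨hR.cl (M + 1) hMn _ (hR.anti (M + 1) hPl), hR.op (M + 1) hMn _ hPl⟩
      rw [(hZD r (!s)).loc _ _ hclp]
      apply eq_empty_of_forall_notMem
      intro y hy
      exact hl ⟨hy.2, (hZD r (!s)).le A hy.1⟩ hy.1
    have hall : ∀ l, (lastO (hist p l) ∩ Vo τ f (M + 1) γ A).Nonempty := by
      intro l
      cases l with
      | zero => exact ⟨x, mem_univ x, hxB⟩
      | succ l => exact ⟨x, hxp l, hxB⟩
    have hag := fun l => sg_agree_CTB (P (M + 2)) A (Vo τ f (M + 1) γ A) (τ' (M + 2)) A' Q σB W hσ0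
      (hist p l) (hleg l) (hall l)
    obtain ⟨x', hx'A, hx'1, hx'2, hx'3⟩ := hσW.lim p (fun l => (hag l).1) x hxB hxp (by
      intro U hU hxU
      obtain ⟨l, hl⟩ := hconv U hU hxU
      exact ⟨l, (inter_subset_inter_right _ hBA).trans hl⟩)
    refine ⟨x', hx'A, ?_, hx'2, ?_⟩
    · intro l
      rw [(hag l).2]
      exact hx'1 l
    · intro k
      obtain ⟨l, hl⟩ := hx'3 k
      refine ⟨l, ?_⟩
      rw [(hag l).2]
      exact hl

end Pool.Agent.Helper24.WH
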