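import Pool.Agent.Helper24.WH.St6

/-!
# Module CTI of project WH: the comparison theorem
-/

set_option autoImplicit false

namespace Pool.Agent.Helper24.WH

open Set TopologicalSpace Topology
open Ordinal hiding univ

theorem hCTI (HC0 : StC0) (HCTA : StCTA) (HCTB : StCTB) (HHC : StHC) (HRA : StRA) (HCB : StCB) (HUZ : StUZ)
    (HCA : StCA) : StCTI := by
  intro X A₂ n τ P f τ' P' f' R R' M
  induction M with
  | zero =>
    intro _ r s _ _ A hA A' hA' Q hQ hZ hQ2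
    refine HC0 X A₂ n τ P f τ' P' f' R R' s A hA A' hA' Q hQ ?_ ?_
    · intro x hx
      by_contra hne
      have h1 : f x = !s := by
        cases hfx : f x <;> cases s <;> simp_all
      have h2 : x ∈ Zo τ f 0 r (!s) A := by
        rw [(HUZ X τ f).2.2.1]
        exact ⟨hx, h1⟩
      rw [hZ] at h2
      exact h2
    · have h1 := (HUZ (Tre A₂) τ' f').2.2.1 r s A'
      rw [h1] at hQ2
      exact hQ2
  | succ M ih =>
    intro hM r
    have hwfo := (HCB (M + 1)).2.2.2.2.2.2.2.2.2.2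
    -- well founded induction on `r`
    suffices H : ∀ r : {c : Cd (M + 1) // Cd.wf (M + 1) c}, ∀ s : Bool, Cd.vd (M + 1) r.1 →
        ∀ A ∈ P (M + 1), ∀ A' ∈ P' (M + 1), ∀ Q ∈ P' (M + 1 + 1), Zo τ f (M + 1) r.1 (!s) A = ∅ →
        A' ∩ Q ⊆ closure[τ' (M + 1 + 1)] (Q ∩ Zo τ' f' (M + 1) r.1 s A') →
        WinG τ P f τ' P' f' (M + 1) A A' Q by
      intro s hw hv A hA A' hA' Q hQ hZ hQ2
      exact H ⟨r, hw⟩ s hv A hA A' hA' Q hQ hZ hQ2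
    intro r
    induction r using hwfo.induction with
    | _ r IH =>
    obtain ⟨r, hw⟩ := r
    intro s hv A hA A' hA' Q hQ hZ hQ2
    obtain ⟨l₀, ρ', hr, hρv⟩ := hv
    have hre : r = Cd.ext (Cd.of l₀) ρ' 0 := hr
    have hv' : Cd.vd (M + 1) r := ⟨l₀, ρ', hr, hρv⟩
    have hCAM := HCA M
    have hext := hCAM.2.2.2.2.2.1 (Cd.of l₀) ρ' 0 (by rw [← hre]; exact hw)
    obtain ⟨hγw, hρw, hρb, hγr⟩ := hext
    rw [← hre] at hγr
    set γ : Cd (M + 1) := Cd.of l₀ with hγ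
    have hB : Vo τ f (M + 1) γ A ∈ P (M + 1) := R.VP (M + 1) hM γ hγw A hA
    have hUZ := (HUZ X τ f).2.2.2.2.2.2.2.2 M γ ρ' 0 (!s) A
    have hUZ' := (HUZ (Tre A₂) τ' f').2.2.2.2.2.2.2.2 M γ ρ' 0 s A'
    rw [← hre] at hUZ hUZ'
    -- the source
    have hZB : Zo τ f M ρ' (!s) (Vo τ f (M + 1) γ A) = ∅ := by
      have h1 := HHC X n τ P f R M hM ρ' hρw hρv (!s) _ hB
      rw [← hUZ] at h1
      change Zo τ f (M + 1) r (!s) A = ∅ at hZ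
      rw [hZ] at h1
      rw [← Set.subset_empty_iff, h1]
      exact @subset_closure X (τ (M + 1)) _
    -- the target
    have hH' : Zo τ' f' (M + 1) r s A' ∈ P' (M + 1) := R'.rich.ZP (M + 1) hM r hw hv' s A' hA'
    have hH'A : Zo τ' f' (M + 1) r s A' ⊆ A' := (HRA (Tre A₂) τ' f' (M + 1)).2.2.2.1 r s A'
    have hcl : Zo τ' f' (M + 1) r s A' ⊆
        closure[τ' (M + 1)] (Zo τ' f' M ρ' s (Zo τ' f' (M + 1) r s A')) := by
      have h1 := (HRA (Tre A₂) τ' f' M).2.2.2.2.2.2.2.2.2.2.2.1 ρ' s (Vo τ' f' (M + 1) γ A') hρw hρv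
      rw [← hUZ'] at h1
      exact h1
    have hQM : Q ∈ P' (M + 1) := R'.rich.anti (M + 1) hQ
    have hQo : IsOpen[τ' (M + 1)] Q := R'.rich.op (M + 1) hM Q hQ
    have hwin : WinG τ P f τ' P' f' M (Vo τ f (M + 1) γ A) (Zo τ' f' (M + 1) r s A') Q := by
      refine ih (by omega) ρ' s hρw hρv _ (R.anti M hB) _ (R'.rich.anti M hH') Q hQM hZB ?_
      rintro x ⟨hx1, hx2⟩
      have hx3 := hcl hx1
      rw [@mem_closure_iff _ (τ' (M + 1))] at hx3 ⊢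
      intro o ho hxo
      obtain ⟨y, hy1, hy2⟩ := hx3 (o ∩ Q) (@IsOpen.inter _ (τ' (M + 1)) _ _ ho hQo) ⟨hxo, hx2⟩
      exact ⟨y, hy1.1, hy1.2, hy2⟩
    have hcta := HCTA X A₂ n τ P f τ' P' f' R R' M hM _ hB A' hA' _ hH' Q hQ hH'A hQ2 hwin
    refine HCTB X A₂ n τ P f τ' P' f' R R' M hM A hA A' hA' _ hH' Q hQ γ r hγw hw hγr hH'A hQ2 hcta ?_
    intro r₁ s₁ hw₁ hv₁ hr₁ O hO Q₁ hQ₁ hZ₁ hQ₁2
    refine IH ⟨r₁, hw₁⟩ hr₁ s₁ hv₁ (A ∩ O) (R.inter (M + 1) A hA O (R.anti (M + 1) hO)) A' hA' Q₁ hQ₁ hZ₁ ?_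
    refine hQ₁2.trans ?_
    apply @closure_mono _ (τ' (M + 1 + 1))
    apply Set.inter_subset_inter_right
    exact (HRA (Tre A₂) τ' f' (M + 1)).2.2.2.2.2.2.2.2.2.2.2.2.2 r₁ r s₁ s A' hw₁ hv₁ hw hv' hr₁

end Pool.Agent.Helper24.WH
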