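import Pool.Agent.Helper24.WH.St6

/-!
# Project WH, module DC
-/

set_option autoImplicit false

namespace Pool.Agent.Helper24.WH

open Set TopologicalSpace Topology
open Ordinal hiding univ

theorem hDC (hCM : StCM) (hRA : StRA) : StDC := by
  intro A₁ A₂ _ _ _ _ f f' n r r' sd sd' d d' hr
  obtain ⟨τ, P, hR, hτ, hV, hZ⟩ := d.ex
  obtain ⟨τ', P', hR', hτ', hV', hZ'⟩ := d'.ex
  obtain ⟨s', hs'⟩ := d'.side
  rcases hr with hr | ⟨rfl, hsd⟩
  · obtain ⟨-, -, -, -, -, -, -, ha, hb, -, -, -, -, -⟩ := hRA (Tre A₁) τ f n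
    refine hCM A₁ A₂ n τ P f τ' P' f' hR hR' hτ hτ' r' d'.wf d'.vd ?_ ⟨s', (hZ' s').1 hs'⟩ ?_
    · exact subset_empty_iff.1 ((ha r r' univ d.wf d'.wf hr.le).trans hV.le)
    · intro s hs
      have h := (hb r' r s univ d'.wf d'.vd d.wf hr).trans hV.le
      rw [subset_empty_iff.1 h] at hs
      exact absurd hs Set.not_nonempty_empty
  · exact hCM A₁ A₂ n τ P f τ' P' f' hR hR' hτ hτ' r d.wf d.vd hV ⟨s', (hZ' s').1 hs'⟩
      fun s hs => (hZ' s).1 (hsd s ((hZ s).2 hs))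

end Pool.Agent.Helper24.WH
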