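import Pool.Agent.Helper24.WH.St6

/-! WH module DE: existence of data -/

set_option autoImplicit false

namespace Pool.Agent.Helper24.WH

open Set TopologicalSpace Topology

private theorem cyl_DE {A : Type} (Q : Set (Set (Tre A))) (h0 : univ ∈ Q)
    (hi : ∀ B ∈ Q, ∀ B' ∈ Q, B ∩ B' ∈ Q) (hc : ∀ (u : List Bool) (a : A), {t : Tre A | t u = a} ∈ Q)
    (k : ℕ) (t : Tre A) : Cyl k t ∈ Q := by
  have key : ∀ F : Set (List Bool), F.Finite → {t' : Tre A | ∀ u ∈ F, t' u = t u} ∈ Q := by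
    intro F hF
    induction F, hF using Set.Finite.induction_on with
    | empty =>
      have : {t' : Tre A | ∀ u ∈ (∅ : Set (List Bool)), t' u = t u} = univ := by
        ext t'
        simp
      rw [this]
      exact h0
    | @insert a s _ _ ih =>
      have : {t' : Tre A | ∀ u ∈ insert a s, t' u = t u} =
          {t' : Tre A | t' a = t a} ∩ {t' : Tre A | ∀ u ∈ s, t' u = t u} := by
        ext t'
        simp
      rw [this]
      exact hi _ (hc a (t a)) _ ih
  have h1 := key {u : List Bool | u.length < k} (List.finite_length_lt Bool k)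
  exact h1

theorem hDE (hFT4 : StFT4) (hRI : StRI) (hIV : StIV) : StDE := by
  intro A S _ _ _ n g Ga h hyp
  obtain ⟨τ, P, N, h1, h2, h3, h4, h5⟩ := hFT4 A S n g Ga hyp
  have h6 : IsRich n τ P (h ∘ g) := hRI (Tre A) S n N τ g h P h1 h2 h3
  have h7 : IsRichT n τ P (h ∘ g) :=
    ⟨h6, fun M k t => cyl_DE (P M) (h6.univ M) (h6.inter M) (h5 M) k t⟩
  obtain ⟨r, h8, h9, h10, h11⟩ := hIV A n τ P (h ∘ g) h7 h4
  exact ⟨r, fun s => (Zo τ (h ∘ g) n r s univ).Nonempty, h8, h9, h11,
    ⟨τ, P, h7, h4, h10, fun s => Iff.rfl⟩⟩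

end Pool.Agent.Helper24.WH
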