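import Pool.Agent.Helper24.WH.St6

/-!
# PROJECT WH: module DN (data of the complement)
-/

set_option autoImplicit false

namespace Pool.Agent.Helper24.WH

open Set TopologicalSpace Topology
open Ordinal hiding univ

private theorem pre_DN {X : Type} (f : X → Bool) (s : Bool) :
    (fun t => !(f t)) ⁻¹' {s} = f ⁻¹' {!s} := by
  ext x
  simp only [mem_preimage, mem_singleton_iff]
  cases f x <;> cases s <;> simp

private theorem delOf_DN {X : Type} (τ : TopologicalSpace X) (m : ℕ) (z z' : Cd m → Bool → Set X → Set X)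
    (h : ∀ c s, z' c s = z c (!s)) : delOf τ m z' = delOf τ m z := by
  funext c Y
  ext x
  simp only [delOf, mem_inter_iff, mem_iInter]
  constructor
  · rintro ⟨h1, h2⟩
    refine ⟨h1, fun c' hc' s => ?_⟩
    have := h2 c' hc' (!s)
    rwa [h, Bool.not_not] at this
  · rintro ⟨h1, h2⟩
    refine ⟨h1, fun c' hc' s => ?_⟩
    rw [h]
    exact h2 c' hc' (!s)

private theorem VZ_DN {X : Type} (τ : ℕ → TopologicalSpace X) (f : X → Bool) :
    ∀ m : ℕ, (VZ τ (fun t => !(f t)) m).1 = (VZ τ f m).1 ∧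
      ∀ c s, (VZ τ (fun t => !(f t)) m).2 c s = (VZ τ f m).2 c (!s)
  | 0 => by
    refine ⟨rfl, fun c s => ?_⟩
    funext B
    show B ∩ (fun t => !(f t)) ⁻¹' {s} = B ∩ f ⁻¹' {!s}
    rw [pre_DN]
  | (m + 1) => by
    obtain ⟨-, h2⟩ := VZ_DN τ f m
    have h3 : foldV (τ (m + 1)) m (VZ τ (fun t => !(f t)) m).2 = foldV (τ (m + 1)) m (VZ τ f m).2 := by
      unfold foldV
      rw [delOf_DN (τ (m + 1)) m _ _ h2]
    constructor
    · show (fun l B => foldV (τ (m + 1)) m (VZ τ (fun t => !(f t)) m).2 (Cd.L l) B) = _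
      rw [h3]
      rfl
    · intro c s
      show (fun B => HomOp (τ (m + 1)) ((VZ τ (fun t => !(f t)) m).2 (lastc c.L) s)
        (foldV (τ (m + 1)) m (VZ τ (fun t => !(f t)) m).2 (c.L.dropLast) B)) = _
      rw [h3, h2]
      rfl

private theorem Vo_DN {X : Type} (τ : ℕ → TopologicalSpace X) (f : X → Bool) (m : ℕ) (c : Cd m) (B : Set X) :
    Vo τ (fun t => !(f t)) m c B = Vo τ f m c B := by
  unfold Vo
  rw [(VZ_DN τ f m).1]

private theorem Zo_DN {X : Type} (τ : ℕ → TopologicalSpace X) (f : X → Bool) (m : ℕ) (c : Cd m) (s : Bool)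
    (B : Set X) : Zo τ (fun t => !(f t)) m c s B = Zo τ f m c (!s) B := by
  unfold Zo
  rw [(VZ_DN τ f m).2]

private theorem rich_DN {X : Type} {n : ℕ} {τ : ℕ → TopologicalSpace X} {P : ℕ → Set (Set X)} {f : X → Bool}
    (h : IsRich n τ P f) : IsRich n τ P (fun t => !(f t)) where
  tow := h.tow
  fib s := by rw [pre_DN]; exact h.fib (!s)
  top := h.top
  anti := h.anti
  cl := h.cl
  op := h.op
  op0 := h.op0
  basis := h.basis
  cnt := h.cnt
  univ := h.univ
  empty := h.empty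
  inter := h.inter
  union := h.union
  clo := h.clo
  fP B hB s := by rw [pre_DN]; exact h.fP B hB (!s)
  VP m hm c hc B hB := by rw [Vo_DN]; exact h.VP m hm c hc B hB
  ZP m hm c hc hv s B hB := by rw [Zo_DN]; exact h.ZP m hm c hc hv (!s) B hB
  us m hm r hr hv := by
    obtain ⟨c, hc, hcr, hB⟩ := h.us m hm r hr hv
    refine ⟨c, hc, hcr, fun B hBm => ?_⟩
    rw [Vo_DN, Zo_DN, Zo_DN, Set.union_comm]
    exact hB B hBm
  tm m hm := by
    obtain ⟨c, hc, hB⟩ := h.tm m hm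
    refine ⟨c, hc, fun B hBm => ?_⟩
    rw [Vo_DN]
    exact hB B hBm
  pol := h.pol

theorem hDN : StDN := by
  intro A₁ f n r sd h
  refine ⟨h.wf, h.vd, ?_, ?_⟩
  · obtain ⟨s, hs⟩ := h.side
    exact ⟨!s, by simpa using hs⟩
  · obtain ⟨τ, P, hR, hτ, hV, hs⟩ := h.ex
    refine ⟨τ, P, ⟨rich_DN hR.rich, hR.cyl⟩, hτ, ?_, fun s => ?_⟩
    · rw [Vo_DN]; exact hV
    · rw [Zo_DN]; exact hs (!s)

end Pool.Agent.Helper24.WH
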