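import Pool.Agent.Helper24.WH.St6

/-!
# Module DP of project WH: padding of data
-/

set_option autoImplicit false

namespace Pool.Agent.Helper24.WH

open Set TopologicalSpace Topology
open Ordinal hiding univ

theorem hDP (HPA : StPA) (HCB : StCB) : StDP := by
  intro A₁ f n r sd D
  obtain ⟨τ, P, hT, htop, hV, hs⟩ := D.ex
  obtain ⟨hR, hop⟩ := HPA (Tre A₁) n τ P f hT.rich
  refine ⟨(HCB n).2.2.2.2.2.2.1 r D.wf, ((HCB n).2.2.2.2.2.2.2.1 r).1 D.vd, D.side,
    padT τ, padP P, ⟨hR, ?_⟩, htop, ?_, ?_⟩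
  · intro M k t
    cases M with
    | zero => exact hT.cyl 0 k t
    | succ M => exact hT.cyl M k t
  · rw [(hop n r univ D.wf).1]
    exact hV
  · intro s
    rw [(hop n r univ D.wf).2 D.vd s]
    exact hs s

end Pool.Agent.Helper24.WH
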