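import Pool.Agent.Helper24.WH.St2

/-!
# PROJECT WH (MP_76577a_lc), module EC: monotone families of topologies are eventually constant
-/

set_option autoImplicit false

namespace Pool.Agent.Helper24.WH

open Set TopologicalSpace Ordinal Topology

theorem hEC : StEC := by
  intro X τ hτ
  have hb : BddAbove (Set.range fun v : ℕ → TopologicalSpace X => sInf {i : Ordinal.{0} | τ i = v}) :=
    Ordinal.bddAbove_of_small
  obtain ⟨i₀, hi₀⟩ := hb
  refine ⟨i₀, fun i hi => ?_⟩
  have hne : ({j : Ordinal.{0} | τ j = τ i}).Nonempty := ⟨i, rfl⟩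
  have hj : τ (sInf {j : Ordinal.{0} | τ j = τ i}) = τ i := csInf_mem hne
  have hle : sInf {j : Ordinal.{0} | τ j = τ i} ≤ i₀ := hi₀ ⟨τ i, rfl⟩
  funext m
  refine le_antisymm (hτ i₀ i hi m) ?_
  have h := hτ _ i₀ hle m
  rw [hj] at h
  exact h

end Pool.Agent.Helper24.WH
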