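import Pool.Agent.Helper24.WH.St1

/-!
# PROJECT WH (MP_76577a_lc), module IT
-/

set_option autoImplicit false

namespace Pool.Agent.Helper24.WH

open Set TopologicalSpace Ordinal Topology

theorem mem_iter_IT {X : Type} {d : Set X → Set X} {B : Set X} {α : Ordinal.{0}} {x : X} :
    x ∈ iter d B α ↔ x ∈ B ∧ ∀ β < α, x ∈ d (iter d B β) := by
  rw [iter]
  simp only [mem_inter_iff, mem_iInter, Subtype.forall, mem_Iio]

theorem iter_sub_IT {X : Type} {d : Set X → Set X} (B : Set X) (α : Ordinal.{0}) :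
    iter d B α ⊆ B := fun _ h => (mem_iter_IT.1 h).1

theorem iter_anti_IT {X : Type} {d : Set X → Set X} (B : Set X) {α β : Ordinal.{0}}
    (h : α ≤ β) : iter d B β ⊆ iter d B α := fun _ hx =>
  mem_iter_IT.2 ⟨(mem_iter_IT.1 hx).1, fun γ hγ => (mem_iter_IT.1 hx).2 γ (hγ.trans_le h)⟩

theorem iter_zero_IT {X : Type} {d : Set X → Set X} (B : Set X) : iter d B 0 = B :=
  Subset.antisymm (iter_sub_IT B 0) fun _ hx =>
    mem_iter_IT.2 ⟨hx, fun β hβ => absurd hβ (not_lt.2 zero_le)⟩

theorem iter_succ_IT {X : Type} {d : Set X → Set X} (hm : ∀ A B, A ⊆ B → d A ⊆ d B)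
    (hl : ∀ B, d B ⊆ B) (B : Set X) (α : Ordinal.{0}) :
    iter d B (α + 1) = d (iter d B α) := by
  have hlt : α < α + 1 := by
    exact Order.lt_add_one_iff.2 le_rfl
  refine Subset.antisymm (fun x hx => (mem_iter_IT.1 hx).2 α hlt) fun x hx => ?_
  refine mem_iter_IT.2 ⟨iter_sub_IT B α (hl _ hx), fun β hβ => ?_⟩
  have hβ' : β ≤ α := by
    exact Order.lt_add_one_iff.1 hβ
  exact hm _ _ (iter_anti_IT B hβ') hx

theorem iter_mono_IT {X : Type} {d : Set X → Set X} (hm : ∀ A B, A ⊆ B → d A ⊆ d B)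
    {A B : Set X} (h : A ⊆ B) (α : Ordinal.{0}) : iter d A α ⊆ iter d B α := by
  induction α using WellFoundedLT.induction with
  | ind α ih =>
    intro x hx
    rw [mem_iter_IT] at hx ⊢
    exact ⟨h hx.1, fun β hβ => hm _ _ (ih β hβ) (hx.2 β hβ)⟩

theorem iter_fix_IT {X : Type} {d : Set X → Set X} (hm : ∀ A B, A ⊆ B → d A ⊆ d B)
    {W B : Set X} (h : W ⊆ B) (hW : W ⊆ d W) (α : Ordinal.{0}) : W ⊆ iter d B α := by
  induction α using WellFoundedLT.induction with
  | ind α ih =>
    intro x hx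
    rw [mem_iter_IT]
    exact ⟨h hx, fun β hβ => hm _ _ (ih β hβ) (hW hx)⟩

theorem iter_le_IT {X : Type} {d d' : Set X → Set X} (hm : ∀ A B, A ⊆ B → d A ⊆ d B)
    (h : ∀ B, d' B ⊆ d B) (B : Set X) (α : Ordinal.{0}) : iter d' B α ⊆ iter d B α := by
  induction α using WellFoundedLT.induction with
  | ind α ih =>
    intro x hx
    rw [mem_iter_IT] at hx ⊢
    exact ⟨hx.1, fun β hβ => hm _ _ (ih β hβ) (h _ (hx.2 β hβ))⟩

theorem iter_add_IT {X : Type} {d : Set X → Set X} (B : Set X) (α β : Ordinal.{0}) :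
    iter d B (α + β) = iter d (iter d B α) β := by
  induction β using WellFoundedLT.induction with
  | ind β ih =>
    ext x
    constructor
    · intro hx
      rw [mem_iter_IT]
      refine ⟨iter_anti_IT B (le_self_add) hx, fun δ hδ => ?_⟩
      rw [← ih δ hδ]
      exact (mem_iter_IT.1 hx).2 _ (add_lt_add_right hδ α)
    · intro hx
      rw [mem_iter_IT] at hx
      rw [mem_iter_IT]
      refine ⟨iter_sub_IT B α hx.1, fun γ hγ => ?_⟩
      rcases lt_or_ge γ α with h | h
      · exact (mem_iter_IT.1 hx.1).2 γ h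
      · have hδ : γ - α < β := by
          rw [Ordinal.sub_lt_of_le h]
          exact hγ
        have := hx.2 (γ - α) hδ
        rw [← ih _ hδ, Ordinal.add_sub_cancel_of_le h] at this
        exact this

theorem hIT : StIT := by
  intro X d hm hl
  refine ⟨iter_zero_IT, iter_succ_IT hm hl, fun B α β h => iter_anti_IT B h,
    fun A B α h => iter_mono_IT hm h α, iter_add_IT, iter_sub_IT, ?_, ?_,
    fun B W α h hW => iter_fix_IT hm h hW α, fun d' h B α => iter_le_IT hm h B α⟩
  · intro B α hα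
    refine Subset.antisymm (fun x hx => ?_) fun x hx => ?_
    · simp only [mem_iInter, Subtype.forall, mem_Iio]
      exact fun β hβ => iter_anti_IT B hβ.le hx
    · simp only [mem_iInter, Subtype.forall, mem_Iio] at hx
      have h0 : (0 : Ordinal.{0}) < α := by
        rw [pos_iff_ne_zero]
        exact hα.ne_bot
      refine mem_iter_IT.2 ⟨iter_sub_IT B 0 (hx 0 h0), fun β hβ => ?_⟩
      have h1 : β + 1 < α := by
        have := hα.succ_lt hβ
        rwa [Order.succ_eq_add_one] at this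
      have := hx _ h1
      rwa [iter_succ_IT hm hl] at this
  · intro B α h
    exact Subset.antisymm (iter_sub_IT B α) (iter_fix_IT hm Subset.rfl h α)

end Pool.Agent.Helper24.WH
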