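import Pool.Agent.Helper24.WH.St4
import Pool.Agent.Helper24.WH.M_IT

/-!
# PROJECT WH (MP_76577a_lc), module EX
-/

set_option autoImplicit false

namespace Pool.Agent.Helper24.WH

open Set TopologicalSpace Topology
open Ordinal hiding univ

theorem ex_le_of_EX {X : Type} {d : Set X → Set X} {B : Set X} {x : Ordinal.{0}}
    (h : iter d B (ω ^ x) = ∅) : ex d B ≤ (x : WithTop Ordinal.{0}) := by
  unfold ex
  rw [if_pos ⟨x, h⟩, WithTop.coe_le_coe]
  exact csInf_le' h

theorem iter_of_ex_EX {X : Type} {d : Set X → Set X} {B : Set X} {x : Ordinal.{0}}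
    (h : ex d B ≤ (x : WithTop Ordinal.{0})) : iter d B (ω ^ x) = ∅ := by
  unfold ex at h
  split_ifs at h with h1
  · rw [WithTop.coe_le_coe] at h
    have h2 : iter d B (ω ^ (sInf {x : Ordinal.{0} | iter d B (ω ^ x) = ∅})) = ∅ :=
      csInf_mem (s := {x : Ordinal.{0} | iter d B (ω ^ x) = ∅}) h1
    have h3 : iter d B (ω ^ x) ⊆ iter d B (ω ^ (sInf {x : Ordinal.{0} | iter d B (ω ^ x) = ∅})) :=
      iter_anti_IT B (opow_le_opow_right omega0_pos h)
    rw [h2] at h3
    exact subset_empty_iff.1 h3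
  · simp at h

theorem ex_le_iff_EX {X : Type} {d : Set X → Set X} {B : Set X} {x : Ordinal.{0}} :
    ex d B ≤ (x : WithTop Ordinal.{0}) ↔ iter d B (ω ^ x) = ∅ :=
  ⟨iter_of_ex_EX, ex_le_of_EX⟩

theorem ex_mono_EX {X : Type} {d d' : Set X → Set X} {A B : Set X}
    (h : ∀ α, iter d' A α ⊆ iter d B α) : ex d' A ≤ ex d B := by
  rcases h1 : ex d B with _ | x
  · exact le_top
  · have h2 : iter d B (ω ^ x) = ∅ := iter_of_ex_EX (le_of_eq h1)
    refine ex_le_of_EX (subset_empty_iff.1 ?_)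
    rw [← h2]
    exact h _

theorem hEX : StEX := by
  intro X d hm hl
  obtain ⟨h0, h1, -, h3, -, -, -, -, -, h9⟩ := hIT X d hm hl
  refine ⟨fun B x => ex_le_iff_EX, fun A B hAB => ex_mono_EX fun α => h3 A B α hAB,
    fun d' hd' B => ex_mono_EX fun α => h9 d' hd' B α, fun B hB => ?_⟩
  have h : ex d B ≤ ((0 : Ordinal.{0}) : WithTop Ordinal.{0}) := by
    refine ex_le_of_EX ?_
    have := h1 B 0
    rw [h0, hB] at this
    rw [opow_zero, ← zero_add (1 : Ordinal.{0})]
    exact this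
  exact le_antisymm h bot_le

end Pool.Agent.Helper24.WH
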