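import Pool.Agent.Helper24.WH.St3

/-!
# WH module EZ: clopen embeddings commute with all operators
-/

set_option autoImplicit false

namespace Pool.Agent.Helper24.WH

open Set TopologicalSpace Ordinal Topology

private lemma closure_EZ {X Y : Type} {τX : TopologicalSpace X} {τY : TopologicalSpace Y} {e : X → Y}
    (h : CE τX τY e) (A : Set X) : closure[τY] (e '' A) = e '' closure[τX] A := by
  have hce : @IsClosedEmbedding X Y τX τY e := by
    let := τX
    let := τY
    exact ⟨⟨⟨h.2.1⟩, h.1⟩, h.2.2.1⟩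
  exact hce.closure_image_eq A

private lemma homOp_EZ {X Y : Type} {τX : TopologicalSpace X} {τY : TopologicalSpace Y} {e : X → Y}
    (h : CE τX τY e) (zX : Set X → Set X) (zY : Set Y → Set Y)
    (hz : ∀ W, zY (e '' W) = e '' zX W) (B : Set X) :
    HomOp τY zY (e '' B) = e '' HomOp τX zX B := by
  apply Subset.antisymm
  · rintro y ⟨W, ⟨hWB, hW⟩, hy⟩
    obtain ⟨x, hx, rfl⟩ := hWB hy
    have hWe : e '' (e ⁻¹' W) = W := by
      rw [image_preimage_eq_inter_range]
      exact inter_eq_left.mpr (hWB.trans (image_subset_range _ _))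
    refine ⟨x, ⟨e ⁻¹' W, ⟨?_, ?_⟩, hy⟩, rfl⟩
    · intro x' hx'
      obtain ⟨x'', hx'', he⟩ := hWB hx'
      rw [← h.1 he]
      exact hx''
    · intro x' hx'
      have h1 : e x' ∈ closure[τY] (zY (e '' (e ⁻¹' W))) := by
        rw [hWe]
        exact hW hx'
      rw [hz, closure_EZ h] at h1
      exact (h.1.mem_set_image).mp h1
  · rintro y ⟨x, ⟨W, ⟨hWB, hW⟩, hx⟩, rfl⟩
    refine ⟨e '' W, ⟨image_mono hWB, ?_⟩, mem_image_of_mem e hx⟩
    rw [hz, closure_EZ h]
    exact image_mono hW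

private lemma iInter_EZ {X Y : Type} {e : X → Y} (he : Function.Injective e) (F : ℕ → Set X) :
    ⋂ i, e '' F i = e '' ⋂ i, F i :=
  (InjOn.image_iInter_eq he.injOn).symm

private lemma zTr_EZ {X Y A : Type} {e : X → Y} (he : Function.Injective e)
    (hX : A → Set X → Set X) (hY : A → Set Y → Set Y) (h : ∀ U B, hY U (e '' B) = e '' hX U B)
    (t : Tr A) (B : Set X) : ZTr hY t (e '' B) = e '' ZTr hX t B := by
  induction t with
  | leaf U => exact h U B
  | node U F ih =>
    change hY U (⋂ i, ZTr hY (F i) (e '' B)) = e '' hX U (⋂ i, ZTr hX (F i) B)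
    rw [iInter_congr ih, iInter_EZ he, h]

private lemma iter_EZ {X Y : Type} {e : X → Y} (he : Function.Injective e)
    (dX : Set X → Set X) (dY : Set Y → Set Y) (h : ∀ B, dY (e '' B) = e '' dX B) (B : Set X)
    (α : Ordinal.{0}) : iter dY (e '' B) α = e '' iter dX B α := by
  induction α using WellFoundedLT.induction with
  | ind α ih =>
    rw [iter, iter]
    apply Subset.antisymm
    · rintro y ⟨⟨x, hx, rfl⟩, hy⟩
      refine ⟨x, ⟨hx, ?_⟩, rfl⟩
      refine mem_iInter.mpr fun β => ?_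
      have h1 := mem_iInter.mp hy β
      rw [ih β.1 β.2, h] at h1
      exact (he.mem_set_image).mp h1
    · rintro y ⟨x, ⟨hx, hx2⟩, rfl⟩
      refine ⟨mem_image_of_mem e hx, mem_iInter.mpr fun β => ?_⟩
      rw [ih β.1 β.2, h]
      exact mem_image_of_mem e (mem_iInter.mp hx2 β)

private lemma z_EZ {X Y S : Type} (τX : ℕ → TopologicalSpace X) (τY : ℕ → TopologicalSpace Y)
    (g : Y → S) (e : X → Y) (h : ∀ m, CE (τX m) (τY m) e) (m : ℕ) :
    ∀ (t : TT S m) (B : Set X), Z τY g m t (e '' B) = e '' Z τX (g ∘ e) m t B := by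
  induction m with
  | zero =>
    intro t B
    change e '' B ∩ g ⁻¹' {(t : S)} = e '' (B ∩ (g ∘ e) ⁻¹' {(t : S)})
    rw [preimage_comp, image_inter_preimage]
  | succ m ih =>
    intro t B
    exact zTr_EZ (h 0).1 (fun U => HomOp (τX (m + 1)) (Z τX (g ∘ e) m U))
      (fun U => HomOp (τY (m + 1)) (Z τY g m U))
      (fun U B => homOp_EZ (h (m + 1)) _ _ (ih U) B) t B

/-- Module EZ. -/
theorem hEZ : StEZ := by
  intro X Y S τX τY g e h m
  have hhom : ∀ (U : TT S m) (B : Set X),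
      hom τY g m U (e '' B) = e '' hom τX (g ∘ e) m U B :=
    fun U B => homOp_EZ (h (m + 1)) _ _ (z_EZ τX τY g e h m U) B
  refine ⟨z_EZ τX τY g e h m, hhom, fun L B α => ?_⟩
  refine iter_EZ (h 0).1 _ _ (fun B => ?_) B α
  change ⋂ i, hom τY g m (L i) (e '' B) = e '' ⋂ i, hom τX (g ∘ e) m (L i) B
  rw [iInter_congr fun i => hhom (L i) B, iInter_EZ (h 0).1]

end Pool.Agent.Helper24.WH
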