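import Pool.Agent.Helper24.WH.St7

set_option autoImplicit false

namespace Pool.Agent.Helper24.WH

open Set

private theorem ec_mono_F1 {α : Type} {X Y : Set α} {v w : ℕ → Set α} (hX : X ⊆ Y)
    (h : ∀ n, v n ⊆ w n) : ∀ n, ec X v n ⊆ ec Y w n := by
  intro n
  cases n with
  | zero => exact hX
  | succ n => exact h n

private theorem ec_eq_F1 {P : Type} (t : Tre (Set P)) (V : ℕ → Set (Tre (Set P)))
    (Y : Set (Tre (Set P))) :
    ec {w : List Bool | t.sub w ∈ Y} (fun n => {w | t.sub w ∈ V n})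
      = fun n => {w | t.sub w ∈ ec Y V n} := by
  funext n
  cases n <;> rfl

private theorem sem_mono_F1 {P : Type} (t : Tre (Set P)) (φ : Fm P) :
    ∀ v w : ℕ → Set (List Bool), (∀ n, v n ⊆ w n) → φ.sem t v ⊆ φ.sem t w := by
  induction φ with
  | prop p => intro v w _; exact subset_rfl
  | nprop p => intro v w _; exact subset_rfl
  | top => intro v w _; exact subset_rfl
  | bot => intro v w _; exact subset_rfl
  | var n => intro v w h; exact h n
  | and φ ψ h1 h2 => intro v w h; exact inter_subset_inter (h1 v w h) (h2 v w h)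
  | or φ ψ h1 h2 => intro v w h; exact union_subset_union (h1 v w h) (h2 v w h)
  | dia φ h1 => intro v w h u hu; obtain ⟨b, hb⟩ := hu; exact ⟨b, h1 v w h hb⟩
  | box φ h1 => intro v w h u hu b; exact h1 v w h (hu b)
  | mu φ h1 =>
    intro v w h u hu X hX
    exact hu X (subset_trans (h1 _ _ (ec_mono_F1 subset_rfl h)) hX)
  | nu φ h1 =>
    intro v w h u hu
    obtain ⟨X, hX, huX⟩ := hu
    exact ⟨X, subset_trans hX (h1 _ _ (ec_mono_F1 subset_rfl h)), huX⟩

private theorem sub_sub_F1 {P : Type} (t : Tre (Set P)) (u w : List Bool) :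
    (t.sub u).sub w = t.sub (u ++ w) := by
  funext x
  simp [Tre.sub, List.append_assoc]

/-- **F1** -/
theorem hF1 : StF1 := by
  intro P φ t
  induction φ with
  | prop p => intro V u; simp [Fm.sem, Fm.SEM, Tre.sub]
  | nprop p => intro V u; simp [Fm.sem, Fm.SEM, Tre.sub]
  | top => intro V u; simp [Fm.sem, Fm.SEM]
  | bot => intro V u; simp [Fm.sem, Fm.SEM]
  | var n => intro V u; rfl
  | and φ ψ h1 h2 => intro V u; exact and_congr (h1 V u) (h2 V u)
  | or φ ψ h1 h2 => intro V u; exact or_congr (h1 V u) (h2 V u)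
  | dia φ h1 =>
    intro V u
    show (∃ b : Bool, u ++ [b] ∈ φ.sem t _) ↔ (∃ b : Bool, (t.sub u).sub [b] ∈ φ.SEM V)
    refine exists_congr fun b => ?_
    rw [sub_sub_F1]
    exact h1 V _
  | box φ h1 =>
    intro V u
    show (∀ b : Bool, u ++ [b] ∈ φ.sem t _) ↔ (∀ b : Bool, (t.sub u).sub [b] ∈ φ.SEM V)
    refine forall_congr' fun b => ?_
    rw [sub_sub_F1]
    exact h1 V _
  | mu φ h1 =>
    intro V u
    constructor
    · intro hu Y hY
      refine hu {w | t.sub w ∈ Y} ?_
      intro w hw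
      rw [ec_eq_F1] at hw
      exact hY ((h1 _ _).mp hw)
    · intro hu X hX
      have h2 : t.sub u ∈ {s : Tre (Set P) | ∀ w, t.sub w = s → w ∈ X} := by
        refine hu _ ?_
        intro s hs w hw
        rw [← hw] at hs
        have h3 := (h1 _ _).mpr hs
        rw [← ec_eq_F1] at h3
        refine hX (sem_mono_F1 t φ _ _ (ec_mono_F1 ?_ fun n => subset_rfl) h3)
        intro w' hw'
        exact hw' w' rfl
      exact h2 u rfl
  | nu φ h1 =>
    intro V u
    constructor
    · rintro ⟨X, hX, hu⟩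
      refine ⟨{s : Tre (Set P) | ∃ w ∈ X, t.sub w = s}, ?_, ⟨u, hu, rfl⟩⟩
      rintro s ⟨w, hw, rfl⟩
      refine (h1 _ _).mp ?_
      rw [← ec_eq_F1]
      refine sem_mono_F1 t φ _ _ (ec_mono_F1 ?_ fun n => subset_rfl) (hX hw)
      intro w' hw'
      exact ⟨w', hw', rfl⟩
    · rintro ⟨Y, hY, hu⟩
      refine ⟨{w | t.sub w ∈ Y}, ?_, hu⟩
      intro w hw
      show w ∈ φ.sem t _
      rw [ec_eq_F1]
      exact (h1 _ _).mpr (hY hw)

end Pool.Agent.Helper24.WH
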