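import Pool.Agent.Helper24.WH.St7

/-!
# PROJECT WH (MP_76577a_lc), module F2: the sandwich lemma
-/

set_option autoImplicit false

namespace Pool.Agent.Helper24.WH

open Set TopologicalSpace Topology
open Ordinal hiding univ

private theorem ec_mono_F2 {α : Type} {X Y : Set α} {V R : ℕ → Set α} (h : X ⊆ Y) (hV : ∀ i, V i ⊆ R i) :
    ∀ i, ec X V i ⊆ ec Y R i
  | 0 => h
  | (n + 1) => hV n

/-- monotonicity of the tree-set semantics -/
private theorem mono_F2 {P : Type} (φ : Fm P) : ∀ V R : ℕ → Set (Tre (Set P)), (∀ i, V i ⊆ R i) →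
    φ.SEM V ⊆ φ.SEM R := by
  induction φ with
  | prop p => intro V R h; exact subset_rfl
  | nprop p => intro V R h; exact subset_rfl
  | top => intro V R h; exact subset_rfl
  | bot => intro V R h; exact subset_rfl
  | var n => intro V R h; exact h n
  | and φ ψ hφ hψ => intro V R h; exact inter_subset_inter (hφ V R h) (hψ V R h)
  | or φ ψ hφ hψ => intro V R h; exact union_subset_union (hφ V R h) (hψ V R h)
  | dia φ hφ => intro V R h t ht; obtain ⟨b, hb⟩ := ht; exact ⟨b, hφ V R h hb⟩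
  | box φ hφ => intro V R h t ht b; exact hφ V R h (ht b)
  | mu φ hφ =>
    intro V R h t ht X hX
    exact ht X ((hφ _ _ (ec_mono_F2 subset_rfl h)).trans hX)
  | nu φ hφ =>
    intro V R h t ht
    obtain ⟨X, hX, htX⟩ := ht
    exact ⟨X, hX.trans (hφ _ _ (ec_mono_F2 subset_rfl h)), htX⟩

/-- dependence on the free variables only -/
private theorem free_F2 {P : Type} (φ : Fm P) : ∀ V R : ℕ → Set (Tre (Set P)), (∀ i, φ.free i → V i = R i) →
    φ.SEM V = φ.SEM R := by
  induction φ with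
  | prop p => intro V R h; rfl
  | nprop p => intro V R h; rfl
  | top => intro V R h; rfl
  | bot => intro V R h; rfl
  | var n => intro V R h; exact h n rfl
  | and φ ψ hφ hψ =>
    intro V R h
    show φ.SEM V ∩ ψ.SEM V = φ.SEM R ∩ ψ.SEM R
    rw [hφ V R (fun i hi => h i (Or.inl hi)), hψ V R (fun i hi => h i (Or.inr hi))]
  | or φ ψ hφ hψ =>
    intro V R h
    show φ.SEM V ∪ ψ.SEM V = φ.SEM R ∪ ψ.SEM R
    rw [hφ V R (fun i hi => h i (Or.inl hi)), hψ V R (fun i hi => h i (Or.inr hi))]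
  | dia φ hφ =>
    intro V R h
    show {t | ∃ b : Bool, Tre.sub t [b] ∈ φ.SEM V} = {t | ∃ b : Bool, Tre.sub t [b] ∈ φ.SEM R}
    rw [hφ V R (fun i hi => h i hi)]
  | box φ hφ =>
    intro V R h
    show {t | ∀ b : Bool, Tre.sub t [b] ∈ φ.SEM V} = {t | ∀ b : Bool, Tre.sub t [b] ∈ φ.SEM R}
    rw [hφ V R (fun i hi => h i hi)]
  | mu φ hφ =>
    intro V R h
    have key : ∀ X, φ.SEM (ec X V) = φ.SEM (ec X R) := by
      intro X
      apply hφ
      intro i hi
      cases i with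
      | zero => rfl
      | succ n => exact h n hi
    show ⋂₀ {X | φ.SEM (ec X V) ⊆ X} = ⋂₀ {X | φ.SEM (ec X R) ⊆ X}
    simp only [key]
  | nu φ hφ =>
    intro V R h
    have key : ∀ X, φ.SEM (ec X V) = φ.SEM (ec X R) := by
      intro X
      apply hφ
      intro i hi
      cases i with
      | zero => rfl
      | succ n => exact h n hi
    show ⋃₀ {X | X ⊆ φ.SEM (ec X V)} = ⋃₀ {X | X ⊆ φ.SEM (ec X R)}
    simp only [key]

private theorem head_F2 {P : Type} (φ : Fm P) (E : ℕ → Set (Tre (Set P))) : φ.SEM E ∈ φ.subs E := by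
  cases φ <;> simp [Fm.subs, Fm.SEM]

/-- the least fixed point is a prefixpoint -/
private theorem lfp_F2 {P : Type} (φ : Fm P) (V : ℕ → Set (Tre (Set P))) :
    φ.SEM (ec ((Fm.mu φ).SEM V) V) ⊆ (Fm.mu φ).SEM V := by
  intro t ht X hX
  apply hX
  have hsub : (Fm.mu φ).SEM V ⊆ X := fun s hs => hs X hX
  exact mono_F2 φ _ _ (ec_mono_F2 hsub (fun i => subset_rfl)) ht

/-- the greatest fixed point is a postfixpoint -/
private theorem gfp_F2 {P : Type} (φ : Fm P) (V : ℕ → Set (Tre (Set P))) :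
    (Fm.nu φ).SEM V ⊆ φ.SEM (ec ((Fm.nu φ).SEM V) V) := by
  intro t ht
  obtain ⟨X, hX, htX⟩ := ht
  have hsub : X ⊆ (Fm.nu φ).SEM V := fun s hs => ⟨X, hX, hs⟩
  exact mono_F2 φ _ _ (ec_mono_F2 hsub (fun i => subset_rfl)) (hX htX)

private theorem subf_F2 {A : Type} (a : A) (p : Tre A × Tre A) : (Tre.mk a p).sub [false] = p.1 := rfl

private theorem subt_F2 {A : Type} (a : A) (p : Tre A × Tre A) : (Tre.mk a p).sub [true] = p.2 := rfl

/-- the sandwich lemma -/
private theorem sand_F2 {P : Type} (φ : Fm P) : ∀ (V E R : ℕ → Set (Tre (Set P))) (a : Set P)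
    (p p' : Tre (Set P) × Tre (Set P)),
    (∀ i, V i ⊆ E i) → (∀ i, E i ⊆ R i) → (∀ F ∈ φ.subs E, (p.1 ∈ F ↔ p'.1 ∈ F) ∧ (p.2 ∈ F ↔ p'.2 ∈ F)) →
    (∀ i, Tre.mk a p ∈ V i → Tre.mk a p' ∈ R i) → Tre.mk a p ∈ φ.SEM V → Tre.mk a p' ∈ φ.SEM R := by
  induction φ with
  | prop q => intro V E R a p p' h1 h2 hs hv h; exact h
  | nprop q => intro V E R a p p' h1 h2 hs hv h; exact h
  | top => intro V E R a p p' h1 h2 hs hv h; trivial
  | bot => intro V E R a p p' h1 h2 hs hv h; exact h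
  | var n => intro V E R a p p' h1 h2 hs hv h; exact hv n h
  | and φ ψ hφ hψ =>
    intro V E R a p p' h1 h2 hs hv h
    refine ⟨hφ V E R a p p' h1 h2 (fun F hF => hs F ?_) hv h.1, hψ V E R a p p' h1 h2 (fun F hF => hs F ?_) hv h.2⟩
    · exact List.mem_cons_of_mem _ (List.mem_append_left _ hF)
    · exact List.mem_cons_of_mem _ (List.mem_append_right _ hF)
  | or φ ψ hφ hψ =>
    intro V E R a p p' h1 h2 hs hv h
    rcases h with h | h
    · exact Or.inl (hφ V E R a p p' h1 h2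
        (fun F hF => hs F (List.mem_cons_of_mem _ (List.mem_append_left _ hF))) hv h)
    · exact Or.inr (hψ V E R a p p' h1 h2
        (fun F hF => hs F (List.mem_cons_of_mem _ (List.mem_append_right _ hF))) hv h)
  | dia φ hφ =>
    intro V E R a p p' h1 h2 hs hv h
    have hh := hs (φ.SEM E) (List.mem_cons_of_mem _ (head_F2 φ E))
    obtain ⟨b, hb⟩ := h
    refine ⟨b, ?_⟩
    have hb' := mono_F2 φ V E h1 hb
    apply mono_F2 φ E R h2
    cases b with
    | false => exact hh.1.1 hb'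
    | true => exact hh.2.1 hb'
  | box φ hφ =>
    intro V E R a p p' h1 h2 hs hv h b
    have hh := hs (φ.SEM E) (List.mem_cons_of_mem _ (head_F2 φ E))
    have hb' := mono_F2 φ V E h1 (h b)
    apply mono_F2 φ E R h2
    cases b with
    | false => exact hh.1.1 hb'
    | true => exact hh.2.1 hb'
  | mu φ hφ =>
    intro V E R a p p' h1 h2 hs hv h
    by_contra hcon
    have hVE : (Fm.mu φ).SEM V ⊆ (Fm.mu φ).SEM E := mono_F2 (Fm.mu φ) V E h1
    have hER : (Fm.mu φ).SEM E ⊆ (Fm.mu φ).SEM R := mono_F2 (Fm.mu φ) E R h2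
    set Y : Set (Tre (Set P)) := (Fm.mu φ).SEM V \ {Tre.mk a p} with hY
    have hnot : Tre.mk a p ∉ φ.SEM (ec Y V) := by
      intro hin
      apply hcon
      apply lfp_F2
      refine hφ (ec Y V) (ec ((Fm.mu φ).SEM E) E) (ec ((Fm.mu φ).SEM R) R) a p p'
        (ec_mono_F2 (sdiff_subset.trans hVE) h1) (ec_mono_F2 hER h2)
        (fun F hF => hs F (List.mem_cons_of_mem _ hF)) ?_ hin
      intro i
      cases i with
      | zero => intro hi; exact absurd rfl hi.2
      | succ n => exact hv n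
    have hpre : φ.SEM (ec Y V) ⊆ Y := by
      intro t ht
      refine ⟨lfp_F2 φ V (mono_F2 φ _ _ (ec_mono_F2 sdiff_subset (fun i => subset_rfl)) ht), ?_⟩
      intro heq
      rw [mem_singleton_iff] at heq
      rw [heq] at ht
      exact hnot ht
    exact (h Y hpre).2 rfl
  | nu φ hφ =>
    intro V E R a p p' h1 h2 hs hv h
    have hVE : (Fm.nu φ).SEM V ⊆ (Fm.nu φ).SEM E := mono_F2 (Fm.nu φ) V E h1
    have hER : (Fm.nu φ).SEM E ⊆ (Fm.nu φ).SEM R := mono_F2 (Fm.nu φ) E R h2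
    set Y : Set (Tre (Set P)) := (Fm.nu φ).SEM R ∪ {Tre.mk a p'} with hY
    refine ⟨Y, ?_, Or.inr rfl⟩
    rintro t (ht | ht)
    · exact mono_F2 φ _ _ (ec_mono_F2 subset_union_left (fun i => subset_rfl)) (gfp_F2 φ R ht)
    · rw [mem_singleton_iff] at ht
      rw [ht]
      refine hφ (ec ((Fm.nu φ).SEM V) V) (ec ((Fm.nu φ).SEM E) E) (ec Y R) a p p'
        (ec_mono_F2 hVE h1) (ec_mono_F2 (hER.trans subset_union_left) h2)
        (fun F hF => hs F (List.mem_cons_of_mem _ hF)) ?_ (gfp_F2 φ V h)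
      intro i
      cases i with
      | zero => intro _; exact Or.inr rfl
      | succ n => exact hv n

theorem hF2 : StF2 := fun _ φ => ⟨mono_F2 φ, free_F2 φ, sand_F2 φ⟩

end Pool.Agent.Helper24.WH
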