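import Pool.Agent.Helper24.WH.St7

/-!
# Project WH, module F3
-/

set_option autoImplicit false

namespace Pool.Agent.Helper24.WH

open Set TopologicalSpace Topology
open Ordinal hiding univ

/-- the list of the values of the subformulas depends only on the free variables -/
theorem subs_congr_F3 (h2 : StF2) {P : Type} (φ : Fm P) :
    ∀ V R : ℕ → Set (Tre (Set P)), (∀ i, φ.free i → V i = R i) → φ.subs V = φ.subs R := by
  induction φ with
  | prop p => intro V R _; rfl
  | nprop p => intro V R _; rfl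
  | top => intro V R _; rfl
  | bot => intro V R _; rfl
  | var n =>
    intro V R h
    show [V n] = [R n]
    rw [h n rfl]
  | and φ ψ ih1 ih2 =>
    intro V R h
    show (Fm.and φ ψ).SEM V :: (φ.subs V ++ ψ.subs V) = (Fm.and φ ψ).SEM R :: (φ.subs R ++ ψ.subs R)
    rw [(h2 P (Fm.and φ ψ)).2.1 V R h, ih1 V R (fun i hi => h i (Or.inl hi)),
      ih2 V R (fun i hi => h i (Or.inr hi))]
  | or φ ψ ih1 ih2 =>
    intro V R h
    show (Fm.or φ ψ).SEM V :: (φ.subs V ++ ψ.subs V) = (Fm.or φ ψ).SEM R :: (φ.subs R ++ ψ.subs R)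
    rw [(h2 P (Fm.or φ ψ)).2.1 V R h, ih1 V R (fun i hi => h i (Or.inl hi)),
      ih2 V R (fun i hi => h i (Or.inr hi))]
  | dia φ ih =>
    intro V R h
    show (Fm.dia φ).SEM V :: φ.subs V = (Fm.dia φ).SEM R :: φ.subs R
    rw [(h2 P (Fm.dia φ)).2.1 V R h, ih V R h]
  | box φ ih =>
    intro V R h
    show (Fm.box φ).SEM V :: φ.subs V = (Fm.box φ).SEM R :: φ.subs R
    rw [(h2 P (Fm.box φ)).2.1 V R h, ih V R h]
  | mu φ ih =>
    intro V R h
    show (Fm.mu φ).SEM V :: φ.subs (ec ((Fm.mu φ).SEM V) V) =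
      (Fm.mu φ).SEM R :: φ.subs (ec ((Fm.mu φ).SEM R) R)
    rw [(h2 P (Fm.mu φ)).2.1 V R h, ih (ec ((Fm.mu φ).SEM R) V) (ec ((Fm.mu φ).SEM R) R)]
    intro i hi
    cases i with
    | zero => rfl
    | succ i => exact h i hi
  | nu φ ih =>
    intro V R h
    show (Fm.nu φ).SEM V :: φ.subs (ec ((Fm.nu φ).SEM V) V) =
      (Fm.nu φ).SEM R :: φ.subs (ec ((Fm.nu φ).SEM R) R)
    rw [(h2 P (Fm.nu φ)).2.1 V R h, ih (ec ((Fm.nu φ).SEM R) V) (ec ((Fm.nu φ).SEM R) R)]
    intro i hi
    cases i with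
    | zero => rfl
    | succ i => exact h i hi

private theorem head_F3 (h2 : StF2) {P : Type} (φ : Fm P) (E : ℕ → Set (Tre (Set P))) (a : Set P)
    (p p' : Tre (Set P) × Tre (Set P))
    (h1 : ∀ i, φ.free i → (Tre.mk a p ∈ E i ↔ Tre.mk a p' ∈ E i))
    (hs : ∀ F ∈ φ.subs E, (p.1 ∈ F ↔ p'.1 ∈ F) ∧ (p.2 ∈ F ↔ p'.2 ∈ F)) :
    Tre.mk a p ∈ φ.SEM E ↔ Tre.mk a p' ∈ φ.SEM E := by
  classical
  obtain ⟨E', hE'⟩ : ∃ E' : ℕ → Set (Tre (Set P)), E' = fun i => if φ.free i then E i else ∅ :=
    ⟨_, rfl⟩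
  have hE : ∀ i, φ.free i → E' i = E i := by
    intro i hi
    rw [hE']
    exact if_pos hi
  have e1 : φ.SEM E' = φ.SEM E := (h2 P φ).2.1 E' E hE
  have e2 : φ.subs E' = φ.subs E := subs_congr_F3 h2 φ E' E hE
  have h1' : ∀ i, (Tre.mk a p ∈ E' i ↔ Tre.mk a p' ∈ E' i) := by
    intro i
    by_cases hi : φ.free i
    · rw [hE i hi]
      exact h1 i hi
    · have h0 : E' i = ∅ := by
        rw [hE']
        exact if_neg hi
      rw [h0]
      exact Iff.rfl
  rw [← e2] at hs
  rw [← e1]
  constructor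
  · exact (h2 P φ).2.2 E' E' E' a p p' (fun _ => Subset.rfl) (fun _ => Subset.rfl) hs
      (fun i => (h1' i).1)
  · exact (h2 P φ).2.2 E' E' E' a p' p (fun _ => Subset.rfl) (fun _ => Subset.rfl)
      (fun F hF => ⟨(hs F hF).1.symm, (hs F hF).2.symm⟩) (fun i => (h1' i).2)

theorem hF3 (h2 : StF2) : StF3 := by
  intro P φ
  induction φ with
  | prop p =>
    intro E a p p' h1 hs F hF
    obtain rfl : F = _ := List.mem_singleton.1 hF
    exact head_F3 h2 _ E a p p' h1 hs
  | nprop p =>
    intro E a p p' h1 hs F hF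
    obtain rfl : F = _ := List.mem_singleton.1 hF
    exact head_F3 h2 _ E a p p' h1 hs
  | top =>
    intro E a p p' h1 hs F hF
    obtain rfl : F = _ := List.mem_singleton.1 hF
    exact head_F3 h2 _ E a p p' h1 hs
  | bot =>
    intro E a p p' h1 hs F hF
    obtain rfl : F = _ := List.mem_singleton.1 hF
    exact head_F3 h2 _ E a p p' h1 hs
  | var n =>
    intro E a p p' h1 hs F hF
    obtain rfl : F = _ := List.mem_singleton.1 hF
    exact h1 n rfl
  | and φ ψ ih1 ih2 =>
    intro E a p p' h1 hs F hF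
    have hh := head_F3 h2 _ E a p p' h1 hs
    rcases List.mem_cons.1 hF with rfl | hF
    · exact hh
    · rcases List.mem_append.1 hF with hF | hF
      · exact ih1 E a p p' (fun i hi => h1 i (Or.inl hi))
          (fun G hG => hs G (List.mem_cons_of_mem _ (List.mem_append_left _ hG))) F hF
      · exact ih2 E a p p' (fun i hi => h1 i (Or.inr hi))
          (fun G hG => hs G (List.mem_cons_of_mem _ (List.mem_append_right _ hG))) F hF
  | or φ ψ ih1 ih2 =>
    intro E a p p' h1 hs F hF
    have hh := head_F3 h2 _ E a p p' h1 hs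
    rcases List.mem_cons.1 hF with rfl | hF
    · exact hh
    · rcases List.mem_append.1 hF with hF | hF
      · exact ih1 E a p p' (fun i hi => h1 i (Or.inl hi))
          (fun G hG => hs G (List.mem_cons_of_mem _ (List.mem_append_left _ hG))) F hF
      · exact ih2 E a p p' (fun i hi => h1 i (Or.inr hi))
          (fun G hG => hs G (List.mem_cons_of_mem _ (List.mem_append_right _ hG))) F hF
  | dia φ ih =>
    intro E a p p' h1 hs F hF
    have hh := head_F3 h2 _ E a p p' h1 hs
    rcases List.mem_cons.1 hF with rfl | hF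
    · exact hh
    · exact ih E a p p' h1 (fun G hG => hs G (List.mem_cons_of_mem _ hG)) F hF
  | box φ ih =>
    intro E a p p' h1 hs F hF
    have hh := head_F3 h2 _ E a p p' h1 hs
    rcases List.mem_cons.1 hF with rfl | hF
    · exact hh
    · exact ih E a p p' h1 (fun G hG => hs G (List.mem_cons_of_mem _ hG)) F hF
  | mu φ ih =>
    intro E a p p' h1 hs F hF
    have hh := head_F3 h2 _ E a p p' h1 hs
    rcases List.mem_cons.1 hF with rfl | hF
    · exact hh
    · refine ih (ec ((Fm.mu φ).SEM E) E) a p p' ?_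
        (fun G hG => hs G (List.mem_cons_of_mem _ hG)) F hF
      intro i hi
      cases i with
      | zero => exact hh
      | succ i => exact h1 i hi
  | nu φ ih =>
    intro E a p p' h1 hs F hF
    have hh := head_F3 h2 _ E a p p' h1 hs
    rcases List.mem_cons.1 hF with rfl | hF
    · exact hh
    · refine ih (ec ((Fm.nu φ).SEM E) E) a p p' ?_
        (fun G hG => hs G (List.mem_cons_of_mem _ hG)) F hF
      intro i hi
      cases i with
      | zero => exact hh
      | succ i => exact h1 i hi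

end Pool.Agent.Helper24.WH
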