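import Pool.Agent.Helper24.WH.St7

/-!
# Project WH, module F4: alternation-free implies `okM`, `okN`
-/

set_option autoImplicit false

namespace Pool.Agent.Helper24.WH

theorem hF4 : StF4 := by
  intro P φ
  induction φ with
  | prop p => intro _; exact ⟨fun _ => by simp [Fm.okM], fun _ => by simp [Fm.okN]⟩
  | nprop p => intro _; exact ⟨fun _ => by simp [Fm.okM], fun _ => by simp [Fm.okN]⟩
  | top => intro _; exact ⟨fun _ => by simp [Fm.okM], fun _ => by simp [Fm.okN]⟩
  | bot => intro _; exact ⟨fun _ => by simp [Fm.okM], fun _ => by simp [Fm.okN]⟩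
  | var n => intro _; exact ⟨fun _ => by simp [Fm.okM], fun _ => by simp [Fm.okN]⟩
  | and φ ψ ih1 ih2 =>
    intro h
    simp only [Fm.altFree] at h
    obtain ⟨h1, h2⟩ := h
    constructor
    · intro hd
      simp only [Fm.free, Fm.nuDep] at hd
      simp only [Fm.okM]
      exact ⟨(ih1 h1).1 fun i hi hn => hd i (Or.inl hi) (Or.inl hn),
        (ih2 h2).1 fun i hi hn => hd i (Or.inr hi) (Or.inr hn)⟩
    · intro hd
      simp only [Fm.free, Fm.muDep] at hd
      simp only [Fm.okN]
      exact ⟨(ih1 h1).2 fun i hi hn => hd i (Or.inl hi) (Or.inl hn),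
        (ih2 h2).2 fun i hi hn => hd i (Or.inr hi) (Or.inr hn)⟩
  | or φ ψ ih1 ih2 =>
    intro h
    simp only [Fm.altFree] at h
    obtain ⟨h1, h2⟩ := h
    constructor
    · intro hd
      simp only [Fm.free, Fm.nuDep] at hd
      simp only [Fm.okM]
      exact ⟨(ih1 h1).1 fun i hi hn => hd i (Or.inl hi) (Or.inl hn),
        (ih2 h2).1 fun i hi hn => hd i (Or.inr hi) (Or.inr hn)⟩
    · intro hd
      simp only [Fm.free, Fm.muDep] at hd
      simp only [Fm.okN]
      exact ⟨(ih1 h1).2 fun i hi hn => hd i (Or.inl hi) (Or.inl hn),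
        (ih2 h2).2 fun i hi hn => hd i (Or.inr hi) (Or.inr hn)⟩
  | dia φ ih =>
    intro h
    simp only [Fm.altFree] at h
    constructor
    · intro hd
      simp only [Fm.free, Fm.nuDep] at hd
      simp only [Fm.okM]
      exact (ih h).1 hd
    · intro hd
      simp only [Fm.free, Fm.muDep] at hd
      simp only [Fm.okN]
      exact (ih h).2 hd
  | box φ ih =>
    intro h
    simp only [Fm.altFree] at h
    constructor
    · intro hd
      simp only [Fm.free, Fm.nuDep] at hd
      simp only [Fm.okM]
      exact (ih h).1 hd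
    · intro hd
      simp only [Fm.free, Fm.muDep] at hd
      simp only [Fm.okN]
      exact (ih h).2 hd
  | mu φ ih =>
    intro h
    simp only [Fm.altFree] at h
    obtain ⟨h1, h2⟩ := h
    constructor
    · intro hd
      simp only [Fm.free, Fm.nuDep] at hd
      simp only [Fm.okM]
      refine (ih h1).1 fun i hi => ?_
      cases i with
      | zero => exact h2
      | succ i => exact hd i hi
    · intro hd
      simp only [Fm.free, Fm.muDep] at hd
      have h3 : ∀ n, ¬ φ.free (n + 1) := fun n hn => hd n hn hn
      simp only [Fm.okN]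
      refine ⟨h3, (ih h1).1 fun i hi => ?_⟩
      cases i with
      | zero => exact h2
      | succ i => exact absurd hi (h3 i)
  | nu φ ih =>
    intro h
    simp only [Fm.altFree] at h
    obtain ⟨h1, h2⟩ := h
    constructor
    · intro hd
      simp only [Fm.free, Fm.nuDep] at hd
      have h3 : ∀ n, ¬ φ.free (n + 1) := fun n hn => hd n hn hn
      simp only [Fm.okM]
      refine ⟨h3, (ih h1).2 fun i hi => ?_⟩
      cases i with
      | zero => exact h2
      | succ i => exact absurd hi (h3 i)
    · intro hd
      simp only [Fm.free, Fm.muDep] at hd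
      simp only [Fm.okN]
      refine (ih h1).2 fun i hi => ?_
      cases i with
      | zero => exact h2
      | succ i => exact hd i hi

end Pool.Agent.Helper24.WH
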