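import Pool.Agent.Helper24.WH.St4

/-!
# PROJECT WH (MP_76577a_lc), module NT: basic facts on node topologies
-/

set_option autoImplicit false

namespace Pool.Agent.Helper24.WH

open Set TopologicalSpace Topology
open Ordinal hiding univ

section NT

variable {A : Type}

private theorem sub_nil_NT (t : Tre A) : t.sub [] = t := rfl

private theorem sub_sub_NT (t : Tre A) (u v : List Bool) : (t.sub u).sub v = t.sub (u ++ v) := by
  funext w
  simp only [Tre.sub, List.append_assoc]

private theorem mk_sub_false_NT (a : A) (p : Tre A × Tre A) (v : List Bool) :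
    (Tre.mk a p).sub (false :: v) = p.1.sub v := rfl

private theorem mk_sub_true_NT (a : A) (p : Tre A × Tre A) (v : List Bool) :
    (Tre.mk a p).sub (true :: v) = p.2.sub v := rfl

private theorem mk_inj_NT (a : A) : Function.Injective (Tre.mk a) := by
  intro p p' h
  refine Prod.ext ?_ ?_
  · funext v
    exact congrFun h (false :: v)
  · funext v
    exact congrFun h (true :: v)

private theorem range_mk_NT (a : A) : range (Tre.mk a) = {t : Tre A | t [] = a} := by
  ext t
  constructor
  · rintro ⟨p, rfl⟩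
    rfl
  · intro h
    refine ⟨(fun v => t (false :: v), fun v => t (true :: v)), ?_⟩
    funext w
    match w with
    | [] => exact h.symm
    | false :: v => rfl
    | true :: v => rfl

private theorem anti_NT (G G' : Set (Set (Tre A))) (h : G ⊆ G') : nt G' ≤ nt G := by
  apply generateFrom_anti
  refine union_subset_union_right _ ?_
  rintro U ⟨F, hF, u, rfl⟩
  exact ⟨F, h hF, u, rfl⟩

private theorem open_node_NT (G : Set (Set (Tre A))) (u : List Bool) (a : A) :
    IsOpen[nt G] {t : Tre A | t u = a} :=
  isOpen_generateFrom_of_mem (Or.inl ⟨u, a, rfl⟩)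

private theorem open_sub_NT (G : Set (Set (Tre A))) {F : Set (Tre A)} (hF : F ∈ G) (u : List Bool) :
    IsOpen[nt G] {t : Tre A | t.sub u ∈ F} :=
  isOpen_generateFrom_of_mem (Or.inr ⟨F, hF, u, rfl⟩)

private theorem open_mem_NT (G : Set (Set (Tre A))) {F : Set (Tre A)} (hF : F ∈ G) :
    IsOpen[nt G] F := open_sub_NT G hF []

private theorem cont_sub_NT (G : Set (Set (Tre A))) (u : List Bool) :
    @Continuous _ _ (nt G) (nt G) (fun t : Tre A => t.sub u) := by
  let _ := nt G
  refine continuous_generateFrom_iff.2 ?_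
  rintro U (⟨v, a, rfl⟩ | ⟨F, hF, v, rfl⟩)
  · exact open_node_NT G (u ++ v) a
  · have : (fun t : Tre A => t.sub u) ⁻¹' {t : Tre A | t.sub v ∈ F} =
        {t : Tre A | t.sub (u ++ v) ∈ F} := by
      ext t
      simp only [mem_preimage, mem_ofPred_eq, sub_sub_NT]
    rw [this]
    exact open_sub_NT G hF (u ++ v)

private theorem clp_node_NT (G : Set (Set (Tre A))) (u : List Bool) (a : A) :
    Clp (nt G) {t : Tre A | t u = a} := by
  let _ := nt G
  refine ⟨⟨?_⟩, open_node_NT G u a⟩
  have : {t : Tre A | t u = a}ᶜ = ⋃ b ∈ {b : A | b ≠ a}, {t : Tre A | t u = b} := by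
    ext t
    simp only [mem_compl_iff, mem_ofPred_eq, mem_iUnion, exists_prop]
    constructor
    · intro h
      exact ⟨t u, h, rfl⟩
    · rintro ⟨b, hb, h⟩ h'
      exact hb (h.symm.trans h')
  rw [this]
  exact isOpen_biUnion fun b _ => open_node_NT G u b

private theorem zd_NT (G : Set (Set (Tre A))) (hG : ∀ F ∈ G, IsClosed[nt G] F) : ZD (nt G) := by
  let _ := nt G
  have key : ∀ U : Set (Tre A), IsOpen U → ∀ x ∈ U, ∃ O : Set (Tre A), IsClopen O ∧ x ∈ O ∧ O ⊆ U := by
    intro U hU
    change GenerateOpen _ U at hU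
    induction hU with
    | basic s hs =>
      intro x hx
      refine ⟨s, ?_, hx, subset_rfl⟩
      rcases hs with ⟨u, a, rfl⟩ | ⟨F, hF, u, rfl⟩
      · exact clp_node_NT G u a
      · refine ⟨?_, open_sub_NT G hF u⟩
        exact (hG F hF).preimage (cont_sub_NT G u)
    | univ => intro x _; exact ⟨Set.univ, isClopen_univ, mem_univ x, subset_rfl⟩
    | inter s t _ _ ihs iht =>
      intro x hx
      obtain ⟨O, hO, hxO, hOs⟩ := ihs x hx.1
      obtain ⟨O', hO', hxO', hOt⟩ := iht x hx.2
      exact ⟨O ∩ O', hO.inter hO', ⟨hxO, hxO'⟩, inter_subset_inter hOs hOt⟩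
    | sUnion S _ ih =>
      intro x hx
      obtain ⟨s, hs, hxs⟩ := hx
      obtain ⟨O, hO, hxO, hOs⟩ := ih s hs x hxs
      exact ⟨O, hO, hxO, hOs.trans (subset_sUnion_of_mem hs)⟩
  intro x U hU hx
  exact key U hU x hx

private theorem clp_range_NT (G : Set (Set (Tre A))) (a : A) : Clp (nt G) (range (Tre.mk a)) := by
  rw [range_mk_NT]
  exact clp_node_NT G [] a

private theorem ce_NT (G : Set (Set (Tre A)))
    (h : ∀ F ∈ G, ∀ a : A, ∃ (k : ℕ) (F₀ F₁ : Fin k → Set (Tre A)),
      (∀ q, IsOpen[nt G] (F₀ q)) ∧ (∀ q, IsOpen[nt G] (F₁ q)) ∧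
      F ∩ range (Tre.mk a) = ⋃ q, Tre.mk a '' (F₀ q ×ˢ F₁ q)) (a : A) :
    CE (@instTopologicalSpaceProd _ _ (nt G) (nt G)) (nt G) (Tre.mk a) := by
  let _ := nt G
  refine ⟨mk_inj_NT a, le_antisymm ?_ ?_, clp_range_NT G a⟩
  · rw [← continuous_iff_le_induced]
    refine continuous_generateFrom_iff.2 ?_
    have hfst : Continuous (Prod.fst : Tre A × Tre A → Tre A) := continuous_fst
    have hsnd : Continuous (Prod.snd : Tre A × Tre A → Tre A) := continuous_snd
    rintro U (⟨u, b, rfl⟩ | ⟨F, hF, u, rfl⟩)
    · match u with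
      | [] =>
        by_cases hab : a = b
        · have : Tre.mk a ⁻¹' {t : Tre A | t [] = b} = Set.univ := by
            ext p
            simp only [mem_preimage, mem_ofPred_eq, mem_univ, iff_true]
            exact hab
          rw [this]
          exact isOpen_univ
        · have : Tre.mk a ⁻¹' {t : Tre A | t [] = b} = ∅ := by
            ext p
            simp only [mem_preimage, mem_ofPred_eq, mem_empty_iff_false, iff_false]
            exact hab
          rw [this]
          exact isOpen_empty
      | false :: v => exact (open_node_NT G v b).preimage hfst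
      | true :: v => exact (open_node_NT G v b).preimage hsnd
    · match u with
      | [] =>
        obtain ⟨k, F₀, F₁, h0, h1, he⟩ := h F hF a
        have : Tre.mk a ⁻¹' {t : Tre A | t.sub [] ∈ F} = ⋃ q, (F₀ q ×ˢ F₁ q) := by
          ext p
          simp only [mem_preimage, mem_ofPred_eq, sub_nil_NT]
          have h2 : Tre.mk a p ∈ F ↔ Tre.mk a p ∈ F ∩ range (Tre.mk a) :=
            ⟨fun hp => ⟨hp, mem_range_self p⟩, fun hp => hp.1⟩
          rw [h2, he]
          simp only [mem_iUnion, (mk_inj_NT a).mem_set_image]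
        rw [this]
        exact isOpen_iUnion fun q => (h0 q).prod (h1 q)
      | false :: v => exact (open_sub_NT G hF v).preimage hfst
      | true :: v => exact (open_sub_NT G hF v).preimage hsnd
  · have hc : Continuous[(nt G).induced (Tre.mk a), nt G] (Tre.mk a) := continuous_induced_dom
    refine le_inf ?_ ?_
    · rw [← continuous_iff_le_induced]
      exact @Continuous.comp _ _ _ ((nt G).induced (Tre.mk a)) (nt G) (nt G) _ _
        (cont_sub_NT G [false]) hc
    · rw [← continuous_iff_le_induced]
      exact @Continuous.comp _ _ _ ((nt G).induced (Tre.mk a)) (nt G) (nt G) _ _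
        (cont_sub_NT G [true]) hc

private theorem sc_NT [Finite A] (G : Set (Set (Tre A))) (hG : G.Countable) :
    @SecondCountableTopology _ (nt G) := by
  let _ := nt G
  refine ⟨⟨_, ?_, rfl⟩⟩
  refine Countable.union ?_ ?_
  · have : {U : Set (Tre A) | ∃ (u : List Bool) (a : A), U = {t : Tre A | t u = a}} =
        range (fun q : List Bool × A => {t : Tre A | t q.1 = q.2}) := by
      ext U
      constructor
      · rintro ⟨u, a, rfl⟩
        exact ⟨(u, a), rfl⟩
      · rintro ⟨q, rfl⟩
        exact ⟨q.1, q.2, rfl⟩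
    rw [this]
    exact countable_range _
  · have : {U : Set (Tre A) | ∃ F ∈ G, ∃ u : List Bool, U = {t : Tre A | t.sub u ∈ F}} =
        ⋃ u : List Bool, (fun F : Set (Tre A) => {t : Tre A | t.sub u ∈ F}) '' G := by
      ext U
      simp only [mem_ofPred_eq, mem_iUnion, mem_image]
      constructor
      · rintro ⟨F, hF, u, rfl⟩
        exact ⟨u, F, hF, rfl⟩
      · rintro ⟨u, F, hF, rfl⟩
        exact ⟨F, hF, u, rfl⟩
    rw [this]
    exact countable_iUnion fun u => hG.image _

private theorem pi_NT : nt (∅ : Set (Set (Tre A))) =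
    @Pi.topologicalSpace (List Bool) (fun _ => A) (fun _ => ⊥) := by
  let _ : TopologicalSpace A := ⊥
  have _ : DiscreteTopology A := ⟨rfl⟩
  apply le_antisymm
  · refine le_iInf fun u => ?_
    let _ := nt (∅ : Set (Set (Tre A)))
    refine continuous_iff_le_induced.1 (?_ : @Continuous (Tre A) A (nt ∅) ⊥ (fun t => t u))
    refine ⟨fun s _ => ?_⟩
    have : (fun t : Tre A => t u) ⁻¹' s = ⋃ b ∈ s, {t : Tre A | t u = b} := by
      ext t
      simp
    change IsOpen ((fun t : Tre A => t u) ⁻¹' s)
    rw [this]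
    exact isOpen_biUnion fun b _ => open_node_NT ∅ u b
  · refine le_generateFrom ?_
    rintro U (⟨u, a, rfl⟩ | ⟨F, hF, _⟩)
    · have h1 : @Continuous (List Bool → A) A (@Pi.topologicalSpace (List Bool) (fun _ => A) (fun _ => ⊥)) _
        (fun t => t u) := continuous_apply u
      exact (isOpen_discrete ({a} : Set A)).preimage h1
    · exact hF.elim

private theorem pol_NT (A : Type) [Finite A] [TopologicalSpace A] [DiscreteTopology A] :
    PolishSpace (List Bool → A) ∧ CompactSpace (List Bool → A) := by
  have h : PolishSpace A := inferInstance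
  have h2 : IsCompletelyMetrizableSpace (List Bool → A) := inferInstance
  have h3 : SeparableSpace A := inferInstance
  have h4 : SeparableSpace (List Bool → A) := inferInstance
  exact ⟨inferInstance, inferInstance⟩

theorem hNT : StNT := by
  intro A _
  refine ⟨anti_NT, fun G F hF => open_mem_NT G hF, cont_sub_NT, zd_NT, clp_range_NT, ce_NT, sc_NT,
    pi_NT, ?_, ?_⟩
  · apply le_antisymm (anti_NT _ _ (empty_subset _))
    refine le_generateFrom ?_
    rintro U (⟨u, a, rfl⟩ | ⟨F, hF, u, rfl⟩)
    · exact open_node_NT ∅ u a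
    · rw [mem_singleton_iff] at hF
      subst hF
      simp only [mem_univ]
      exact @isOpen_univ _ (nt ∅)
  · rw [pi_NT]
    let _ : TopologicalSpace A := ⊥
    have _ : DiscreteTopology A := ⟨rfl⟩
    exact pol_NT A

end NT

end Pool.Agent.Helper24.WH
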