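import Pool.Agent.Helper24.WH.St7

/-!
# Project WH, module F7 (front end)
-/

set_option autoImplicit false

namespace Pool.Agent.Helper24.WH

open Set TopologicalSpace Topology

private theorem subs_head_F7 {P : Type} (φ : Fm P) (v : ℕ → Set (Tre (Set P))) :
    ∃ l, φ.subs v = φ.SEM v :: l := by
  cases φ with
  | prop p => exact ⟨[], rfl⟩
  | nprop p => exact ⟨[], rfl⟩
  | top => exact ⟨[], rfl⟩
  | bot => exact ⟨[], rfl⟩
  | var n => exact ⟨[], rfl⟩
  | and φ ψ => exact ⟨_, rfl⟩
  | or φ ψ => exact ⟨_, rfl⟩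
  | dia φ => exact ⟨_, rfl⟩
  | box φ => exact ⟨_, rfl⟩
  | mu φ => exact ⟨_, rfl⟩
  | nu φ => exact ⟨_, rfl⟩

theorem hF7 (h1 : StF1) (h3 : StF3) (h4 : StF4) (h6 : StF6) : StF7 := by
  classical
  intro P _ L hL
  obtain ⟨φ, hfree, halt, hlang⟩ := hL
  set E : ℕ → Set (Tre (Set P)) := fun _ => ∅ with hE
  set l := φ.subs E with hl
  -- the labelling
  set g : Tre (Set P) → Set (Fin l.length) := fun t => {i | t ∈ l.get i} with hg
  have hgmem : ∀ t t' : Tre (Set P), g t = g t' → ∀ F ∈ l, (t ∈ F ↔ t' ∈ F) := by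
    intro t t' h F hF
    obtain ⟨i, hi⟩ := List.get_of_mem hF
    have h2 : i ∈ g t ↔ i ∈ g t' := by rw [h]
    rw [← hi]
    exact h2
  have hsame : ∀ (a : Set P) (p p' : Tre (Set P) × Tre (Set P)), g p.1 = g p'.1 → g p.2 = g p'.2 →
      g (Tre.mk a p) = g (Tre.mk a p') := by
    intro a p p' e1 e2
    have h := h3 P φ E a p p' (fun i hi => absurd hi (hfree i))
      (fun F hF => ⟨hgmem _ _ e1 F hF, hgmem _ _ e2 F hF⟩)
    ext i
    exact h (l.get i) (List.get_mem l i)
  set Ga : Set P → Set (Fin l.length) × Set (Fin l.length) → Set (Fin l.length) := fun a s =>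
    if h : ∃ p : Tre (Set P) × Tre (Set P), g p.1 = s.1 ∧ g p.2 = s.2 then g (Tre.mk a h.choose) else ∅ with hGa
  have hhom : ∀ a p, g (Tre.mk a p) = Ga a (g p.1, g p.2) := by
    intro a p
    have hex : ∃ p' : Tre (Set P) × Tre (Set P), g p'.1 = g p.1 ∧ g p'.2 = g p.2 := ⟨p, rfl, rfl⟩
    have e : Ga a (g p.1, g p.2) = g (Tre.mk a hex.choose) := by
      rw [hGa]
      exact dif_pos hex
    rw [e]
    exact hsame a _ _ hex.choose_spec.1.symm hex.choose_spec.2.symm
  have hK : ∀ F ∈ φ.subs E, ∃ K : Set (Set (Fin l.length)), F = g ⁻¹' K := by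
    intro F hF
    obtain ⟨i, hi⟩ := List.get_of_mem (show F ∈ l from hF)
    refine ⟨{s | i ∈ s}, ?_⟩
    ext t
    rw [← hi]
    rfl
  have hokM : φ.okM := (h4 P φ halt).1 fun i hi => absurd hi (hfree i)
  obtain ⟨J, hJ⟩ := h6 P (Set (Fin l.length)) g Ga hhom φ E hK
  have hclp := (hJ J le_rfl).1 hokM (fun i hi => absurd hi (hfree i))
  obtain ⟨l', hl'⟩ := subs_head_F7 φ E
  have hpos : 0 < l.length := by
    rw [hl, hl']
    exact Nat.succ_pos _
  have hhead : l.get ⟨0, hpos⟩ = φ.SEM E := by
    have : l = φ.SEM E :: l' := hl'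
    simp [this]
  refine ⟨Set (Fin l.length), inferInstance, J + 1, g, Ga, fun s => decide ((⟨0, hpos⟩ : Fin l.length) ∈ s), ⟨hhom, ?_⟩, ?_⟩
  · intro s
    have e : g ⁻¹' {s} = ⋂ i : Fin l.length, (if i ∈ s then l.get i else (l.get i)ᶜ) := by
      ext t
      rw [mem_preimage, mem_singleton_iff, mem_iInter]
      constructor
      · intro h i
        have hi : i ∈ g t ↔ t ∈ l.get i := Iff.rfl
        split_ifs with his
        · rw [← hi, h]
          exact his
        · intro hcon
          apply his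
          rw [← h]
          exact hcon
      · intro h
        ext i
        have hi := h i
        constructor
        · intro hit
          by_contra his
          rw [if_neg his] at hi
          exact hi hit
        · intro his
          rw [if_pos his] at hi
          exact hi
    rw [e]
    have hc : ∀ i : Fin l.length, Clp (bT g (J + 1)) (if i ∈ s then l.get i else (l.get i)ᶜ) := by
      intro i
      have h := hclp (l.get i) (List.get_mem l i)
      split_ifs
      · exact h
      · unfold Clp at h ⊢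
        letI := bT g (J + 1)
        exact h.compl
    unfold Clp at hc ⊢
    letI := bT g (J + 1)
    exact isClopen_iInter_of_finite hc
  · rw [← hlang]
    ext t
    show [] ∈ φ.sem t (fun _ => ∅) ↔ decide ((⟨0, hpos⟩ : Fin l.length) ∈ g t) = true
    rw [decide_eq_true_iff]
    have h := h1 P φ t E []
    have e : (fun n => {w : List Bool | t.sub w ∈ E n}) = (fun _ => (∅ : Set (List Bool))) := by
      funext n
      ext w
      simp [hE]
    rw [e] at h
    rw [h]
    show t ∈ φ.SEM E ↔ t ∈ l.get ⟨0, hpos⟩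
    rw [hhead]

end Pool.Agent.Helper24.WH
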