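import Pool.Agent.Helper24.WH.St1

namespace Pool.Agent.Helper24.WH

/-- **FB (1.6)** finite basis property -/
theorem hFB : StFB := by
  intro Q r _ _ hw A
  by_contra hcon
  have key : ∀ s : Finset Q, (∀ x ∈ s, x ∈ A) → ∃ y, y ∈ A ∧ ∀ x ∈ s, ¬ r x y := by
    intro s hs
    by_contra hno
    apply hcon
    refine ⟨(s : Set Q), s.finite_toSet, fun x hx => hs x (by simpa using hx), ?_⟩
    intro a ha
    by_contra hbad
    apply hno
    refine ⟨a, ha, ?_⟩
    intro x hx hrx
    exact hbad ⟨x, by simpa using hx, hrx⟩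
  obtain ⟨f, _, hf2⟩ :=
    exists_seq_of_forall_finset_exists (fun x => x ∈ A) (fun x y => ¬ r x y) key
  obtain ⟨m, n, hmn, hr⟩ := hw f
  exact hf2 m n hmn hr

end Pool.Agent.Helper24.WH
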