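import Pool.Agent.Helper24.WH.St1

set_option autoImplicit false

namespace Pool.Agent.Helper24.WH

open Set

/-- finite basis property for one relation -/
private theorem basis_FN {Q : Type} (r : Q → Q → Prop) (hw : WellQuasiOrdered r) (A : Set Q) :
    ∃ A₀ : Set Q, A₀.Finite ∧ A₀ ⊆ A ∧ ∀ a ∈ A, ∃ a₀ ∈ A₀, r a₀ a := by
  by_contra hcon
  have key : ∀ s : Finset Q, (∀ x ∈ s, x ∈ A) → ∃ y, y ∈ A ∧ ∀ x ∈ s, ¬ r x y := by
    intro s hs
    by_contra h2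
    apply hcon
    refine ⟨(s : Set Q), s.finite_toSet, fun x hx => hs x hx, ?_⟩
    intro a ha
    by_contra h3
    exact h2 ⟨a, ha, fun x hx hr => h3 ⟨x, hx, hr⟩⟩
  obtain ⟨f, _, hf2⟩ := exists_seq_of_forall_finset_exists (fun x => x ∈ A) (fun x y => ¬ r x y) key
  obtain ⟨m, n, hmn, h⟩ := hw f
  exact hf2 m n hmn h

theorem hFN : StFN := by
  intro Q r _ _ hw G _
  obtain ⟨C, hC1, hC2, hC3⟩ := basis_FN (Dom r) hw {c : ℕ → Q | ∀ i, c i ∈ G i}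
  refine ⟨C, hC1, fun c hc i => hC2 hc i, ?_⟩
  intro X H hH
  ext x
  simp only [mem_iInter, mem_iUnion]
  constructor
  · intro h
    choose c hc1 hc2 using h
    obtain ⟨c₀, hc₀, hd⟩ := hC3 c hc1
    refine ⟨c₀, hc₀, fun i => ?_⟩
    obtain ⟨j, hj⟩ := hd i
    exact hH _ _ hj (hc2 j)
  · rintro ⟨c, hc, h⟩ i
    exact ⟨c i, hC2 hc i, h i⟩

end Pool.Agent.Helper24.WH
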