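import Pool.Agent.Helper24.WH.St4

set_option autoImplicit false

namespace Pool.Agent.Helper24.WH

theorem hFO : StFO := by
  intro Q r E _ _ φ hr hφ
  by_contra hinf
  have hinf' : (Set.range φ).Infinite := hinf
  let f := hinf'.natEmbedding
  choose q hq using fun n => (f n).2
  obtain ⟨g, h | h⟩ := exists_increasing_or_nonincreasing_subseq (fun a b : E => a < b)
    (fun n => (f n : E))
  · obtain ⟨i, j, hij, hr'⟩ := hr (fun n => q (g n))
    have h1 := hφ _ _ hr'
    have h2 := h i j hij
    simp only [hq] at h1
    exact absurd h2 (not_lt.mpr h1)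
  · have h3 : StrictAnti (fun n => (f (g n) : E)) := by
      intro m n hmn
      refine lt_of_le_of_ne (not_lt.mp (h m n hmn)) ?_
      intro he
      have h4 : f (g n) = f (g m) := Subtype.ext he
      exact absurd (g.injective (f.injective h4)) hmn.ne'
    exact not_strictAnti_of_wellFoundedLT _ h3

end Pool.Agent.Helper24.WH
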