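import Pool.Agent.Helper24.WH.St4
import Pool.Agent.Helper24.WH.M_IT

/-!
# PROJECT WH (MP_76577a_lc), module FT2 (5.2): finitely many exponents over all pieces
-/

set_option autoImplicit false

namespace Pool.Agent.Helper24.WH

open Set TopologicalSpace Topology
open Ordinal hiding univ

variable {A S : Type}

/-- `Z` depends only on the topologies of index at most `m` -/
private theorem zCongr_FT2 {X : Type} (τ τ' : ℕ → TopologicalSpace X) (g : X → S) (m : ℕ)
    (h : ∀ k ≤ m, τ k = τ' k) : ∀ t : TT S m, Z τ g m t = Z τ' g m t := by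
  induction m with
  | zero =>
    intro s
    funext B
    simp only [Z]
  | succ m ih =>
    intro t
    funext B
    have e : (fun U => HomOp (τ (m + 1)) (Z τ g m U)) = (fun U => HomOp (τ' (m + 1)) (Z τ' g m U)) := by
      funext U
      rw [h (m + 1) le_rfl, ih (fun k hk => h k (by omega)) U]
    show ZTr (fun U => HomOp (τ (m + 1)) (Z τ g m U)) t B = ZTr (fun U => HomOp (τ' (m + 1)) (Z τ' g m U)) t B
    rw [e]

private theorem dLCongr_FT2 {X : Type} (τ τ' : ℕ → TopologicalSpace X) (g : X → S) (m : ℕ)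
    (h : ∀ k ≤ m + 1, τ k = τ' k) (L : ℕ → TT S m) : dL τ g m L = dL τ' g m L := by
  funext B
  unfold dL hom
  refine iInter_congr fun i => ?_
  rw [h (m + 1) le_rfl, zCongr_FT2 τ τ' g m (fun k hk => h k (by omega)) (L i)]

private theorem nonneg_FT2 (v : WithTop Ordinal.{0}) : 0 ≤ v := by
  induction v using WithTop.recTopCoe with
  | top => exact le_top
  | coe x => exact WithTop.coe_le_coe.2 (zero_le (a := x))

private theorem iUnion₂_eq_empty_iff_FT2 {α ι : Type} (C : Set ι) (f : ι → Set α) :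
    (⋃ i ∈ C, f i) = ∅ ↔ ∀ i ∈ C, f i = ∅ := by
  simp only [iUnion_eq_empty]

/-- a value determined by a finite set of values -/
private theorem sup_FT2 {F : Set (WithTop Ordinal.{0})} (hF : F.Finite) (v : WithTop Ordinal.{0})
    (h : ∀ x : Ordinal.{0}, v ≤ x ↔ ∀ w ∈ F, w ≤ x) : v = 0 ∨ v ∈ F := by
  by_cases hne : F.Nonempty
  · obtain ⟨w₀, hw₀, hmax⟩ := Set.exists_max_image F id hF hne
    right
    have e : v = w₀ := by
      refine eq_of_forall_ge_iff fun c => ?_
      induction c using WithTop.recTopCoe with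
      | top => exact ⟨fun _ => le_top, fun _ => le_top⟩
      | coe x => exact ⟨fun hv => (h x).1 hv w₀ hw₀, fun hw => (h x).2 fun w hwF => (hmax w hwF).trans hw⟩
    rw [e]
    exact hw₀
  · left
    have h0 := (h 0).2 (fun w hw => absurd ⟨w, hw⟩ hne)
    exact le_antisymm h0 (nonneg_FT2 v)

/-- the exponent of a union -/
private theorem union_FT2 (hEX : StEX) (hAD : StAD) {X : Type} {τ : TopologicalSpace X} (hZD : ZD τ)
    {d : Set X → Set X} (hd : IsDer τ d) {B₁ B₂ : Set X} (h₁ : IsClosed[τ] B₁) (h₂ : IsClosed[τ] B₂) :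
    ex d (B₁ ∪ B₂) = 0 ∨ ex d (B₁ ∪ B₂) = 1 ∨ ex d (B₁ ∪ B₂) = ex d B₁ ∨
      ex d (B₁ ∪ B₂) = ex d B₂ := by
  obtain ⟨hle, hmono, -, -⟩ := hEX X d hd.mono hd.le
  have key : ∀ x : Ordinal.{0}, 1 ≤ x → ex d B₁ ≤ x → ex d B₂ ≤ x → ex d (B₁ ∪ B₂) ≤ x := by
    intro x hx h1 h2
    rw [hle] at h1 h2 ⊢
    rw [hAD X τ hZD d hd B₁ B₂ x h₁ h₂ hx, h1, h2, union_empty]
  have m1 := hmono B₁ (B₁ ∪ B₂) subset_union_left
  have m2 := hmono B₂ (B₁ ∪ B₂) subset_union_right
  -- the maximum of the two values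
  have hmax : ∀ w : WithTop Ordinal.{0}, ex d B₁ ≤ w → ex d B₂ ≤ w → w ≤ ex d (B₁ ∪ B₂) →
      ex d (B₁ ∪ B₂) = 0 ∨ ex d (B₁ ∪ B₂) = 1 ∨ ex d (B₁ ∪ B₂) = w := by
    intro w h1 h2 h3
    induction w using WithTop.recTopCoe with
    | top => exact Or.inr (Or.inr (top_le_iff.1 h3))
    | coe y =>
      by_cases hy : 1 ≤ y
      · exact Or.inr (Or.inr (le_antisymm (key y hy h1 h2) h3))
      · have hy1 : y ≤ 1 := (not_le.1 hy).le
        have h4 : ex d (B₁ ∪ B₂) ≤ ((1 : Ordinal.{0}) : WithTop Ordinal.{0}) :=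
          key 1 le_rfl (h1.trans (WithTop.coe_le_coe.2 hy1)) (h2.trans (WithTop.coe_le_coe.2 hy1))
        generalize ex d (B₁ ∪ B₂) = v at h4
        induction v using WithTop.recTopCoe with
        | top => exact absurd h4 (by simp)
        | coe z =>
          have hz := WithTop.coe_le_coe.1 h4
          rcases Order.le_one_iff.1 hz with rfl | rfl
          · exact Or.inl rfl
          · exact Or.inr (Or.inl rfl)
  rcases le_total (ex d B₁) (ex d B₂) with h | h
  · rcases hmax _ h le_rfl m2 with h' | h' | h'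
    · exact Or.inl h'
    · exact Or.inr (Or.inl h')
    · exact Or.inr (Or.inr (Or.inr h'))
  · rcases hmax _ le_rfl h m1 with h' | h' | h'
    · exact Or.inl h'
    · exact Or.inr (Or.inl h')
    · exact Or.inr (Or.inr (Or.inl h'))

theorem hFT2 (hNV : StNV) (hFO : StFO) (hEX : StEX) (hAD : StAD) (hEZ : StEZ) (hRD : StRD)
    (hPZ : StPZ) (hPT : StPT) (hSG : StSG) (hSU : StSU) (hPI : StPI) (hZM : StZM) (hZA : StZA) :
    StFT2 := by
  intro A S _ _ _ n g Ga hH i₀ h₀ m hm
  obtain ⟨hst, -⟩ := hSG A S n g Ga hH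
  obtain ⟨hT, hF, hCE⟩ := hst i₀
  obtain ⟨-, -, -, hmono, -⟩ := hSU A S n g
  obtain ⟨-, -, -, -, hcl, -, -⟩ := hPI A S n g Ga hH (m + 1)
  obtain ⟨-, -, hder⟩ := hZM (Tre A) S (stg n g i₀) g hT hF m
  obtain ⟨-, -, hanti, -⟩ := hZA (Tre A) S (stg n g i₀) g m
  have hE := fun L : ℕ → TT S m =>
    hEX (Tre A) (dL (stg n g i₀) g m L) (hder L).mono (hder L).le
  have hclosed : ∀ B, Pc n g (m + 1) B → IsClosed[stg n g i₀ (m + 1)] B := by
    intro B hB
    obtain ⟨i, hi⟩ := hcl B hB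
    have h1 : IsClosed[stg n g (max i i₀) (m + 1)] B :=
      hi.mono (hmono i (max i i₀) (m + 1) (le_max_left _ _))
    rwa [h₀ _ (le_max_right _ _)] at h1
  have hdL : ∀ L : ℕ → TT S m, dL (fT n g i₀) g m L = dL (stg n g i₀) g m L :=
    fun L => dLCongr_FT2 _ _ g m (fun k hk => if_pos (by omega)) L
  -- the exponents of the names
  set E₀ : Set (WithTop Ordinal.{0}) := range (fun q : {q : Nm S × (ℕ → TT S m) // ∃ h i, GN n g q.1 h i} =>
    ex (dL (stg n g i₀) g m q.1.2) (vl n g q.1.1)) with hE₀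
  have hE₀f : E₀.Finite := by
    refine hFO {q : Nm S × (ℕ → TT S m) // ∃ h i, GN n g q.1 h i}
      (fun a b => Dom (TT.Le m) a.1.2 b.1.2 ∧ vl n g b.1.1 ⊆ vl n g a.1.1) (WithTop Ordinal.{0}) _ ?_ ?_
    · intro f
      exact (hNV A S n g Ga hH (fun k => (f k).1.1) (fun k => (f k).2)).2 m (fun k => (f k).1.2)
    · rintro a b ⟨h1, h2⟩
      exact ((hE b.1.2).2.1 _ _ h2).trans
        ((hE a.1.2).2.2.1 _ (fun B => hanti _ _ h1 B) _)
  have main : ∀ B, Pc n g (m + 1) B → ∀ L : ℕ → TT S m,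
      ex (dL (stg n g i₀) g m L) B ∈ insert 0 (insert 1 E₀) := by
    intro B hB
    induction hB with
    | nm N i hN =>
      intro L
      exact Or.inr (Or.inr ⟨⟨(N, L), m + 1, i, hN⟩, rfl⟩)
    | empty =>
      intro L
      left
      have h1 : ex (dL (stg n g i₀) g m L) (∅ : Set (Tre A)) ≤ ((0 : Ordinal.{0}) : WithTop Ordinal.{0}) := by
        rw [(hE L).1]
        exact subset_empty_iff.1 ((hIT (Tre A) _ (hder L).mono (hder L).le).2.2.2.2.2.1 ∅ _)
      exact le_antisymm h1 (nonneg_FT2 _)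
    | union C₀ C₁ hC₀ hC₁ ih₀ ih₁ =>
      intro L
      rcases union_FT2 hEX hAD (hT.zd (m + 1)) (hder L) (hclosed _ hC₀) (hclosed _ hC₁) with h | h | h | h
      · exact Or.inl h
      · exact Or.inr (Or.inl h)
      · rw [h]; exact ih₀ L
      · rw [h]; exact ih₁ L
    | mk a C₀ C₁ hC₀ hC₁ ih₀ ih₁ =>
      intro L
      obtain ⟨-, C, hCf, hC⟩ := hRD (S × S) S (Ga a) m L
      obtain ⟨hPTt, hPTf⟩ := hPT (Tre A) (Tre A) S S (stg n g i₀) (stg n g i₀) g g hT hT hF hF
      have hga : g ∘ Tre.mk a = Ga a ∘ Prod.map g g := by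
        funext p
        exact hH.hom a p
      have hcp : IsClosed[prodT (stg n g i₀) (stg n g i₀) (m + 1)] (C₀ ×ˢ C₁) := by
        let _ := stg n g i₀ (m + 1)
        exact (hclosed _ hC₀).prod (hclosed _ hC₁)
      obtain ⟨-, -, hEZ3⟩ := hEZ (Tre A × Tre A) (Tre A) S (prodT (stg n g i₀) (stg n g i₀))
        (stg n g i₀) g (Tre.mk a) (fun M => hCE a M) m
      obtain ⟨-, -, hPZ3⟩ := hPZ (Tre A) (Tre A) S S (stg n g i₀) (stg n g i₀) g g m
      obtain ⟨-, hCx⟩ := hC (Tre A × Tre A) (prodT (stg n g i₀) (stg n g i₀)) (Prod.map g g) hPTt hPTf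
        (C₀ ×ˢ C₁) hcp
      have hval : ∀ x : Ordinal.{0}, ex (dL (stg n g i₀) g m L) (Tre.mk a '' (C₀ ×ˢ C₁)) ≤ x ↔
          ∀ w ∈ (fun L' : ℕ → TT (S × S) m =>
            min (ex (dL (stg n g i₀) g m (fun i => TT.map Prod.fst m (L' i))) C₀)
              (ex (dL (stg n g i₀) g m (fun i => TT.map Prod.snd m (L' i))) C₁)) '' C, w ≤ x := by
        intro x
        rw [(hE L).1, hEZ3, hga, hCx x, image_eq_empty, iUnion₂_eq_empty_iff_FT2]
        constructor
        · rintro h w ⟨L', hL', rfl⟩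
          have h1 := h L' hL'
          rw [hPZ3, prod_eq_empty_iff] at h1
          rcases h1 with h1 | h1
          · exact min_le_of_left_le (((hE _).1 _ _).2 h1)
          · exact min_le_of_right_le (((hE _).1 _ _).2 h1)
        · intro h L' hL'
          have h1 := h _ ⟨L', hL', rfl⟩
          rw [hPZ3, prod_eq_empty_iff]
          rcases min_le_iff.1 h1 with h1 | h1
          · exact Or.inl (((hE _).1 _ _).1 h1)
          · exact Or.inr (((hE _).1 _ _).1 h1)
      rcases sup_FT2 (hCf.image _) _ hval with h | ⟨L', hL', h⟩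
      · exact Or.inl h
      · rw [← h]
        rcases min_choice (ex (dL (stg n g i₀) g m (fun i => TT.map Prod.fst m (L' i))) C₀)
              (ex (dL (stg n g i₀) g m (fun i => TT.map Prod.snd m (L' i))) C₁) with h' | h'
        · rw [show (fun L' : ℕ → TT (S × S) m =>
            min (ex (dL (stg n g i₀) g m (fun i => TT.map Prod.fst m (L' i))) C₀)
              (ex (dL (stg n g i₀) g m (fun i => TT.map Prod.snd m (L' i))) C₁)) L' = _ from h']
          exact ih₀ _
        · rw [show (fun L' : ℕ → TT (S × S) m =>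
            min (ex (dL (stg n g i₀) g m (fun i => TT.map Prod.fst m (L' i))) C₀)
              (ex (dL (stg n g i₀) g m (fun i => TT.map Prod.snd m (L' i))) C₁)) L' = _ from h']
          exact ih₁ _
  refine ((hE₀f.insert 1).insert 0).subset ?_
  rintro v ⟨L, B, hB, rfl⟩
  rw [hdL]
  exact main B hB L

end Pool.Agent.Helper24.WH
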