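import Pool.Agent.Helper24.WH.St1

set_option autoImplicit false

namespace Pool.Agent.Helper24.WH

open Set TopologicalSpace Ordinal Topology

variable {X : Type}

private theorem iter_eq_IL (d : Set X → Set X) (B : Set X) (α : Ordinal.{0}) :
    iter d B α = B ∩ ⋂ β : Iio α, d (iter d B β.1) := by
  rw [iter]

private theorem mem_iter_IL (d : Set X → Set X) (B : Set X) (α : Ordinal.{0}) (x : X) :
    x ∈ iter d B α ↔ x ∈ B ∧ ∀ β, β < α → x ∈ d (iter d B β) := by
  rw [iter_eq_IL]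
  constructor
  · rintro ⟨h1, h2⟩
    refine ⟨h1, fun β hβ => ?_⟩
    exact (mem_iInter.1 h2) ⟨β, hβ⟩
  · rintro ⟨h1, h2⟩
    exact ⟨h1, mem_iInter.2 (fun β => h2 β.1 β.2)⟩

private theorem mono_IL (d : Set X → Set X) (hd : ∀ A B, A ⊆ B → d A ⊆ d B) (A B : Set X)
    (h : A ⊆ B) (α : Ordinal.{0}) : iter d A α ⊆ iter d B α := by
  induction α using WellFoundedLT.induction with
  | ind α ih =>
    intro x hx
    rw [mem_iter_IL] at hx ⊢
    exact ⟨h hx.1, fun β hβ => hd _ _ (ih β hβ) (hx.2 β hβ)⟩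

private theorem loc_IL (τ : TopologicalSpace X) (d : Set X → Set X) (hd : IsDer τ d) (O B : Set X)
    (hO : Clp τ O) (α : Ordinal.{0}) : iter d (B ∩ O) α = iter d B α ∩ O := by
  induction α using WellFoundedLT.induction with
  | ind α ih =>
    ext x
    rw [mem_inter_iff, mem_iter_IL, mem_iter_IL]
    constructor
    · rintro ⟨⟨h1, h2⟩, h3⟩
      refine ⟨⟨h1, fun β hβ => ?_⟩, h2⟩
      have := h3 β hβ
      rw [ih β hβ, hd.loc O _ hO] at this
      exact this.1
    · rintro ⟨⟨h1, h3⟩, h2⟩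
      refine ⟨⟨h1, h2⟩, fun β hβ => ?_⟩
      rw [ih β hβ, hd.loc O _ hO]
      exact ⟨h3 β hβ, h2⟩

private theorem closed_IL (τ : TopologicalSpace X) (d : Set X → Set X) (hd : IsDer τ d) (B : Set X)
    (hB : IsClosed[τ] B) (α : Ordinal.{0}) : IsClosed[τ] (iter d B α) := by
  induction α using WellFoundedLT.induction with
  | ind α ih =>
    rw [iter_eq_IL]
    exact @IsClosed.inter X B _ τ hB
      (@isClosed_iInter X _ τ _ (fun β => hd.closed _ (ih β.1 β.2)))

theorem hIL : StIL := by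
  intro X τ d hd α
  refine ⟨fun A B h => mono_IL d hd.mono A B h α, fun B x hx => ((mem_iter_IL d B α x).1 hx).1,
    fun O B hO => loc_IL τ d hd O B hO α, fun B hB => closed_IL τ d hd B hB α⟩

end Pool.Agent.Helper24.WH
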