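import Pool.Agent.Helper24.WH.St3
import Pool.Agent.Helper24.WH.M_HO

set_option autoImplicit false

namespace Pool.Agent.Helper24.WH

open Set TopologicalSpace Ordinal Topology

private theorem hom_ZM (h : StHO) {X : Type} (τ : TopologicalSpace X) (z : Set X → Set X)
    (hm : ∀ A B, A ⊆ B → z A ⊆ z B) (hl : ∀ O B, Clp τ O → z (B ∩ O) = z B ∩ O) :
    IsDer τ (HomOp τ z) := by
  obtain ⟨h1, h2, -, -, h5, -, h7, -⟩ := h X τ z hm
  exact ⟨h2, h1, h7 hl, h5⟩

private theorem inter_ZM {X : Type} (τ : TopologicalSpace X) (d : ℕ → Set X → Set X)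
    (h : ∀ i, IsDer τ (d i)) : IsDer τ (fun B => ⋂ i, d i B) := by
  refine ⟨fun A B hAB => iInter_mono fun i => (h i).mono A B hAB,
    fun B => (iInter_subset _ 0).trans ((h 0).le B), fun O B hO => ?_, fun B hB => ?_⟩
  · show ⋂ i, d i (B ∩ O) = (⋂ i, d i B) ∩ O
    rw [iInter_inter]
    exact iInter_congr fun i => (h i).loc O B hO
  · exact @isClosed_iInter X ℕ τ _ fun i => (h i).closed B hB

private theorem comp_ZM {X : Type} (τ : TopologicalSpace X) (d e : Set X → Set X)
    (hd : IsDer τ d) (he : IsDer τ e) : IsDer τ (fun B => d (e B)) := by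
  refine ⟨fun A B hAB => hd.mono _ _ (he.mono A B hAB), fun B => (hd.le _).trans (he.le B),
    fun O B hO => ?_, fun B hB => hd.closed _ (he.closed B hB)⟩
  show d (e (B ∩ O)) = d (e B) ∩ O
  rw [he.loc O B hO, hd.loc O _ hO]

private theorem ztr_ZM {X A : Type} (τ : TopologicalSpace X) (h : A → Set X → Set X)
    (hh : ∀ U, IsDer τ (h U)) (t : Tr A) : IsDer τ (ZTr h t) := by
  induction t with
  | leaf U =>
    have e : ZTr h (.leaf U) = h U := by funext B; simp [ZTr]
    rw [e]
    exact hh U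
  | node U F ih =>
    have e : ZTr h (.node U F) = fun B => h U (⋂ i, ZTr h (F i) B) := by funext B; simp [ZTr]
    rw [e]
    exact comp_ZM τ (h U) (fun B => ⋂ i, ZTr h (F i) B) (hh U) (inter_ZM τ (fun i => ZTr h (F i)) ih)

private theorem clp_ZM {X : Type} {τ τ' : TopologicalSpace X} (h : τ ≤ τ') {O : Set X}
    (hO : Clp τ' O) : Clp τ O := by
  exact ⟨@IsClosed.mk X τ O (h _ (@IsClosed.isOpen_compl X τ' O hO.1)), h _ hO.2⟩

theorem hZM : StZM := by
  intro X S τ g hT hF m
  have key : ∀ m, (∀ t : TT S m, IsDer (τ m) (Z τ g m t)) →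
      ∀ U : TT S m, IsDer (τ (m + 1)) (hom τ g m U) := by
    intro m hm U
    exact hom_ZM hHO (τ (m + 1)) (Z τ g m U) (hm U).mono
      (fun O B hO => (hm U).loc O B (clp_ZM (hT.mono m) hO))
  have hZ : ∀ m, ∀ t : TT S m, IsDer (τ m) (Z τ g m t) := by
    intro m
    induction m with
    | zero =>
      intro s
      have e : Z τ g 0 s = fun B => B ∩ g ⁻¹' {(s : S)} := by funext B; simp [Z]
      rw [e]
      refine ⟨fun A B hAB => inter_subset_inter_left _ hAB, fun B => inter_subset_left,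
        fun O B _ => ?_, fun B hB => ?_⟩
      · show B ∩ O ∩ _ = B ∩ _ ∩ O
        rw [inter_right_comm]
      · exact @IsClosed.inter X _ _ (τ 0) hB (hF s).1
    | succ m ih =>
      intro t
      have e : Z τ g (m + 1) t = ZTr (fun U => HomOp (τ (m + 1)) (Z τ g m U)) t := by
        funext B; simp [Z]
      rw [e]
      exact ztr_ZM (τ (m + 1)) _ (fun U => key m ih U) t
  refine ⟨hZ m, key m (hZ m), fun L => ?_⟩
  exact inter_ZM (τ (m + 1)) (fun i => hom τ g m (L i)) (fun i => key m (hZ m) (L i))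


end Pool.Agent.Helper24.WH
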