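import Pool.Agent.Helper24.WH.St4
import Pool.Agent.Helper24.WH.M_IT
import Pool.Agent.Helper24.WH.M_IL
import Pool.Agent.Helper24.WH.M_ZM
import Pool.Agent.Helper24.WH.M_HO
import Pool.Agent.Helper24.WH.M_EX

/-!
# PROJECT WH (MP_76577a_lc), module FT3: the gap argument
-/

set_option autoImplicit false

namespace Pool.Agent.Helper24.WH

open Set TopologicalSpace Topology
open Ordinal hiding univ

/-- the situation of the gap argument -/
private structure Sit {X : Type} (τ : TopologicalSpace X) (d : Set X → Set X) (P : Set (Set X))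
    (Q : Set (Set X)) : Prop where
  der : IsDer τ d
  cl : ∀ B ∈ P, IsClosed[τ] B
  clp : ∀ O ∈ Q, Clp τ O
  basis : ∀ (x : X) (U : Set X), IsOpen[τ] U → x ∈ U → ∃ O ∈ Q, x ∈ O ∧ O ⊆ U
  inter : ∀ B ∈ P, ∀ O ∈ Q, B ∩ O ∈ P

private theorem iter_loc_FT3 {X : Type} {τ : TopologicalSpace X} {d : Set X → Set X}
    {P Q : Set (Set X)} (h : Sit τ d P Q) {B O : Set X} (hO : O ∈ Q) (α : Ordinal.{0}) :
    iter d (B ∩ O) α = iter d B α ∩ O :=
  (hIL X τ d h.der α).loc O B (h.clp O hO)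

private theorem gap_FT3 {X : Type} {τ : TopologicalSpace X} {d : Set X → Set X}
    {P Q : Set (Set X)} (h : Sit τ d P Q) {Y : Set X} (hY : Y ∈ P) {v w : Ordinal.{0}}
    (hv : ex d Y = v) (hw : w < v)
    (hE : ∀ O ∈ Q, ex d (Y ∩ O) < (v : WithTop Ordinal.{0}) → ex d (Y ∩ O) ≤ (w : WithTop Ordinal.{0})) :
    v ≤ w + 1 := by
  obtain ⟨h0, h1, h2, h3, -, h5, -, -, h8, -⟩ := hIT X d h.der.mono h.der.le
  have hmon : ∀ O, ex d (Y ∩ O) ≤ (v : WithTop Ordinal.{0}) := fun O => by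
    rw [← hv]; exact ex_mono_EX fun α => h3 _ _ α inter_subset_left
  set C : Set X := {y | y ∈ Y ∧ ∀ O ∈ Q, y ∈ O → ex d (Y ∩ O) = v} with hC
  have hsub : iter d Y (ω ^ w) ⊆ C := by
    intro y hy
    refine ⟨h5 Y _ hy, fun O hO hyO => ?_⟩
    by_contra hne
    have h6 : ex d (Y ∩ O) ≤ (w : WithTop Ordinal.{0}) := hE O hO (lt_of_le_of_ne (hmon O) hne)
    have h7 := iter_of_ex_EX h6
    rw [iter_loc_FT3 h hO] at h7
    have : y ∈ iter d Y (ω ^ w) ∩ O := ⟨hy, hyO⟩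
    rw [h7] at this
    exact this
  have hne : (iter d Y (ω ^ w)).Nonempty := by
    rw [nonempty_iff_ne_empty]
    intro h6
    have := ex_le_of_EX h6
    rw [hv, WithTop.coe_le_coe] at this
    exact absurd hw (not_lt.2 this)
  have hCY : C ⊆ Y := fun y hy => hy.1
  have hCcl : IsClosed[τ] C := by
    have : C = Y ∩ ⋂ O ∈ {O | O ∈ Q ∧ ex d (Y ∩ O) ≠ v}, Oᶜ := by
      ext y
      simp only [hC, mem_setOf_eq, mem_inter_iff, mem_iInter, mem_compl_iff]
      constructor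
      · rintro ⟨a, b⟩
        exact ⟨a, fun O hO hy => hO.2 (b O hO.1 hy)⟩
      · rintro ⟨a, b⟩
        exact ⟨a, fun O hO hy => by by_contra hh; exact b O ⟨hO, hh⟩ hy⟩
    rw [this]
    letI := τ
    refine (h.cl Y hY).inter (isClosed_biInter fun O hO => ?_)
    exact (h.clp O hO.1).2.isClosed_compl
  have hnot : ¬ C ⊆ d C := by
    intro h6
    have h7 := h8 Y C (ω ^ v) hCY h6
    rw [iter_of_ex_EX (le_of_eq hv)] at h7
    obtain ⟨y, hy⟩ := hne
    exact h7 (hsub hy)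
  obtain ⟨y, hyC, hyd⟩ := not_subset.1 hnot
  have hdC : IsClosed[τ] (d C) := h.der.closed C hCcl
  obtain ⟨O, hO, hyO, hOd⟩ := h.basis y (d C)ᶜ (by letI := τ; exact hdC.isOpen_compl) hyd
  have h6 : iter d (Y ∩ O) (ω ^ w + 1) = ∅ := by
    rw [iter_loc_FT3 h hO, h1, subset_empty_iff.symm]
    rintro z ⟨hz, hzO⟩
    exact hOd hzO (h.der.mono _ _ hsub hz)
  have h7 : iter d (Y ∩ O) (ω ^ (w + 1)) = ∅ := by
    rw [subset_empty_iff.symm, ← h6]
    refine h2 _ _ _ ?_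
    have : ω ^ w < ω ^ (w + 1) :=
      (opow_lt_opow_iff_right one_lt_omega0).2 (Order.lt_add_one_iff.2 le_rfl)
    exact Order.add_one_le_of_lt this
  have h8' := ex_le_of_EX h7
  rw [hyC.2 O hO hyO, WithTop.coe_le_coe] at h8'
  exact h8'

private theorem fix_FT3 {X : Type} {τ : TopologicalSpace X} {d : Set X → Set X}
    {P Q : Set (Set X)} (h : Sit τ d P Q) {N : Ordinal.{0}} {B : Set X} (hB : B ∈ P)
    (hN : ∀ O ∈ Q, ∀ v : Ordinal.{0}, ex d (B ∩ O) = v → v ≤ N) :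
    iter d B (ω ^ N) ⊆ d (iter d B (ω ^ N)) := by
  obtain ⟨h0, h1, h2, h3, -, h5, -, -, h8, -⟩ := hIT X d h.der.mono h.der.le
  -- the kernel
  have key : ∀ y ∈ iter d B (ω ^ N), ∀ α : Ordinal.{0}, y ∈ iter d B α := by
    intro y hy α
    by_contra hcon
    have hcl : IsClosed[τ] (iter d B α) := (hIL X τ d h.der α).closed B (h.cl B hB)
    obtain ⟨O, hO, hyO, hOd⟩ := h.basis y (iter d B α)ᶜ (by letI := τ; exact hcl.isOpen_compl) hcon
    have h6 : iter d (B ∩ O) α = ∅ := by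
      rw [iter_loc_FT3 h hO, subset_empty_iff.symm]
      rintro z ⟨hz, hzO⟩
      exact hOd hzO hz
    have h7 : iter d (B ∩ O) (ω ^ α) = ∅ := by
      rw [subset_empty_iff.symm, ← h6]
      exact h2 _ _ _ (right_le_opow _ one_lt_omega0)
    have h9 := ex_le_of_EX h7
    obtain ⟨v, hv⟩ := WithTop.ne_top_iff_exists.1 (ne_top_of_le_ne_top WithTop.coe_ne_top h9)
    have h10 : v ≤ N := hN O hO v hv.symm
    have h11 : iter d (B ∩ O) (ω ^ N) = ∅ := by
      refine iter_of_ex_EX ?_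
      rw [← hv, WithTop.coe_le_coe]
      exact h10
    rw [iter_loc_FT3 h hO] at h11
    have : y ∈ iter d B (ω ^ N) ∩ O := ⟨hy, hyO⟩
    rw [h11] at this
    exact this
  intro y hy
  have h6 := key y hy (ω ^ N + 1)
  rwa [h1] at h6

theorem hFT3 : StFT3 := by
  intro X S _ n τ g P hs m hm hfin
  set E := {v | ∃ (L : ℕ → TT S m) (B : Set X), B ∈ P (m + 1) ∧ v = ex (dL τ g m L) B} with hE
  have sit : ∀ L : ℕ → TT S m, Sit (τ (m + 1)) (dL τ g m L) (P (m + 1)) (P (m + 1 + 1)) := fun L =>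
    { der := (hZM X S τ g hs.tow hs.fib m).2.2 L
      cl := fun B hB => hs.cl (m + 1) hm B hB
      clp := fun O hO => ⟨hs.cl (m + 1) hm O (hs.anti _ hO), hs.op (m + 1) hm O hO⟩
      basis := fun x U hU hx => hs.basis (m + 1) hm x U hU hx
      inter := fun B hB O hO => hs.inter (m + 1) B hB O (hs.anti _ hO) }
  -- a bound for the finite elements
  obtain ⟨N, hN⟩ : ∃ N : ℕ, ∀ v : Ordinal.{0}, (v : WithTop Ordinal.{0}) ∈ E → v < ω → v ≤ N := by
    have hf : {k : ℕ | (((k : Ordinal.{0}) : WithTop Ordinal.{0})) ∈ E}.Finite := by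
      refine hfin.preimage ?_
      intro a _ b _ hab
      simpa using hab
    obtain ⟨N, hN⟩ := hf.bddAbove
    refine ⟨N, fun v hv hvw => ?_⟩
    obtain ⟨k, rfl⟩ := lt_omega0.1 hvw
    exact_mod_cast hN hv
  have hall : ∀ v : Ordinal.{0}, (v : WithTop Ordinal.{0}) ∈ E → v ≤ N := by
    intro v
    induction v using WellFoundedLT.induction with
    | ind v ih =>
      intro hv
      rcases lt_or_ge v ω with h1 | h1
      · exact hN v hv h1
      · exfalso
        obtain ⟨L, Y, hY, hvY⟩ := hv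
        have hlt : (N : Ordinal.{0}) < v := (nat_lt_omega0 N).trans_le h1
        have h2 : v ≤ (N : Ordinal.{0}) + 1 := by
          refine gap_FT3 (sit L) hY hvY.symm hlt fun O hO hlt2 => ?_
          obtain ⟨u, hu⟩ := WithTop.ne_top_iff_exists.1 (ne_top_of_lt hlt2)
          rw [← hu, WithTop.coe_lt_coe] at hlt2
          rw [← hu, WithTop.coe_le_coe]
          exact ih u hlt2 ⟨L, Y ∩ O, (sit L).inter Y hY O hO, hu⟩
        have h3 : (N : Ordinal.{0}) + 1 < ω := by exact_mod_cast nat_lt_omega0 (N + 1)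
        exact absurd (h1.trans h2) (not_le.2 h3)
  refine ⟨N, fun L B hB => fix_FT3 (sit L) hB fun O hO v hv => hall v ⟨L, B ∩ O, (sit L).inter B hB O hO, hv.symm⟩⟩

end Pool.Agent.Helper24.WH
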