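import Pool.Agent.Helper24.WH.St4
import Pool.Agent.Helper24.WH.M_IT

/-!
# WH, module FT4: summary of part 4
-/

set_option autoImplicit false

namespace Pool.Agent.Helper24.WH

open Set TopologicalSpace Topology
open Ordinal hiding univ

private theorem hom_mono_FT4 {X S : Type} (τ : ℕ → TopologicalSpace X) (g : X → S) (m : ℕ) (U : TT S m)
    (A B : Set X) (h : A ⊆ B) : hom τ g m U A ⊆ hom τ g m U B := by
  rintro x ⟨W, ⟨hW1, hW2⟩, hx⟩
  exact ⟨W, ⟨hW1.trans h, hW2⟩, hx⟩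

private theorem hom_le_FT4 {X S : Type} (τ : ℕ → TopologicalSpace X) (g : X → S) (m : ℕ) (U : TT S m)
    (B : Set X) : hom τ g m U B ⊆ B := by
  rintro x ⟨W, ⟨hW1, _⟩, hx⟩
  exact hW1 hx

private theorem dL_mono_FT4 {X S : Type} (τ : ℕ → TopologicalSpace X) (g : X → S) (m : ℕ) (L : ℕ → TT S m)
    (A B : Set X) (h : A ⊆ B) : dL τ g m L A ⊆ dL τ g m L B := by
  intro x hx
  unfold dL at hx ⊢
  rw [mem_iInter] at hx ⊢
  exact fun i => hom_mono_FT4 τ g m (L i) A B h (hx i)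

private theorem dL_le_FT4 {X S : Type} (τ : ℕ → TopologicalSpace X) (g : X → S) (m : ℕ) (L : ℕ → TT S m)
    (B : Set X) : dL τ g m L B ⊆ B := by
  intro x hx
  unfold dL at hx
  rw [mem_iInter] at hx
  exact hom_le_FT4 τ g m (L 0) B (hx 0)

/-- a fixed iterate stays fixed -/
private theorem fix_FT4 {X : Type} (d : Set X → Set X) (hm : ∀ A B, A ⊆ B → d A ⊆ d B)
    (hl : ∀ B, d B ⊆ B) (B : Set X) (α β : Ordinal.{0}) (hαβ : α ≤ β)
    (h : iter d B α ⊆ d (iter d B α)) : iter d B β ⊆ d (iter d B β) := by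
  obtain ⟨_, _, h3, _, _, h6, _, _, h9, _⟩ := hIT X d hm hl
  have h1 : iter d B α ⊆ iter d B β := h9 B (iter d B α) β (h6 B α) h
  have h2 : iter d B β ⊆ iter d B α := h3 B α β hαβ
  exact (h2.trans h).trans (hm _ _ h1)

theorem hFT4 (hRS : StRS) (hFT2 : StFT2) (hFT3 : StFT3) (hNT : StNT) (hPI : StPI) : StFT4 := by
  intro A S _ _ _ n g Ga hyp
  obtain ⟨i₀, hsys, htop, hstab⟩ := hRS A S n g Ga hyp
  have hN : ∀ m : ℕ, ∃ N : ℕ, m + 1 ≤ n → ∀ (L : ℕ → TT S m), ∀ B ∈ PP n g (m + 1),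
      iter (dL (fT n g i₀) g m L) B (ω ^ (N : Ordinal.{0})) ⊆
        dL (fT n g i₀) g m L (iter (dL (fT n g i₀) g m L) B (ω ^ (N : Ordinal.{0}))) := by
    intro m
    by_cases hm : m + 1 ≤ n
    · obtain ⟨N, hN⟩ := hFT3 (Tre A) S n (fT n g i₀) g (PP n g) hsys m hm
        (hFT2 A S n g Ga hyp i₀ hstab m hm)
      exact ⟨N, fun _ => hN⟩
    · exact ⟨0, fun h => absurd h hm⟩
  choose Nf hNf using hN
  refine ⟨fT n g i₀, PP n g, 1 + (Finset.range n).sup Nf, hsys, ?_, by omega, ?_, ?_⟩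
  · intro m hm L B hB
    have h1 : Nf m ≤ 1 + (Finset.range n).sup Nf := by
      have := Finset.le_sup (f := Nf) (Finset.mem_range.2 (by omega : m < n))
      omega
    have h2 : (ω : Ordinal.{0}) ^ ((Nf m : ℕ) : Ordinal.{0}) ≤
        ω ^ ((1 + (Finset.range n).sup Nf : ℕ) : Ordinal.{0}) :=
      Ordinal.opow_le_opow_right Ordinal.omega0_pos (by exact_mod_cast h1)
    exact fix_FT4 (dL (fT n g i₀) g m L) (dL_mono_FT4 _ _ _ _) (dL_le_FT4 _ _ _ _) B _ _ h2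
      (hNf m hm L B hB)
  · obtain ⟨_, _, _, _, _, _, _, h8, _⟩ := hNT A
    rw [htop, h8]
  · intro M u a
    obtain ⟨_, _, _, _, _, _, h7⟩ := hPI A S n g Ga hyp M
    cases M with
    | zero =>
      refine ⟨fun _ => {t | t u = a}, fun _ => h7 u a, ?_⟩
      ext t
      rw [mem_iUnion]
      constructor
      · intro ht
        exact ⟨g t, ht, rfl⟩
      · rintro ⟨s, ht, _⟩
        exact ht
    | succ M => exact h7 u a

end Pool.Agent.Helper24.WH
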