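import Pool.Agent.Helper24.WH.St2

/-!
# PROJECT WH, module GE: the gap embedding is reflexive and transitive
-/

set_option autoImplicit false

namespace Pool.Agent.Helper24.WH

universe u v

section GE

variable {L : Type u} {A : Type v} {rl : L → L → Prop} {ra : A → A → Prop} {ht : L → ℕ}

private theorem findA_mono_GE {a b : A} (htr : ∀ a b c, ra a b → ra b c → ra a c) (hab : ra a b) :
    ∀ K : Fo L A, Fo.FindA ra b K → Fo.FindA ra a K
  | .nil, h => h
  | .leaf a' rest, h => by
      rcases h with h | h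
      · exact Or.inl (htr _ _ _ hab h)
      · exact Or.inr (findA_mono_GE htr hab rest h)
  | .cons _ kids rest, h => by
      rcases h with h | h
      · exact Or.inl (findA_mono_GE htr hab kids h)
      · exact Or.inr (findA_mono_GE htr hab rest h)

private theorem findA_of_findT_GE {a : A} {l : L} {P : Fo L A → Prop}
    (hP : ∀ K, P K → Fo.FindA ra a K) :
    ∀ K : Fo L A, Fo.FindT rl ht l P K → Fo.FindA ra a K
  | .nil, h => h.elim
  | .leaf _ rest, h => Or.inr (findA_of_findT_GE hP rest h)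
  | .cons _ kids rest, h => by
      rcases h with h | h | h
      · exact Or.inl (hP _ h.2)
      · exact Or.inl (findA_of_findT_GE hP kids h.2)
      · exact Or.inr (findA_of_findT_GE hP rest h)

private theorem findA_emb_GE {a : A} (htr : ∀ a b c, ra a b → ra b c → ra a c) :
    ∀ N K : Fo L A, Fo.FindA ra a N → Fo.Emb rl ra ht N K → Fo.FindA ra a K
  | .nil, _, h, _ => h.elim
  | .leaf _ rest, K, h, he => by
      rcases h with h | h
      · exact findA_mono_GE htr h K he.1
      · exact findA_emb_GE htr rest K h he.2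
  | .cons _ kids rest, K, h, he => by
      rcases h with h | h
      · exact findA_of_findT_GE (fun K' hK' => findA_emb_GE htr kids K' h hK') K he.1
      · exact findA_emb_GE htr rest K h he.2

private theorem findT_mono_GE {l l' : L} {P Q : Fo L A → Prop}
    (htr : ∀ a b c, rl a b → rl b c → rl a c) (hht : ∀ a b, rl a b → ht a = ht b)
    (hll : rl l l') (hPQ : ∀ K, Q K → P K) :
    ∀ K : Fo L A, Fo.FindT rl ht l' Q K → Fo.FindT rl ht l P K
  | .nil, h => h.elim
  | .leaf _ rest, h => findT_mono_GE htr hht hll hPQ rest h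
  | .cons _ kids rest, h => by
      rcases h with h | h | h
      · exact Or.inl ⟨htr _ _ _ hll h.1, hPQ _ h.2⟩
      · refine Or.inr (Or.inl ⟨?_, findT_mono_GE htr hht hll hPQ kids h.2⟩)
        rw [hht _ _ hll]
        exact h.1
      · exact Or.inr (Or.inr (findT_mono_GE htr hht hll hPQ rest h))

private theorem findT_skip_GE {l l' : L} {P Q : Fo L A → Prop}
    (hht : ∀ a b, rl a b → ht a = ht b) (hle : ht l' ≤ ht l)
    (hPQ : ∀ K, Q K → Fo.FindT rl ht l P K) :
    ∀ K : Fo L A, Fo.FindT rl ht l' Q K → Fo.FindT rl ht l P K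
  | .nil, h => h.elim
  | .leaf _ rest, h => findT_skip_GE hht hle hPQ rest h
  | .cons _ kids rest, h => by
      rcases h with h | h | h
      · refine Or.inr (Or.inl ⟨?_, hPQ _ h.2⟩)
        rw [← hht _ _ h.1]
        exact hle
      · exact Or.inr (Or.inl ⟨le_trans h.1 hle, findT_skip_GE hht hle hPQ kids h.2⟩)
      · exact Or.inr (Or.inr (findT_skip_GE hht hle hPQ rest h))

private theorem findT_emb_GE {l : L} {P : Fo L A → Prop}
    (htr : ∀ a b c, rl a b → rl b c → rl a c) (hht : ∀ a b, rl a b → ht a = ht b)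
    (hP : ∀ N K, P N → Fo.Emb rl ra ht N K → P K) :
    ∀ N K : Fo L A, Fo.FindT rl ht l P N → Fo.Emb rl ra ht N K → Fo.FindT rl ht l P K
  | .nil, _, h, _ => h.elim
  | .leaf _ rest, K, h, he => findT_emb_GE htr hht hP rest K h he.2
  | .cons _ kids rest, K, h, he => by
      rcases h with h | h | h
      · exact findT_mono_GE htr hht h.1 (fun K' hK' => hP _ _ h.2 hK') K he.1
      · exact findT_skip_GE hht h.1
          (fun K' hK' => findT_emb_GE htr hht hP kids K' h.2 hK') K he.1
      · exact findT_emb_GE htr hht hP rest K h he.2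

private theorem emb_trans_GE (htl : ∀ a b c, rl a b → rl b c → rl a c)
    (hta : ∀ a b c, ra a b → ra b c → ra a c) (hht : ∀ a b, rl a b → ht a = ht b) :
    ∀ M N K : Fo L A, Fo.Emb rl ra ht M N → Fo.Emb rl ra ht N K → Fo.Emb rl ra ht M K
  | .nil, _, _, _, _ => trivial
  | .leaf _ rest, N, K, h, he =>
      ⟨findA_emb_GE hta N K h.1 he, emb_trans_GE htl hta hht rest N K h.2 he⟩
  | .cons _ kids rest, N, K, h, he =>
      ⟨findT_emb_GE htl hht (fun N' K' h1 h2 => emb_trans_GE htl hta hht kids N' K' h1 h2) N K h.1 he,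
        emb_trans_GE htl hta hht rest N K h.2 he⟩

private theorem emb_leaf_GE (a : A) (N : Fo L A) :
    ∀ M : Fo L A, Fo.Emb rl ra ht M N → Fo.Emb rl ra ht M (.leaf a N)
  | .nil, _ => trivial
  | .leaf _ rest, h => ⟨Or.inr h.1, emb_leaf_GE a N rest h.2⟩
  | .cons _ _ rest, h => ⟨h.1, emb_leaf_GE a N rest h.2⟩

private theorem emb_cons_GE (l : L) (k N : Fo L A) :
    ∀ M : Fo L A, Fo.Emb rl ra ht M N → Fo.Emb rl ra ht M (.cons l k N)
  | .nil, _ => trivial
  | .leaf _ rest, h => ⟨Or.inr h.1, emb_cons_GE l k N rest h.2⟩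
  | .cons _ _ rest, h => ⟨Or.inr (Or.inr h.1), emb_cons_GE l k N rest h.2⟩

private theorem emb_refl_GE (hrl : ∀ a, rl a a) (hra : ∀ a, ra a a) :
    ∀ N : Fo L A, Fo.Emb rl ra ht N N
  | .nil => trivial
  | .leaf a rest => ⟨Or.inl (hra a), emb_leaf_GE a rest rest (emb_refl_GE hrl hra rest)⟩
  | .cons l kids rest =>
      ⟨Or.inl ⟨hrl l, emb_refl_GE hrl hra kids⟩,
        emb_cons_GE l kids rest rest (emb_refl_GE hrl hra rest)⟩

end GE

theorem hGE : StGE.{u, v} := by
  intro L A rl ra ht hrl htl hra hta hht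
  exact ⟨emb_refl_GE hrl hra, fun N₁ N₂ N₃ h1 h2 => emb_trans_GE htl hta hht N₁ N₂ N₃ h1 h2⟩

end Pool.Agent.Helper24.WH
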