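import Pool.Agent.Helper24.WH.St1

/-!
Project WH, module GP: the Galvin-Prikry theorem (Borel partitions of the infinite subsets of `ℕ`).
-/

set_option autoImplicit false

namespace Pool.Agent.Helper24.WH

open Set

/-- the elements of `B` above the stem `s` -/
private def Abv_GP (s : Finset ℕ) (B : Set ℕ) : Set ℕ := {x | x ∈ B ∧ ∀ y ∈ s, y < x}

private theorem abv_inf_GP (s : Finset ℕ) {B : Set ℕ} (hB : B.Infinite) : (Abv_GP s B).Infinite := by
  have h1 : (B \ ((Finset.range (s.sup id + 1) : Finset ℕ) : Set ℕ)).Infinite :=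
    hB.diff (Finset.finite_toSet _)
  refine h1.mono ?_
  rintro x ⟨hx, hx2⟩
  refine ⟨hx, fun y hy => ?_⟩
  rw [Finset.mem_coe, Finset.mem_range, not_lt] at hx2
  have h2 : y ≤ s.sup id := Finset.le_sup (f := id) hy
  omega

private theorem multi_GP (D : Finset ℕ → Set ℕ → Prop)
    (her : ∀ s B B', B' ⊆ B → D s B → D s B')
    (den : ∀ s A, A.Infinite → ∃ B ⊆ A, B.Infinite ∧ D s B) (S : Finset (Finset ℕ)) :
    ∀ A : Set ℕ, A.Infinite → ∃ B ⊆ A, B.Infinite ∧ ∀ s ∈ S, D s B := by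
  classical
  induction S using Finset.induction_on with
  | empty => intro A hA; exact ⟨A, Subset.rfl, hA, by simp⟩
  | insert t S ht ih =>
      intro A hA
      obtain ⟨B, hBA, hB, hBD⟩ := ih A hA
      obtain ⟨C, hCB, hC, hCD⟩ := den t B hB
      refine ⟨C, hCB.trans hBA, hC, fun s hs => ?_⟩
      rcases Finset.mem_insert.1 hs with rfl | hs
      · exact hCD
      · exact her s B C hCB (hBD s hs)

/-- fusion -/
private theorem fusion_GP (D : Finset ℕ → Set ℕ → Prop)
    (her : ∀ s B B', B' ⊆ B → D s B → D s B')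
    (den : ∀ s A, A.Infinite → ∃ B ⊆ A, B.Infinite ∧ D s B)
    (abv : ∀ s B, D s (Abv_GP s B) → D s B) (A : Set ℕ) (hA : A.Infinite) :
    ∃ B ⊆ A, B.Infinite ∧ ∀ s : Finset ℕ, (s : Set ℕ) ⊆ B → D s B := by
  classical
  let St := {p : Finset ℕ × Set ℕ // p.2.Infinite ∧ ∀ s ⊆ p.1, D s p.2}
  have hstep : ∀ p : St, ∃ q : St, q.1.1 = insert (sInf p.1.2) p.1.1 ∧
      q.1.2 ⊆ {x | x ∈ p.1.2 ∧ sInf p.1.2 < x} := by
    intro p
    have h1 : ({x | x ∈ p.1.2 ∧ sInf p.1.2 < x} : Set ℕ).Infinite := by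
      refine (abv_inf_GP {sInf p.1.2} p.2.1).mono ?_
      rintro x ⟨hx, hx2⟩
      exact ⟨hx, hx2 _ (Finset.mem_singleton_self _)⟩
    obtain ⟨B, hB1, hB2, hB3⟩ := multi_GP D her den (insert (sInf p.1.2) p.1.1).powerset _ h1
    exact ⟨⟨(insert (sInf p.1.2) p.1.1, B), hB2, fun s hs => hB3 s (Finset.mem_powerset.2 hs)⟩, rfl, hB1⟩
  choose f hf1 hf2 using hstep
  obtain ⟨A0, hA0A, hA0, hA0D⟩ := den ∅ A hA
  let p0 : St := ⟨(∅, A0), hA0, fun s hs => by
    have : s = ∅ := Finset.subset_empty.1 hs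
    rw [this]; exact hA0D⟩
  let st : ℕ → St := fun i => Nat.rec p0 (fun _ p => f p) i
  have st0 : st 0 = p0 := rfl
  have stS : ∀ i, st (i + 1) = f (st i) := fun i => rfl
  set n : ℕ → ℕ := fun i => sInf (st i).1.2 with hn
  have hnmem : ∀ i, n i ∈ (st i).1.2 := fun i => Nat.sInf_mem (st i).2.1.nonempty
  have hsub : ∀ i, (st (i + 1)).1.2 ⊆ {x | x ∈ (st i).1.2 ∧ n i < x} := by
    intro i
    rw [stS]
    exact hf2 (st i)
  have hanti : ∀ i j, i ≤ j → (st j).1.2 ⊆ (st i).1.2 := by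
    intro i j hij
    induction j, hij using Nat.le_induction with
    | base => exact Subset.rfl
    | succ j _ ih => exact fun x hx => ih ((hsub j hx).1)
  have hmono : StrictMono n := strictMono_nat_of_lt_succ fun i => (hsub i (hnmem (i + 1))).2
  have hF : ∀ i, (st i).1.1 = (Finset.range i).image n := by
    intro i
    induction i with
    | zero => simp [st0, p0]
    | succ i ih =>
        rw [stS, hf1, ih, Finset.range_add_one, Finset.image_insert]
  have hB0 : range n ⊆ A0 := by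
    rintro _ ⟨i, rfl⟩
    exact hanti 0 i (Nat.zero_le _) (hnmem i)
  refine ⟨range n, hB0.trans hA0A, infinite_range_of_injective hmono.injective, fun s hs => ?_⟩
  rcases s.eq_empty_or_nonempty with rfl | hne
  · exact her _ _ _ hB0 hA0D
  · obtain ⟨i, hi⟩ := hs (s.max'_mem hne)
    refine abv s _ (her s (st (i + 1)).1.2 _ ?_ ((st (i + 1)).2.2 s ?_))
    · rintro x ⟨⟨j, rfl⟩, hx⟩
      have h1 : n i < n j := by
        rw [hi]
        exact hx _ (s.max'_mem hne)
      have h2 : i < j := hmono.lt_iff_lt.1 h1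
      exact hanti (i + 1) j h2 (hnmem j)
    · intro y hy
      obtain ⟨j, hj⟩ := hs hy
      have h1 : n j ≤ n i := by
        rw [hi, hj]
        exact s.le_max' y hy
      have h2 : j ≤ i := hmono.le_iff_le.1 h1
      have h3 : y ∈ (Finset.range (i + 1)).image n :=
        Finset.mem_image.2 ⟨j, Finset.mem_range.2 (by omega), hj⟩
      rw [← hF (i + 1)] at h3
      exact h3

/-- open sets are Ramsey (Nash-Williams) -/
private theorem nw_GP (P : Set (Set ℕ)) (A : Set ℕ) (hA : A.Infinite)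
    (hop : ∀ X ⊆ A, X.Infinite → X ∈ P → ∃ m : ℕ, ∀ X' ⊆ A, X'.Infinite →
      (∀ i < m, (i ∈ X' ↔ i ∈ X)) → X' ∈ P) :
    ∃ B ⊆ A, B.Infinite ∧ ((∀ X ⊆ B, X.Infinite → X ∈ P) ∨ ∀ X ⊆ B, X.Infinite → X ∉ P) := by
  classical
  set acc : Finset ℕ → Set ℕ → Prop := fun s B =>
    ∀ X ⊆ B, X.Infinite → (∀ x ∈ X, ∀ y ∈ s, y < x) → (s : Set ℕ) ∪ X ∈ P with hacc
  have acc_her : ∀ s B B', B' ⊆ B → acc s B → acc s B' :=
    fun s B B' h h1 X hX => h1 X (hX.trans h)
  obtain ⟨B, hBA, hB, hBD⟩ := fusion_GP (fun s B => acc s B ∨ ∀ C ⊆ B, C.Infinite → ¬ acc s C)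
    (by
      rintro s B B' h (h1 | h1)
      · exact Or.inl (acc_her s B B' h h1)
      · exact Or.inr fun C hC => h1 C (hC.trans h))
    (by
      intro s A hA
      by_cases h : ∃ C ⊆ A, C.Infinite ∧ acc s C
      · obtain ⟨C, hC1, hC2, hC3⟩ := h
        exact ⟨C, hC1, hC2, Or.inl hC3⟩
      · refine ⟨A, Subset.rfl, hA, Or.inr fun C hC1 hC2 hC3 => h ⟨C, hC1, hC2, hC3⟩⟩)
    (by
      rintro s B (h1 | h1)
      · left
        intro X hX hX2 hX3
        exact h1 X (fun x hx => ⟨hX hx, hX3 x hx⟩) hX2 hX3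
      · right
        intro C hC1 hC2 hC3
        refine h1 (Abv_GP s C) (fun x hx => ⟨hC1 hx.1, hx.2⟩) (abv_inf_GP s hC2)
          (acc_her s C _ (fun x hx => hx.1) hC3))
    A hA
  by_cases h0 : acc ∅ B
  · refine ⟨B, hBA, hB, Or.inl fun X hX hX2 => ?_⟩
    have := h0 X hX hX2 (by simp)
    simpa using this
  set rej : Finset ℕ → Prop := fun s => ∀ C ⊆ B, C.Infinite → ¬ acc s C with hrej
  have hrej0 : rej ∅ := by
    rcases hBD ∅ (by simp) with h | h
    · exact absurd h h0
    · exact h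
  obtain ⟨C, hCB, hC, hCD⟩ := fusion_GP (fun s C => (s : Set ℕ) ⊆ B → rej s →
      ∀ n ∈ C, n ∈ B → (∀ y ∈ s, y < n) → rej (insert n s))
    (by
      intro s B1 B2 h h1 h2 h3 n hn
      exact h1 h2 h3 n (h hn))
    (by
      intro s A' hA'
      by_cases hs : (s : Set ℕ) ⊆ B ∧ rej s
      · obtain ⟨hsB, hsr⟩ := hs
        set E : Set ℕ := {n | n ∈ B ∧ (∀ y ∈ s, y < n) ∧ ¬ rej (insert n s)} with hE
        have hEfin : E.Finite := by
          by_contra hEinf
          refine hsr E (fun x hx => hx.1) hEinf ?_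
          intro X hX hX2 hX3
          have hm := Nat.sInf_mem hX2.nonempty
          set m := sInf X with hmdef
          have hmE := hX hm
          have hins : ((insert m s : Finset ℕ) : Set ℕ) ⊆ B := by
            intro x hx
            rcases Finset.mem_insert.1 (Finset.mem_coe.1 hx) with rfl | hx
            · exact hmE.1
            · exact hsB hx
          have hac : acc (insert m s) B := by
            rcases hBD _ hins with h | h
            · exact h
            · exact absurd h hmE.2.2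
          have h1 := hac (X \ {m}) (fun x hx => (hX hx.1).1) (hX2.diff (finite_singleton m)) (by
            rintro x ⟨hx1, hx2⟩ y hy
            rcases Finset.mem_insert.1 hy with rfl | hy
            · exact lt_of_le_of_ne (Nat.sInf_le hx1) (fun h => hx2 h.symm)
            · exact hX3 x hx1 y hy)
          have h2 : ((insert m s : Finset ℕ) : Set ℕ) ∪ (X \ {m}) = (s : Set ℕ) ∪ X := by
            ext x
            simp only [Finset.coe_insert, mem_union, mem_insert_iff, Finset.mem_coe, mem_diff,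
              mem_singleton_iff]
            constructor
            · rintro ((rfl | h) | ⟨h, _⟩)
              · exact Or.inr hm
              · exact Or.inl h
              · exact Or.inr h
            · rintro (h | h)
              · exact Or.inl (Or.inr h)
              · by_cases hxm : x = m
                · exact Or.inl (Or.inl hxm)
                · exact Or.inr ⟨h, hxm⟩
          rw [h2] at h1
          exact h1
        refine ⟨A' \ E, diff_subset, hA'.diff hEfin, ?_⟩
        intro _ _ n hn hnB hns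
        by_contra hcon
        exact hn.2 ⟨hnB, hns, hcon⟩
      · exact ⟨A', Subset.rfl, hA', fun h1 h2 => absurd ⟨h1, h2⟩ hs⟩)
    (by
      intro s B1 h h2 h3 n hn hnB hns
      exact h h2 h3 n ⟨hn, hns⟩ hnB hns)
    B hB
  have hall : ∀ s : Finset ℕ, (s : Set ℕ) ⊆ C → rej s := by
    intro s
    induction s using Finset.induction_on_max with
    | empty => intro _; exact hrej0
    | insert a s hs ih =>
        intro hsC
        have h1 : (s : Set ℕ) ⊆ C := fun x hx => hsC (Finset.mem_coe.2 (Finset.mem_insert_of_mem hx))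
        have h2 : a ∈ C := hsC (Finset.mem_coe.2 (Finset.mem_insert_self a s))
        exact hCD s h1 (h1.trans hCB) (ih h1) a h2 (hCB h2) hs
  refine ⟨C, hCB.trans hBA, hC, Or.inr fun X hX hX2 hXP => ?_⟩
  obtain ⟨m, hm⟩ := hop X (hX.trans (hCB.trans hBA)) hX2 hXP
  obtain ⟨x, hxX, hmx⟩ := hX2.exists_gt m
  set s : Finset ℕ := (Finset.range (x + 1)).filter fun i => i ∈ X with hs
  have hmems : ∀ i, i ∈ s ↔ i < x + 1 ∧ i ∈ X := by
    intro i
    rw [hs, Finset.mem_filter, Finset.mem_range]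
  have hsC : (s : Set ℕ) ⊆ C := fun i hi => hX ((hmems i).1 (Finset.mem_coe.1 hi)).2
  refine hall s hsC B Subset.rfl hB ?_
  intro X' hX' hX'2 hX'3
  refine hm _ ?_ (hX'2.mono subset_union_right) ?_
  · intro i hi
    rcases hi with hi | hi
    · exact hBA (hCB (hsC hi))
    · exact hBA (hX' hi)
  · intro i hi
    constructor
    · rintro (h | h)
      · exact ((hmems i).1 (Finset.mem_coe.1 h)).2
      · have := hX'3 i h x ((hmems x).2 ⟨by omega, hxX⟩)
        omega
    · intro h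
      exact Or.inl (Finset.mem_coe.2 ((hmems i).2 ⟨by omega, h⟩))

/-- completely Ramsey sets -/
private def CR_GP (P : Set (Set ℕ)) : Prop :=
  ∀ (s : Finset ℕ) (A : Set ℕ), A.Infinite → ∃ B ⊆ A, B.Infinite ∧
    ((∀ X ⊆ B, X.Infinite → (s : Set ℕ) ∪ X ∈ P) ∨ ∀ X ⊆ B, X.Infinite → (s : Set ℕ) ∪ X ∉ P)

private theorem ram_iUnion_GP (P : ℕ → Set (Set ℕ)) (h : ∀ n, CR_GP (P n)) (A : Set ℕ) (hA : A.Infinite) :
    ∃ B ⊆ A, B.Infinite ∧ ((∀ X ⊆ B, X.Infinite → X ∈ ⋃ n, P n) ∨
      ∀ X ⊆ B, X.Infinite → X ∉ ⋃ n, P n) := by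
  classical
  obtain ⟨B, hBA, hB, hBD⟩ := fusion_GP (fun s B => ∀ n ≤ s.card,
      (∀ X ⊆ B, X.Infinite → (∀ x ∈ X, ∀ y ∈ s, y < x) → (s : Set ℕ) ∪ X ∈ P n) ∨
        ∀ X ⊆ B, X.Infinite → (∀ x ∈ X, ∀ y ∈ s, y < x) → (s : Set ℕ) ∪ X ∉ P n)
    (by
      intro s B B' h1 h2 n hn
      rcases h2 n hn with h3 | h3
      · exact Or.inl fun X hX => h3 X (hX.trans h1)
      · exact Or.inr fun X hX => h3 X (hX.trans h1))
    (by
      intro s A hA
      have key : ∀ N : ℕ, ∃ B ⊆ A, B.Infinite ∧ ∀ n < N,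
          (∀ X ⊆ B, X.Infinite → (s : Set ℕ) ∪ X ∈ P n) ∨
            ∀ X ⊆ B, X.Infinite → (s : Set ℕ) ∪ X ∉ P n := by
        intro N
        induction N with
        | zero => exact ⟨A, Subset.rfl, hA, fun n hn => absurd hn (Nat.not_lt_zero n)⟩
        | succ N ih =>
            obtain ⟨B, hBA, hB, hB2⟩ := ih
            obtain ⟨C, hCB, hC, hC2⟩ := h N s B hB
            refine ⟨C, hCB.trans hBA, hC, fun n hn => ?_⟩
            rcases Nat.lt_succ_iff_lt_or_eq.1 hn with hn | rfl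
            · rcases hB2 n hn with h3 | h3
              · exact Or.inl fun X hX => h3 X (hX.trans hCB)
              · exact Or.inr fun X hX => h3 X (hX.trans hCB)
            · exact hC2
      obtain ⟨B, hBA, hB, hB2⟩ := key (s.card + 1)
      refine ⟨B, hBA, hB, fun n hn => ?_⟩
      rcases hB2 n (by omega) with h3 | h3
      · exact Or.inl fun X hX hX2 _ => h3 X hX hX2
      · exact Or.inr fun X hX hX2 _ => h3 X hX hX2)
    (by
      intro s B h1 n hn
      rcases h1 n hn with h3 | h3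
      · exact Or.inl fun X hX hX2 hX3 => h3 X (fun x hx => ⟨hX hx, hX3 x hx⟩) hX2 hX3
      · exact Or.inr fun X hX hX2 hX3 => h3 X (fun x hx => ⟨hX hx, hX3 x hx⟩) hX2 hX3)
    A hA
  obtain ⟨C, hCB, hC, hC2⟩ := nw_GP (⋃ n, P n) B hB (by
    intro X hX hX2 hXP
    obtain ⟨n, hn⟩ := mem_iUnion.1 hXP
    obtain ⟨t, htX, htn⟩ := hX2.exists_subset_card_eq n
    obtain ⟨x, hxX, htx⟩ := hX2.exists_gt (t.sup id)
    set s : Finset ℕ := (Finset.range (x + 1)).filter fun i => i ∈ X with hs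
    have hmems : ∀ i, i ∈ s ↔ i < x + 1 ∧ i ∈ X := by
      intro i
      rw [hs, Finset.mem_filter, Finset.mem_range]
    have hts : t ⊆ s := by
      intro i hi
      have h1 : i ≤ t.sup id := Finset.le_sup (f := id) hi
      exact (hmems i).2 ⟨by omega, htX (Finset.mem_coe.2 hi)⟩
    have hcard : n ≤ s.card := by
      rw [← htn]
      exact Finset.card_le_card hts
    have hsB : (s : Set ℕ) ⊆ B := fun i hi => hX ((hmems i).1 (Finset.mem_coe.1 hi)).2
    have hsplit : ∀ X' : Set ℕ, (∀ i < x + 1, (i ∈ X' ↔ i ∈ X)) →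
        (s : Set ℕ) ∪ {i | i ∈ X' ∧ x < i} = X' := by
      intro X' hX'
      ext i
      constructor
      · rintro (h1 | h1)
        · have h2 := (hmems i).1 (Finset.mem_coe.1 h1)
          exact (hX' i h2.1).2 h2.2
        · exact h1.1
      · intro h1
        by_cases hi : x < i
        · exact Or.inr ⟨h1, hi⟩
        · exact Or.inl (Finset.mem_coe.2 ((hmems i).2 ⟨by omega, (hX' i (by omega)).1 h1⟩))
    have htail : ∀ X' : Set ℕ, X'.Infinite → ({i | i ∈ X' ∧ x < i} : Set ℕ).Infinite := by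
      intro X' hX'
      refine (abv_inf_GP {x} hX').mono ?_
      rintro i ⟨hi, hi2⟩
      exact ⟨hi, hi2 x (Finset.mem_singleton_self x)⟩
    have habv : ∀ X' : Set ℕ, ∀ i ∈ ({i | i ∈ X' ∧ x < i} : Set ℕ), ∀ y ∈ s, y < i := by
      intro X' i hi y hy
      have h1 := ((hmems y).1 hy).1
      have h2 : x < i := hi.2
      omega
    refine ⟨x + 1, fun X' hX' hX'2 hagree => mem_iUnion.2 ⟨n, ?_⟩⟩
    rcases hBD s hsB n hcard with h3 | h3
    · have := h3 {i | i ∈ X' ∧ x < i} (fun i hi => hX' hi.1) (htail X' hX'2) (habv X')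
      rwa [hsplit X' hagree] at this
    · exfalso
      have := h3 {i | i ∈ X ∧ x < i} (fun i hi => hX hi.1) (htail X hX2) (habv X)
      rw [hsplit X (fun i _ => Iff.rfl)] at this
      exact this hn)
  exact ⟨C, hCB.trans hBA, hC, hC2⟩

private theorem CR_iUnion_GP (P : ℕ → Set (Set ℕ)) (h : ∀ n, CR_GP (P n)) : CR_GP (⋃ n, P n) := by
  classical
  intro s A hA
  obtain ⟨B, hBA, hB, hB2⟩ := ram_iUnion_GP (fun n => {X | (s : Set ℕ) ∪ X ∈ P n}) (by
    intro n t A hA
    obtain ⟨B, hBA, hB, hB2⟩ := h n (s ∪ t) A hA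
    refine ⟨B, hBA, hB, ?_⟩
    have he : ∀ X : Set ℕ, (s : Set ℕ) ∪ ((t : Set ℕ) ∪ X) = ((s ∪ t : Finset ℕ) : Set ℕ) ∪ X := by
      intro X
      rw [Finset.coe_union, union_assoc]
    rcases hB2 with h3 | h3
    · left
      intro X hX hX2
      rw [mem_setOf_eq, he]
      exact h3 X hX hX2
    · right
      intro X hX hX2
      rw [mem_setOf_eq, he]
      exact h3 X hX hX2) A hA
  refine ⟨B, hBA, hB, ?_⟩
  rcases hB2 with h3 | h3
  · left
    intro X hX hX2
    obtain ⟨n, hn⟩ := mem_iUnion.1 (h3 X hX hX2)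
    exact mem_iUnion.2 ⟨n, hn⟩
  · right
    intro X hX hX2 hcon
    obtain ⟨n, hn⟩ := mem_iUnion.1 hcon
    exact h3 X hX hX2 (mem_iUnion.2 ⟨n, hn⟩)

/-- the set of ranges -/
private def rg_GP (P : Set Inc) : Set (Set ℕ) := {A | ∃ f ∈ P, range f.1 = A}

/-- enumeration of an infinite set -/
private noncomputable def en_GP (A : Set ℕ) (hA : A.Infinite) : Inc :=
  ⟨Nat.nth (· ∈ A), Nat.nth_strictMono hA⟩

private theorem range_en_GP (A : Set ℕ) (hA : A.Infinite) : range (en_GP A hA).1 = A :=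
  Nat.range_nth_of_infinite hA

private theorem agree_GP (f g : Inc) (n : ℕ) (h : ∀ i < f.1 n, (i ∈ range g.1 ↔ i ∈ range f.1)) :
    ∀ i < n, g.1 i = f.1 i := by
  intro i
  induction i using Nat.strong_induction_on with
  | _ i ih =>
      intro hi
      have h1 : f.1 i < f.1 n := f.2 hi
      obtain ⟨j, hj⟩ := (h _ h1).2 ⟨i, rfl⟩
      have h2 : i ≤ j := by
        by_contra hcon
        push Not at hcon
        have h3 := ih j hcon (by omega)
        have h4 := f.2 hcon
        omega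
      have h5 : g.1 i ≤ f.1 i := by
        rw [← hj]
        exact g.2.monotone h2
      obtain ⟨l, hl⟩ := (h _ (lt_of_le_of_lt h5 h1)).1 ⟨i, rfl⟩
      have h6 : i ≤ l := by
        by_contra hcon
        push Not at hcon
        have h3 := ih l hcon (by omega)
        have h4 := g.2 hcon
        omega
      have h7 : f.1 i ≤ g.1 i := by
        rw [← hl]
        exact f.2.monotone h6
      exact le_antisymm h5 h7

private theorem range_inj_GP {f g : Inc} (h : range f.1 = range g.1) : f = g := by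
  apply Subtype.ext
  funext i
  exact agree_GP g f (i + 1) (fun j _ => by rw [h]) i (Nat.lt_succ_self i)

private theorem CR_open_GP (P : Set Inc) (hP : IsOpen P) : CR_GP (rg_GP P) := by
  intro s A hA
  refine nw_GP {X | (s : Set ℕ) ∪ X ∈ rg_GP P} A hA ?_
  intro X _ _ hXP
  obtain ⟨f, hfP, hf⟩ := hXP
  obtain ⟨O, hO, hOP⟩ := isOpen_induced_iff.1 hP
  have hmemO : ∀ g : Inc, g.1 ∈ O ↔ g ∈ P := fun g => Set.ext_iff.1 hOP g
  have hfO : f.1 ∈ O := (hmemO f).2 hfP
  obtain ⟨I, u, hu, hIu⟩ := isOpen_pi_iff.1 hO f.1 hfO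
  refine ⟨f.1 (I.sup id + 1), fun X' _ hX'2 hagree => ?_⟩
  have hinf : ((s : Set ℕ) ∪ X').Infinite := hX'2.mono subset_union_right
  refine ⟨en_GP _ hinf, ?_, range_en_GP _ hinf⟩
  have hag := agree_GP f (en_GP _ hinf) (I.sup id + 1) (by
    intro i hi
    rw [range_en_GP, hf]
    simp only [mem_union]
    rw [hagree i hi])
  have : (en_GP _ hinf).1 ∈ O := by
    apply hIu
    intro i hi
    have h1 : i ≤ I.sup id := Finset.le_sup (f := id) (Finset.mem_coe.1 hi)
    have h2 := hag i (by omega)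
    rw [h2]
    exact (hu i (Finset.mem_coe.1 hi)).2
  exact (hmemO _).1 this

private theorem CR_congr_GP {P Q : Set (Set ℕ)} (h : ∀ X : Set ℕ, X.Infinite → (X ∈ P ↔ X ∈ Q))
    (hP : CR_GP P) : CR_GP Q := by
  intro s A hA
  obtain ⟨B, hBA, hB, hB2⟩ := hP s A hA
  refine ⟨B, hBA, hB, ?_⟩
  rcases hB2 with h3 | h3
  · left
    intro X hX hX2
    exact (h _ (hX2.mono subset_union_right)).1 (h3 X hX hX2)
  · right
    intro X hX hX2 hcon
    exact h3 X hX hX2 ((h _ (hX2.mono subset_union_right)).2 hcon)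

private theorem CR_compl_GP {P : Set (Set ℕ)} (hP : CR_GP P) : CR_GP Pᶜ := by
  intro s A hA
  obtain ⟨B, hBA, hB, hB2⟩ := hP s A hA
  refine ⟨B, hBA, hB, ?_⟩
  rcases hB2 with h3 | h3
  · right
    intro X hX hX2 hcon
    exact hcon (h3 X hX hX2)
  · left
    intro X hX hX2
    exact h3 X hX hX2

private theorem mem_rg_GP (P : Set Inc) {X : Set ℕ} (hX : X.Infinite) : X ∈ rg_GP P ↔ en_GP X hX ∈ P := by
  constructor
  · rintro ⟨f, hf, hfX⟩
    have : f = en_GP X hX := range_inj_GP (by rw [hfX, range_en_GP])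
    rwa [← this]
  · intro h
    exact ⟨_, h, range_en_GP X hX⟩

private theorem CR_borel_GP (P : Set Inc) (hP : MeasurableSet P) : CR_GP (rg_GP P) := by
  have hgen : (Inc.ms : MeasurableSpace Inc) = MeasurableSpace.generateFrom {s | IsOpen s} := rfl
  refine MeasurableSpace.generateFrom_induction {s : Set Inc | IsOpen s} (fun P _ => CR_GP (rg_GP P))
    ?_ ?_ ?_ ?_ P hP
  · intro t ht _
    exact CR_open_GP t ht
  · exact CR_open_GP ∅ isOpen_empty
  · intro t _ ht
    refine CR_congr_GP ?_ (CR_compl_GP ht)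
    intro X hX
    rw [mem_compl_iff, mem_rg_GP t hX, mem_rg_GP tᶜ hX, mem_compl_iff]
  · intro t _ ht
    refine CR_congr_GP ?_ (CR_iUnion_GP (fun n => rg_GP (t n)) ht)
    intro X hX
    rw [mem_rg_GP _ hX, mem_iUnion, mem_iUnion]
    simp only [mem_rg_GP _ hX]

theorem hGP : StGP := by
  intro k c hc
  classical
  have key : ∀ S : Finset (Fin k), ∃ B : Set ℕ, B.Infinite ∧ ∀ s ∈ S,
      (∀ X ⊆ B, X.Infinite → X ∈ rg_GP (c ⁻¹' {s})) ∨ ∀ X ⊆ B, X.Infinite → X ∉ rg_GP (c ⁻¹' {s}) := by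
    intro S
    induction S using Finset.induction_on with
    | empty => exact ⟨univ, infinite_univ, by simp⟩
    | insert t S _ ih =>
        obtain ⟨B, hB, hB2⟩ := ih
        obtain ⟨C, hCB, hC, hC2⟩ := CR_borel_GP _ (hc t) ∅ B hB
        simp only [Finset.coe_empty, empty_union] at hC2
        refine ⟨C, hC, fun s hs => ?_⟩
        rcases Finset.mem_insert.1 hs with rfl | hs
        · exact hC2
        · rcases hB2 s hs with h3 | h3
          · exact Or.inl fun X hX => h3 X (hX.trans hCB)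
          · exact Or.inr fun X hX => h3 X (hX.trans hCB)
  obtain ⟨B, hB, hB2⟩ := key Finset.univ
  set Y := en_GP B hB with hY
  refine ⟨Y, c Y, fun Z => ?_⟩
  rcases hB2 (c Y) (Finset.mem_univ _) with h3 | h3
  · have hsub : range (Y.comp Z).1 ⊆ B := by
      rintro _ ⟨i, rfl⟩
      rw [← range_en_GP B hB]
      exact ⟨Z.1 i, rfl⟩
    obtain ⟨f, hf, hfr⟩ := h3 _ hsub (infinite_range_of_injective (Y.comp Z).2.injective)
    have := range_inj_GP hfr
    rw [← this]
    exact hf
  · exact absurd ⟨Y, rfl, range_en_GP B hB⟩ (h3 B Subset.rfl hB)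

end Pool.Agent.Helper24.WH
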