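import Pool.Agent.Helper24.WH.M_GE

set_option autoImplicit false

namespace Pool.Agent.Helper24.WH

open Set

universe u v

namespace GWaux

variable {L : Type u} {A : Type v}

/-- labels satisfy `p`, leaves satisfy `q` -/
def Ok (p : L → Prop) (q : A → Prop) : Fo L A → Prop
  | .nil => True
  | .leaf a rest => q a ∧ Ok p q rest
  | .cons l kids rest => p l ∧ Ok p q kids ∧ Ok p q rest

/-- number of nodes -/
def size : Fo L A → ℕ
  | .nil => 0
  | .leaf _ rest => size rest + 1
  | .cons _ kids rest => size kids + size rest + 1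

/-- a tree occurs in a forest -/
def Occ (x : L × Fo L A) : Fo L A → Prop
  | .nil => False
  | .leaf _ rest => Occ x rest
  | .cons l kids rest => x = (l, kids) ∨ Occ x kids ∨ Occ x rest

/-- a tree as a forest -/
def tr (x : L × Fo L A) : Fo L A := .cons x.1 x.2 .nil

/-- cut at the highest nodes of height `m` -/
def cut (ht : L → ℕ) (m : ℕ) : Fo L A → Fo L (A ⊕ (L × Fo L A))
  | .nil => .nil
  | .leaf a rest => .leaf (Sum.inl a) (cut ht m rest)
  | .cons l kids rest =>
    if ht l = m then .leaf (Sum.inr (l, kids)) (cut ht m rest)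
    else .cons l (cut ht m kids) (cut ht m rest)

/-- sum order -/
def sr {T : Type*} (ra : A → A → Prop) (rt : T → T → Prop) : A ⊕ T → A ⊕ T → Prop
  | .inl a, .inl b => ra a b
  | .inr x, .inr y => rt x y
  | _, _ => False

/-- order of trees -/
def tord (rl : L → L → Prop) (ra : A → A → Prop) (ht : L → ℕ) (x y : L × Fo L A) : Prop :=
  Fo.Emb rl ra ht (tr x) (tr y)

theorem tord_iff (rl : L → L → Prop) (ra : A → A → Prop) (ht : L → ℕ) (x y : L × Fo L A) :
    tord rl ra ht x y ↔ (rl x.1 y.1 ∧ Fo.Emb rl ra ht x.2 y.2) ∨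
      (ht y.1 ≤ ht x.1 ∧ Fo.FindT rl ht x.1 (Fo.Emb rl ra ht x.2) y.2) := by
  simp [tord, tr, Fo.Emb, Fo.FindT]

theorem findA_cut {T : Type*} (ra : A → A → Prop) (ht : L → ℕ) (m : ℕ)
    (rt : (L × Fo L A) → (L × Fo L A) → Prop) (a : A) (N : Fo L A) :
    Fo.FindA (sr ra rt) (Sum.inl a) (cut ht m N) → Fo.FindA ra a N := by
  induction N with
  | nil => intro h; simpa [cut, Fo.FindA] using h
  | leaf a' rest ih =>
    intro h
    simp only [cut, Fo.FindA, sr] at h ⊢
    rcases h with h | h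
    · exact Or.inl h
    · exact Or.inr (ih h)
  | cons l kids rest ih1 ih2 =>
    intro h
    by_cases hl : ht l = m
    · simp only [cut, if_pos hl, Fo.FindA, sr, false_or] at h ⊢
      exact Or.inr (ih2 h)
    · simp only [cut, if_neg hl, Fo.FindA] at h ⊢
      rcases h with h | h
      · exact Or.inl (ih1 h)
      · exact Or.inr (ih2 h)

theorem findB (rl : L → L → Prop) (ra : A → A → Prop) (ht : L → ℕ) (m : ℕ) (q : A → Prop)
    (l : L) (k : Fo L A) (hl : ht l = m) (N : Fo L A) (hN : Ok (fun l => ht l < m + 1) q N) :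
    Fo.FindA (sr ra (tord rl ra ht)) (Sum.inr (l, k)) (cut ht m N) →
      Fo.FindT rl ht l (Fo.Emb rl ra ht k) N := by
  induction N with
  | nil => intro h; simp [cut, Fo.FindA] at h
  | leaf a' rest ih =>
    intro h
    simp only [cut, Fo.FindA, sr, false_or] at h
    simp only [Fo.FindT]
    exact ih hN.2 h
  | cons l' kids rest ih1 ih2 =>
    intro h
    by_cases hl' : ht l' = m
    · simp only [cut, if_pos hl', Fo.FindA, sr, tord_iff] at h
      simp only [Fo.FindT]
      rcases h with (h | h) | h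
      · exact Or.inl h
      · exact Or.inr (Or.inl h)
      · exact Or.inr (Or.inr (ih2 hN.2.2 h))
    · simp only [cut, if_neg hl', Fo.FindA] at h
      simp only [Fo.FindT]
      rcases h with h | h
      · refine Or.inr (Or.inl ⟨?_, ih1 hN.2.1 h⟩)
        have := hN.1
        omega
      · exact Or.inr (Or.inr (ih2 hN.2.2 h))

theorem findC (rl : L → L → Prop) (ht : L → ℕ) (m : ℕ) (q : A → Prop)
    (l : L) (P' : Fo L (A ⊕ (L × Fo L A)) → Prop) (P : Fo L A → Prop)
    (hP : ∀ N, Ok (fun l => ht l < m + 1) q N → P' (cut ht m N) → P N)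
    (N : Fo L A) (hN : Ok (fun l => ht l < m + 1) q N) :
    Fo.FindT rl ht l P' (cut ht m N) → Fo.FindT rl ht l P N := by
  induction N with
  | nil => intro h; simp [cut, Fo.FindT] at h
  | leaf a' rest ih =>
    intro h
    simp only [cut, Fo.FindT] at h ⊢
    exact ih hN.2 h
  | cons l' kids rest ih1 ih2 =>
    intro h
    by_cases hl' : ht l' = m
    · simp only [cut, if_pos hl', Fo.FindT] at h ⊢
      exact Or.inr (Or.inr (ih2 hN.2.2 h))
    · simp only [cut, if_neg hl', Fo.FindT] at h ⊢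
      rcases h with h | h | h
      · exact Or.inl ⟨h.1, hP _ hN.2.1 h.2⟩
      · exact Or.inr (Or.inl ⟨h.1, ih1 hN.2.1 h.2⟩)
      · exact Or.inr (Or.inr (ih2 hN.2.2 h))

theorem emb_of_cut (rl : L → L → Prop) (ra : A → A → Prop) (ht : L → ℕ) (m : ℕ) (q : A → Prop)
    (N₁ : Fo L A) : ∀ N₂ : Fo L A, Ok (fun l => ht l < m + 1) q N₁ →
    Ok (fun l => ht l < m + 1) q N₂ →
    Fo.Emb rl (sr ra (tord rl ra ht)) ht (cut ht m N₁) (cut ht m N₂) → Fo.Emb rl ra ht N₁ N₂ := by
  induction N₁ with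
  | nil => intro N₂ _ _ _; simp [Fo.Emb]
  | leaf a rest ih =>
    intro N₂ h1 h2 h
    simp only [cut, Fo.Emb] at h ⊢
    exact ⟨findA_cut (T := ℕ) ra ht m _ a N₂ h.1, ih N₂ h1.2 h2 h.2⟩
  | cons l kids rest ih1 ih2 =>
    intro N₂ h1 h2 h
    by_cases hl : ht l = m
    · simp only [cut, if_pos hl, Fo.Emb] at h ⊢
      exact ⟨findB rl ra ht m q l kids hl N₂ h2 h.1, ih2 N₂ h1.2.2 h2 h.2⟩
    · simp only [cut, if_neg hl, Fo.Emb] at h ⊢
      exact ⟨findC rl ht m q l _ _ (fun N hN h' => ih1 N h1.2.1 hN h') N₂ h2 h.1, ih2 N₂ h1.2.2 h2 h.2⟩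

theorem ok_cut (ht : L → ℕ) (m : ℕ) (q : A → Prop) (q' : L × Fo L A → Prop) (N : Fo L A)
    (hN : Ok (fun l => ht l < m + 1) q N) (h : ∀ x, Occ x N → ht x.1 = m →
      Ok (fun l => ht l < m + 1) q x.2 → q' x) :
    Ok (fun l => ht l < m) (Sum.elim q q') (cut ht m N) := by
  induction N with
  | nil => simp [cut, Ok]
  | leaf a rest ih =>
    simp only [cut, Ok, Sum.elim_inl]
    exact ⟨hN.1, ih hN.2 (fun x hx => h x hx)⟩
  | cons l kids rest ih1 ih2 =>
    by_cases hl : ht l = m
    · simp only [cut, if_pos hl, Ok, Sum.elim_inr]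
      exact ⟨h (l, kids) (Or.inl rfl) hl hN.2.1, ih2 hN.2.2 (fun x hx => h x (Or.inr (Or.inr hx)))⟩
    · simp only [cut, if_neg hl, Ok]
      refine ⟨?_, ih1 hN.2.1 (fun x hx => h x (Or.inr (Or.inl hx))),
        ih2 hN.2.2 (fun x hx => h x (Or.inr (Or.inr hx)))⟩
      have := hN.1
      omega

theorem occ_size (y : L × Fo L A) (N : Fo L A) (h : Occ y N) : size y.2 < size N := by
  induction N with
  | nil => exact h.elim
  | leaf a rest ih =>
    have := ih h
    simp only [size]
    omega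
  | cons l kids rest ih1 ih2 =>
    simp only [size]
    rcases h with h | h | h
    · subst h
      simp only
      omega
    · have := ih1 h
      omega
    · have := ih2 h
      omega

theorem occ_find (rl : L → L → Prop) (ra : A → A → Prop) (ht : L → ℕ) (m : ℕ) (q : A → Prop)
    (x y : L × Fo L A) (hx : ht x.1 = m) (N : Fo L A) (hN : Ok (fun l => ht l < m + 1) q N)
    (h : Occ y N) (hxy : tord rl ra ht x y) : Fo.FindT rl ht x.1 (Fo.Emb rl ra ht x.2) N := by
  induction N with
  | nil => exact h.elim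
  | leaf a rest ih =>
    simp only [Fo.FindT]
    exact ih hN.2 h
  | cons l kids rest ih1 ih2 =>
    simp only [Fo.FindT]
    rcases h with h | h | h
    · subst h
      rw [tord_iff] at hxy
      rcases hxy with hxy | hxy
      · exact Or.inl hxy
      · exact Or.inr (Or.inl hxy)
    · refine Or.inr (Or.inl ⟨?_, ih1 hN.2.1 h⟩)
      have := hN.1
      omega
    · exact Or.inr (Or.inr (ih2 hN.2.2 h))

theorem sum_pwo {T : Type*} (ra : A → A → Prop) (rt : T → T → Prop) (q : A → Prop) (B : T → Prop)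
    (hq : {a | q a}.PartiallyWellOrderedOn ra) (hB : {a | B a}.PartiallyWellOrderedOn rt) :
    {a | Sum.elim q B a}.PartiallyWellOrderedOn (sr ra rt) := by
  have h1 : (Sum.inl '' {a | q a} : Set (A ⊕ T)).PartiallyWellOrderedOn (sr ra rt) :=
    hq.image_of_monotone_on (fun a _ b _ h => h)
  have h2 : (Sum.inr '' {a | B a} : Set (A ⊕ T)).PartiallyWellOrderedOn (sr ra rt) :=
    hB.image_of_monotone_on (fun a _ b _ h => h)
  refine (h1.union h2).mono ?_
  rintro (a | a) ha
  · exact Or.inl ⟨a, ha, rfl⟩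
  · exact Or.inr ⟨a, ha, rfl⟩

theorem step (rl : L → L → Prop) (ht : L → ℕ) (m : ℕ) (hr : ∀ a, rl a a)
    (htr : ∀ a b c, rl a b → rl b c → rl a c)
    (hL : {l | ht l = m}.PartiallyWellOrderedOn rl) (ra : A → A → Prop) (q : A → Prop)
    (hq : {a | q a}.PartiallyWellOrderedOn ra)
    (IH : ∀ q' : A ⊕ (L × Fo L A) → Prop,
      {a | q' a}.PartiallyWellOrderedOn (sr ra (tord rl ra ht)) →
      {N : Fo L (A ⊕ (L × Fo L A)) | Ok (fun l => ht l < m) q' N}.PartiallyWellOrderedOn
        (Fo.Emb rl (sr ra (tord rl ra ht)) ht)) :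
    {N : Fo L A | Ok (fun l => ht l < m + 1) q N}.PartiallyWellOrderedOn (Fo.Emb rl ra ht) := by
  set Qm : Set (L × Fo L A) := {x | ht x.1 = m ∧ Ok (fun l => ht l < m + 1) q x.2} with hQm
  haveI : IsPreorder L rl := { refl := hr, trans := htr }
  have key : Qm.PartiallyWellOrderedOn (tord rl ra ht) := by
    rw [Set.PartiallyWellOrderedOn.iff_not_exists_isMinBadSeq (fun x : L × Fo L A => size x.2)]
    rintro ⟨t, ht1, ht2⟩
    set B : Set (L × Fo L A) := {x | x ∈ Qm ∧ ∃ i, Occ x (t i).2} with hBd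
    have hB : B.PartiallyWellOrderedOn (tord rl ra ht) := by
      rw [partiallyWellOrderedOn_iff_exists_lt]
      intro b hb
      by_contra hcon
      push Not at hcon
      have hbQ : ∀ n, b n ∈ Qm := fun n => (hb n).1
      choose i hi using fun n => (hb n).2
      obtain ⟨k0, hk0⟩ : ∃ k0, ∀ k, i k0 ≤ i k := by
        classical
        have hex : ∃ n, ∃ k, i k = n := ⟨i 0, 0, rfl⟩
        obtain ⟨k, hk⟩ := Nat.find_spec hex
        exact ⟨k, fun k' => hk ▸ Nat.find_min' hex ⟨k', rfl⟩⟩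
      refine ht2 (i k0) (fun n => if n < i k0 then t n else b (k0 + (n - i k0)))
        (fun m' hm' => by simp [hm']) ?_ ⟨?_, ?_⟩
      · simp only [lt_irrefl, if_false, Nat.sub_self, Nat.add_zero]
        exact occ_size _ _ (hi k0)
      · intro n
        dsimp only
        split_ifs with hn
        · exact ht1.1 n
        · exact hbQ _
      · intro m' n' hmn
        dsimp only
        split_ifs with h1 h2 h2
        · exact ht1.2 _ _ hmn
        · intro h
          set k := k0 + (n' - i k0) with hk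
          refine ht1.2 m' (i k) (lt_of_lt_of_le h1 (hk0 k)) ?_
          rw [tord_iff]
          refine Or.inr ⟨?_, ?_⟩
          · rw [(ht1.1 (i k)).1, (ht1.1 m').1]
          · exact occ_find rl ra ht m q (t m') (b k) (ht1.1 m').1 (t (i k)).2 (ht1.1 (i k)).2
              (hi k) h
        · exact absurd (lt_trans hmn h2) h1
        · exact hcon _ _ (by omega)
    obtain ⟨g, hg⟩ := hL.exists_monotone_subseq (f := fun i => (t i).1) (fun n => (ht1.1 n).1)
    obtain ⟨i, j, hij, he⟩ := (IH _ (sum_pwo ra (tord rl ra ht) q (fun x => x ∈ B) hq hB)).exists_lt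
      (f := fun n => cut ht m (t (g n)).2)
      (fun n => ok_cut ht m q _ _ (ht1.1 (g n)).2 (fun x hx h1 h2 => ⟨⟨h1, h2⟩, g n, hx⟩))
    refine ht1.2 (g i) (g j) (g.strictMono hij) ?_
    rw [tord_iff]
    exact Or.inl ⟨hg i j hij.le, emb_of_cut rl ra ht m q _ _ (ht1.1 (g i)).2 (ht1.1 (g j)).2 he⟩
  rw [partiallyWellOrderedOn_iff_exists_lt]
  intro f hf
  obtain ⟨i, j, hij, he⟩ := (IH _ (sum_pwo ra (tord rl ra ht) q (fun x => x ∈ Qm) hq key)).exists_lt
      (f := fun n => cut ht m (f n))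
      (fun n => ok_cut ht m q _ _ (hf n) (fun x _ h1 h2 => ⟨h1, h2⟩))
  exact ⟨i, j, hij, emb_of_cut rl ra ht m q _ _ (hf i) (hf j) he⟩

/-- the leaves of a forest without inner nodes -/
def toL : Fo L A → List A
  | .nil => []
  | .leaf a rest => a :: toL rest
  | .cons _ _ rest => toL rest

theorem mem_toL (ra : A → A → Prop) (a b : A) (N : Fo L A) (hb : b ∈ toL N) (h : ra a b) :
    Fo.FindA ra a N := by
  induction N with
  | nil => simp [toL] at hb
  | leaf a' rest ih =>
    simp only [toL, List.mem_cons] at hb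
    rcases hb with rfl | hb
    · exact Or.inl h
    · exact Or.inr (ih hb)
  | cons l kids rest ih1 ih2 => exact Or.inr (ih2 hb)

theorem emb_toL (rl : L → L → Prop) (ra : A → A → Prop) (ht : L → ℕ) (q : A → Prop) (N N₂ : Fo L A)
    (hN : Ok (fun l => ht l < 0) q N) (h : ∀ a ∈ toL N, ∃ b ∈ toL N₂, ra a b) :
    Fo.Emb rl ra ht N N₂ := by
  induction N with
  | nil => simp [Fo.Emb]
  | leaf a' rest ih =>
    obtain ⟨b, hb, hab⟩ := h a' (by simp [toL])
    exact ⟨mem_toL ra a' b N₂ hb hab, ih hN.2 (fun a ha => h a (by simp [toL, ha]))⟩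
  | cons l kids rest ih1 ih2 => exact absurd hN.1 (Nat.not_lt_zero _)

theorem q_toL (ht : L → ℕ) (q : A → Prop) (N : Fo L A)
    (hN : Ok (fun l => ht l < 0) q N) : ∀ a ∈ toL N, q a := by
  induction N with
  | nil => simp [toL]
  | leaf a' rest ih =>
    intro a ha
    simp only [toL, List.mem_cons] at ha
    rcases ha with rfl | ha
    · exact hN.1
    · exact ih hN.2 a ha
  | cons l kids rest ih1 ih2 => exact absurd hN.1 (Nat.not_lt_zero _)

theorem sub_mem {r : A → A → Prop} {l l' : List A} (h : List.SublistForall₂ r l l') :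
    ∀ a ∈ l, ∃ b ∈ l', r a b := by
  induction h with
  | nil => simp
  | cons h1 h2 ih =>
    intro a ha
    simp only [List.mem_cons] at ha
    rcases ha with rfl | ha
    · exact ⟨_, List.mem_cons_self, h1⟩
    · obtain ⟨b, hb, hab⟩ := ih a ha
      exact ⟨b, List.mem_cons_of_mem _ hb, hab⟩
  | cons_right h2 ih =>
    intro a ha
    obtain ⟨b, hb, hab⟩ := ih a ha
    exact ⟨b, List.mem_cons_of_mem _ hb, hab⟩

theorem base (rl : L → L → Prop) (ht : L → ℕ) (ra : A → A → Prop) (hra : ∀ a, ra a a)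
    (hrt : ∀ a b c, ra a b → ra b c → ra a c) (q : A → Prop)
    (hq : {a | q a}.PartiallyWellOrderedOn ra) :
    {N : Fo L A | Ok (fun l => ht l < 0) q N}.PartiallyWellOrderedOn (Fo.Emb rl ra ht) := by
  haveI : IsPreorder A ra := { refl := hra, trans := hrt }
  have h := Set.PartiallyWellOrderedOn.partiallyWellOrderedOn_sublistForall₂ ra hq
  rw [partiallyWellOrderedOn_iff_exists_lt]
  intro f hf
  obtain ⟨i, j, hij, he⟩ := h.exists_lt (f := fun n => toL (f n)) (fun n => q_toL ht q _ (hf n))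
  exact ⟨i, j, hij, emb_toL rl ra ht q _ _ (hf i) (sub_mem he)⟩

theorem sr_refl {T : Type*} (ra : A → A → Prop) (rt : T → T → Prop) (h1 : ∀ a, ra a a)
    (h2 : ∀ a, rt a a) : ∀ a, sr ra rt a a := by
  rintro (a | a)
  · exact h1 a
  · exact h2 a

theorem sr_trans {T : Type*} (ra : A → A → Prop) (rt : T → T → Prop)
    (h1 : ∀ a b c, ra a b → ra b c → ra a c)
    (h2 : ∀ a b c, rt a b → rt b c → rt a c) : ∀ a b c, sr ra rt a b → sr ra rt b c → sr ra rt a c := by
  rintro (a | a) (b | b) (c | c) h h'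
  · exact h1 a b c h h'
  · exact h'.elim
  · exact h.elim
  · exact h.elim
  · exact h.elim
  · exact h.elim
  · exact h'.elim
  · exact h2 a b c h h'

theorem G {L : Type u} (rl : L → L → Prop) (ht : L → ℕ) (n : ℕ) (hr : ∀ a, rl a a)
    (htr : ∀ a b c, rl a b → rl b c → rl a c) (hh : ∀ a b, rl a b → ht a = ht b)
    (hL : ∀ m, m ≤ n → {l | ht l = m}.PartiallyWellOrderedOn rl) :
    ∀ m, m ≤ n + 1 → ∀ (A : Type (max u v)) (ra : A → A → Prop), (∀ a, ra a a) →
      (∀ a b c, ra a b → ra b c → ra a c) → ∀ q : A → Prop,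
      {a | q a}.PartiallyWellOrderedOn ra →
      {N : Fo L A | Ok (fun l => ht l < m) q N}.PartiallyWellOrderedOn (Fo.Emb rl ra ht) := by
  intro m
  induction m with
  | zero => intro _ A ra hra hrt q hq; exact base rl ht ra hra hrt q hq
  | succ m ih =>
    intro hm A ra hra hrt q hq
    have hge := hGE.{u, max u v} L A rl ra ht hr htr hra hrt hh
    refine step rl ht m hr htr (hL m (by omega)) ra q hq (fun q' hq' => ?_)
    refine ih (by omega) (A ⊕ (L × Fo L A)) (sr ra (tord rl ra ht)) ?_ ?_ q' hq'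
    · exact sr_refl _ _ hra (fun x => hge.1 _)
    · exact sr_trans _ _ hrt (fun x y z => hge.2 _ _ _)

theorem hb_ok (ht : L → ℕ) (n : ℕ) (N : Fo L A) (h : N.HB ht n) :
    Ok (fun l => ht l < n + 1) (fun _ => True) N := by
  induction N with
  | nil => simp [Ok]
  | leaf a rest ih => exact ⟨trivial, ih h⟩
  | cons l kids rest ih1 ih2 => exact ⟨Nat.lt_succ_of_le h.1, ih1 h.2.1, ih2 h.2.2⟩

end GWaux

open GWaux in
theorem hGW : StGW.{u, v} := by
  intro L A rl ra ht n hr htr hra hrt hh hLw hAw f hf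
  have hL : ∀ m, m ≤ n → {l | ht l = m}.PartiallyWellOrderedOn rl := by
    intro m hm
    rw [partiallyWellOrderedOn_iff_exists_lt]
    intro g hg
    exact hLw g (fun i => by rw [show ht (g i) = m from hg i]; exact hm)
  have hge := hGE.{u, v} L A rl ra ht hr htr hra hrt hh
  have hq : {a : A | True}.PartiallyWellOrderedOn ra :=
    partiallyWellOrderedOn_of_wellQuasiOrdered hAw _
  have h := step rl ht n hr htr (hL n le_rfl) ra (fun _ => True) hq (fun q' hq' =>
    G.{u, v} rl ht n hr htr hh hL n (Nat.le_succ n) (A ⊕ (L × Fo L A)) (sr ra (tord rl ra ht))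
      (sr_refl _ _ hra (fun x => hge.1 _)) (sr_trans _ _ hrt (fun x y z => hge.2 _ _ _)) q' hq')
  exact h.exists_lt (f := f) (fun i => hb_ok ht n _ (hf i))

end Pool.Agent.Helper24.WH
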