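import Pool.Agent.Helper24.WH.St3

/-!
# PROJECT WH (MP_76577a_lc), module HA: additivity of `HomOp` on finite unions of closed sets (3.4)
-/

set_option autoImplicit false

namespace Pool.Agent.Helper24.WH

open Set TopologicalSpace Ordinal Topology

private theorem sub_cl_HA {X : Type} (τ : TopologicalSpace X) (z : Set X → Set X)
    (hz : ∀ A B, A ⊆ B → z A ⊆ z B) (B : Set X) :
    HomOp τ z B ⊆ closure[τ] (z (HomOp τ z B)) := by
  rintro x ⟨W, ⟨hWB, hW⟩, hx⟩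
  have h1 : W ⊆ HomOp τ z B := fun y hy => ⟨W, ⟨hWB, hW⟩, hy⟩
  exact Set.mem_of_subset_of_mem (@closure_mono X τ _ _ (hz _ _ h1)) (hW hx)

private theorem le_HA {X : Type} (τ : TopologicalSpace X) (z : Set X → Set X) (B : Set X) :
    HomOp τ z B ⊆ B := by
  rintro x ⟨W, ⟨hWB, hW⟩, hx⟩
  exact hWB hx

private theorem mono_HA {X : Type} (τ : TopologicalSpace X) (z : Set X → Set X) (A B : Set X)
    (h : A ⊆ B) : HomOp τ z A ⊆ HomOp τ z B := by
  rintro x ⟨W, ⟨hWB, hW⟩, hx⟩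
  exact ⟨W, ⟨hWB.trans h, hW⟩, hx⟩

/-- membership in the closure by clopen neighbourhoods -/
private theorem mem_cl_HA {X : Type} (τ : TopologicalSpace X) (hzd : ZD τ) (A : Set X) (x : X)
    (h : ∀ O, Clp τ O → x ∈ O → (O ∩ A).Nonempty) : x ∈ closure[τ] A := by
  rw [@mem_closure_iff X τ]
  intro U hU hx
  obtain ⟨O, hO, hxO, hOU⟩ := hzd x U hU hx
  obtain ⟨y, hyO, hyA⟩ := h O hO hxO
  exact ⟨y, hOU hyO, hyA⟩

private theorem two_HA {X : Type} (τ : TopologicalSpace X) (z : Set X → Set X) (hzd : ZD τ)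
    (hz : MCL τ z) (B₁ B₂ : Set X) (h₁ : IsClosed[τ] B₁) (h₂ : IsClosed[τ] B₂) :
    HomOp τ z (B₁ ∪ B₂) ⊆ HomOp τ z B₁ ∪ HomOp τ z B₂ := by
  set W := HomOp τ z (B₁ ∪ B₂) with hW
  have hWle : W ⊆ B₁ ∪ B₂ := le_HA τ z _
  have hWcl : W ⊆ closure[τ] (z W) := sub_cl_HA τ z hz.mono _
  -- for clopen `O` meeting ..
  have key : ∀ x ∈ W, ∀ O, Clp τ O → x ∈ O → (O ∩ z (W ∩ O)).Nonempty := by
    intro x hx O hO hxO
    have hx' := hWcl hx
    rw [@mem_closure_iff X τ] at hx'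
    obtain ⟨y, hyO, hyz⟩ := hx' O hO.2 hxO
    refine ⟨y, hyO, ?_⟩
    rw [hz.loc O W hO]
    exact ⟨hyz, hyO⟩
  intro x hx
  by_cases hx1 : x ∈ closure[τ] (W \ B₂)
  · left
    refine ⟨closure[τ] (W \ B₂), ⟨?_, ?_⟩, hx1⟩
    · refine @closure_minimal X τ _ _ ?_ h₁
      rintro y ⟨hyW, hyB⟩
      exact (hWle hyW).resolve_right hyB
    · refine @closure_minimal X τ _ _ ?_ (@isClosed_closure X τ _)
      rintro y ⟨hyW, hyB⟩
      refine mem_cl_HA τ hzd _ _ fun O hO hyO => ?_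
      obtain ⟨O', hO', hyO', hOB⟩ := hzd y B₂ᶜ ((@isOpen_compl_iff X _ τ).2 h₂) hyB
      obtain ⟨w, hw1, hw2⟩ := key y hyW (O ∩ O') (@IsClopen.inter X τ _ _ hO hO') ⟨hyO, hyO'⟩
      refine ⟨w, hw1.1, hz.mono _ _ ?_ hw2⟩
      rintro v ⟨hvW, hvO, hvO'⟩
      exact @subset_closure X τ _ _ ⟨hvW, hOB hvO'⟩
  · right
    refine ⟨{y | y ∈ W ∧ ∃ O, Clp τ O ∧ y ∈ O ∧ O ∩ W ⊆ B₂}, ⟨?_, ?_⟩, ?_⟩
    · rintro y ⟨hyW, O, hO, hyO, hOB⟩
      exact hOB ⟨hyO, hyW⟩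
    · rintro y ⟨hyW, O, hO, hyO, hOB⟩
      refine mem_cl_HA τ hzd _ _ fun O' hO' hyO' => ?_
      obtain ⟨w, hw1, hw2⟩ := key y hyW (O ∩ O') (@IsClopen.inter X τ _ _ hO hO') ⟨hyO, hyO'⟩
      refine ⟨w, hw1.2, hz.mono _ _ ?_ hw2⟩
      rintro v ⟨hvW, hvO, hvO'⟩
      exact ⟨hvW, O, hO, hvO, hOB⟩
    · refine ⟨hx, ?_⟩
      have hop : IsOpen[τ] (closure[τ] (W \ B₂))ᶜ :=
        (@isOpen_compl_iff X _ τ).2 (@isClosed_closure X τ _)
      obtain ⟨O, hO, hxO, hOC⟩ := hzd x _ hop hx1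
      refine ⟨O, hO, hxO, ?_⟩
      rintro y ⟨hyO, hyW⟩
      by_contra hyB
      exact hOC hyO (@subset_closure X τ _ _ ⟨hyW, hyB⟩)

theorem hHA : StHA := by
  classical
  intro X τ z hzd hz ι _ B hB
  have : Fintype ι := Fintype.ofFinite ι
  have key : ∀ s : Finset ι, HomOp τ z (⋃ i ∈ s, B i) ⊆ ⋃ i ∈ s, HomOp τ z (B i) := by
    intro s
    induction s using Finset.induction_on with
    | empty =>
      intro x hx
      have := le_HA τ z _ hx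
      simp at this
    | insert a s ha ih =>
      rw [Finset.set_biUnion_insert, Finset.set_biUnion_insert]
      have hcl : IsClosed[τ] (⋃ i ∈ s, B i) :=
        @isClosed_biUnion_finset X ι τ s B (fun i _ => hB i)
      exact (two_HA τ z hzd hz _ _ (hB a) hcl).trans (union_subset_union_right _ ih)
  refine Subset.antisymm ?_ ?_
  · have := key Finset.univ
    simpa using this
  · exact iUnion_subset fun i => mono_HA τ z _ _ (subset_iUnion B i)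

end Pool.Agent.Helper24.WH
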