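import Pool.Agent.Helper24.WH.St5

/-!
# Project WH, module HC
-/

set_option autoImplicit false

namespace Pool.Agent.Helper24.WH

open Set TopologicalSpace Topology
open Ordinal hiding univ

theorem hHC (hRB : StRB) (hHO : StHO) : StHC := by
  intro X n τ P f R m hm r hr hv s B hB
  have hmn : m ≤ n := Nat.le_of_succ_le hm
  obtain ⟨-, hZ, -, -⟩ := hRB X τ f R.tow R.fib m
  have hz : IsDer (τ m) (Zo τ f m r s) := hZ r s
  obtain ⟨hO1, -, hO3, hO4, -, -, -, -⟩ := hHO X (τ (m + 1)) (Zo τ f m r s) hz.mono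
  apply Subset.antisymm
  · refine (hO3 B).trans ?_
    exact @closure_mono X (τ (m + 1)) _ _ (hz.mono _ _ (hO1 B))
  · have h0 : ∀ k, P k ⊆ P 0 := by
      intro k
      induction k with
      | zero => exact Subset.rfl
      | succ k ih => exact (R.anti k).trans ih
    have hzP : Zo τ f m r s B ∈ P m := R.ZP m hmn r hr hv s B (R.anti m hB)
    have hC : closure[τ (m + 1)] (Zo τ f m r s B) ∈ P (m + 1) :=
      R.clo (m + 1) (by omega) _ (h0 m hzP)
    have hCB : closure[τ (m + 1)] (Zo τ f m r s B) ⊆ B :=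
      @closure_minimal X (τ (m + 1)) _ _ (hz.le B) (R.cl (m + 1) hm B hB)
    have hCc : Clp (τ m) (closure[τ (m + 1)] (Zo τ f m r s B)) :=
      ⟨R.cl m hmn _ (R.anti m hC), R.op m hmn _ hC⟩
    have hzC : Zo τ f m r s (closure[τ (m + 1)] (Zo τ f m r s B)) = Zo τ f m r s B := by
      have h := hz.loc _ B hCc
      rw [inter_eq_self_of_subset_right hCB, inter_eq_self_of_subset_left
        (@subset_closure X (τ (m + 1)) _)] at h
      exact h
    refine hO4 _ B hCB ?_
    rw [hzC]

end Pool.Agent.Helper24.WH
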