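import Pool.Agent.Helper24.WH.St3

/-! WH module HU (helper58): finite unions of operators. -/

set_option autoImplicit false

namespace Pool.Agent.Helper24.WH

open Set TopologicalSpace Topology

variable {X : Type}

private theorem le_HU (τ : TopologicalSpace X) (z : Set X → Set X) (B : Set X) : HomOp τ z B ⊆ B := by
  rintro x ⟨W, hW, hx⟩
  exact hW.1 hx

private theorem max_HU (τ : TopologicalSpace X) (z : Set X → Set X) (W B : Set X) (h : W ⊆ B)
    (h2 : W ⊆ closure[τ] (z W)) : W ⊆ HomOp τ z B := fun _ hx => ⟨W, ⟨h, h2⟩, hx⟩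

private theorem mono_HU (τ : TopologicalSpace X) (z : Set X → Set X) (A B : Set X) (h : A ⊆ B) :
    HomOp τ z A ⊆ HomOp τ z B := by
  rintro x ⟨W, hW, hx⟩
  exact ⟨W, ⟨hW.1.trans h, hW.2⟩, hx⟩

private theorem cl_HU (τ : TopologicalSpace X) (z : Set X → Set X) (hz : ∀ A B, A ⊆ B → z A ⊆ z B)
    (B : Set X) : HomOp τ z B ⊆ closure[τ] (z (HomOp τ z B)) := by
  rintro x ⟨W, hW, hx⟩
  have h1 : W ⊆ HomOp τ z B := max_HU τ z W B hW.1 hW.2
  letI := τ
  exact closure_mono (hz _ _ h1) (hW.2 hx)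

private theorem closed_HU (τ : TopologicalSpace X) (z : Set X → Set X)
    (hz : ∀ A B, A ⊆ B → z A ⊆ z B) (B : Set X) (hB : IsClosed[τ] B) :
    IsClosed[τ] (HomOp τ z B) := by
  letI := τ
  have h1 : closure (HomOp τ z B) ⊆ B := closure_minimal (le_HU τ z B) hB
  have h2 : closure (HomOp τ z B) ⊆ closure (z (closure (HomOp τ z B))) := by
    have h3 : closure (HomOp τ z B) ⊆ closure (z (HomOp τ z B)) :=
      closure_minimal (cl_HU τ z hz B) isClosed_closure
    exact h3.trans (closure_mono (hz _ _ subset_closure))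
  have h4 : closure (HomOp τ z B) ⊆ HomOp τ z B := max_HU τ z _ B h1 h2
  exact closure_subset_iff_isClosed.mp h4

theorem hHU : StHU := by
  intro X τ z hzd hz ι hι zi hzi hun B hB
  letI := τ
  apply Subset.antisymm
  · intro x hx
    by_contra hxn
    have hWc : IsClosed (HomOp τ z B) := closed_HU τ z hz.mono B hB
    have hUc : IsClosed (⋃ i, HomOp τ (zi i) B) :=
      isClosed_iUnion_of_finite (fun i => closed_HU τ (zi i) (hzi i).mono B hB)
    obtain ⟨O, hO, hxO, hOsub⟩ := hzd x (⋃ i, HomOp τ (zi i) B)ᶜ hUc.isOpen_compl hxn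
    have hOcl : IsClopen O := hO
    -- the sets
    have hempty : ∀ i, ∀ V, V ⊆ HomOp τ z B ∩ O → HomOp τ (zi i) V = ∅ := by
      intro i V hV
      apply eq_empty_of_forall_notMem
      intro y hy
      have h1 : y ∈ V := le_HU τ (zi i) V hy
      have h2 : y ∈ O := (hV h1).2
      have h3 : V ⊆ B := fun w hw => le_HU τ z B (hV hw).1
      have h4 : y ∈ HomOp τ (zi i) B := mono_HU τ (zi i) V B h3 hy
      exact hOsub h2 (mem_iUnion.mpr ⟨i, h4⟩)
    have key : ∀ s : Set ι, s.Finite → ∃ P, IsClopen P ∧ (HomOp τ z B ∩ O ∩ P).Nonempty ∧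
        ∀ i ∈ s, zi i (HomOp τ z B ∩ O ∩ P) = ∅ := by
      intro s hs
      induction s, hs using Set.Finite.induction_on with
      | empty =>
        exact ⟨univ, isClopen_univ, ⟨x, ⟨hx, hxO⟩, mem_univ x⟩, fun i hi => absurd hi (notMem_empty i)⟩
      | @insert j s hj hs ih =>
        obtain ⟨P, hP, hne, hPs⟩ := ih
        have h1 : ¬ (HomOp τ z B ∩ O ∩ P ⊆ closure (zi j (HomOp τ z B ∩ O ∩ P))) := by
          intro h2
          have h3 := max_HU τ (zi j) _ _ (Subset.refl _) h2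
          rw [hempty j _ inter_subset_left] at h3
          obtain ⟨y, hy⟩ := hne
          exact h3 hy
        rw [not_subset] at h1
        obtain ⟨y, hy, hyn⟩ := h1
        obtain ⟨Q, hQ, hyQ, hQsub⟩ := hzd y (closure (zi j (HomOp τ z B ∩ O ∩ P)))ᶜ
          isClosed_closure.isOpen_compl hyn
        have hQc : IsClopen Q := hQ
        refine ⟨P ∩ Q, hP.inter hQc, ⟨y, hy.1, hy.2, hyQ⟩, ?_⟩
        have h5 : HomOp τ z B ∩ O ∩ (P ∩ Q) = HomOp τ z B ∩ O ∩ P ∩ Q := by
          rw [inter_assoc (HomOp τ z B ∩ O) P Q]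
        intro i hi
        rw [h5, (hzi i).loc Q _ hQ]
        rcases hi with hi | hi
        · subst hi
          apply eq_empty_of_forall_notMem
          rintro w ⟨hw1, hw2⟩
          exact hQsub hw2 (subset_closure hw1)
        · rw [hPs i hi, empty_inter]
    obtain ⟨P, hP, hne, hPs⟩ := key univ (toFinite univ)
    have h6 : z (HomOp τ z B ∩ O ∩ P) = ∅ := by
      rw [hun _ ((hWc.inter hOcl.isClosed).inter hP.isClosed)]
      apply eq_empty_of_forall_notMem
      intro y hy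
      obtain ⟨i, hi⟩ := mem_iUnion.mp hy
      rw [hPs i (mem_univ i)] at hi
      exact hi
    obtain ⟨y, ⟨hy1, hy2⟩, hy3⟩ := hne
    have h7 : z (HomOp τ z B ∩ (O ∩ P)) = z (HomOp τ z B) ∩ (O ∩ P) :=
      hz.loc (O ∩ P) _ (hOcl.inter hP)
    rw [← inter_assoc, h6] at h7
    have h8 : y ∈ closure (z (HomOp τ z B)) := cl_HU τ z hz.mono B hy1
    rw [mem_closure_iff] at h8
    obtain ⟨w, hw1, hw2⟩ := h8 (O ∩ P) (hOcl.inter hP).isOpen ⟨hy2, hy3⟩
    have h9 : w ∈ z (HomOp τ z B) ∩ (O ∩ P) := ⟨hw2, hw1⟩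
    rw [← h7] at h9
    exact h9
  · intro x hx
    obtain ⟨i, hi⟩ := mem_iUnion.mp hx
    have hVc : IsClosed (HomOp τ (zi i) B) := closed_HU τ (zi i) (hzi i).mono B hB
    refine max_HU τ z _ B (le_HU τ (zi i) B) ?_ hi
    refine (cl_HU τ (zi i) (hzi i).mono B).trans (closure_mono ?_)
    rw [hun _ hVc]
    exact subset_iUnion (fun i => zi i (HomOp τ (zi _) B)) i

end Pool.Agent.Helper24.WH
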