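import Pool.Agent.Helper24.WH.St6

/-!
# Project WH, module IV: the invariant
-/

set_option autoImplicit false

namespace Pool.Agent.Helper24.WH

open Set TopologicalSpace Topology
open Ordinal hiding univ

private lemma cs_IV (A : Type) [Finite A] : @CompactSpace (Tre A) (pT A) := by
  let _ : TopologicalSpace A := ⊥
  exact (inferInstance : CompactSpace (List Bool → A))

private lemma cpt_IV {X ι : Type} (τ : TopologicalSpace X) (hX : @CompactSpace X τ) [Nonempty ι]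
    (t : ι → Set X) (hd : Directed (· ⊇ ·) t) (hn : ∀ i, (t i).Nonempty)
    (hc : ∀ i, IsClosed[τ] (t i)) : (⋂ i, t i).Nonempty := by
  let := τ
  have := hX
  exact IsCompact.nonempty_iInter_of_directed_nonempty_isCompact_isClosed t hd hn
    (fun i => (hc i).isCompact) hc

/-- **IV (9.1)** the invariant -/
theorem hIV (hRA : StRA) (hCA : StCA) (hCB : StCB) (hUZ : StUZ) : StIV := by
  intro A₁ _ _ n τ P f hR hτ
  have hrich := hR.rich
  obtain ⟨-, -, -, -, -, -, -, hanti, -, -, hlim, -⟩ := hRA (Tre A₁) τ f n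
  obtain ⟨-, hbot, hwfbot, -⟩ := hCA n
  obtain ⟨-, -, -, -, -, -, -, -, -, -, hwell⟩ := hCB n
  obtain ⟨-, -, -, -, hVbot, -⟩ := hUZ (Tre A₁) τ f
  obtain ⟨a⟩ := ‹Nonempty A₁›
  have hne : (univ : Set (Tre A₁)).Nonempty := ⟨fun _ => a, trivial⟩
  have huniv : (univ : Set (Tre A₁)) ∈ P n := hrich.univ n
  set T : Set {c : Cd n // Cd.wf n c} := {c | Vo τ f n c.1 univ = ∅} with hT
  have hTne : T.Nonempty := by
    obtain ⟨c, hc, hc'⟩ := hrich.tm n le_rfl
    exact ⟨⟨c, hc⟩, hc' univ huniv⟩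
  obtain ⟨⟨r, hwf⟩, hr, hmin⟩ := hwell.has_min T hTne
  replace hr : Vo τ f n r univ = ∅ := hr
  have hmin' : ∀ c, Cd.wf n c → c < r → (Vo τ f n c univ).Nonempty := by
    intro c hc hcr
    rw [nonempty_iff_ne_empty]
    intro h
    exact hmin ⟨c, hc⟩ h hcr
  have hrb : r ≠ Cd.bot n := by
    rintro rfl
    rw [hVbot] at hr
    rw [hr] at hne
    exact not_nonempty_empty hne
  have hbr : Cd.bot n < r := lt_of_le_of_ne (hbot r) (Ne.symm hrb)
  have hvd : Cd.vd n r := by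
    by_contra hnv
    have hι : Nonempty {c : Cd n // Cd.wf n c ∧ c < r} := ⟨⟨Cd.bot n, hwfbot, hbr⟩⟩
    have hcs : @CompactSpace (Tre A₁) (τ n) := by
      rw [hτ]
      exact cs_IV A₁
    obtain ⟨x, hx⟩ := cpt_IV (τ n) hcs
      (fun c : {c : Cd n // Cd.wf n c ∧ c < r} => Vo τ f n c.1 univ)
      (by
        intro c c'
        rcases le_total c.1 c'.1 with h | h
        · exact ⟨c', hanti c.1 c'.1 univ c.2.1 c'.2.1 h, Subset.rfl⟩
        · exact ⟨c, Subset.rfl, hanti c'.1 c.1 univ c'.2.1 c.2.1 h⟩)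
      (fun c => hmin' c.1 c.2.1 c.2.2)
      (fun c => hrich.cl n le_rfl _ (hrich.VP n le_rfl c.1 c.2.1 univ huniv))
    have hx' := hlim r univ hwf hnv hrb x (fun c' hc' hcr =>
      (mem_iInter.mp hx) ⟨c', hc', hcr⟩)
    rw [hr] at hx'
    exact hx'
  refine ⟨r, hwf, hvd, hr, ?_⟩
  obtain ⟨c, hc, hcr, hus⟩ := hrich.us n le_rfl r hwf hvd
  obtain ⟨x, hx⟩ := hmin' c hc hcr
  rcases hus univ huniv hx with h | h
  · exact ⟨false, x, h⟩
  · exact ⟨true, x, h⟩

end Pool.Agent.Helper24.WH
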