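import Pool.Agent.Helper24.WH.St4

/-!
# PROJECT WH (MP_76577a_lc), module LW: labels of bounded height are well quasi ordered
-/

set_option autoImplicit false

namespace Pool.Agent.Helper24.WH

open Set

private def code_LW {S : Type} (n : ℕ) : Lab S → Fin (n + 1) × (Set S ⊕ S ⊕ Unit)
  | .base M K => (⟨min M n, by omega⟩, Sum.inl K)
  | .cl M s _ => (⟨min M n, by omega⟩, Sum.inr (Sum.inl s))
  | .dd m _ _ _ => (⟨min (m + 1) n, by omega⟩, Sum.inr (Sum.inr ()))

private theorem wqo_LW {Q : Type*} [LinearOrder Q] [WellFoundedLT Q] :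
    WellQuasiOrdered (fun a b : Q => a ≤ b) := by
  intro f
  by_contra h
  push Not at h
  have h2 : ∀ m n, m < n → f n < f m := h
  obtain ⟨x, ⟨m, rfl⟩, hx⟩ := WellFounded.has_min (wellFounded_lt (α := Q)) (range f) ⟨f 0, 0, rfl⟩
  exact hx (f (m + 1)) ⟨m + 1, rfl⟩ (h2 m (m + 1) (Nat.lt_succ_self m))

theorem hLW (hTB : StTB) (hTP : StTP) : StLW := by
  intro S _ n
  refine ⟨?_, ?_, ?_, ?_⟩
  · rintro (⟨M, K⟩ | ⟨M, s, j⟩ | ⟨m, L, x, j⟩)
    · exact .base M K
    · exact .cl M s j j le_rfl
    · exact .dd m L L x x j j (fun i => ⟨i, (hTP.2.1 S m).1 _⟩) le_rfl le_rfl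
  · intro a b c hab hbc
    cases hab with
    | base M K => exact hbc
    | cl M s j j' hj =>
      cases hbc with
      | cl _ _ _ j'' hj' => exact .cl M s j j'' (hj.trans hj')
    | dd m L L' x x' j j' hL hx hj =>
      cases hbc with
      | dd _ _ L'' _ x'' _ j'' hL' hx' hj' =>
        refine .dd m L L'' x x'' j j'' (fun i => ?_) (hx.trans hx') (hj.trans hj')
        obtain ⟨p, hp⟩ := hL i
        obtain ⟨q, hq⟩ := hL' p
        exact ⟨q, (hTP.2.1 S m).2 _ _ _ hp hq⟩
  · intro a b hab
    cases hab <;> rfl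
  · intro f hf
    classical
    obtain ⟨κ, hκ⟩ := Finite.exists_infinite_fiber (fun i => code_LW n (f i))
    have hinf : ((fun i => code_LW n (f i)) ⁻¹' {κ}).Infinite := infinite_coe_iff.mp hκ
    have := hinf.to_subtype
    set e := Nat.orderEmbeddingOfSet ((fun i => code_LW n (f i)) ⁻¹' {κ}) with he
    have hmem : ∀ i, code_LW n (f (e i)) = κ := fun i => by
      have := (Nat.orderEmbeddingOfSet_range ((fun i => code_LW n (f i)) ⁻¹' {κ})).le ⟨i, rfl⟩
      exact this
    obtain ⟨h, d⟩ := κ
    -- it suffices to find two good indices of the subsequence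
    suffices ∃ i j, i < j ∧ Lab.Le (f (e i)) (f (e j)) by
      obtain ⟨i, j, hij, h⟩ := this
      exact ⟨e i, e j, e.strictMono hij, h⟩
    rcases d with K | s | u
    · have key : ∀ i, f (e i) = .base h K := by
        intro i
        have h1 := hmem i
        have h2 := hf (e i)
        generalize f (e i) = l at h1 h2
        rcases l with ⟨M, K'⟩ | ⟨M, s, j⟩ | ⟨m, L, x, j⟩
        · simp only [code_LW, Prod.mk.injEq, Sum.inl.injEq] at h1
          have h3 := congrArg Fin.val h1.1
          simp only [Lab.ht] at h2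
          simp only at h3
          rw [h1.2, ← h3, min_eq_left h2]
        · simp [code_LW] at h1
        · simp [code_LW] at h1
      refine ⟨0, 1, Nat.zero_lt_one, ?_⟩
      rw [key, key]
      exact .base _ _
    · have key : ∀ i, ∃ j, f (e i) = .cl h s j := by
        intro i
        have h1 := hmem i
        have h2 := hf (e i)
        generalize f (e i) = l at h1 h2
        rcases l with ⟨M, K'⟩ | ⟨M, s', j⟩ | ⟨m, L, x, j⟩
        · simp [code_LW] at h1
        · simp only [code_LW, Prod.mk.injEq, Sum.inr.injEq, Sum.inl.injEq] at h1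
          have h3 := congrArg Fin.val h1.1
          simp only [Lab.ht] at h2
          simp only at h3
          exact ⟨j, by rw [h1.2, ← h3, min_eq_left h2]⟩
        · simp [code_LW] at h1
      choose j hj using key
      obtain ⟨a, b, hab, hle⟩ := wqo_LW j
      refine ⟨a, b, hab, ?_⟩
      rw [hj, hj]
      exact .cl _ _ _ _ hle
    · have key0 : ∀ i, ∃ m L x j, f (e i) = .dd m L x j ∧ m + 1 = (h : ℕ) := by
        intro i
        have h1 := hmem i
        have h2 := hf (e i)
        generalize f (e i) = l at h1 h2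
        rcases l with ⟨M, K'⟩ | ⟨M, s', j⟩ | ⟨m, L, x, j⟩
        · simp [code_LW] at h1
        · simp [code_LW] at h1
        · simp only [code_LW, Prod.mk.injEq] at h1
          have h3 := congrArg Fin.val h1.1
          simp only [Lab.ht] at h2
          simp only at h3
          exact ⟨m, L, x, j, rfl, by rw [← h3, min_eq_left h2]⟩
      obtain ⟨m, hm⟩ : ∃ m, m + 1 = (h : ℕ) := by
        obtain ⟨m, _, _, _, _, hm⟩ := key0 0
        exact ⟨m, hm⟩
      have key : ∀ i, ∃ (L : ℕ → TT S m) (x : ℕ) (j : Ordinal.{0}), f (e i) = .dd m L x j := by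
        intro i
        obtain ⟨m', L, x, j, h1, h2⟩ := key0 i
        obtain rfl : m' = m := by omega
        exact ⟨L, x, j, h1⟩
      choose L x j hj using key
      have w1 := (hTB S m 0).2.1
      have : Std.Refl (Dom (TT.Le (S := S) m)) := ⟨fun F i => ⟨i, (hTP.2.1 S m).1 _⟩⟩
      have : IsTrans (ℕ → TT S m) (Dom (TT.Le m)) := ⟨fun F F' F'' h1 h2 i => by
        obtain ⟨p, hp⟩ := h1 i
        obtain ⟨q, hq⟩ := h2 p
        exact ⟨q, (hTP.2.1 S m).2 _ _ _ hp hq⟩⟩
      have : IsPreorder (ℕ → TT S m) (Dom (TT.Le m)) := {}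
      have w2 := w1.prod (WellQuasiOrdered.prod (wqo_LW (Q := ℕ)) (wqo_LW (Q := Ordinal.{0})))
      obtain ⟨a, b, hab, hle⟩ := w2 (fun i => (L i, x i, j i))
      refine ⟨a, b, hab, ?_⟩
      rw [hj, hj]
      exact .dd _ _ _ _ _ _ _ hle.1 hle.2.1 hle.2.2

end Pool.Agent.Helper24.WH
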