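import Pool.Agent.Helper24.WH.St1

set_option autoImplicit false

namespace Pool.Agent.Helper24.WH

open Set Ordinal Order

/-- natural sum -/
noncomputable def nat_NS (a b : Ordinal.{0}) : Ordinal.{0} :=
  max (⨆ x : Iio a, succ (nat_NS x.1 b)) (⨆ x : Iio b, succ (nat_NS a x.1))
termination_by (a, b)
decreasing_by
  · exact Prod.Lex.left _ _ x.2
  · exact Prod.Lex.right _ x.2

private theorem le_NS (a b c : Ordinal.{0}) :
    nat_NS a b ≤ c ↔ (∀ a' < a, nat_NS a' b < c) ∧ ∀ b' < b, nat_NS a b' < c := by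
  rw [nat_NS, max_le_iff, Ordinal.iSup_le_iff, Ordinal.iSup_le_iff]
  simp only [succ_le_iff, Subtype.forall, mem_Iio]

private theorem left_NS {a a' : Ordinal.{0}} (b : Ordinal.{0}) (h : a < a') :
    nat_NS a b < nat_NS a' b := ((le_NS a' b _).1 le_rfl).1 a h

private theorem right_NS (a : Ordinal.{0}) {b b' : Ordinal.{0}} (h : b < b') :
    nat_NS a b < nat_NS a b' := ((le_NS a b' _).1 le_rfl).2 b h

private theorem key_NS (y : Ordinal.{0})
    (ih : ∀ a b : Ordinal.{0}, a < ω ^ y → b < ω ^ y → nat_NS a b < ω ^ y) :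
    ∀ (a b : Ordinal.{0}) (i j : ℕ) (c d : Ordinal.{0}), c < ω ^ y → d < ω ^ y →
      a = ω ^ y * i + c → b = ω ^ y * j + d →
      nat_NS a b ≤ ω ^ y * ((i + j : ℕ) : Ordinal.{0}) + nat_NS c d := by
  have hpos : (0 : Ordinal.{0}) < ω ^ y := opow_pos _ omega0_pos
  -- one sided step
  have dec : ∀ (i : ℕ) (c a' : Ordinal.{0}), c < ω ^ y → a' < ω ^ y * i + c →
      ∃ (i' : ℕ) (c' : Ordinal.{0}), c' < ω ^ y ∧ a' = ω ^ y * i' + c' ∧ ((i' = i ∧ c' < c) ∨ i' < i) := by
    intro i c a' hc h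
    have h1 : a' < ω ^ y * ((i : Ordinal.{0}) + 1) := by
      refine h.trans_le ?_
      rw [mul_add_one]
      exact add_le_add_right hc.le _
    have h2 : a' / ω ^ y < (i : Ordinal.{0}) + 1 := (Ordinal.lt_mul_iff_div_lt hpos.ne').1 h1
    have h3 : a' / ω ^ y < ω := h2.trans (by exact_mod_cast natCast_lt_omega0 (i + 1))
    obtain ⟨k, hk⟩ := lt_omega0.1 h3
    have hk' : k < i + 1 := by
      rw [hk] at h2
      exact_mod_cast h2
    refine ⟨k, a' % ω ^ y, Ordinal.mod_lt _ hpos.ne', ?_, ?_⟩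
    · rw [← hk]; exact (Ordinal.div_add_mod a' (ω ^ y)).symm
    · rcases Nat.lt_succ_iff_lt_or_eq.1 hk' with h4 | h4
      · exact Or.inr h4
      · refine Or.inl ⟨h4, ?_⟩
        have h5 : a' = ω ^ y * i + a' % ω ^ y := by
          rw [← h4, ← hk]; exact (Ordinal.div_add_mod a' (ω ^ y)).symm
        rw [h5] at h
        exact (add_lt_add_iff_left _).1 h
  intro a
  induction a using WellFoundedLT.induction with
  | _ a iha =>
  intro b
  induction b using WellFoundedLT.induction with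
  | _ b ihb =>
  intro i j c d hc hd ha hb
  rw [le_NS]
  constructor
  · intro a' ha'
    obtain ⟨i', c', hc', e', hcase⟩ := dec i c a' hc (ha ▸ ha')
    have h1 := iha a' ha' b i' j c' d hc' hd e' hb
    refine h1.trans_lt ?_
    rcases hcase with ⟨h2, h3⟩ | h2
    · rw [h2]
      exact (add_lt_add_iff_left _).2 (left_NS d h3)
    · have h3 : ω ^ y * ((i' + j : ℕ) : Ordinal.{0}) + nat_NS c' d <
          ω ^ y * ((i' + j : ℕ) : Ordinal.{0}) + ω ^ y := (add_lt_add_iff_left _).2 (ih c' d hc' hd)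
      refine h3.trans_le ?_
      rw [← mul_add_one]
      refine le_trans ?_ le_self_add
      refine mul_le_mul_right ?_ _
      have : i' + j + 1 ≤ i + j := by omega
      exact_mod_cast this
  · intro b' hb'
    obtain ⟨j', d', hd', e', hcase⟩ := dec j d b' hd (hb ▸ hb')
    have h1 := ihb b' hb' i j' c d' hc hd' ha e'
    refine h1.trans_lt ?_
    rcases hcase with ⟨h2, h3⟩ | h2
    · rw [h2]
      exact (add_lt_add_iff_left _).2 (right_NS c h3)
    · have h3 : ω ^ y * ((i + j' : ℕ) : Ordinal.{0}) + nat_NS c d' <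
          ω ^ y * ((i + j' : ℕ) : Ordinal.{0}) + ω ^ y := (add_lt_add_iff_left _).2 (ih c d' hc hd')
      refine h3.trans_le ?_
      rw [← mul_add_one]
      refine le_trans ?_ le_self_add
      refine mul_le_mul_right ?_ _
      have : i + j' + 1 ≤ i + j := by omega
      exact_mod_cast this

private theorem main_NS : ∀ x a b : Ordinal.{0}, a < ω ^ x → b < ω ^ x → nat_NS a b < ω ^ x := by
  intro x
  induction x using Ordinal.limitRecOn with
  | zero =>
    intro a b ha hb
    rw [opow_zero, Order.lt_one_iff] at *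
    subst ha hb
    refine nonpos_iff_eq_zero.1 ?_
    rw [le_NS]
    exact ⟨fun a' h => absurd h not_lt_zero, fun a' h => absurd h not_lt_zero⟩
  | add_one y ih =>
    intro a b ha hb
    have hpos : (0 : Ordinal.{0}) < ω ^ y := opow_pos _ omega0_pos
    rw [← succ_eq_add_one, opow_succ] at ha hb ⊢
    obtain ⟨i, hi⟩ := lt_omega0.1 ((Ordinal.lt_mul_iff_div_lt hpos.ne').1 ha)
    obtain ⟨j, hj⟩ := lt_omega0.1 ((Ordinal.lt_mul_iff_div_lt hpos.ne').1 hb)
    have h1 := key_NS y ih a b i j (a % ω ^ y) (b % ω ^ y) (Ordinal.mod_lt _ hpos.ne')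
      (Ordinal.mod_lt _ hpos.ne') (by rw [← hi]; exact (Ordinal.div_add_mod a _).symm)
      (by rw [← hj]; exact (Ordinal.div_add_mod b _).symm)
    refine h1.trans_lt ?_
    have h2 : ω ^ y * ((i + j : ℕ) : Ordinal.{0}) + nat_NS (a % ω ^ y) (b % ω ^ y) <
        ω ^ y * ((i + j : ℕ) : Ordinal.{0}) + ω ^ y := (add_lt_add_iff_left _).2
      (ih _ _ (Ordinal.mod_lt _ hpos.ne') (Ordinal.mod_lt _ hpos.ne'))
    refine h2.trans ?_
    rw [← mul_add_one]
    refine (mul_lt_mul_iff_right₀ hpos).2 ?_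
    exact_mod_cast natCast_lt_omega0 (i + j + 1)
  | limit x hx ih =>
    intro a b ha hb
    rw [lt_opow_of_isSuccLimit omega0_ne_zero hx] at ha hb
    obtain ⟨u, hu, ha⟩ := ha
    obtain ⟨v, hv, hb⟩ := hb
    have h1 := ih (max u v) (max_lt hu hv) a b
      (ha.trans_le (opow_le_opow_right omega0_pos (le_max_left _ _)))
      (hb.trans_le (opow_le_opow_right omega0_pos (le_max_right _ _)))
    exact h1.trans ((opow_lt_opow_iff_right one_lt_omega0).2 (max_lt hu hv))

/-- the version with an ordinal exponent -/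
theorem hNSo : ∃ N : Ordinal.{0} → Ordinal.{0} → Ordinal.{0},
    (∀ a a' b, a < a' → N a b < N a' b) ∧ (∀ a b b', b < b' → N a b < N a b') ∧
    ∀ x a b : Ordinal.{0}, a < ω ^ x → b < ω ^ x → N a b < ω ^ x :=
  ⟨nat_NS, fun _ _ b h => left_NS b h, fun a _ _ h => right_NS a h, main_NS⟩

theorem hNS : StNS := by
  first
  | exact hNSo
  | exact ⟨nat_NS, fun _ _ b h => left_NS b h, fun a _ _ h => right_NS a h,
      fun x a b ha hb => by
        have := main_NS (x : Ordinal.{0}) a b (by simpa using ha) (by simpa using hb)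
        simpa using this⟩

end Pool.Agent.Helper24.WH
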