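import Pool.Agent.Helper24.WH.St4

set_option autoImplicit false

namespace Pool.Agent.Helper24.WH

open Set TopologicalSpace Topology
open Ordinal hiding univ

private theorem hb_NV {S : Type} (n : ℕ) (ok : ℕ → Set S → Prop) (N : Nm S) :
    ∀ (h : ℕ) (i : Ordinal.{0}), Good n ok N h i → Fo.HB Lab.ht n N := by
  induction N with
  | nil => intro h i _; trivial
  | leaf a rest ih => exact a.elim
  | cons l kids rest ihk ihr =>
    intro h i hg
    cases l with
    | base M K =>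
      obtain ⟨h1, h2, h3, h4, h5, h6⟩ := hg
      refine ⟨h3, ?_, ihr h i h6⟩
      rw [h5]; trivial
    | cl M s j =>
      obtain ⟨h1, h2, h3, h4, h5, h6⟩ := hg
      exact ⟨h3, ihk 0 j h5, ihr h i h6⟩
    | dd m L x j =>
      obtain ⟨h1, h2, h3, h4, h5⟩ := hg
      exact ⟨h2, ihk (m + 1) j h4, ihr h i h5⟩

theorem hNV (hGW : StGW.{1, 0}) (hLW : StLW) (hSO : StSO) (hTB : StTB) : StNV := by
  intro A S _ _ n g Ga hH
  have key : ∀ f : ℕ → Nm S, (∀ k, ∃ h i, GN n g (f k) h i) →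
      ∃ k l, k < l ∧ vl n g (f l) ⊆ vl n g (f k) := by
    intro f hf
    obtain ⟨l1, l2, l3, l4⟩ := hLW S n
    obtain ⟨i, j, hij, hemb⟩ := hGW (Lab S) Empty Lab.Le (fun _ _ => True) Lab.ht n l1 l2
      (fun _ => trivial) (fun _ _ _ _ _ => trivial) l3 l4 (fun φ => (φ 0).elim) f
      (fun k => by
        obtain ⟨h, i, hg⟩ := hf k
        exact hb_NV n _ (f k) h i hg)
    obtain ⟨h, i', hg⟩ := hf i
    obtain ⟨h2, i2, hg2⟩ := hf j
    exact ⟨i, j, hij, hSO A S n g Ga hH (f i) (f j) h h2 i' i2 hg hg2 hemb⟩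
  intro f hf
  refine ⟨key f hf, ?_⟩
  intro m L
  let Q : Type 1 := {N : Nm S // ∃ h i, GN n g N h i}
  let r : Q → Q → Prop := fun a b => vl n g b.1 ⊆ vl n g a.1
  have hpre : IsPreorder Q r :=
    { refl := fun a => Subset.rfl
      trans := fun a b c h1 h2 => h2.trans h1 }
  have hr : WellQuasiOrdered r := by
    intro φ
    exact key (fun k => (φ k).1) (fun k => (φ k).2)
  have hs : WellQuasiOrdered (Dom (TT.Le (S := S) m)) := (hTB S m 0).2.1
  obtain ⟨k, l, hkl, h1, h2⟩ := hr.prod hs (fun k => (⟨f k, hf k⟩, L k))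
  exact ⟨k, l, hkl, h2, h1⟩

end Pool.Agent.Helper24.WH
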