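import Pool.Agent.Helper24.WH.St6

/-!
# PROJECT WH (MP_76577a_lc), module OR: the ordinal of the data is strictly monotone for strict Wadge reducibility
-/

set_option autoImplicit false

namespace Pool.Agent.Helper24.WH

open Set TopologicalSpace Topology
open Ordinal hiding univ

/-- padding to any larger height -/
private theorem pad_OR (hDP : StDP) (hCB : StCB) {A₁ : Type} (f : Tre A₁ → Bool) (n : ℕ) (r : Cd n) (sd : Bool → Prop)
    (h : Dat f n r sd) (N : ℕ) (hN : n ≤ N) : ∃ r₁ : Cd N, Dat f N r₁ sd ∧ Cd.pi N r₁ = Cd.pi n r := by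
  induction N, hN using Nat.le_induction with
  | base => exact ⟨r, h, rfl⟩
  | succ N _ ih =>
    obtain ⟨r₁, h₁, e₁⟩ := ih
    refine ⟨Cd.up N r₁, hDP A₁ f N r₁ sd h₁, ?_⟩
    rw [(hCB N).2.2.2.2.1 r₁, e₁]

/-- complementing a reduction -/
private theorem wred_compl_OR {A₁ A₂ : Type} {f : Tre A₁ → Bool} {f' : Tre A₂ → Bool} (h : WRed f f') :
    WRed (fun t => !(f t)) (fun t => !(f' t)) := by
  obtain ⟨φ, hc, hφ⟩ := h
  exact ⟨φ, hc, fun x => by simp only [hφ x]⟩

private theorem wred_trans_OR {A₁ A₂ A₃ : Type} {f : Tre A₁ → Bool} {f' : Tre A₂ → Bool} {f'' : Tre A₃ → Bool}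
    (h : WRed f f') (h' : WRed f' f'') : WRed f f'' := by
  obtain ⟨φ, hc, hφ⟩ := h
  obtain ⟨ψ, hd, hψ⟩ := h'
  refine ⟨ψ ∘ φ, ?_, fun x => by simp only [Function.comp_apply, hψ, hφ]⟩
  let _ : TopologicalSpace (Tre A₁) := pT A₁
  let _ : TopologicalSpace (Tre A₂) := pT A₂
  let _ : TopologicalSpace (Tre A₃) := pT A₃
  exact Continuous.comp hd hc

/-- arithmetic below `ε₀` -/
private theorem lt_eps_OR {a : Ordinal.{0}} (ha : a < Ordinal.epsilon 0) (k : Ordinal.{0}) (hk : k ≤ 1) :
    (2 : Ordinal.{0}) * a + k < Ordinal.epsilon 0 := by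
  have e1 : (ω : Ordinal.{0}) ^ (ω ^ (Ordinal.epsilon 0)) = Ordinal.epsilon 0 := by
    rw [omega0_opow_epsilon, omega0_opow_epsilon]
  have h2 : (2 : Ordinal.{0}) < Ordinal.epsilon 0 := by
    have := natCast_lt_epsilon 2 0
    exact_mod_cast this
  have h1 : (1 : Ordinal.{0}) < Ordinal.epsilon 0 := by
    have := natCast_lt_epsilon 1 0
    exact_mod_cast this
  have hm : (2 : Ordinal.{0}) * a < Ordinal.epsilon 0 := by
    have := isPrincipal_mul_omega0_opow_opow (Ordinal.epsilon 0)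
    rw [e1] at this
    exact this h2 ha
  have hp := isPrincipal_add_omega0_opow (Ordinal.epsilon 0)
  rw [omega0_opow_epsilon] at hp
  exact hp hm (lt_of_le_of_lt hk h1)

private theorem two_mul_lt_OR {a b : Ordinal.{0}} (h : a < b) (k k' : Ordinal.{0}) (hk : k ≤ 1) :
    (2 : Ordinal.{0}) * a + k < 2 * b + k' := by
  have h1 : a + 1 ≤ b := Order.add_one_le_of_lt h
  calc (2 : Ordinal.{0}) * a + k ≤ 2 * a + 1 := by gcongr
    _ < 2 * a + 2 := by
      have : (1 : Ordinal.{0}) < 2 := one_lt_two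
      gcongr
    _ = 2 * (a + 1) := by rw [mul_add, mul_one]
    _ ≤ 2 * b := by gcongr
    _ ≤ 2 * b + k' := le_self_add

/-- **OR** -/
theorem hOR (hDP : StDP) (hDC : StDC) (hDN : StDN) (hCB : StCB) : StOR := by
  classical
  intro A₁ A₂ _ _ _ _ f f' n n' r r' sd sd' hd hd'
  have hk : ∀ sd : Bool → Prop, (if sd false ∧ sd true then (1 : Ordinal.{0}) else 0) ≤ 1 := by
    intro sd
    split_ifs
    · exact le_rfl
    · exact zero_le_one
  refine ⟨?_, ?_⟩
  · unfold ordD
    exact lt_eps_OR ((hCB n).2.1 r) _ (hk sd)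
  intro hff hnff
  obtain ⟨N, hNa, hNb⟩ : ∃ N : ℕ, n ≤ N ∧ n' ≤ N := ⟨max n n', le_max_left _ _, le_max_right _ _⟩
  obtain ⟨r₁, hd₁, e₁⟩ := pad_OR hDP hCB f n r sd hd N hNa
  obtain ⟨r₁', hd₁', e₁'⟩ := pad_OR hDP hCB f' n' r' sd' hd' N hNb
  unfold ordD
  rw [← e₁, ← e₁']
  rcases lt_trichotomy r₁ r₁' with hlt | heq | hgt
  · exact two_mul_lt_OR ((hCB N).1 r₁ r₁' hd₁.wf hd₁'.wf hlt) _ _ (hk sd)
  · subst heq
    by_cases h2 : sd false ∧ sd true
    · exfalso
      apply hnff
      refine hDC A₂ A₁ f' f N r₁ r₁ sd' sd hd₁' hd₁ (Or.inr ⟨rfl, ?_⟩)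
      rintro (_ | _) _
      · exact h2.1
      · exact h2.2
    · by_cases h2' : sd' false ∧ sd' true
      · rw [if_neg h2, if_pos h2', add_zero]
        exact lt_add_of_pos_right _ zero_lt_one
      · exfalso
        apply hnff
        obtain ⟨s, hs⟩ := hd₁.side
        obtain ⟨s', hs'⟩ := hd₁'.side
        by_cases hss : s = s'
        · subst hss
          refine hDC A₂ A₁ f' f N r₁ r₁ sd' sd hd₁' hd₁ (Or.inr ⟨rfl, ?_⟩)
          intro t ht
          by_cases hts : t = s
          · rw [hts]; exact hs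
          · exfalso
            apply h2'
            cases s <;> cases t <;> simp_all
        · have hN1 : Dat (fun t => !(f' t)) N r₁ (fun s => sd' (!s)) := hDN A₂ f' N r₁ sd' hd₁'
          have hw : WRed (fun t => !(f' t)) f := by
            refine hDC A₂ A₁ _ f N r₁ r₁ _ sd hN1 hd₁ (Or.inr ⟨rfl, ?_⟩)
            intro t ht
            by_cases hts : t = s
            · rw [hts]; exact hs
            · exfalso
              apply h2'
              cases s <;> cases t <;> cases s' <;> simp_all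
          have h3 : WRed (fun t => !(f' t)) f' := wred_trans_OR hw hff
          have h4 : WRed f' (fun t => !(f' t)) := by
            have := wred_compl_OR h3
            simpa using this
          exact wred_trans_OR h4 hw
  · exfalso
    exact hnff (hDC A₂ A₁ f' f N r₁' r₁ sd' sd hd₁' hd₁ (Or.inl hgt))

end Pool.Agent.Helper24.WH
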