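import Pool.Agent.Helper24.WH.St5

/-!
# Module PA of project WH: padding
-/

set_option autoImplicit false

namespace Pool.Agent.Helper24.WH

open Set TopologicalSpace Topology
open Ordinal hiding univ

/-- `HomOp` for the intersection with a clopen set -/
private theorem hom_clp_PA {X : Type} (τ : TopologicalSpace X) (F : Set X) (hF : IsClosed[τ] F) (B : Set X) :
    HomOp τ (fun Y => Y ∩ F) B = B ∩ F := by
  apply Set.Subset.antisymm
  · rintro x ⟨W, ⟨hWB, hW⟩, hx⟩
    refine ⟨hWB hx, ?_⟩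
    have h1 : closure[τ] (W ∩ F) ⊆ F := by
      have := @closure_mono X τ _ _ (Set.inter_subset_right : W ∩ F ⊆ F)
      rwa [@IsClosed.closure_eq X τ _ hF] at this
    exact h1 (hW hx)
  · intro x hx
    refine ⟨B ∩ F, ⟨Set.inter_subset_left, ?_⟩, hx⟩
    intro y hy
    apply @subset_closure X τ
    exact ⟨hy, hy.2⟩

private theorem iter_zero_PA {X : Type} (d : Set X → Set X) (B : Set X) : iter d B 0 = B := by
  rw [iter]
  ext x
  constructor
  · exact fun h => h.1
  · intro h
    refine ⟨h, ?_⟩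
    rw [Set.mem_iInter]
    rintro ⟨β, hβ⟩
    exact absurd (Set.mem_Iio.mp hβ) (not_lt.mpr zero_le)

private theorem iter_one_PA {X : Type} (d : Set X → Set X) (hd : ∀ B, d B ⊆ B) (B : Set X) :
    iter d B 1 = d B := by
  rw [iter]
  ext x
  constructor
  · rintro ⟨h1, h2⟩
    rw [Set.mem_iInter] at h2
    have := h2 ⟨0, by simp⟩
    simpa [iter_zero_PA] using this
  · intro h
    refine ⟨hd B h, ?_⟩
    rw [Set.mem_iInter]
    rintro ⟨β, hβ⟩
    have hβ0 : β = 0 := Order.lt_one_iff.mp hβ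
    subst hβ0
    simpa [iter_zero_PA] using h

private theorem delOf_congr_PA {X : Type} (τ : TopologicalSpace X) (m : ℕ)
    (z' : Cd (m + 1) → Bool → Set X → Set X) (z : Cd m → Bool → Set X → Set X) (HCB : StCB)
    (hz : ∀ c : Cd m, Cd.wf m c → Cd.vd m c → ∀ s, z' (Cd.up m c) s = z c s)
    (c : Cd m) (hc : Cd.wf m c) (Y : Set X) :
    delOf τ (m + 1) z' (Cd.up m c) Y = delOf τ m z c Y := by
  obtain ⟨-, -, -, -, -, hlt, hwf, hvd, -, hinit, -⟩ := HCB m
  have hle : ∀ a b : Cd m, a ≤ b ↔ Cd.up m a ≤ Cd.up m b := by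
    intro a b
    rw [← not_lt, ← not_lt, hlt]
  unfold delOf
  ext x
  constructor
  · rintro ⟨h1, h2⟩
    refine ⟨h1, ?_⟩
    simp only [Set.mem_iInter] at h2 ⊢
    intro c₀ hc₀ s
    have := h2 (Cd.up m c₀) ⟨hwf c₀ hc₀.1, (hvd c₀).1 hc₀.2.1, (hle _ _).1 hc₀.2.2⟩ s
    rwa [hz c₀ hc₀.1 hc₀.2.1 s] at this
  · rintro ⟨h1, h2⟩
    refine ⟨h1, ?_⟩
    simp only [Set.mem_iInter] at h2 ⊢
    intro c' hc' s
    obtain ⟨c₀, hc₀, rfl⟩ := hinit c c' hc hc'.1 hc'.2.2
    rw [hz c₀ hc₀ ((hvd c₀).2 hc'.2.1) s]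
    exact h2 c₀ ⟨hc₀, (hvd c₀).2 hc'.2.1, (hle _ _).2 hc'.2.2⟩ s

private theorem foldV_congr_PA {X : Type} (τ : TopologicalSpace X) (m : ℕ)
    (z' : Cd (m + 1) → Bool → Set X → Set X) (z : Cd m → Bool → Set X → Set X) (HCB : StCB)
    (hz : ∀ c : Cd m, Cd.wf m c → Cd.vd m c → ∀ s, z' (Cd.up m c) s = z c s)
    (l : List (Cd m ×ₗ ℕ)) : (∀ e ∈ l, Cd.wf m (ofLex e).1) → ∀ B : Set X,
    foldV τ (m + 1) z' (l.map (fun e => (toLex (Cd.up m (ofLex e).1, (ofLex e).2) : Cd (m + 1) ×ₗ ℕ))) B =
      foldV τ m z l B := by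
  induction l with
  | nil => intro _ B; rfl
  | cons e l ih =>
    intro hl B
    have h1 : delOf τ (m + 1) z' (Cd.up m (ofLex e).1) = delOf τ m z (ofLex e).1 := by
      funext Y
      exact delOf_congr_PA τ m z' z HCB hz _ (hl e (by simp)) Y
    have h2 := ih (fun e' he' => hl e' (by simp [he']))
    unfold foldV at h2 ⊢
    simp only [List.map_cons, List.foldl_cons]
    rw [h2]
    have h3 : (ofLex (toLex (Cd.up m (ofLex e).1, (ofLex e).2) : Cd (m + 1) ×ₗ ℕ)).1 = Cd.up m (ofLex e).1 := rfl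
    have h4 : (ofLex (toLex (Cd.up m (ofLex e).1, (ofLex e).2) : Cd (m + 1) ×ₗ ℕ)).2 = (ofLex e).2 := rfl
    rw [h3, h4, h1]

/-- the operators of the padded tower -/
private theorem pad_ops_PA (HCB : StCB) {X : Type} (τ : ℕ → TopologicalSpace X) (f : X → Bool)
    (hf : ∀ s, Clp (τ 0) (f ⁻¹' {s})) : ∀ (m : ℕ) (c : Cd m), Cd.wf m c →
    (∀ B : Set X, Vo (padT τ) f (m + 1) (Cd.up m c) B = Vo τ f m c B) ∧
      (Cd.vd m c → ∀ s, Zo (padT τ) f (m + 1) (Cd.up m c) s = Zo τ f m c s) := by
  intro m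
  induction m with
  | zero =>
    intro c _
    have hH : ∀ s, ∀ B : Set X, HomOp (padT τ 1) ((VZ (padT τ) f 0).2 c s) B = B ∩ f ⁻¹' {s} := by
      intro s B
      exact hom_clp_PA (τ 0) (f ⁻¹' {s}) (hf s).1 B
    have hH' : ∀ (c : Cd 0) s, ∀ B : Set X, HomOp (padT τ 1) ((VZ (padT τ) f 0).2 c s) B = B ∩ f ⁻¹' {s} := by
      intro c s B
      exact hom_clp_PA (τ 0) (f ⁻¹' {s}) (hf s).1 B
    cases hcb : Cd.B c with
    | false =>
      have hup : Cd.up 0 c = Cd.of [] := by
        simp [Cd.up, hcb]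
      refine ⟨?_, ?_⟩
      · intro B
        rw [hup]
        have h1 : Vo (padT τ) f (0 + 1) (Cd.of []) B = B := rfl
        rw [h1]
        show B = {x ∈ B | Cd.B c = false}
        ext x
        simp [hcb]
      · intro hv
        exact absurd hv (by simp [Cd.vd, hcb])
    | true =>
      have hup : Cd.up 0 c = Cd.of [toLex (c, 0)] := by
        simp [Cd.up, hcb]
      refine ⟨?_, ?_⟩
      · intro B
        rw [hup]
        have h1 : Vo (padT τ) f (0 + 1) (Cd.of [toLex (c, 0)]) B =
          iter (delOf (padT τ 1) 0 (VZ (padT τ) f 0).2 c) B (ω ^ ((0 : ℕ) : Ordinal.{0})) := rfl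
        have h2 : (ω ^ ((0 : ℕ) : Ordinal.{0}) : Ordinal.{0}) = 1 := by simp
        rw [h1, h2, iter_one_PA _ (fun Y => by unfold delOf; exact Set.inter_subset_left)]
        have h3 : Vo τ f 0 c B = ∅ := by
          show {x ∈ B | Cd.B c = false} = ∅
          ext x
          simp [hcb]
        rw [h3]
        unfold delOf
        rw [Set.eq_empty_iff_forall_notMem]
        rintro x ⟨hx, hx2⟩
        simp only [Set.mem_iInter] at hx2
        have h4 := hx2 c ⟨trivial, hcb, le_refl _⟩ false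
        have h5 := hx2 c ⟨trivial, hcb, le_refl _⟩ true
        rw [hH] at h4 h5
        have h6 : f x = false := h4.2
        have h7 : f x = true := h5.2
        rw [h6] at h7
        exact Bool.noConfusion h7
      · intro _ s
        funext B
        rw [hup]
        have h1 : Zo (padT τ) f (0 + 1) (Cd.of [toLex (c, 0)]) s B =
          HomOp (padT τ 1) ((VZ (padT τ) f 0).2 c s) B := rfl
        rw [h1, hH]
        rfl
  | succ m ih =>
    intro l hl
    have hz : ∀ c : Cd m, Cd.wf m c → Cd.vd m c → ∀ s,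
        (VZ (padT τ) f (m + 1)).2 (Cd.up m c) s = (VZ τ f m).2 c s := by
      intro c hc hv s
      exact (ih c hc).2 hv s
    have hl2 : ∀ e ∈ Cd.L l, Cd.wf m (ofLex e).1 := fun e he => (hl.2 e he).1
    refine ⟨?_, ?_⟩
    · intro B
      exact foldV_congr_PA (τ (m + 1)) m _ _ HCB hz (Cd.L l) hl2 B
    · rintro ⟨l₀, c, hlc, hcv⟩ s
      funext B
      have hcw : Cd.wf m c := by
        have := hl2 (toLex (c, 0)) (by rw [hlc]; simp)
        exact this
      have hl0 : ∀ e ∈ l₀, Cd.wf m (ofLex e).1 := fun e he => hl2 e (by rw [hlc]; simp [he])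
      have hup : Cd.L (Cd.up (m + 1) l) =
          l₀.map (fun e => (toLex (Cd.up m (ofLex e).1, (ofLex e).2) : Cd (m + 1) ×ₗ ℕ)) ++
            [(toLex (Cd.up m c, 0) : Cd (m + 1) ×ₗ ℕ)] := by
        show (Cd.L l).map (fun e => (toLex (Cd.up m (ofLex e).1, (ofLex e).2) : Cd (m + 1) ×ₗ ℕ)) = _
        rw [hlc, List.map_append]
        rfl
      have h1 : Zo (padT τ) f (m + 1 + 1) (Cd.up (m + 1) l) s B =
        HomOp (τ (m + 1)) ((VZ (padT τ) f (m + 1)).2 (lastc (Cd.L (Cd.up (m + 1) l))) s)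
          (foldV (τ (m + 1)) (m + 1) (VZ (padT τ) f (m + 1)).2 ((Cd.L (Cd.up (m + 1) l)).dropLast) B) := rfl
      have h2 : Zo τ f (m + 1) l s B =
        HomOp (τ (m + 1)) ((VZ τ f m).2 (lastc (Cd.L l)) s)
          (foldV (τ (m + 1)) m (VZ τ f m).2 ((Cd.L l).dropLast) B) := rfl
      rw [h1, h2, hup, hlc]
      have h3 : lastc (l₀ ++ [(toLex (c, 0) : Cd m ×ₗ ℕ)]) = c := by
        unfold lastc
        rw [List.getLast?_append]
        rfl
      have h4 : lastc (l₀.map (fun e => (toLex (Cd.up m (ofLex e).1, (ofLex e).2) : Cd (m + 1) ×ₗ ℕ)) ++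
            [(toLex (Cd.up m c, 0) : Cd (m + 1) ×ₗ ℕ)]) = Cd.up m c := by
        unfold lastc
        rw [List.getLast?_append]
        rfl
      rw [h3, h4, List.dropLast_concat, List.dropLast_concat, hz c hcw hcv s,
        foldV_congr_PA (τ (m + 1)) m _ _ HCB hz l₀ hl0 B]

theorem hPA (HRA : StRA) (HCB : StCB) : StPA := by
  intro X n τ P f R
  have hops := pad_ops_PA HCB τ f R.fib
  have hfb : ∀ (m : ℕ) (c : Cd m) (B : Set X), Cd.wf m c → Vo (padT τ) f (m + 1) (Cd.up m c) B = Vo τ f m c B ∧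
    (Cd.vd m c → ∀ s, Zo (padT τ) f (m + 1) (Cd.up m c) s B = Zo τ f m c s B) := by
    intro m c B hc
    exact ⟨(hops m c hc).1 B, fun hv s => congrFun ((hops m c hc).2 hv s) B⟩
  refine ⟨?_, hfb⟩
  -- dichotomy
  have hdi : ∀ (m : ℕ) (c₀ : Cd m) (c : Cd (m + 1)), Cd.wf m c₀ → Cd.wf (m + 1) c →
      (∃ c₁ : Cd m, Cd.wf m c₁ ∧ c = Cd.up m c₁) ∨ Cd.up m c₀ < c := by
    intro m c₀ c h0 hc
    rcases lt_or_ge (Cd.up m c₀) c with h | h
    · exact Or.inr h
    · exact Or.inl ((HCB m).2.2.2.2.2.2.2.2.2.1 c₀ c h0 hc h)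
  have hwf : ∀ (m : ℕ) (c : Cd m), Cd.wf m c → Cd.wf (m + 1) (Cd.up m c) := fun m => (HCB m).2.2.2.2.2.2.1
  have hvd : ∀ (m : ℕ) (c : Cd m), Cd.vd m c ↔ Cd.vd (m + 1) (Cd.up m c) := fun m => (HCB m).2.2.2.2.2.2.2.1
  have hlt : ∀ (m : ℕ) (c c' : Cd m), c < c' ↔ Cd.up m c < Cd.up m c' := fun m => (HCB m).2.2.2.2.2.1
  have hVm : ∀ (m : ℕ) (c c' : Cd m) (B : Set X), Cd.wf m c → Cd.wf m c' → c ≤ c' →
      Vo (padT τ) f m c' B ⊆ Vo (padT τ) f m c B := fun m => (HRA X (padT τ) f m).2.2.2.2.2.2.2.1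
  have hZV : ∀ (m : ℕ) (r c : Cd m) (s : Bool) (B : Set X), Cd.wf m r → Cd.vd m r → Cd.wf m c → c < r →
      Zo (padT τ) f m r s B ⊆ Vo (padT τ) f m c B := fun m => (HRA X (padT τ) f m).2.2.2.2.2.2.2.2.1
  exact {
    tow := by
      refine ⟨?_, ?_⟩
      · intro m
        cases m with
        | zero => exact le_refl _
        | succ m => exact R.tow.mono m
      · intro m
        cases m with
        | zero => exact R.tow.zd 0
        | succ m => exact R.tow.zd m
    fib := R.fib
    top := by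
      intro M hM
      cases M with
      | zero => exact absurd hM (by omega)
      | succ M => exact R.top M (by omega)
    anti := by
      intro M
      cases M with
      | zero => exact Set.Subset.refl _
      | succ M => exact R.anti M
    cl := by
      intro M hM B hB
      cases M with
      | zero => exact R.cl 0 (by omega) B hB
      | succ M => exact R.cl M (by omega) B hB
    op := by
      intro M hM B hB
      cases M with
      | zero => exact R.op0 B hB
      | succ M => exact R.op M (by omega) B hB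
    op0 := R.op0
    basis := by
      intro M hM x U hU hx
      cases M with
      | zero =>
        obtain ⟨O, hO, h1, h2⟩ := R.basis 0 (by omega) x U hU hx
        exact ⟨O, R.anti 0 hO, h1, h2⟩
      | succ M => exact R.basis M (by omega) x U hU hx
    cnt := by
      intro M
      cases M with
      | zero => exact R.cnt 0
      | succ M => exact R.cnt M
    univ := by
      intro M
      cases M with
      | zero => exact R.univ 0
      | succ M => exact R.univ M
    empty := by
      intro M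
      cases M with
      | zero => exact R.empty 0
      | succ M => exact R.empty M
    inter := by
      intro M B hB B' hB'
      cases M with
      | zero => exact R.inter 0 B hB B' hB'
      | succ M => exact R.inter M B hB B' hB'
    union := by
      intro M B hB B' hB'
      cases M with
      | zero => exact R.union 0 B hB B' hB'
      | succ M => exact R.union M B hB B' hB'
    clo := by
      intro M hM B hB
      cases M with
      | zero => exact R.clo 0 (by omega) B hB
      | succ M => exact R.clo M (by omega) B hB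
    fP := R.fP
    VP := by
      intro m hm c hc B hB
      cases m with
      | zero => exact R.VP 0 (by omega) c hc B hB
      | succ m =>
        obtain ⟨c₀, hc₀, hemp⟩ := R.tm m (by omega)
        rcases hdi m c₀ c hc₀ hc with ⟨c₁, hc₁, rfl⟩ | h
        · rw [(hfb m c₁ B hc₁).1]
          exact R.VP m (by omega) c₁ hc₁ B hB
        · have h1 : Vo (padT τ) f (m + 1) c B ⊆ ∅ := by
            rw [← hemp B hB, ← (hfb m c₀ B hc₀).1]
            exact hVm (m + 1) _ _ B (hwf m c₀ hc₀) hc h.le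
          rw [Set.subset_empty_iff] at h1
          rw [h1]
          exact R.empty m
    ZP := by
      intro m hm c hc hv s B hB
      cases m with
      | zero => exact R.ZP 0 (by omega) c hc hv s B hB
      | succ m =>
        obtain ⟨c₀, hc₀, hemp⟩ := R.tm m (by omega)
        rcases hdi m c₀ c hc₀ hc with ⟨c₁, hc₁, rfl⟩ | h
        · have hv1 := (hvd m c₁).2 hv
          rw [(hfb m c₁ B hc₁).2 hv1 s]
          exact R.ZP m (by omega) c₁ hc₁ hv1 s B hB
        · have h1 : Zo (padT τ) f (m + 1) c s B ⊆ ∅ := by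
            rw [← hemp B hB, ← (hfb m c₀ B hc₀).1]
            exact hZV (m + 1) _ _ s B hc hv (hwf m c₀ hc₀) h
          rw [Set.subset_empty_iff] at h1
          rw [h1]
          exact R.empty m
    us := by
      intro m hm r hr hv
      cases m with
      | zero => exact R.us 0 (by omega) r hr hv
      | succ m =>
        obtain ⟨c₀, hc₀, hemp⟩ := R.tm m (by omega)
        rcases hdi m c₀ r hc₀ hr with ⟨r₁, hr₁, rfl⟩ | h
        · have hv1 := (hvd m r₁).2 hv
          obtain ⟨c, hc, hcr, hV⟩ := R.us m (by omega) r₁ hr₁ hv1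
          refine ⟨Cd.up m c, hwf m c hc, (hlt m c r₁).1 hcr, ?_⟩
          intro B hB
          rw [(hfb m c B hc).1, (hfb m r₁ B hr₁).2 hv1 false, (hfb m r₁ B hr₁).2 hv1 true]
          exact hV B hB
        · refine ⟨Cd.up m c₀, hwf m c₀ hc₀, h, ?_⟩
          intro B hB
          rw [(hfb m c₀ B hc₀).1, hemp B hB]
          exact Set.empty_subset _
    tm := by
      intro m hm
      cases m with
      | zero => exact R.tm 0 (by omega)
      | succ m =>
        obtain ⟨c₀, hc₀, hemp⟩ := R.tm m (by omega)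
        refine ⟨Cd.up m c₀, hwf m c₀ hc₀, ?_⟩
        intro B hB
        rw [(hfb m c₀ B hc₀).1, hemp B hB]
    pol := R.pol }

end Pool.Agent.Helper24.WH
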