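import Pool.Agent.Helper24.WH.St4

/-!
# Project WH, module PI: closure properties of the pieces
-/

set_option autoImplicit false

namespace Pool.Agent.Helper24.WH

open Set TopologicalSpace Topology
open Ordinal hiding univ

private lemma mkinj_PI {A : Type} {a b : A} {p q : Tre A × Tre A} (h : Tre.mk a p = Tre.mk b q) :
    a = b ∧ p = q := by
  refine ⟨congrFun h [], Prod.ext ?_ ?_⟩
  · funext v
    exact congrFun h (false :: v)
  · funext v
    exact congrFun h (true :: v)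

private lemma inj_PI {A : Type} (a : A) : Function.Injective (Tre.mk a) :=
  fun _ _ h => (mkinj_PI h).2

private lemma mk_eta_PI {A : Type} (t : Tre A) :
    Tre.mk (t []) (t.sub [false], t.sub [true]) = t := by
  funext v
  rcases v with _ | ⟨_ | _, v⟩ <;> rfl

private lemma univ_PI {A S : Type} (n : ℕ) (g : Tre A → S) (h : ℕ) : Pc n g h univ := by
  have h1 : GN n g (.nil : Nm S) h 0 := by
    simp only [GN, Good]
  have h2 := Pc.nm (n := n) (g := g) (h := h) (.nil : Nm S) 0 h1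
  have h3 : vl n g (.nil : Nm S) = univ := by
    simp only [vl, val]
  rwa [h3] at h2

private lemma iUnion_PI {A S : Type} {n : ℕ} {g : Tre A → S} {h : ℕ} {ι : Type} [Finite ι]
    (C : ι → Set (Tre A)) (hC : ∀ q, Pc n g h (C q)) : Pc n g h (⋃ q, C q) := by
  have key : ∀ s : Set ι, s.Finite → Pc n g h (⋃ q ∈ s, C q) := by
    intro s hs
    refine Set.Finite.induction_on s hs ?_ ?_
    · simpa using Pc.empty
    · intro a s _ _ ih
      rw [biUnion_insert]
      exact Pc.union _ _ (hC a) ih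
  simpa using key univ finite_univ

private lemma nmInter_PI (hSG : StSG) (hSU : StSU) {A S : Type} [Finite A] [Finite S] {n : ℕ}
    {g : Tre A → S} {Ga : A → S × S → S} (hyp : Hyp n g Ga) {h : ℕ} {B : Set (Tre A)}
    (hB : Pc n g h B) : ∀ (N : Nm S) (i : Ordinal.{0}), GN n g N h i → Pc n g h (vl n g N ∩ B) := by
  obtain ⟨-, hmon, -, -, -, -, -, -, hint⟩ := hSU A S n g
  obtain ⟨-, hname⟩ := hSG A S n g Ga hyp
  induction hB with
  | nm N' i' hN' =>
    intro N i hN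
    obtain ⟨N'', h1, h2⟩ := hint N N' h (max i i') (hmon N h h i _ le_rfl (le_max_left _ _) hN)
      (hmon N' h h i' _ le_rfl (le_max_right _ _) hN')
    rw [← h2]
    exact Pc.nm N'' _ h1
  | mk a C₀ C₁ _ _ ih₀ ih₁ =>
    intro N i hN
    obtain ⟨-, hsp⟩ := hname N h i hN
    obtain ⟨k, N₀, N₁, hGN, hsplit⟩ := hsp a
    have h3 : vl n g N ∩ Tre.mk a '' (C₀ ×ˢ C₁) =
        ⋃ q, Tre.mk a '' ((vl n g (N₀ q) ∩ C₀) ×ˢ (vl n g (N₁ q) ∩ C₁)) := by
      have e1 : vl n g N ∩ Tre.mk a '' (C₀ ×ˢ C₁) =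
          (vl n g N ∩ range (Tre.mk a)) ∩ Tre.mk a '' (C₀ ×ˢ C₁) := by
        rw [inter_assoc, inter_eq_right.mpr (image_subset_range (Tre.mk a) (C₀ ×ˢ C₁))]
      rw [e1, hsplit, iUnion_inter]
      refine iUnion_congr fun q => ?_
      rw [← image_inter (inj_PI a), prod_inter_prod]
    rw [h3]
    exact iUnion_PI _ fun q => Pc.mk a _ _ (ih₀ (N₀ q) i (hGN q).1) (ih₁ (N₁ q) i (hGN q).2)
  | union C₀ C₁ _ _ ih₀ ih₁ =>
    intro N i hN
    rw [inter_union_distrib_left]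
    exact Pc.union _ _ (ih₀ N i hN) (ih₁ N i hN)
  | empty =>
    intro N i hN
    rw [inter_empty]
    exact Pc.empty

private lemma inter_PI (hSG : StSG) (hSU : StSU) {A S : Type} [Finite A] [Finite S] {n : ℕ}
    {g : Tre A → S} {Ga : A → S × S → S} (hyp : Hyp n g Ga) {h : ℕ} {B : Set (Tre A)}
    (hB : Pc n g h B) : ∀ B', Pc n g h B' → Pc n g h (B ∩ B') := by
  induction hB with
  | nm N i hN => exact fun B' hB' => nmInter_PI hSG hSU hyp hB' N i hN
  | mk a C₀ C₁ h₀ h₁ ih₀ ih₁ =>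
    intro B' hB'
    induction hB' with
    | nm N i hN =>
      rw [inter_comm]
      exact nmInter_PI hSG hSU hyp (Pc.mk a C₀ C₁ h₀ h₁) N i hN
    | mk b D₀ D₁ k₀ k₁ _ _ =>
      by_cases hab : a = b
      · subst hab
        rw [← image_inter (inj_PI a), prod_inter_prod]
        exact Pc.mk a _ _ (ih₀ _ k₀) (ih₁ _ k₁)
      · have h4 : Tre.mk a '' (C₀ ×ˢ C₁) ∩ Tre.mk b '' (D₀ ×ˢ D₁) = ∅ := by
          refine eq_empty_iff_forall_notMem.mpr ?_
          rintro t ⟨⟨p, _, rfl⟩, ⟨q, _, hq⟩⟩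
          exact hab (mkinj_PI hq).1.symm
        rw [h4]
        exact Pc.empty
    | union D₀ D₁ _ _ jh₀ jh₁ =>
      rw [inter_union_distrib_left]
      exact Pc.union _ _ jh₀ jh₁
    | empty =>
      rw [inter_empty]
      exact Pc.empty
  | union C₀ C₁ _ _ ih₀ ih₁ =>
    intro B' hB'
    rw [union_inter_distrib_right]
    exact Pc.union _ _ (ih₀ B' hB') (ih₁ B' hB')
  | empty =>
    intro B' _
    rw [empty_inter]
    exact Pc.empty

private lemma anti_PI (hSU : StSU) {A S : Type} [Finite A] [Finite S] {n : ℕ}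
    {g : Tre A → S} {h : ℕ} {B : Set (Tre A)}
    (hB : Pc n g (h + 1) B) : Pc n g h B := by
  obtain ⟨-, hmon, -⟩ := hSU A S n g
  induction hB with
  | nm N i hN => exact Pc.nm N i (hmon N (h + 1) h i i (Nat.le_succ h) le_rfl hN)
  | mk a C₀ C₁ _ _ ih₀ ih₁ => exact Pc.mk a _ _ ih₀ ih₁
  | union C₀ C₁ _ _ ih₀ ih₁ => exact Pc.union _ _ ih₀ ih₁
  | empty => exact Pc.empty

/-- levels of the closure of a family under unions and `mk` -/
private def lev_PI {A : Type} (V : Set (Set (Tre A))) : ℕ → Set (Set (Tre A))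
  | 0 => V ∪ {∅}
  | (k + 1) => lev_PI V k ∪ (image2 (fun C D => C ∪ D) (lev_PI V k) (lev_PI V k) ∪
      ⋃ a : A, image2 (fun C D => Tre.mk a '' (C ×ˢ D)) (lev_PI V k) (lev_PI V k))

private lemma lev_cnt_PI {A : Type} [Finite A] {V : Set (Set (Tre A))} (hV : V.Countable) (k : ℕ) :
    (lev_PI V k).Countable := by
  induction k with
  | zero => exact hV.union (countable_singleton _)
  | succ k ih =>
    have hc : Countable A := Finite.to_countable
    exact ih.union ((ih.image2 ih _).union (countable_iUnion fun a => ih.image2 ih _))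

private lemma lev_mono_PI {A : Type} (V : Set (Set (Tre A))) {k l : ℕ} (hkl : k ≤ l) :
    lev_PI V k ⊆ lev_PI V l := by
  induction l, hkl using Nat.le_induction with
  | base => exact Subset.rfl
  | succ l _ ih => exact ih.trans subset_union_left

private lemma countable_PI (hCN : StCN) {A S : Type} [Finite A] [Finite S] {n : ℕ}
    {g : Tre A → S} {Ga : A → S × S → S} (hyp : Hyp n g Ga) (h : ℕ) :
    {B | Pc n g h B}.Countable := by
  have hV := hCN A S n g Ga hyp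
  refine Countable.mono ?_ (countable_iUnion fun k => lev_cnt_PI hV k)
  intro B hB
  replace hB : Pc n g h B := hB
  rw [mem_iUnion]
  induction hB with
  | nm N i hN => exact ⟨0, Or.inl ⟨N, h, i, hN, rfl⟩⟩
  | mk a C₀ C₁ _ _ ih₀ ih₁ =>
    obtain ⟨k₀, h₀⟩ := ih₀
    obtain ⟨k₁, h₁⟩ := ih₁
    refine ⟨max k₀ k₁ + 1, Or.inr (Or.inr (mem_iUnion.mpr ⟨a, ?_⟩))⟩
    exact mem_image2_of_mem (lev_mono_PI _ (le_max_left _ _) h₀)
      (lev_mono_PI _ (le_max_right _ _) h₁)
  | union C₀ C₁ _ _ ih₀ ih₁ =>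
    obtain ⟨k₀, h₀⟩ := ih₀
    obtain ⟨k₁, h₁⟩ := ih₁
    refine ⟨max k₀ k₁ + 1, Or.inr (Or.inl ?_)⟩
    exact mem_image2_of_mem (lev_mono_PI _ (le_max_left _ _) h₀)
      (lev_mono_PI _ (le_max_right _ _) h₁)
  | empty => exact ⟨0, Or.inr rfl⟩

private lemma sub1_PI {A S : Type} [Finite A] {n : ℕ} {g : Tre A → S} {h : ℕ} {B : Set (Tre A)}
    (hB : Pc n g h B) (b : Bool) : Pc n g h {t : Tre A | t.sub [b] ∈ B} := by
  cases b with
  | false =>
    have h1 : {t : Tre A | t.sub [false] ∈ B} = ⋃ a : A, Tre.mk a '' (B ×ˢ univ) := by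
      ext t
      simp only [mem_iUnion]
      constructor
      · intro ht
        exact ⟨t [], (t.sub [false], t.sub [true]), ⟨ht, mem_univ _⟩, mk_eta_PI t⟩
      · rintro ⟨a, p, ⟨hp, -⟩, rfl⟩
        exact hp
    rw [h1]
    exact iUnion_PI _ fun a => Pc.mk a _ _ hB (univ_PI n g h)
  | true =>
    have h1 : {t : Tre A | t.sub [true] ∈ B} = ⋃ a : A, Tre.mk a '' (univ ×ˢ B) := by
      ext t
      simp only [mem_iUnion]
      constructor
      · intro ht
        exact ⟨t [], (t.sub [false], t.sub [true]), ⟨mem_univ _, ht⟩, mk_eta_PI t⟩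
      · rintro ⟨a, p, ⟨-, hp⟩, rfl⟩
        exact hp
    rw [h1]
    exact iUnion_PI _ fun a => Pc.mk a _ _ (univ_PI n g h) hB

private lemma sub_PI {A S : Type} [Finite A] {n : ℕ} {g : Tre A → S} {h : ℕ} (u : List Bool) :
    ∀ {B : Set (Tre A)}, Pc n g h B → Pc n g h {t : Tre A | t.sub u ∈ B} := by
  induction u with
  | nil => exact fun hB => hB
  | cons b u ih => exact fun hB => sub1_PI (ih hB) b

private lemma closed_PI {X Y : Type} {τX : TopologicalSpace X} {τY : TopologicalSpace Y} {e : X → Y}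
    (h : CE τX τY e) {B : Set X} (hB : IsClosed[τX] B) : IsClosed[τY] (e '' B) := by
  let := τX
  let := τY
  have h1 : IsClosedEmbedding e := ⟨⟨⟨h.2.1⟩, h.1⟩, h.2.2.1⟩
  exact h1.isClosedMap B hB

private lemma open_PI {X Y : Type} {τX : TopologicalSpace X} {τY : TopologicalSpace Y} {e : X → Y}
    (h : CE τX τY e) {B : Set X} (hB : IsOpen[τX] B) : IsOpen[τY] (e '' B) := by
  let := τX
  let := τY
  have h1 : IsOpenEmbedding e := ⟨⟨⟨h.2.1⟩, h.1⟩, h.2.2.2⟩
  exact h1.isOpenMap B hB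

private lemma prodClosed_PI {X : Type} (τ : TopologicalSpace X) {B C : Set X}
    (hB : IsClosed[τ] B) (hC : IsClosed[τ] C) :
    IsClosed[@instTopologicalSpaceProd X X τ τ] (B ×ˢ C) := by
  let := τ
  exact IsClosed.prod hB hC

private lemma prodOpen_PI {X : Type} (τ : TopologicalSpace X) {B C : Set X}
    (hB : IsOpen[τ] B) (hC : IsOpen[τ] C) :
    IsOpen[@instTopologicalSpaceProd X X τ τ] (B ×ˢ C) := by
  let := τ
  exact IsOpen.prod hB hC

private lemma unionClosed_PI {X : Type} (τ : TopologicalSpace X) {B C : Set X}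
    (hB : IsClosed[τ] B) (hC : IsClosed[τ] C) : IsClosed[τ] (B ∪ C) := by
  let := τ
  exact IsClosed.union hB hC

private lemma unionOpen_PI {X : Type} (τ : TopologicalSpace X) {B C : Set X}
    (hB : IsOpen[τ] B) (hC : IsOpen[τ] C) : IsOpen[τ] (B ∪ C) := by
  let := τ
  exact IsOpen.union hB hC

private lemma cl_PI (hSG : StSG) (hSU : StSU) {A S : Type} [Finite A] [Finite S] {n : ℕ}
    {g : Tre A → S} {Ga : A → S × S → S} (hyp : Hyp n g Ga) {h : ℕ} {B : Set (Tre A)}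
    (hB : Pc n g h B) : ∃ i, IsClosed[stg n g i h] B := by
  obtain ⟨-, -, -, hstg, -⟩ := hSU A S n g
  obtain ⟨hst, hname⟩ := hSG A S n g Ga hyp
  have up : ∀ (i j : Ordinal.{0}) (C : Set (Tre A)), i ≤ j → IsClosed[stg n g i h] C →
      IsClosed[stg n g j h] C := by
    intro i j C hij hC
    have h1 := (@isOpen_compl_iff _ C (stg n g i h)).mpr hC
    exact (@isOpen_compl_iff _ C (stg n g j h)).mp (hstg i j h hij _ h1)
  induction hB with
  | nm N i hN => exact ⟨i, (hname N h i hN).1⟩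
  | mk a C₀ C₁ _ _ ih₀ ih₁ =>
    obtain ⟨i₀, h₀⟩ := ih₀
    obtain ⟨i₁, h₁⟩ := ih₁
    refine ⟨max i₀ i₁, closed_PI ((hst (max i₀ i₁)).2.2 a h) (prodClosed_PI _ ?_ ?_)⟩
    · exact up _ _ _ (le_max_left _ _) h₀
    · exact up _ _ _ (le_max_right _ _) h₁
  | union C₀ C₁ _ _ ih₀ ih₁ =>
    obtain ⟨i₀, h₀⟩ := ih₀
    obtain ⟨i₁, h₁⟩ := ih₁
    refine ⟨max i₀ i₁, unionClosed_PI _ ?_ ?_⟩
    · exact up _ _ _ (le_max_left _ _) h₀
    · exact up _ _ _ (le_max_right _ _) h₁
  | empty => exact ⟨0, @isClosed_empty _ (stg n g 0 h)⟩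

private lemma op_PI (hSG : StSG) (hSU : StSU) {A S : Type} [Finite A] [Finite S] {n : ℕ}
    {g : Tre A → S} {Ga : A → S × S → S} (hyp : Hyp n g Ga) {h : ℕ} {B : Set (Tre A)}
    (hB : Pc n g (h + 1) B) : ∃ i, IsOpen[stg n g i h] B := by
  obtain ⟨-, -, -, hstg, -, -, -, hop, -⟩ := hSU A S n g
  obtain ⟨hst, -⟩ := hSG A S n g Ga hyp
  have up : ∀ (i j : Ordinal.{0}) (C : Set (Tre A)), i ≤ j → IsOpen[stg n g i h] C →
      IsOpen[stg n g j h] C := fun i j C hij hC => hstg i j h hij _ hC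
  induction hB with
  | nm N i hN => exact ⟨i, hop N i h hN⟩
  | mk a C₀ C₁ _ _ ih₀ ih₁ =>
    obtain ⟨i₀, h₀⟩ := ih₀
    obtain ⟨i₁, h₁⟩ := ih₁
    refine ⟨max i₀ i₁, open_PI ((hst (max i₀ i₁)).2.2 a h) (prodOpen_PI _ ?_ ?_)⟩
    · exact up _ _ _ (le_max_left _ _) h₀
    · exact up _ _ _ (le_max_right _ _) h₁
  | union C₀ C₁ _ _ ih₀ ih₁ =>
    obtain ⟨i₀, h₀⟩ := ih₀
    obtain ⟨i₁, h₁⟩ := ih₁
    refine ⟨max i₀ i₁, unionOpen_PI _ ?_ ?_⟩
    · exact up _ _ _ (le_max_left _ _) h₀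
    · exact up _ _ _ (le_max_right _ _) h₁
  | empty => exact ⟨0, @isOpen_empty _ (stg n g 0 h)⟩

private lemma cyl_PI {A S : Type} [Finite A] {n : ℕ} {g : Tre A → S} {h : ℕ} (u : List Bool)
    (a : A) : Pc n g h {t : Tre A | t u = a} := by
  have h1 : Pc n g h {t : Tre A | t [] = a} := by
    have h2 : {t : Tre A | t [] = a} = Tre.mk a '' (univ ×ˢ univ) := by
      ext t
      constructor
      · intro ht
        refine ⟨(t.sub [false], t.sub [true]), ⟨mem_univ _, mem_univ _⟩, ?_⟩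
        have h3 := mk_eta_PI t
        replace ht : t [] = a := ht
        rwa [ht] at h3
      · rintro ⟨p, -, rfl⟩
        rfl
    rw [h2]
    exact Pc.mk a _ _ (univ_PI n g h) (univ_PI n g h)
  have h4 := sub_PI u h1
  have h5 : {t : Tre A | t.sub u ∈ {t : Tre A | t [] = a}} = {t : Tre A | t u = a} := by
    ext t
    change t (u ++ []) = a ↔ t u = a
    rw [List.append_nil]
  rwa [h5] at h4

/-- **PI (4.7)** closure properties of the pieces -/
theorem hPI (hSG : StSG) (hSU : StSU) (hCN : StCN) : StPI := by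
  intro A S _ _ n g Ga hyp h
  refine ⟨fun B B' hB hB' => inter_PI hSG hSU hyp hB B' hB', fun B hB => anti_PI hSU hB,
    countable_PI hCN hyp h, fun B hB u => sub_PI u hB, fun B hB => cl_PI hSG hSU hyp hB,
    fun B hB => op_PI hSG hSU hyp hB, fun u a => cyl_PI u a⟩

end Pool.Agent.Helper24.WH
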