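import Pool.Agent.Helper24.WH.St4

set_option autoImplicit false

namespace Pool.Agent.Helper24.WH

open Set TopologicalSpace Topology
open Ordinal hiding univ

theorem hPL (hPR : StPR) (hNT : StNT) (hCN : StCN) (hSU : StSU) (hSG : StSG) : StPL := by
  intro A S _ _ n g Ga hyp i
  obtain ⟨-, -, hcont, -, -, -, -, -, -, hpol, -⟩ := hNT A
  obtain ⟨hstg, -, -, -, hmono, -, htop, -, -⟩ := hSU A S n g
  have hname := (hSG A S n g Ga hyp).2
  have hcnt := hCN A S n g Ga hyp
  have hbig : ∀ M, n ≤ M → @PolishSpace _ (stg n g i M) := by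
    intro M hM
    rw [htop i M hM]
    exact hpol
  have hstep : ∀ M, @PolishSpace _ (stg n g i (M + 1)) → @PolishSpace _ (stg n g i M) := by
    intro M hM
    set 𝓕 : Set (Set (Tre A)) := {U | ∃ F ∈ {F | ∃ N : Nm S, GN n g N (M + 1) i ∧ F = vl n g N},
      ∃ u : List Bool, U = {t : Tre A | t.sub u ∈ F}} with h𝓕
    have hc : 𝓕.Countable := by
      have h1 : ({F | ∃ N h i, GN n g N h i ∧ F = vl n g N} ×ˢ (univ : Set (List Bool))).Countable :=
        hcnt.prod (countable_univ)
      refine (h1.image (fun p : Set (Tre A) × List Bool => {t : Tre A | t.sub p.2 ∈ p.1})).mono ?_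
      rintro U ⟨F, ⟨N, hN, hF⟩, u, rfl⟩
      exact ⟨(F, u), ⟨⟨N, M + 1, i, hN, hF⟩, mem_univ _⟩, rfl⟩
    have hcl : ∀ F ∈ 𝓕, IsClosed[stg n g i (M + 1)] F := by
      rintro U ⟨F, ⟨N, hN, rfl⟩, u, rfl⟩
      have h1 : IsClosed[stg n g i (M + 1)] (vl n g N) := (hname N (M + 1) i hN).1
      have h2 := hcont {F | ∃ N : Nm S, GN n g N (M + 1 + 1) i ∧ F = vl n g N} u
      rw [← hstg i (M + 1)] at h2
      exact @IsClosed.preimage _ _ (stg n g i (M + 1)) (stg n g i (M + 1)) _ h2 _ h1
    have hP := hPR (Tre A) (stg n g i (M + 1)) hM 𝓕 hc hcl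
    have he : stg n g i M = stg n g i (M + 1) ⊓ generateFrom 𝓕 := by
      apply le_antisymm
      · refine le_inf (hmono i M) ?_
        rw [hstg i M, le_generateFrom_iff_subset_isOpen]
        intro U hU
        exact isOpen_generateFrom_of_mem (Or.inr hU)
      · rw [hstg i M, le_generateFrom_iff_subset_isOpen]
        rintro U (⟨u, a, rfl⟩ | hU)
        · have h1 : IsOpen[stg n g i (M + 1)] {t : Tre A | t u = a} := by
            rw [hstg i (M + 1)]
            exact isOpen_generateFrom_of_mem (Or.inl ⟨u, a, rfl⟩)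
          exact (inf_le_left : stg n g i (M + 1) ⊓ generateFrom 𝓕 ≤ stg n g i (M + 1)) _ h1
        · have h1 : IsOpen[generateFrom 𝓕] U := isOpen_generateFrom_of_mem hU
          exact (inf_le_right : stg n g i (M + 1) ⊓ generateFrom 𝓕 ≤ generateFrom 𝓕) _ h1
    rw [he]
    exact hP
  intro M
  by_cases h : n ≤ M
  · exact hbig M h
  · obtain ⟨k, rfl⟩ : ∃ k, n = M + k := ⟨n - M, by omega⟩
    clear h
    have : ∀ j M', M + k = M' + j → @PolishSpace _ (stg (M + k) g i M') := by
      intro j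
      induction j with
      | zero => intro M' hM'; exact hbig M' (by omega)
      | succ j ih => intro M' hM'; exact hstep M' (ih (M' + 1) (by omega))
    exact this k M rfl

end Pool.Agent.Helper24.WH
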