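import Pool.Agent.Helper24.WH.St2

/-!
# PROJECT WH, module PR: adding countably many closed sets to a Polish topology
-/

set_option autoImplicit false

namespace Pool.Agent.Helper24.WH

open Set TopologicalSpace Ordinal Topology

/-- the refinement of a Polish topology by one closed set is the topology of a disjoint sum -/
private theorem one_PR {X : Type} (τ : TopologicalSpace X) (hτ : @PolishSpace X τ) (F : Set X)
    (hF : IsClosed[τ] F) : @PolishSpace X (τ ⊓ generateFrom {F}) := by
  classical
  have hs : IsClosed F := hF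
  have : PolishSpace F := hs.polishSpace
  let t : Set X := Fᶜ
  have : PolishSpace t := hs.isOpen_compl.polishSpace
  let f : F ⊕ t ≃ X := Equiv.Set.sumCompl F
  have hle : TopologicalSpace.coinduced f instTopologicalSpaceSum ≤ τ := by
    simp only [instTopologicalSpaceSum, coinduced_sup, coinduced_compose, sup_le_iff,
      ← continuous_iff_coinduced_le]
    exact ⟨continuous_subtype_val, continuous_subtype_val⟩
  have hpol : @PolishSpace X (TopologicalSpace.coinduced f instTopologicalSpaceSum) := by
    rw [← f.induced_symm]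
    exact f.symm.polishSpace_induced
  have hopen : IsOpen[TopologicalSpace.coinduced f instTopologicalSpaceSum] F := by
    rw [isOpen_coinduced, isOpen_sum_iff]
    simp [preimage_preimage, f, t]
  have heq : TopologicalSpace.coinduced f instTopologicalSpaceSum = τ ⊓ generateFrom {F} := by
    apply le_antisymm
    · refine le_inf hle ?_
      rw [le_generateFrom_iff_subset_isOpen]
      intro U hU
      rw [mem_singleton_iff] at hU
      rw [hU]
      exact hopen
    · intro U hU
      have hU' : IsOpen[TopologicalSpace.coinduced f instTopologicalSpaceSum] U := hU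
      rw [isOpen_coinduced, isOpen_sum_iff] at hU'
      obtain ⟨h1, h2⟩ := hU'
      obtain ⟨V, hV, hV'⟩ := isOpen_induced_iff.1 h1
      obtain ⟨W, hW, hW'⟩ := isOpen_induced_iff.1 h2
      have hUeq : U = (V ∩ F) ∪ (W ∩ Fᶜ) := by
        ext x
        by_cases hx : x ∈ F
        · have h3 : x ∈ V ↔ x ∈ U := Set.ext_iff.1 hV' ⟨x, hx⟩
          simp [hx, h3]
        · have h3 : x ∈ W ↔ x ∈ U := Set.ext_iff.1 hW' ⟨x, hx⟩
          simp [hx, h3]
      have hFo : IsOpen[τ ⊓ generateFrom {F}] F :=
        (inf_le_right : τ ⊓ generateFrom {F} ≤ generateFrom {F}) _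
          (isOpen_generateFrom_of_mem (mem_singleton F))
      have hin : ∀ V : Set X, IsOpen[τ] V → IsOpen[τ ⊓ generateFrom {F}] V := fun V hV =>
        (inf_le_left : τ ⊓ generateFrom {F} ≤ τ) _ hV
      rw [hUeq]
      exact @IsOpen.union X _ _ (τ ⊓ generateFrom {F})
        (@IsOpen.inter X (τ ⊓ generateFrom {F}) _ _ (hin V hV) hFo)
        (@IsOpen.inter X (τ ⊓ generateFrom {F}) _ _ (hin W hW) (hin _ hs.isOpen_compl))
  rw [← heq]
  exact hpol

/-- **PR** adding countably many closed sets as open sets to a Polish topology gives a Polish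
topology. -/
theorem hPR : StPR := by
  intro X τ hτ 𝓕 hc hcl
  have : Countable 𝓕 := hc.to_subtype
  have heq : τ ⊓ generateFrom 𝓕 = ⨅ i : Option 𝓕, i.elim τ
      (fun F : 𝓕 => τ ⊓ generateFrom {(F : Set X)}) := by
    apply le_antisymm
    · refine le_iInf ?_
      rw [Option.forall]
      refine ⟨inf_le_left, fun F => le_inf inf_le_left (le_trans inf_le_right ?_)⟩
      exact generateFrom_anti (singleton_subset_iff.2 F.2)
    · refine le_inf (iInf_le _ none) ?_
      rw [le_generateFrom_iff_subset_isOpen]
      intro F hF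
      have h1 : (⨅ i : Option 𝓕, i.elim τ (fun F : 𝓕 => τ ⊓ generateFrom {(F : Set X)})) ≤
          τ ⊓ generateFrom {F} := iInf_le (fun i : Option 𝓕 => i.elim τ
            (fun F : 𝓕 => τ ⊓ generateFrom {(F : Set X)})) (some ⟨F, hF⟩)
      exact (h1.trans inf_le_right) _ (isOpen_generateFrom_of_mem (mem_singleton F))
  rw [heq]
  refine PolishSpace.iInf ⟨none, Option.forall.2 ⟨le_rfl, fun _ => inf_le_left⟩⟩ ?_
  exact Option.forall.2 ⟨hτ, fun F => one_PR τ hτ F (hcl F F.2)⟩

end Pool.Agent.Helper24.WH
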