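import Pool.Agent.Helper24.WH.St3

/-!
# PROJECT WH (MP_76577a_lc), module PZ: exact product formula (3.7)
-/

set_option autoImplicit false

namespace Pool.Agent.Helper24.WH

open Set TopologicalSpace Ordinal Topology

private theorem tree_PZ {X Y A A₁ A₂ : Type} (f₁ : A → A₁) (f₂ : A → A₂)
    (h : A → Set (X × Y) → Set (X × Y)) (h₁ : A₁ → Set X → Set X) (h₂ : A₂ → Set Y → Set Y)
    (hh : ∀ U P Q, h U (P ×ˢ Q) = h₁ (f₁ U) P ×ˢ h₂ (f₂ U) Q) (P : Set X) (Q : Set Y) :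
    ∀ t : Tr A, ZTr h t (P ×ˢ Q) = ZTr h₁ (Tr.map f₁ t) P ×ˢ ZTr h₂ (Tr.map f₂ t) Q := by
  intro t
  induction t with
  | leaf U =>
    simp only [ZTr, Tr.map]
    exact hh U P Q
  | node U F ih =>
    simp only [ZTr, Tr.map]
    rw [← hh]
    congr 1
    ext ⟨x, y⟩
    simp only [ih, mem_iInter, mem_prod]
    exact forall_and

private theorem homOp_PZ {X Y : Type} (τ : TopologicalSpace X) (τ' : TopologicalSpace Y)
    (z : Set (X × Y) → Set (X × Y)) (z₁ : Set X → Set X) (z₂ : Set Y → Set Y)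
    (hz : ∀ P Q, P ⊆ Q → z P ⊆ z Q) (hz₁ : ∀ P Q, P ⊆ Q → z₁ P ⊆ z₁ Q)
    (hz₂ : ∀ P Q, P ⊆ Q → z₂ P ⊆ z₂ Q) (h : ∀ P Q, z (P ×ˢ Q) = z₁ P ×ˢ z₂ Q)
    (P : Set X) (Q : Set Y) :
    HomOp (@instTopologicalSpaceProd X Y τ τ') z (P ×ˢ Q) = HomOp τ z₁ P ×ˢ HomOp τ' z₂ Q := by
  have hcl : ∀ (T : Type) (σ : TopologicalSpace T) (y : Set T → Set T) (_ : ∀ P Q, P ⊆ Q → y P ⊆ y Q)
      (B : Set T), HomOp σ y B ⊆ closure[σ] (y (HomOp σ y B)) := by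
    intro T σ y hy B
    rintro x ⟨W, ⟨hWB, hW⟩, hx⟩
    have h1 : W ⊆ HomOp σ y B := fun v hv => ⟨W, ⟨hWB, hW⟩, hv⟩
    exact Set.mem_of_subset_of_mem (@closure_mono T σ _ _ (hy _ _ h1)) (hW hx)
  have hle : ∀ (T : Type) (σ : TopologicalSpace T) (y : Set T → Set T) (B : Set T),
      HomOp σ y B ⊆ B := by
    rintro T σ y B x ⟨W, ⟨hWB, hW⟩, hx⟩
    exact hWB hx
  refine Subset.antisymm ?_ ?_
  · rintro ⟨x, y⟩ ⟨W, ⟨hWB, hW⟩, hxy⟩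
    have hsub : W ⊆ (Prod.fst '' W) ×ˢ (Prod.snd '' W) := fun p hp =>
      ⟨⟨p, hp, rfl⟩, ⟨p, hp, rfl⟩⟩
    have h1 : W ⊆ closure[τ] (z₁ (Prod.fst '' W)) ×ˢ closure[τ'] (z₂ (Prod.snd '' W)) := by
      intro p hp
      have h2 := Set.mem_of_subset_of_mem
        (@closure_mono _ (@instTopologicalSpaceProd X Y τ τ') _ _ (hz _ _ hsub)) (hW hp)
      rw [h, @closure_prod_eq X Y τ τ'] at h2
      exact h2
    refine ⟨⟨Prod.fst '' W, ⟨?_, ?_⟩, ⟨(x, y), hxy, rfl⟩⟩, ⟨Prod.snd '' W, ⟨?_, ?_⟩, ⟨(x, y), hxy, rfl⟩⟩⟩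
    · rintro _ ⟨p, hp, rfl⟩
      exact (hWB hp).1
    · rintro _ ⟨p, hp, rfl⟩
      exact (h1 hp).1
    · rintro _ ⟨p, hp, rfl⟩
      exact (hWB hp).2
    · rintro _ ⟨p, hp, rfl⟩
      exact (h1 hp).2
  · rintro ⟨x, y⟩ ⟨hx, hy⟩
    refine ⟨HomOp τ z₁ P ×ˢ HomOp τ' z₂ Q, ⟨prod_mono (hle _ _ _ _) (hle _ _ _ _), ?_⟩, ⟨hx, hy⟩⟩
    rw [h, @closure_prod_eq X Y τ τ']
    exact prod_mono (hcl _ _ _ hz₁ _) (hcl _ _ _ hz₂ _)

private theorem iter_PZ {X Y : Type} (d : Set (X × Y) → Set (X × Y)) (d₁ : Set X → Set X)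
    (d₂ : Set Y → Set Y) (h : ∀ P Q, d (P ×ˢ Q) = d₁ P ×ˢ d₂ Q) (P : Set X) (Q : Set Y)
    (α : Ordinal.{0}) : iter d (P ×ˢ Q) α = iter d₁ P α ×ˢ iter d₂ Q α := by
  induction α using WellFoundedLT.induction with
  | ind α ih =>
    rw [iter, iter, iter]
    have h1 : ∀ β : Iio α, d (iter d (P ×ˢ Q) β.1) = d₁ (iter d₁ P β.1) ×ˢ d₂ (iter d₂ Q β.1) := by
      intro β
      rw [ih β.1 β.2, h]
    ext ⟨x, y⟩
    simp only [h1, mem_inter_iff, mem_iInter, mem_prod, forall_and]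
    tauto

theorem hPZ (hZA : StZA) : StPZ := by
  intro X Y S S' τ τ' g g' m
  have hom_of : ∀ m, (∀ (t : TT (S × S') m) (A : Set X) (B : Set Y),
      Z (prodT τ τ') (Prod.map g g') m t (A ×ˢ B) =
        Z τ g m (TT.map Prod.fst m t) A ×ˢ Z τ' g' m (TT.map Prod.snd m t) B) →
      ∀ (U : TT (S × S') m) (A : Set X) (B : Set Y),
        HomOp (prodT τ τ' (m + 1)) (Z (prodT τ τ') (Prod.map g g') m U) (A ×ˢ B) =
        HomOp (τ (m + 1)) (Z τ g m (TT.map Prod.fst m U)) A ×ˢ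
          HomOp (τ' (m + 1)) (Z τ' g' m (TT.map Prod.snd m U)) B := by
    intro m hm U A B
    exact homOp_PZ (τ (m + 1)) (τ' (m + 1)) _ _ _
      ((hZA (X × Y) (S × S') (prodT τ τ') (Prod.map g g') m).2.2.2 U)
      ((hZA X S τ g m).2.2.2 _) ((hZA Y S' τ' g' m).2.2.2 _) (fun P Q => hm U P Q) A B
  have hZm : ∀ m, ∀ (t : TT (S × S') m) (A : Set X) (B : Set Y),
      Z (prodT τ τ') (Prod.map g g') m t (A ×ˢ B) =
        Z τ g m (TT.map Prod.fst m t) A ×ˢ Z τ' g' m (TT.map Prod.snd m t) B := by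
    intro m
    induction m with
    | zero =>
      intro t A B
      ext ⟨x, y⟩
      obtain ⟨s, s'⟩ := t
      show (_ ∧ (g x, g' y) = (s, s')) ↔ ((x ∈ A ∧ g x = s) ∧ (y ∈ B ∧ g' y = s'))
      rw [Prod.mk.injEq]
      simp only [mem_prod]
      tauto
    | succ m ih =>
      intro t A B
      exact tree_PZ (TT.map Prod.fst m) (TT.map Prod.snd m)
        (fun U => HomOp (prodT τ τ' (m + 1)) (Z (prodT τ τ') (Prod.map g g') m U))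
        (fun U => HomOp (τ (m + 1)) (Z τ g m U)) (fun U => HomOp (τ' (m + 1)) (Z τ' g' m U))
        (hom_of m ih) A B t
  refine ⟨hZm m, hom_of m (hZm m), ?_⟩
  intro L A B α
  refine iter_PZ _ _ _ (fun P Q => ?_) A B α
  ext ⟨x, y⟩
  have h1 : ∀ i, hom (prodT τ τ') (Prod.map g g') m (L i) (P ×ˢ Q) =
      hom τ g m (TT.map Prod.fst m (L i)) P ×ˢ hom τ' g' m (TT.map Prod.snd m (L i)) Q :=
    fun i => hom_of m (hZm m) (L i) P Q
  simp only [dL, h1, mem_iInter, mem_prod, forall_and]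

end Pool.Agent.Helper24.WH
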