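import Pool.Agent.Helper24.WH.St5
import Pool.Agent.Helper24.WH.M_IT
import Pool.Agent.Helper24.WH.M_HO

/-!
# Project WH, module RA (6.1): basic properties of the rank operators
-/

set_option autoImplicit false

namespace Pool.Agent.Helper24.WH

open Set TopologicalSpace Topology
open Ordinal hiding univ

/-! ### Iterates -/

/-- monotone and contractive -/
private structure MC_RA {X : Type} (d : Set X → Set X) : Prop where
  m : ∀ A B, A ⊆ B → d A ⊆ d B
  l : ∀ B, d B ⊆ B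

private theorem it_zero_RA {X : Type} {d : Set X → Set X} (h : MC_RA d) (B : Set X) :
    iter d B 0 = B := (hIT X d h.m h.l).1 B

private theorem it_succ_RA {X : Type} {d : Set X → Set X} (h : MC_RA d) (B : Set X)
    (α : Ordinal.{0}) : iter d B (α + 1) = d (iter d B α) := (hIT X d h.m h.l).2.1 B α

private theorem it_one_RA {X : Type} {d : Set X → Set X} (h : MC_RA d) (B : Set X) :
    iter d B 1 = d B := by
  have h1 := it_succ_RA h B 0
  rwa [zero_add, it_zero_RA h] at h1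

private theorem it_anti_RA {X : Type} {d : Set X → Set X} (h : MC_RA d) (B : Set X)
    {α β : Ordinal.{0}} (hab : α ≤ β) : iter d B β ⊆ iter d B α :=
  (hIT X d h.m h.l).2.2.1 B α β hab

private theorem it_mono_RA {X : Type} {d : Set X → Set X} (h : MC_RA d) {A B : Set X}
    (α : Ordinal.{0}) (hAB : A ⊆ B) : iter d A α ⊆ iter d B α :=
  (hIT X d h.m h.l).2.2.2.1 A B α hAB

private theorem it_add_RA {X : Type} {d : Set X → Set X} (h : MC_RA d) (B : Set X)
    (α β : Ordinal.{0}) : iter d B (α + β) = iter d (iter d B α) β :=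
  (hIT X d h.m h.l).2.2.2.2.1 B α β

private theorem it_le_RA {X : Type} {d : Set X → Set X} (h : MC_RA d) (B : Set X)
    (α : Ordinal.{0}) : iter d B α ⊆ B := (hIT X d h.m h.l).2.2.2.2.2.1 B α

private theorem it_lim_RA {X : Type} {d : Set X → Set X} (h : MC_RA d) (B : Set X)
    {α : Ordinal.{0}} (ha : Order.IsSuccLimit α) : iter d B α = ⋂ β : Iio α, iter d B β.1 :=
  (hIT X d h.m h.l).2.2.2.2.2.2.1 B α ha

private theorem it_fix_RA {X : Type} {d : Set X → Set X} (h : MC_RA d) {W B : Set X}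
    (α : Ordinal.{0}) (h1 : W ⊆ B) (h2 : W ⊆ d W) : W ⊆ iter d B α :=
  (hIT X d h.m h.l).2.2.2.2.2.2.2.2.1 B W α h1 h2

/-! ### Folds of derivations -/

/-- fold of a family of derivations -/
private noncomputable def Fd_RA {X C : Type} (D : C → Set X → Set X) (l : List (C ×ₗ ℕ))
    (B : Set X) : Set X :=
  l.foldl (fun Y e => iter (D (ofLex e).1) Y (ω ^ ((ofLex e).2 : Ordinal.{0}))) B

private theorem Fd_append_RA {X C : Type} (D : C → Set X → Set X) (l r : List (C ×ₗ ℕ))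
    (B : Set X) : Fd_RA D (l ++ r) B = Fd_RA D r (Fd_RA D l B) := List.foldl_append

private theorem Fd_cons_RA {X C : Type} (D : C → Set X → Set X) (e : C ×ₗ ℕ) (r : List (C ×ₗ ℕ))
    (B : Set X) : Fd_RA D (e :: r) B =
      Fd_RA D r (iter (D (ofLex e).1) B (ω ^ ((ofLex e).2 : Ordinal.{0}))) := rfl

private theorem Fd_le_RA {X C : Type} {D : C → Set X → Set X} (h : ∀ c, MC_RA (D c))
    (l : List (C ×ₗ ℕ)) : ∀ B : Set X, Fd_RA D l B ⊆ B := by
  induction l with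
  | nil => intro B; exact subset_rfl
  | cons e r ih =>
    intro B
    rw [Fd_cons_RA]
    exact (ih _).trans (it_le_RA (h _) _ _)

private theorem Fd_mono_RA {X C : Type} {D : C → Set X → Set X} (h : ∀ c, MC_RA (D c))
    (l : List (C ×ₗ ℕ)) : ∀ {A B : Set X}, A ⊆ B → Fd_RA D l A ⊆ Fd_RA D l B := by
  induction l with
  | nil => intro A B hAB; exact hAB
  | cons e r ih =>
    intro A B hAB
    rw [Fd_cons_RA, Fd_cons_RA]
    exact ih (it_mono_RA (h _) _ hAB)

private theorem Fd_fix_RA {X C : Type} {D : C → Set X → Set X} (h : ∀ c, MC_RA (D c))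
    {W : Set X} (l : List (C ×ₗ ℕ)) : ∀ {B : Set X}, W ⊆ B → (∀ e ∈ l, W ⊆ D (ofLex e).1 W) →
      W ⊆ Fd_RA D l B := by
  induction l with
  | nil => intro B hB _; exact hB
  | cons e r ih =>
    intro B hB hf
    rw [Fd_cons_RA]
    exact ih (it_fix_RA (h _) _ hB (hf e List.mem_cons_self))
      (fun e' he' => hf e' (List.mem_cons_of_mem _ he'))

/-- the comparison of an iterate with a fold of smaller derivations -/
private theorem Fd_key_RA {X C : Type} [LinearOrder C] {D : C → Set X → Set X}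
    (h : ∀ c, MC_RA (D c)) (good : C → Prop) (c' : C) (x' : ℕ)
    (hK : ∀ c, c < c' → good c → ∀ Y : Set X, ∃ H : Set X, D c' Y ⊆ H ∧ H ⊆ Y ∧
      ∀ c₁, c₁ ≤ c → good c₁ → H ⊆ D c₁ H) (q : List (C ×ₗ ℕ)) :
    q.Pairwise (fun a b => b ≤ a) → (∀ e ∈ q, good (ofLex e).1) →
      (∀ e ∈ q, e < (toLex (c', x') : C ×ₗ ℕ)) → ∀ (Y : Set X) (α : Ordinal.{0}),
        α < ω ^ (x' : Ordinal.{0}) →
          iter (D c') Y (ω ^ (x' : Ordinal.{0})) ⊆ Fd_RA D q (iter (D c') Y α) := by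
  induction q with
  | nil =>
    intro _ _ _ Y α hα
    exact it_anti_RA (h _) _ hα.le
  | cons e r ih =>
    intro hp hg hl Y α hα
    have he := hl e List.mem_cons_self
    rw [Prod.Lex.lt_iff] at he
    rw [List.pairwise_cons] at hp
    rcases he with he | ⟨he1, he2⟩
    · have he1 : (ofLex e).1 < c' := he
      obtain ⟨H, h1, h2, h3⟩ := hK _ he1 (hg e List.mem_cons_self) (iter (D c') Y α)
      have h4 : iter (D c') Y (ω ^ (x' : Ordinal.{0})) ⊆ H := by
        refine (it_anti_RA (h _) Y (α := α + 1) ?_).trans ?_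
        · rw [← Order.succ_eq_add_one]
          exact Order.succ_le_of_lt hα
        · rw [it_succ_RA (h _)]
          exact h1
      refine h4.trans (Fd_fix_RA h (e :: r) h2 fun e₁ he₁ => ?_)
      refine h3 _ ?_ (hg e₁ he₁)
      rcases List.mem_cons.1 he₁ with rfl | he₁
      · exact le_refl _
      · have h5 := hp.1 e₁ he₁
        rw [Prod.Lex.le_iff] at h5
        rcases h5 with h5 | h5
        · exact h5.le
        · exact h5.1.le
    · have he3 : (ofLex e).1 = c' := he1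
      have he4 : (ofLex e).2 < x' := he2
      rw [Fd_cons_RA, he3, ← it_add_RA (h _)]
      refine ih hp.2 (fun e' he' => hg e' (List.mem_cons_of_mem _ he'))
        (fun e' he' => hl e' (List.mem_cons_of_mem _ he')) Y _ ?_
      refine Ordinal.isPrincipal_add_omega0_opow _ hα ?_
      exact (Ordinal.opow_lt_opow_iff_right Ordinal.one_lt_omega0).2 (by exact_mod_cast he4)

/-! ### One level -/

/-- the properties of one level -/
private structure Lev_RA {X : Type} (τ : ℕ → TopologicalSpace X) (f : X → Bool) (m : ℕ) : Prop where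
  vm : ∀ c (A B : Set X), A ⊆ B → Vo τ f m c A ⊆ Vo τ f m c B
  vl : ∀ c (B : Set X), Vo τ f m c B ⊆ B
  zm : ∀ c s (A B : Set X), A ⊆ B → Zo τ f m c s A ⊆ Zo τ f m c s B
  zl : ∀ c s (B : Set X), Zo τ f m c s B ⊆ B
  va : ∀ c c' (B : Set X), Cd.wf m c → Cd.wf m c' → c ≤ c' → Vo τ f m c' B ⊆ Vo τ f m c B
  zv : ∀ r c s (B : Set X), Cd.wf m r → Cd.vd m r → Cd.wf m c → c < r →
    Zo τ f m r s B ⊆ Vo τ f m c B
  vz : ∀ r (B : Set X), Cd.wf m r → Cd.vd m r →
    Vo τ f m r B = Zo τ f m r false B ∩ Zo τ f m r true B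
  lim : ∀ c (B : Set X), Cd.wf m c → ¬ Cd.vd m c → c ≠ Cd.bot m → ∀ x,
    (∀ c', Cd.wf m c' → c' < c → x ∈ Vo τ f m c' B) → x ∈ Vo τ f m c B

section

variable {X : Type} {τ : ℕ → TopologicalSpace X} {f : X → Bool} {m : ℕ}

private theorem zz_RA (L : Lev_RA τ f m) {r r' : Cd m} (s s' : Bool) (B : Set X)
    (h1 : Cd.wf m r) (h2 : Cd.vd m r) (h3 : Cd.wf m r') (h4 : Cd.vd m r') (h : r < r') :
    Zo τ f m r' s' B ⊆ Zo τ f m r s B := by
  refine (L.zv r' r s' B h3 h4 h1 h).trans ?_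
  rw [L.vz r B h1 h2]
  cases s
  · exact inter_subset_left
  · exact inter_subset_right

private theorem mem_del_RA {c : Cd m} {Y : Set X} {x : X} : x ∈ del τ f m c Y ↔
    x ∈ Y ∧ ∀ c' : Cd m, Cd.wf m c' ∧ Cd.vd m c' ∧ c' ≤ c → ∀ s : Bool,
      x ∈ HomOp (τ (m + 1)) (Zo τ f m c' s) Y := by
  unfold del delOf
  simp only [mem_inter_iff, mem_iInter]

private theorem ho_mono_RA (L : Lev_RA τ f m) (c : Cd m) (s : Bool) {A B : Set X} (h : A ⊆ B) :
    HomOp (τ (m + 1)) (Zo τ f m c s) A ⊆ HomOp (τ (m + 1)) (Zo τ f m c s) B :=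
  (hHO X (τ (m + 1)) (Zo τ f m c s) (L.zm c s)).2.1 A B h

private theorem ho_le_RA (L : Lev_RA τ f m) (c : Cd m) (s : Bool) (B : Set X) :
    HomOp (τ (m + 1)) (Zo τ f m c s) B ⊆ B :=
  (hHO X (τ (m + 1)) (Zo τ f m c s) (L.zm c s)).1 B

private theorem ho_cl_RA (L : Lev_RA τ f m) (c : Cd m) (s : Bool) (B : Set X) :
    HomOp (τ (m + 1)) (Zo τ f m c s) B ⊆
      closure[τ (m + 1)] (Zo τ f m c s (HomOp (τ (m + 1)) (Zo τ f m c s) B)) :=
  (hHO X (τ (m + 1)) (Zo τ f m c s) (L.zm c s)).2.2.1 B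

private theorem ho_max_RA (L : Lev_RA τ f m) (c : Cd m) (s : Bool) {W B : Set X} (h1 : W ⊆ B)
    (h2 : W ⊆ closure[τ (m + 1)] (Zo τ f m c s W)) : W ⊆ HomOp (τ (m + 1)) (Zo τ f m c s) B :=
  (hHO X (τ (m + 1)) (Zo τ f m c s) (L.zm c s)).2.2.2.1 W B h1 h2

private theorem delMC_RA (L : Lev_RA τ f m) (c : Cd m) : MC_RA (del τ f m c) := by
  refine ⟨fun A B hAB x hx => ?_, fun B x hx => ?_⟩
  · rw [mem_del_RA] at hx ⊢
    exact ⟨hAB hx.1, fun c' hc' s => ho_mono_RA L c' s hAB (hx.2 c' hc' s)⟩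
  · rw [mem_del_RA] at hx
    exact hx.1

private theorem hf_RA (L : Lev_RA τ f m) {r c : Cd m} (s : Bool) (B : Set X) (h1 : Cd.wf m r)
    (h2 : Cd.vd m r) (h : c < r) : HomOp (τ (m + 1)) (Zo τ f m r s) B ⊆
      del τ f m c (HomOp (τ (m + 1)) (Zo τ f m r s) B) := by
  intro x hx
  rw [mem_del_RA]
  refine ⟨hx, fun c' hc' s' => ?_⟩
  refine ho_max_RA L c' s' subset_rfl ?_ hx
  refine (ho_cl_RA L r s B).trans ?_
  exact @closure_mono X (τ (m + 1)) _ _
    (zz_RA L s' s _ hc'.1 hc'.2.1 h1 h2 (lt_of_le_of_lt hc'.2.2 h))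

private theorem K_RA (hCA : StCA) (L : Lev_RA τ f m) {c c' : Cd m} (hc : Cd.wf m c)
    (hc' : Cd.wf m c') (h : c < c') (Y : Set X) : ∃ H : Set X, del τ f m c' Y ⊆ H ∧ H ⊆ Y ∧
      ∀ c₁, c₁ ≤ c → Cd.wf m c₁ → H ⊆ del τ f m c₁ H := by
  obtain ⟨r, r1, r2, r3, r4⟩ := (hCA m).2.2.2.2.1 c c' hc hc' h
  refine ⟨HomOp (τ (m + 1)) (Zo τ f m r false) Y, ?_, ho_le_RA L r false Y, ?_⟩
  · intro x hx
    rw [mem_del_RA] at hx
    exact hx.2 r ⟨r1, r2, r4⟩ false
  · intro c₁ h1 _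
    exact hf_RA L false Y r1 r2 (lt_of_le_of_lt h1 r3)

private theorem Vo_eq_RA (l : Cd (m + 1)) (B : Set X) :
    Vo τ f (m + 1) l B = Fd_RA (del τ f m) (Cd.L l) B := rfl

private theorem Zo_eq_RA (l : Cd (m + 1)) (s : Bool) (B : Set X) :
    Zo τ f (m + 1) l s B = HomOp (τ (m + 1)) (Zo τ f m (lastc (Cd.L l)) s)
      (Fd_RA (del τ f m) (Cd.L l).dropLast B) := rfl

private theorem lastc_RA (l₀ : List (Cd m ×ₗ ℕ)) (e : Cd m ×ₗ ℕ) :
    lastc (l₀ ++ [e]) = (ofLex e).1 := by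
  unfold lastc
  rw [List.getLast?_concat]

/-- the value of `Zo` at a code with a last entry -/
private theorem Zo_last_RA {l : Cd (m + 1)} {l₀ : List (Cd m ×ₗ ℕ)} {e : Cd m ×ₗ ℕ}
    (hl : Cd.L l = l₀ ++ [e]) (s : Bool) (B : Set X) :
    Zo τ f (m + 1) l s B = HomOp (τ (m + 1)) (Zo τ f m (ofLex e).1 s)
      (Fd_RA (del τ f m) l₀ B) := by
  rw [Zo_eq_RA, hl, lastc_RA, List.dropLast_concat]

/-- comparison of a derivation with the fold of a list with smaller head -/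
private theorem cmp_RA (hCA : StCA) (L : Lev_RA τ f m) {e e' : Cd m ×ₗ ℕ} {q : List (Cd m ×ₗ ℕ)}
    (hp : (e :: q).Pairwise (fun a b => b ≤ a)) (hg : ∀ a ∈ e :: q, Cd.wf m (ofLex a).1)
    (hg' : Cd.wf m (ofLex e').1) (h : e < e') (Y : Set X) :
    iter (del τ f m (ofLex e').1) Y (ω ^ ((ofLex e').2 : Ordinal.{0})) ⊆
      Fd_RA (del τ f m) (e :: q) Y := by
  have h1 := Fd_key_RA (fun c => delMC_RA L c) (Cd.wf m) (ofLex e').1 (ofLex e').2
    (fun c hc hw Y => K_RA hCA L hw hg' hc Y) (e :: q) hp hg (fun a ha => ?_) Y 0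
    (Ordinal.opow_pos _ Ordinal.omega0_pos)
  · rwa [it_zero_RA (delMC_RA L _)] at h1
  · have h2 : (toLex ((ofLex e').1, (ofLex e').2) : Cd m ×ₗ ℕ) = e' := rfl
    rw [h2]
    rcases List.mem_cons.1 ha with rfl | ha
    · exact h
    · exact lt_of_le_of_lt ((List.pairwise_cons.1 hp).1 a ha) h

private theorem wf_iff_RA (l : Cd (m + 1)) : Cd.wf (m + 1) l ↔
    List.Pairwise (fun a b : Cd m ×ₗ ℕ => b ≤ a) (Cd.L l) ∧
      ∀ e ∈ Cd.L l, Cd.wf m (ofLex e).1 ∧ (ofLex e).1 ≠ Cd.bot m := Iff.rfl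

private theorem vd_iff_RA (l : Cd (m + 1)) : Cd.vd (m + 1) l ↔
    ∃ (l₀ : List (Cd m ×ₗ ℕ)) (c : Cd m), Cd.L l = l₀ ++ [toLex (c, 0)] ∧ Cd.vd m c := Iff.rfl

private theorem exists_last_RA {α : Type} (e : α) (q : List α) : ∃ (q₂ : List α) (b : α),
    e :: q = q₂ ++ [b] :=
  ⟨(e :: q).dropLast, (e :: q).getLast (List.cons_ne_nil _ _),
    (List.dropLast_append_getLast (List.cons_ne_nil _ _)).symm⟩

/-- (8) at the next level -/
private theorem va_RA (hCA : StCA) (L : Lev_RA τ f m) (l l' : Cd (m + 1)) (B : Set X)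
    (hl : Cd.wf (m + 1) l) (hl' : Cd.wf (m + 1) l') (h : l ≤ l') :
    Vo τ f (m + 1) l' B ⊆ Vo τ f (m + 1) l B := by
  rcases h.eq_or_lt with rfl | h
  · exact subset_rfl
  rw [Vo_eq_RA, Vo_eq_RA]
  rw [wf_iff_RA] at hl hl'
  rcases (hCA m).2.2.2.2.2.2.2.2.2 l l' h with ⟨e, r, hr⟩ | ⟨p, e, e', r, r', h1, h2, h3⟩
  · rw [hr, Fd_append_RA]
    exact Fd_le_RA (fun c => delMC_RA L c) _ _
  · rw [h1] at hl ⊢
    rw [h2] at hl' ⊢
    rw [Fd_append_RA, Fd_append_RA, Fd_cons_RA (e := e')]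
    refine (Fd_le_RA (fun c => delMC_RA L c) _ _).trans ?_
    refine cmp_RA hCA L (List.pairwise_append.1 hl.1).2.1
      (fun a ha => (hl.2 a (List.mem_append_right _ ha)).1)
      (hl'.2 e' (List.mem_append_right _ List.mem_cons_self)).1 h3 _

/-- (9) at the next level -/
private theorem zv_RA (hCA : StCA) (L : Lev_RA τ f m) (r l : Cd (m + 1)) (s : Bool) (B : Set X)
    (hr : Cd.wf (m + 1) r) (hv : Cd.vd (m + 1) r) (hl : Cd.wf (m + 1) l) (h : l < r) :
    Zo τ f (m + 1) r s B ⊆ Vo τ f (m + 1) l B := by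
  rw [vd_iff_RA] at hv
  obtain ⟨l₀, c, hrc, hvc⟩ := hv
  rw [Zo_last_RA hrc, Vo_eq_RA]
  rw [wf_iff_RA] at hr hl
  have hwc : Cd.wf m c := (hr.2 (toLex (c, 0)) (by rw [hrc]; simp)).1
  have e1 : (ofLex (toLex (c, 0) : Cd m ×ₗ ℕ)).1 = c := rfl
  rw [e1]
  rcases (hCA m).2.2.2.2.2.2.2.2.2 l r h with ⟨e, q, hq⟩ | ⟨p, e, e', q, q', h1, h2, h3⟩
  · obtain ⟨q₂, b, hb⟩ := exists_last_RA e q
    rw [hb, ← List.append_assoc] at hq
    rw [hrc] at hq
    have h4 := (List.append_inj' hq rfl).1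
    refine (ho_le_RA L c s _).trans ?_
    rw [h4, Fd_append_RA]
    exact Fd_le_RA (fun c => delMC_RA L c) _ _
  · rcases List.eq_nil_or_concat q' with hq' | ⟨q₂, b, hb⟩
    · subst hq'
      rw [hrc] at h2
      have h4 := List.append_inj' h2 rfl
      have h5 : toLex (c, 0) = e' := by simpa using h4.2
      rw [h1, Fd_append_RA, h4.1]
      refine Fd_fix_RA (fun c => delMC_RA L c) (e :: q) (ho_le_RA L c s _) fun a ha => ?_
      refine hf_RA L s _ hwc hvc ?_
      rw [← h5, Prod.Lex.lt_iff] at h3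
      have h6 : (ofLex e).1 < c := by
        rcases h3 with h3 | h3
        · exact h3
        · exact absurd h3.2 (Nat.not_lt_zero _)
      rw [h1] at hl
      have hp := (List.pairwise_append.1 hl.1).2.1
      rcases List.mem_cons.1 ha with rfl | ha
      · exact h6
      · have h7 := (List.pairwise_cons.1 hp).1 a ha
        rw [Prod.Lex.le_iff] at h7
        rcases h7 with h7 | h7
        · exact h7.trans h6
        · exact h7.1.trans_lt h6
    · rw [hb, List.concat_eq_append, ← List.cons_append, ← List.append_assoc, hrc] at h2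
      have h4 := (List.append_inj' h2 rfl).1
      refine (ho_le_RA L c s _).trans ?_
      rw [h4, h1, Fd_append_RA, Fd_append_RA, Fd_cons_RA (e := e')]
      refine (Fd_le_RA (fun c => delMC_RA L c) _ _).trans ?_
      rw [h1] at hl
      refine cmp_RA hCA L (List.pairwise_append.1 hl.1).2.1
        (fun a ha => (hl.2 a (List.mem_append_right _ ha)).1) ?_ h3 _
      refine (hr.2 e' ?_).1
      rw [hrc, h4]
      simp

/-- (10) at the next level -/
private theorem vz_RA (L : Lev_RA τ f m) (r : Cd (m + 1)) (B : Set X) (hr : Cd.wf (m + 1) r)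
    (hv : Cd.vd (m + 1) r) :
    Vo τ f (m + 1) r B = Zo τ f (m + 1) r false B ∩ Zo τ f (m + 1) r true B := by
  rw [vd_iff_RA] at hv
  obtain ⟨l₀, c, hrc, hvc⟩ := hv
  rw [Zo_last_RA hrc, Zo_last_RA hrc, Vo_eq_RA, hrc, Fd_append_RA]
  rw [wf_iff_RA] at hr
  have hwc : Cd.wf m c := (hr.2 (toLex (c, 0)) (by rw [hrc]; simp)).1
  have e1 : (ofLex (toLex (c, 0) : Cd m ×ₗ ℕ)).1 = c := rfl
  have e2 : (ofLex (toLex (c, 0) : Cd m ×ₗ ℕ)).2 = 0 := rfl
  rw [Fd_cons_RA, e1, e2, Nat.cast_zero, opow_zero, it_one_RA (delMC_RA L c)]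
  generalize Fd_RA (del τ f m) l₀ B = Y
  change del τ f m c Y = _
  ext x
  rw [mem_del_RA, mem_inter_iff]
  constructor
  · intro hx
    exact ⟨hx.2 c ⟨hwc, hvc, le_refl _⟩ false, hx.2 c ⟨hwc, hvc, le_refl _⟩ true⟩
  · intro hx
    refine ⟨ho_le_RA L c false _ hx.1, fun c' hc' s => ?_⟩
    have hxs : ∀ s, x ∈ HomOp (τ (m + 1)) (Zo τ f m c s) Y := by
      intro s
      cases s
      · exact hx.1
      · exact hx.2
    rcases hc'.2.2.eq_or_lt with h | h
    · rw [h]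
      exact hxs s
    · refine ho_max_RA L c' s (ho_le_RA L c s Y) ?_ (hxs s)
      refine (ho_cl_RA L c s Y).trans ?_
      exact @closure_mono X (τ (m + 1)) _ _ (zz_RA L s s _ hc'.1 hc'.2.1 hwc hvc h)

/-- powers of `ω ^ y` -/
private theorem Fd_replicate_RA (L : Lev_RA τ f m) (c : Cd m) (y : ℕ) (Y : Set X) (k : ℕ) :
    Fd_RA (del τ f m) (List.replicate k (toLex (c, y) : Cd m ×ₗ ℕ)) Y =
      iter (del τ f m c) Y (ω ^ (y : Ordinal.{0}) * (k : Ordinal.{0})) := by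
  induction k generalizing Y with
  | zero =>
    rw [Nat.cast_zero, mul_zero, it_zero_RA (delMC_RA L c)]
    rfl
  | succ k ih =>
    rw [List.replicate_succ, Fd_cons_RA]
    have e1 : (ofLex (toLex (c, y) : Cd m ×ₗ ℕ)).1 = c := rfl
    have e2 : (ofLex (toLex (c, y) : Cd m ×ₗ ℕ)).2 = y := rfl
    rw [e1, e2, ih, ← it_add_RA (delMC_RA L c)]
    congr 1
    have e3 : ((k + 1 : ℕ) : Ordinal.{0}) = 1 + (k : Ordinal.{0}) := by
      rw [Nat.add_comm]
      push_cast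
      rfl
    rw [e3, mul_add, mul_one]

/-- (11) at the next level -/
private theorem lim_RA (hCA : StCA) (L : Lev_RA τ f m) (l : Cd (m + 1)) (B : Set X)
    (hl : Cd.wf (m + 1) l) (hv : ¬ Cd.vd (m + 1) l) (hb : l ≠ Cd.bot (m + 1)) (x : X)
    (hx : ∀ l', Cd.wf (m + 1) l' → l' < l → x ∈ Vo τ f (m + 1) l' B) :
    x ∈ Vo τ f (m + 1) l B := by
  obtain ⟨_, cbot, wbot, vbot, cv, e6, e7, e8, e9, e10⟩ := hCA m
  obtain ⟨l₀, c, n, rfl⟩ := e9 l hb
  obtain ⟨w0, wc, cb, hlt⟩ := e6 l₀ c n hl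
  have hY : x ∈ Fd_RA (del τ f m) (Cd.L l₀) B := hx l₀ w0 hlt
  have hVe : ∀ (c : Cd m) (n : ℕ), Vo τ f (m + 1) (l₀.ext c n) B =
      iter (del τ f m c) (Fd_RA (del τ f m) (Cd.L l₀) B) (ω ^ (n : Ordinal.{0})) := by
    intro c n
    rw [Vo_eq_RA]
    have e1 : Cd.L (l₀.ext c n) = Cd.L l₀ ++ [toLex (c, n)] := rfl
    rw [e1, Fd_append_RA]
    rfl
  rw [hVe]
  cases n with
  | zero =>
    have hvc : ¬ Cd.vd m c := fun h => hv ⟨Cd.L l₀, c, rfl, h⟩
    rw [Nat.cast_zero, opow_zero, it_one_RA (delMC_RA L c), mem_del_RA]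
    refine ⟨hY, fun c' hc' s => ?_⟩
    have hne : c' ≠ c := by
      rintro rfl
      exact hvc hc'.2.1
    have hlt' : c' < c := lt_of_le_of_ne hc'.2.2 hne
    have hb' : c' ≠ Cd.bot m := by
      rintro rfl
      exact vbot hc'.2.1
    have hpl : (toLex (c', 0) : Cd m ×ₗ ℕ) < toLex (c, 0) := by
      rw [Prod.Lex.lt_iff]
      exact Or.inl hlt'
    have h1 := hx (l₀.ext c' 0) (e7 l₀ c c' 0 0 hl hc'.1 hb' hpl.le) (e8 l₀ c c' 0 0 hpl)
    rw [hVe, Nat.cast_zero, opow_zero, it_one_RA (delMC_RA L c'), mem_del_RA] at h1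
    exact h1.2 c' ⟨hc'.1, hc'.2.1, le_refl _⟩ s
  | succ y =>
    have e3 : ((y + 1 : ℕ) : Ordinal.{0}) = Order.succ (y : Ordinal.{0}) := by
      rw [Order.succ_eq_add_one]
      push_cast
      rfl
    have hlimit : Order.IsSuccLimit (ω ^ ((y + 1 : ℕ) : Ordinal.{0})) := by
      rw [e3, opow_succ]
      exact Ordinal.isSuccLimit_mul_right (opow_pos _ omega0_pos) isSuccLimit_omega0
    rw [it_lim_RA (delMC_RA L c) _ hlimit, mem_iInter]
    rintro ⟨β, hβ⟩
    have hβ' : β < ω ^ (y : Ordinal.{0}) * ω := by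
      have h1 : β < ω ^ ((y + 1 : ℕ) : Ordinal.{0}) := hβ
      rwa [e3, opow_succ] at h1
    obtain ⟨γ, hγ, hβγ⟩ := (Ordinal.lt_mul_iff_of_isSuccLimit isSuccLimit_omega0).1 hβ'
    obtain ⟨k, rfl⟩ := lt_omega0.1 hγ
    refine it_anti_RA (delMC_RA L c) _ hβγ.le ?_
    rw [← Fd_replicate_RA L, ← Fd_append_RA]
    have hpl : (toLex (c, y) : Cd m ×ₗ ℕ) < toLex (c, y + 1) := by
      rw [Prod.Lex.lt_iff]
      exact Or.inr ⟨rfl, Nat.lt_succ_self y⟩
    refine hx (Cd.of (Cd.L l₀ ++ List.replicate k (toLex (c, y)))) ?_ ?_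
    · rw [wf_iff_RA] at hl w0 ⊢
      have e4 : Cd.L (l₀.ext c (y + 1)) = Cd.L l₀ ++ [toLex (c, y + 1)] := rfl
      rw [e4] at hl
      refine ⟨?_, ?_⟩
      · change List.Pairwise _ (Cd.L l₀ ++ List.replicate k (toLex (c, y)))
        rw [List.pairwise_append]
        refine ⟨w0.1, ?_, ?_⟩
        · rw [List.pairwise_replicate]
          exact Or.inr (le_refl _)
        · intro a ha b hb'
          rw [List.eq_of_mem_replicate hb']
          exact hpl.le.trans ((List.pairwise_append.1 hl.1).2.2 a ha _ (List.mem_singleton_self _))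
      · intro e he
        have he' : e ∈ Cd.L l₀ ++ List.replicate k (toLex (c, y)) := he
        rcases List.mem_append.1 he' with he' | he'
        · exact w0.2 e he'
        · rw [List.eq_of_mem_replicate he']
          exact ⟨wc, cb⟩
    · change List.Lex (· < ·) (Cd.L l₀ ++ List.replicate k (toLex (c, y)))
        (Cd.L l₀ ++ [toLex (c, y + 1)])
      refine List.Lex.append_left _ ?_ _
      cases k with
      | zero => exact List.Lex.nil
      | succ k => exact List.Lex.rel hpl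

private theorem lev_succ_RA (hCA : StCA) (L : Lev_RA τ f m) : Lev_RA τ f (m + 1) where
  vm := fun c A B hAB => Fd_mono_RA (fun c => delMC_RA L c) _ hAB
  vl := fun c B => Fd_le_RA (fun c => delMC_RA L c) _ _
  zm := fun c s A B hAB => ho_mono_RA L _ s (Fd_mono_RA (fun c => delMC_RA L c) _ hAB)
  zl := fun c s B => (ho_le_RA L _ s _).trans (Fd_le_RA (fun c => delMC_RA L c) _ _)
  va := va_RA hCA L
  zv := zv_RA hCA L
  vz := vz_RA L
  lim := lim_RA hCA L

end

private theorem lev_zero_RA {X : Type} (τ : ℕ → TopologicalSpace X) (f : X → Bool) :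
    Lev_RA τ f 0 where
  vm := fun c A B hAB x hx => ⟨hAB hx.1, hx.2⟩
  vl := fun c B x hx => hx.1
  zm := fun c s A B hAB x hx => ⟨hAB hx.1, hx.2⟩
  zl := fun c s B x hx => hx.1
  va := by
    intro c c' B _ _ h x hx
    refine ⟨hx.1, ?_⟩
    have h1 : Cd.B c' = false := hx.2
    have h2 : Cd.B c ≤ Cd.B c' := h
    rw [h1] at h2
    exact le_bot_iff.1 h2
  zv := by
    intro r c s B _ h2 _ h x hx
    refine ⟨hx.1, ?_⟩
    have h3 : Cd.B r = true := h2
    have h4 : Cd.B c < Cd.B r := h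
    rw [h3] at h4
    revert h4
    cases Cd.B c
    · intro _; rfl
    · intro h4; exact absurd h4 (lt_irrefl _)
  vz := by
    intro r B _ h2
    have h3 : Cd.B r = true := h2
    ext x
    constructor
    · intro hx
      have h4 : Cd.B r = false := hx.2
      rw [h3] at h4
      exact absurd h4 (by decide)
    · intro hx
      have h4 : f x = false := hx.1.2
      have h5 : f x = true := hx.2.2
      rw [h4] at h5
      exact absurd h5 (by decide)
  lim := by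
    intro c B _ h2 h3
    exfalso
    have h4 : ¬ (Cd.B c = true) := h2
    have h5 : Cd.B c ≠ false := h3
    revert h4 h5
    cases Cd.B c
    · intro _ h; exact h rfl
    · intro h _; exact h rfl

private theorem lev_RA (hCA : StCA) {X : Type} (τ : ℕ → TopologicalSpace X) (f : X → Bool)
    (m : ℕ) : Lev_RA τ f m := by
  induction m with
  | zero => exact lev_zero_RA τ f
  | succ m ih => exact lev_succ_RA hCA ih

/-- **RA (6.1)** -/
theorem hRA (hCA : StCA) : StRA := by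
  intro X τ f m
  have L := lev_RA hCA τ f m
  refine ⟨L.vm, L.vl, L.zm, L.zl, fun c => (delMC_RA L c).m, fun c => (delMC_RA L c).l, ?_, L.va,
    L.zv, L.vz, L.lim, ?_, ?_, ?_⟩
  · intro c c' B h x hx
    rw [mem_del_RA] at hx ⊢
    exact ⟨hx.1, fun c₁ hc₁ s => hx.2 c₁ ⟨hc₁.1, hc₁.2.1, hc₁.2.2.trans h⟩ s⟩
  · intro r s B _ _
    exact ho_cl_RA L r s B
  · intro r c s B h1 h2 _ h
    exact hf_RA L s B h1 h2 h
  · intro r r' s s' B h1 h2 h3 h4 h
    exact zz_RA L s s' B h1 h2 h3 h4 h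

end Pool.Agent.Helper24.WH
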