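import Pool.Agent.Helper24.WH.St5
import Pool.Agent.Helper24.WH.M_HO
import Pool.Agent.Helper24.WH.M_IL

/-!
# PROJECT WH, module RB: the rank operators are derivations
-/

set_option autoImplicit false

namespace Pool.Agent.Helper24.WH

open Set TopologicalSpace Topology
open Ordinal hiding univ

private theorem comp_RB {X : Type} {τ : TopologicalSpace X} {d e : Set X → Set X} (hd : IsDer τ d)
    (he : IsDer τ e) : IsDer τ (fun B => d (e B)) where
  mono A B h := hd.mono _ _ (he.mono _ _ h)
  le B := (hd.le _).trans (he.le B)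
  loc O B hO := by
    show d (e (B ∩ O)) = d (e B) ∩ O
    rw [he.loc O B hO, hd.loc O _ hO]
  closed B hB := hd.closed _ (he.closed B hB)

private theorem id_RB {X : Type} (τ : TopologicalSpace X) : IsDer τ (fun B => B) where
  mono _ _ h := h
  le _ := subset_rfl
  loc _ _ _ := rfl
  closed _ hB := hB

private theorem hom_RB {X : Type} {τ τ' : TopologicalSpace X} (hτ : τ ≤ τ') {z : Set X → Set X}
    (hz : IsDer τ z) : IsDer τ' (HomOp τ' z) := by
  obtain ⟨h1, h2, -, -, h5, -, h7, -⟩ := hHO X τ' z hz.mono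
  refine ⟨h2, h1, h7 fun O B hO => hz.loc O B ?_, h5⟩
  exact ⟨IsClosed.mono hO.1 hτ, hτ O hO.2⟩

private theorem delOf_RB {X : Type} (τ : TopologicalSpace X) (m : ℕ) (z : Cd m → Bool → Set X → Set X)
    (hz : ∀ c s, IsDer τ (HomOp τ (z c s))) (c : Cd m) : IsDer τ (delOf τ m z c) where
  mono A B h := by
    unfold delOf
    refine inter_subset_inter h ?_
    exact iInter_mono fun c' => iInter_mono fun _ => iInter_mono fun s => (hz c' s).mono _ _ h
  le B := inter_subset_left
  loc O B hO := by
    unfold delOf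
    ext x
    simp only [mem_inter_iff, mem_iInter, (hz _ _).loc O B hO]
    constructor
    · rintro ⟨⟨h1, h2⟩, h3⟩
      exact ⟨⟨h1, fun c' hc' s => (h3 c' hc' s).1⟩, h2⟩
    · rintro ⟨⟨h1, h3⟩, h2⟩
      exact ⟨⟨h1, h2⟩, fun c' hc' s => ⟨h3 c' hc' s, h2⟩⟩
  closed B hB := by
    unfold delOf
    refine @IsClosed.inter X _ _ τ hB ?_
    refine @isClosed_iInter X _ τ _ fun c' => @isClosed_iInter X _ τ _ fun _ => @isClosed_iInter X _ τ _ fun s =>
      (hz c' s).closed B hB

private theorem foldV_RB {X : Type} (τ : TopologicalSpace X) (m : ℕ) (z : Cd m → Bool → Set X → Set X)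
    (hz : ∀ c s, IsDer τ (HomOp τ (z c s))) (l : List (Cd m ×ₗ ℕ)) : IsDer τ (foldV τ m z l) := by
  have key : ∀ (l : List (Cd m ×ₗ ℕ)) (e : Set X → Set X), IsDer τ e →
      IsDer τ (fun B => foldV τ m z l (e B)) := by
    intro l
    induction l with
    | nil => intro e he; exact he
    | cons a l ih =>
      intro e he
      have h1 : IsDer τ (fun B => iter (delOf τ m z (ofLex a).1) (e B) (ω ^ ((ofLex a).2 : Ordinal.{0}))) :=
        comp_RB (hIL X τ _ (delOf_RB τ m z hz (ofLex a).1) (ω ^ ((ofLex a).2 : Ordinal.{0}))) he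
      exact ih _ h1
  exact key l _ (id_RB τ)

theorem hRB : StRB := by
  intro X τ f hT hf
  have hA : ∀ m, (∀ c, IsDer (τ m) (Vo τ f m c)) ∧ (∀ c s, IsDer (τ m) (Zo τ f m c s)) := by
    intro m
    induction m with
    | zero =>
      constructor
      · intro c
        cases hc : Cd.B c
        · have h1 : Vo τ f 0 c = fun B => B := by
            funext B
            show {x ∈ B | Cd.B c = false} = B
            simp [hc]
          rw [h1]
          exact id_RB _
        · have h1 : Vo τ f 0 c = fun _ => ∅ := by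
            funext B
            show {x ∈ B | Cd.B c = false} = ∅
            simp [hc]
          rw [h1]
          exact ⟨fun _ _ _ => subset_rfl, fun _ => empty_subset _, fun O B _ => by simp,
            fun _ _ => @isClosed_empty X (τ 0)⟩
      · intro c s
        have h1 : Zo τ f 0 c s = fun B => B ∩ f ⁻¹' {s} := rfl
        rw [h1]
        refine ⟨fun A B h => inter_subset_inter_left _ h, fun B => inter_subset_left, fun O B _ => ?_,
          fun B hB => @IsClosed.inter X _ _ (τ 0) hB (hf s).1⟩
        exact inter_right_comm B O _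
    | succ m ih =>
      have hz : ∀ c s, IsDer (τ (m + 1)) (HomOp (τ (m + 1)) (Zo τ f m c s)) := fun c s =>
        hom_RB (hT.mono m) (ih.2 c s)
      constructor
      · intro l
        exact foldV_RB (τ (m + 1)) m (Zo τ f m) hz _
      · intro l s
        exact comp_RB (e := foldV (τ (m + 1)) m (Zo τ f m) (l.L.dropLast)) (hz (lastc l.L) s)
          (foldV_RB (τ (m + 1)) m (Zo τ f m) hz _)
  intro m
  have hz : ∀ c s, IsDer (τ (m + 1)) (HomOp (τ (m + 1)) (Zo τ f m c s)) := fun c s =>
    hom_RB (hT.mono m) ((hA m).2 c s)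
  exact ⟨(hA m).1, (hA m).2, fun c => delOf_RB (τ (m + 1)) m (Zo τ f m) hz c, hz⟩

end Pool.Agent.Helper24.WH
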