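import Pool.Agent.Helper24.WH.St3

/-!
# PROJECT WH (MP_76577a_lc), module RD: relabelling of `d_L` and of its iterates
-/

set_option autoImplicit false

namespace Pool.Agent.Helper24.WH

open Set TopologicalSpace Ordinal Topology

/-- a clopen set stays clopen in a finer topology -/
private theorem clp_mono_RD {X : Type} {τ τ' : TopologicalSpace X} (h : τ ≤ τ') {O : Set X}
    (hO : Clp τ' O) : Clp τ O :=
  ⟨IsClosed.mono hO.1 h, IsOpen.mono hO.2 h⟩

/-- the composed labelling has clopen fibres -/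
private theorem fib_comp_RD {X S' S : Type} [Finite S'] (G : S' → S) {τ : ℕ → TopologicalSpace X}
    {g' : X → S'} (h : Fib τ g') : Fib τ (G ∘ g') := by
  intro s
  have h1 : (G ∘ g') ⁻¹' {s} = ⋃ s' : {s' : S' // G s' = s}, g' ⁻¹' {s'.1} := by
    ext x
    simp only [mem_preimage, Function.comp_apply, mem_singleton_iff, mem_iUnion, Subtype.exists,
      exists_prop]
    constructor
    · intro hx
      exact ⟨g' x, hx, rfl⟩
    · rintro ⟨s', hs', hx⟩
      rw [hx]
      exact hs'
  rw [h1]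
  let _ : TopologicalSpace X := τ 0
  exact isClopen_iUnion_of_finite (fun s' => h s'.1)

/-- the operators of height `m` are monotone, contractive and local for the next topology -/
private theorem mcl_RD (hZM : StZM) {X S : Type} {τ : ℕ → TopologicalSpace X} {g : X → S}
    (hT : Tow τ) (hF : Fib τ g) (m : ℕ) (t : TT S m) : MCL (τ (m + 1)) (Z τ g m t) := by
  have h := (hZM X S τ g hT hF m).1 t
  exact ⟨h.mono, h.le, fun O B hO => h.loc O B (clp_mono_RD (hT.mono m) hO)⟩

/-- operators which agree on closed sets have the same iterates -/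
private theorem iter_congr_RD {X : Type} (τ : TopologicalSpace X) (d d' : Set X → Set X)
    (h : ∀ B, IsClosed[τ] B → d B = d' B) (hd : ∀ B, IsClosed[τ] B → IsClosed[τ] (d B))
    (B : Set X) (hB : IsClosed[τ] B) (α : Ordinal.{0}) :
    iter d B α = iter d' B α ∧ IsClosed[τ] (iter d B α) := by
  induction α using WellFoundedLT.induction with
  | ind α ih =>
    have hc : IsClosed[τ] (iter d B α) := by
      rw [iter]
      exact @IsClosed.inter X _ _ τ hB
        (@isClosed_iInter X _ τ _ (fun β => hd _ (ih β.1 β.2).2))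
    refine ⟨?_, hc⟩
    rw [iter, iter]
    congr 1
    refine iInter_congr fun β => ?_
    rw [← (ih β.1 β.2).1]
    exact h _ (ih β.1 β.2).2

/-- **RD** relabelling of `d_L` and of its iterates -/
theorem hRD (hRL : StRL) (hHU : StHU) (hUF : StUF) (hFN : StFN) (hTB : StTB) (hTP : StTP)
    (hZM : StZM) (hZA : StZA) : StRD := by
  intro S' S _ G m L
  choose M hMf _ hM using fun i => hRL S' S G m (L i)
  have hhom : ∀ (X : Type) (τ : ℕ → TopologicalSpace X) (g' : X → S'), Tow τ → Fib τ g' →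
      ∀ B : Set X, IsClosed[τ (m + 1)] B → ∀ i,
        hom τ (G ∘ g') m (L i) B = ⋃ t' ∈ M i, hom τ g' m t' B := by
    intro X τ g' hT hF B hB i
    have hfin : Finite (M i) := (hMf i).to_subtype
    have h1 := hHU X (τ (m + 1)) (Z τ (G ∘ g') m (L i)) (hT.zd (m + 1))
      (mcl_RD hZM hT (fib_comp_RD G hF) m (L i)) (M i) (fun t' => Z τ g' m t'.1)
      (fun t' => mcl_RD hZM hT hF m t'.1)
      (fun W hW => by
        rw [hM i X τ g' hT hF W (IsClosed.mono hW (hT.mono m)), biUnion_eq_iUnion])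
      B hB
    rw [biUnion_eq_iUnion]
    exact h1
  refine ⟨⟨M, hMf, hhom⟩, ?_⟩
  obtain ⟨C, hCf, -, hC⟩ := hFN (TT S' m) (TT.Le m) (hTP.2.1 S' m).1 (hTP.2.1 S' m).2
    (hTB S' m 0).2.1 M hMf
  refine ⟨C, hCf, ?_⟩
  intro X τ g' hT hF B hB
  have hdL : ∀ B : Set X, IsClosed[τ (m + 1)] B →
      dL τ (G ∘ g') m L B = ⋃ L' ∈ C, dL τ g' m L' B := by
    intro B hB
    have h1 : dL τ (G ∘ g') m L B = ⋂ i, ⋃ t' ∈ M i, hom τ g' m t' B :=
      iInter_congr fun i => hhom X τ g' hT hF B hB i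
    rw [h1]
    exact hC X (fun t' => hom τ g' m t' B) (fun a b hab => (hZA X S' τ g' m).2.1 a b hab B)
  refine ⟨hdL B hB, ?_⟩
  intro x
  have hfin : Finite C := hCf.to_subtype
  have hder := (hZM X S' τ g' hT hF m).2.2
  have h2 := (hUF X (τ (m + 1)) (hT.zd (m + 1)) C).1 (fun L' => dL τ g' m L'.1)
    (fun L' => hder L'.1)
  rw [biUnion_eq_iUnion, ← h2.2 B x hB]
  refine (iter_congr_RD (τ (m + 1)) _ _ ?_ ?_ B hB (ω ^ x)).1
  · intro B hB
    rw [hdL B hB, biUnion_eq_iUnion]
  · exact ((hZM X S τ (G ∘ g') hT (fib_comp_RD G hF) m).2.2 L).closed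

end Pool.Agent.Helper24.WH
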