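import Pool.Agent.Helper24.WH.St6

set_option autoImplicit false

namespace Pool.Agent.Helper24.WH

open Set TopologicalSpace Topology
open Ordinal hiding univ

/-- player I plays the cylinders around `x` -/
private def pl_RE {A₁ : Type} (Y : Type) (x : Tre A₁) (l : ℕ) : Set (Tre A₁) × Set Y := (Cyl l x, univ)

private theorem anti_RE {A : Type} (x : Tre A) {j l : ℕ} (h : j ≤ l) : Cyl l x ⊆ Cyl j x :=
  fun _ ht u hu => ht u (hu.trans_le h)

private theorem self_RE {A : Type} (x : Tre A) (l : ℕ) : x ∈ Cyl l x := fun _ _ => rfl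

private theorem eq_RE {A : Type} {x y : Tre A} {j l : ℕ} (h : j ≤ l) (hy : y ∈ Cyl l x) :
    Cyl j y = Cyl j x := by
  have h1 : ∀ u : List Bool, u.length < j → y u = x u := fun u hu => hy u (hu.trans_le h)
  ext t
  constructor
  · intro ht u hu
    rw [ht u hu, h1 u hu]
  · intro ht u hu
    rw [ht u hu, h1 u hu]

private theorem hist_RE {A₁ Y : Type} {x y : Tre A₁} {l : ℕ} (hy : y ∈ Cyl l x) :
    ∀ j, j ≤ l → hist (pl_RE Y y) j = hist (pl_RE Y x) j := by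
  intro j
  induction j with
  | zero => intro _; rfl
  | succ j ih =>
    intro hj
    show pl_RE Y y j :: hist (pl_RE Y y) j = pl_RE Y x j :: hist (pl_RE Y x) j
    rw [ih (by omega)]
    congr 1
    unfold pl_RE
    rw [eq_RE (by omega : j ≤ l) hy]

private theorem nbhd_RE {A : Type} (U : Set (Tre A)) (hU : IsOpen[pT A] U) (x : Tre A) (hx : x ∈ U) :
    ∃ l, Cyl l x ⊆ U := by
  obtain ⟨I, u, h1, h2⟩ := (@isOpen_pi_iff (List Bool) (fun _ => A) (fun _ => ⊥) U).1 hU x hx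
  refine ⟨I.sup List.length + 1, fun t ht => h2 ?_⟩
  intro i hi
  have h3 : t i = x i := ht i (Nat.lt_succ_of_le (Finset.le_sup (f := List.length) hi))
  rw [h3]
  exact (h1 i hi).2

theorem hRE : StRE := by
  intro A₁ A₂ _ _ _ n τ P f τ' P' f' hR hR' hτ hτ' A hA hW
  classical
  obtain ⟨σ, hσ0, hw⟩ := hW
  have hleg : ∀ x ∈ A, ∀ l, Legal (P (n + 1)) A (τ' (n + 1)) univ σ (hist (pl_RE (Tre A₂) x) l) ∧
      (σ (hist (pl_RE (Tre A₂) x) l)).Nonempty := by
    intro x hx l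
    induction l with
    | zero =>
      refine ⟨trivial, ?_⟩
      show (σ []).Nonempty
      rw [hσ0]
      exact ⟨fun _ => Classical.arbitrary A₂, mem_univ _⟩
    | succ l ih =>
      have h1 : Legal (P (n + 1)) A (τ' (n + 1)) univ σ (pl_RE (Tre A₂) x l :: hist (pl_RE (Tre A₂) x) l) := by
        refine ⟨ih.1, hR.cyl _ _ _, ?_, ⟨x, self_RE x l, hx⟩, @isOpen_univ _ (τ' (n + 1)), ?_⟩
        · cases l with
          | zero => exact subset_univ _
          | succ l => exact anti_RE x (Nat.le_succ l)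
        · obtain ⟨y, hy⟩ := ih.2
          exact ⟨y, ⟨mem_univ _, hy⟩, mem_univ _⟩
      refine ⟨h1, ?_⟩
      obtain ⟨y, hy⟩ := (hw.move _ _ h1).2.2
      exact ⟨y, hy.1⟩
  have hlim : ∀ x ∈ A, ∃ x' : Tre A₂, (∀ l, x' ∈ σ (hist (pl_RE (Tre A₂) x) l)) ∧ f' x' = f x ∧
      ∀ k, ∃ l, σ (hist (pl_RE (Tre A₂) x) l) ⊆ Cyl k x' := by
    intro x hx
    obtain ⟨x', -, h1⟩ := hw.lim (pl_RE (Tre A₂) x) (fun l => (hleg x hx l).1) x hx
      (fun l => self_RE x l) (by
        intro U hU hxU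
        rw [hτ] at hU
        obtain ⟨l, hl⟩ := nbhd_RE U hU x hxU
        exact ⟨l, fun y hy => hl hy.1⟩)
    exact ⟨x', h1⟩
  haveI : Nonempty (Tre A₂) := ⟨fun _ => Classical.arbitrary A₂⟩
  choose! φ hφ1 hφ2 hφ3 using hlim
  refine ⟨φ, hφ2, ?_⟩
  intro x hx k
  obtain ⟨l, hl⟩ := hφ3 x hx k
  refine ⟨l, fun y hy hyl => hl ?_⟩
  rw [← hist_RE hyl l le_rfl]
  exact hφ1 y hy l

end Pool.Agent.Helper24.WH
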