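import Pool.Agent.Helper24.WH.St5

/-!
# PROJECT WH (MP_76577a_lc), module RI: from rich systems of finite type to rich structures
-/

set_option autoImplicit false

namespace Pool.Agent.Helper24.WH

open Set TopologicalSpace Topology
open Ordinal hiding univ

private theorem preimage_RI {X S : Type} (h : S → Bool) (g : X → S) (s : Bool) :
    (h ∘ g) ⁻¹' {s} = ⋃ t ∈ {t : S | h t = s}, g ⁻¹' {t} := by
  ext x
  simp only [mem_preimage, Function.comp_apply, mem_singleton_iff, mem_iUnion, mem_ofPred_eq,
    exists_prop, exists_eq_right']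

theorem hRI (h1 : StVP) (h2 : StUS) (h3 : StTM) : StRI := by
  intro X S _ n N τ g h P hS hN hN1
  obtain ⟨hVP, hZP, -, -⟩ := h1 S h X n N τ g P hS hN hN1
  have hfib : ∀ s, Clp (τ 0) ((h ∘ g) ⁻¹' {s}) := by
    intro s
    rw [preimage_RI]
    let _ := τ 0
    exact (Set.toFinite {t : S | h t = s}).isClopen_biUnion fun t _ => hS.fib t
  have hfP : ∀ B ∈ P 0, ∀ s, B ∩ (h ∘ g) ⁻¹' {s} ∈ P 0 := by
    intro B hB s
    rw [preimage_RI, inter_iUnion₂]
    have key : ∀ T : Set S, T.Finite → (⋃ t ∈ T, B ∩ g ⁻¹' {t}) ∈ P 0 := by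
      intro T hT
      induction T, hT using Set.Finite.induction_on with
      | empty =>
        rw [biUnion_empty]
        exact hS.empty 0
      | insert _ _ ih =>
        rw [biUnion_insert]
        exact hS.union 0 _ (hS.fibP B hB _) _ ih
    exact key _ (Set.toFinite _)
  exact {
    tow := hS.tow
    fib := hfib
    top := hS.top
    anti := hS.anti
    cl := hS.cl
    op := hS.op
    op0 := hS.op0
    basis := hS.basis
    cnt := hS.cnt
    univ := hS.univ
    empty := hS.empty
    inter := hS.inter
    union := hS.union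
    clo := hS.clo
    fP := hfP
    VP := hVP
    ZP := hZP
    us := h2 X S n N τ g h P hS hN hN1
    tm := h3 X S n N τ g h P hS hN hN1
    pol := hS.pol 0 (Nat.zero_le n) }

end Pool.Agent.Helper24.WH
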