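import Pool.Agent.Helper24.WH.St3

/-!
# WH module RL (3.6): relabelling of the operators `Z_m^t`
-/

set_option autoImplicit false

namespace Pool.Agent.Helper24.WH

open Set TopologicalSpace Ordinal Topology

private theorem clp_mono_RL {X : Type} {τ τ' : TopologicalSpace X} (h : τ' ≤ τ) {O : Set X} (hO : Clp τ O) :
    Clp τ' O :=
  ⟨IsClosed.mono hO.1 h, IsOpen.mono hO.2 h⟩

private theorem mcl_RL {X : Type} {τ τ' : TopologicalSpace X} (h : τ ≤ τ') {z : Set X → Set X}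
    (hz : IsDer τ z) : MCL τ' z :=
  ⟨hz.mono, hz.le, fun O B hO => hz.loc O B (clp_mono_RL h hO)⟩

private theorem fib_RL {X S' S : Type} [Finite S'] (G : S' → S) {τ : ℕ → TopologicalSpace X} {g' : X → S'}
    (h : Fib τ g') : Fib τ (G ∘ g') := by
  intro s
  have h1 : (G ∘ g') ⁻¹' {s} = ⋃ s' ∈ G ⁻¹' {s}, g' ⁻¹' {s'} := by
    ext x
    simp
  rw [h1]
  letI := τ 0
  exact (Set.toFinite (G ⁻¹' {s})).isClopen_biUnion fun s' _ => h s'

/-- relabelling of `hom` on closed sets -/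
theorem hom_RL (hZM : StZM) (hHU : StHU) {S' S : Type} [Finite S'] (G : S' → S) (m : ℕ) (U : TT S m)
    (M : Set (TT S' m)) (hM : M.Finite) {X : Type} (τ : ℕ → TopologicalSpace X) (g' : X → S')
    (hT : Tow τ) (hg : Fib τ g')
    (h : ∀ B : Set X, IsClosed[τ m] B → Z τ (G ∘ g') m U B = ⋃ t' ∈ M, Z τ g' m t' B)
    (B : Set X) (hB : IsClosed[τ (m + 1)] B) :
    hom τ (G ∘ g') m U B = ⋃ t' ∈ M, hom τ g' m t' B := by
  haveI : Finite M := hM
  have h1 := hHU X (τ (m + 1)) (Z τ (G ∘ g') m U) (hT.zd _)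
    (mcl_RL (hT.mono m) ((hZM X S τ (G ∘ g') hT (fib_RL G hg) m).1 U)) M
    (fun t' => Z τ g' m t'.1) (fun t' => mcl_RL (hT.mono m) ((hZM X S' τ g' hT hg m).1 t'.1))
    (fun W hW => by
      rw [h W (IsClosed.mono hW (hT.mono m)), Set.biUnion_eq_iUnion]) B hB
  unfold hom
  rw [h1, Set.biUnion_eq_iUnion]

theorem hRL (hTP : StTP) (hTB : StTB) (hFN : StFN) (hZM : StZM) (hZA : StZA) (hHA : StHA) (hHU : StHU) :
    StRL := by
  intro S' S _ G m
  induction m with
  | zero =>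
    intro s
    have hfin : ({s' : S' | G s' = s} : Set S').Finite := Set.toFinite _
    refine ⟨{s' : S' | G s' = s}, hfin, fun s' hs' => hs'.symm, ?_⟩
    intro X τ g' _ _ B _
    ext x
    simp only [Z, Set.mem_inter_iff, Set.mem_preimage, Set.mem_singleton_iff, Function.comp_apply,
      Set.mem_iUnion, Set.mem_ofPred_eq, exists_prop]
    constructor
    · rintro ⟨h1, h2⟩
      exact ⟨g' x, h2, h1, rfl⟩
    · rintro ⟨s', h1, h2, h3⟩
      exact ⟨h2, by rw [h3]; exact h1⟩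
  | succ m ihm =>
    intro t
    change Tr (TT S m) at t
    induction t with
    | leaf U =>
      obtain ⟨M, hM, hle, hZ⟩ := ihm U
      refine ⟨(fun U' => (Tr.leaf U' : Tr (TT S' m))) '' M, hM.image _, ?_, ?_⟩
      · rintro _ ⟨U', hU', rfl⟩
        exact Tr.Le.leaf U _ (hle U' hU')
      · intro X τ g' hT hg B hB
        rw [Set.biUnion_image]
        exact hom_RL hZM hHU G m U M hM τ g' hT hg (fun W hW => hZ X τ g' hT hg W hW) B hB
    | node U F ih =>
      obtain ⟨M, hM, hle, hZ⟩ := ihm U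
      choose N hN hNle hNZ using ih
      obtain ⟨C, hC, hCN, hCH⟩ := hFN (TT S' (m + 1)) (TT.Le (m + 1)) ((hTP.2.1 S' (m + 1)).1)
        ((hTP.2.1 S' (m + 1)).2) (hTB S' (m + 1) 0).2.1 N hN
      refine ⟨(fun p : TT S' m × (ℕ → TT S' (m + 1)) => (Tr.node p.1 p.2 : Tr (TT S' m))) '' (M ×ˢ C),
        (hM.prod hC).image _, ?_, ?_⟩
      · rintro _ ⟨⟨U', c⟩, ⟨hU', hc⟩, rfl⟩
        refine Tr.Le.node U F _ (hle U' hU') fun i => ?_
        exact Tr.Le.sub _ _ _ i (hNle i (c i) (hCN c hc i))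
      · intro X τ g' hT hg B hB
        haveI : Finite C := hC
        -- the closed sets
        have hcl : ∀ t' : TT S' (m + 1), IsClosed[τ (m + 1)] (Z τ g' (m + 1) t' B) := fun t' =>
          ((hZM X S' τ g' hT hg (m + 1)).1 t').closed B hB
        have hcl2 : ∀ c : ℕ → TT S' (m + 1), IsClosed[τ (m + 1)] (⋂ i, Z τ g' (m + 1) (c i) B) := fun c =>
          @isClosed_iInter X ℕ (τ (m + 1)) _ fun i => hcl (c i)
        have e1 : (⋂ i, Z τ (G ∘ g') (m + 1) (F i) B) = ⋃ c : C, ⋂ i, Z τ g' (m + 1) (c.1 i) B := by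
          have e2 := hCH X (fun t' => Z τ g' (m + 1) t' B)
            (fun a b hab => (hZA X S' τ g' (m + 1)).1 a b hab B)
          rw [Set.biUnion_eq_iUnion] at e2
          rw [← e2]
          exact Set.iInter_congr fun i => hNZ i X τ g' hT hg B hB
        have hcl3 : IsClosed[τ (m + 1)] (⋃ c : C, ⋂ i, Z τ g' (m + 1) (c.1 i) B) :=
          @isClosed_iUnion_of_finite X C (τ (m + 1)) _ _ fun c => hcl2 c.1
        have e3 : Z τ (G ∘ g') (m + 1) (Tr.node U F) B =
            hom τ (G ∘ g') m U (⋂ i, Z τ (G ∘ g') (m + 1) (F i) B) := rfl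
        rw [e3, e1, hom_RL hZM hHU G m U M hM τ g' hT hg (fun W hW => hZ X τ g' hT hg W hW) _ hcl3,
          Set.biUnion_image, Set.biUnion_prod']
        refine Set.iUnion₂_congr fun U' hU' => ?_
        have e4 := hHA X (τ (m + 1)) (Z τ g' m U') (hT.zd _)
          (mcl_RL (hT.mono m) ((hZM X S' τ g' hT hg m).1 U')) C
          (fun c => ⋂ i, Z τ g' (m + 1) (c.1 i) B) (fun c => hcl2 c.1)
        have e5 : hom τ g' m U' (⋃ c : C, ⋂ i, Z τ g' (m + 1) (c.1 i) B) =
          ⋃ c : C, HomOp (τ (m + 1)) (Z τ g' m U') (⋂ i, Z τ g' (m + 1) (c.1 i) B) := e4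
        rw [e5, Set.biUnion_eq_iUnion]
        rfl

end Pool.Agent.Helper24.WH
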