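import Pool.Agent.Helper24.WH.St5

/-!
# PROJECT WH (MP_76577a_lc), module RP: representation of the rank operators by terms (6.2)
-/

set_option autoImplicit false

namespace Pool.Agent.Helper24.WH

open Set TopologicalSpace Topology
open Ordinal hiding univ

variable {X S : Type}

/-- the operator of an optional term (`none` = identity) -/
private def zp_RP (τ : ℕ → TopologicalSpace X) (g : X → S) (m : ℕ) : Option (TT S (m + 1)) → Set X → Set X
  | none, B => B
  | some t, B => Z τ g (m + 1) t B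

/-- countable intersections of operators of optional terms -/
private def pf_RP (τ : ℕ → TopologicalSpace X) (g : X → S) (m : ℕ) (F : ℕ → Option (TT S (m + 1)))
    (B : Set X) : Set X := ⋂ i, zp_RP τ g m (F i) B

section

variable (τ : ℕ → TopologicalSpace X) (g : X → S) (hT : Tow τ) (hF : Fib τ g) (hZM : StZM)
include hT hF hZM

private theorem closedPf_RP (m : ℕ) (F : ℕ → Option (TT S (m + 1))) (B : Set X)
    (hB : IsClosed[τ (m + 1)] B) : IsClosed[τ (m + 1)] (pf_RP τ g m F B) := by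
  refine @isClosed_iInter _ _ (τ (m + 1)) _ fun i => ?_
  cases h : F i with
  | none => exact hB
  | some t => exact ((hZM X S τ g hT hF (m + 1)).1 t).closed B hB

/-- `hom e` of an element of the class is a single term -/
private theorem homPf_RP (m : ℕ) (e : TT S m) (F : ℕ → Option (TT S (m + 1))) :
    ∃ t : TT S (m + 1), ∀ B : Set X, hom τ g m e (pf_RP τ g m F B) = Z τ g (m + 1) t B := by
  by_cases hall : ∀ i, F i = none
  · refine ⟨Tr.leaf e, fun B => ?_⟩
    have h1 : pf_RP τ g m F B = B := by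
      unfold pf_RP
      have : ∀ i, zp_RP τ g m (F i) B = B := fun i => by rw [hall i]; rfl
      rw [iInter_congr this, iInter_const]
    rw [h1]
    rfl
  · push Not at hall
    obtain ⟨i₀, hi₀⟩ := hall
    obtain ⟨t₀, ht₀⟩ := Option.ne_none_iff_exists'.1 hi₀
    refine ⟨Tr.node e (fun i => (F i).getD t₀), fun B => ?_⟩
    have h1 : pf_RP τ g m F B = ⋂ i, Z τ g (m + 1) ((F i).getD t₀) B := by
      unfold pf_RP
      ext y
      simp only [mem_iInter]
      constructor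
      · intro hy i
        cases h : F i with
        | none =>
          have := hy i₀
          rw [ht₀] at this
          exact this
        | some t =>
          have := hy i
          rw [h] at this
          exact this
      · intro hy i
        have := hy i
        cases h : F i with
        | none => exact ((hZM X S τ g hT hF (m + 1)).1 _).le B this
        | some t =>
          rw [h] at this
          exact this
    rw [h1]
    rfl

omit hT hF hZM in
/-- countable intersections -/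
private theorem interPf_RP (m : ℕ) (Fs : ℕ → ℕ → Option (TT S (m + 1))) :
    ∃ F, ∀ B : Set X, pf_RP τ g m F B = ⋂ n, pf_RP τ g m (Fs n) B := by
  refine ⟨fun i => Fs (Nat.unpair i).1 (Nat.unpair i).2, fun B => ?_⟩
  unfold pf_RP
  ext y
  simp only [mem_iInter]
  constructor
  · intro h n i
    have := h (Nat.pair n i)
    simpa using this
  · intro h i
    exact h _ _

/-- `d_L` preserves the class -/
private theorem dlPf_RP (m : ℕ) (L : ℕ → TT S m) (F : ℕ → Option (TT S (m + 1))) :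
    ∃ F', ∀ B : Set X, dL τ g m L (pf_RP τ g m F B) = pf_RP τ g m F' B := by
  choose t ht using fun i => homPf_RP τ g hT hF hZM m (L i) F
  refine ⟨fun i => some (t i), fun B => ?_⟩
  unfold dL
  conv_rhs => unfold pf_RP
  exact iInter_congr fun i => ht i B

/-- countable intersections of `hom` of elements of the class -/
private theorem homsPf_RP (m : ℕ) (L : ℕ → TT S m) (Fs : ℕ → ℕ → Option (TT S (m + 1))) :
    ∃ F', ∀ B : Set X, ⋂ i, hom τ g m (L i) (pf_RP τ g m (Fs i) B) = pf_RP τ g m F' B := by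
  choose t ht using fun i => homPf_RP τ g hT hF hZM m (L i) (Fs i)
  refine ⟨fun i => some (t i), fun B => ?_⟩
  conv_rhs => unfold pf_RP
  exact iInter_congr fun i => ht i B

/-- iterates of `d_L` preserve the class -/
private theorem iterPf_RP (hIT : StIT) (m : ℕ) (L : ℕ → TT S m) (x : ℕ) :
    ∀ F : ℕ → Option (TT S (m + 1)),
    ∃ F', ∀ B : Set X, iter (dL τ g m L) (pf_RP τ g m F B) (ω ^ (x : Ordinal.{0})) = pf_RP τ g m F' B := by
  have hd := (hZM X S τ g hT hF m).2.2 L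
  obtain ⟨h0, h1, h2, -, h4, -, h6, -⟩ := hIT X _ hd.mono hd.le
  induction x with
  | zero =>
    intro F
    obtain ⟨F', hF'⟩ := dlPf_RP τ g hT hF hZM m L F
    refine ⟨F', fun B => ?_⟩
    have := h1 (pf_RP τ g m F B) 0
    rw [h0, zero_add] at this
    rw [Nat.cast_zero, Ordinal.opow_zero, this, hF' B]
  | succ x ih =>
    intro F
    have key : ∀ k : ℕ, ∃ F', ∀ B : Set X,
        iter (dL τ g m L) (pf_RP τ g m F B) (ω ^ (x : Ordinal.{0}) * (k : Ordinal.{0})) = pf_RP τ g m F' B := by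
      intro k
      induction k with
      | zero =>
        refine ⟨F, fun B => ?_⟩
        rw [Nat.cast_zero, mul_zero, h0]
      | succ k ihk =>
        obtain ⟨F₁, hF₁⟩ := ihk
        obtain ⟨F₂, hF₂⟩ := ih F₁
        refine ⟨F₂, fun B => ?_⟩
        rw [Nat.cast_succ, mul_add, mul_one, h4, hF₁, hF₂]
    choose Fs hFs using key
    obtain ⟨F', hF'⟩ := interPf_RP τ g m Fs
    refine ⟨F', fun B => ?_⟩
    have hlim : Order.IsSuccLimit (ω ^ ((x + 1 : ℕ) : Ordinal.{0})) := by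
      have hx : ((x + 1 : ℕ) : Ordinal.{0}) ≠ 0 := by exact_mod_cast Nat.succ_ne_zero x
      exact isSuccLimit_opow_left isSuccLimit_omega0 hx
    rw [h6 _ _ hlim, hF' B]
    apply subset_antisymm
    · refine subset_iInter fun k => ?_
      rw [← hFs k B]
      have hlt : ω ^ (x : Ordinal.{0}) * (k : Ordinal.{0}) < ω ^ ((x + 1 : ℕ) : Ordinal.{0}) := by
        rw [Nat.cast_succ, opow_add, opow_one]
        exact mul_lt_mul_of_pos_left (natCast_lt_omega0 k) (opow_pos _ omega0_pos)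
      exact iInter_subset (fun β : Iio (ω ^ ((x + 1 : ℕ) : Ordinal.{0})) =>
        iter (dL τ g m L) (pf_RP τ g m F B) β.1) ⟨_, hlt⟩
    · refine subset_iInter ?_
      rintro ⟨β, hβ'⟩
      have hβ : β < ω ^ (x : Ordinal.{0}) * ω := by
        have := mem_Iio.1 hβ'
        rw [Nat.cast_succ, opow_add, opow_one] at this
        exact this
      obtain ⟨c, hc, hβc⟩ := (lt_mul_iff_of_isSuccLimit isSuccLimit_omega0).1 hβ
      obtain ⟨k, rfl⟩ := lt_omega0.1 hc
      refine (iInter_subset _ k).trans ?_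
      rw [← hFs k B]
      exact h2 _ _ _ hβc.le


/-- the operator `Z m t` for the coarser topology -/
private theorem mcl_RP (m : ℕ) (t : TT S m) : MCL (τ (m + 1)) (Z τ g m t) := by
  have h := (hZM X S τ g hT hF m).1 t
  refine ⟨h.mono, h.le, fun O B hO => h.loc O B ?_⟩
  exact ⟨@IsClosed.mk X (τ m) O ((hT.mono m) _ (@IsClosed.isOpen_compl X (τ (m + 1)) O hO.1)),
    (hT.mono m) _ hO.2⟩

/-- `hom e` of a finite union of closed sets -/
private theorem homU_RP (hHA : StHA) (m : ℕ) (e : TT S m) {ι : Type} [Finite ι] (C : ι → Set X)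
    (hC : ∀ i, IsClosed[τ (m + 1)] (C i)) :
    hom τ g m e (⋃ i, C i) = ⋃ i, hom τ g m e (C i) :=
  hHA X (τ (m + 1)) (Z τ g m e) (hT.zd (m + 1)) (mcl_RP τ g hT hF hZM m e) ι C hC

omit hT hF hZM in
/-- reindexing by `Fin k` -/
private theorem toFin_RP (m : ℕ) {ι : Type*} [Finite ι] (Q : ι → ℕ → Option (TT S (m + 1))) :
    ∃ (k : ℕ) (P : Fin k → ℕ → Option (TT S (m + 1))),
      ∀ B : Set X, ⋃ i, pf_RP τ g m (Q i) B = ⋃ q, pf_RP τ g m (P q) B := by
  obtain ⟨k, ⟨f⟩⟩ := Finite.exists_equiv_fin ι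
  refine ⟨k, Q ∘ f.symm, fun B => ?_⟩
  exact (f.symm.iSup_comp (g := fun i => pf_RP τ g m (Q i) B)).symm

/-- one application of `iter (dL L) _ (ω ^ x)` to a finite union of members of the class -/
private theorem step_RP [Finite S] (hIT : StIT) (hUF : StUF) (hHA : StHA) (hFN : StFN) (hTB : StTB)
    (hTP : StTP) (hZA : StZA) (m : ℕ) (L : ℕ → TT S m) (x k : ℕ)
    (P : Fin k → ℕ → Option (TT S (m + 1))) :
    ∃ (k' : ℕ) (P' : Fin k' → ℕ → Option (TT S (m + 1))), ∀ B, IsClosed[τ (m + 1)] B →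
      iter (dL τ g m L) (⋃ q, pf_RP τ g m (P q) B) (ω ^ (x : Ordinal.{0})) =
        ⋃ q, pf_RP τ g m (P' q) B := by
  have hd := (hZM X S τ g hT hF m).2.2 L
  rcases Nat.eq_zero_or_pos x with rfl | hx
  · obtain ⟨hrefl, htrans⟩ := hTP.2.1 S m
    obtain ⟨Cs, hCs, -, hCeq⟩ := hFN (TT S m × Fin k) (fun a b => TT.Le m a.1 b.1 ∧ a.2 = b.2)
      (fun a => ⟨hrefl a.1, rfl⟩) (fun a b c hab hbc => ⟨htrans _ _ _ hab.1 hbc.1, hab.2.trans hbc.2⟩)
      (hTB S m k).2.2 (fun i => {L i} ×ˢ univ) (fun i => (finite_singleton _).prod finite_univ)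
    choose F' hF' using fun c : ℕ → TT S m × Fin k =>
      homsPf_RP τ g hT hF hZM m (fun i => (c i).1) (fun i => P (c i).2)
    have : Finite Cs := hCs.to_subtype
    obtain ⟨k', P', hP'⟩ := toFin_RP τ g m (fun c : Cs => F' c.1)
    refine ⟨k', P', fun B hB => ?_⟩
    have hcl : ∀ q, IsClosed[τ (m + 1)] (pf_RP τ g m (P q) B) := fun q =>
      closedPf_RP τ g hT hF hZM m (P q) B hB
    have h2 := hCeq X (fun e => hom τ g m e.1 (pf_RP τ g m (P e.2) B)) (by
      rintro ⟨a, q⟩ ⟨b, q'⟩ ⟨hab, hq⟩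
      simp only at hab hq
      subst hq
      exact (hZA X S τ g m).2.1 a b hab _)
    have h3 : dL τ g m L (⋃ q, pf_RP τ g m (P q) B) = ⋂ i, ⋃ e ∈ ({L i} ×ˢ univ : Set (TT S m × Fin k)),
        hom τ g m e.1 (pf_RP τ g m (P e.2) B) := by
      unfold dL
      refine iInter_congr fun i => ?_
      rw [homU_RP τ g hT hF hZM hHA m (L i) _ hcl]
      ext y
      simp only [mem_iUnion, mem_prod, mem_singleton_iff, mem_univ, and_true, exists_prop, Prod.exists]
      constructor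
      · rintro ⟨q, hq⟩
        exact ⟨L i, q, rfl, hq⟩
      · rintro ⟨_, q, rfl, hq⟩
        exact ⟨q, hq⟩
    obtain ⟨h0, h1, -⟩ := hIT X _ hd.mono hd.le
    have h4 := h1 (⋃ q, pf_RP τ g m (P q) B) 0
    rw [h0, zero_add] at h4
    rw [Nat.cast_zero, Ordinal.opow_zero, h4, h3, h2, ← hP' B, biUnion_eq_iUnion]
    exact iUnion_congr fun c => hF' c.1 B
  · choose F' hF' using fun q => iterPf_RP τ g hT hF hZM hIT m L x (P q)
    refine ⟨k, F', fun B hB => ?_⟩
    have hcl : ∀ q, IsClosed[τ (m + 1)] (pf_RP τ g m (P q) B) := fun q =>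
      closedPf_RP τ g hT hF hZM m (P q) B hB
    have h1 : (1 : Ordinal.{0}) ≤ (x : Ordinal.{0}) := by exact_mod_cast hx
    rw [(hUF X (τ (m + 1)) (hT.zd (m + 1)) (Fin k)).2 _ hd _ (x : Ordinal.{0}) hcl h1]
    exact iUnion_congr fun q => hF' q B


/-- from `Zo` to `HomOp` -/
private theorem two_RP (hHU : StHU) (m : ℕ) (z : Set X → Set X) (hz : MCL (τ (m + 1)) z)
    (M : Set (TT S m)) (hM : M.Finite) (h : ∀ B, IsClosed[τ m] B → z B = ⋃ t ∈ M, Z τ g m t B) :
    ∀ B, IsClosed[τ (m + 1)] B → HomOp (τ (m + 1)) z B = ⋃ t ∈ M, hom τ g m t B := by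
  intro B hB
  have : Finite M := hM.to_subtype
  have h1 := hHU X (τ (m + 1)) z (hT.zd _) hz M (fun t => Z τ g m t.1)
    (fun t => mcl_RP τ g hT hF hZM m t.1) (fun W hW => by
      rw [h W (@IsClosed.mk X (τ m) W ((hT.mono m) _ (@IsClosed.isOpen_compl X (τ (m + 1)) W hW))),
        biUnion_eq_iUnion]) B hB
  rw [h1, biUnion_eq_iUnion]
  rfl

end

/-- iterates of two operators that agree on closed sets -/
private theorem iterCongr_RP (hIL : StIL) (τ : TopologicalSpace X) (d d' : Set X → Set X)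
    (hd' : IsDer τ d') (h : ∀ B, IsClosed[τ] B → d B = d' B) (B : Set X) (hB : IsClosed[τ] B)
    (α : Ordinal.{0}) : iter d B α = iter d' B α := by
  induction α using WellFoundedLT.induction with
  | ind α ih =>
    rw [iter, iter]
    congr 1
    refine iInter_congr fun β => ?_
    rw [ih β.1 β.2]
    exact h _ ((hIL X τ d' hd' β.1).closed B hB)

/-- from `HomOp` to `del` -/
private theorem three_RP [Finite S] (hIL : StIL) (hUF : StUF) (hFN : StFN) (hTB : StTB) (hTP : StTP)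
    (hZM : StZM) (hZA : StZA) (hCA : StCA) (τ : ℕ → TopologicalSpace X) (g : X → S) (hT : Tow τ)
    (hF : Fib τ g) (f : X → Bool) (m : ℕ)
    (h2 : ∀ (c : Cd m) (s : Bool), ∃ M : Set (TT S m), M.Finite ∧ ∀ B, IsClosed[τ (m + 1)] B →
      HomOp (τ (m + 1)) (Zo τ f m c s) B = ⋃ t ∈ M, hom τ g m t B)
    (hle : ∀ (c : Cd m) s B, HomOp (τ (m + 1)) (Zo τ f m c s) B ⊆ B)
    (c : Cd m) (hne : {p : Cd m × Bool | Cd.wf m p.1 ∧ Cd.vd m p.1 ∧ p.1 ≤ c}.Nonempty) :
    ∃ C : Set (ℕ → TT S m), C.Finite ∧ ∀ B, IsClosed[τ (m + 1)] B →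
      del τ f m c B = ⋃ L ∈ C, dL τ g m L B ∧
      ∀ x : Ordinal.{0}, iter (del τ f m c) B (ω ^ x) = ⋃ L ∈ C, iter (dL τ g m L) B (ω ^ x) := by
  have hct : Countable (Cd m) := (hCA m).1
  obtain ⟨e, he⟩ := (Set.to_countable {p : Cd m × Bool | Cd.wf m p.1 ∧ Cd.vd m p.1 ∧ p.1 ≤ c}).exists_eq_range hne
  have hdel : ∀ Y, del τ f m c Y = ⋂ n, HomOp (τ (m + 1)) (Zo τ f m (e n).1 (e n).2) Y := by
    intro Y
    unfold del delOf
    ext y
    simp only [mem_inter_iff, mem_iInter]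
    constructor
    · rintro ⟨-, h⟩ n
      have hn : e n ∈ {p : Cd m × Bool | Cd.wf m p.1 ∧ Cd.vd m p.1 ∧ p.1 ≤ c} := he ▸ mem_range_self n
      exact h _ hn _
    · intro h
      refine ⟨hle _ _ _ (h 0), fun c' hc' s => ?_⟩
      have : (c', s) ∈ range e := he ▸ hc'
      obtain ⟨n, hn⟩ := this
      have := h n
      rwa [hn] at this
  choose M hM hMeq using h2
  obtain ⟨hrefl, htrans⟩ := hTP.2.1 S m
  obtain ⟨Cs, hCs, -, hCeq⟩ := hFN (TT S m) (TT.Le m) hrefl htrans (hTB S m 0).2.1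
    (fun i => M (e i).1 (e i).2) (fun i => hM _ _)
  have hrep : ∀ B, IsClosed[τ (m + 1)] B → del τ f m c B = ⋃ L ∈ Cs, dL τ g m L B := by
    intro B hB
    have h3 := hCeq X (fun t => hom τ g m t B) (fun a b hab => (hZA X S τ g m).2.1 a b hab B)
    rw [hdel B, iInter_congr fun n => hMeq (e n).1 (e n).2 B hB, h3]
    rfl
  refine ⟨Cs, hCs, fun B hB => ⟨hrep B hB, fun x => ?_⟩⟩
  have : Finite Cs := hCs.to_subtype
  obtain ⟨hd', hit⟩ := (hUF X (τ (m + 1)) (hT.zd _) Cs).1 (fun L => dL τ g m L.1)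
    (fun L => (hZM X S τ g hT hF m).2.2 L.1)
  rw [iterCongr_RP hIL (τ (m + 1)) _ _ hd' (fun B hB => by rw [hrep B hB, biUnion_eq_iUnion]) B hB,
    hit B x hB, biUnion_eq_iUnion]

theorem hRP (hRB : StRB) (hCA : StCA) (hHA : StHA) (hHU : StHU) (hUF : StUF) (hFN : StFN)
    (hTB : StTB) (hTP : StTP) (hZM : StZM) (hZA : StZA) (hIT : StIT) (hIL : StIL) : StRP := by
  intro S _ h X τ g hT hF m
  have hfib : ∀ s, Clp (τ 0) ((h ∘ g) ⁻¹' {s}) := by
    intro s
    have e : (h ∘ g) ⁻¹' {s} = ⋃ t ∈ {t : S | h t = s}, g ⁻¹' {t} := by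
      ext y
      simp
    rw [e]
    exact @Set.Finite.isClopen_biUnion X (τ 0) _ _ _ (Set.toFinite _) (fun t _ => hF t)
  have hRBm := hRB X τ (h ∘ g) hT hfib
  have hle : ∀ m (c : Cd m) s B, HomOp (τ (m + 1)) (Zo τ (h ∘ g) m c s) B ⊆ B := fun m c s B =>
    ((hRBm m).2.2.2 c s).le B
  -- `HomOp`
  have two : ∀ m, (∀ (c : Cd m) (s : Bool), ∃ M : Set (TT S m), M.Finite ∧ ∀ B, IsClosed[τ m] B →
      Zo τ (h ∘ g) m c s B = ⋃ t ∈ M, Z τ g m t B) →
      ∀ (c : Cd m) (s : Bool), ∃ M : Set (TT S m), M.Finite ∧ ∀ B, IsClosed[τ (m + 1)] B →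
        HomOp (τ (m + 1)) (Zo τ (h ∘ g) m c s) B = ⋃ t ∈ M, hom τ g m t B := by
    intro m h1 c s
    obtain ⟨M, hM, hMeq⟩ := h1 c s
    refine ⟨M, hM, two_RP τ g hT hF hZM hHU m _ ?_ M hM hMeq⟩
    have hd := (hRBm m).2.1 c s
    refine ⟨hd.mono, hd.le, fun O B hO => hd.loc O B ?_⟩
    exact ⟨@IsClosed.mk X (τ m) O ((hT.mono m) _ (@IsClosed.isOpen_compl X (τ (m + 1)) O hO.1)),
      (hT.mono m) _ hO.2⟩
  -- `Vo`
  have list : ∀ m, (∀ (c : Cd m) (s : Bool), ∃ M : Set (TT S m), M.Finite ∧ ∀ B, IsClosed[τ (m + 1)] B →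
        HomOp (τ (m + 1)) (Zo τ (h ∘ g) m c s) B = ⋃ t ∈ M, hom τ g m t B) →
      ∀ l : List (Cd m ×ₗ ℕ), ∃ (k : ℕ) (P : Fin k → ℕ → Option (TT S (m + 1))),
        ∀ B, IsClosed[τ (m + 1)] B →
          Vo τ (h ∘ g) (m + 1) (Cd.of l) B = ⋃ q, pf_RP τ g m (P q) B := by
    intro m h2 l
    induction l using List.reverseRecOn with
    | nil =>
      refine ⟨1, fun _ _ => none, fun B _ => ?_⟩
      have e : ∀ q : Fin 1, pf_RP τ g m ((fun _ _ => none : Fin 1 → ℕ → Option (TT S (m + 1))) q) B = B := by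
        intro q
        unfold pf_RP
        exact iInter_const B
      rw [iUnion_congr e, iUnion_const]
      rfl
    | append_singleton l e ih =>
      obtain ⟨k, P, hP⟩ := ih
      have hV : ∀ B, Vo τ (h ∘ g) (m + 1) (Cd.of (l ++ [e])) B =
          iter (del τ (h ∘ g) m (ofLex e).1) (Vo τ (h ∘ g) (m + 1) (Cd.of l) B)
            (ω ^ ((ofLex e).2 : Ordinal.{0})) := by
        intro B
        show foldV (τ (m + 1)) m (VZ τ (h ∘ g) m).2 (l ++ [e]) B = _
        unfold foldV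
        rw [List.foldl_append]
        rfl
      have hcl : ∀ B, IsClosed[τ (m + 1)] B → IsClosed[τ (m + 1)] (Vo τ (h ∘ g) (m + 1) (Cd.of l) B) :=
        fun B hB => ((hRBm (m + 1)).1 _).closed B hB
      rcases {p : Cd m × Bool | Cd.wf m p.1 ∧ Cd.vd m p.1 ∧ p.1 ≤ (ofLex e).1}.eq_empty_or_nonempty
        with hem | hne
      · refine ⟨k, P, fun B hB => ?_⟩
        have hd := (hRBm m).2.2.1 (ofLex e).1
        have h8 := (hIT X _ hd.mono hd.le).2.2.2.2.2.2.2.1
        rw [hV B, h8 _ _ ?_, hP B hB]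
        intro y hy
        unfold del delOf
        refine ⟨hy, ?_⟩
        simp only [mem_iInter]
        intro c' hc' s
        have : (c', s) ∈ {p : Cd m × Bool | Cd.wf m p.1 ∧ Cd.vd m p.1 ∧ p.1 ≤ (ofLex e).1} := hc'
        rw [hem] at this
        exact absurd this (by simp)
      · obtain ⟨Cs, hCs, hCeq⟩ := three_RP hIL hUF hFN hTB hTP hZM hZA hCA τ g hT hF (h ∘ g) m h2 (hle m)
          (ofLex e).1 hne
        have : Finite Cs := hCs.to_subtype
        choose k' P' hP' using fun L : Cs => step_RP τ g hT hF hZM hIT hUF hHA hFN hTB hTP hZA m L.1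
          (ofLex e).2 k P
        obtain ⟨k'', P'', hP''⟩ := toFin_RP τ g m (fun p : (Σ L : Cs, Fin (k' L)) => P' p.1 p.2)
        refine ⟨k'', P'', fun B hB => ?_⟩
        rw [hV B, (hCeq _ (hcl B hB)).2, hP B hB, ← hP'' B, iUnion_sigma, biUnion_eq_iUnion]
        exact iUnion_congr fun L => hP' L B hB
  have one : ∀ m, ∀ (c : Cd m) (s : Bool), ∃ M : Set (TT S m), M.Finite ∧ ∀ B, IsClosed[τ m] B →
      Zo τ (h ∘ g) m c s B = ⋃ t ∈ M, Z τ g m t B := by
    intro m
    induction m with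
    | zero =>
      intro c s
      have hfin : Finite (TT S 0) := inferInstanceAs (Finite S)
      refine ⟨{t : TT S 0 | h t = s}, Set.toFinite _, fun B _ => ?_⟩
      show B ∩ (h ∘ g) ⁻¹' {s} = ⋃ t ∈ {t : TT S 0 | h t = s}, B ∩ g ⁻¹' {(t : S)}
      ext y
      simp only [mem_inter_iff, mem_preimage, Function.comp_apply, mem_singleton_iff, Set.mem_ofPred_eq,
        mem_iUnion, exists_prop]
      constructor
      · rintro ⟨h1, h2⟩
        exact ⟨g y, h2, h1, rfl⟩
      · rintro ⟨t, h1, h2, h3⟩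
        refine ⟨h2, ?_⟩
        rw [h3]
        exact h1
    | succ m ih =>
      intro c s
      obtain ⟨M, hM, hMeq⟩ := two m ih (lastc c.L) s
      obtain ⟨k, P, hP⟩ := list m (two m ih) c.L.dropLast
      choose T hTT using fun (e : TT S m) (F : ℕ → Option (TT S (m + 1))) =>
        homPf_RP τ g hT hF hZM m e F
      refine ⟨(fun p : TT S m × Fin k => T p.1 (P p.2)) '' (M ×ˢ univ),
        (hM.prod finite_univ).image _, fun B hB => ?_⟩
      have hcl : ∀ q, IsClosed[τ (m + 1)] (pf_RP τ g m (P q) B) := fun q =>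
        closedPf_RP τ g hT hF hZM m (P q) B hB
      have hclV : IsClosed[τ (m + 1)] (⋃ q, pf_RP τ g m (P q) B) :=
        @isClosed_iUnion_of_finite _ _ (τ (m + 1)) _ _ hcl
      show HomOp (τ (m + 1)) (Zo τ (h ∘ g) m (lastc c.L) s) (Vo τ (h ∘ g) (m + 1) (Cd.of c.L.dropLast) B) = _
      rw [hP B hB, hMeq _ hclV]
      have e1 : ∀ t : TT S m, hom τ g m t (⋃ q, pf_RP τ g m (P q) B) =
          ⋃ q, Z τ g (m + 1) (T t (P q)) B := by
        intro t
        rw [homU_RP τ g hT hF hZM hHA m t _ hcl]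
        exact iUnion_congr fun q => hTT t (P q) B
      simp only [e1]
      ext y
      simp only [mem_iUnion, mem_image, mem_prod, mem_univ, and_true, Prod.exists, exists_prop]
      constructor
      · rintro ⟨t, ht, q, hq⟩
        exact ⟨_, ⟨t, q, ht, rfl⟩, hq⟩
      · rintro ⟨_, ⟨t, q, ht, rfl⟩, hq⟩
        exact ⟨t, ht, q, hq⟩
  refine ⟨one m, two m (one m), fun c hc hb => ?_⟩
  refine three_RP hIL hUF hFN hTB hTP hZM hZA hCA τ g hT hF (h ∘ g) m (two m (one m)) (hle m) c ?_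
  obtain ⟨-, hbot, hwb, -, hr, -⟩ := hCA m
  obtain ⟨r, h1, h2, -, h3⟩ := hr _ c hwb hc (lt_of_le_of_ne (hbot c) (Ne.symm hb))
  exact ⟨(r, true), h1, h2, h3⟩

end Pool.Agent.Helper24.WH
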