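import Pool.Agent.Helper24.WH.St5

/-!
# PROJECT WH (MP_76577a_lc), module RX: every point has a rank
-/

set_option autoImplicit false

namespace Pool.Agent.Helper24.WH

open Set TopologicalSpace Topology
open Ordinal hiding univ

theorem hRX (hRA : StRA) (hUZ : StUZ) (hCB : StCB) : StRX := by
  intro X n τ P f hR m hm A hA x hx
  obtain ⟨-, -, -, -, -, -, -, -, -, hVZ, hlim, -⟩ := hRA X τ f m
  obtain ⟨-, -, -, -, hbot, -⟩ := hUZ X τ f
  obtain ⟨-, -, -, -, -, -, -, -, -, -, hwfd⟩ := hCB m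
  obtain ⟨c₀, hc₀, hc₀E⟩ := hR.tm m hm
  have hne : ({c : {c : Cd m // Cd.wf m c} | x ∉ Vo τ f m c.1 A}).Nonempty :=
    ⟨⟨c₀, hc₀⟩, by rw [mem_ofPred_eq, hc₀E A hA]; exact notMem_empty x⟩
  obtain ⟨r, hrx, hmin⟩ := hwfd.has_min _ hne
  have hlt : ∀ c, Cd.wf m c → c < r.1 → x ∈ Vo τ f m c A := by
    intro c hc hcr
    by_contra h
    exact hmin ⟨c, hc⟩ h hcr
  have hrb : r.1 ≠ Cd.bot m := by
    intro h
    apply hrx
    rw [h, hbot m A]
    exact hx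
  have hrv : Cd.vd m r.1 := by
    by_contra h
    exact hrx (hlim r.1 A r.2 h hrb x hlt)
  obtain ⟨c, hcw, hcr, hcZ⟩ := hR.us m hm r.1 r.2 hrv
  have hxZ := hcZ A hA (hlt c hcw hcr)
  have hVx : x ∉ Zo τ f m r.1 false A ∩ Zo τ f m r.1 true A := by
    rw [← hVZ r.1 A r.2 hrv]
    exact hrx
  rcases hxZ with h | h
  · exact ⟨r.1, false, r.2, hrv, hrx, hlt, h, fun h' => hVx ⟨h, h'⟩⟩
  · exact ⟨r.1, true, r.2, hrv, hrx, hlt, h, fun h' => hVx ⟨h', h⟩⟩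

end Pool.Agent.Helper24.WH
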