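import Pool.Agent.Helper24.WH.St3

/-!
# PROJECT WH, module SC: splitting of the closure operators
-/

set_option autoImplicit false

namespace Pool.Agent.Helper24.WH

open Set TopologicalSpace Ordinal Topology

/-- splitting of the closure operators -/
theorem hSC : StSC := by
  intro X S _ τ g e G hG hCE s k B₀ B₁ B hB
  obtain ⟨hinj, hind, hcl⟩ := hCE
  have hemb : IsClosedEmbedding e := ⟨⟨⟨hind⟩, hinj⟩, hcl.1⟩
  have hopen : IsOpen (range e) := hcl.2
  have h1 : closure (g ⁻¹' {s} ∩ B) ∩ range e = closure ((g ⁻¹' {s} ∩ B) ∩ range e) := by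
    apply Subset.antisymm
    · exact hopen.closure_inter
    · refine subset_inter (closure_mono inter_subset_left) ?_
      exact closure_minimal inter_subset_right hcl.1
  have h2 : (g ⁻¹' {s} ∩ B) ∩ range e = ⋃ q, ⋃ p ∈ {p : S × S | G p = s},
      e '' ((g ⁻¹' {p.1} ∩ B₀ q) ×ˢ (g ⁻¹' {p.2} ∩ B₁ q)) := by
    rw [inter_assoc, hB]
    ext y
    simp only [mem_inter_iff, mem_preimage, mem_singleton_iff, mem_iUnion, mem_image, mem_prod,
      mem_ofPred_eq, exists_prop, Prod.exists]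
    constructor
    · rintro ⟨hy, q, x, z, ⟨hx, hz⟩, rfl⟩
      exact ⟨q, g x, g z, by rw [← hy, hG], x, z, ⟨⟨rfl, hx⟩, ⟨rfl, hz⟩⟩, rfl⟩
    · rintro ⟨q, a, c, hac, x, z, ⟨⟨hx1, hx2⟩, ⟨hz1, hz2⟩⟩, rfl⟩
      exact ⟨by rw [hG, hx1, hz1, hac], q, x, z, ⟨hx2, hz2⟩, rfl⟩
  have h3 : closure[τ] (g ⁻¹' {s} ∩ B) ∩ range e = closure ((g ⁻¹' {s} ∩ B) ∩ range e) := h1
  rw [h3, h2, closure_iUnion_of_finite]
  refine iUnion_congr fun q => ?_
  rw [(Set.toFinite {p : S × S | G p = s}).closure_biUnion]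
  refine iUnion₂_congr fun p _ => ?_
  rw [hemb.closure_image_eq, closure_prod_eq]

end Pool.Agent.Helper24.WH
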