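import Pool.Agent.Helper24.WH.St4
import Pool.Agent.Helper24.WH.M_SC
import Pool.Agent.Helper24.WH.M_IL
import Pool.Agent.Helper24.WH.M_ZM

/-!
# Project WH, module SA (4.1, 4.2): names of stage below `i`, if all stages below `i` are fine

First closedness of the values of all good names (induction on the name), then the splitting along
`Tre.mk a` (induction on the name; the closedness of the split names is used for `SD`).
-/

set_option autoImplicit false

namespace Pool.Agent.Helper24.WH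

open Set TopologicalSpace Topology
open Ordinal hiding univ

/-- closed sets of a coarser topology are closed in a finer one -/
private theorem closed_mono_SA {X : Type} {τ τ' : TopologicalSpace X} (h : τ ≤ τ') {F : Set X}
    (hF : IsClosed[τ'] F) : IsClosed[τ] F := hF.mono h

/-- the stage topologies are monotone in the height (all heights) -/
private theorem stg_height_SA (hSU : StSU) {A S : Type} [Finite A] [Finite S] (n : ℕ) (g : Tre A → S)
    (i : Ordinal.{0}) {M M' : ℕ} (h : M ≤ M') : stg n g i M ≤ stg n g i M' := by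
  induction M', h using Nat.le_induction with
  | base => exact le_refl _
  | succ k _ ih => exact le_trans ih ((hSU A S n g).2.2.2.2.1 i k)

/-- splitting with an arbitrary finite index type -/
private def Spl_SA {A S : Type} (n : ℕ) (g : Tre A → S) (h : ℕ) (i : Ordinal.{0}) (a : A)
    (P : Set (Tre A)) : Prop :=
  ∃ (ι : Type) (_ : Finite ι) (N₀ N₁ : ι → Nm S), (∀ q, GN n g (N₀ q) h i ∧ GN n g (N₁ q) h i) ∧
    P ∩ range (Tre.mk a) = ⋃ q, Tre.mk a '' (vl n g (N₀ q) ×ˢ vl n g (N₁ q))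

private theorem mk_inj_SA {A : Type} (a : A) : Function.Injective (Tre.mk a) := by
  intro p p' h
  apply Prod.ext
  · funext v
    exact congrFun h (false :: v)
  · funext v
    exact congrFun h (true :: v)

/-- intersections of splittings -/
private theorem Spl_inter_SA (hSU : StSU) {A S : Type} [Finite A] [Finite S] (n : ℕ) (g : Tre A → S)
    (h : ℕ) (i : Ordinal.{0}) (a : A) (P R : Set (Tre A)) (hP : Spl_SA n g h i a P)
    (hR : Spl_SA n g h i a R) : Spl_SA n g h i a (P ∩ R) := by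
  obtain ⟨ι, hι, N₀, N₁, hN, hPe⟩ := hP
  obtain ⟨κ, hκ, M₀, M₁, hM, hRe⟩ := hR
  have hI := (hSU A S n g).2.2.2.2.2.2.2.2
  have h0 : ∀ q : ι × κ, ∃ N'' : Nm S, GN n g N'' h i ∧
      vl n g N'' = vl n g (N₀ q.1) ∩ vl n g (M₀ q.2) := fun q =>
    hI (N₀ q.1) (M₀ q.2) h i (hN q.1).1 (hM q.2).1
  have h1 : ∀ q : ι × κ, ∃ N'' : Nm S, GN n g N'' h i ∧
      vl n g N'' = vl n g (N₁ q.1) ∩ vl n g (M₁ q.2) := fun q =>
    hI (N₁ q.1) (M₁ q.2) h i (hN q.1).2 (hM q.2).2
  choose Q₀ hQ₀ using h0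
  choose Q₁ hQ₁ using h1
  refine ⟨ι × κ, inferInstance, Q₀, Q₁, fun q => ⟨(hQ₀ q).1, (hQ₁ q).1⟩, ?_⟩
  have e1 : (P ∩ R) ∩ range (Tre.mk a) = (P ∩ range (Tre.mk a)) ∩ (R ∩ range (Tre.mk a)) := by
    ext t
    simp only [mem_inter_iff]
    tauto
  rw [e1, hPe, hRe]
  ext t
  simp only [mem_inter_iff, mem_iUnion, mem_image]
  constructor
  · rintro ⟨⟨q, p, hp, rfl⟩, ⟨r, p', hp', he⟩⟩
    have := mk_inj_SA a he
    subst this
    refine ⟨(q, r), p', ?_, rfl⟩
    rw [mem_prod] at hp hp' ⊢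
    rw [(hQ₀ (q, r)).2, (hQ₁ (q, r)).2]
    exact ⟨⟨hp.1, hp'.1⟩, ⟨hp.2, hp'.2⟩⟩
  · rintro ⟨q, p, hp, rfl⟩
    rw [mem_prod, (hQ₀ q).2, (hQ₁ q).2] at hp
    exact ⟨⟨q.1, p, ⟨hp.1.1, hp.2.1⟩, rfl⟩, ⟨q.2, p, ⟨hp.1.2, hp.2.2⟩, rfl⟩⟩

/-- finite intersections of names -/
private theorem biInter_SA (hSU : StSU) {A S : Type} [Finite A] [Finite S] (n : ℕ) (g : Tre A → S)
    (h : ℕ) (i : Ordinal.{0}) {κ : Type} [Finite κ] (J : Set κ) (F : κ → Nm S)
    (hF : ∀ q, GN n g (F q) h i) : ∃ N : Nm S, GN n g N h i ∧ vl n g N = ⋂ q ∈ J, vl n g (F q) := by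
  have hI := (hSU A S n g).2.2.2.2.2.2.2.2
  refine Set.Finite.induction_on (motive := fun J _ => ∃ N : Nm S, GN n g N h i ∧
    vl n g N = ⋂ q ∈ J, vl n g (F q)) J J.toFinite ?_ ?_
  · refine ⟨Fo.nil, trivial, ?_⟩
    simp [vl, val]
  · intro b J' _ _ ih
    obtain ⟨N, hN, hNe⟩ := ih
    obtain ⟨N'', h1, h2⟩ := hI (F b) N h i (hF b) hN
    refine ⟨N'', h1, ?_⟩
    rw [h2, hNe, biInter_insert]

/-- closedness of the values of all good names -/
private theorem closed_SA (hSU : StSU) {A S : Type} [Finite A] [Finite S] (n : ℕ)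
    (g : Tre A → S) (N : Nm S) : ∀ (h : ℕ) (i : Ordinal.{0}), (∀ j < i, StageOK n g j) →
      GN n g N h i → IsClosed[stg n g i h] (vl n g N) := by
  induction N with
  | nil => intro h i _ _; exact @isClosed_univ _ (stg n g i h)
  | leaf a rest _ => exact a.elim
  | cons l kids rest ihk ihr =>
    intro h i hst hG
    have hmono := (hSU A S n g).2.2.2.1
    cases l with
    | base M K =>
      obtain ⟨h1, _, h3, h4, _, h6⟩ := hG
      have hr := ihr h i hst h6
      have hP : IsClosed[stg n g i h] (g ⁻¹' K) :=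
        closed_mono_SA (le_trans (stg_height_SA hSU n g i h1) ((hSU A S n g).2.2.2.2.2.1 i M h3)) h4
      exact @IsClosed.inter _ _ _ (stg n g i h) hP hr
    | cl M s j =>
      obtain ⟨h1, _, h3, h4, h5, h6⟩ := hG
      have hr := ihr h i hst h6
      have hP : IsClosed[stg n g i h] (closure[stg n g j M] (g ⁻¹' {s} ∩ vl n g kids)) :=
        closed_mono_SA (le_trans (stg_height_SA hSU n g i h1) (hmono j i M h4.le))
          (@isClosed_closure _ (stg n g j M) _)
      exact @IsClosed.inter _ _ _ (stg n g i h) hP hr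
    | dd m L x j =>
      obtain ⟨h1, _, h4, h5, h6⟩ := hG
      have hr := ihr h i hst h6
      have hk := ihk (m + 1) j (fun j' hj' => hst j' (lt_trans hj' h4)) h5
      have hd := (hZM (Tre A) S (stg n g j) g (hst j h4).1 (hst j h4).2.1 m).2.2 L
      have hit := (hIL (Tre A) (stg n g j (m + 1)) _ hd (ω ^ (x : Ordinal.{0}))).closed _ hk
      have hP : IsClosed[stg n g i h] (iter (dL (stg n g j) g m L) (vl n g kids) (ω ^ (x : Ordinal.{0}))) :=
        closed_mono_SA (le_trans (stg_height_SA hSU n g i h1) (hmono j i (m + 1) h4.le)) hit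
      exact @IsClosed.inter _ _ _ (stg n g i h) hP hr

/-- **SA** -/
theorem hSA (hBB : StBB) (hSU : StSU) (hSD : StSD) : StSA := by
  intro A S _ _ n g Ga hyp N h i hst hG
  refine ⟨closed_SA hSU n g N h i hst hG, ?_⟩
  have key : ∀ (N : Nm S) (a : A) (h : ℕ) (i : Ordinal.{0}), (∀ j < i, StageOK n g j) →
      GN n g N h i → Spl_SA n g h i a (vl n g N) := by
    intro N a
    induction N with
    | nil =>
      intro h i _ _
      refine ⟨Unit, inferInstance, fun _ => Fo.nil, fun _ => Fo.nil, fun _ => ⟨trivial, trivial⟩, ?_⟩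
      rw [iUnion_const]
      simp [vl, val]
    | leaf a rest _ => exact a.elim
    | cons l kids rest ihk ihr =>
      intro h i hst hG
      cases l with
      | base M K =>
        obtain ⟨h1, h2, h3, h4, _, h6⟩ := hG
        have hr := ihr h i hst h6
        refine Spl_inter_SA hSU n g h i a (g ⁻¹' K) (vl n g rest) ?_ hr
        obtain ⟨k, K₀, K₁, c0, c1, he⟩ := (hBB A S g Ga hyp.hom (n - M)).2.2.2 K h4 a
        refine ⟨Fin k, inferInstance, fun q => Fo.cons (Lab.base M (K₀ q)) Fo.nil Fo.nil,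
          fun q => Fo.cons (Lab.base M (K₁ q)) Fo.nil Fo.nil, fun q =>
          ⟨⟨h1, h2, h3, c0 q, rfl, trivial⟩, ⟨h1, h2, h3, c1 q, rfl, trivial⟩⟩, ?_⟩
        simpa [vl, val] using he
      | cl M s j =>
        obtain ⟨h1, h2, h3, h4, h5, h6⟩ := hG
        have hr := ihr h i hst h6
        refine Spl_inter_SA hSU n g h i a (closure[stg n g j M] (g ⁻¹' {s} ∩ vl n g kids))
          (vl n g rest) ?_ hr
        obtain ⟨ι, hι, N₀, N₁, hN, hke⟩ := ihk 0 j (fun j' hj' => hst j' (lt_trans hj' h4)) h5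
        obtain ⟨k, ⟨eq⟩⟩ := Finite.exists_equiv_fin ι
        have hke' : vl n g kids ∩ range (Tre.mk a) = ⋃ q : Fin k, Tre.mk a ''
            (vl n g (N₀ (eq.symm q)) ×ˢ vl n g (N₁ (eq.symm q))) := by
          rw [hke]
          exact (eq.symm.surjective.iUnion_comp (fun q => Tre.mk a ''
            (vl n g (N₀ q) ×ˢ vl n g (N₁ q)))).symm
        have hsc := hSC (Tre A) S (stg n g j M) g (Tre.mk a) (Ga a) (hyp.hom a) ((hst j h4).2.2 a M) s k
          _ _ (vl n g kids) hke'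
        refine ⟨Fin k × {p : S × S | Ga a p = s}, inferInstance,
          fun q => Fo.cons (Lab.cl M q.2.1.1 j) (N₀ (eq.symm q.1)) Fo.nil,
          fun q => Fo.cons (Lab.cl M q.2.1.2 j) (N₁ (eq.symm q.1)) Fo.nil, fun q =>
          ⟨⟨h1, h2, h3, h4, (hN _).1, trivial⟩, ⟨h1, h2, h3, h4, (hN _).2, trivial⟩⟩, ?_⟩
        rw [hsc]
        ext t
        simp only [mem_iUnion, vl, val, inter_univ]
        constructor
        · rintro ⟨q, p, hp, ht⟩
          exact ⟨(q, ⟨p, hp⟩), ht⟩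
        · rintro ⟨⟨q, ⟨p, hp⟩⟩, ht⟩
          exact ⟨q, p, hp, ht⟩
      | dd m L x j =>
        obtain ⟨h1, h2, h4, h5, h6⟩ := hG
        have hr := ihr h i hst h6
        refine Spl_inter_SA hSU n g h i a
          (iter (dL (stg n g j) g m L) (vl n g kids) (ω ^ (x : Ordinal.{0}))) (vl n g rest) ?_ hr
        have hst' : ∀ j' < j, StageOK n g j' := fun j' hj' => hst j' (lt_trans hj' h4)
        obtain ⟨ι, hι, N₀, N₁, hN, hke⟩ := ihk (m + 1) j hst' h5
        obtain ⟨k, ⟨eq⟩⟩ := Finite.exists_equiv_fin ι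
        have hke' : vl n g kids ∩ range (Tre.mk a) = ⋃ q : Fin k, Tre.mk a ''
            (vl n g (N₀ (eq.symm q)) ×ˢ vl n g (N₁ (eq.symm q))) := by
          rw [hke]
          exact (eq.symm.surjective.iUnion_comp (fun q => Tre.mk a ''
            (vl n g (N₀ q) ×ˢ vl n g (N₁ q)))).symm
        obtain ⟨K, J, L₀, L₁, _, hsd⟩ := hSD (Tre A) S (stg n g j) g (Tre.mk a) (Ga a) (hst j h4).1
          (hst j h4).2.1 (hyp.hom a) ((hst j h4).2.2 a) m L x k _ _ (vl n g kids)
          (fun q => closed_SA hSU n g (N₀ (eq.symm q)) (m + 1) j hst' (hN _).1)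
          (fun q => closed_SA hSU n g (N₁ (eq.symm q)) (m + 1) j hst' (hN _).2)
          (closed_SA hSU n g kids (m + 1) j hst' h5) hke'
        have g0 : ∀ r : Fin K, ∃ N : Nm S, GN n g N h i ∧ vl n g N = ⋂ q ∈ J r,
            vl n g (Fo.cons (Lab.dd m (L₀ r q) x j) (N₀ (eq.symm q)) Fo.nil) := fun r =>
          biInter_SA hSU n g h i (J r)
            (fun q => Fo.cons (Lab.dd m (L₀ r q) x j) (N₀ (eq.symm q)) Fo.nil)
            (fun q => ⟨h1, h2, h4, (hN _).1, trivial⟩)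
        have g1 : ∀ r : Fin K, ∃ N : Nm S, GN n g N h i ∧ vl n g N = ⋂ q ∈ J r,
            vl n g (Fo.cons (Lab.dd m (L₁ r q) x j) (N₁ (eq.symm q)) Fo.nil) := fun r =>
          biInter_SA hSU n g h i (J r)
            (fun q => Fo.cons (Lab.dd m (L₁ r q) x j) (N₁ (eq.symm q)) Fo.nil)
            (fun q => ⟨h1, h2, h4, (hN _).2, trivial⟩)
        choose Q₀ hQ₀ using g0
        choose Q₁ hQ₁ using g1
        refine ⟨Fin K, inferInstance, Q₀, Q₁, fun r => ⟨(hQ₀ r).1, (hQ₁ r).1⟩, ?_⟩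
        rw [hsd]
        refine iUnion_congr fun r => ?_
        rw [(hQ₀ r).2, (hQ₁ r).2]
        simp only [vl, val, inter_univ]
  intro a
  obtain ⟨ι, hι, N₀, N₁, hN, he⟩ := key N a h i hst hG
  obtain ⟨k, ⟨eq⟩⟩ := Finite.exists_equiv_fin ι
  refine ⟨k, fun q => N₀ (eq.symm q), fun q => N₁ (eq.symm q), fun q => hN _, ?_⟩
  rw [he]
  exact (eq.symm.surjective.iUnion_comp (fun q => Tre.mk a ''
    (vl n g (N₀ q) ×ˢ vl n g (N₁ q)))).symm

end Pool.Agent.Helper24.WH
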