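import Pool.Agent.Helper24.WH.St4

/-!
# Project WH, module SB
-/

set_option autoImplicit false

namespace Pool.Agent.Helper24.WH

open Set TopologicalSpace Topology
open Ordinal hiding univ

private theorem isClosed_mono_SB {X : Type} {τ τ' : TopologicalSpace X} (h : τ ≤ τ') {F : Set X}
    (hF : IsClosed[τ'] F) : IsClosed[τ] F :=
  @IsClosed.mk X τ F (h _ (@IsClosed.isOpen_compl X τ' F hF))

private theorem isOpen_mono_SB {X : Type} {τ τ' : TopologicalSpace X} (h : τ ≤ τ') {F : Set X}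
    (hF : IsOpen[τ'] F) : IsOpen[τ] F :=
  h _ hF

theorem hSB (hNT : StNT) (hSU : StSU) : StSB := by
  intro A S _ _ n g Ga hyp i hN
  obtain ⟨-, -, -, nzd, -, nce, -, -, -, -⟩ := hNT A
  obtain ⟨sun, -, -, -, sM, sb, -, so, -⟩ := hSU A S n g
  have hcl : ∀ M, ∀ F ∈ {F | ∃ N : Nm S, GN n g N (M + 1) i ∧ F = vl n g N},
      IsClosed[stg n g i M] F := by
    rintro M F ⟨N, hg, rfl⟩
    exact isClosed_mono_SB (sM i M) (hN N (M + 1) hg).1
  refine ⟨⟨fun M => sM i M, fun M => ?_⟩, fun s => ?_, fun a M => ?_⟩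
  · rw [sun i M]
    refine nzd _ ?_
    rw [← sun i M]
    exact hcl M
  · have h := hyp.cont s
    have h2 := sb i 0 (Nat.zero_le n)
    rw [Nat.sub_zero] at h2
    exact ⟨isClosed_mono_SB h2 h.1, isOpen_mono_SB h2 h.2⟩
  · have key := nce {F | ∃ N : Nm S, GN n g N (M + 1) i ∧ F = vl n g N} (by
      rintro F ⟨N, hg, rfl⟩ b
      obtain ⟨k, N₀, N₁, hk, he⟩ := (hN N (M + 1) hg).2 b
      refine ⟨k, fun q => vl n g (N₀ q), fun q => vl n g (N₁ q), fun q => ?_, fun q => ?_, he⟩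
      · rw [← sun i M]
        exact so _ _ _ (hk q).1
      · rw [← sun i M]
        exact so _ _ _ (hk q).2) a
    rw [← sun i M] at key
    exact key

end Pool.Agent.Helper24.WH
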