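import Pool.Agent.Helper24.WH.St4

/-!
# Project WH, module SG
-/

set_option autoImplicit false

namespace Pool.Agent.Helper24.WH

theorem hSG (h1 : StSA) (h2 : StSB) : StSG := by
  intro A S _ _ n g Ga hyp
  have hst : ∀ i : Ordinal.{0}, StageOK n g i := by
    intro i
    induction i using WellFoundedLT.induction with
    | ind i ih =>
      exact h2 A S n g Ga hyp i fun N h hN => h1 A S n g Ga hyp N h i ih hN
  exact ⟨hst, fun N h i hN => h1 A S n g Ga hyp N h i (fun j _ => hst j) hN⟩

end Pool.Agent.Helper24.WH
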