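import Pool.Agent.Helper24.WH.St6

/-!
# PROJECT WH (MP_76577a_lc), module SH : the shrinking lemma
-/

set_option autoImplicit false

namespace Pool.Agent.Helper24.WH

open Set TopologicalSpace Topology

private lemma anti_SH {X : Type} {P : ℕ → Set (Set X)} (h : ∀ M, P (M + 1) ⊆ P M) :
    ∀ M, P M ⊆ P 0 := by
  intro M
  induction M with
  | zero => exact le_rfl
  | succ M ih => exact (h M).trans ih

theorem hSH : StSH := by
  intro A₂ n τ' P' f' hT j hj E hE z hz U hU hzU k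
  have hR := hT.rich
  obtain ⟨O, hO, hzO, hOU⟩ := hR.basis j hj z U hU hzU
  have hzC : z ∈ Cyl k z := fun u _ => rfl
  set R : Set (Tre A₂) := O ∩ Cyl k z with hRdef
  have hRP : R ∈ P' (j + 1) := hR.inter (j + 1) O hO _ (hT.cyl (j + 1) k z)
  have hzR : z ∈ R := ⟨hzO, hzC⟩
  have hRE : R ∩ E ∈ P' 0 := hR.inter 0 R (anti_SH hR.anti _ hRP) E hE
  have hcl : closure[τ' (j + 1)] (R ∩ E) ∈ P' (j + 1) := hR.clo (j + 1) (by omega) _ hRE
  have hsub : R ∩ E ⊆ closure[τ' (j + 1)] (R ∩ E) := @subset_closure _ (τ' (j + 1)) _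
  refine ⟨R ∩ closure[τ' (j + 1)] (R ∩ E), hR.inter (j + 1) R hRP _ hcl, ⟨hzR, hsub ⟨hzR, hz⟩⟩,
    fun x hx => hOU hx.1.1, fun x hx => hx.1.2, fun x hx => ?_⟩
  have hm : R ∩ E ⊆ R ∩ closure[τ' (j + 1)] (R ∩ E) ∩ E := fun y hy => ⟨⟨hy.1, hsub hy⟩, hy.2⟩
  exact (@closure_mono _ (τ' (j + 1)) _ _ hm) hx.2

end Pool.Agent.Helper24.WH
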