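import Pool.Agent.Helper24.WH.St3

/-!
# WH module ZA (3.2): the operators are antitone in the term
-/

set_option autoImplicit false

namespace Pool.Agent.Helper24.WH

open Set TopologicalSpace Ordinal Topology

private theorem clm_ZA {X : Type} (τ : TopologicalSpace X) {A B : Set X} (h : A ⊆ B) :
    closure[τ] A ⊆ closure[τ] B :=
  closure_mono h

private theorem hop_le_ZA {X : Type} (τ : TopologicalSpace X) (z : Set X → Set X) (B : Set X) :
    HomOp τ z B ⊆ B := by
  rintro x ⟨W, ⟨h1, _⟩, hx⟩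
  exact h1 hx

private theorem hop_mono_ZA {X : Type} (τ : TopologicalSpace X) (z : Set X → Set X) {A B : Set X}
    (h : A ⊆ B) : HomOp τ z A ⊆ HomOp τ z B := by
  rintro x ⟨W, ⟨h1, h2⟩, hx⟩
  exact ⟨W, ⟨h1.trans h, h2⟩, hx⟩

private theorem hop_anti_ZA {X : Type} (τ : TopologicalSpace X) {z z' : Set X → Set X}
    (h : ∀ B, z' B ⊆ z B) (B : Set X) : HomOp τ z' B ⊆ HomOp τ z B := by
  rintro x ⟨W, ⟨h1, h2⟩, hx⟩
  exact ⟨W, ⟨h1, h2.trans (closure_mono (h W))⟩, hx⟩

private theorem hop_self_ZA {X : Type} (τ : TopologicalSpace X) {z : Set X → Set X}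
    (hz : ∀ A B, A ⊆ B → z A ⊆ z B) (B : Set X) :
    HomOp τ z B ⊆ closure[τ] (z (HomOp τ z B)) := by
  rintro x ⟨W, hW, hx⟩
  exact closure_mono (hz _ _ (subset_sUnion_of_mem hW)) (hW.2 hx)

private theorem hop_in_ZA {X : Type} (τ : TopologicalSpace X) (z : Set X → Set X) {W B : Set X}
    (h1 : W ⊆ B) (h2 : W ⊆ closure[τ] (z W)) : W ⊆ HomOp τ z B :=
  fun _ hx => ⟨W, ⟨h1, h2⟩, hx⟩

private theorem mono_ZA {X S : Type} (τ : ℕ → TopologicalSpace X) (g : X → S) : ∀ (m : ℕ) (t : TT S m)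
    (A B : Set X), A ⊆ B → Z τ g m t A ⊆ Z τ g m t B := by
  intro m
  cases m with
  | zero => exact fun t A B h => inter_subset_inter_left _ h
  | succ m =>
    intro t
    change Tr (TT S m) at t
    induction t with
    | leaf U => exact fun A B h => hop_mono_ZA _ _ h
    | node U F ih => exact fun A B h => hop_mono_ZA _ _ (iInter_mono fun i => ih i A B h)

private theorem le_ZA {X S : Type} (τ : ℕ → TopologicalSpace X) (g : X → S) (m : ℕ) (t : Tr (TT S m))
    (B : Set X) : Z τ g (m + 1) t B ⊆ B := by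
  induction t with
  | leaf U => exact hop_le_ZA _ _ _
  | node U F ih => exact (hop_le_ZA _ _ _).trans ((iInter_subset _ 0).trans (ih 0))

private theorem val_ZA {X S : Type} (τ : ℕ → TopologicalSpace X) (g : X → S) (m : ℕ) (t : Tr (TT S m))
    (B : Set X) : Z τ g (m + 1) t B ⊆ closure[τ (m + 1)] (Z τ g m t.lab (Z τ g (m + 1) t B)) := by
  cases t with
  | leaf U => exact hop_self_ZA _ (mono_ZA τ g m U) _
  | node U F => exact hop_self_ZA _ (mono_ZA τ g m U) _

private theorem anti_ZA {X S : Type} (τ : ℕ → TopologicalSpace X) (g : X → S) : ∀ (m : ℕ)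
    (t t' : TT S m), TT.Le m t t' → ∀ B : Set X, Z τ g m t' B ⊆ Z τ g m t B := by
  intro m
  induction m with
  | zero =>
    intro t t' h B
    change t = t' at h
    rw [h]
  | succ m ihm =>
    intro t t' h B
    change Tr (TT S m) at t t'
    change Tr.Le (TT.Le m) t t' at h
    induction h with
    | sub t U' F' j _ ih =>
      exact (hop_le_ZA _ _ _).trans ((iInter_subset _ j).trans ih)
    | leaf U t' hU =>
      exact hop_in_ZA _ _ (le_ZA τ g m t' B)
        ((val_ZA τ g m t' B).trans (clm_ZA (τ (m + 1)) (ihm U t'.lab hU _)))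
    | node U F t' hU _ ih =>
      exact hop_in_ZA _ _ (subset_iInter fun i => ih i)
        ((val_ZA τ g m t' B).trans (clm_ZA (τ (m + 1)) (ihm U t'.lab hU _)))

theorem hZA : StZA := by
  intro X S τ g m
  have h2 : ∀ (t t' : TT S m), TT.Le m t t' → ∀ B : Set X, hom τ g m t' B ⊆ hom τ g m t B :=
    fun t t' h B => hop_anti_ZA _ (fun W => anti_ZA τ g m t t' h W) B
  refine ⟨anti_ZA τ g m, h2, ?_, mono_ZA τ g m⟩
  intro L L' h B
  refine subset_iInter fun i => ?_
  obtain ⟨j, hj⟩ := h i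
  exact (iInter_subset _ j).trans (h2 _ _ hj B)

end Pool.Agent.Helper24.WH
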