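import Pool.Agent.Helper24.WH.St3

set_option autoImplicit false

namespace Pool.Agent.Helper24.WH

open Set TopologicalSpace Ordinal Topology

private lemma closure_ZF {X : Type} {τ τ' : TopologicalSpace X} (h : τ' ≤ τ) (A : Set X) :
    closure[τ'] A ⊆ closure[τ] A := by
  have h1 : IsClosed[τ'] (closure[τ] A) := (@isClosed_closure X τ A).mono h
  exact closure_minimal (@subset_closure X τ A) h1

private lemma homOp_mono_ZF {X : Type} (τ : TopologicalSpace X) (z : Set X → Set X) {A B : Set X}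
    (h : A ⊆ B) : HomOp τ z A ⊆ HomOp τ z B :=
  sUnion_subset_sUnion fun _ hW => ⟨hW.1.trans h, hW.2⟩

private lemma homOp_le_ZF {X : Type} {τ τ' : TopologicalSpace X} (h : τ' ≤ τ)
    {z z' : Set X → Set X} (hz : ∀ B, z' B ⊆ z B) (B : Set X) :
    HomOp τ' z' B ⊆ HomOp τ z B :=
  sUnion_subset_sUnion fun W hW =>
    ⟨hW.1, hW.2.trans ((closure_ZF h _).trans (@closure_mono X τ _ _ (hz W)))⟩

private lemma ztr_ZF {X A : Type} (h h' : A → Set X → Set X) (hm : ∀ U B C, B ⊆ C → h U B ⊆ h U C)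
    (hh : ∀ U B, h' U B ⊆ h U B) : ∀ (t : Tr A) (B : Set X), ZTr h' t B ⊆ ZTr h t B
  | .leaf U, B => hh U B
  | .node U F, B =>
      (hh U _).trans (hm U _ _ (iInter_mono fun i => ztr_ZF h h' hm hh (F i) B))

private lemma z_ZF {X S : Type} (τ τ' : ℕ → TopologicalSpace X) (g : X → S)
    (h : ∀ m, τ' m ≤ τ m) : ∀ (m : ℕ) (t : TT S m) (B : Set X), Z τ' g m t B ⊆ Z τ g m t B
  | 0, _, _ => Subset.rfl
  | (m + 1), t, B => by
      change ZTr (fun U => HomOp (τ' (m + 1)) (Z τ' g m U)) t B ⊆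
        ZTr (fun U => HomOp (τ (m + 1)) (Z τ g m U)) t B
      exact ztr_ZF (fun U => HomOp (τ (m + 1)) (Z τ g m U)) (fun U => HomOp (τ' (m + 1)) (Z τ' g m U))
        (fun U B C hBC => homOp_mono_ZF _ _ hBC)
        (fun U B => homOp_le_ZF (h (m + 1)) (z_ZF τ τ' g h m U) B) t B

private lemma dL_ZF {X S : Type} (τ τ' : ℕ → TopologicalSpace X) (g : X → S)
    (h : ∀ m, τ' m ≤ τ m) (m : ℕ) (L : ℕ → TT S m) (B : Set X) :
    dL τ' g m L B ⊆ dL τ g m L B :=
  iInter_mono fun i => homOp_le_ZF (h (m + 1)) (z_ZF τ τ' g h m (L i)) B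

private lemma dL_mono_ZF {X S : Type} (τ : ℕ → TopologicalSpace X) (g : X → S) (m : ℕ)
    (L : ℕ → TT S m) {A B : Set X} (h : A ⊆ B) : dL τ g m L A ⊆ dL τ g m L B :=
  iInter_mono fun _ => homOp_mono_ZF _ _ h

private lemma iter_ZF {X : Type} (d d' : Set X → Set X) (hm : ∀ A B, A ⊆ B → d A ⊆ d B)
    (hh : ∀ B, d' B ⊆ d B) (B : Set X) (α : Ordinal.{0}) : iter d' B α ⊆ iter d B α := by
  induction α using WellFoundedLT.induction with
  | ind α ih =>
    rw [iter, iter]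
    intro x hx
    refine ⟨hx.1, ?_⟩
    rw [mem_iInter]
    intro β
    have h1 := mem_iInter.1 hx.2 β
    exact hm _ _ (ih β.1 β.2) (hh _ h1)

/-- a finer tower gives smaller sets -/
theorem hZF : StZF := by
  intro X S τ τ' g h m
  refine ⟨z_ZF τ τ' g h m, dL_ZF τ τ' g h m, fun L B α => ?_⟩
  exact iter_ZF _ _ (fun A B hAB => dL_mono_ZF τ g m L hAB) (dL_ZF τ τ' g h m L) B α

end Pool.Agent.Helper24.WH
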