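import Pool.Agent.Helper24.WH.St4
import Pool.Agent.Helper24.WH.M_IT
import Pool.Agent.Helper24.WH.M_ZA
import Pool.Agent.Helper24.WH.M_ZF

/-!
# PROJECT WH, module SO: soundness of the order of names
-/

set_option autoImplicit false

namespace Pool.Agent.Helper24.WH

open Set TopologicalSpace Topology
open Ordinal hiding univ

/-- value of a tree -/
private def tv_SO {A S : Type} (n : ℕ) (g : Tre A → S) (l : Lab S) (kids : Nm S) : Set (Tre A) :=
  match l with
  | .base _ K => g ⁻¹' K
  | .cl M s j => closure[stg n g j M] (g ⁻¹' {s} ∩ vl n g kids)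
  | .dd m L x j => iter (dL (stg n g j) g m L) (vl n g kids) (ω ^ (x : Ordinal.{0}))

/-- a tree is good -/
private def tg_SO {A S : Type} (n : ℕ) (g : Tre A → S) (l : Lab S) (kids : Nm S) (h : ℕ)
    (i : Ordinal.{0}) : Prop :=
  match l with
  | .base M K => h ≤ M ∧ 1 ≤ M ∧ M ≤ n ∧ okb n g M K ∧ kids = .nil
  | .cl M _ j => h ≤ M ∧ 1 ≤ M ∧ M ≤ n ∧ j < i ∧ GN n g kids 0 j
  | .dd m _ _ j => h ≤ m + 1 ∧ m + 1 ≤ n ∧ j < i ∧ GN n g kids (m + 1) j

private theorem vl_cons_SO {A S : Type} (n : ℕ) (g : Tre A → S) (l : Lab S) (kids rest : Nm S) :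
    vl n g (.cons l kids rest) = tv_SO n g l kids ∩ vl n g rest := by
  cases l <;> rfl

private theorem GN_cons_SO {A S : Type} (n : ℕ) (g : Tre A → S) (l : Lab S) (kids rest : Nm S)
    (h : ℕ) (i : Ordinal.{0}) :
    GN n g (.cons l kids rest) h i ↔ tg_SO n g l kids h i ∧ GN n g rest h i := by
  cases l <;> simp only [GN, Good, tg_SO, and_assoc]

/-- the stage of a label is below `i` -/
private def sl_SO {S : Type} (l : Lab S) (i : Ordinal.{0}) : Prop :=
  match l with
  | .base _ _ => True
  | .cl _ _ j => j < i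
  | .dd _ _ _ j => j < i

private theorem sl_mono_SO {S : Type} (l : Lab S) (i i' : Ordinal.{0}) (h : i ≤ i')
    (hl : sl_SO l i) : sl_SO l i' := by
  cases l with
  | base M K => trivial
  | cl M s j => exact lt_of_lt_of_le hl h
  | dd m L x j => exact lt_of_lt_of_le hl h

private theorem sl_of_le_SO {A S : Type} (n : ℕ) (g : Tre A → S) (l l' : Lab S) (kids' : Nm S)
    (h' : ℕ) (i' : Ordinal.{0}) (hll : Lab.Le l l') (hg : tg_SO n g l' kids' h' i') :
    sl_SO l i' := by
  cases hll with
  | base M K => trivial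
  | cl M s j j' hj => exact lt_of_le_of_lt hj hg.2.2.2.1
  | dd m L L' x x' j j' _ _ hj => exact lt_of_le_of_lt hj hg.2.2.1

private theorem find_sl_SO {A S : Type} (n : ℕ) (g : Tre A → S) (l : Lab S) (P : Nm S → Prop)
    (N' : Nm S) : ∀ (h' : ℕ) (i' : Ordinal.{0}), GN n g N' h' i' →
      Fo.FindT Lab.Le Lab.ht l P N' → sl_SO l i' := by
  induction N' with
  | nil => intro h' i' _ hf; exact hf.elim
  | leaf a rest ih => exact a.elim
  | cons l' kids' rest' ihk ihr =>
    intro h' i' hG hf
    rw [GN_cons_SO] at hG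
    rcases hf with ⟨hll, _⟩ | ⟨_, hf⟩ | hf
    · exact sl_of_le_SO n g l l' kids' h' i' hll hG.1
    · cases l' with
      | base M K =>
        have : kids' = .nil := hG.1.2.2.2.2
        rw [this] at hf
        exact hf.elim
      | cl M s j =>
        have hj : j < i' := hG.1.2.2.2.1
        exact sl_mono_SO l j i' hj.le (ihk 0 j hG.1.2.2.2.2 hf)
      | dd m L x j =>
        have hj : j < i' := hG.1.2.2.1
        exact sl_mono_SO l j i' hj.le (ihk (m + 1) j hG.1.2.2.2 hf)
    · exact ihr h' i' hG.2 hf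

/-- a good tree stays good after lowering the height and changing the stage -/
private theorem tg_change_SO {A S : Type} (n : ℕ) (g : Tre A → S) (l : Lab S) (kids : Nm S)
    (h : ℕ) (i : Ordinal.{0}) (hg : tg_SO n g l kids h i) (h' : ℕ) (hh : h' ≤ l.ht)
    (i' : Ordinal.{0}) (hs : sl_SO l i') : tg_SO n g l kids h' i' := by
  cases l with
  | base M K => exact ⟨hh, hg.2.1, hg.2.2.1, hg.2.2.2.1, hg.2.2.2.2⟩
  | cl M s j => exact ⟨hh, hg.2.1, hg.2.2.1, hs, hg.2.2.2.2⟩
  | dd m L x j => exact ⟨hh, hg.2.1, hs, hg.2.2.2⟩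

/-- match -/
private theorem match_SO (hSU : StSU) {A S : Type} [Finite A] [Finite S] (n : ℕ)
    (g : Tre A → S) (l l' : Lab S) (kids kids' : Nm S) (hll : Lab.Le l l')
    (hk : vl n g kids' ⊆ vl n g kids) : tv_SO n g l' kids' ⊆ tv_SO n g l kids := by
  obtain ⟨-, -, -, hmono, -⟩ := hSU A S n g
  cases hll with
  | base M K => exact Subset.rfl
  | cl M s j j' hj =>
    have h1 : stg n g j' M ≤ stg n g j M := hmono j j' M hj
    show closure[stg n g j' M] (g ⁻¹' {s} ∩ vl n g kids') ⊆
      closure[stg n g j M] (g ⁻¹' {s} ∩ vl n g kids)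
    refine @closure_minimal _ (stg n g j' M) _ _ ?_ ?_
    · refine Subset.trans (inter_subset_inter_right _ hk) ?_
      exact @subset_closure _ (stg n g j M) _
    · exact IsClosed.mono (@isClosed_closure _ (stg n g j M) _) h1
  | dd m L L' x x' j j' hL hx hj =>
    have h1 : ∀ M, stg n g j' M ≤ stg n g j M := fun M => hmono j j' M hj
    obtain ⟨-, -, hdL, -⟩ := hZA (Tre A) S (stg n g j) g m
    obtain ⟨-, hdLf, -⟩ := hZF (Tre A) S (stg n g j) (stg n g j') g h1 m
    have hmonoH : ∀ (τ : ℕ → TopologicalSpace (Tre A)) (L : ℕ → TT S m) (P Q : Set (Tre A)),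
        P ⊆ Q → dL τ g m L P ⊆ dL τ g m L Q := by
      intro τ L P Q hPQ
      refine iInter_mono fun k => ?_
      obtain ⟨-, -, -, hZm⟩ := hZA (Tre A) S τ g m
      refine sUnion_subset fun W hW => ?_
      exact subset_sUnion_of_mem (⟨hW.1.trans hPQ, hW.2⟩ : _ ∧ _)
    have hleH : ∀ (τ : ℕ → TopologicalSpace (Tre A)) (L : ℕ → TT S m) (P : Set (Tre A)),
        dL τ g m L P ⊆ P := by
      intro τ L P
      refine (iInter_subset _ 0).trans ?_
      exact sUnion_subset fun W hW => hW.1
    have hsub : ∀ P : Set (Tre A), dL (stg n g j') g m L' P ⊆ dL (stg n g j) g m L P :=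
      fun P => (hdLf L' P).trans (hdL L L' hL P)
    obtain ⟨-, -, hanti, hmon, -, -, -, -, -, hlast⟩ :=
      hIT (Tre A) (dL (stg n g j) g m L) (hmonoH _ _) (hleH _ _)
    show iter (dL (stg n g j') g m L') (vl n g kids') (ω ^ (x' : Ordinal.{0})) ⊆
      iter (dL (stg n g j) g m L) (vl n g kids) (ω ^ (x : Ordinal.{0}))
    refine (hlast (dL (stg n g j') g m L') hsub _ _).trans ?_
    refine (hmon _ _ _ hk).trans ?_
    apply hanti
    exact Ordinal.opow_le_opow_right Ordinal.omega0_pos (by exact_mod_cast hx)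

/-- found trees -/
private theorem find_SO (hSG : StSG) (hSU : StSU) {A S : Type} [Finite A] [Finite S] (n : ℕ)
    (g : Tre A → S) (Ga : A → S × S → S) (hyp : Hyp n g Ga) (l : Lab S) (kids : Nm S)
    (h : ℕ) (i : Ordinal.{0}) (hgl : tg_SO n g l kids h i)
    (ih : ∀ (N' : Nm S) (h' : ℕ) (i' : Ordinal.{0}), GN n g N' h' i' → Nm.Emb kids N' →
      vl n g N' ⊆ vl n g kids) (N' : Nm S) :
    ∀ (h' : ℕ) (i' : Ordinal.{0}), GN n g N' h' i' →
      Fo.FindT Lab.Le Lab.ht l (Fo.Emb Lab.Le (fun _ _ => True) Lab.ht kids) N' →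
      vl n g N' ⊆ tv_SO n g l kids := by
  induction N' with
  | nil => intro h' i' _ hf; exact hf.elim
  | leaf a rest ih => exact a.elim
  | cons l' kids' rest' ihk ihr =>
    intro h' i' hG hf
    rw [GN_cons_SO] at hG
    rw [vl_cons_SO]
    rcases hf with ⟨hll, hE⟩ | ⟨hht, hf⟩ | hf
    · refine inter_subset_left.trans ?_
      apply match_SO hSU n g l l' kids kids' hll
      cases l' with
      | base M K =>
        have hkn : kids' = .nil := hG.1.2.2.2.2
        exact ih kids' 0 0 (by rw [hkn]; trivial) hE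
      | cl M s j => exact ih kids' 0 j hG.1.2.2.2.2 hE
      | dd m L x j => exact ih kids' (m + 1) j hG.1.2.2.2 hE
    · refine inter_subset_left.trans ?_
      cases l' with
      | base M K =>
        have : kids' = .nil := hG.1.2.2.2.2
        rw [this] at hf
        exact hf.elim
      | cl M s j =>
        have hGk : GN n g kids' 0 j := hG.1.2.2.2.2
        have hsub : vl n g kids' ⊆ tv_SO n g l kids := ihk 0 j hGk hf
        have hs : sl_SO l j := find_sl_SO n g l _ kids' 0 j hGk hf
        have htg : tg_SO n g l kids M j := tg_change_SO n g l kids h i hgl M hht j hs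
        have hGt : GN n g (.cons l kids .nil) M j := by
          rw [GN_cons_SO]
          exact ⟨htg, trivial⟩
        have hcl : IsClosed[stg n g j M] (vl n g (.cons l kids .nil)) :=
          ((hSG A S n g Ga hyp).2 _ M j hGt).1
        rw [vl_cons_SO] at hcl
        have hval : tv_SO n g l kids ∩ vl n g (Fo.nil : Nm S) = tv_SO n g l kids := by
          show tv_SO n g l kids ∩ univ = tv_SO n g l kids
          exact inter_univ _
        rw [hval] at hcl
        show closure[stg n g j M] (g ⁻¹' {s} ∩ vl n g kids') ⊆ tv_SO n g l kids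
        exact @closure_minimal _ (stg n g j M) _ _ (inter_subset_right.trans hsub) hcl
      | dd m L x j =>
        have hGk : GN n g kids' (m + 1) j := hG.1.2.2.2
        have hsub : vl n g kids' ⊆ tv_SO n g l kids := ihk (m + 1) j hGk hf
        refine Subset.trans ?_ hsub
        show iter (dL (stg n g j) g m L) (vl n g kids') (ω ^ (x : Ordinal.{0})) ⊆ vl n g kids'
        rw [iter]
        exact inter_subset_left
    · exact inter_subset_right.trans (ihr h' i' hG.2 hf)

theorem hSO (hSG : StSG) (hSU : StSU) : StSO := by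
  intro A S _ _ n g Ga hyp N
  induction N with
  | nil => intro N' h h' i i' _ _ _; exact subset_univ _
  | leaf a rest ih => exact a.elim
  | cons l kids rest ihk ihr =>
    intro N' h h' i i' hG hG' hE
    rw [GN_cons_SO] at hG
    obtain ⟨hf, hE⟩ := hE
    rw [vl_cons_SO]
    apply subset_inter
    · have hGk : ∃ hk ik, GN n g kids hk ik := by
        cases l with
        | base M K =>
          have hkn : kids = .nil := hG.1.2.2.2.2
          exact ⟨0, 0, by rw [hkn]; trivial⟩
        | cl M s j => exact ⟨0, j, hG.1.2.2.2.2⟩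
        | dd m L x j => exact ⟨m + 1, j, hG.1.2.2.2⟩
      obtain ⟨hk, ik, hGk⟩ := hGk
      exact find_SO hSG hSU n g Ga hyp l kids h i hG.1
        (fun N'' h'' i'' hG'' hE'' => ihk N'' hk h'' ik i'' hGk hG'' hE'') N' h' i' hG' hf
    · exact ihr N' h h' i i' hG.2 hG' hE

end Pool.Agent.Helper24.WH
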