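import Pool.Agent.Helper24.WH.St4

/-!
# PROJECT WH (MP_76577a_lc), module SU: unfolding of the stage topologies, monotonicity
-/

set_option autoImplicit false

namespace Pool.Agent.Helper24.WH

open Set TopologicalSpace Topology
open Ordinal hiding univ

/-! ## node topologies -/

theorem nt_anti_SU {A : Type} {G G' : Set (Set (Tre A))} (h : G ⊆ G') : nt G' ≤ nt G := by
  apply generateFrom_anti
  apply union_subset_union_right
  rintro U ⟨F, hF, u, rfl⟩
  exact ⟨F, h hF, u, rfl⟩

theorem sub_nil_SU {A : Type} (t : Tre A) : t.sub [] = t := rfl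

theorem nt_open_SU {A : Type} {G : Set (Set (Tre A))} {F : Set (Tre A)} (hF : F ∈ G) : IsOpen[nt G] F := by
  apply isOpen_generateFrom_of_mem
  right
  refine ⟨F, hF, [], ?_⟩
  ext t
  rfl

theorem nt_univ_SU {A : Type} : nt ({univ} : Set (Set (Tre A))) = nt ∅ := by
  apply le_antisymm
  · exact nt_anti_SU (empty_subset _)
  · apply le_generateFrom
    rintro U (⟨u, a, rfl⟩ | ⟨F, hF, u, rfl⟩)
    · apply isOpen_generateFrom_of_mem
      left
      exact ⟨u, a, rfl⟩
    · have hF' : F = univ := hF
      subst hF'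
      have : {t : Tre A | t.sub u ∈ (univ : Set (Tre A))} = univ := by
        ext t
        simp
      rw [this]
      exact @isOpen_univ _ (nt ∅)

/-! ## names -/

theorem good_mono_SU {S : Type} (n : ℕ) (ok : ℕ → Set S → Prop) : ∀ (N : Nm S) (h h' : ℕ) (i i' : Ordinal.{0}),
    h' ≤ h → i ≤ i' → Good n ok N h i → Good n ok N h' i' := by
  intro N
  induction N with
  | nil => intro h h' i i' _ _ _; exact trivial
  | leaf a rest _ => exact a.elim
  | cons l kids rest ihk ihr =>
    intro h h' i i' hh hi hG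
    cases l with
    | base M K =>
      simp only [Good] at hG ⊢
      obtain ⟨h1, h2, h3, h4, h5, h6⟩ := hG
      exact ⟨hh.trans h1, h2, h3, h4, h5, ihr h h' i i' hh hi h6⟩
    | cl M s j =>
      simp only [Good] at hG ⊢
      obtain ⟨h1, h2, h3, h4, h5, h6⟩ := hG
      exact ⟨hh.trans h1, h2, h3, h4.trans_le hi, h5, ihr h h' i i' hh hi h6⟩
    | dd m L x j =>
      simp only [Good] at hG ⊢
      obtain ⟨h1, h2, h3, h4, h5⟩ := hG
      exact ⟨hh.trans h1, h2, h3.trans_le hi, h4, ihr h h' i i' hh hi h5⟩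

theorem good_one_SU {S : Type} (n : ℕ) (ok : ℕ → Set S → Prop) : ∀ (N : Nm S) (i : Ordinal.{0}),
    Good n ok N 0 i → Good n ok N 1 i := by
  intro N
  induction N with
  | nil => intro i _; exact trivial
  | leaf a rest _ => exact a.elim
  | cons l kids rest ihk ihr =>
    intro i hG
    cases l with
    | base M K =>
      simp only [Good] at hG ⊢
      obtain ⟨h1, h2, h3, h4, h5, h6⟩ := hG
      exact ⟨h2, h2, h3, h4, h5, ihr i h6⟩
    | cl M s j =>
      simp only [Good] at hG ⊢
      obtain ⟨h1, h2, h3, h4, h5, h6⟩ := hG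
      exact ⟨h2, h2, h3, h4, h5, ihr i h6⟩
    | dd m L x j =>
      simp only [Good] at hG ⊢
      obtain ⟨h1, h2, h3, h4, h5⟩ := hG
      exact ⟨Nat.le_add_left 1 m, h2, h3, h4, ihr i h5⟩

/-- the value of a good name of stage below `i` depends only on the topologies of the stages below `i` -/
theorem val_congr_SU {A S : Type} (n : ℕ) (ok : ℕ → Set S → Prop) (g : Tre A → S)
    (τ τ' : Ordinal.{0} → ℕ → TopologicalSpace (Tre A)) : ∀ (N : Nm S) (h : ℕ) (i : Ordinal.{0}),
    (∀ j, j < i → τ j = τ' j) → Good n ok N h i → val g τ N = val g τ' N := by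
  intro N
  induction N with
  | nil => intro h i _ _; rfl
  | leaf a rest _ => exact a.elim
  | cons l kids rest ihk ihr =>
    intro h i hτ hG
    cases l with
    | base M K =>
      simp only [Good] at hG
      obtain ⟨h1, h2, h3, h4, h5, h6⟩ := hG
      simp only [val]
      rw [ihr h i hτ h6]
    | cl M s j =>
      simp only [Good] at hG
      obtain ⟨h1, h2, h3, h4, h5, h6⟩ := hG
      simp only [val]
      rw [ihr h i hτ h6, ihk 0 j (fun j' hj' => hτ j' (hj'.trans h4)) h5, hτ j h4]
    | dd m L x j =>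
      simp only [Good] at hG
      obtain ⟨h1, h2, h3, h4, h5⟩ := hG
      simp only [val]
      rw [ihr h i hτ h5, ihk (m + 1) j (fun j' hj' => hτ j' (hj'.trans h3)) h4, hτ j h3]

/-- concatenation of names -/
def app_SU {S : Type} : Nm S → Nm S → Nm S
  | .nil, N' => N'
  | .leaf a _, _ => a.elim
  | .cons l kids rest, N' => .cons l kids (app_SU rest N')

theorem good_app_SU {S : Type} (n : ℕ) (ok : ℕ → Set S → Prop) (N' : Nm S) : ∀ (N : Nm S) (h : ℕ) (i : Ordinal.{0}),
    Good n ok N h i → Good n ok N' h i → Good n ok (app_SU N N') h i := by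
  intro N
  induction N with
  | nil => intro h i _ h2; exact h2
  | leaf a rest _ => exact a.elim
  | cons l kids rest _ ihr =>
    intro h i hG hG'
    cases l with
    | base M K =>
      simp only [Good, app_SU] at hG ⊢
      obtain ⟨h1, h2, h3, h4, h5, h6⟩ := hG
      exact ⟨h1, h2, h3, h4, h5, ihr h i h6 hG'⟩
    | cl M s j =>
      simp only [Good, app_SU] at hG ⊢
      obtain ⟨h1, h2, h3, h4, h5, h6⟩ := hG
      exact ⟨h1, h2, h3, h4, h5, ihr h i h6 hG'⟩
    | dd m L x j =>
      simp only [Good, app_SU] at hG ⊢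
      obtain ⟨h1, h2, h3, h4, h5⟩ := hG
      exact ⟨h1, h2, h3, h4, ihr h i h5 hG'⟩

theorem val_app_SU {A S : Type} (g : Tre A → S) (τ : Ordinal.{0} → ℕ → TopologicalSpace (Tre A)) (N' : Nm S) :
    ∀ N : Nm S, val g τ (app_SU N N') = val g τ N ∩ val g τ N' := by
  intro N
  induction N with
  | nil => simp only [app_SU, val, univ_inter]
  | leaf a rest _ => exact a.elim
  | cons l kids rest _ ihr =>
    cases l with
    | base M K => simp only [app_SU, val, ihr, inter_assoc]
    | cl M s j => simp only [app_SU, val, ihr, inter_assoc]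
    | dd m L x j => simp only [app_SU, val, ihr, inter_assoc]

/-- above height `n` only the empty name is good -/
theorem good_top_SU {S : Type} (n : ℕ) (ok : ℕ → Set S → Prop) (N : Nm S) (h : ℕ) (i : Ordinal.{0}) (hn : n < h)
    (hG : Good n ok N h i) : N = .nil := by
  cases N with
  | nil => rfl
  | leaf a rest => exact a.elim
  | cons l kids rest =>
    exfalso
    cases l with
    | base M K =>
      simp only [Good] at hG
      obtain ⟨h1, h2, h3, -⟩ := hG
      omega
    | cl M s j =>
      simp only [Good] at hG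
      obtain ⟨h1, h2, h3, -⟩ := hG
      omega
    | dd m L x j =>
      simp only [Good] at hG
      obtain ⟨h1, h2, -⟩ := hG
      omega

/-! ## stages -/

theorem stg_eq_SU {A S : Type} (n : ℕ) (g : Tre A → S) (i : Ordinal.{0}) (M : ℕ) :
    stg n g i M = nt {F | ∃ N : Nm S, GN n g N (M + 1) i ∧ F = vl n g N} := by
  conv_lhs => rw [stg]
  congr 1
  ext F
  constructor
  · rintro ⟨N, hN, rfl⟩
    refine ⟨N, hN, ?_⟩
    refine val_congr_SU n (okb n g) g _ _ N (M + 1) i ?_ hN
    intro j hj
    rw [dif_pos hj]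
  · rintro ⟨N, hN, rfl⟩
    refine ⟨N, hN, ?_⟩
    refine val_congr_SU n (okb n g) g _ _ N (M + 1) i ?_ hN
    intro j hj
    rw [dif_pos hj]

theorem hSU : StSU := by
  intro A S _ _ n g
  refine ⟨stg_eq_SU n g, fun N h h' i i' => good_mono_SU n (okb n g) N h h' i i', good_one_SU n (okb n g),
    ?_, ?_, ?_, ?_, ?_, ?_⟩
  · intro i i' M hi
    rw [stg_eq_SU, stg_eq_SU]
    apply nt_anti_SU
    rintro F ⟨N, hN, rfl⟩
    exact ⟨N, good_mono_SU n (okb n g) N _ _ i i' le_rfl hi hN, rfl⟩
  · intro i M
    rw [stg_eq_SU, stg_eq_SU]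
    apply nt_anti_SU
    rintro F ⟨N, hN, rfl⟩
    exact ⟨N, good_mono_SU n (okb n g) N _ _ i i (Nat.le_succ _) le_rfl hN, rfl⟩
  · intro i M hM
    rw [stg_eq_SU]
    obtain hj | ⟨j, hj⟩ : n - M = 0 ∨ ∃ j, n - M = j + 1 := by
      rcases Nat.eq_zero_or_pos (n - M) with h | h
      · exact Or.inl h
      · exact Or.inr ⟨n - M - 1, by omega⟩
    · rw [hj]
      exact nt_anti_SU (empty_subset _)
    · rw [hj]
      show nt _ ≤ nt _
      apply nt_anti_SU
      rintro F ⟨K, rfl, hK⟩
      refine ⟨.cons (.base (M + 1) K) .nil .nil, ?_, ?_⟩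
      · show Good n (okb n g) _ _ _
        simp only [Good]
        refine ⟨le_rfl, Nat.le_add_left 1 M, by omega, ?_, trivial, trivial⟩
        show IsClosed[bT g (n - (M + 1))] (g ⁻¹' K)
        have : n - (M + 1) = j := by omega
        rw [this]
        exact hK
      · show _ = val g (stg n g) _
        simp only [val, inter_univ]
  · intro i M hM
    rw [stg_eq_SU]
    have : {F | ∃ N : Nm S, GN n g N (M + 1) i ∧ F = vl n g N} = {univ} := by
      ext F
      constructor
      · rintro ⟨N, hN, rfl⟩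
        rw [good_top_SU n (okb n g) N (M + 1) i (by omega) hN]
        rfl
      · rintro rfl
        exact ⟨.nil, trivial, rfl⟩
    rw [this, nt_univ_SU]
  · intro N i M hN
    rw [stg_eq_SU]
    exact nt_open_SU ⟨N, hN, rfl⟩
  · intro N N' h i hN hN'
    exact ⟨app_SU N N', good_app_SU n (okb n g) N' N h i hN hN', val_app_SU g (stg n g) N' N⟩

end Pool.Agent.Helper24.WH
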