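import Pool.Agent.Helper24.WH.St6

/-!
# PROJECT WH (MP_76577a_lc), module SW: switching of strategies
-/

set_option autoImplicit false

namespace Pool.Agent.Helper24.WH

open Set TopologicalSpace Topology
open Ordinal hiding univ

section SW

variable {X Y : Type}

open Classical in
/-- state after a history: the move of the first event, the history before it, the history since then -/
private noncomputable def st_SW (E : Set X → Prop) :
    Hist X Y → Option ((Set X × Set Y) × Hist X Y × Hist X Y)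
  | [] => none
  | mv :: h => match st_SW E h with
    | some (m, h₀, t) => some (m, h₀, mv :: t)
    | none => if E mv.1 then some (mv, h, []) else none

/-- the combined strategy -/
private noncomputable def sg_SW (E : Set X → Prop) (σ₁ : Hist X Y → Set Y)
    (S : Set X × Set Y → Hist X Y → Hist X Y → Set Y) (h : Hist X Y) : Set Y :=
  match st_SW E h with
  | some (m, h₀, t) => S m h₀ t
  | none => σ₁ h

private theorem st_some_SW (E : Set X → Prop) {mv m : Set X × Set Y} {h h₀ t : Hist X Y}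
    (hs : st_SW E h = some (m, h₀, t)) : st_SW E (mv :: h) = some (m, h₀, mv :: t) := by
  rw [st_SW, hs]

private theorem st_none_SW (E : Set X → Prop) {mv : Set X × Set Y} {h : Hist X Y}
    (hs : st_SW E h = none) (hE : ¬ E mv.1) : st_SW E (mv :: h) = none := by
  rw [st_SW, hs]
  exact if_neg hE

private theorem st_new_SW (E : Set X → Prop) {mv : Set X × Set Y} {h : Hist X Y}
    (hs : st_SW E h = none) (hE : E mv.1) : st_SW E (mv :: h) = some (mv, h, []) := by
  rw [st_SW, hs]
  exact if_pos hE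

private theorem sg_some_SW (E : Set X → Prop) (σ₁ : Hist X Y → Set Y)
    (S : Set X × Set Y → Hist X Y → Hist X Y → Set Y) {m : Set X × Set Y} {h h₀ t : Hist X Y}
    (hs : st_SW E h = some (m, h₀, t)) : sg_SW E σ₁ S h = S m h₀ t := by
  rw [sg_SW, hs]

private theorem sg_none_SW (E : Set X → Prop) (σ₁ : Hist X Y → Set Y)
    (S : Set X × Set Y → Hist X Y → Hist X Y → Set Y) {h : Hist X Y}
    (hs : st_SW E h = none) : sg_SW E σ₁ S h = σ₁ h := by
  rw [sg_SW, hs]

variable {P : Set (Set X)} {A : Set X} {τ' : TopologicalSpace Y} {A' : Set Y}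

/-- the invariant -/
private theorem inv_SW (E : Set X → Prop) (σ₁ : Hist X Y → Set Y)
    (S : Set X × Set Y → Hist X Y → Hist X Y → Set Y) (h : Hist X Y)
    (hL : Legal P A τ' A' (sg_SW E σ₁ S) h) :
    (st_SW E h = none → Legal P A τ' A' σ₁ h) ∧
    ∀ m h₀ t, st_SW E h = some (m, h₀, t) → Legal P A τ' A' σ₁ (m :: h₀) ∧ E m.1 ∧
      Legal P (A ∩ m.1) τ' A' (S m h₀) t ∧ lastO h ⊆ m.1 ∧ lastO h ⊆ lastO t := by
  induction h with
  | nil =>
    refine ⟨fun _ => trivial, fun m h₀ t hs => ?_⟩
    rw [st_SW] at hs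
    cases hs
  | cons mv h ih =>
    obtain ⟨hL1, hP, hsub, ⟨x, hx⟩, hop, hne⟩ := hL
    obtain ⟨ih1, ih2⟩ := ih hL1
    rcases hst : st_SW E h with _ | ⟨m', h', t'⟩
    · have hL₁ := ih1 hst
      rw [sg_none_SW E σ₁ S hst] at hne
      have hL₂ : Legal P A τ' A' σ₁ (mv :: h) := ⟨hL₁, hP, hsub, ⟨x, hx⟩, hop, hne⟩
      refine ⟨fun _ => hL₂, fun m h₀ t hs => ?_⟩
      by_cases hE : E mv.1
      · rw [st_new_SW E hst hE] at hs
        obtain ⟨rfl, rfl, rfl⟩ : mv = m ∧ h = h₀ ∧ [] = t := by
          have := Option.some.inj hs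
          simpa [Prod.ext_iff] using this
        exact ⟨hL₂, hE, trivial, subset_rfl, Set.subset_univ _⟩
      · rw [st_none_SW E hst hE] at hs
        cases hs
    · obtain ⟨a1, a2, a3, a4, a5⟩ := ih2 m' h' t' hst
      refine ⟨fun hs => ?_, fun m h₀ t hs => ?_⟩
      · rw [st_some_SW E hst] at hs
        cases hs
      · rw [st_some_SW E hst] at hs
        have hs' := Option.some.inj hs
        have e1 : m' = m := congrArg Prod.fst hs'
        have e2 : h' = h₀ := congrArg (fun z => z.2.1) hs'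
        have e3 : mv :: t' = t := congrArg (fun z => z.2.2) hs'
        subst e1
        subst e2
        subst e3
        rw [sg_some_SW E σ₁ S hst] at hne
        refine ⟨a1, a2, ⟨a3, hP, hsub.trans a5, ⟨x, hx.1, hx.2, a4 (hsub hx.1)⟩, hop, hne⟩,
          hsub.trans a4, subset_rfl⟩

private theorem hist_SW {X Y : Type} (p : ℕ → Set X × Set Y) (l : ℕ) :
    hist p (l + 1) = p l :: hist p l := rfl

end SW

/-- **SW** switching of strategies -/
theorem hSW : StSW := by
  intro X A₂ P τX P' τ' f f' A A' σ₁ E hE hmove hsw hlim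
  have hch : ∀ (mv : Set X × Set (Tre A₂)) (h : Hist X (Tre A₂)),
      ∃ σ₂ : Hist X (Tre A₂) → Set (Tre A₂), Legal P A τ' A' σ₁ (mv :: h) → E mv.1 →
        σ₂ [] = σ₁ (mv :: h) ∧ Wins P τX P' τ' f f' (A ∩ mv.1) A' σ₂ := by
    intro mv h
    by_cases hc : Legal P A τ' A' σ₁ (mv :: h) ∧ E mv.1
    · obtain ⟨σ₂, h2⟩ := hsw mv h hc.1 hc.2
      exact ⟨σ₂, fun _ _ => h2⟩
    · exact ⟨fun _ => ∅, fun a b => absurd ⟨a, b⟩ hc⟩
  choose S hS using hch
  have hmv : ∀ mv h, Legal P A τ' A' (sg_SW E σ₁ S) (mv :: h) →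
      sg_SW E σ₁ S (mv :: h) ∈ P' ∧ sg_SW E σ₁ S (mv :: h) ⊆ mv.2 ∩ sg_SW E σ₁ S h ∧
        (sg_SW E σ₁ S (mv :: h) ∩ A').Nonempty := by
    intro mv h hL
    obtain ⟨i1, i2⟩ := inv_SW E σ₁ S _ hL
    obtain ⟨j1, j2⟩ := inv_SW E σ₁ S _ hL.1
    rcases hst : st_SW E h with _ | ⟨m', h', t'⟩
    · by_cases hEv : E mv.1
      · have hn := st_new_SW (mv := mv) E hst hEv
        obtain ⟨a1, a2, _, _, _⟩ := i2 _ _ _ hn
        rw [sg_some_SW E σ₁ S hn, sg_none_SW E σ₁ S hst, (hS mv h a1 a2).1]
        exact hmove mv h a1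
      · have hn := st_none_SW (mv := mv) E hst hEv
        rw [sg_none_SW E σ₁ S hn, sg_none_SW E σ₁ S hst]
        exact hmove mv h (i1 hn)
    · have hn := st_some_SW (mv := mv) E hst
      obtain ⟨a1, a2, a3, _, _⟩ := i2 _ _ _ hn
      rw [sg_some_SW E σ₁ S hn, sg_some_SW E σ₁ S hst]
      exact (hS m' h' a1 a2).2.move mv t' a3
  refine ⟨sg_SW E σ₁ S, ?_, hmv, ?_⟩
  · exact sg_none_SW E σ₁ S (by rw [st_SW])
  · intro p hp x hx hxp hconv
    by_cases hall : ∀ l, st_SW E (hist p l) = none
    · have hnoE : ∀ l, ¬ E (p l).1 := by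
        intro l hEl
        have h1 := hall (l + 1)
        rw [hist_SW, st_new_SW E (hall l) hEl] at h1
        cases h1
      have hleg : ∀ l, Legal P A τ' A' σ₁ (hist p l) := fun l => (inv_SW E σ₁ S _ (hp l)).1 (hall l)
      obtain ⟨x', hx', h2, h3, h4⟩ := hlim p hleg hnoE x hx hxp hconv
      refine ⟨x', hx', fun l => ?_, h3, fun k => ?_⟩
      · rw [sg_none_SW E σ₁ S (hall l)]
        exact h2 l
      · obtain ⟨l, hl⟩ := h4 k
        refine ⟨l, ?_⟩
        rw [sg_none_SW E σ₁ S (hall l)]
        exact hl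
    · push Not at hall
      classical
      -- the first event
      have hex : ∃ l, st_SW E (hist p l) ≠ none := hall
      obtain ⟨l₀, hl₀, hl₁⟩ : ∃ l₀, st_SW E (hist p l₀) = none ∧
          st_SW E (hist p (l₀ + 1)) ≠ none := by
        by_contra hcon
        push Not at hcon
        obtain ⟨l, hl⟩ := hex
        apply hl
        induction l with
        | zero => rw [hist, st_SW]
        | succ l ih =>
          by_cases h0 : st_SW E (hist p l) = none
          · exact hcon l h0
          · exact absurd (ih h0) h0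
      have hE₀ : E (p l₀).1 := by
        by_contra hne
        exact hl₁ (by rw [hist_SW]; exact st_none_SW E hl₀ hne)
      set p' : ℕ → Set X × Set (Tre A₂) := fun i => p (l₀ + 1 + i) with hp'
      have hst : ∀ j, st_SW E (hist p (l₀ + 1 + j)) = some (p l₀, hist p l₀, hist p' j) := by
        intro j
        induction j with
        | zero => exact st_new_SW E hl₀ hE₀
        | succ j ih => exact st_some_SW E ih
      have hinv := fun j => (inv_SW E σ₁ S _ (hp (l₀ + 1 + j))).2 _ _ _ (hst j)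
      obtain ⟨b1, b2, _, _, _⟩ := hinv 0
      have hanti : ∀ l, (p (l + 1)).1 ⊆ (p l).1 := fun l => (hp (l + 2)).2.2.1
      have hanti' : ∀ l j, (p (l + j)).1 ⊆ (p l).1 := by
        intro l j
        induction j with
        | zero => exact subset_rfl
        | succ j ih => exact (hanti (l + j)).trans ih
      have hW := (hS (p l₀) (hist p l₀) b1 b2).2
      obtain ⟨x', hx', h2, h3, h4⟩ := hW.lim p' (fun j => (hinv j).2.2.1) x ⟨hx, hxp l₀⟩
        (fun j => hxp _) (fun U hU hxU => by
          obtain ⟨l, hl⟩ := hconv U hU hxU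
          refine ⟨l, fun y hy => hl ⟨?_, hy.2.1⟩⟩
          have h5 : (p (l + (l₀ + 1))).1 ⊆ (p l).1 := hanti' l (l₀ + 1)
          apply h5
          rw [add_comm l (l₀ + 1)]
          exact hy.1)
      have hsg : ∀ j, sg_SW E σ₁ S (hist p (l₀ + 1 + j)) = S (p l₀) (hist p l₀) (hist p' j) :=
        fun j => sg_some_SW E σ₁ S (hst j)
      have hdec : ∀ l j, sg_SW E σ₁ S (hist p (l + j)) ⊆ sg_SW E σ₁ S (hist p l) := by
        intro l j
        induction j with
        | zero => exact subset_rfl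
        | succ j ih =>
          refine Set.Subset.trans ?_ ih
          exact (hmv (p (l + j)) (hist p (l + j)) (hp (l + j + 1))).2.1.trans
            Set.inter_subset_right
      refine ⟨x', hx', fun l => ?_, h3, fun k => ?_⟩
      · have h5 := hdec l (l₀ + 1)
        apply h5
        rw [add_comm l (l₀ + 1), hsg l]
        exact h2 l
      · obtain ⟨l, hl⟩ := h4 k
        refine ⟨l₀ + 1 + l, ?_⟩
        rw [hsg l]
        exact hl

end Pool.Agent.Helper24.WH
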