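import Pool.Agent.Helper24.WH.St1

/-!
# PROJECT WH (MP_76577a_lc), module TB: all terms (combination of BF, BP, BT, BW)
-/

set_option autoImplicit false

namespace Pool.Agent.Helper24.WH

private theorem bq_TB (h1 : StBF) (h3 : StBT) (h5 : StTP) (S : Type) [Finite S] :
    ∀ m : ℕ, BQ (TT.Le (S := S) m)
  | 0 => h1 S
  | (m + 1) => by
      have ih := bq_TB h1 h3 h5 S m
      have hr := (h5.2.1 S m).1
      have ht := (h5.2.1 S m).2
      exact h3 (TT S m) (TT.Le m) hr ht ih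

theorem hTB (h1 : StBF) (h2 : StBP) (h3 : StBT) (h4 : StBW) (h5 : StTP) : StTB := by
  intro S _ m k
  have hb := bq_TB h1 h3 h5 S m
  exact ⟨(h4 _ _ hb).1, (h4 _ _ hb).2, (h4 _ _ (h2 _ _ k hb)).2⟩

end Pool.Agent.Helper24.WH
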