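import Pool.Agent.Helper24.WH.St5

/-!
# PROJECT WH (MP_76577a_lc), module TM: termination
-/

set_option autoImplicit false

namespace Pool.Agent.Helper24.WH

open Set TopologicalSpace Topology
open Ordinal hiding univ

/-- **TM (6.5)** termination -/
theorem hTM (hVP : StVP) (hBA : StBA) (hUZ : StUZ) : StTM := by
  intro X S _ n N τ g h P hsys hft hN m
  obtain ⟨u1, u2, u3, u4, u5, u6, u7, u8, u9⟩ := hUZ X τ (h ∘ g)
  obtain ⟨v1, v2, v3, v4⟩ := hVP S h X n N τ g P hsys hft hN
  induction m with
  | zero =>
    intro _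
    exact ⟨(true : Bool), trivial, fun B _ => u2 _ _ rfl⟩
  | succ m ih =>
    intro hm
    obtain ⟨c, hwf, hc⟩ := ih (by omega)
    by_cases hbot : c = Cd.bot m
    · -- the space is empty
      have huniv : (Set.univ : Set X) = ∅ := by
        have := hc Set.univ (hsys.univ m)
        rwa [hbot, u5] at this
      refine ⟨Cd.bot (m + 1), ⟨List.Pairwise.nil, fun e he => absurd he List.not_mem_nil⟩,
        fun B _ => ?_⟩
      rw [u4]
      exact Set.eq_empty_of_subset_empty (huniv ▸ Set.subset_univ B)
    · refine ⟨Cd.ext (Cd.bot (m + 1)) c N, ?_, fun B hB => ?_⟩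
      · refine ⟨List.pairwise_singleton _ _, fun e he => ?_⟩
        have he' : e = toLex (c, N) := List.mem_singleton.1 he
        subst he'
        exact ⟨hwf, hbot⟩
      · rw [u6, u4]
        have hW := v3 m hm c hwf N B hB
        have hfix := v4 m hm c hwf B hB
        set W := iter (del τ (h ∘ g) m c) B (ω ^ (N : Ordinal.{0})) with hWdef
        have h1 := hBA X S n τ g h P hsys m hm c hwf W (hsys.cl (m + 1) hm W hW) hfix
        rw [hc W (hsys.anti m hW)] at h1
        rw [@closure_empty X (τ (m + 1))] at h1
        exact Set.eq_empty_of_subset_empty h1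

end Pool.Agent.Helper24.WH
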