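import Pool.Agent.Helper24.WH.St1

set_option autoImplicit false

namespace Pool.Agent.Helper24.WH

private theorem refl_TP {A : Type} {r : A → A → Prop} (hr : ∀ a, r a a) :
    ∀ t : Tr A, Tr.Le r t t := by
  intro t
  induction t with
  | leaf U => exact Tr.Le.leaf U _ (hr U)
  | node U F ih =>
    exact Tr.Le.node U F _ (hr U) (fun i => Tr.Le.sub _ U F i (ih i))

private theorem inner_TP {A : Type} {r : A → A → Prop}
    (ht : ∀ a b c, r a b → r b c → r a c) (u v : Tr A) (hlab : r u.lab v.lab)
    (hch : ∀ U F, u = Tr.node U F → ∀ (i : ℕ) (t : Tr A), Tr.Le r t (F i) → Tr.Le r t v) :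
    ∀ t u' : Tr A, Tr.Le r t u' → u' = u → Tr.Le r t v := by
  intro t u' h
  induction h with
  | sub t U' F' j h ih =>
    intro e
    exact hch U' F' e.symm j t h
  | leaf U t' h =>
    intro e
    subst e
    exact Tr.Le.leaf U v (ht _ _ _ h hlab)
  | node U F t' h hF ih =>
    intro e
    have h2 : r U v.lab := by
      subst e
      exact ht _ _ _ h hlab
    exact Tr.Le.node U F v h2 (fun i => ih i e)

private theorem trans_TP {A : Type} {r : A → A → Prop}
    (ht : ∀ a b c, r a b → r b c → r a c) :
    ∀ u v : Tr A, Tr.Le r u v → ∀ t, Tr.Le r t u → Tr.Le r t v := by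
  intro u v h
  induction h with
  | sub u U' F' j h ih =>
    intro t htu
    exact Tr.Le.sub t U' F' j (ih t htu)
  | leaf U v h =>
    intro t htu
    refine inner_TP ht (Tr.leaf U) v h ?_ t _ htu rfl
    intro U' F' e
    cases e
  | node U F v h hF ih =>
    intro t htu
    refine inner_TP ht (Tr.node U F) v h ?_ t _ htu rfl
    intro U' F' e i t' h'
    cases e
    exact ih i t' h'

private theorem lab_map_TP {A B : Type} (G : A → B) (t : Tr A) : (t.map G).lab = G t.lab := by
  cases t <;> rfl

private theorem map_TP {A B : Type} {r : A → A → Prop} {r' : B → B → Prop} (G : A → B)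
    (hG : ∀ a b, r a b → r' (G a) (G b)) :
    ∀ t u : Tr A, Tr.Le r t u → Tr.Le r' (t.map G) (u.map G) := by
  intro t u h
  induction h with
  | sub t U' F' j h ih =>
    exact Tr.Le.sub _ _ (fun i => (F' i).map G) j ih
  | leaf U t' h =>
    refine Tr.Le.leaf _ _ ?_
    rw [lab_map_TP]
    exact hG _ _ h
  | node U F t' h hF ih =>
    refine Tr.Le.node _ _ _ ?_ ih
    rw [lab_map_TP]
    exact hG _ _ h

private theorem tt_TP (S : Type) (m : ℕ) : (∀ t : TT S m, TT.Le m t t) ∧
    (∀ t u v : TT S m, TT.Le m t u → TT.Le m u v → TT.Le m t v) := by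
  induction m with
  | zero =>
    constructor
    · intro t
      exact rfl
    · intro t u v h1 h2
      exact Eq.trans (α := S) h1 h2
  | succ m ih =>
    constructor
    · intro t
      exact refl_TP ih.1 t
    · intro t u v h1 h2
      exact trans_TP ih.2 u v h2 t h1

theorem hTP : StTP := by
  refine ⟨?_, ?_, ?_⟩
  · intro A r hr ht
    exact ⟨refl_TP hr, fun t u v h1 h2 => trans_TP ht u v h2 t h1⟩
  · intro S m
    exact tt_TP S m
  · intro S' S G m
    induction m with
    | zero =>
      intro t u h
      exact congrArg G (show (t : S') = u from h)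
    | succ m ih =>
      intro t u h
      exact map_TP (TT.map G m) (fun a b hab => ih a b hab) t u h

end Pool.Agent.Helper24.WH
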