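import Pool.Agent.Helper24.WH.St7

/-!
# Project WH (MP_76577a_lc), module UB: the upper bound
-/

set_option autoImplicit false

namespace Pool.Agent.Helper24.WH

open Set TopologicalSpace Topology
open Ordinal hiding univ

/-- the ranks of a well-founded relation are bounded by any strictly monotone ordinal valued function -/
private theorem rank_le_UB {X : Type} {R : X → X → Prop} (h : WellFounded R) (o : X → Ordinal.{0})
    (ho : ∀ x y, R x y → o x < o y) (x : X) : (h.apply x).rank ≤ o x := by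
  refine h.induction (C := fun x => (h.apply x).rank ≤ o x) x ?_
  intro x ih
  rw [Acc.rank_eq]
  refine Ordinal.iSup_le ?_
  rintro ⟨y, hy⟩
  exact Order.succ_le_of_lt (lt_of_le_of_lt (ih y hy) (ho y x hy))

theorem hUB (hF7 : StF7) (hDE : StDE) (hOR : StOR) : StUB := by
  classical
  intro P _
  -- one ordinal valued function
  have key : ∀ L : {L : Set (Tre (Set P)) // Definable L}, ∃ (f : Tre (Set P) → Bool) (n : ℕ) (r : Cd n) (sd : Bool → Prop),
      Dat f n r sd ∧ L.1 = {t | f t = true} := by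
    rintro ⟨L, hL⟩
    obtain ⟨S, _, n, g, Ga, h, hyp, e⟩ := hF7 P L hL
    obtain ⟨r, sd, hd⟩ := hDE (Set P) S n g Ga h hyp
    exact ⟨h ∘ g, n, r, sd, hd, e⟩
  choose f n r sd hd hf using key
  set o : {L : Set (Tre (Set P)) // Definable L} → Ordinal.{0} := fun L => ordD (r L) (sd L) with hodef
  have hred : ∀ L L', WLe L.1 L'.1 ↔ WRed (f L) (f L') := by
    intro L L'
    constructor
    · rintro ⟨F, hc, hF⟩
      refine ⟨F, hc, fun x => ?_⟩
      have h1 : f L' (F x) = true ↔ f L x = true := by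
        have h2 : x ∈ F ⁻¹' L'.1 ↔ x ∈ L.1 := by rw [hF]
        rw [hf L, hf L'] at h2
        exact h2
      exact Bool.eq_iff_iff.mpr h1
    · rintro ⟨F, hc, hF⟩
      refine ⟨F, hc, ?_⟩
      ext x
      rw [hf L, hf L']
      show f L' (F x) = true ↔ f L x = true
      rw [hF x]
  have ho : ∀ L L', wlt P L L' → o L < o L' := by
    rintro L L' ⟨h1, h2⟩
    exact (hOR (Set P) (Set P) (f L) (f L') (n L) (n L') (r L) (r L') (sd L) (sd L') (hd L) (hd L')).2
      ((hred L L').1 h1) (fun h3 => h2 ((hred L' L).2 h3))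
  have hoe : ∀ L, o L < Ordinal.epsilon 0 := fun L =>
    (hOR (Set P) (Set P) (f L) (f L) (n L) (n L) (r L) (r L) (sd L) (sd L) (hd L) (hd L)).1
  have hw : WellFounded (wlt P) := Subrelation.wf (fun {a b} h => ho a b h) (InvImage.wf o Ordinal.lt_wf)
  exact ⟨hw, fun L => lt_of_le_of_lt (rank_le_UB hw o ho L) (hoe L)⟩

end Pool.Agent.Helper24.WH
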