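import Pool.Agent.Helper24.WH.St1

set_option autoImplicit false

namespace Pool.Agent.Helper24.WH

open Set TopologicalSpace Ordinal Topology


/-! ### The natural sum -/

private noncomputable def nsum_UN (a b : Ordinal.{0}) : Ordinal.{0} :=
  max (⨆ a' : Iio a, nsum_UN a'.1 b + 1) (⨆ b' : Iio b, nsum_UN a b'.1 + 1)
termination_by (a, b)
decreasing_by
  · exact Prod.Lex.left _ _ a'.2
  · exact Prod.Lex.right _ b'.2

private theorem nsum_le_UN (a b c : Ordinal.{0}) (h1 : ∀ a' < a, nsum_UN a' b < c)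
    (h2 : ∀ b' < b, nsum_UN a b' < c) : nsum_UN a b ≤ c := by
  rw [nsum_UN]
  refine max_le ?_ ?_
  · refine (ciSup_le_iff' bddAbove_of_small).mpr fun a' => ?_
    exact Order.add_one_le_iff.mpr (h1 a'.1 a'.2)
  · refine (ciSup_le_iff' bddAbove_of_small).mpr fun b' => ?_
    exact Order.add_one_le_iff.mpr (h2 b'.1 b'.2)

private theorem nsum_lt_left_UN (a a' b : Ordinal.{0}) (h : a < a') :
    nsum_UN a b < nsum_UN a' b := by
  rw [nsum_UN.eq_1 a' b]
  apply lt_max_of_lt_left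
  refine lt_of_lt_of_le (Order.lt_add_one_iff.mpr le_rfl) ?_
  exact le_ciSup (f := fun a'' : Iio a' => nsum_UN a''.1 b + 1) bddAbove_of_small ⟨a, h⟩

private theorem nsum_lt_right_UN (a b b' : Ordinal.{0}) (h : b < b') :
    nsum_UN a b < nsum_UN a b' := by
  rw [nsum_UN.eq_1 a b']
  apply lt_max_of_lt_right
  refine lt_of_lt_of_le (Order.lt_add_one_iff.mpr le_rfl) ?_
  exact le_ciSup (f := fun b'' : Iio b' => nsum_UN a b''.1 + 1) bddAbove_of_small ⟨b, h⟩

private theorem nsum_bound_UN (w : Ordinal.{0}) (hw : w ≠ 0)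
    (hH : ∀ c d, c < w → d < w → nsum_UN c d < w) (a b : Ordinal.{0}) :
    ∀ (i j : ℕ) (c d : Ordinal.{0}), c < w → d < w → a = w * i + c → b = w * j + d →
      nsum_UN a b ≤ w * ((i + j : ℕ) : Ordinal.{0}) + nsum_UN c d := by
  induction a using WellFoundedLT.induction generalizing b with
  | ind a iha =>
  induction b using WellFoundedLT.induction with
  | ind b ihb =>
  intro i j c d hc hd ha hb
  have hnat : ∀ m n : ℕ, m < n → w * (m : Ordinal.{0}) + w ≤ w * (n : Ordinal.{0}) := by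
    intro m n hmn
    have h1 : w * (m : Ordinal.{0}) + w = w * ((m + 1 : ℕ) : Ordinal.{0}) := by
      push_cast
      rw [mul_add, mul_one]
    rw [h1]
    exact mul_le_mul_right (by exact_mod_cast hmn) w
  have hdec : ∀ (n : ℕ) (x : Ordinal.{0}), x < w * (n : Ordinal.{0}) →
      ∃ m : ℕ, m < n ∧ ∃ e < w, x = w * (m : Ordinal.{0}) + e := by
    intro n x hx
    have h1 : x / w < (n : Ordinal.{0}) := (Ordinal.lt_mul_iff_div_lt hw).mp hx
    obtain ⟨m, hm⟩ := Ordinal.lt_omega0.mp (h1.trans (Ordinal.natCast_lt_omega0 n))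
    refine ⟨m, ?_, x % w, Ordinal.mod_lt x hw, ?_⟩
    · rw [hm] at h1
      exact_mod_cast h1
    · rw [← hm]
      exact (Ordinal.div_add_mod x w).symm
  apply nsum_le_UN
  · intro a' ha'
    rcases lt_or_ge a' (w * (i : Ordinal.{0})) with h | h
    · obtain ⟨m, hmi, e, he, hxe⟩ := hdec i a' h
      refine lt_of_le_of_lt (iha a' ha' b m j e d he hd hxe hb) ?_
      calc w * ((m + j : ℕ) : Ordinal.{0}) + nsum_UN e d
          < w * ((m + j : ℕ) : Ordinal.{0}) + w := by
            exact (add_lt_add_iff_left _).mpr (hH e d he hd)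
        _ ≤ w * ((i + j : ℕ) : Ordinal.{0}) := hnat _ _ (by omega)
        _ ≤ w * ((i + j : ℕ) : Ordinal.{0}) + nsum_UN c d := le_add_of_nonneg_right bot_le
    · obtain ⟨e, he⟩ := exists_add_of_le h
      have hec : e < c := by
        rw [he, ha] at ha'
        exact (add_lt_add_iff_left _).mp ha'
      refine lt_of_le_of_lt (iha a' ha' b i j e d (hec.trans hc) hd he hb) ?_
      exact (add_lt_add_iff_left _).mpr (nsum_lt_left_UN e c d hec)
  · intro b' hb'
    rcases lt_or_ge b' (w * (j : Ordinal.{0})) with h | h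
    · obtain ⟨m, hmj, e, he, hxe⟩ := hdec j b' h
      refine lt_of_le_of_lt (ihb b' hb' i m c e hc he ha hxe) ?_
      calc w * ((i + m : ℕ) : Ordinal.{0}) + nsum_UN c e
          < w * ((i + m : ℕ) : Ordinal.{0}) + w := by
            exact (add_lt_add_iff_left _).mpr (hH c e hc he)
        _ ≤ w * ((i + j : ℕ) : Ordinal.{0}) := hnat _ _ (by omega)
        _ ≤ w * ((i + j : ℕ) : Ordinal.{0}) + nsum_UN c d := le_add_of_nonneg_right bot_le
    · obtain ⟨e, he⟩ := exists_add_of_le h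
      have hed : e < d := by
        rw [he, hb] at hb'
        exact (add_lt_add_iff_left _).mp hb'
      refine lt_of_le_of_lt (ihb b' hb' i j c e hc (hed.trans hd) ha he) ?_
      exact (add_lt_add_iff_left _).mpr (nsum_lt_right_UN c e d hed)

private theorem nsum_principal_UN (x : Ordinal.{0}) :
    ∀ a b : Ordinal.{0}, a < ω ^ x → b < ω ^ x → nsum_UN a b < ω ^ x := by
  induction x using Ordinal.limitRecOn with
  | zero =>
    intro a b ha hb
    rw [Ordinal.opow_zero] at ha hb ⊢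
    have ha0 : a = 0 := Order.lt_one_iff.mp ha
    have hb0 : b = 0 := Order.lt_one_iff.mp hb
    subst ha0 hb0
    refine lt_of_le_of_lt (nsum_le_UN 0 0 0 ?_ ?_) zero_lt_one
    · intro a' ha'; exact absurd ha' not_lt_bot
    · intro a' ha'; exact absurd ha' not_lt_bot
  | add_one y ih =>
    intro a b ha hb
    have hw : (ω ^ y : Ordinal.{0}) ≠ 0 := (Ordinal.opow_pos y Ordinal.omega0_pos).ne'
    rw [Ordinal.opow_add_one] at ha hb ⊢
    have hdec : ∀ (z : Ordinal.{0}), z < ω ^ y * ω →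
        ∃ m : ℕ, ∃ e < ω ^ y, z = ω ^ y * (m : Ordinal.{0}) + e := by
      intro z hz
      have h1 : z / ω ^ y < ω := (Ordinal.lt_mul_iff_div_lt hw).mp hz
      obtain ⟨m, hm⟩ := Ordinal.lt_omega0.mp h1
      refine ⟨m, z % ω ^ y, Ordinal.mod_lt z hw, ?_⟩
      rw [← hm]
      exact (Ordinal.div_add_mod z (ω ^ y)).symm
    obtain ⟨i, c, hc, hac⟩ := hdec a ha
    obtain ⟨j, d, hd, hbd⟩ := hdec b hb
    refine lt_of_le_of_lt (nsum_bound_UN _ hw ih a b i j c d hc hd hac hbd) ?_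
    calc ω ^ y * ((i + j : ℕ) : Ordinal.{0}) + nsum_UN c d
        < ω ^ y * ((i + j : ℕ) : Ordinal.{0}) + ω ^ y :=
          (add_lt_add_iff_left _).mpr (ih c d hc hd)
      _ = ω ^ y * ((i + j + 1 : ℕ) : Ordinal.{0}) := by
          rw [Nat.cast_add_one, mul_add, mul_one]
      _ ≤ ω ^ y * ω := mul_le_mul_right (Ordinal.natCast_lt_omega0 _).le _
  | limit x hx ih =>
    intro a b ha hb
    obtain ⟨y, hy, hay⟩ := (Ordinal.lt_opow_of_isSuccLimit Ordinal.omega0_ne_zero hx).mp ha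
    obtain ⟨z, hz, hbz⟩ := (Ordinal.lt_opow_of_isSuccLimit Ordinal.omega0_ne_zero hx).mp hb
    have hm : max y z < x := max_lt hy hz
    have h1 : a < ω ^ max y z :=
      lt_of_lt_of_le hay (Ordinal.opow_le_opow_right Ordinal.omega0_pos (le_max_left _ _))
    have h2 : b < ω ^ max y z :=
      lt_of_lt_of_le hbz (Ordinal.opow_le_opow_right Ordinal.omega0_pos (le_max_right _ _))
    exact lt_of_lt_of_le (ih _ hm a b h1 h2)
      (Ordinal.opow_le_opow_right Ordinal.omega0_pos hm.le)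

/-- The natural sum (ordinal exponents). -/
theorem NS_UN : ∃ N : Ordinal.{0} → Ordinal.{0} → Ordinal.{0},
    (∀ a a' b, a < a' → N a b < N a' b) ∧ (∀ a b b', b < b' → N a b < N a b') ∧
    ∀ x a b : Ordinal.{0}, a < ω ^ x → b < ω ^ x → N a b < ω ^ x :=
  ⟨nsum_UN, nsum_lt_left_UN, nsum_lt_right_UN, nsum_principal_UN⟩

variable {X : Type}

/-- `z` has rank `a` for `d` over `B`. -/
private def Rk (d : Set X → Set X) (B : Set X) (z : X) (a : Ordinal.{0}) : Prop :=
  z ∈ iter d B a ∧ z ∉ iter d B (a + 1)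

private theorem exists_Rk_UN (hIT : StIT) (d : Set X → Set X) (hm : ∀ A B, A ⊆ B → d A ⊆ d B)
    (hl : ∀ B, d B ⊆ B) (B : Set X) (z : X) (hz : z ∈ B) (c : Ordinal.{0}) (hc : z ∉ iter d B c) :
    ∃ a, a < c ∧ Rk d B z a := by
  obtain ⟨h0, -, hanti, -, -, -, hlim, -, -, -⟩ := hIT X d hm hl
  have hex : ∃ c, z ∉ iter d B c := ⟨c, hc⟩
  set m := WellFounded.min Ordinal.lt_wf {c | z ∉ iter d B c} hex with hmdef
  have hmem : z ∉ iter d B m := WellFounded.min_mem Ordinal.lt_wf {c | z ∉ iter d B c} hex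
  have hmin : ∀ b, b < m → z ∈ iter d B b := by
    intro b hb
    by_contra hcon
    exact WellFounded.not_lt_min Ordinal.lt_wf {c | z ∉ iter d B c} hcon hb
  have hmc : m ≤ c := by
    by_contra hcon
    exact hc (hmin c (not_le.mp hcon))
  rcases Ordinal.zero_or_succ_or_isSuccLimit m with h | ⟨b, h⟩ | h
  · rw [h, h0] at hmem
    exact absurd hz hmem
  · have h' : b + 1 = m := by rw [← h, Order.succ_eq_add_one]
    have hb : b < m := by rw [← h']; exact Order.lt_add_one_iff.mpr le_rfl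
    refine ⟨b, lt_of_lt_of_le hb hmc, hmin b hb, ?_⟩
    rw [h']
    exact hmem
  · exfalso
    apply hmem
    rw [hlim B m h]
    refine mem_iInter.mpr fun β => hmin β.1 β.2

private theorem IsDer_union_UN (τ : TopologicalSpace X) (d₁ d₂ : Set X → Set X)
    (h₁ : IsDer τ d₁) (h₂ : IsDer τ d₂) : IsDer τ (fun B => d₁ B ∪ d₂ B) := by
  refine ⟨?_, ?_, ?_, ?_⟩
  · intro A B h
    exact union_subset_union (h₁.mono A B h) (h₂.mono A B h)
  · intro B
    exact union_subset (h₁.le B) (h₂.le B)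
  · intro O B hO
    show d₁ (B ∩ O) ∪ d₂ (B ∩ O) = (d₁ B ∪ d₂ B) ∩ O
    rw [h₁.loc O B hO, h₂.loc O B hO, union_inter_distrib_right]
  · intro B hB
    exact (h₁.closed B hB).union (h₂.closed B hB)

private theorem core_UN (hIT : StIT) (hIL : StIL) (τ : TopologicalSpace X) (hZ : ZD τ)
    (N : Ordinal.{0} → Ordinal.{0} → Ordinal.{0})
    (hN1 : ∀ a a' b, a < a' → N a b < N a' b) (hN2 : ∀ a b b', b < b' → N a b < N a b')
    (d₁ d₂ : Set X → Set X) (h₁ : IsDer τ d₁) (h₂ : IsDer τ d₂) (B : Set X)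
    (hB : IsClosed[τ] B) (β : Ordinal.{0}) :
    ∀ (z : X) (a b : Ordinal.{0}), z ∈ iter (fun B => d₁ B ∪ d₂ B) B β → Rk d₁ B z a →
      Rk d₂ B z b → β ≤ N a b := by
  have hD := IsDer_union_UN τ d₁ d₂ h₁ h₂
  obtain ⟨-, hDs, hDa, -, -, hDB, -, -, -, -⟩ := hIT X (fun B => d₁ B ∪ d₂ B) hD.mono hD.le
  obtain ⟨-, h1s, -, -, -, -, -, -, -, -⟩ := hIT X d₁ h₁.mono h₁.le
  obtain ⟨-, h2s, -, -, -, -, -, -, -, -⟩ := hIT X d₂ h₂.mono h₂.le
  have hNle1 : ∀ a a' b, a ≤ a' → N a b ≤ N a' b := by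
    intro a a' b h
    rcases h.lt_or_eq with h | h
    · exact (hN1 a a' b h).le
    · rw [h]
  have hNle2 : ∀ a b b', b ≤ b' → N a b ≤ N a b' := by
    intro a b b' h
    rcases h.lt_or_eq with h | h
    · exact (hN2 a b b' h).le
    · rw [h]
  induction β using Ordinal.limitRecOn with
  | zero => intro z a b _ _ _; exact bot_le
  | add_one β ih =>
    intro z a b hz ha hb
    have hz' : z ∈ iter (fun B => d₁ B ∪ d₂ B) B β := hDa B β (β + 1) (le_add_of_nonneg_right zero_le_one) (by simpa using hz)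
    have hle : β ≤ N a b := ih z a b hz' ha hb
    have hlt : β < N a b := by
      rcases hle.lt_or_eq with h | h
      · exact h
      exfalso
      have hc1 : IsClosed[τ] (iter d₁ B (a + 1)) := (hIL X τ d₁ h₁ (a + 1)).closed B hB
      have hc2 : IsClosed[τ] (iter d₂ B (b + 1)) := (hIL X τ d₂ h₂ (b + 1)).closed B hB
      have hopen : IsOpen[τ] (iter d₁ B (a + 1) ∪ iter d₂ B (b + 1))ᶜ :=
        (IsClosed.union hc1 hc2).isOpen_compl
      obtain ⟨O, hO, hzO, hOs⟩ := hZ z _ hopen (by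
        intro h
        rcases h with h | h
        · exact ha.2 h
        · exact hb.2 h)
      have key : ∀ w ∈ iter (fun B => d₁ B ∪ d₂ B) B β ∩ O, w ∈ iter d₁ B a ∧ w ∈ iter d₂ B b := by
        rintro w ⟨hw, hwO⟩
        have hwB : w ∈ B := hDB B β hw
        have hwc := hOs hwO
        have hw1 : w ∉ iter d₁ B (a + 1) := fun h => hwc (Or.inl h)
        have hw2 : w ∉ iter d₂ B (b + 1) := fun h => hwc (Or.inr h)
        obtain ⟨a', ha'a, ha'⟩ := exists_Rk_UN hIT d₁ h₁.mono h₁.le B w hwB _ hw1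
        obtain ⟨b', hb'b, hb'⟩ := exists_Rk_UN hIT d₂ h₂.mono h₂.le B w hwB _ hw2
        have ha'a : a' ≤ a := Order.lt_add_one_iff.mp ha'a
        have hb'b : b' ≤ b := Order.lt_add_one_iff.mp hb'b
        have hβ : β ≤ N a' b' := ih w a' b' hw ha' hb'
        have haa : a' = a := by
          rcases ha'a.lt_or_eq with hlt | heq
          · exfalso
            have : N a' b' < N a b := lt_of_lt_of_le (hN1 a' a b' hlt) (hNle2 a b' b hb'b)
            rw [← h] at this
            exact absurd hβ (not_le.mpr this)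
          · exact heq
        have hbb : b' = b := by
          rcases hb'b.lt_or_eq with hlt | heq
          · exfalso
            have : N a' b' < N a b := lt_of_lt_of_le (hN2 a' b' b hlt) (hNle1 a' a b ha'a)
            rw [← h] at this
            exact absurd hβ (not_le.mpr this)
          · exact heq
        rw [← haa, ← hbb]
        exact ⟨ha'.1, hb'.1⟩
      have hzD : z ∈ d₁ (iter (fun B => d₁ B ∪ d₂ B) B β) ∪ d₂ (iter (fun B => d₁ B ∪ d₂ B) B β) := by
        have h3 := hDs B β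
        have h4 : z ∈ iter (fun B => d₁ B ∪ d₂ B) B (β + 1) := by simpa using hz
        rw [h3] at h4
        exact h4
      rcases hzD with h3 | h3
      · apply ha.2
        rw [h1s]
        have h4 : z ∈ d₁ (iter (fun B => d₁ B ∪ d₂ B) B β ∩ O) := by
          rw [h₁.loc O _ hO]; exact ⟨h3, hzO⟩
        exact h₁.mono _ _ (fun w hw => (key w hw).1) h4
      · apply hb.2
        rw [h2s]
        have h4 : z ∈ d₂ (iter (fun B => d₁ B ∪ d₂ B) B β ∩ O) := by
          rw [h₂.loc O _ hO]; exact ⟨h3, hzO⟩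
        exact h₂.mono _ _ (fun w hw => (key w hw).2) h4
    exact Order.add_one_le_iff.mpr hlt
  | limit β hβ ih =>
    intro z a b hz ha hb
    refine (hβ.le_iff_forall_le).mpr ?_
    intro γ hγ
    exact ih γ hγ z a b (hDa B γ β hγ.le hz) ha hb

private theorem UN_of (hIT : StIT) (hIL : StIL) : StUN := by
  intro X τ hZ d₁ d₂ h₁ h₂
  refine ⟨IsDer_union_UN τ d₁ d₂ h₁ h₂, ?_⟩
  intro B x hB
  have hD := IsDer_union_UN τ d₁ d₂ h₁ h₂
  obtain ⟨N, hN1, hN2, hN3⟩ := NS_UN
  apply Subset.antisymm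
  · intro y hy
    by_contra hcon
    have hy1 : y ∉ iter d₁ B (ω ^ x) := fun h => hcon (Or.inl h)
    have hy2 : y ∉ iter d₂ B (ω ^ x) := fun h => hcon (Or.inr h)
    obtain ⟨-, -, -, -, -, hDB, -, -, -, -⟩ := hIT X (fun B => d₁ B ∪ d₂ B) hD.mono hD.le
    have hyB : y ∈ B := hDB B _ hy
    obtain ⟨a, hax, ha⟩ := exists_Rk_UN hIT d₁ h₁.mono h₁.le B y hyB _ hy1
    obtain ⟨b, hbx, hb⟩ := exists_Rk_UN hIT d₂ h₂.mono h₂.le B y hyB _ hy2
    exact absurd (core_UN hIT hIL τ hZ N hN1 hN2 d₁ d₂ h₁ h₂ B hB (ω ^ x) y a b hy ha hb)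
      (not_le.mpr (hN3 x a b hax hbx))
  · obtain ⟨-, -, -, -, -, -, -, -, -, hlast⟩ := hIT X (fun B => d₁ B ∪ d₂ B) hD.mono hD.le
    apply union_subset
    · exact hlast d₁ (fun B => subset_union_left) B _
    · exact hlast d₂ (fun B => subset_union_right) B _

theorem hUN : StIT → StIL → StUN := UN_of

end Pool.Agent.Helper24.WH
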