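import Pool.Agent.Helper24.WH.St5

/-!
# PROJECT WH (MP_76577a_lc), module US: uniform stabilisation
-/

set_option autoImplicit false

namespace Pool.Agent.Helper24.WH

open Set TopologicalSpace Topology
open Ordinal hiding univ

private theorem homOp_mono_US {X : Type} (τ : TopologicalSpace X) (z : Set X → Set X) {A B : Set X} (h : A ⊆ B) :
    HomOp τ z A ⊆ HomOp τ z B := by
  apply sUnion_subset_sUnion
  rintro W ⟨h1, h2⟩
  exact ⟨h1.trans h, h2⟩

private theorem le_homOp_US {X : Type} (τ : TopologicalSpace X) (z : Set X → Set X) {W B : Set X} (h1 : W ⊆ B)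
    (h2 : W ⊆ closure[τ] (z W)) : W ⊆ HomOp τ z B :=
  subset_sUnion_of_mem (show W ∈ {W | W ⊆ B ∧ W ⊆ closure[τ] (z W)} from ⟨h1, h2⟩)

private theorem fib_US {X S : Type} [Finite S] (τ : TopologicalSpace X) (g : X → S) (h : S → Bool)
    (hf : ∀ s, Clp τ (g ⁻¹' {s})) (s : Bool) : Clp τ ((h ∘ g) ⁻¹' {s}) := by
  have h1 : (h ∘ g) ⁻¹' {s} = ⋃ t ∈ h ⁻¹' {s}, g ⁻¹' {t} := by
    ext x
    simp only [mem_preimage, Function.comp_apply, mem_singleton_iff, mem_iUnion, exists_prop]
    constructor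
    · exact fun hx => ⟨g x, hx, rfl⟩
    · rintro ⟨t, ht, hx⟩
      rw [hx]
      exact ht
  rw [h1]
  exact @Set.Finite.isClopen_biUnion X τ _ _ _ (Set.toFinite _) fun t _ => hf t

/-- the last step: two operators of height `m` whose union is dense -/
private theorem last_US {X : Type} (hHU : StHU) (τ : TopologicalSpace X) (z : Bool → Set X → Set X)
    (hzd : ZD τ) (hz : ∀ s, MCL τ (z s)) (W : Set X) (hW : IsClosed[τ] W)
    (h : W ⊆ closure[τ] (z false W ∪ z true W)) :
    W ⊆ HomOp τ (z false) W ∪ HomOp τ (z true) W := by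
  have hu : ∀ B, (z false B ∪ z true B) = ⋃ s, z s B := by
    intro B
    ext x
    simp only [mem_union, mem_iUnion, Bool.exists_bool]
  have hM : MCL τ (fun B => z false B ∪ z true B) := by
    refine ⟨fun A B hAB => union_subset_union ((hz false).mono A B hAB) ((hz true).mono A B hAB),
      fun B => union_subset ((hz false).le B) ((hz true).le B), fun O B hO => ?_⟩
    show z false (B ∩ O) ∪ z true (B ∩ O) = (z false B ∪ z true B) ∩ O
    rw [(hz false).loc O B hO, (hz true).loc O B hO, union_inter_distrib_right]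
  have h1 := hHU X τ (fun B => z false B ∪ z true B) hzd hM Bool z hz (fun B _ => hu B) W hW
  have h2 : W ⊆ HomOp τ (fun B => z false B ∪ z true B) W := le_homOp_US τ _ Subset.rfl h
  rw [h1] at h2
  intro x hx
  have h3 := h2 hx
  simp only [mem_iUnion, Bool.exists_bool] at h3
  exact h3

/-- **US (6.4)** uniform stabilisation -/
theorem hUS (hVP : StVP) (hBA : StBA) (hHU : StHU) (hUZ : StUZ) (hRB : StRB) (hCA : StCA) : StUS := by
  intro X S _ n N τ g h P hsys hft hN m
  obtain ⟨u1, u2, u3, u4, u5, u6, u7, u8, u9⟩ := hUZ X τ (h ∘ g)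
  obtain ⟨v1, v2, v3, v4⟩ := hVP S h X n N τ g P hsys hft hN
  have hfib := fib_US (τ 0) g h hsys.fib
  induction m with
  | zero =>
    intro _ r _ hvd
    obtain ⟨-, hb, hwb, hnb, -⟩ := hCA 0
    refine ⟨Cd.bot 0, hwb, lt_of_le_of_ne (hb r) ?_, fun B _ => ?_⟩
    · intro he
      rw [he] at hnb
      exact hnb hvd
    · rw [u1, u3, u3]
      intro x hx
      cases hfx : (h ∘ g) x with
      | false => exact Or.inl ⟨hx, hfx⟩
      | true => exact Or.inr ⟨hx, hfx⟩
  | succ m ih =>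
    intro hm r hwf hvd
    obtain ⟨l, r', hr, hvd'⟩ := hvd
    have hr' : r = Cd.ext (Cd.of l) r' 0 := hr
    subst hr'
    clear hr
    obtain ⟨-, hb, hwb, hnb, -, hext, hext2, hextlt, -, -⟩ := hCA m
    obtain ⟨hwl, hwr, hrb, hllt⟩ := hext _ _ _ hwf
    obtain ⟨c, hwc, hclt, hc⟩ := ih (by omega) r' hwr hvd'
    obtain ⟨-, hdz, -, -⟩ := hRB X τ (h ∘ g) hsys.tow hfib m
    have hmcl : ∀ s, MCL (τ (m + 1)) (Zo τ (h ∘ g) m r' s) := by
      intro s
      refine ⟨(hdz r' s).mono, (hdz r' s).le, fun O B hO => (hdz r' s).loc O B ?_⟩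
      exact ⟨hO.1.mono (hsys.tow.mono m), hsys.tow.mono m _ hO.2⟩
    by_cases hcb : c = Cd.bot m
    · refine ⟨Cd.of l, hwl, hllt, fun B hB => ?_⟩
      rw [u9, u9]
      have hW := v1 (m + 1) hm (Cd.of l) hwl B hB
      refine last_US hHU (τ (m + 1)) (Zo τ (h ∘ g) m r') (hsys.tow.zd _) hmcl _
        (hsys.cl (m + 1) hm _ hW) ?_
      have h1 := hc _ (hsys.anti m hW)
      rw [hcb, u5] at h1
      exact h1.trans (@subset_closure X (τ (m + 1)) _)
    · have hlex : (toLex (c, N) : Cd m ×ₗ ℕ) < toLex (r', 0) := Prod.Lex.left _ _ hclt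
      refine ⟨Cd.ext (Cd.of l) c N, hext2 _ _ _ _ _ hwf hwc hcb hlex.le, hextlt _ _ _ _ _ hlex, fun B hB => ?_⟩
      rw [u9, u9]
      have hB' := v1 (m + 1) hm (Cd.of l) hwl B hB
      have hW := v1 (m + 1) hm (Cd.ext (Cd.of l) c N) (hext2 _ _ _ _ _ hwf hwc hcb hlex.le) B hB
      have hfix := v4 m hm c hwc _ hB'
      rw [← u6] at hfix
      have hcl := hsys.cl (m + 1) hm _ hW
      have h1 := hBA X S n τ g h P hsys m hm c hwc _ hcl hfix
      have h2 := hc _ (hsys.anti m hW)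
      have h3 := last_US hHU (τ (m + 1)) (Zo τ (h ∘ g) m r') (hsys.tow.zd _) hmcl _ hcl
        (h1.trans (@closure_mono X (τ (m + 1)) _ _ h2))
      have h4 : Vo τ (h ∘ g) (m + 1) (Cd.ext (Cd.of l) c N) B ⊆ Vo τ (h ∘ g) (m + 1) (Cd.of l) B := by
        rw [u6]
        rw [iter]
        exact inter_subset_left
      exact h3.trans (union_subset_union (homOp_mono_US _ _ h4) (homOp_mono_US _ _ h4))

end Pool.Agent.Helper24.WH
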