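import Pool.Agent.Helper24.WH.St5

/-!
# PROJECT WH, module UZ: unfolding rules
-/

set_option autoImplicit false

namespace Pool.Agent.Helper24.WH

open Set TopologicalSpace Topology
open Ordinal hiding univ

private theorem lastc_UZ {m : ℕ} (l : List (Cd m ×ₗ ℕ)) (c : Cd m) (x : ℕ) :
    lastc (l ++ [toLex (c, x)]) = c := by
  unfold lastc
  rw [List.getLast?_concat]
  rfl

/-- unfolding rules -/
theorem hUZ : StUZ := by
  intro X τ f
  have h1 : ∀ B, Vo τ f 0 (Cd.bot 0) B = B := by
    intro B
    show {x ∈ B | (false : Bool) = false} = B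
    ext x
    simp
  have h4 : ∀ m B, Vo τ f (m + 1) (Cd.bot (m + 1)) B = B := fun m B => rfl
  refine ⟨h1, ?_, fun c s B => rfl, h4, ?_, ?_, ?_, ?_, ?_⟩
  · intro c B hc
    have hc' : Cd.B c = true := hc
    show {x ∈ B | Cd.B c = false} = ∅
    ext x
    rw [hc']
    simp
  · intro m B
    cases m with
    | zero => exact h1 B
    | succ m => exact h4 m B
  · intro m l c x B
    show foldV (τ (m + 1)) m (VZ τ f m).2 (Cd.L l ++ [toLex (c, x)]) B = _
    unfold foldV
    rw [List.foldl_append]
    rfl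
  · intro m l r B
    show foldV (τ (m + 1)) m (VZ τ f m).2 (l ++ r) B = _
    unfold foldV
    rw [List.foldl_append]
    rfl
  · intro m e r B
    rfl
  · intro m l c x s B
    show HomOp (τ (m + 1)) ((VZ τ f m).2 (lastc (Cd.L l ++ [toLex (c, x)])) s)
        (foldV (τ (m + 1)) m (VZ τ f m).2 ((Cd.L l ++ [toLex (c, x)]).dropLast) B) = _
    rw [lastc_UZ, List.dropLast_concat]
    rfl

end Pool.Agent.Helper24.WH
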