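import Pool.Agent.Helper24.WH.St1

/-!
# WH module AD: additivity of a derivation
-/

set_option autoImplicit false

namespace Pool.Agent.Helper24.WH

open Set TopologicalSpace Ordinal Topology

/-- rank relation: `0` outside `B`, `1 + b` if the point leaves at stage `b + 1` -/
private def RAD {X : Type} (d : Set X → Set X) (B : Set X) (z : X) (a : Ordinal.{0}) : Prop :=
  (a = 0 ∧ z ∉ B) ∨ ∃ b, a = 1 + b ∧ z ∈ iter d B b ∧ z ∉ iter d B (b + 1)

/-- a point which is not in `iter d B (c + 1)` or not in `B` has a rank -/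
private lemma exists_rank_AD (hIT : StIT) {X : Type} (d : Set X → Set X)
    (hm : ∀ A B, A ⊆ B → d A ⊆ d B) (hl : ∀ B, d B ⊆ B) (B : Set X) (z : X) (c : Ordinal.{0})
    (hz : z ∉ iter d B c) : (z ∉ B ∧ RAD d B z 0) ∨ ∃ b, b < c ∧ RAD d B z (1 + b) := by
  obtain ⟨h0, hs, hanti, -, -, -, hlim, -, -, -⟩ := hIT X d hm hl
  by_cases hB : z ∈ B
  · right
    have hex : ∃ α, z ∉ iter d B α := ⟨c, hz⟩
    obtain ⟨α, hα, hmin⟩ := WellFounded.has_min (wellFounded_lt : WellFounded (α := Ordinal.{0}) (· < ·))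
      {α | z ∉ iter d B α} hex
    have hmin' : ∀ β, β < α → z ∈ iter d B β := by
      intro β hβ
      by_contra h
      exact hmin β h hβ
    rcases zero_or_succ_or_isSuccLimit α with h | ⟨b, h⟩ | h
    · exfalso
      apply hα
      rw [h, h0]
      exact hB
    · rw [Order.succ_eq_add_one] at h
      have hb : b < α := by
        rw [← h]
        exact Order.lt_add_one_iff.mpr le_rfl
      refine ⟨b, ?_, Or.inr ⟨b, rfl, hmin' b hb, ?_⟩⟩
      · by_contra hc
        have h1 : c < α := lt_of_le_of_lt (not_lt.mp hc) hb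
        exact hz (hmin' c h1)
      · rw [h]
        exact hα
    · exfalso
      apply hα
      rw [hlim B α h]
      exact mem_iInter.mpr fun β => hmin' β.1 β.2
  · exact Or.inl ⟨hB, Or.inl ⟨rfl, hB⟩⟩

/-- neighbourhood on which the rank is at most the rank of `z` -/
private lemma nhd_AD (hIT : StIT) (hIL : StIL) {X : Type} (τ : TopologicalSpace X)
    (d : Set X → Set X) (hd : IsDer τ d) (B : Set X) (hB : IsClosed[τ] B) (z : X) (a : Ordinal.{0})
    (hz : RAD d B z a) : ∃ U : Set X, IsOpen[τ] U ∧ z ∈ U ∧ ∀ w ∈ U, ∃ a' ≤ a, RAD d B w a' := by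
  rcases hz with ⟨ha, hz⟩ | ⟨b, ha, hz1, hz2⟩
  · refine ⟨Bᶜ, ?_, hz, ?_⟩
    · exact (@isOpen_compl_iff X B τ).mpr hB
    · intro w hw
      exact ⟨0, zero_le, Or.inl ⟨rfl, hw⟩⟩
  · have hcl : IsClosed[τ] (iter d B (b + 1)) := (hIL X τ d hd (b + 1)).closed B hB
    refine ⟨(iter d B (b + 1))ᶜ, ?_, hz2, ?_⟩
    · exact (@isOpen_compl_iff X _ τ).mpr hcl
    · intro w hw
      rcases exists_rank_AD hIT d hd.mono hd.le B w (b + 1) hw with ⟨-, h⟩ | ⟨b', hb', h⟩
      · exact ⟨0, zero_le, h⟩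
      · refine ⟨1 + b', ?_, h⟩
        rw [ha]
        exact add_le_add_right (Order.lt_add_one_iff.mp hb') 1

/-- two ranks: the second alternative determines the stage -/
private lemma rank_mem_AD {X : Type} (d : Set X → Set X) (B : Set X) (z : X) (b : Ordinal.{0})
    (hz : RAD d B z (1 + b)) : z ∈ iter d B b := by
  rcases hz with ⟨h, -⟩ | ⟨b', h, h1, -⟩
  · exfalso
    have h1 : (1 : Ordinal.{0}) ≤ 1 + b := le_self_add
    rw [h] at h1
    exact absurd h1 (not_le.mpr zero_lt_one)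
  · have : b = b' := add_left_cancel h
    rw [this]
    exact h1

private lemma rank_pos_AD {X : Type} (d : Set X → Set X) (B : Set X) (z : X) (a : Ordinal.{0})
    (hB : z ∈ B) (hz : RAD d B z a) :
    ∃ b, a = 1 + b ∧ z ∈ iter d B b ∧ z ∉ iter d B (b + 1) := by
  rcases hz with ⟨-, h⟩ | h
  · exact absurd hB h
  · exact h

/-- Module AD. -/
theorem hAD (hIT : StIT) (hIL : StIL) (hNS : StNS) : StAD := by
  intro X τ hZD d hd B₁ B₂ x hB₁ hB₂ hx
  obtain ⟨h0, hs, hanti, hmono, -, hsub, hlim, -, -, -⟩ := hIT X d hd.mono hd.le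
  obtain ⟨N, hN1, hN2, hN3⟩ := hNS
  have hN1' : ∀ a a' b, a ≤ a' → N a b ≤ N a' b := by
    intro a a' b h
    rcases h.eq_or_lt with h | h
    · rw [h]
    · exact (hN1 a a' b h).le
  have hN2' : ∀ a b b', b ≤ b' → N a b ≤ N a b' := by
    intro a b b' h
    rcases h.eq_or_lt with h | h
    · rw [h]
    · exact (hN2 a b b' h).le
  have claim : ∀ (β : Ordinal.{0}) (z : X), z ∈ iter d (B₁ ∪ B₂) β → ∀ a₁ a₂,
      RAD d B₁ z a₁ → RAD d B₂ z a₂ → 1 + β ≤ N a₁ a₂ := by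
    intro β
    induction β using Ordinal.limitRecOn with
    | zero =>
      intro z hz a₁ a₂ h₁ h₂
      rw [add_zero]
      have hone : ∀ b : Ordinal.{0}, 0 < 1 + b := fun b =>
        lt_of_lt_of_le zero_lt_one le_self_add
      rw [h0] at hz
      rcases hz with hz | hz
      · obtain ⟨b, hb, -, -⟩ := rank_pos_AD d B₁ z a₁ hz h₁
        have h3 : N 0 a₂ < N a₁ a₂ := by
          rw [hb]
          exact hN1 _ _ _ (hone b)
        exact Order.one_le_iff_pos.mpr (lt_of_le_of_lt (zero_le) h3)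
      · obtain ⟨b, hb, -, -⟩ := rank_pos_AD d B₂ z a₂ hz h₂
        have h3 : N a₁ 0 < N a₁ a₂ := by
          rw [hb]
          exact hN2 _ _ _ (hone b)
        exact Order.one_le_iff_pos.mpr (lt_of_le_of_lt (zero_le) h3)
    | add_one β ih =>
      intro z hz a₁ a₂ h₁ h₂
      have hzβ : z ∈ iter d (B₁ ∪ B₂) β := hanti _ _ _ le_self_add hz
      have hle := ih z hzβ a₁ a₂ h₁ h₂
      rw [← add_assoc]
      refine Order.add_one_le_of_lt (lt_of_le_of_ne hle ?_)
      intro heq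
      obtain ⟨U₁, hU₁, hzU₁, hU₁'⟩ := nhd_AD hIT hIL τ d hd B₁ hB₁ z a₁ h₁
      obtain ⟨U₂, hU₂, hzU₂, hU₂'⟩ := nhd_AD hIT hIL τ d hd B₂ hB₂ z a₂ h₂
      obtain ⟨O, hO, hzO, hOU⟩ := hZD z (U₁ ∩ U₂) (@IsOpen.inter X τ U₁ U₂ hU₁ hU₂) ⟨hzU₁, hzU₂⟩
      have key : ∀ w ∈ iter d (B₁ ∪ B₂) β ∩ O, RAD d B₁ w a₁ ∧ RAD d B₂ w a₂ := by
        intro w hw
        obtain ⟨a₁', ha₁, hr₁⟩ := hU₁' w (hOU hw.2).1
        obtain ⟨a₂', ha₂, hr₂⟩ := hU₂' w (hOU hw.2).2
        have h4 := ih w hw.1 a₁' a₂' hr₁ hr₂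
        have e₁ : a₁' = a₁ := by
          by_contra hne
          have h5 : N a₁' a₂' < N a₁ a₂ :=
            lt_of_lt_of_le (hN1 _ _ _ (lt_of_le_of_ne ha₁ hne)) (hN2' _ _ _ ha₂)
          exact absurd (lt_of_le_of_lt h4 h5) (by rw [heq]; exact lt_irrefl _)
        have e₂ : a₂' = a₂ := by
          by_contra hne
          have h5 : N a₁' a₂' < N a₁ a₂ :=
            lt_of_lt_of_le (hN2 _ _ _ (lt_of_le_of_ne ha₂ hne)) (hN1' _ _ _ ha₁)
          exact absurd (lt_of_le_of_lt h4 h5) (by rw [heq]; exact lt_irrefl _)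
        rw [e₁] at hr₁
        rw [e₂] at hr₂
        exact ⟨hr₁, hr₂⟩
      have hzd : z ∈ d (iter d (B₁ ∪ B₂) β ∩ O) := by
        rw [hd.loc O _ hO]
        refine ⟨?_, hzO⟩
        rw [hs] at hz
        exact hz
      have fin : ∀ (B : Set X) (a : Ordinal.{0}), z ∈ B → RAD d B z a →
          (∀ w ∈ iter d (B₁ ∪ B₂) β ∩ O, RAD d B w a) → False := by
        intro B a hzB hr hall
        obtain ⟨b, hb, -, hb2⟩ := rank_pos_AD d B z a hzB hr
        have h6 : iter d (B₁ ∪ B₂) β ∩ O ⊆ iter d B b := by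
          intro w hw
          have h7 := hall w hw
          rw [hb] at h7
          exact rank_mem_AD d B w b h7
        apply hb2
        rw [hs]
        exact hd.mono _ _ h6 hzd
      rcases hsub _ _ hz with hzB | hzB
      · exact fin B₁ a₁ hzB h₁ fun w hw => (key w hw).1
      · exact fin B₂ a₂ hzB h₂ fun w hw => (key w hw).2
    | limit β hβ ih =>
      intro z hz a₁ a₂ h₁ h₂
      rw [add_le_iff_of_isSuccLimit hβ]
      intro γ hγ
      exact ih γ hγ z (hanti _ _ _ hγ.le hz) a₁ a₂ h₁ h₂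
  apply Subset.antisymm
  · intro y hy
    by_contra hcon
    rw [mem_union, not_or] at hcon
    have h1x : (1 : Ordinal.{0}) < ω ^ x := by
      calc (1 : Ordinal.{0}) < ω := one_lt_omega0
        _ = ω ^ (1 : Ordinal.{0}) := (opow_one _).symm
        _ ≤ ω ^ x := opow_le_opow_right omega0_pos hx
    have hrank : ∀ B : Set X, y ∉ iter d B (ω ^ x) → ∃ a < ω ^ x, RAD d B y a := by
      intro B hB
      rcases exists_rank_AD hIT d hd.mono hd.le B y (ω ^ x) hB with ⟨-, h⟩ | ⟨b, hb, h⟩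
      · exact ⟨0, lt_trans zero_lt_one h1x, h⟩
      · exact ⟨1 + b, isPrincipal_add_omega0_opow x h1x hb, h⟩
    obtain ⟨a₁, ha₁, hr₁⟩ := hrank B₁ hcon.1
    obtain ⟨a₂, ha₂, hr₂⟩ := hrank B₂ hcon.2
    have h8 := claim (ω ^ x) y hy a₁ a₂ hr₁ hr₂
    have h9 := hN3 x a₁ a₂ ha₁ ha₂
    have h10 : ω ^ x ≤ 1 + ω ^ x := le_add_self
    exact absurd (lt_of_le_of_lt (h10.trans h8) h9) (lt_irrefl _)
  · exact union_subset (hmono _ _ _ subset_union_left) (hmono _ _ _ subset_union_right)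

end Pool.Agent.Helper24.WH
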