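import Pool.Agent.Helper24.WH.St6

/-!
# WH module CTA: simulation of a game of height `M` inside a game of height `M+1`
-/

set_option autoImplicit false

namespace Pool.Agent.Helper24.WH

open Set TopologicalSpace Topology
open Ordinal hiding univ

section CTA

variable {X A₂ : Type}

/-! ### Bit strings -/

/-- intersection of the sets selected by a bit string (newest bit first) -/
def Gs_CTA (F : ℕ → Set X) : List Bool → Set X
  | [] => univ
  | b :: w => if b = true then Gs_CTA F w ∩ F w.length else Gs_CTA F w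

open Classical in
/-- the string of length `k` of the set `O` (newest bit first) -/
noncomputable def tw_CTA (F : ℕ → Set X) (B O : Set X) : ℕ → List Bool
  | 0 => []
  | (k + 1) => decide ((O ∩ B ∩ Gs_CTA F (tw_CTA F B O k) ∩ F k).Nonempty) :: tw_CTA F B O k

open Classical in
/-- the true string of the point `x` -/
noncomputable def tt_CTA (F : ℕ → Set X) (x : X) : ℕ → List Bool
  | 0 => []
  | (k + 1) => decide (x ∈ F k) :: tt_CTA F x k

theorem tw_len_CTA (F : ℕ → Set X) (B O : Set X) (k : ℕ) : (tw_CTA F B O k).length = k := by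
  induction k with
  | zero => rfl
  | succ k ih => simp [tw_CTA, ih]

theorem tt_len_CTA (F : ℕ → Set X) (x : X) (k : ℕ) : (tt_CTA F x k).length = k := by
  induction k with
  | zero => rfl
  | succ k ih => simp [tt_CTA, ih]

theorem Gs_cons_sub_CTA (F : ℕ → Set X) (b : Bool) (w : List Bool) :
    Gs_CTA F (b :: w) ⊆ Gs_CTA F w := by
  cases b with
  | false => intro x hx; simpa [Gs_CTA] using hx
  | true =>
    intro x hx
    have hx' : x ∈ Gs_CTA F w ∩ F w.length := by simpa [Gs_CTA] using hx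
    exact hx'.1

theorem Gs_mem_CTA (F : ℕ → Set X) (P1 : Set (Set X)) (hu : univ ∈ P1)
    (hi : ∀ B ∈ P1, ∀ B' ∈ P1, B ∩ B' ∈ P1) (hF : ∀ i, F i ∈ P1) (w : List Bool) :
    Gs_CTA F w ∈ P1 := by
  induction w with
  | nil => exact hu
  | cons b w ih =>
    unfold Gs_CTA
    split_ifs
    · exact hi _ ih _ (hF _)
    · exact ih

theorem tw_down_CTA (F : ℕ → Set X) (B O O' : Set X) (j : ℕ) (h : tw_CTA F B O j = tw_CTA F B O' j) :
    ∀ i ≤ j, tw_CTA F B O i = tw_CTA F B O' i := by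
  induction j with
  | zero => intro i hi; rw [Nat.le_zero.mp hi]; rfl
  | succ j ih =>
    intro i hi
    rcases Nat.lt_or_ge i (j + 1) with hlt | hge
    · have h2 : tw_CTA F B O j = tw_CTA F B O' j := by
        simp only [tw_CTA] at h
        exact (List.cons.inj h).2
      exact ih h2 i (Nat.lt_succ_iff.mp hlt)
    · have : i = j + 1 := le_antisymm hi hge
      rw [this]; exact h

theorem tw_ne_CTA (F : ℕ → Set X) (B O : Set X) (h : (O ∩ B).Nonempty) (k : ℕ) :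
    (O ∩ B ∩ Gs_CTA F (tw_CTA F B O k)).Nonempty := by
  induction k with
  | zero => simpa [tw_CTA, Gs_CTA] using h
  | succ k ih =>
    by_cases hb : (O ∩ B ∩ Gs_CTA F (tw_CTA F B O k) ∩ F k).Nonempty
    · have : Gs_CTA F (tw_CTA F B O (k + 1)) = Gs_CTA F (tw_CTA F B O k) ∩ F k := by
        simp [tw_CTA, Gs_CTA, hb, tw_len_CTA]
      rw [this, ← inter_assoc]
      exact hb
    · have : Gs_CTA F (tw_CTA F B O (k + 1)) = Gs_CTA F (tw_CTA F B O k) := by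
        simp [tw_CTA, Gs_CTA, hb]
      rw [this]
      exact ih

theorem tt_mem_CTA (F : ℕ → Set X) (x : X) (k : ℕ) : x ∈ Gs_CTA F (tt_CTA F x k) := by
  induction k with
  | zero => exact mem_univ x
  | succ k ih =>
    by_cases hb : x ∈ F k
    · have : Gs_CTA F (tt_CTA F x (k + 1)) = Gs_CTA F (tt_CTA F x k) ∩ F k := by
        simp [tt_CTA, Gs_CTA, hb, tt_len_CTA]
      rw [this]
      exact ⟨ih, hb⟩
    · have : Gs_CTA F (tt_CTA F x (k + 1)) = Gs_CTA F (tt_CTA F x k) := by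
        simp [tt_CTA, Gs_CTA, hb]
      rw [this]
      exact ih

theorem tt_sub_CTA (F : ℕ → Set X) (x : X) (k : ℕ) (hx : x ∈ F k) :
    Gs_CTA F (tt_CTA F x (k + 1)) ⊆ F k := by
  have : Gs_CTA F (tt_CTA F x (k + 1)) = Gs_CTA F (tt_CTA F x k) ∩ F k := by
    simp [tt_CTA, Gs_CTA, hx, tt_len_CTA]
  rw [this]
  exact inter_subset_right

open Classical in
/-- the strings converge to the true string -/
theorem tw_conv_CTA (F : ℕ → Set X) (B : Set X) (x : X) (hxB : x ∈ B) (O : ℕ → Set X)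
    (hanti : ∀ l l', l ≤ l' → O l' ⊆ O l) (hx : ∀ l, x ∈ O l)
    (hF : ∀ i, x ∉ F i → ∃ l, O l ∩ B ⊆ (F i)ᶜ) (i : ℕ) :
    ∃ l₀, ∀ l, l₀ ≤ l → tw_CTA F B (O l) i = tt_CTA F x i := by
  induction i with
  | zero => exact ⟨0, fun _ _ => rfl⟩
  | succ i ih =>
    obtain ⟨l₀, hl₀⟩ := ih
    by_cases hb : x ∈ F i
    · refine ⟨l₀, fun l hl => ?_⟩
      have : (O l ∩ B ∩ Gs_CTA F (tw_CTA F B (O l) i) ∩ F i).Nonempty :=
        ⟨x, ⟨⟨hx l, hxB⟩, by rw [hl₀ l hl]; exact tt_mem_CTA F x i⟩, hb⟩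
      have h1 := decide_eq_true this
      have h2 := decide_eq_true hb
      simp only [tw_CTA, tt_CTA]
      rw [h1, h2, hl₀ l hl]
    · obtain ⟨l₁, hl₁⟩ := hF i hb
      refine ⟨max l₀ l₁, fun l hl => ?_⟩
      have : ¬ (O l ∩ B ∩ Gs_CTA F (tw_CTA F B (O l) i) ∩ F i).Nonempty := by
        rintro ⟨y, ⟨⟨hy1, hy2⟩, _⟩, hy3⟩
        exact hl₁ ⟨hanti l₁ l (le_trans (le_max_right _ _) hl) hy1, hy2⟩ hy3
      have h1 := decide_eq_false this
      have h2 := decide_eq_false hb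
      simp only [tw_CTA, tt_CTA]
      rw [h1, h2, hl₀ l (le_trans (le_max_left _ _) hl)]

/-! ### Histories -/

theorem hist_congr_CTA {Y : Type} (s s' : ℕ → Set X × Set Y) (k : ℕ) (h : ∀ i, i < k → s i = s' i) :
    hist s k = hist s' k := by
  induction k with
  | zero => rfl
  | succ k ih =>
    simp only [hist]
    rw [h k (Nat.lt_succ_self k), ih (fun i hi => h i (Nat.lt_succ_of_lt hi))]

theorem hist_len_CTA {Y : Type} (s : ℕ → Set X × Set Y) (k : ℕ) : (hist s k).length = k := by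
  induction k with
  | zero => rfl
  | succ k ih => simp [hist, ih]

theorem legal_down_CTA {Y : Type} (P : Set (Set X)) (A : Set X) (τ' : TopologicalSpace Y) (A' : Set Y)
    (σ : Hist X Y → Set Y) (s : ℕ → Set X × Set Y) (k : ℕ) (h : Legal P A τ' A' σ (hist s k)) :
    ∀ i ≤ k, Legal P A τ' A' σ (hist s i) := by
  induction k with
  | zero => intro i hi; rw [Nat.le_zero.mp hi]; exact h
  | succ k ih =>
    intro i hi
    rcases Nat.lt_or_ge i (k + 1) with hlt | hge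
    · exact ih h.1 i (Nat.lt_succ_iff.mp hlt)
    · have : i = k + 1 := le_antisymm hi hge
      rw [this]; exact h

theorem ans_down_CTA (P : Set (Set X)) (A : Set X) (τ' : TopologicalSpace (Tre A₂)) (A' : Set (Tre A₂))
    (σ : Hist X (Tre A₂) → Set (Tre A₂)) (s : ℕ → Set X × Set (Tre A₂))
    (hm : ∀ mv h, Legal P A τ' A' σ (mv :: h) → σ (mv :: h) ⊆ mv.2 ∩ σ h)
    (k : ℕ) (h : Legal P A τ' A' σ (hist s k)) :
    ∀ i ≤ k, σ (hist s k) ⊆ σ (hist s i) := by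
  induction k with
  | zero => intro i hi; rw [Nat.le_zero.mp hi]
  | succ k ih =>
    intro i hi
    rcases Nat.lt_or_ge i (k + 1) with hlt | hge
    · exact ((hm _ _ h).trans inter_subset_right).trans (ih h.1 i (Nat.lt_succ_iff.mp hlt))
    · have : i = k + 1 := le_antisymm hi hge
      rw [this]

/-! ### The simulation -/

/-- state of the simulation: last real source set, length and entries of the simulated play, real answer -/
structure Sim_CTA (X Y : Type) where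
  O : Set X
  k : ℕ
  s : ℕ → Set X × Set Y
  R : Set Y

/-- acceptable answers -/
def ok_CTA (P2 : Set (Set (Tre A₂))) (τ2 : TopologicalSpace (Tre A₂)) (E U : Set (Tre A₂)) (n : ℕ)
    (Q₁ : Set (Tre A₂)) : Prop :=
  Q₁ ∈ P2 ∧ Q₁ ⊆ U ∧ (∃ z ∈ E, z ∈ Q₁ ∧ Q₁ ⊆ Cyl n z) ∧ Q₁ ⊆ closure[τ2] (Q₁ ∩ E)

open Classical in
/-- number of surviving entries -/
noncomputable def jj_CTA (F : ℕ → Set X) (B : Set X) (st : Sim_CTA X (Tre A₂)) (O : Set X) : ℕ :=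
  Nat.findGreatest (fun j => tw_CTA F B st.O j = tw_CTA F B O j) st.k

/-- new entries -/
noncomputable def ss_CTA (F : ℕ → Set X) (B : Set X) (st : Sim_CTA X (Tre A₂)) (mv : Set X × Set (Tre A₂)) :
    ℕ → Set X × Set (Tre A₂) :=
  Function.update st.s (jj_CTA F B st mv.1)
    (mv.1 ∩ Gs_CTA F (tw_CTA F B mv.1 (jj_CTA F B st mv.1 + 1)), mv.2 ∩ st.R)

open Classical in
/-- one step of the simulation -/
noncomputable def nxt_CTA (F : ℕ → Set X) (B : Set X) (P2 : Set (Set (Tre A₂))) (τ2 : TopologicalSpace (Tre A₂))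
    (σp : Hist X (Tre A₂) → Set (Tre A₂)) (H' : Set (Tre A₂)) (st : Sim_CTA X (Tre A₂))
    (mv : Set X × Set (Tre A₂)) (n : ℕ) : Sim_CTA X (Tre A₂) where
  O := mv.1
  k := jj_CTA F B st mv.1 + 1
  s := ss_CTA F B st mv
  R := if h : ∃ Q₁, ok_CTA P2 τ2 (σp (hist (ss_CTA F B st mv) (jj_CTA F B st mv.1 + 1)) ∩ H') (mv.2 ∩ st.R) n Q₁
    then h.choose else ∅

/-- the run of the simulation -/
noncomputable def run_CTA (F : ℕ → Set X) (B : Set X) (P2 : Set (Set (Tre A₂))) (τ2 : TopologicalSpace (Tre A₂))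
    (σp : Hist X (Tre A₂) → Set (Tre A₂)) (H' Q : Set (Tre A₂)) : Hist X (Tre A₂) → Sim_CTA X (Tre A₂)
  | [] => ⟨univ, 0, fun _ => (univ, univ), Q⟩
  | mv :: h => nxt_CTA F B P2 τ2 σp H' (run_CTA F B P2 τ2 σp H' Q h) mv h.length

/-- invariant -/
structure Inv_CTA (F : ℕ → Set X) (B : Set X) (P1 : Set (Set X)) (P2 : Set (Set (Tre A₂)))
    (τ1 τ2 : TopologicalSpace (Tre A₂)) (σp : Hist X (Tre A₂) → Set (Tre A₂)) (H' A' : Set (Tre A₂))
    (st : Sim_CTA X (Tre A₂)) : Prop where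
  leg : Legal P1 B τ1 H' σp (hist st.s st.k)
  R : st.R ∈ P2
  den : A' ∩ st.R ⊆ closure[τ2] (st.R ∩ (σp (hist st.s st.k) ∩ H'))
  ent : ∀ i, i < st.k → ∃ O', st.O ⊆ O' ∧ (st.s i).1 = O' ∩ Gs_CTA F (tw_CTA F B O' (i + 1)) ∧
    tw_CTA F B O' (i + 1) = tw_CTA F B st.O (i + 1)

theorem jj_spec_CTA (F : ℕ → Set X) (B : Set X) (st : Sim_CTA X (Tre A₂)) (O : Set X) :
    jj_CTA F B st O ≤ st.k ∧ tw_CTA F B st.O (jj_CTA F B st O) = tw_CTA F B O (jj_CTA F B st O) ∧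
    ∀ i ≤ st.k, tw_CTA F B st.O i = tw_CTA F B O i → i ≤ jj_CTA F B st O := by
  classical
  refine ⟨Nat.findGreatest_le _, ?_, ?_⟩
  · unfold jj_CTA
    exact Nat.findGreatest_spec (P := fun j => tw_CTA F B st.O j = tw_CTA F B O j) (Nat.zero_le _) rfl
  · intro i hi h
    unfold jj_CTA
    exact Nat.le_findGreatest hi h

theorem ss_old_CTA (F : ℕ → Set X) (B : Set X) (st : Sim_CTA X (Tre A₂)) (mv : Set X × Set (Tre A₂)) (i : ℕ)
    (hi : i < jj_CTA F B st mv.1) : ss_CTA F B st mv i = st.s i := by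
  unfold ss_CTA
  rw [Function.update_of_ne (Nat.ne_of_lt hi)]

theorem ss_new_CTA (F : ℕ → Set X) (B : Set X) (st : Sim_CTA X (Tre A₂)) (mv : Set X × Set (Tre A₂)) :
    ss_CTA F B st mv (jj_CTA F B st mv.1) =
      (mv.1 ∩ Gs_CTA F (tw_CTA F B mv.1 (jj_CTA F B st mv.1 + 1)), mv.2 ∩ st.R) := by
  unfold ss_CTA
  rw [Function.update_self]

/-- hypotheses of the simulation -/
structure Hyp_CTA (F : ℕ → Set X) (B : Set X) (P1 P2s : Set (Set X)) (P1' P2 : Set (Set (Tre A₂)))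
    (τ1 τ2 : TopologicalSpace (Tre A₂)) (σp : Hist X (Tre A₂) → Set (Tre A₂)) (H' A' : Set (Tre A₂)) : Prop where
  u : univ ∈ P1
  i : ∀ C ∈ P1, ∀ C' ∈ P1, C ∩ C' ∈ P1
  F : ∀ i, F i ∈ P1
  P21 : P2s ⊆ P1
  o21 : ∀ U, IsOpen[τ2] U → IsOpen[τ1] U
  op : ∀ U ∈ P2, IsOpen[τ1] U
  mv : ∀ mv h, Legal P1 B τ1 H' σp (mv :: h) →
    σp (mv :: h) ∈ P1' ∧ σp (mv :: h) ⊆ mv.2 ∩ σp h ∧ (σp (mv :: h) ∩ H').Nonempty
  sh : ∀ E, E ∈ P1' → ∀ z ∈ E ∩ H', ∀ U, IsOpen[τ1] U → z ∈ U → ∀ k : ℕ,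
    ∃ Q₁ ∈ P2, z ∈ Q₁ ∧ Q₁ ⊆ U ∧ Q₁ ⊆ Cyl k z ∧ Q₁ ⊆ closure[τ2] (Q₁ ∩ (E ∩ H'))
  HA : H' ⊆ A'

theorem step_CTA (F : ℕ → Set X) (B : Set X) (P1 P2s : Set (Set X)) (P1' P2 : Set (Set (Tre A₂)))
    (τ1 τ2 : TopologicalSpace (Tre A₂)) (σp : Hist X (Tre A₂) → Set (Tre A₂)) (H' A' : Set (Tre A₂))
    (hy : Hyp_CTA F B P1 P2s P1' P2 τ1 τ2 σp H' A') (st : Sim_CTA X (Tre A₂))
    (hst : Inv_CTA F B P1 P2 τ1 τ2 σp H' A' st) (mv : Set X × Set (Tre A₂)) (n : ℕ)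
    (h1 : mv.1 ∈ P2s) (h2 : mv.1 ⊆ st.O) (h3 : (mv.1 ∩ B).Nonempty) (h4 : IsOpen[τ2] mv.2)
    (h5 : (mv.2 ∩ st.R ∩ A').Nonempty) :
    Inv_CTA F B P1 P2 τ1 τ2 σp H' A' (nxt_CTA F B P2 τ2 σp H' st mv n) ∧
    (nxt_CTA F B P2 τ2 σp H' st mv n).R ⊆ mv.2 ∩ st.R ∧
    ((nxt_CTA F B P2 τ2 σp H' st mv n).R ∩ A').Nonempty ∧
    (∃ z, (nxt_CTA F B P2 τ2 σp H' st mv n).R ⊆ Cyl n z) := by
  classical
  obtain ⟨hj1, hj2, -⟩ := jj_spec_CTA F B st mv.1
  set j := jj_CTA F B st mv.1 with hj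
  set s' := ss_CTA F B st mv with hs'
  have hold : ∀ i, i < j → s' i = st.s i := fun i hi => ss_old_CTA F B st mv i hi
  have hnew : s' j = (mv.1 ∩ Gs_CTA F (tw_CTA F B mv.1 (j + 1)), mv.2 ∩ st.R) := ss_new_CTA F B st mv
  have hhist : hist s' j = hist st.s j := hist_congr_CTA _ _ _ hold
  have hlj : Legal P1 B τ1 H' σp (hist s' j) := by
    rw [hhist]; exact legal_down_CTA _ _ _ _ _ _ _ hst.leg j hj1
  have hans : σp (hist st.s st.k) ⊆ σp (hist s' j) := by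
    rw [hhist]
    exact ans_down_CTA P1 B τ1 H' σp st.s (fun mv h hl => (hy.mv mv h hl).2.1) _ hst.leg j hj1
  -- the new simulated move is legal
  have hmeet : (mv.2 ∩ st.R ∩ σp (hist s' j) ∩ H').Nonempty := by
    obtain ⟨y, ⟨hy1, hy2⟩, hy3⟩ := h5
    have hcl := hst.den ⟨hy3, hy2⟩
    rw [@mem_closure_iff _ τ2] at hcl
    obtain ⟨w, hw1, hw2, hw3, hw4⟩ := hcl mv.2 h4 hy1
    exact ⟨w, ⟨⟨hw1, hw2⟩, hans hw3⟩, hw4⟩
  have hlast : mv.1 ∩ Gs_CTA F (tw_CTA F B mv.1 (j + 1)) ⊆ lastO (hist s' j) := by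
    rcases Nat.eq_zero_or_pos j with h0 | hpos
    · rw [h0]; exact subset_univ _
    · obtain ⟨i, hi⟩ := Nat.exists_eq_succ_of_ne_zero (Nat.pos_iff_ne_zero.mp hpos)
      have hij : i < j := by omega
      obtain ⟨O', hO1, hO2, hO3⟩ := hst.ent i (lt_of_lt_of_le hij hj1)
      have : lastO (hist s' j) = (s' i).1 := by rw [hi]; rfl
      rw [this, hold i hij, hO2, hO3]
      have e1 : tw_CTA F B st.O (i + 1) = tw_CTA F B mv.1 (i + 1) := by
        have := hj2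
        rw [hi] at this
        exact this
      rw [e1]
      refine inter_subset_inter (h2.trans hO1) ?_
      rw [hi]
      exact Gs_cons_sub_CTA F _ _
  have hleg : Legal P1 B τ1 H' σp (hist s' (j + 1)) := by
    refine ⟨hlj, ?_, ?_, ?_, ?_, ?_⟩
    · rw [hnew]; exact hy.i _ (hy.P21 h1) _ (Gs_mem_CTA F P1 hy.u hy.i hy.F _)
    · rw [hnew]; exact hlast
    · rw [hnew]
      have := tw_ne_CTA F B mv.1 h3 (j + 1)
      obtain ⟨x, ⟨hx1, hx2⟩, hx3⟩ := this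
      exact ⟨x, ⟨hx1, hx3⟩, hx2⟩
    · rw [hnew]
      exact @IsOpen.inter _ τ1 _ _ (hy.o21 _ h4) (hy.op _ hst.R)
    · rw [hnew]; exact hmeet
  obtain ⟨hm1, hm2, hm3⟩ := hy.mv _ _ hleg
  have hex : ∃ Q₁, ok_CTA P2 τ2 (σp (hist s' (j + 1)) ∩ H') (mv.2 ∩ st.R) n Q₁ := by
    obtain ⟨z, hz1, hz2⟩ := hm3
    have hzU : z ∈ mv.2 ∩ st.R := by
      have := (hm2 hz1).1
      rw [hnew] at this
      exact this
    obtain ⟨Q₁, hQ1, hQ2, hQ3, hQ4, hQ5⟩ := hy.sh _ hm1 z ⟨hz1, hz2⟩ (mv.2 ∩ st.R)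
      (@IsOpen.inter _ τ1 _ _ (hy.o21 _ h4) (hy.op _ hst.R)) hzU n
    exact ⟨Q₁, hQ1, hQ3, ⟨z, ⟨hz1, hz2⟩, hQ2, hQ4⟩, hQ5⟩
  have hR : ok_CTA P2 τ2 (σp (hist s' (j + 1)) ∩ H') (mv.2 ∩ st.R) n (nxt_CTA F B P2 τ2 σp H' st mv n).R := by
    have : (nxt_CTA F B P2 τ2 σp H' st mv n).R = hex.choose := by
      unfold nxt_CTA
      simp only
      rw [dif_pos hex]
    rw [this]
    exact hex.choose_spec
  obtain ⟨hR1, hR2, ⟨z, hz, hzR, hzC⟩, hR4⟩ := hR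
  refine ⟨⟨hleg, hR1, ?_, ?_⟩, hR2, ⟨z, hzR, hy.HA hz.2⟩, ⟨z, hzC⟩⟩
  · exact inter_subset_right.trans hR4
  · intro i hi
    have hi' : i < j + 1 := hi
    rcases Nat.lt_or_ge i j with hlt | hge
    · obtain ⟨O', hO1, hO2, hO3⟩ := hst.ent i (lt_of_lt_of_le hlt hj1)
      refine ⟨O', h2.trans hO1, ?_, ?_⟩
      · have : (nxt_CTA F B P2 τ2 σp H' st mv n).s i = st.s i := hold i hlt
        rw [this]; exact hO2
      · rw [hO3]
        exact tw_down_CTA F B _ _ j hj2 (i + 1) hlt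
    · have hij : i = j := by omega
      subst hij
      refine ⟨mv.1, Subset.rfl, ?_, rfl⟩
      have : (nxt_CTA F B P2 τ2 σp H' st mv n).s j = _ := hnew
      rw [this]

theorem inv_CTA (F : ℕ → Set X) (B : Set X) (P1 P2s : Set (Set X)) (P1' P2 : Set (Set (Tre A₂)))
    (τ1 τ2 : TopologicalSpace (Tre A₂)) (σp : Hist X (Tre A₂) → Set (Tre A₂)) (H' A' Q : Set (Tre A₂))
    (hy : Hyp_CTA F B P1 P2s P1' P2 τ1 τ2 σp H' A') (hσ : σp [] = Q) (hQ : Q ∈ P2)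
    (hd : A' ∩ Q ⊆ closure[τ2] (Q ∩ H')) (h : Hist X (Tre A₂))
    (hl : Legal P2s B τ2 A' (fun h => (run_CTA F B P2 τ2 σp H' Q h).R) h) :
    (run_CTA F B P2 τ2 σp H' Q h).O = lastO h ∧
    Inv_CTA F B P1 P2 τ1 τ2 σp H' A' (run_CTA F B P2 τ2 σp H' Q h) := by
  induction h with
  | nil =>
    refine ⟨rfl, trivial, hQ, ?_, ?_⟩
    · change A' ∩ Q ⊆ closure[τ2] (Q ∩ (σp [] ∩ H'))
      rw [hσ, ← inter_assoc, inter_self]
      exact hd
    · intro i hi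
      exact absurd hi (Nat.not_lt_zero _)
  | cons mv h ih =>
    obtain ⟨hl0, hl1, hl2, hl3, hl4, hl5⟩ := hl
    obtain ⟨ih1, ih2⟩ := ih hl0
    refine ⟨rfl, ?_⟩
    exact (step_CTA F B P1 P2s P1' P2 τ1 τ2 σp H' A' hy _ ih2 mv h.length hl1 (by rw [ih1]; exact hl2) hl3 hl4 hl5).1

theorem lim_CTA (F : ℕ → Set X) (B : Set X) (P1 P2s : Set (Set X)) (P1' P2 : Set (Set (Tre A₂)))
    (τM : TopologicalSpace X) (f : X → Bool) (f' : Tre A₂ → Bool)
    (τ1 τ2 : TopologicalSpace (Tre A₂)) (σp : Hist X (Tre A₂) → Set (Tre A₂)) (H' A' Q : Set (Tre A₂))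
    (hy : Hyp_CTA F B P1 P2s P1' P2 τ1 τ2 σp H' A') (hσ : σp [] = Q) (hQ : Q ∈ P2)
    (hd : A' ∩ Q ⊆ closure[τ2] (Q ∩ H'))
    (p : ℕ → Set X × Set (Tre A₂))
    (hp : ∀ l, Legal P2s B τ2 A' (fun h => (run_CTA F B P2 τ2 σp H' Q h).R) (hist p l))
    (x : X) (hxB : x ∈ B) (hx : ∀ l, x ∈ (p l).1)
    (hFc : ∀ i, x ∉ F i → ∃ l, (p l).1 ∩ B ⊆ (F i)ᶜ)
    (hbas : ∀ U, IsOpen[τM] U → x ∈ U → ∃ i, x ∈ F i ∧ F i ⊆ U)
    (hlim : ∀ q : ℕ → Set X × Set (Tre A₂), (∀ i, Legal P1 B τ1 H' σp (hist q i)) → ∀ x ∈ B, (∀ i, x ∈ (q i).1) →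
      (∀ U, IsOpen[τM] U → x ∈ U → ∃ i, (q i).1 ∩ B ⊆ U) →
      ∃ x' ∈ H', (∀ i, x' ∈ σp (hist q i)) ∧ f' x' = f x ∧ ∀ k, ∃ l, σp (hist q l) ⊆ Cyl k x') :
    ∃ x' ∈ A', (∀ l, x' ∈ (run_CTA F B P2 τ2 σp H' Q (hist p l)).R) ∧ f' x' = f x ∧
      ∀ k, ∃ l, (run_CTA F B P2 τ2 σp H' Q (hist p l)).R ⊆ Cyl k x' := by
  classical
  set st : ℕ → Sim_CTA X (Tre A₂) := fun l => run_CTA F B P2 τ2 σp H' Q (hist p l) with hst
  have hinv : ∀ l, (st l).O = lastO (hist p l) ∧ Inv_CTA F B P1 P2 τ1 τ2 σp H' A' (st l) :=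
    fun l => inv_CTA F B P1 P2s P1' P2 τ1 τ2 σp H' A' Q hy hσ hQ hd (hist p l) (hp l)
  have ha : ∀ l, st (l + 1) = nxt_CTA F B P2 τ2 σp H' (st l) (p l) l := by
    intro l
    change nxt_CTA F B P2 τ2 σp H' (st l) (p l) (hist p l).length = _
    rw [hist_len_CTA]
  have hO : ∀ l, (st (l + 1)).O = (p l).1 := fun l => by rw [ha]; rfl
  have hk : ∀ l, (st (l + 1)).k = jj_CTA F B (st l) (p l).1 + 1 := fun l => by rw [ha]; rfl
  have hs : ∀ l, (st (l + 1)).s = ss_CTA F B (st l) (p l) := fun l => by rw [ha]; rfl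
  have hanti1 : ∀ l, (p (l + 1)).1 ⊆ (p l).1 := fun l => (hp (l + 2)).2.2.1
  have hanti : ∀ l l', l ≤ l' → (p l').1 ⊆ (p l).1 := by
    intro l l' h
    induction l', h using Nat.le_induction with
    | base => exact Subset.rfl
    | succ m _ ih => exact (hanti1 m).trans ih
  have hstep : ∀ l, (st (l + 1)).R ⊆ (p l).2 ∩ (st l).R ∧ ∃ z, (st (l + 1)).R ⊆ Cyl l z := by
    intro l
    obtain ⟨-, h1, h2, h3, h4, h5⟩ := hp (l + 1)
    have := step_CTA F B P1 P2s P1' P2 τ1 τ2 σp H' A' hy (st l) (hinv l).2 (p l) l h1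
      (by rw [(hinv l).1]; exact h2) h3 h4 h5
    rw [ha]
    exact ⟨this.2.1, this.2.2.2⟩
  have hRanti : ∀ l l', l ≤ l' → (st l').R ⊆ (st l).R := by
    intro l l' h
    induction l', h using Nat.le_induction with
    | base => exact Subset.rfl
    | succ m _ ih => exact ((hstep m).1.trans inter_subset_right).trans ih
  have hkl : ∀ l, (st l).k ≤ l := by
    intro l
    induction l with
    | zero => exact le_refl 0
    | succ l ih =>
      rw [hk]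
      have := (jj_spec_CTA F B (st l) (p l).1).1
      omega
  -- entries
  have hent : ∀ l i, i < (st l).k → ∃ l', i ≤ l' ∧
      (st l).s i = ((p l').1 ∩ Gs_CTA F (tw_CTA F B (p l').1 (i + 1)), (p l').2 ∩ (st l').R) ∧
      tw_CTA F B (p l').1 (i + 1) = tw_CTA F B (st l).O (i + 1) := by
    intro l
    induction l with
    | zero => intro i hi; exact absurd hi (Nat.not_lt_zero _)
    | succ l ih =>
      intro i hi
      rw [hk] at hi
      obtain ⟨hj1, hj2, -⟩ := jj_spec_CTA F B (st l) (p l).1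
      rcases Nat.lt_or_ge i (jj_CTA F B (st l) (p l).1) with hlt | hge
      · obtain ⟨l', h1, h2, h3⟩ := ih i (lt_of_lt_of_le hlt hj1)
        refine ⟨l', h1, ?_, ?_⟩
        · rw [hs, ss_old_CTA F B (st l) (p l) i hlt]; exact h2
        · rw [h3, hO]; exact tw_down_CTA F B _ _ _ hj2 (i + 1) hlt
      · have hij : i = jj_CTA F B (st l) (p l).1 := by omega
        refine ⟨l, ?_, ?_, ?_⟩
        · rw [hij]; exact hj1.trans (hkl l)
        · rw [hs]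
          conv_lhs => rw [hij]
          rw [ss_new_CTA, ← hij]
        · rw [hO]
  have hconv := fun i => tw_conv_CTA F B x hxB (fun l => (p l).1) hanti hx hFc i
  have hlarge : ∀ i, ∃ l₁, ∀ l, l₁ ≤ l → i ≤ (st l).k ∧ tw_CTA F B (st l).O i = tt_CTA F x i := by
    intro i
    obtain ⟨l₀, hl₀⟩ := hconv i
    have hOi : ∀ l, l₀ + 1 ≤ l → tw_CTA F B (st l).O i = tt_CTA F x i := by
      intro l hl
      obtain ⟨m, rfl⟩ : ∃ m, l = m + 1 := ⟨l - 1, by omega⟩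
      rw [hO]
      exact hl₀ m (by omega)
    have hgrow : ∀ t, min (i + 1) t ≤ (st (l₀ + 1 + t)).k := by
      intro t
      induction t with
      | zero => simp
      | succ t ih =>
        have e : l₀ + 1 + (t + 1) = (l₀ + 1 + t) + 1 := by omega
        rw [e, hk]
        obtain ⟨-, -, hj3⟩ := jj_spec_CTA F B (st (l₀ + 1 + t)) (p (l₀ + 1 + t)).1
        have h1 : tw_CTA F B (st (l₀ + 1 + t)).O i = tw_CTA F B (p (l₀ + 1 + t)).1 i := by
          rw [hOi _ (by omega)]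
          exact (hl₀ _ (by omega)).symm
        have h2 := tw_down_CTA F B _ _ _ h1 (min i (st (l₀ + 1 + t)).k) (min_le_left _ _)
        have h3 := hj3 _ (min_le_right _ _) h2
        omega
    refine ⟨l₀ + 1 + i, fun l hl => ⟨?_, hOi l (by omega)⟩⟩
    have := hgrow (l - (l₀ + 1))
    have e : l₀ + 1 + (l - (l₀ + 1)) = l := by omega
    rw [e] at this
    omega
  have hstab : ∀ i, ∃ e : Set X × Set (Tre A₂), ∃ l₂, ∀ l, l₂ ≤ l → i < (st l).k ∧ (st l).s i = e ∧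
      tw_CTA F B (st l).O (i + 1) = tt_CTA F x (i + 1) := by
    intro i
    obtain ⟨l₁, hl₁⟩ := hlarge (i + 1)
    refine ⟨(st l₁).s i, l₁, fun l hl => ?_⟩
    refine ⟨(hl₁ l hl).1, ?_, (hl₁ l hl).2⟩
    induction l, hl using Nat.le_induction with
    | base => rfl
    | succ m hm ih =>
      rw [← ih, hs]
      refine ss_old_CTA F B (st m) (p m) i ?_
      obtain ⟨-, -, hj3⟩ := jj_spec_CTA F B (st m) (p m).1
      refine hj3 (i + 1) (hl₁ m hm).1 ?_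
      rw [(hl₁ m hm).2, ← hO, (hl₁ (m + 1) (by omega)).2]
  choose q l₂ hq using hstab
  have hhist : ∀ i, ∃ l₃, ∀ l, l₃ ≤ l → hist q i = hist (st l).s i := by
    intro i
    induction i with
    | zero => exact ⟨0, fun _ _ => rfl⟩
    | succ i ih =>
      obtain ⟨l₃, hl₃⟩ := ih
      refine ⟨max l₃ (l₂ i), fun l hl => ?_⟩
      simp only [hist]
      rw [hl₃ l (le_trans (le_max_left _ _) hl), (hq i l (le_trans (le_max_right _ _) hl)).2.1]
  have hleg : ∀ i, Legal P1 B τ1 H' σp (hist q i) := by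
    intro i
    obtain ⟨l₃, hl₃⟩ := hhist i
    obtain ⟨l₁, hl₁⟩ := hlarge i
    have h1 := hl₃ (max l₃ l₁) (le_max_left _ _)
    have h2 := (hl₁ (max l₃ l₁) (le_max_right _ _)).1
    rw [h1]
    exact legal_down_CTA _ _ _ _ _ _ _ (hinv _).2.leg i h2
  have hqe : ∀ i, ∃ l', i ≤ l' ∧ q i = ((p l').1 ∩ Gs_CTA F (tt_CTA F x (i + 1)), (p l').2 ∩ (st l').R) := by
    intro i
    obtain ⟨h1, h2, h3⟩ := hq i (l₂ i) (le_refl _)
    obtain ⟨l', h4, h5, h6⟩ := hent (l₂ i) i h1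
    refine ⟨l', h4, ?_⟩
    rw [← h2, h5, h6, h3]
  have hxq : ∀ i, x ∈ (q i).1 := by
    intro i
    obtain ⟨l', -, h⟩ := hqe i
    rw [h]
    exact ⟨hx l', tt_mem_CTA F x (i + 1)⟩
  have hcv : ∀ U, IsOpen[τM] U → x ∈ U → ∃ i, (q i).1 ∩ B ⊆ U := by
    intro U hU hxU
    obtain ⟨i, hi1, hi2⟩ := hbas U hU hxU
    refine ⟨i, ?_⟩
    obtain ⟨l', -, h⟩ := hqe i
    rw [h]
    exact (inter_subset_left.trans inter_subset_right).trans ((tt_sub_CTA F x i hi1).trans hi2)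
  obtain ⟨x', hx'H, hx'σ, hx'f, -⟩ := hlim q hleg x hxB hxq hcv
  have hx'R : ∀ l, x' ∈ (st l).R := by
    intro l
    obtain ⟨l', hl', h⟩ := hqe l
    have h1 := (hy.mv _ _ (hleg (l + 1))).2.1 (hx'σ (l + 1))
    have h2 : x' ∈ (q l).2 := h1.1
    rw [h] at h2
    exact hRanti l l' hl' h2.2
  refine ⟨x', hy.HA hx'H, hx'R, hx'f, fun k => ⟨k + 1, ?_⟩⟩
  obtain ⟨z, hz⟩ := (hstep k).2
  intro y hy' u hu
  have h1 := hz hy' u hu
  have h2 := hz (hx'R (k + 1)) u hu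
  rw [h1, h2]

end CTA

theorem hCTA (hSH : StSH) : StCTA := by
  intro X A₂ n τ P f τ' P' f' hr hr' M hM B hB A' hA' H' hH' Q hQ hHA hd hW
  obtain ⟨σp, hσ0, hσ⟩ := hW
  obtain ⟨F, hF⟩ : ∃ F : ℕ → Set X, P (M + 1) = range F :=
    (hr.cnt (M + 1)).exists_eq_range ⟨_, hr.univ (M + 1)⟩
  have hPd : ∀ m, P' m ⊆ P' 0 := by
    intro m
    induction m with
    | zero => exact Subset.rfl
    | succ m ih => exact (hr'.rich.anti m).trans ih
  have hy : Hyp_CTA F B (P (M + 1)) (P (M + 2)) (P' (M + 1)) (P' (M + 2)) (τ' (M + 1)) (τ' (M + 2)) σp H' A' := by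
    refine ⟨hr.univ _, hr.inter _, fun i => by rw [hF]; exact mem_range_self i, hr.anti _,
      fun U hU => hr'.rich.tow.mono (M + 1) U hU, fun U hU => hr'.rich.op (M + 1) hM U hU,
      hσ.move, ?_, hHA⟩
    intro E hE z hz U hU hzU k
    exact hSH A₂ n τ' P' f' hr' (M + 1) hM (E ∩ H')
      (hPd (M + 1) (hr'.rich.inter _ _ hE _ hH')) z hz U hU hzU k
  refine ⟨fun h => (run_CTA F B (P' (M + 2)) (τ' (M + 2)) σp H' Q h).R, rfl, ⟨?_, ?_⟩, ?_⟩
  · intro mv h hl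
    obtain ⟨hl0, h1, h2, h3, h4, h5⟩ := hl
    obtain ⟨i1, i2⟩ := inv_CTA F B _ _ _ _ _ _ σp H' A' Q hy hσ0 hQ hd h hl0
    have := step_CTA F B _ _ _ _ _ _ σp H' A' hy _ i2 mv h.length h1 (by rw [i1]; exact h2) h3 h4 h5
    exact ⟨this.1.R, this.2.1, this.2.2.1⟩
  · intro p hp x hxB hx hU
    refine lim_CTA F B _ _ _ _ (τ M) f f' _ _ σp H' A' Q hy hσ0 hQ hd p hp x hxB hx ?_ ?_ hσ.lim
    · intro i hi
      refine hU (F i)ᶜ ?_ hi
      have : F i ∈ P (M + 1) := by rw [hF]; exact mem_range_self i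
      exact (hr.cl (M + 1) hM _ this).isOpen_compl
    · intro U hU hxU
      obtain ⟨O, hO1, hO2, hO3⟩ := hr.basis M (by omega) x U hU hxU
      rw [hF] at hO1
      obtain ⟨i, rfl⟩ := hO1
      exact ⟨i, hO2, hO3⟩
  · intro h hl
    obtain ⟨-, i2⟩ := inv_CTA F B _ _ _ _ _ _ σp H' A' Q hy hσ0 hQ hd h hl
    refine i2.den.trans ?_
    refine @closure_mono _ (τ' (M + 2)) _ _ ?_
    exact inter_subset_inter Subset.rfl inter_subset_right

end Pool.Agent.Helper24.WH
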