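import Pool.Agent.Helper24.WH.St7

/-!
# PROJECT WH, module F5: openness in the base tower
-/

set_option autoImplicit false

namespace Pool.Agent.Helper24.WH

open Set TopologicalSpace Topology
open Ordinal hiding univ

private theorem bT_eq_nt_F5 {A S : Type} (g : Tre A → S) (j : ℕ) :
    ∃ G : Set (Set (Tre A)), bT g j = nt G := by
  cases j with
  | zero => exact ⟨∅, rfl⟩
  | succ j => exact ⟨_, rfl⟩

private theorem cyl_open_F5 {A S : Type} (g : Tre A → S) (j : ℕ) (Q : A → Prop) :
    IsOpen[bT g j] {t : Tre A | Q (t [])} := by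
  obtain ⟨G, hG⟩ := bT_eq_nt_F5 g j
  rw [hG]
  have h1 : {t : Tre A | Q (t [])} = ⋃ a ∈ {a : A | Q a}, {t : Tre A | t [] = a} := by
    ext t
    simp only [mem_setOf_eq, mem_iUnion, exists_prop]
    constructor
    · intro h; exact ⟨_, h, rfl⟩
    · rintro ⟨a, ha, h⟩; rw [h]; exact ha
  rw [h1]
  letI := nt G
  refine isOpen_biUnion fun a _ => ?_
  exact isOpen_generateFrom_of_mem (Or.inl ⟨[], a, rfl⟩)

private theorem cyl_closed_F5 {A S : Type} (g : Tre A → S) (j : ℕ) (Q : A → Prop) :
    IsClosed[bT g j] {t : Tre A | Q (t [])} := by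
  have h1 := cyl_open_F5 g j (fun a => ¬ Q a)
  have h2 : {t : Tre A | Q (t [])} = {t : Tre A | ¬ Q (t [])}ᶜ := by
    ext t; simp
  rw [h2]
  letI := bT g j
  exact h1.isClosed_compl

/-- least fixed point -/
private theorem lfp_open_F5 {X : Type} (τ : TopologicalSpace X) (F : Set X → Set X)
    (hm : ∀ A B, A ⊆ B → F A ⊆ F B) (ho : ∀ A, IsOpen[τ] A → IsOpen[τ] (F A)) :
    IsOpen[τ] (⋂₀ {X | F X ⊆ X}) := by
  letI := τ
  set L := ⋂₀ {X | F X ⊆ X} with hL
  have h1 : F L ⊆ L := by
    apply subset_sInter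
    intro X hX
    exact (hm _ _ (sInter_subset_of_mem hX)).trans hX
  have h2 : F (interior L) ⊆ interior L :=
    interior_maximal ((hm _ _ interior_subset).trans h1) (ho _ isOpen_interior)
  have h3 : L ⊆ interior L := sInter_subset_of_mem h2
  have h4 : interior L = L := Subset.antisymm interior_subset h3
  rw [← h4]
  exact isOpen_interior

/-- greatest fixed point -/
private theorem gfp_closed_F5 {X : Type} (τ : TopologicalSpace X) (F : Set X → Set X)
    (hm : ∀ A B, A ⊆ B → F A ⊆ F B) (ho : ∀ A, IsClosed[τ] A → IsClosed[τ] (F A)) :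
    IsClosed[τ] (⋃₀ {X | X ⊆ F X}) := by
  letI := τ
  set L := ⋃₀ {X | X ⊆ F X} with hL
  have h1 : L ⊆ F L := by
    apply sUnion_subset
    intro X hX
    exact hX.trans (hm _ _ (subset_sUnion_of_mem hX))
  have h2 : closure L ⊆ F (closure L) :=
    closure_minimal (h1.trans (hm _ _ subset_closure)) (ho _ isClosed_closure)
  have h3 : closure L ⊆ L := subset_sUnion_of_mem h2
  have h4 : closure L = L := Subset.antisymm h3 subset_closure
  rw [← h4]
  exact isClosed_closure

theorem hF5 (hF2 : StF2) (hNT : StNT) (hBB : StBB) : StF5 := by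
  intro P S _ _ g Ga hg
  -- monotonicity of the base tower
  have hmono : ∀ j k, j ≤ k → bT g k ≤ bT g j := by
    intro j k hjk
    induction k, hjk using Nat.le_induction with
    | base => exact le_rfl
    | succ k _ ih => exact (hBB (Set P) S g Ga hg k).1.trans ih
  have hOpen : ∀ j k, j ≤ k → ∀ U, IsOpen[bT g j] U → IsOpen[bT g k] U :=
    fun j k hjk U hU => hmono j k hjk U hU
  have hClosed : ∀ j k, j ≤ k → ∀ U, IsClosed[bT g j] U → IsClosed[bT g k] U :=
    fun j k hjk U hU => IsClosed.mono hU (hmono j k hjk)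
  -- a definable closed set is open at the next level
  have hNext : ∀ j (K : Set S), IsClosed[bT g j] (g ⁻¹' K) → IsOpen[bT g (j + 1)] (g ⁻¹' K) := by
    intro j K hK
    obtain ⟨-, hop, -⟩ := hNT (Set P)
    exact hop {F | ∃ K : Set S, F = g ⁻¹' K ∧ IsClosed[bT g j] F} _ ⟨K, rfl, hK⟩
  have hNext' : ∀ j (K : Set S), IsOpen[bT g j] (g ⁻¹' K) → IsClosed[bT g (j + 1)] (g ⁻¹' K) := by
    intro j K hK
    have h1 : IsClosed[bT g j] (g ⁻¹' Kᶜ) := by
      letI := bT g j
      rw [preimage_compl]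
      exact IsOpen.isClosed_compl hK
    have h2 := hNext j Kᶜ h1
    letI := bT g (j + 1)
    rw [preimage_compl] at h2
    exact isOpen_compl_iff.mp h2
  have hcont : ∀ j (u : List Bool), @Continuous _ _ (bT g j) (bT g j)
      (fun t : Tre (Set P) => t.sub u) := by
    intro j u
    obtain ⟨G, hG⟩ := bT_eq_nt_F5 g j
    rw [hG]
    exact (hNT (Set P)).2.2.1 G u
  intro φ
  induction φ with
  | prop p =>
    intro E _
    exact ⟨0, fun j _ => ⟨fun _ V _ => cyl_open_F5 g j (fun a => p ∈ a),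
      fun _ V _ => cyl_closed_F5 g j (fun a => p ∈ a)⟩⟩
  | nprop p =>
    intro E _
    exact ⟨0, fun j _ => ⟨fun _ V _ => cyl_open_F5 g j (fun a => p ∉ a),
      fun _ V _ => cyl_closed_F5 g j (fun a => p ∉ a)⟩⟩
  | top =>
    intro E _
    exact ⟨0, fun j _ => ⟨fun _ V _ => @isOpen_univ _ (bT g j),
      fun _ V _ => @isClosed_univ _ (bT g j)⟩⟩
  | bot =>
    intro E _
    exact ⟨0, fun j _ => ⟨fun _ V _ => @isOpen_empty _ (bT g j),
      fun _ V _ => @isClosed_empty _ (bT g j)⟩⟩
  | var n =>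
    intro E _
    exact ⟨0, fun j _ => ⟨fun _ V hV => hV n rfl, fun _ V hV => hV n rfl⟩⟩
  | and φ ψ ihφ ihψ =>
    intro E hE
    obtain ⟨J₁, h₁⟩ := ihφ E (fun F hF => hE F (List.mem_cons_of_mem _ (List.mem_append_left _ hF)))
    obtain ⟨J₂, h₂⟩ := ihψ E (fun F hF => hE F (List.mem_cons_of_mem _ (List.mem_append_right _ hF)))
    refine ⟨max J₁ J₂, fun j hj => ⟨?_, ?_⟩⟩
    · intro hok V hV
      have a1 := ((h₁ j ((le_max_left _ _).trans hj)).1 hok.1 V (fun i hi => hV i (Or.inl hi)))
      have a2 := ((h₂ j ((le_max_right _ _).trans hj)).1 hok.2 V (fun i hi => hV i (Or.inr hi)))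
      letI := bT g j
      exact a1.inter a2
    · intro hok V hV
      have a1 := ((h₁ j ((le_max_left _ _).trans hj)).2 hok.1 V (fun i hi => hV i (Or.inl hi)))
      have a2 := ((h₂ j ((le_max_right _ _).trans hj)).2 hok.2 V (fun i hi => hV i (Or.inr hi)))
      letI := bT g j
      exact a1.inter a2
  | or φ ψ ihφ ihψ =>
    intro E hE
    obtain ⟨J₁, h₁⟩ := ihφ E (fun F hF => hE F (List.mem_cons_of_mem _ (List.mem_append_left _ hF)))
    obtain ⟨J₂, h₂⟩ := ihψ E (fun F hF => hE F (List.mem_cons_of_mem _ (List.mem_append_right _ hF)))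
    refine ⟨max J₁ J₂, fun j hj => ⟨?_, ?_⟩⟩
    · intro hok V hV
      have a1 := ((h₁ j ((le_max_left _ _).trans hj)).1 hok.1 V (fun i hi => hV i (Or.inl hi)))
      have a2 := ((h₂ j ((le_max_right _ _).trans hj)).1 hok.2 V (fun i hi => hV i (Or.inr hi)))
      letI := bT g j
      exact a1.union a2
    · intro hok V hV
      have a1 := ((h₁ j ((le_max_left _ _).trans hj)).2 hok.1 V (fun i hi => hV i (Or.inl hi)))
      have a2 := ((h₂ j ((le_max_right _ _).trans hj)).2 hok.2 V (fun i hi => hV i (Or.inr hi)))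
      letI := bT g j
      exact a1.union a2
  | dia φ ih =>
    intro E hE
    obtain ⟨J, h⟩ := ih E (fun F hF => hE F (List.mem_cons_of_mem _ hF))
    refine ⟨J, fun j hj => ⟨?_, ?_⟩⟩
    · intro hok V hV
      have h1 := (h j hj).1 hok V hV
      have h2 : (Fm.dia φ).SEM V = ⋃ b : Bool, (fun t : Tre (Set P) => t.sub [b]) ⁻¹' (φ.SEM V) := by
        ext t; simp [Fm.SEM]
      rw [h2]
      letI := bT g j
      exact isOpen_iUnion fun b => h1.preimage (hcont j [b])
    · intro hok V hV
      have h1 := (h j hj).2 hok V hV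
      have h2 : (Fm.dia φ).SEM V = ⋃ b : Bool, (fun t : Tre (Set P) => t.sub [b]) ⁻¹' (φ.SEM V) := by
        ext t; simp [Fm.SEM]
      rw [h2]
      letI := bT g j
      exact isClosed_iUnion_of_finite fun b => h1.preimage (hcont j [b])
  | box φ ih =>
    intro E hE
    obtain ⟨J, h⟩ := ih E (fun F hF => hE F (List.mem_cons_of_mem _ hF))
    refine ⟨J, fun j hj => ⟨?_, ?_⟩⟩
    · intro hok V hV
      have h1 := (h j hj).1 hok V hV
      have h2 : (Fm.box φ).SEM V = ⋂ b : Bool, (fun t : Tre (Set P) => t.sub [b]) ⁻¹' (φ.SEM V) := by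
        ext t; simp [Fm.SEM]
      rw [h2]
      letI := bT g j
      exact isOpen_iInter_of_finite fun b => h1.preimage (hcont j [b])
    · intro hok V hV
      have h1 := (h j hj).2 hok V hV
      have h2 : (Fm.box φ).SEM V = ⋂ b : Bool, (fun t : Tre (Set P) => t.sub [b]) ⁻¹' (φ.SEM V) := by
        ext t; simp [Fm.SEM]
      rw [h2]
      letI := bT g j
      exact isClosed_iInter fun b => h1.preimage (hcont j [b])
  | mu φ ih =>
    intro E hE
    obtain ⟨J, h⟩ := ih (ec ((Fm.mu φ).SEM E) E)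
      (fun F hF => hE F (List.mem_cons_of_mem _ hF))
    have hlfp : ∀ j, J ≤ j → φ.okM → ∀ V : ℕ → Set (Tre (Set P)),
        (∀ i, (Fm.mu φ).free i → IsOpen[bT g j] (V i)) → IsOpen[bT g j] ((Fm.mu φ).SEM V) := by
      intro j hj hok V hV
      apply lfp_open_F5 (bT g j) (fun X => φ.SEM (ec X V))
      · intro A B hAB
        apply (hF2 P φ).1
        intro i
        cases i with
        | zero => exact hAB
        | succ i => exact Subset.rfl
      · intro A hA
        apply (h j hj).1 hok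
        intro i hi
        cases i with
        | zero => exact hA
        | succ i => exact hV i hi
    refine ⟨J + 1, fun j hj => ⟨?_, ?_⟩⟩
    · intro hok V hV
      exact hlfp j (by omega) hok V hV
    · rintro ⟨hfree, hok⟩ V _
      have hfree' : ∀ i, ¬ (Fm.mu φ).free i := hfree
      have h1 : IsOpen[bT g J] ((Fm.mu φ).SEM E) :=
        hlfp J le_rfl hok E (fun i hi => absurd hi (hfree' i))
      obtain ⟨K, hK⟩ := hE ((Fm.mu φ).SEM E) (List.mem_cons_self)
      have h2 : (Fm.mu φ).SEM V = (Fm.mu φ).SEM E :=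
        (hF2 P (Fm.mu φ)).2.1 V E (fun i hi => absurd hi (hfree' i))
      rw [h2, hK]
      rw [hK] at h1
      exact hClosed (J + 1) j hj _ (hNext' J K h1)
  | nu φ ih =>
    intro E hE
    obtain ⟨J, h⟩ := ih (ec ((Fm.nu φ).SEM E) E)
      (fun F hF => hE F (List.mem_cons_of_mem _ hF))
    have hgfp : ∀ j, J ≤ j → φ.okN → ∀ V : ℕ → Set (Tre (Set P)),
        (∀ i, (Fm.nu φ).free i → IsClosed[bT g j] (V i)) → IsClosed[bT g j] ((Fm.nu φ).SEM V) := by
      intro j hj hok V hV
      apply gfp_closed_F5 (bT g j) (fun X => φ.SEM (ec X V))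
      · intro A B hAB
        apply (hF2 P φ).1
        intro i
        cases i with
        | zero => exact hAB
        | succ i => exact Subset.rfl
      · intro A hA
        apply (h j hj).2 hok
        intro i hi
        cases i with
        | zero => exact hA
        | succ i => exact hV i hi
    refine ⟨J + 1, fun j hj => ⟨?_, ?_⟩⟩
    · rintro ⟨hfree, hok⟩ V _
      have hfree' : ∀ i, ¬ (Fm.nu φ).free i := hfree
      have h1 : IsClosed[bT g J] ((Fm.nu φ).SEM E) :=
        hgfp J le_rfl hok E (fun i hi => absurd hi (hfree' i))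
      obtain ⟨K, hK⟩ := hE ((Fm.nu φ).SEM E) (List.mem_cons_self)
      have h2 : (Fm.nu φ).SEM V = (Fm.nu φ).SEM E :=
        (hF2 P (Fm.nu φ)).2.1 V E (fun i hi => absurd hi (hfree' i))
      rw [h2, hK]
      rw [hK] at h1
      exact hOpen (J + 1) j hj _ (hNext J K h1)
    · intro hok V hV
      exact hgfp j (by omega) hok V hV

end Pool.Agent.Helper24.WH
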