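import Pool.Agent.Helper24.WH.St3

set_option autoImplicit false

namespace Pool.Agent.Helper24.WH

open Set TopologicalSpace Ordinal Topology

private theorem clp_prod_PT {X Y : Type} (τ : TopologicalSpace X) (τ' : TopologicalSpace Y)
    (A : Set X) (B : Set Y) (hA : Clp τ A) (hB : Clp τ' B) :
    Clp (@instTopologicalSpaceProd X Y τ τ') (A ×ˢ B) := by
  letI := τ
  letI := τ'
  exact IsClopen.prod hA hB

private theorem zd_prod_PT {X Y : Type} (τ : TopologicalSpace X) (τ' : TopologicalSpace Y)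
    (h : ZD τ) (h' : ZD τ') : ZD (@instTopologicalSpaceProd X Y τ τ') := by
  rintro ⟨x, y⟩ U hU hxU
  letI := τ
  letI := τ'
  obtain ⟨u, v, hu, hv, hxu, hyv, huv⟩ := isOpen_prod_iff.mp hU x y hxU
  obtain ⟨O, hO, hxO, hOu⟩ := h x u hu hxu
  obtain ⟨O', hO', hyO, hOv⟩ := h' y v hv hyv
  exact ⟨O ×ˢ O', clp_prod_PT τ τ' O O' hO hO', ⟨hxO, hyO⟩, (Set.prod_mono hOu hOv).trans huv⟩

theorem hPT : StPT := by
  intro X Y S S' τ τ' g g' hτ hτ' hg hg'
  refine ⟨⟨?_, ?_⟩, ?_⟩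
  · intro m
    exact inf_le_inf (induced_mono (hτ.mono m)) (induced_mono (hτ'.mono m))
  · intro m
    exact zd_prod_PT _ _ (hτ.zd m) (hτ'.zd m)
  · rintro ⟨s, s'⟩
    have h : Prod.map g g' ⁻¹' {(s, s')} = (g ⁻¹' {s}) ×ˢ (g' ⁻¹' {s'}) := by
      ext ⟨x, y⟩
      simp [Prod.map]
    rw [h]
    exact clp_prod_PT _ _ _ _ (hg s) (hg' s')

end Pool.Agent.Helper24.WH
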