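import Pool.Agent.Helper24.WH.St3

/-!
# PROJECT WH (MP_76577a_lc), module SD: splitting of the operators `D` (3.9)
-/

set_option autoImplicit false

namespace Pool.Agent.Helper24.WH

open Set TopologicalSpace Ordinal Topology

/-- reindexing a finite union by `Fin N` -/
private theorem reindex_SD {X A : Type} {k : ℕ} (ι : Type) [Finite ι]
    (F₀ F₁ : (ℕ → A) → Fin k → Set X) (D : Set (X × X))
    (J : ι → Set (Fin k)) (L₀ L₁ : ι → Fin k → ℕ → A) (hJ : ∀ r, (J r).Nonempty)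
    (h : D = ⋃ r, (⋂ q ∈ J r, F₀ (L₀ r q) q) ×ˢ (⋂ q ∈ J r, F₁ (L₁ r q) q)) :
    ∃ (N : ℕ) (J : Fin N → Set (Fin k)) (L₀ L₁ : Fin N → Fin k → ℕ → A), (∀ r, (J r).Nonempty) ∧
      D = ⋃ r, (⋂ q ∈ J r, F₀ (L₀ r q) q) ×ˢ (⋂ q ∈ J r, F₁ (L₁ r q) q) := by
  obtain ⟨N, ⟨f⟩⟩ := Finite.exists_equiv_fin ι
  refine ⟨N, J ∘ f.symm, L₀ ∘ f.symm, L₁ ∘ f.symm, fun r => hJ _, ?_⟩
  rw [h]
  exact (f.symm.iSup_comp
    (g := fun r => (⋂ q ∈ J r, F₀ (L₀ r q) q) ×ˢ (⋂ q ∈ J r, F₁ (L₁ r q) q))).symm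

/-- regrouping a countable intersection by a colouring of the indices with finitely many colours -/
private theorem regroup_SD {X T : Type} {k : ℕ} (c : ℕ → T × Fin k) (H : T → Fin k → Set X) :
    ∃ φ : Fin k → ℕ → ℕ,
      ⋂ i, H (c i).1 (c i).2 = ⋂ q ∈ range (fun i => (c i).2), ⋂ n, H (c (φ q n)).1 q := by
  classical
  have hch : ∀ q : Fin k, ∃ i : ℕ, q ∈ range (fun i => (c i).2) → (c i).2 = q := by
    intro q
    by_cases hq : q ∈ range (fun i => (c i).2)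
    · obtain ⟨i, hi⟩ := hq
      exact ⟨i, fun _ => hi⟩
    · exact ⟨0, fun h => absurd h hq⟩
  choose j hj using hch
  refine ⟨fun q n => if (c n).2 = q then n else j q, ?_⟩
  ext y
  simp only [mem_iInter]
  constructor
  · intro h q hq n
    by_cases hn : (c n).2 = q
    · have := h n
      simp only [hn, if_true]
      rw [hn] at this
      exact this
    · have h1 := h (j q)
      rw [hj q hq] at h1
      simp only [hn, if_false]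
      exact h1
  · intro h i
    have := h (c i).2 ⟨i, rfl⟩ i
    simpa using this

/-- the operator `z = Z m t` as an operator for the coarser topology -/
private theorem mcl_SD {X S : Type} (hZM : StZM) (τ : ℕ → TopologicalSpace X) (g : X → S)
    (hT : Tow τ) (hF : Fib τ g) (m : ℕ) (t : TT S m) : MCL (τ (m + 1)) (Z τ g m t) := by
  have h := (hZM X S τ g hT hF m).1 t
  refine ⟨h.mono, h.le, fun O B hO => h.loc O B ?_⟩
  exact ⟨IsClosed.mono hO.1 (hT.mono m), IsOpen.mono hO.2 (hT.mono m)⟩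

/-- iteration of one step -/
private theorem iter_one_SD {X : Type} (hIT : StIT) (d : Set X → Set X)
    (hm : ∀ A B, A ⊆ B → d A ⊆ d B) (hle : ∀ B, d B ⊆ B) (B : Set X) : iter d B 1 = d B := by
  obtain ⟨h0, h1, -⟩ := hIT X d hm hle
  have := h1 B 0
  rw [h0, zero_add] at this
  exact this

/-- the case `x = 0` -/
private theorem core_zero_SD (hRD : StRD) (hPZ : StPZ) (hZM : StZM) (hZA : StZA)
    (hHA : StHA) (hTB : StTB) (hFN : StFN) (hTP : StTP)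
    (X S : Type) [Finite S] (τ : ℕ → TopologicalSpace X) (g : X → S) (G : S × S → S)
    (hPTow : Tow (prodT τ τ)) (hPFib : Fib (prodT τ τ) (Prod.map g g))
    (m : ℕ) (L : ℕ → TT S m) (k : ℕ) (B₀ B₁ : Fin k → Set X)
    (hB₀ : ∀ q, IsClosed[τ (m + 1)] (B₀ q)) (hB₁ : ∀ q, IsClosed[τ (m + 1)] (B₁ q)) :
    ∃ (N : ℕ) (J : Fin N → Set (Fin k)) (L₀ L₁ : Fin N → Fin k → ℕ → TT S m), (∀ r, (J r).Nonempty) ∧
      dL (prodT τ τ) (G ∘ Prod.map g g) m L (⋃ q, B₀ q ×ˢ B₁ q) =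
        ⋃ r, (⋂ q ∈ J r, dL τ g m (L₀ r q) (B₀ q)) ×ˢ (⋂ q ∈ J r, dL τ g m (L₁ r q) (B₁ q)) := by
  classical
  have hCq : ∀ q, IsClosed[prodT τ τ (m + 1)] (B₀ q ×ˢ B₁ q) := fun q =>
    @IsClosed.prod X X (τ (m + 1)) (τ (m + 1)) _ _ (hB₀ q) (hB₁ q)
  have hC : IsClosed[prodT τ τ (m + 1)] (⋃ q, B₀ q ×ˢ B₁ q) :=
    @isClosed_iUnion_of_finite _ _ (prodT τ τ (m + 1)) _ _ hCq
  obtain ⟨M, hMf, hM⟩ := (hRD (S × S) S G m L).1
  have hM' := hM (X × X) (prodT τ τ) (Prod.map g g) hPTow hPFib _ hC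
  -- step 1
  have h1 : ∀ i, hom (prodT τ τ) (G ∘ Prod.map g g) m (L i) (⋃ q, B₀ q ×ˢ B₁ q) =
      ⋃ t ∈ M i, ⋃ q, hom (prodT τ τ) (Prod.map g g) m t (B₀ q ×ˢ B₁ q) := by
    intro i
    rw [hM' i]
    refine iUnion₂_congr fun t _ => ?_
    exact hHA (X × X) (prodT τ τ (m + 1)) (Z (prodT τ τ) (Prod.map g g) m t) (hPTow.zd _)
      (mcl_SD hZM _ _ hPTow hPFib m t) (Fin k) (fun q => B₀ q ×ˢ B₁ q) hCq
  -- step 2
  obtain ⟨-, htp, -⟩ := hTP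
  obtain ⟨hrefl, htrans⟩ := htp (S × S) m
  obtain ⟨-, -, hwqo⟩ := hTB (S × S) m k
  obtain ⟨𝒞, h𝒞f, h𝒞m, h𝒞⟩ := hFN (TT (S × S) m × Fin k) (fun a b => TT.Le m a.1 b.1 ∧ a.2 = b.2)
    (fun a => ⟨hrefl _, rfl⟩) (fun a b c hab hbc => ⟨htrans _ _ _ hab.1 hbc.1, hab.2.trans hbc.2⟩)
    hwqo (fun i => M i ×ˢ (univ : Set (Fin k))) (fun i => (hMf i).prod finite_univ)
  have h2 := h𝒞 (X × X) (fun a => hom (prodT τ τ) (Prod.map g g) m a.1 (B₀ a.2 ×ˢ B₁ a.2))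
    (fun a b hab => by
      obtain ⟨hab1, hab2⟩ := hab
      show hom _ _ _ b.1 (B₀ b.2 ×ˢ B₁ b.2) ⊆ hom _ _ _ a.1 (B₀ a.2 ×ˢ B₁ a.2)
      rw [hab2]
      exact (hZA (X × X) (S × S) (prodT τ τ) (Prod.map g g) m).2.1 _ _ hab1 _)
  have h3 : dL (prodT τ τ) (G ∘ Prod.map g g) m L (⋃ q, B₀ q ×ˢ B₁ q) =
      ⋃ c ∈ 𝒞, ⋂ i, hom (prodT τ τ) (Prod.map g g) m (c i).1 (B₀ (c i).2 ×ˢ B₁ (c i).2) := by
    rw [← h2]
    show ⋂ i, hom (prodT τ τ) (G ∘ Prod.map g g) m (L i) (⋃ q, B₀ q ×ˢ B₁ q) = _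
    refine iInter_congr fun i => ?_
    rw [h1 i]
    ext y
    simp only [mem_iUnion, exists_prop, mem_prod, mem_univ, and_true, Prod.exists]
    constructor
    · rintro ⟨t, ht, q, hy⟩
      exact ⟨t, q, ht, hy⟩
    · rintro ⟨t, q, ht, hy⟩
      exact ⟨t, ht, q, hy⟩
  -- step 3
  have h4 : ∀ c : ℕ → TT (S × S) m × Fin k, ∃ L₀ L₁ : Fin k → ℕ → TT S m,
      ⋂ i, hom (prodT τ τ) (Prod.map g g) m (c i).1 (B₀ (c i).2 ×ˢ B₁ (c i).2) =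
        (⋂ q ∈ range (fun i => (c i).2), dL τ g m (L₀ q) (B₀ q)) ×ˢ
        (⋂ q ∈ range (fun i => (c i).2), dL τ g m (L₁ q) (B₁ q)) := by
    intro c
    obtain ⟨φ₀, hφ₀⟩ := regroup_SD c (fun t q => hom τ g m (TT.map Prod.fst m t) (B₀ q))
    obtain ⟨φ₁, hφ₁⟩ := regroup_SD c (fun t q => hom τ g m (TT.map Prod.snd m t) (B₁ q))
    refine ⟨fun q n => TT.map Prod.fst m (c (φ₀ q n)).1, fun q n => TT.map Prod.snd m (c (φ₁ q n)).1, ?_⟩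
    have e1 : ∀ i, hom (prodT τ τ) (Prod.map g g) m (c i).1 (B₀ (c i).2 ×ˢ B₁ (c i).2) =
        hom τ g m (TT.map Prod.fst m (c i).1) (B₀ (c i).2) ×ˢ
        hom τ g m (TT.map Prod.snd m (c i).1) (B₁ (c i).2) := fun i =>
      (hPZ X X S S τ τ g g m).2.1 (c i).1 _ _
    have e2 : ⋂ i, hom (prodT τ τ) (Prod.map g g) m (c i).1 (B₀ (c i).2 ×ˢ B₁ (c i).2) =
        (⋂ i, hom τ g m (TT.map Prod.fst m (c i).1) (B₀ (c i).2)) ×ˢ
        (⋂ i, hom τ g m (TT.map Prod.snd m (c i).1) (B₁ (c i).2)) := by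
      ext ⟨y, z⟩
      simp only [e1, mem_iInter, mem_prod]
      exact forall_and
    rw [e2]
    congr 1
  choose L₀ L₁ hL using h4
  have hfin : Finite 𝒞 := h𝒞f.to_subtype
  refine reindex_SD (ι := 𝒞) (fun l q => dL τ g m l (B₀ q)) (fun l q => dL τ g m l (B₁ q)) _
    (fun c => range (fun i => (c.1 i).2)) (fun c => L₀ c.1) (fun c => L₁ c.1)
    (fun c => ⟨_, ⟨0, rfl⟩⟩) ?_
  rw [h3, biUnion_eq_iUnion]
  exact iUnion_congr fun c => hL c.1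

/-- the case `x ≥ 1` -/
private theorem core_pos_SD (hUF : StUF) (hRD : StRD) (hPZ : StPZ) (hZM : StZM)
    (X S : Type) [Finite S] (τ : ℕ → TopologicalSpace X) (g : X → S) (G : S × S → S)
    (hPTow : Tow (prodT τ τ)) (hPFib : Fib (prodT τ τ) (Prod.map g g))
    (m : ℕ) (L : ℕ → TT S m) (k : ℕ) (B₀ B₁ : Fin k → Set X)
    (hB₀ : ∀ q, IsClosed[τ (m + 1)] (B₀ q)) (hB₁ : ∀ q, IsClosed[τ (m + 1)] (B₁ q))
    (x : Ordinal.{0}) (hx : 1 ≤ x) :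
    ∃ (N : ℕ) (J : Fin N → Set (Fin k)) (L₀ L₁ : Fin N → Fin k → ℕ → TT S m), (∀ r, (J r).Nonempty) ∧
      iter (dL (prodT τ τ) (G ∘ Prod.map g g) m L) (⋃ q, B₀ q ×ˢ B₁ q) (ω ^ x) =
        ⋃ r, (⋂ q ∈ J r, iter (dL τ g m (L₀ r q)) (B₀ q) (ω ^ x)) ×ˢ
          (⋂ q ∈ J r, iter (dL τ g m (L₁ r q)) (B₁ q) (ω ^ x)) := by
  classical
  have hCq : ∀ q, IsClosed[prodT τ τ (m + 1)] (B₀ q ×ˢ B₁ q) := fun q =>
    @IsClosed.prod X X (τ (m + 1)) (τ (m + 1)) _ _ (hB₀ q) (hB₁ q)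
  have hC : IsClosed[prodT τ τ (m + 1)] (⋃ q, B₀ q ×ˢ B₁ q) :=
    @isClosed_iUnion_of_finite _ _ (prodT τ τ (m + 1)) _ _ hCq
  obtain ⟨𝒞, h𝒞f, h𝒞⟩ := (hRD (S × S) S G m L).2
  have h1 := (h𝒞 (X × X) (prodT τ τ) (Prod.map g g) hPTow hPFib _ hC).2 x
  have h2 : ∀ L' : ℕ → TT (S × S) m,
      iter (dL (prodT τ τ) (Prod.map g g) m L') (⋃ q, B₀ q ×ˢ B₁ q) (ω ^ x) =
        ⋃ q, iter (dL τ g m (fun i => TT.map Prod.fst m (L' i))) (B₀ q) (ω ^ x) ×ˢ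
          iter (dL τ g m (fun i => TT.map Prod.snd m (L' i))) (B₁ q) (ω ^ x) := by
    intro L'
    have := (hUF (X × X) (prodT τ τ (m + 1)) (hPTow.zd _) (Fin k)).2 (dL (prodT τ τ) (Prod.map g g) m L')
      ((hZM (X × X) (S × S) (prodT τ τ) (Prod.map g g) hPTow hPFib m).2.2 L')
      (fun q => B₀ q ×ˢ B₁ q) x hCq hx
    rw [this]
    exact iUnion_congr fun q => (hPZ X X S S τ τ g g m).2.2 L' (B₀ q) (B₁ q) (ω ^ x)
  have hfin : Finite 𝒞 := h𝒞f.to_subtype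
  refine reindex_SD (ι := 𝒞 × Fin k) (fun l q => iter (dL τ g m l) (B₀ q) (ω ^ x))
    (fun l q => iter (dL τ g m l) (B₁ q) (ω ^ x)) _
    (fun r => {r.2}) (fun r _ i => TT.map Prod.fst m (r.1.1 i))
    (fun r _ i => TT.map Prod.snd m (r.1.1 i)) (fun r => ⟨_, rfl⟩) ?_
  rw [h1]
  ext y
  simp only [h2, mem_iUnion, exists_prop, Prod.exists, biInter_singleton, Subtype.exists]

theorem hSD (hUF : StUF) (hRD : StRD) (hPZ : StPZ) (hEZ : StEZ) (hPT : StPT) (hZM : StZM)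
    (hZA : StZA) (hHA : StHA) (hTB : StTB) (hFN : StFN) (hTP : StTP) (hIT : StIT) (hIL : StIL) :
    StSD := by
  intro X S _ τ g e G hT hF hg hCE m L x k B₀ B₁ B hB₀ hB₁ hB hBe
  obtain ⟨hPTow, hPFib⟩ := hPT X X S S τ τ g g hT hT hF hF
  have hcl : Clp (τ (m + 1)) (range e) := (hCE (m + 1)).2.2
  have hder := (hZM X S τ g hT hF m).2.2 L
  have hloc := (hIL X (τ (m + 1)) (dL τ g m L) hder (ω ^ (x : Ordinal.{0}))).loc (range e) B hcl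
  have hBC : B ∩ range e = e '' (⋃ q, B₀ q ×ˢ B₁ q) := by rw [hBe, image_iUnion]
  have hcomp : g ∘ e = G ∘ Prod.map g g := by
    funext p
    exact hg p
  have h1 : iter (dL τ g m L) B (ω ^ (x : Ordinal.{0})) ∩ range e =
      e '' iter (dL (prodT τ τ) (G ∘ Prod.map g g) m L) (⋃ q, B₀ q ×ˢ B₁ q)
        (ω ^ (x : Ordinal.{0})) := by
    have h := (hEZ (X × X) X S (prodT τ τ) τ g e hCE m).2.2 L (⋃ q, B₀ q ×ˢ B₁ q)
      (ω ^ (x : Ordinal.{0}))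
    rw [hcomp] at h
    rw [← h, ← hBC]
    exact hloc.symm
  suffices h : ∃ (N : ℕ) (J : Fin N → Set (Fin k)) (L₀ L₁ : Fin N → Fin k → ℕ → TT S m),
      (∀ r, (J r).Nonempty) ∧
      iter (dL (prodT τ τ) (G ∘ Prod.map g g) m L) (⋃ q, B₀ q ×ˢ B₁ q) (ω ^ (x : Ordinal.{0})) =
        ⋃ r, (⋂ q ∈ J r, iter (dL τ g m (L₀ r q)) (B₀ q) (ω ^ (x : Ordinal.{0}))) ×ˢ
          (⋂ q ∈ J r, iter (dL τ g m (L₁ r q)) (B₁ q) (ω ^ (x : Ordinal.{0}))) by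
    obtain ⟨N, J, L₀, L₁, hJ, h⟩ := h
    exact ⟨N, J, L₀, L₁, hJ, by rw [h1, h, image_iUnion]⟩
  rcases Nat.eq_zero_or_pos x with rfl | hx
  · obtain ⟨N, J, L₀, L₁, hJ, h⟩ := core_zero_SD hRD hPZ hZM hZA hHA hTB hFN hTP X S τ g G hPTow hPFib
      m L k B₀ B₁ hB₀ hB₁
    refine ⟨N, J, L₀, L₁, hJ, ?_⟩
    have e0 : ω ^ ((0 : ℕ) : Ordinal.{0}) = 1 := by simp
    have e1 : ∀ (l : ℕ → TT S m) (D : Set X), iter (dL τ g m l) D 1 = dL τ g m l D := fun l D =>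
      iter_one_SD hIT _ ((hZM X S τ g hT hF m).2.2 l).mono ((hZM X S τ g hT hF m).2.2 l).le D
    have hPF2 : Fib (prodT τ τ) (G ∘ Prod.map g g) := by
      rw [← hcomp]
      intro s
      have hc := hF s
      have hE := (hCE 0).2.1
      constructor
      · have := hc.1
        rw [preimage_comp]
        rw [hE]
        exact (@isClosed_induced_iff _ _ (τ 0) _ e).2 ⟨_, hc.1, rfl⟩
      · rw [preimage_comp]
        rw [hE]
        exact (@isOpen_induced_iff _ _ (τ 0) _ e).2 ⟨_, hc.2, rfl⟩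
    have hderP := (hZM (X × X) S (prodT τ τ) (G ∘ Prod.map g g) hPTow hPF2 m).2.2 L
    rw [e0, iter_one_SD hIT _ hderP.mono hderP.le]
    simp only [e1]
    exact h
  · have hx' : (1 : Ordinal.{0}) ≤ (x : Ordinal.{0}) := by exact_mod_cast hx
    exact core_pos_SD hUF hRD hPZ hZM X S τ g G hPTow hPFib m L k B₀ B₁ hB₀ hB₁ _ hx'

end Pool.Agent.Helper24.WH
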