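import Pool.Agent.Helper24.WH.St5

/-!
# PROJECT WH, module VP: closure of the classes `P` under the rank operators
-/

set_option autoImplicit false

namespace Pool.Agent.Helper24.WH

open Set TopologicalSpace Topology
open Ordinal hiding univ

private theorem fin_union_VP {X ι : Type*} {P : Set (Set X)} (he : ∅ ∈ P)
    (hu : ∀ B ∈ P, ∀ B' ∈ P, B ∪ B' ∈ P) (F : ι → Set X) (C : Set ι) (hC : C.Finite) :
    (∀ L ∈ C, F L ∈ P) → (⋃ L ∈ C, F L) ∈ P := by
  refine Set.Finite.induction_on C hC ?_ ?_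
  · intro _
    simpa using he
  · intro a s _ _ ih h
    rw [Set.biUnion_insert]
    exact hu _ (h a (Set.mem_insert _ _)) _ (ih fun L hL => h L (Set.mem_insert_of_mem _ hL))

private theorem del_bot_VP (CA : StCA) {X : Type} (τ : ℕ → TopologicalSpace X) (f : X → Bool) (m : ℕ)
    (Y : Set X) : del τ f m (Cd.bot m) Y = Y := by
  refine Set.Subset.antisymm Set.inter_subset_left ?_
  intro x hx
  refine ⟨hx, ?_⟩
  rw [Set.mem_iInter₂]
  intro c' hc'
  exfalso
  obtain ⟨_, h1, _, h2, _⟩ := CA m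
  have : c' = Cd.bot m := le_antisymm hc'.2.2 (h1 c')
  exact h2 (this ▸ hc'.2.1)

private theorem iter_one_VP (IT : StIT) {X : Type} (d : Set X → Set X) (h1 : ∀ A B, A ⊆ B → d A ⊆ d B)
    (h2 : ∀ B, d B ⊆ B) (B : Set X) : iter d B (ω ^ ((0 : ℕ) : Ordinal.{0})) = d B := by
  obtain ⟨i0, i1, _⟩ := IT X d h1 h2
  have : (ω ^ ((0 : ℕ) : Ordinal.{0}) : Ordinal.{0}) = 0 + 1 := by simp
  rw [this, i1, i0]

theorem hVP (RP : StRP) (UZ : StUZ) (CA : StCA) (IT : StIT) (ZM : StZM) : StVP := by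
  intro S _ h X n N τ g P hS hF hN
  have hIT0 : ∀ m, (∀ B : Set X, iter (del τ (h ∘ g) m (Cd.bot m)) B = fun _ => B) := by
    intro m B
    funext α
    have e : del τ (h ∘ g) m (Cd.bot m) = fun Y => Y := by
      funext Y
      exact del_bot_VP CA τ (h ∘ g) m Y
    rw [e]
    obtain ⟨_, _, _, _, _, _, _, i7, _⟩ := IT X (fun Y => Y) (fun A B hh => hh) (fun B => le_rfl)
    exact i7 B α le_rfl
  have hfin : ∀ (M : ℕ) {ι : Type} (F : ι → Set X) (C : Set ι), C.Finite → (∀ L ∈ C, F L ∈ P M) →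
      (⋃ L ∈ C, F L) ∈ P M := fun M ι F C hC =>
    fin_union_VP (hS.empty M) (fun B hB B' hB' => hS.union M B hB B' hB') F C hC
  -- third claim
  have h3 : ∀ m, m + 1 ≤ n → ∀ c : Cd m, Cd.wf m c → ∀ (x : ℕ), ∀ B ∈ P (m + 1),
      iter (del τ (h ∘ g) m c) B (ω ^ (x : Ordinal.{0})) ∈ P (m + 1) := by
    intro m hm c hc x B hB
    by_cases hcb : c = Cd.bot m
    · rw [hcb, hIT0 m B]
      exact hB
    · obtain ⟨C, hC, hC2⟩ := (RP S h X τ g hS.tow hS.fib m).2.2 c hc hcb
      rw [(hC2 B (hS.cl (m + 1) hm B hB)).2]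
      exact hfin (m + 1) _ C hC fun L _ => hS.dd m hm L x B hB
  -- first claim
  have h1 : ∀ m, m ≤ n → ∀ c : Cd m, Cd.wf m c → ∀ B ∈ P m, Vo τ (h ∘ g) m c B ∈ P m := by
    intro m
    cases m with
    | zero =>
      intro _ c _ B hB
      by_cases hcv : Cd.vd 0 c
      · rw [(UZ X τ (h ∘ g)).2.1 c B hcv]
        exact hS.empty 0
      · have : c = Cd.bot 0 := by
          show c = false
          have h4 : ¬ (Cd.B c = true) := hcv
          exact Bool.eq_false_iff.2 h4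
        rw [this, (UZ X τ (h ∘ g)).1 B]
        exact hB
    | succ m =>
      intro hm c
      have key : ∀ l : List (Cd m ×ₗ ℕ), Cd.wf (m + 1) (Cd.of l) → ∀ B ∈ P (m + 1),
          Vo τ (h ∘ g) (m + 1) (Cd.of l) B ∈ P (m + 1) := by
        intro l
        induction l using List.reverseRecOn with
        | nil =>
          intro _ B hB
          have := (UZ X τ (h ∘ g)).2.2.2.1 m B
          exact this ▸ hB
        | append_singleton l e ih =>
          intro hwf B hB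
          obtain ⟨_, _, _, _, _, h6, _⟩ := CA m
          have e1 : Cd.of (l ++ [e]) = Cd.ext (Cd.of l) (ofLex e).1 (ofLex e).2 := rfl
          rw [e1] at hwf ⊢
          obtain ⟨w1, w2, _, _⟩ := h6 (Cd.of l) (ofLex e).1 (ofLex e).2 hwf
          rw [(UZ X τ (h ∘ g)).2.2.2.2.2.1 m (Cd.of l) (ofLex e).1 (ofLex e).2 B]
          exact h3 m hm _ w2 _ _ (ih w1 B hB)
      exact key c
  refine ⟨h1, ?_, h3, ?_⟩
  · -- second claim
    intro m
    cases m with
    | zero =>
      intro _ c _ _ s B hB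
      rw [(UZ X τ (h ∘ g)).2.2.1 c s B]
      have e1 : B ∩ (h ∘ g) ⁻¹' {s} = ⋃ t ∈ {t : S | h t = s}, (B ∩ g ⁻¹' {t}) := by
        ext x
        simp only [Set.mem_inter_iff, Set.mem_preimage, Set.mem_singleton_iff, Function.comp_apply,
          Set.mem_iUnion, exists_prop]
        constructor
        · rintro ⟨a1, a2⟩
          exact ⟨g x, a2, a1, rfl⟩
        · rintro ⟨t, a1, a2, a3⟩
          refine ⟨a2, ?_⟩
          rw [a3]
          exact a1
      rw [e1]
      exact hfin 0 _ _ (Set.toFinite _) fun t _ => hS.fibP B hB t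
    | succ m =>
      intro hm c hwf hvd s B hB
      obtain ⟨l₀, c', hc1, hc2⟩ := hvd
      have e1 : c = Cd.ext (Cd.of l₀) c' 0 := hc1
      obtain ⟨_, _, _, _, _, h6, _⟩ := CA m
      rw [e1] at hwf
      obtain ⟨w1, w2, w3, _⟩ := h6 (Cd.of l₀) c' 0 hwf
      rw [e1, (UZ X τ (h ∘ g)).2.2.2.2.2.2.2.2 m (Cd.of l₀) c' 0 s B]
      have hY := h1 (m + 1) hm (Cd.of l₀) w1 B hB
      obtain ⟨M, hM, hM2⟩ := (RP S h X τ g hS.tow hS.fib m).2.1 c' s
      rw [hM2 _ (hS.cl (m + 1) hm _ hY)]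
      refine hfin (m + 1) _ M hM fun t _ => ?_
      have hd := (ZM X S τ g hS.tow hS.fib m).2.2 (fun _ => t)
      have h7 := hS.dd m hm (fun _ => t) 0 _ hY
      rw [iter_one_VP IT _ hd.mono hd.le] at h7
      have h8 : dL τ g m (fun _ => t) (Vo τ (h ∘ g) (m + 1) (Cd.of l₀) B) =
          hom τ g m t (Vo τ (h ∘ g) (m + 1) (Cd.of l₀) B) := by
        unfold dL
        rw [Set.iInter_const]
      rwa [h8] at h7
  · -- fourth claim
    intro m hm c hc B hB
    by_cases hcb : c = Cd.bot m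
    · rw [hcb, hIT0 m B, del_bot_VP CA]
    · obtain ⟨C, hC, hC2⟩ := (RP S h X τ g hS.tow hS.fib m).2.2 c hc hcb
      have hK := h3 m hm c hc N B hB
      have hcl := hS.cl (m + 1) hm _ hK
      rw [(hC2 _ hcl).1]
      have e2 := (hC2 B (hS.cl (m + 1) hm B hB)).2 (N : Ordinal.{0})
      intro x hx
      rw [e2] at hx
      rw [Set.mem_iUnion₂] at hx
      obtain ⟨L, hL, hx2⟩ := hx
      rw [Set.mem_iUnion₂]
      refine ⟨L, hL, ?_⟩
      have h9 := hF m hm L B hB hx2
      refine ((ZM X S τ g hS.tow hS.fib m).2.2 L).mono _ _ ?_ h9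
      rw [e2]
      exact Set.subset_biUnion_of_mem (u := fun L => iter (dL τ g m L) B (ω ^ (N : Ordinal.{0}))) hL

end Pool.Agent.Helper24.WH
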