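import Mathlib

/-!
# PROJECT WH (MP_76577a_lc), part 1: better quasi orders of trees, derivations

Paper proof: /team-store/MP_76577a-proof.md (sections 1 and 2). Every `St...` is a proposition to be proved
in its own module `M_...` (theorem `h...`).
-/

set_option autoImplicit false

namespace Pool.Agent.Helper24.WH

open Set TopologicalSpace Ordinal Topology

/-! ## 1. Strictly increasing sequences, Galvin-Prikry, better quasi orders -/

/-- strictly increasing sequences, representing the infinite subsets of `ℕ` -/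
def Inc : Type := {X : ℕ → ℕ // StrictMono X}

instance Inc.top : TopologicalSpace Inc := inferInstanceAs (TopologicalSpace {X : ℕ → ℕ // StrictMono X})
instance Inc.ms : MeasurableSpace Inc := borel Inc
instance Inc.bs : BorelSpace Inc := ⟨rfl⟩

/-- the subsequence `Y ∘ Z` of `Y` -/
def Inc.comp (Y Z : Inc) : Inc := ⟨Y.1 ∘ Z.1, Y.2.comp Z.2⟩

/-- the sequence without its first element -/
def Inc.sh (X : Inc) : Inc := ⟨fun n => X.1 (n + 1), fun _ _ h => X.2 (Nat.add_lt_add_right h 1)⟩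

/-- **GP (1.1) Galvin-Prikry theorem** (Borel partitions of the infinite subsets of `ℕ` are Ramsey).
Proof (Ellentuck). Work with infinite sets `A ⊆ ℕ` and finite stems `a`; `[a,A]` = infinite `X` with initial
segment `a` and `X \ a ⊆ A`. `P` is completely Ramsey (CR) if every `(a,A)` has an infinite `B ⊆ A` with
`[a,B] ⊆ P` or `[a,B] ∩ P = ∅`. (i) For any `P`: `A` accepts `s` if `[s,A] ⊆ P`, rejects `s` if no infinite
`B ⊆ A` accepts `s`. Diagonalise: every `(a,A)` has `B ⊆ A` that decides every finite `s` with `a ⊑ s ⊆ a ∪ B`;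
if `B` rejects `a`, a further `C ⊆ B` rejects all such `s` (if `C` rejects `s` then it rejects `s ∪ {n}` for all
but finitely many `n ∈ C`). (ii) If `P` is open in the Ellentuck topology (in particular in the usual one),
then acceptance of all sufficiently long stems shows: `B` accepts `a`, or `[a,C] ∩ P = ∅`. (iii) CR is closed
under complement and, by fusion, under countable unions: given CR sets `P_n` and `(a,A)` find `B ⊆ A` such that
for every `n` and every stem `s ⊆ a ∪ B` containing at least `n` elements of `B`, `P_n` is decided on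
`[s, B above s]`; then `[a,B] ∩ ⋃ P_n` is relatively Ellentuck open, so (ii) applies. (iv) So all Borel sets
are CR; finitely many colours by induction. Encode sets by their increasing enumerations. -/
def StGP : Prop :=
  ∀ (k : ℕ) (c : Inc → Fin k), (∀ s, MeasurableSet (c ⁻¹' {s})) →
    ∃ (Y : Inc) (s : Fin k), ∀ Z : Inc, c (Y.comp Z) = s

/-- Borel better quasi order: no bad Borel array with countable range -/
def BQ {Q : Type} (r : Q → Q → Prop) : Prop :=
  ∀ c : Inc → Q, (range c).Countable → (∀ q, MeasurableSet (c ⁻¹' {q})) → ∃ X : Inc, r (c X) (c X.sh)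

/-- domination order on sequences (countable sets) -/
def Dom {Q : Type} (r : Q → Q → Prop) (F F' : ℕ → Q) : Prop := ∀ i, ∃ j, r (F i) (F' j)

/-- well founded countably branching trees with labels in `A` -/
inductive Tr (A : Type) : Type
  | leaf : A → Tr A
  | node : A → (ℕ → Tr A) → Tr A

/-- root label -/
def Tr.lab {A : Type} : Tr A → A
  | .leaf U => U
  | .node U _ => U

/-- the order of `Tr A` -/
inductive Tr.Le {A : Type} (r : A → A → Prop) : Tr A → Tr A → Prop
  | sub (t : Tr A) (U' : A) (F' : ℕ → Tr A) (j : ℕ) : Tr.Le r t (F' j) → Tr.Le r t (.node U' F')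
  | leaf (U : A) (t' : Tr A) : r U t'.lab → Tr.Le r (.leaf U) t'
  | node (U : A) (F : ℕ → Tr A) (t' : Tr A) : r U t'.lab → (∀ i, Tr.Le r (F i) t') →
      Tr.Le r (.node U F) t'

/-- relabelling of a tree -/
def Tr.map {A B : Type} (G : A → B) : Tr A → Tr B
  | .leaf U => .leaf (G U)
  | .node U F => .node (G U) (fun i => Tr.map G (F i))

/-- terms of height `m` over the label set `S` -/
def TT (S : Type) : ℕ → Type
  | 0 => S
  | (m + 1) => Tr (TT S m)

/-- the order of terms -/
def TT.Le {S : Type} : (m : ℕ) → TT S m → TT S m → Prop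
  | 0, a, b => (a : S) = b
  | (m + 1), a, b => Tr.Le (TT.Le m) a b

/-- relabelling of terms -/
def TT.map {S' S : Type} (G : S' → S) : (m : ℕ) → TT S' m → TT S m
  | 0, a => G a
  | (m + 1), a => Tr.map (TT.map G m) a

/-- **TP (1.4)** `Tr.Le r` is a preorder if `r` is; relabelling is monotone. -/
def StTP : Prop :=
  (∀ (A : Type) (r : A → A → Prop), (∀ a, r a a) → (∀ a b c, r a b → r b c → r a c) →
    (∀ t : Tr A, Tr.Le r t t) ∧ (∀ t u v : Tr A, Tr.Le r t u → Tr.Le r u v → Tr.Le r t v)) ∧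
  (∀ (S : Type) (m : ℕ), (∀ t : TT S m, TT.Le m t t) ∧
    (∀ t u v : TT S m, TT.Le m t u → TT.Le m u v → TT.Le m t v)) ∧
  (∀ (S' S : Type) (G : S' → S) (m : ℕ) (t u : TT S' m), TT.Le m t u →
    TT.Le m (TT.map G m t) (TT.map G m u))

/-- **BF (1.2)** a finite set with equality (by GP: take `X := Y`, `X.sh = Y.comp (succ)`). -/
def StBF : Prop := ∀ (S : Type) [Finite S], BQ (fun a b : S => a = b)

/-- **BP (1.3)** product with a finite set. By GP some `Y` makes the second coordinate of `c (Y.comp Z)`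
constant; apply `BQ r` to `Z ↦ (c (Y.comp Z)).1` (`Z ↦ Y.comp Z` is continuous, `(Y.comp Z).sh = Y.comp Z.sh`). -/
def StBP : Prop := ∀ (Q : Type) (r : Q → Q → Prop) (k : ℕ), BQ r →
  BQ (fun a b : Q × Fin k => r a.1 b.1 ∧ a.2 = b.2)

/-- **BT (1.4)** trees over a better quasi order. Proof. Let `c` be bad: never `Le (c X) (c X.sh)`.
`c_0 = c`; `c_{k+1} X` := the child `F i` of `c_k X` with the least `i` such that `¬ Le (F i) (c_k X.sh)`, if
`r (lab (c_k X)) (lab (c_k X.sh))` (then `c_k X` is a node and such `i` exists because `¬ Le (c_k X) (c_k X.sh)`);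
otherwise `c_{k+1} X = c_k X`. `c_{k+1}` is bad: in both cases `¬ Le (c_{k+1} X) (c_k X.sh)`, and if `c_{k+1} X.sh`
is a child of `c_k X.sh` then `¬ Le (c_{k+1} X) (c_{k+1} X.sh)` by the rule `sub`. For each `X` the sequence
`c_k X` moves only finitely often (the child relation of `Tr A` is well founded), so it has a limit `c_∞ X`;
`c_∞` is bad and does not move any more at late `k`, so `¬ r (lab (c_∞ X)) (lab (c_∞ X.sh))` for all `X`. The range of
all `c_k` lies in the countable set of iterated children of elements of `range c`; the fibres are Borel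
(countable Boolean combinations of fibres of `c_k` and of `c_k ∘ sh`; `sh` is continuous; the fibre of the limit is
`⋃ k, ⋂ j ≥ k, {c_j = q}`). So `lab ∘ c_∞` contradicts `BQ r`. -/
def StBT : Prop := ∀ (A : Type) (r : A → A → Prop), (∀ a, r a a) →
  (∀ a b c, r a b → r b c → r a c) → BQ r → BQ (Tr.Le r)

/-- **BW (1.5)** better implies well, also for sequences under domination. For a bad sequence `f` use
`c X = f (X 0)`. For a sequence `F` bad for `Dom r` pick for `i < j` some `k(i,j)` with `¬ r (F i (k i j)) (F j l)` for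
all `l` and use `c X = F (X 0) (k (X 0) (X 1))`. The fibres are open. -/
def StBW : Prop := ∀ (Q : Type) (r : Q → Q → Prop), BQ r →
  WellQuasiOrdered r ∧ WellQuasiOrdered (Dom r)

/-- **TB** all terms: combination of BF, BP, BT, BW -/
def StTB : Prop := ∀ (S : Type) [Finite S] (m k : ℕ),
  WellQuasiOrdered (TT.Le (S := S) m) ∧ WellQuasiOrdered (Dom (TT.Le (S := S) m)) ∧
  WellQuasiOrdered (Dom (fun a b : TT S m × Fin k => TT.Le m a.1 b.1 ∧ a.2 = b.2))

/-- **FB (1.6)** finite basis property -/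
def StFB : Prop := ∀ (Q : Type) (r : Q → Q → Prop), (∀ a, r a a) →
  (∀ a b c, r a b → r b c → r a c) → WellQuasiOrdered r →
  ∀ A : Set Q, ∃ A₀ : Set Q, A₀.Finite ∧ A₀ ⊆ A ∧ ∀ a ∈ A, ∃ a₀ ∈ A₀, r a₀ a

/-- **FN (1.7)** countable intersections of finite unions. The left hand side is the union over ALL choice
functions `c ∈ Π G i` of `⋂ i, H (c i)`; by FB for `Dom r` (a preorder) the set of choice functions has a finite
basis, and `Dom r c₀ c` gives `⋂ H (c i) ⊆ ⋂ H (c₀ i)`. -/
def StFN : Prop := ∀ (Q : Type) (r : Q → Q → Prop), (∀ a, r a a) →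
  (∀ a b c, r a b → r b c → r a c) → WellQuasiOrdered (Dom r) →
  ∀ G : ℕ → Set Q, (∀ i, (G i).Finite) → ∃ C : Set (ℕ → Q), C.Finite ∧ (∀ c ∈ C, ∀ i, c i ∈ G i) ∧
    ∀ (X : Type) (H : Q → Set X), (∀ a b, r a b → H b ⊆ H a) →
      ⋂ i, ⋃ e ∈ G i, H e = ⋃ c ∈ C, ⋂ i, H (c i)

/-! ## 2. Derivations -/

variable {X : Type}

/-- clopen for a given topology -/
abbrev Clp (τ : TopologicalSpace X) (O : Set X) : Prop := @IsClopen X τ O

/-- transfinite iteration of a set operator -/
noncomputable def iter (d : Set X → Set X) (B : Set X) (α : Ordinal.{0}) : Set X :=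
  B ∩ ⋂ β : Iio α, d (iter d B β.1)
termination_by α
decreasing_by exact β.2

/-- zero dimensional: a basis of clopen sets -/
def ZD (τ : TopologicalSpace X) : Prop :=
  ∀ (x : X) (U : Set X), IsOpen[τ] U → x ∈ U → ∃ O, Clp τ O ∧ x ∈ O ∧ O ⊆ U

/-- derivations -/
structure IsDer (τ : TopologicalSpace X) (d : Set X → Set X) : Prop where
  mono : ∀ A B, A ⊆ B → d A ⊆ d B
  le : ∀ B, d B ⊆ B
  loc : ∀ O B, Clp τ O → d (B ∩ O) = d B ∩ O
  closed : ∀ B, IsClosed[τ] B → IsClosed[τ] (d B)

/-- **IT (2.1)** basic properties of the iteration -/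
def StIT : Prop := ∀ (X : Type) (d : Set X → Set X), (∀ A B, A ⊆ B → d A ⊆ d B) → (∀ B, d B ⊆ B) →
  (∀ B, iter d B 0 = B) ∧ (∀ B α, iter d B (α + 1) = d (iter d B α)) ∧
  (∀ B α β, α ≤ β → iter d B β ⊆ iter d B α) ∧ (∀ A B α, A ⊆ B → iter d A α ⊆ iter d B α) ∧
  (∀ B α β, iter d B (α + β) = iter d (iter d B α) β) ∧
  (∀ B α, iter d B α ⊆ B) ∧
  (∀ B α, Order.IsSuccLimit α → iter d B α = ⋂ β : Iio α, iter d B β.1) ∧
  (∀ B α, B ⊆ d B → iter d B α = B) ∧
  (∀ B W α, W ⊆ B → W ⊆ d W → W ⊆ iter d B α) ∧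
  (∀ d' : Set X → Set X, (∀ B, d' B ⊆ d B) → ∀ B α, iter d' B α ⊆ iter d B α)

/-- **IL (2.1)** iterates of a derivation are derivations -/
def StIL : Prop := ∀ (X : Type) (τ : TopologicalSpace X) (d : Set X → Set X), IsDer τ d →
  ∀ α, IsDer τ (fun B => iter d B α)

/-- **NS (2.2)** natural sum: `N a b` = least ordinal above all `N a' b` (`a' < a`) and `N a b'` (`b' < b`)
(well founded recursion, e.g. rank in the product order). The last clause by induction on `x`: `x = 0` trivial,
limits trivial, `x = y + 1`: prove by induction on `(a, b)`, `a = ω ^ y * i + c`, `b = ω ^ y * j + d`, `c, d < ω ^ y`, `i j : ℕ`: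
`N a b ≤ ω ^ y * (i + j) + N c d`, and `N c d < ω ^ y` by the induction hypothesis. -/
def StNS : Prop := ∃ N : Ordinal.{0} → Ordinal.{0} → Ordinal.{0},
  (∀ a a' b, a < a' → N a b < N a' b) ∧ (∀ a b b', b < b' → N a b < N a b') ∧
  ∀ x a b : Ordinal.{0}, a < ω ^ x → b < ω ^ x → N a b < ω ^ x

/-- **UN (2.3)** union of two derivations. `⊇` is monotonicity (IT). `⊆`: let `D = d₁ ∪ d₂`, `y ∈ B` outside both
right hand sets. Put `r_q y` = the ordinal `a < ω ^ x` with `y ∈ iter d_q B a`, `y ∉ iter d_q B (a+1)` (it exists: the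
least `a'` with `y ∉ iter d_q B a'` is a successor). Claim: for all `β` and all `z ∈ iter D B β` with `r_1 z, r_2 z` defined:
`β ≤ N (r_1 z) (r_2 z)` (N from NS). Limit step trivial. Successor: `z ∈ D (iter D B β)` and suppose `N (r z) ≤ β`, so
`= β`. The closed sets `iter d_q B (r_q z + 1)` do not contain `z`: choose a clopen `O ∋ z` missing both; on `O` all
`r_q ≤ r_q z`. Any `w ∈ iter D B β ∩ O` has `β ≤ N (r w)`, so by strict monotonicity `r_q w = r_q z`, hence
`iter D B β ∩ O ⊆ iter d_q B (r_q z)` for both `q`. Since `z ∈ d_q (iter D B β)` for some `q`, locality gives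
`z ∈ d_q (iter D B β ∩ O) ⊆ iter d_q B (r_q z + 1)`, contradiction. At the end `β = ω ^ x ≤ N (r y) < ω ^ x` is impossible. -/
def StUN : Prop := ∀ (X : Type) (τ : TopologicalSpace X), ZD τ → ∀ d₁ d₂ : Set X → Set X,
  IsDer τ d₁ → IsDer τ d₂ → IsDer τ (fun B => d₁ B ∪ d₂ B) ∧
    ∀ (B : Set X) (x : Ordinal.{0}), IsClosed[τ] B →
      iter (fun B => d₁ B ∪ d₂ B) B (ω ^ x) = iter d₁ B (ω ^ x) ∪ iter d₂ B (ω ^ x)

/-- **AD (2.4)** additivity of a derivation. As UN with `r_q y = 0` if `y ∉ B_q` and `r_q y = 1 + a` if `y ∈ iter d B_q a`,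
`y ∉ iter d B_q (a+1)`. Claim: `z ∈ iter d (B₁ ∪ B₂) β` with both `r_q z` defined implies `1 + β ≤ N (r z)`. `β = 0`: some
`r_q z ≥ 1`. Successor: `z ∈ d (iter .. β)`, suppose `N (r z) = 1 + β`; clopen `O ∋ z` with `r_q ≤ r_q z` on `O`; then on
`iter .. β ∩ O` all `r_q = r_q z`; take a `q` with `z ∈ B_q`: `iter .. β ∩ O ⊆ iter d B_q a_q`, so `z ∈ iter d B_q (a_q + 1)`,
contradiction. Finally `1 + ω ^ x = ω ^ x` for `x ≥ 1` and `1 + a < ω ^ x` for `a < ω ^ x`. -/
def StAD : Prop := ∀ (X : Type) (τ : TopologicalSpace X), ZD τ → ∀ d : Set X → Set X,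
  IsDer τ d → ∀ (B₁ B₂ : Set X) (x : Ordinal.{0}), IsClosed[τ] B₁ → IsClosed[τ] B₂ → 1 ≤ x →
      iter d (B₁ ∪ B₂) (ω ^ x) = iter d B₁ (ω ^ x) ∪ iter d B₂ (ω ^ x)

/-- **UF** finite versions of UN and AD -/
def StUF : Prop := ∀ (X : Type) (τ : TopologicalSpace X), ZD τ → ∀ (ι : Type) [Finite ι],
  (∀ d : ι → Set X → Set X, (∀ i, IsDer τ (d i)) → IsDer τ (fun B => ⋃ i, d i B) ∧
    ∀ (B : Set X) (x : Ordinal.{0}), IsClosed[τ] B →
      iter (fun B => ⋃ i, d i B) B (ω ^ x) = ⋃ i, iter (d i) B (ω ^ x)) ∧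
  (∀ d : Set X → Set X, IsDer τ d → ∀ (B : ι → Set X) (x : Ordinal.{0}), (∀ i, IsClosed[τ] (B i)) →
    1 ≤ x → iter d (⋃ i, B i) (ω ^ x) = ⋃ i, iter d (B i) (ω ^ x))

end Pool.Agent.Helper24.WH
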