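import Pool.Agent.Helper24.WH.St1

/-!
# PROJECT WH (MP_76577a_lc), part 2: finite trees with the gap order, countability, Polish refinements
(sections 4.4, 4.5, 4.6 of the paper proof; independent of the rest)
-/

set_option autoImplicit false

namespace Pool.Agent.Helper24.WH

open Set TopologicalSpace Ordinal Topology

universe u v

/-- finite forests with inner labels in `L` and leaves from `A` -/
inductive Fo (L : Type u) (A : Type v) : Type (max u v)
  | nil : Fo L A
  | leaf : A → Fo L A → Fo L A
  | cons : L → Fo L A → Fo L A → Fo L A

namespace Fo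

variable {L : Type u} {A : Type v}

/-- some leaf of the forest is above `a` -/
def FindA (ra : A → A → Prop) (a : A) : Fo L A → Prop
  | nil => False
  | leaf a' rest => ra a a' ∨ FindA ra a rest
  | cons _ kids rest => FindA ra a kids ∨ FindA ra a rest

/-- a tree with root label `l`, whose kids are compared by `P`, is found in the forest: match with a root,
or skip a root `l'` with `ht l' ≤ ht l` -/
def FindT (rl : L → L → Prop) (ht : L → ℕ) (l : L) (P : Fo L A → Prop) : Fo L A → Prop
  | nil => False
  | leaf _ rest => FindT rl ht l P rest
  | cons l' kids rest => (rl l l' ∧ P kids) ∨ (ht l' ≤ ht l ∧ FindT rl ht l P kids) ∨ FindT rl ht l P rest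

/-- the gap embedding of forests -/
def Emb (rl : L → L → Prop) (ra : A → A → Prop) (ht : L → ℕ) : Fo L A → Fo L A → Prop
  | nil, _ => True
  | leaf a rest, N => FindA ra a N ∧ Emb rl ra ht rest N
  | cons l kids rest, N => FindT rl ht l (Emb rl ra ht kids) N ∧ Emb rl ra ht rest N

/-- all inner labels have height at most `m` -/
def HB (ht : L → ℕ) (m : ℕ) : Fo L A → Prop
  | nil => True
  | leaf _ rest => HB ht m rest
  | cons l kids rest => ht l ≤ m ∧ HB ht m kids ∧ HB ht m rest

end Fo

/-- **GE** the gap embedding is reflexive and transitive (labels: preorders, `rl l l' → ht l = ht l'`).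
Also needed: if a tree is found in `kids` it is found in every forest in which `kids` may be reached. -/
def StGE : Prop := ∀ (L : Type u) (A : Type v) (rl : L → L → Prop) (ra : A → A → Prop) (ht : L → ℕ),
  (∀ a, rl a a) → (∀ a b c, rl a b → rl b c → rl a c) → (∀ a, ra a a) →
  (∀ a b c, ra a b → ra b c → ra a c) → (∀ a b, rl a b → ht a = ht b) →
  (∀ N : Fo L A, Fo.Emb rl ra ht N N) ∧
  (∀ N₁ N₂ N₃ : Fo L A, Fo.Emb rl ra ht N₁ N₂ → Fo.Emb rl ra ht N₂ N₃ → Fo.Emb rl ra ht N₁ N₃)

/-- **GW (4.4)** the gap embedding is a well quasi order. Induction on `n`, for all `A` simultaneously.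
`n = 0`: if all labels have height `≤ 0`, use the general step with no lower level: treat the statement as
`G(m)`: forests whose inner labels have height `< m` (`m = 0`: only leaves; finite lists of leaves under domination).
Step `m → m+1`. Let a MINIMAL BAD SEQUENCE (number of nodes) of single trees `t_i = cons l_i k_i nil` with `ht l_i = m` be
given (Mathlib: `Set.PartiallyWellOrderedOn.exists_min_bad_of_exists_bad`). A tree with root height `m` may skip
every node. The set `B` of all proper subtrees (with root height `m`) of the `t_i` is well quasi ordered: if `b_k ∈ B` is a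
bad sequence, `b_k` inside `t_{i_k}`, `i_0` minimal, then `t_0, .., t_{i_0 - 1}, b_0, b_1, ..` is bad (`t_j` found in `b_k` would
be found in `t_{i_k}`) and smaller, contradiction. Cut the kids `k_i` at the highest nodes of height `m`: forests with
leaves in `A ⊕ B` (sum order) and labels of height `< m`, wqo by induction; the embedding of cut forests implies the
embedding of the forests (induction). With the labels (`rl` wqo) we get `i < j`, `rl l_i l_j`, `Emb k_i k_j`: contradiction.
So trees with root height `m` form a wqo `C`; cut arbitrary forests at the highest nodes of height `m`: leaves in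
`A ⊕ C`, induction again. -/
def StGW : Prop := ∀ (L : Type u) (A : Type v) (rl : L → L → Prop) (ra : A → A → Prop) (ht : L → ℕ) (n : ℕ),
  (∀ a, rl a a) → (∀ a b c, rl a b → rl b c → rl a c) → (∀ a, ra a a) →
  (∀ a b c, ra a b → ra b c → ra a c) → (∀ a b, rl a b → ht a = ht b) →
  (∀ f : ℕ → L, (∀ i, ht (f i) ≤ n) → ∃ i j, i < j ∧ rl (f i) (f j)) → WellQuasiOrdered ra →
  ∀ f : ℕ → Fo L A, (∀ i, (f i).HB ht n) → ∃ i j, i < j ∧ Fo.Emb rl ra ht (f i) (f j)

/-- **CT (4.5)** a family of closed sets of a second countable space, well quasi ordered by reverse inclusion,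
is countable. Complements `U`, countable basis `b_k`. For each `k` the set `{U : b_k ⊆ U}` has a finite set `M_k` of
minimal elements, and every `U ⊇ b_k` contains one of them (FB for the order `⊆` on complements). `M = ⋃ M_k` is
countable; `U` is the union of the members of `M` below it. A down-closed subset of `M` is the complement of the
up-closure of a finite subset (FB), so there are only countably many. -/
def StCT : Prop := ∀ (X : Type) (τ : TopologicalSpace X), @SecondCountableTopology X τ →
  ∀ 𝓕 : Set (Set X), (∀ F ∈ 𝓕, IsClosed[τ] F) →
    (∀ f : ℕ → Set X, (∀ i, f i ∈ 𝓕) → ∃ i j, i < j ∧ f j ⊆ f i) → 𝓕.Countable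

/-- **EC (4.6)** a monotone family of topologies indexed by the ordinals is eventually constant
(`not_injective_of_ordinal`; take the supremum of the least indices of all values, a small set). -/
def StEC : Prop := ∀ (X : Type) (τ : Ordinal.{0} → ℕ → TopologicalSpace X),
  (∀ i j, i ≤ j → ∀ m, τ j m ≤ τ i m) → ∃ i₀, ∀ i, i₀ ≤ i → τ i = τ i₀

/-- **PR (4.5)** adding countably many closed sets as open sets to a Polish topology gives a Polish topology.
For one closed set `F`: `(X, τ + F)` is the topological sum of `F` (closed, Polish) and its complement (open, Polish);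
then `PolishSpace.iInf` (the coarser topology `τ` itself is one of the family). -/
def StPR : Prop := ∀ (X : Type) (τ : TopologicalSpace X), @PolishSpace X τ →
  ∀ 𝓕 : Set (Set X), 𝓕.Countable → (∀ F ∈ 𝓕, IsClosed[τ] F) →
    @PolishSpace X (τ ⊓ generateFrom 𝓕)

end Pool.Agent.Helper24.WH
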