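import Pool.Agent.Helper24.WH.St1

/-!
# PROJECT WH (MP_76577a_lc), part 3: tower calculus (section 3 of the paper proof)

`τ ≤ τ'` in Mathlib means: `τ` is FINER (has more open sets). In a tower `τ 0` is the finest topology.
-/

set_option autoImplicit false

namespace Pool.Agent.Helper24.WH

open Set TopologicalSpace Ordinal Topology

/-- a tower: `τ m` finer than `τ (m+1)`, each zero dimensional -/
structure Tow {X : Type} (τ : ℕ → TopologicalSpace X) : Prop where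
  mono : ∀ m, τ m ≤ τ (m + 1)
  zd : ∀ m, ZD (τ m)

/-- the labelling has clopen fibres in the finest topology -/
def Fib {X S : Type} (τ : ℕ → TopologicalSpace X) (g : X → S) : Prop := ∀ s, Clp (τ 0) (g ⁻¹' {s})

/-- monotone, contractive, local set operator -/
structure MCL {X : Type} (τ : TopologicalSpace X) (z : Set X → Set X) : Prop where
  mono : ∀ A B, A ⊆ B → z A ⊆ z B
  le : ∀ B, z B ⊆ B
  loc : ∀ O B, Clp τ O → z (B ∩ O) = z B ∩ O

/-- the largest `W ⊆ B` with `W ⊆ closure (z W)` -/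
def HomOp {X : Type} (τ : TopologicalSpace X) (z : Set X → Set X) (B : Set X) : Set X :=
  ⋃₀ {W | W ⊆ B ∧ W ⊆ closure[τ] (z W)}

/-- evaluation of a tree, `h U` = the operator attached to the label `U` -/
def ZTr {X A : Type} (h : A → Set X → Set X) : Tr A → Set X → Set X
  | .leaf U, B => h U B
  | .node U F, B => h U (⋂ i, ZTr h (F i) B)

/-- the operators `Z_m^t` -/
def Z {X S : Type} (τ : ℕ → TopologicalSpace X) (g : X → S) : (m : ℕ) → TT S m → Set X → Set X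
  | 0, s, B => B ∩ g ⁻¹' {(s : S)}
  | (m + 1), t, B => ZTr (fun U => HomOp (τ (m + 1)) (Z τ g m U)) t B

/-- `Hom^U_{m+1}` -/
def hom {X S : Type} (τ : ℕ → TopologicalSpace X) (g : X → S) (m : ℕ) (U : TT S m) (B : Set X) : Set X :=
  HomOp (τ (m + 1)) (Z τ g m U) B

/-- `d_L`, `L` a sequence of terms of height `m`; a derivation for `τ (m+1)` -/
def dL {X S : Type} (τ : ℕ → TopologicalSpace X) (g : X → S) (m : ℕ) (L : ℕ → TT S m) (B : Set X) : Set X :=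
  ⋂ i, hom τ g m (L i) B

/-- **HO (3.1)** basic properties of `HomOp` -/
def StHO : Prop := ∀ (X : Type) (τ : TopologicalSpace X) (z : Set X → Set X), (∀ A B, A ⊆ B → z A ⊆ z B) →
  (∀ B, HomOp τ z B ⊆ B) ∧ (∀ A B, A ⊆ B → HomOp τ z A ⊆ HomOp τ z B) ∧
  (∀ B, HomOp τ z B ⊆ closure[τ] (z (HomOp τ z B))) ∧
  (∀ W B, W ⊆ B → W ⊆ closure[τ] (z W) → W ⊆ HomOp τ z B) ∧
  (∀ B, IsClosed[τ] B → IsClosed[τ] (HomOp τ z B)) ∧
  (∀ B, HomOp τ z (HomOp τ z B) = HomOp τ z B) ∧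
  ((∀ O B, Clp τ O → z (B ∩ O) = z B ∩ O) → ∀ O B, Clp τ O → HomOp τ z (B ∩ O) = HomOp τ z B ∩ O) ∧
  (∀ (τ' : TopologicalSpace X) (z' : Set X → Set X), τ' ≤ τ → (∀ B, z' B ⊆ z B) →
    ∀ B, HomOp τ' z' B ⊆ HomOp τ z B)

/-- **ZM (3.1)** the operators `Z_m^t`, `Hom` and `d_L` (a clopen set of `τ (m+1)` is clopen in `τ m`) -/
def StZM : Prop := ∀ (X S : Type) (τ : ℕ → TopologicalSpace X) (g : X → S), Tow τ → Fib τ g → ∀ m,
  (∀ t : TT S m, IsDer (τ m) (Z τ g m t)) ∧ (∀ U : TT S m, IsDer (τ (m + 1)) (hom τ g m U)) ∧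
  (∀ L : ℕ → TT S m, IsDer (τ (m + 1)) (dL τ g m L))

/-- **ZA (3.2)** antitone in the term; no hypothesis on the topologies. Induction on `m`, then on `Tr.Le`. Case `node`:
`H = Z t' B` is a value of `Hom^{lab t'}`, so `H ⊆ closure (Z_m^{lab t'} H) ⊆ closure (Z_m^U H)` and `H ⊆ Z (F i) B`. -/
def StZA : Prop := ∀ (X S : Type) (τ : ℕ → TopologicalSpace X) (g : X → S) (m : ℕ),
  (∀ (t t' : TT S m), TT.Le m t t' → ∀ B : Set X, Z τ g m t' B ⊆ Z τ g m t B) ∧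
  (∀ (t t' : TT S m), TT.Le m t t' → ∀ B : Set X, hom τ g m t' B ⊆ hom τ g m t B) ∧
  (∀ L L' : ℕ → TT S m, Dom (TT.Le m) L L' → ∀ B : Set X, dL τ g m L' B ⊆ dL τ g m L B) ∧
  (∀ t : TT S m, ∀ A B : Set X, A ⊆ B → Z τ g m t A ⊆ Z τ g m t B)

/-- **ZF (3.3)** a finer tower gives smaller sets -/
def StZF : Prop := ∀ (X S : Type) (τ τ' : ℕ → TopologicalSpace X) (g : X → S), (∀ m, τ' m ≤ τ m) →
  ∀ (m : ℕ), (∀ (t : TT S m) (B : Set X), Z τ' g m t B ⊆ Z τ g m t B) ∧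
    (∀ (L : ℕ → TT S m) (B : Set X), dL τ' g m L B ⊆ dL τ g m L B) ∧
    (∀ (L : ℕ → TT S m) (B : Set X) (α : Ordinal.{0}), iter (dL τ' g m L) B α ⊆ iter (dL τ g m L) B α)

/-- **HA (3.4)** additivity of `HomOp` on finite unions of closed sets. Two sets: `W = HomOp τ z (B₁ ∪ B₂)` closed,
`W₁ = closure (W \ B₂) ⊆ B₁`, `W₂ = {x ∈ W : some clopen O ∋ x has O ∩ W ⊆ B₂}`; `W = W₁ ∪ W₂`; locality gives
`W_i ⊆ closure (z W_i)`. -/
def StHA : Prop := ∀ (X : Type) (τ : TopologicalSpace X) (z : Set X → Set X), ZD τ → MCL τ z →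
  ∀ (ι : Type) [Finite ι] (B : ι → Set X), (∀ i, IsClosed[τ] (B i)) →
    HomOp τ z (⋃ i, B i) = ⋃ i, HomOp τ z (B i)

/-- **HU (3.5)** finite unions of operators. `W = HomOp τ z B`, `x ∈ W` outside all (closed) `HomOp τ (zi i) W`:
clopen `O ∋ x` missing them, `W' = W ∩ O ≠ ∅`, `HomOp (zi i) W' = ∅`. Finite induction over `i`: `W' ⊄ closure (zi i W')`,
so some clopen `O_i` meets `W'` and misses `zi i W'`; replace `W'` by `W' ∩ O_i`. At the end `W*` nonempty, closed, all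
`zi i W* = ∅` but `W* ⊆ closure (z W*)` (locality): contradiction. -/
def StHU : Prop := ∀ (X : Type) (τ : TopologicalSpace X) (z : Set X → Set X), ZD τ → MCL τ z →
  ∀ (ι : Type) [Finite ι] (zi : ι → Set X → Set X), (∀ i, MCL τ (zi i)) →
    (∀ W, IsClosed[τ] W → z W = ⋃ i, zi i W) → ∀ B, IsClosed[τ] B →
      HomOp τ z B = ⋃ i, HomOp τ (zi i) B

/-- **RL (3.6)** relabelling: finitely many terms `t'`, independent of the tower. Induction on `m`; for `m+1` induction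
on the tree; `Hom^U` by HU and the induction hypothesis; `⋂ i, ⋃ ..` by FN (TB); then HA. Only sets closed for `τ m`. -/
def StRL : Prop := ∀ (S' S : Type) [Finite S'] (G : S' → S) (m : ℕ) (t : TT S m),
  ∃ M : Set (TT S' m), M.Finite ∧ (∀ t' ∈ M, TT.Le m t (TT.map G m t')) ∧
    ∀ (X : Type) (τ : ℕ → TopologicalSpace X) (g' : X → S'), Tow τ → Fib τ g' →
      ∀ B : Set X, IsClosed[τ m] B → Z τ (G ∘ g') m t B = ⋃ t' ∈ M, Z τ g' m t' B

/-- **RD (3.6)** relabelling of `d_L` and of its iterates -/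
def StRD : Prop := ∀ (S' S : Type) [Finite S'] (G : S' → S) (m : ℕ) (L : ℕ → TT S m),
  (∃ M : ℕ → Set (TT S' m), (∀ i, (M i).Finite) ∧
    ∀ (X : Type) (τ : ℕ → TopologicalSpace X) (g' : X → S'), Tow τ → Fib τ g' →
      ∀ B : Set X, IsClosed[τ (m + 1)] B → ∀ i, hom τ (G ∘ g') m (L i) B = ⋃ t' ∈ M i, hom τ g' m t' B) ∧
  ∃ C : Set (ℕ → TT S' m), C.Finite ∧
    ∀ (X : Type) (τ : ℕ → TopologicalSpace X) (g' : X → S'), Tow τ → Fib τ g' →
      ∀ B : Set X, IsClosed[τ (m + 1)] B →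
        dL τ (G ∘ g') m L B = ⋃ L' ∈ C, dL τ g' m L' B ∧
        ∀ x : Ordinal.{0}, iter (dL τ (G ∘ g') m L) B (ω ^ x) = ⋃ L' ∈ C, iter (dL τ g' m L') B (ω ^ x)

/-- product tower -/
@[reducible] def prodT {X Y : Type} (τ : ℕ → TopologicalSpace X) (τ' : ℕ → TopologicalSpace Y) :
    ℕ → TopologicalSpace (X × Y) := fun m => @instTopologicalSpaceProd X Y (τ m) (τ' m)

/-- **PT** products of towers -/
def StPT : Prop := ∀ (X Y S S' : Type) (τ : ℕ → TopologicalSpace X) (τ' : ℕ → TopologicalSpace Y)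
  (g : X → S) (g' : Y → S'), Tow τ → Tow τ' → Fib τ g → Fib τ' g' →
    Tow (prodT τ τ') ∧ Fib (prodT τ τ') (Prod.map g g')

/-- **PZ (3.7)** exact product formula (no hypothesis on the topologies; `closure_prod_eq`). For `Hom`: if `W ⊆ A × B`,
`W ⊆ closure (Z^U W)`, then with the projections `W_i` of `W`: `Z^U W ⊆ Z^U (W_0 × W_1)` = product, so `W_i ⊆ closure (Z W_i)`. -/
def StPZ : Prop := ∀ (X Y S S' : Type) (τ : ℕ → TopologicalSpace X) (τ' : ℕ → TopologicalSpace Y)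
  (g : X → S) (g' : Y → S') (m : ℕ),
  (∀ (t : TT (S × S') m) (A : Set X) (B : Set Y),
    Z (prodT τ τ') (Prod.map g g') m t (A ×ˢ B) =
      Z τ g m (TT.map Prod.fst m t) A ×ˢ Z τ' g' m (TT.map Prod.snd m t) B) ∧
  (∀ (U : TT (S × S') m) (A : Set X) (B : Set Y),
    hom (prodT τ τ') (Prod.map g g') m U (A ×ˢ B) =
      hom τ g m (TT.map Prod.fst m U) A ×ˢ hom τ' g' m (TT.map Prod.snd m U) B) ∧
  (∀ (L : ℕ → TT (S × S') m) (A : Set X) (B : Set Y) (α : Ordinal.{0}),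
    iter (dL (prodT τ τ') (Prod.map g g') m L) (A ×ˢ B) α =
      iter (dL τ g m (fun i => TT.map Prod.fst m (L i))) A α ×ˢ
        iter (dL τ' g' m (fun i => TT.map Prod.snd m (L i))) B α)

/-- clopen embedding -/
def CE {X Y : Type} (τX : TopologicalSpace X) (τY : TopologicalSpace Y) (e : X → Y) : Prop :=
  Function.Injective e ∧ τX = τY.induced e ∧ Clp τY (range e)

/-- **EZ (3.8)** clopen embeddings commute with all operators -/
def StEZ : Prop := ∀ (X Y S : Type) (τX : ℕ → TopologicalSpace X) (τY : ℕ → TopologicalSpace Y)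
  (g : Y → S) (e : X → Y), (∀ m, CE (τX m) (τY m) e) → ∀ (m : ℕ),
  (∀ (t : TT S m) (B : Set X), Z τY g m t (e '' B) = e '' Z τX (g ∘ e) m t B) ∧
  (∀ (U : TT S m) (B : Set X), hom τY g m U (e '' B) = e '' hom τX (g ∘ e) m U B) ∧
  (∀ (L : ℕ → TT S m) (B : Set X) (α : Ordinal.{0}),
    iter (dL τY g m L) (e '' B) α = e '' iter (dL τX (g ∘ e) m L) B α)

/-- **SD (3.9)** splitting of the operators `D` along `e : X × X → X` (later `e = mk a` on trees). `x ≥ 1`: UF (additivity), RD,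
PZ, EZ, one index `q` in each `J k`. `x = 0`: `d_L (⋃ C_q) = ⋂ i, ⋃ e ∈ M i, ⋃ q, Hom^e C_q` (HA, RD); FN on `TT (S × S) m × Fin k`
(TB) gives finitely many sequences `c`; for each `c` let `J` = the set of `q` that occur, enumerate the terms with
second coordinate `q`; then PZ and EZ; an intersection of products is a product. -/
def StSD : Prop := ∀ (X S : Type) [Finite S] (τ : ℕ → TopologicalSpace X) (g : X → S) (e : X × X → X)
  (G : S × S → S), Tow τ → Fib τ g → (∀ p, g (e p) = G (g p.1, g p.2)) →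
  (∀ m, CE (prodT τ τ m) (τ m) e) →
  ∀ (m : ℕ) (L : ℕ → TT S m) (x : ℕ) (k : ℕ) (B₀ B₁ : Fin k → Set X) (B : Set X),
    (∀ q, IsClosed[τ (m + 1)] (B₀ q)) → (∀ q, IsClosed[τ (m + 1)] (B₁ q)) → IsClosed[τ (m + 1)] B →
    B ∩ range e = ⋃ q, e '' (B₀ q ×ˢ B₁ q) →
    ∃ (N : ℕ) (J : Fin N → Set (Fin k)) (L₀ L₁ : Fin N → Fin k → ℕ → TT S m), (∀ r, (J r).Nonempty) ∧
      iter (dL τ g m L) B (ω ^ (x : Ordinal.{0})) ∩ range e =
        ⋃ r, e '' ((⋂ q ∈ J r, iter (dL τ g m (L₀ r q)) (B₀ q) (ω ^ (x : Ordinal.{0}))) ×ˢ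
          (⋂ q ∈ J r, iter (dL τ g m (L₁ r q)) (B₁ q) (ω ^ (x : Ordinal.{0}))))

/-- **SC** splitting of the closure operators -/
def StSC : Prop := ∀ (X S : Type) [Finite S] (τ : TopologicalSpace X) (g : X → S) (e : X × X → X)
  (G : S × S → S), (∀ p, g (e p) = G (g p.1, g p.2)) → CE (@instTopologicalSpaceProd X X τ τ) τ e →
  ∀ (s : S) (k : ℕ) (B₀ B₁ : Fin k → Set X) (B : Set X), B ∩ range e = ⋃ q, e '' (B₀ q ×ˢ B₁ q) →
    closure[τ] (g ⁻¹' {s} ∩ B) ∩ range e =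
      ⋃ q, ⋃ p ∈ {p : S × S | G p = s}, e '' (closure[τ] (g ⁻¹' {p.1} ∩ B₀ q) ×ˢ
        closure[τ] (g ⁻¹' {p.2} ∩ B₁ q))

end Pool.Agent.Helper24.WH
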