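import Pool.Agent.Helper24.WH.Syn
import Pool.Agent.Helper24.WH.St2
import Pool.Agent.Helper24.WH.St3

/-!
# PROJECT WH (MP_76577a_lc), part 4: trees, names, stages, the rich tower, finite type
(sections 0.3-0.5, 4 and 5 of the paper proof)
-/

set_option autoImplicit false

namespace Pool.Agent.Helper24.WH

open Set TopologicalSpace Topology
open Ordinal hiding univ

/-! ## Trees and node topologies -/

/-- subtree at the node `u` -/
def Tre.sub {A : Type} (t : Tre A) (u : List Bool) : Tre A := fun v => t (u ++ v)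

/-- the tree with root letter `a` and the two given subtrees -/
def Tre.mk {A : Type} (a : A) (p : Tre A × Tre A) : Tre A
  | [] => a
  | false :: v => p.1 v
  | true :: v => p.2 v

/-- node topology generated by a family of root sets -/
@[reducible] def nt {A : Type} (G : Set (Set (Tre A))) : TopologicalSpace (Tre A) :=
  generateFrom ({U | ∃ (u : List Bool) (a : A), U = {t : Tre A | t u = a}} ∪
    {U | ∃ F ∈ G, ∃ u : List Bool, U = {t : Tre A | t.sub u ∈ F}})

/-- **NT** basic facts on node topologies -/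
def StNT : Prop := ∀ (A : Type) [Finite A],
  (∀ G G' : Set (Set (Tre A)), G ⊆ G' → nt G' ≤ nt G) ∧
  (∀ G : Set (Set (Tre A)), ∀ F ∈ G, IsOpen[nt G] F) ∧
  (∀ G : Set (Set (Tre A)), ∀ u, @Continuous _ _ (nt G) (nt G) (fun t : Tre A => t.sub u)) ∧
  (∀ G : Set (Set (Tre A)), (∀ F ∈ G, IsClosed[nt G] F) → ZD (nt G)) ∧
  (∀ G : Set (Set (Tre A)), ∀ a : A, Clp (nt G) (range (Tre.mk a))) ∧
  (∀ G : Set (Set (Tre A)), (∀ F ∈ G, ∀ a : A, ∃ (k : ℕ) (F₀ F₁ : Fin k → Set (Tre A)),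
      (∀ q, IsOpen[nt G] (F₀ q)) ∧ (∀ q, IsOpen[nt G] (F₁ q)) ∧
      F ∩ range (Tre.mk a) = ⋃ q, Tre.mk a '' (F₀ q ×ˢ F₁ q)) →
    ∀ a : A, CE (@instTopologicalSpaceProd _ _ (nt G) (nt G)) (nt G) (Tre.mk a)) ∧
  (∀ G : Set (Set (Tre A)), G.Countable → @SecondCountableTopology _ (nt G)) ∧
  (nt (∅ : Set (Set (Tre A))) = @Pi.topologicalSpace (List Bool) (fun _ => A) (fun _ => ⊥)) ∧
  (nt ({univ} : Set (Set (Tre A))) = nt ∅) ∧
  (@PolishSpace _ (nt (∅ : Set (Set (Tre A)))) ∧ @CompactSpace _ (nt (∅ : Set (Set (Tre A)))))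

/-- base topologies (0.3), counted from the coarsest one -/
@[reducible] def bT {A S : Type} (g : Tre A → S) : ℕ → TopologicalSpace (Tre A)
  | 0 => nt ∅
  | (j + 1) => nt {F | ∃ K : Set S, F = g ⁻¹' K ∧ IsClosed[bT g j] F}

/-- standing hypotheses: `g` is a homomorphism, continuous for the base tower with `n` levels -/
structure Hyp {A S : Type} (n : ℕ) (g : Tre A → S) (Ga : A → S × S → S) : Prop where
  hom : ∀ a p, g (Tre.mk a p) = Ga a (g p.1, g p.2)
  cont : ∀ s, Clp (bT g n) (g ⁻¹' {s})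

/-- **BB (0.5)** base tower: finer and finer, zero dimensional, `mk a` a clopen embedding, closed definable sets split into
closed definable sets. Induction on `j`. Splitting: for `(s₀, s₁)` in the relation of `F = g ⁻¹' K` let `K(s)` be the least `K ∋ s`
with `g ⁻¹' K` closed (finite intersection); sections of `F` are closed and definable, so `K(s₀) × {s₁}` and then
`K(s₀) × K(s₁)` are in the relation (for `s₀, s₁` in the range of `g`). -/
def StBB : Prop := ∀ (A S : Type) [Finite A] [Finite S] (g : Tre A → S) (Ga : A → S × S → S),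
  (∀ a p, g (Tre.mk a p) = Ga a (g p.1, g p.2)) → ∀ j,
  bT g (j + 1) ≤ bT g j ∧ ZD (bT g j) ∧
  (∀ a, CE (@instTopologicalSpaceProd _ _ (bT g j) (bT g j)) (bT g j) (Tre.mk a)) ∧
  (∀ K : Set S, IsClosed[bT g j] (g ⁻¹' K) → ∀ a, ∃ (k : ℕ) (K₀ K₁ : Fin k → Set S),
    (∀ q, IsClosed[bT g j] (g ⁻¹' (K₀ q))) ∧ (∀ q, IsClosed[bT g j] (g ⁻¹' (K₁ q))) ∧
    g ⁻¹' K ∩ range (Tre.mk a) = ⋃ q, Tre.mk a '' ((g ⁻¹' (K₀ q)) ×ˢ (g ⁻¹' (K₁ q))))

/-! ## Names -/

/-- labels of names -/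
inductive Lab (S : Type) : Type 1
  | base (M : ℕ) (K : Set S) : Lab S
  | cl (M : ℕ) (s : S) (j : Ordinal.{0}) : Lab S
  | dd (m : ℕ) (L : ℕ → TT S m) (x : ℕ) (j : Ordinal.{0}) : Lab S

/-- height of a label -/
def Lab.ht {S : Type} : Lab S → ℕ
  | .base M _ => M
  | .cl M _ _ => M
  | .dd m _ _ _ => m + 1

/-- order of labels -/
inductive Lab.Le {S : Type} : Lab S → Lab S → Prop
  | base (M : ℕ) (K : Set S) : Lab.Le (.base M K) (.base M K)
  | cl (M : ℕ) (s : S) (j j' : Ordinal.{0}) : j ≤ j' → Lab.Le (.cl M s j) (.cl M s j')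
  | dd (m : ℕ) (L L' : ℕ → TT S m) (x x' : ℕ) (j j' : Ordinal.{0}) : Dom (TT.Le m) L L' → x ≤ x' → j ≤ j' →
      Lab.Le (.dd m L x j) (.dd m L' x' j')

/-- names: finite forests of labels -/
abbrev Nm (S : Type) : Type 1 := Fo (Lab S) Empty

/-- the order of names -/
def Nm.Emb {S : Type} (N N' : Nm S) : Prop := Fo.Emb Lab.Le (fun _ _ => True) Lab.ht N N'

/-- good names of height at least `h` and stage below `i` -/
def Good {S : Type} (n : ℕ) (ok : ℕ → Set S → Prop) : Nm S → ℕ → Ordinal.{0} → Prop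
  | .nil, _, _ => True
  | .leaf a _, _, _ => a.elim
  | .cons (.base M K) kids rest, h, i =>
      h ≤ M ∧ 1 ≤ M ∧ M ≤ n ∧ ok M K ∧ kids = .nil ∧ Good n ok rest h i
  | .cons (.cl M _ j) kids rest, h, i =>
      h ≤ M ∧ 1 ≤ M ∧ M ≤ n ∧ j < i ∧ Good n ok kids 0 j ∧ Good n ok rest h i
  | .cons (.dd m _ _ j) kids rest, h, i =>
      h ≤ m + 1 ∧ m + 1 ≤ n ∧ j < i ∧ Good n ok kids (m + 1) j ∧ Good n ok rest h i

/-- value of a name, for given stage topologies -/
def val {A S : Type} (g : Tre A → S) (τ : Ordinal.{0} → ℕ → TopologicalSpace (Tre A)) :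
    Nm S → Set (Tre A)
  | .nil => univ
  | .leaf a _ => a.elim
  | .cons (.base _ K) _ rest => g ⁻¹' K ∩ val g τ rest
  | .cons (.cl M s j) kids rest => closure[τ j M] (g ⁻¹' {s} ∩ val g τ kids) ∩ val g τ rest
  | .cons (.dd m L x j) kids rest =>
      iter (dL (τ j) g m L) (val g τ kids) (ω ^ (x : Ordinal.{0})) ∩ val g τ rest

/-- admissible base sets of height `M` -/
def okb {A S : Type} (n : ℕ) (g : Tre A → S) (M : ℕ) (K : Set S) : Prop := IsClosed[bT g (n - M)] (g ⁻¹' K)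

/-- the stage topologies -/
noncomputable def stg {A S : Type} (n : ℕ) (g : Tre A → S) (i : Ordinal.{0}) : ℕ → TopologicalSpace (Tre A) :=
  fun M => nt {F | ∃ N : Nm S, Good n (okb n g) N (M + 1) i ∧
    F = val g (fun j => if _h : j < i then stg n g j else fun _ => ⊤) N}
termination_by i

/-- good names for `n, g` -/
abbrev GN {A S : Type} (n : ℕ) (g : Tre A → S) (N : Nm S) (h : ℕ) (i : Ordinal.{0}) : Prop :=
  Good n (okb n g) N h i

/-- value of a name in the stage topologies -/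
noncomputable abbrev vl {A S : Type} (n : ℕ) (g : Tre A → S) (N : Nm S) : Set (Tre A) := val g (stg n g) N

/-- **SU** unfolding of the stage topologies and monotonicity of `Good` and `stg` -/
def StSU : Prop := ∀ (A S : Type) [Finite A] [Finite S] (n : ℕ) (g : Tre A → S),
  (∀ i M, stg n g i M = nt {F | ∃ N : Nm S, GN n g N (M + 1) i ∧ F = vl n g N}) ∧
  (∀ N h h' i i', h' ≤ h → i ≤ i' → GN n g N h i → GN n g N h' i') ∧
  (∀ N i, GN n g N 0 i → GN n g N 1 i) ∧
  (∀ i i' M, i ≤ i' → stg n g i' M ≤ stg n g i M) ∧ (∀ i M, stg n g i M ≤ stg n g i (M + 1)) ∧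
  (∀ i M, M ≤ n → stg n g i M ≤ bT g (n - M)) ∧ (∀ i M, n ≤ M → stg n g i M = nt ∅) ∧
  (∀ N i M, GN n g N (M + 1) i → IsOpen[stg n g i M] (vl n g N)) ∧
  (∀ N N' h i, GN n g N h i → GN n g N' h i → ∃ N'', GN n g N'' h i ∧ vl n g N'' = vl n g N ∩ vl n g N')

/-- the properties of one stage -/
def StageOK {A S : Type} (n : ℕ) (g : Tre A → S) (i : Ordinal.{0}) : Prop :=
  Tow (stg n g i) ∧ Fib (stg n g i) g ∧ ∀ (a : A) (M : ℕ), CE (prodT (stg n g i) (stg n g i) M) (stg n g i M) (Tre.mk a)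

/-- closedness and splitting of a good name -/
def NameOK {A S : Type} (n : ℕ) (g : Tre A → S) (N : Nm S) (h : ℕ) (i : Ordinal.{0}) : Prop :=
  IsClosed[stg n g i h] (vl n g N) ∧
  ∀ a : A, ∃ (k : ℕ) (N₀ N₁ : Fin k → Nm S), (∀ q, GN n g (N₀ q) h i ∧ GN n g (N₁ q) h i) ∧
    vl n g N ∩ range (Tre.mk a) = ⋃ q, Tre.mk a '' (vl n g (N₀ q) ×ˢ vl n g (N₁ q))

/-- **SA (4.1, 4.2)** names of stage below `i`, if all stages below `i` are fine. Induction on the name (for all `h, i`).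
`base`: BB and SU (`stg i h ≤ stg i M ≤ bT (n-M)`). `cl`: SC with the topology `stg j M` (range of `mk a` clopen). `dd`: IL, ZM for
closedness, SD for splitting. `cons .. rest`: intersection of the two splittings (products intersect to products; names
intersect by concatenation, SU last clause). -/
def StSA : Prop := ∀ (A S : Type) [Finite A] [Finite S] (n : ℕ) (g : Tre A → S) (Ga : A → S × S → S),
  Hyp n g Ga → ∀ (N : Nm S) (h : ℕ) (i : Ordinal.{0}), (∀ j < i, StageOK n g j) → GN n g N h i → NameOK n g N h i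

/-- **SB (4.2)** stage `i` is fine if all its names are: NT (zero dimensional since the generating root sets are closed in the
coarser topology `stg i (M+1)`; splitting into open sets gives the clopen embedding), fibres by `Hyp.cont` and SU. -/
def StSB : Prop := ∀ (A S : Type) [Finite A] [Finite S] (n : ℕ) (g : Tre A → S) (Ga : A → S × S → S),
  Hyp n g Ga → ∀ (i : Ordinal.{0}), (∀ (N : Nm S) (h : ℕ), GN n g N h i → NameOK n g N h i) → StageOK n g i

/-- **SG** all stages and all names are fine (from SA, SB by induction on `i`) -/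
def StSG : Prop := ∀ (A S : Type) [Finite A] [Finite S] (n : ℕ) (g : Tre A → S) (Ga : A → S × S → S),
  Hyp n g Ga → (∀ i, StageOK n g i) ∧ ∀ (N : Nm S) (h : ℕ) (i : Ordinal.{0}), GN n g N h i → NameOK n g N h i

/-- **SO (4.3)** soundness of the order of names. Induction on `N'` inside induction on `N`. MATCH: monotone in the kids
(ZA, `closure_mono`), antitone in `L` (ZA), in `x` (IT), in the stage (ZF, SU). SKIP of `dd`: `iter d B α ⊆ B`. SKIP of `cl M' s' j'`
for a tree `t` of height `h ≥ M'` found in the kids (good of stage `< j'`): the stage of `t` is `< j'` (or `t` is `base`), so the value of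
`t` is closed for `stg j' M'` and contains the kids' value, hence the closure. -/
def StSO : Prop := ∀ (A S : Type) [Finite A] [Finite S] (n : ℕ) (g : Tre A → S) (Ga : A → S × S → S),
  Hyp n g Ga → ∀ (N N' : Nm S) (h h' : ℕ) (i i' : Ordinal.{0}), GN n g N h i → GN n g N' h' i' →
    Nm.Emb N N' → vl n g N' ⊆ vl n g N

/-- **LW** labels of bounded height are well quasi ordered (TB, ordinals and `ℕ` are well ordered, `S` finite) -/
def StLW : Prop := ∀ (S : Type) [Finite S] (n : ℕ), (∀ a : Lab S, Lab.Le a a) ∧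
  (∀ a b c : Lab S, Lab.Le a b → Lab.Le b c → Lab.Le a c) ∧ (∀ a b : Lab S, Lab.Le a b → a.ht = b.ht) ∧
  ∀ f : ℕ → Lab S, (∀ i, (f i).ht ≤ n) → ∃ i j, i < j ∧ Lab.Le (f i) (f j)

/-- **NV (4.4)** values of good names are well quasi ordered by reverse inclusion, also together with sequences of terms.
GW with `A = Empty` (good names have all heights `≤ n`), LW, SO; then the product of two well quasi preorders. -/
def StNV : Prop := ∀ (A S : Type) [Finite A] [Finite S] (n : ℕ) (g : Tre A → S) (Ga : A → S × S → S),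
  Hyp n g Ga → ∀ (f : ℕ → Nm S), (∀ k, ∃ h i, GN n g (f k) h i) →
    (∃ k l, k < l ∧ vl n g (f l) ⊆ vl n g (f k)) ∧
    ∀ (m : ℕ) (L : ℕ → ℕ → TT S m), ∃ k l, k < l ∧ Dom (TT.Le m) (L k) (L l) ∧ vl n g (f l) ⊆ vl n g (f k)

/-- **CN (4.5)** countability. Let `i₀` be from EC for `stg n g`. Downward induction on `h` from `n + 1` (only `nil` is good): all
values of good names of height `≥ h` are closed for `stg i₀ h`, which is second countable (NT, SU) by the case `h + 1`; CT, NV. -/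
def StCN : Prop := ∀ (A S : Type) [Finite A] [Finite S] (n : ℕ) (g : Tre A → S) (Ga : A → S × S → S),
  Hyp n g Ga → {F | ∃ N h i, GN n g N h i ∧ F = vl n g N}.Countable

/-- **PL (4.5)** all stage topologies are Polish (PR, NT, CN; downward induction on `M` from `n`): `stg i M = stg i (M+1) ⊓` the topology
generated by the countable family of all `{t | t.sub u ∈ vl N}`, `N` good of height `≥ M+1`, closed for `stg i (M+1)`. -/
def StPL : Prop := ∀ (A S : Type) [Finite A] [Finite S] (n : ℕ) (g : Tre A → S) (Ga : A → S × S → S),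
  Hyp n g Ga → ∀ i M, @PolishSpace _ (stg n g i M)

/-! ## The rich tower -/

/-- pieces of height at least `h`, all stages -/
inductive Pc {A S : Type} (n : ℕ) (g : Tre A → S) (h : ℕ) : Set (Tre A) → Prop
  | nm (N : Nm S) (i : Ordinal.{0}) : GN n g N h i → Pc n g h (vl n g N)
  | mk (a : A) (C₀ C₁ : Set (Tre A)) : Pc n g h C₀ → Pc n g h C₁ → Pc n g h (Tre.mk a '' (C₀ ×ˢ C₁))
  | union (C₀ C₁ : Set (Tre A)) : Pc n g h C₀ → Pc n g h C₁ → Pc n g h (C₀ ∪ C₁)
  | empty : Pc n g h ∅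

/-- the classes `P M` of the rich tower; `P 0` also contains the fibres of `g` -/
def PP {A S : Type} (n : ℕ) (g : Tre A → S) : ℕ → Set (Set (Tre A))
  | 0 => {F | ∃ c : S → Set (Tre A), (∀ s, Pc n g 0 (c s)) ∧ F = ⋃ s, c s ∩ g ⁻¹' {s}}
  | (M + 1) => {F | Pc n g (M + 1) F}

/-- the final topologies: the stage `i₀` for `M ≤ n`, indiscrete for `M > n` -/
@[reducible] noncomputable def fT {A S : Type} (n : ℕ) (g : Tre A → S) (i₀ : Ordinal.{0}) (M : ℕ) : TopologicalSpace (Tre A) :=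
  if M ≤ n then stg n g i₀ M else ⊤

/-- rich systems -/
structure IsSys {X S : Type} (n : ℕ) (τ : ℕ → TopologicalSpace X) (g : X → S) (P : ℕ → Set (Set X)) : Prop where
  tow : Tow τ
  fib : Fib τ g
  top : ∀ M, n < M → τ M = ⊤
  anti : ∀ M, P (M + 1) ⊆ P M
  cl : ∀ M, M ≤ n → ∀ B ∈ P M, IsClosed[τ M] B
  op : ∀ M, M ≤ n → ∀ B ∈ P (M + 1), IsOpen[τ M] B
  op0 : ∀ B ∈ P 0, IsOpen[τ 0] B
  basis : ∀ M, M ≤ n → ∀ (x : X) (U : Set X), IsOpen[τ M] U → x ∈ U → ∃ O ∈ P (M + 1), x ∈ O ∧ O ⊆ U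
  cnt : ∀ M, (P M).Countable
  univ : ∀ M, Set.univ ∈ P M
  empty : ∀ M, ∅ ∈ P M
  inter : ∀ M, ∀ B ∈ P M, ∀ B' ∈ P M, B ∩ B' ∈ P M
  union : ∀ M, ∀ B ∈ P M, ∀ B' ∈ P M, B ∪ B' ∈ P M
  clo : ∀ M, M ≤ n + 1 → ∀ B ∈ P 0, closure[τ M] B ∈ P M
  fibP : ∀ B ∈ P 0, ∀ s, B ∩ g ⁻¹' {s} ∈ P 0
  dd : ∀ m, m + 1 ≤ n → ∀ (L : ℕ → TT S m) (x : ℕ), ∀ B ∈ P (m + 1),
    iter (dL τ g m L) B (ω ^ (x : Ordinal.{0})) ∈ P (m + 1)
  pol : ∀ M, M ≤ n → @PolishSpace X (τ M)

/-- **PI (4.7)** closure properties of the pieces: finite intersections, complete list of what is used -/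
def StPI : Prop := ∀ (A S : Type) [Finite A] [Finite S] (n : ℕ) (g : Tre A → S) (Ga : A → S × S → S),
  Hyp n g Ga → ∀ h : ℕ, (∀ B B', Pc n g h B → Pc n g h B' → Pc n g h (B ∩ B')) ∧
    (∀ B, Pc n g (h + 1) B → Pc n g h B) ∧ {B | Pc n g h B}.Countable ∧
    (∀ B, Pc n g h B → ∀ u, Pc n g h {t | t.sub u ∈ B}) ∧
    (∀ B, Pc n g h B → ∃ i, IsClosed[stg n g i h] B) ∧ (∀ B, Pc n g (h + 1) B → ∃ i, IsOpen[stg n g i h] B) ∧
    (∀ (u : List Bool) (a : A), Pc n g h {t | t u = a})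

/-- **RS (4.6, 4.7)** the rich system. `i₀` from EC. `clo` for `M ≤ n`: `closure (c s ∩ g ⁻¹' {s})` by induction on the piece `c s`: a name
`N`: the name `cl M s j` with kids `N`, `j ≥ i₀` beyond the stages of `N` (`M = 0`: such a set is closed already); `mk a`: SC; union. `M = n + 1`: the
closure is `∅` or `univ`. `dd`: names: `dd m L x j`; unions: AD for `x ≥ 1`, for `x = 0` use `d_L (C ∪ C') = ⋂ i, (Hom C ∪ Hom C')` and FN;
more simply use SD-like splitting; `mk a`: EZ, RD, PZ. -/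
def StRS : Prop := ∀ (A S : Type) [Finite A] [Finite S] [Nonempty A] (n : ℕ) (g : Tre A → S) (Ga : A → S × S → S),
  Hyp n g Ga → ∃ i₀, IsSys n (fT n g i₀) g (PP n g) ∧ fT n g i₀ n = nt ∅ ∧ ∀ i, i₀ ≤ i → stg n g i = stg n g i₀

/-! ## Finite type (section 5) -/

/-- exponent of a set for a derivation: least `x` with `iter d B (ω ^ x) = ∅` -/
noncomputable def ex {X : Type} (d : Set X → Set X) (B : Set X) : WithTop Ordinal.{0} :=
  open Classical in
  if ∃ x : Ordinal.{0}, iter d B (ω ^ x) = ∅ then ((sInf {x : Ordinal.{0} | iter d B (ω ^ x) = ∅} : Ordinal.{0}) : WithTop Ordinal.{0}) else ⊤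

/-- **EX** elementary facts on `ex` -/
def StEX : Prop := ∀ (X : Type) (d : Set X → Set X), (∀ A B, A ⊆ B → d A ⊆ d B) → (∀ B, d B ⊆ B) →
  (∀ B (x : Ordinal.{0}), ex d B ≤ x ↔ iter d B (ω ^ x) = ∅) ∧
  (∀ A B, A ⊆ B → ex d A ≤ ex d B) ∧
  (∀ d' : Set X → Set X, (∀ B, d' B ⊆ d B) → ∀ B, ex d' B ≤ ex d B) ∧ (∀ B, d B = ∅ → ex d B = 0)

/-- **FO** an antitone map from a well quasi order to a linear well order has finite range -/
def StFO : Prop := ∀ (Q : Type 1) (r : Q → Q → Prop) (E : Type 1) [LinearOrder E] [WellFoundedLT E] (φ : Q → E),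
  WellQuasiOrdered r → (∀ a b, r a b → φ b ≤ φ a) → (range φ).Finite

/-- **FT2 (5.2)** finitely many exponents over all pieces of the rich tower. Names: NV and FO. Then induction on the piece:
`E` = finite set of the exponents of names together with `0, 1, ⊤`; unions by AD (`max`, or `0/1`); `mk a` by EZ, RD, PZ
(`max` over finitely many `L'` of `min`). -/
def StFT2 : Prop := ∀ (A S : Type) [Finite A] [Finite S] [Nonempty A] (n : ℕ) (g : Tre A → S) (Ga : A → S × S → S),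
  Hyp n g Ga → ∀ i₀, (∀ i, i₀ ≤ i → stg n g i = stg n g i₀) → ∀ m, m + 1 ≤ n →
    {v | ∃ (L : ℕ → TT S m) (B : Set (Tre A)), Pc n g (m + 1) B ∧ v = ex (dL (fT n g i₀) g m L) B}.Finite

/-- **FT3 (5.3)** the gap argument (abstract). -/
def StFT3 : Prop := ∀ (X S : Type) [Finite S] (n : ℕ) (τ : ℕ → TopologicalSpace X) (g : X → S) (P : ℕ → Set (Set X)),
  IsSys n τ g P → ∀ m, m + 1 ≤ n →
    {v | ∃ (L : ℕ → TT S m) (B : Set X), B ∈ P (m + 1) ∧ v = ex (dL τ g m L) B}.Finite →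
    ∃ N : ℕ, ∀ (L : ℕ → TT S m), ∀ B ∈ P (m + 1),
      iter (dL τ g m L) B (ω ^ (N : Ordinal.{0})) ⊆ dL τ g m L (iter (dL τ g m L) B (ω ^ (N : Ordinal.{0})))

/-- finite type -/
def FinType {X S : Type} (n : ℕ) (τ : ℕ → TopologicalSpace X) (g : X → S) (P : ℕ → Set (Set X)) (N : ℕ) : Prop :=
  ∀ m, m + 1 ≤ n → ∀ (L : ℕ → TT S m), ∀ B ∈ P (m + 1),
    iter (dL τ g m L) B (ω ^ (N : Ordinal.{0})) ⊆ dL τ g m L (iter (dL τ g m L) B (ω ^ (N : Ordinal.{0})))

/-- **FT4** summary of part 4: the rich system of finite type on trees, top topology the product topology, cylinders -/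
def StFT4 : Prop := ∀ (A S : Type) [Finite A] [Finite S] [Nonempty A] (n : ℕ) (g : Tre A → S) (Ga : A → S × S → S),
  Hyp n g Ga → ∃ (τ : ℕ → TopologicalSpace (Tre A)) (P : ℕ → Set (Set (Tre A))) (N : ℕ),
    IsSys n τ g P ∧ FinType n τ g P N ∧ 1 ≤ N ∧
    τ n = @Pi.topologicalSpace (List Bool) (fun _ => A) (fun _ => ⊥) ∧
    ∀ (M : ℕ) (u : List Bool) (a : A), {t : Tre A | t u = a} ∈ P M

end Pool.Agent.Helper24.WH
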