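import Pool.Agent.Helper24.WH.St4

/-!
# PROJECT WH (MP_76577a_lc), part 5: codes and ranks (section 6 of the paper proof), rich structures
-/

set_option autoImplicit false

namespace Pool.Agent.Helper24.WH

open Set TopologicalSpace Topology
open Ordinal hiding univ

/-! ## Codes -/

/-- codes of height `m`: `Cd 0 = {0 < 1}`, `Cd (m+1)` = lists of pairs (code of height `m`, natural number) -/
def Cd : ℕ → Type
  | 0 => Bool
  | (m + 1) => List (Cd m ×ₗ ℕ)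

/-- a code of height `m+1` as a list -/
@[reducible] def Cd.L {m : ℕ} (l : Cd (m + 1)) : List (Cd m ×ₗ ℕ) := l

/-- a list as a code of height `m+1` -/
@[reducible] def Cd.of {m : ℕ} (l : List (Cd m ×ₗ ℕ)) : Cd (m + 1) := l

/-- a code of height `0` as a Boolean -/
@[reducible] def Cd.B (c : Cd 0) : Bool := c

/-- lexicographic linear order on codes -/
noncomputable instance Cd.lo : (m : ℕ) → LinearOrder (Cd m)
  | 0 => inferInstanceAs (LinearOrder Bool)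
  | (m + 1) =>
    haveI := Cd.lo m
    inferInstanceAs (LinearOrder (List (Cd m ×ₗ ℕ)))

/-- the zero code -/
def Cd.bot : (m : ℕ) → Cd m
  | 0 => false
  | (_ + 1) => []

/-- well formed codes: non increasing lists of pairs (nonzero well formed code, number) -/
def Cd.wf : (m : ℕ) → Cd m → Prop
  | 0, _ => True
  | (m + 1), l => List.Pairwise (fun a b : Cd m ×ₗ ℕ => b ≤ a) (Cd.L l) ∧
      ∀ e ∈ Cd.L l, Cd.wf m (ofLex e).1 ∧ (ofLex e).1 ≠ Cd.bot m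

/-- valid codes -/
def Cd.vd : (m : ℕ) → Cd m → Prop
  | 0, c => Cd.B c = true
  | (m + 1), l => ∃ (l₀ : List (Cd m ×ₗ ℕ)) (c : Cd m), Cd.L l = l₀ ++ [toLex (c, 0)] ∧ Cd.vd m c

/-- the code `l₀` extended by `(c, x)` -/
def Cd.ext {m : ℕ} (l₀ : Cd (m + 1)) (c : Cd m) (x : ℕ) : Cd (m + 1) :=
  Cd.of (Cd.L l₀ ++ [toLex (c, x)])

/-- embedding of heights -/
def Cd.up : (m : ℕ) → Cd m → Cd (m + 1)
  | 0, c => if Cd.B c = true then Cd.of [toLex (c, 0)] else Cd.of []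
  | (m + 1), l => Cd.of ((Cd.L l).map (fun e => (toLex (Cd.up m (ofLex e).1, (ofLex e).2) : Cd (m + 1) ×ₗ ℕ)))

/-- ordinal of a code: `Σ ω ^ (ω * (-1 + π c) + x)` -/
noncomputable def Cd.pi : (m : ℕ) → Cd m → Ordinal.{0}
  | 0, c => if Cd.B c = true then 1 else 0
  | (m + 1), l => ((Cd.L l).map
      (fun e => ω ^ (ω * (Cd.pi m (ofLex e).1 - 1) + ((ofLex e).2 : Ordinal.{0})))).sum

/-- **CA** combinatorics of codes I (all on well formed codes) -/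
def StCA : Prop := ∀ m : ℕ, Countable (Cd m) ∧ (∀ c : Cd m, Cd.bot m ≤ c) ∧ Cd.wf m (Cd.bot m) ∧ ¬ Cd.vd m (Cd.bot m) ∧
  (∀ c c' : Cd m, Cd.wf m c → Cd.wf m c' → c < c' → ∃ r, Cd.wf m r ∧ Cd.vd m r ∧ c < r ∧ r ≤ c') ∧
  (∀ (l : Cd (m + 1)) (c : Cd m) (x : ℕ), Cd.wf (m + 1) (l.ext c x) → Cd.wf (m + 1) l ∧ Cd.wf m c ∧ c ≠ Cd.bot m ∧
    l < l.ext c x) ∧
  (∀ (l : Cd (m + 1)) (c c' : Cd m) (x x' : ℕ), Cd.wf (m + 1) (l.ext c x) → Cd.wf m c' → c' ≠ Cd.bot m →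
    (toLex (c', x') : Cd m ×ₗ ℕ) ≤ toLex (c, x) → Cd.wf (m + 1) (l.ext c' x')) ∧
  (∀ (l : Cd (m + 1)) (c c' : Cd m) (x x' : ℕ), (toLex (c', x') : Cd m ×ₗ ℕ) < toLex (c, x) → l.ext c' x' < l.ext c x) ∧
  (∀ (l : Cd (m + 1)), l ≠ Cd.bot (m + 1) → ∃ l₀ c x, l = Cd.ext l₀ c x) ∧
  (∀ (l l' : Cd (m + 1)), l < l' →
    (∃ (e : Cd m ×ₗ ℕ) (r : List (Cd m ×ₗ ℕ)), l'.L = l.L ++ e :: r) ∨
    (∃ (p : List (Cd m ×ₗ ℕ)) (e e' : Cd m ×ₗ ℕ) (r r' : List (Cd m ×ₗ ℕ)),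
      l.L = p ++ e :: r ∧ l'.L = p ++ e' :: r' ∧ e < e'))

/-- **CB** combinatorics of codes II: the ordinal map. Strictly monotone on well formed codes (Cantor normal forms:
`Σ` of a non increasing list with head exponent `< e'` is `< ω ^ e'`; induct along the common prefix), values below `ε₀`
(closed under `+`, `*`, `ω ^ ·`), compatible with `up`; `up` is an order embedding preserving wf, validity, zero; its range is an
initial segment of the well formed codes. -/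
def StCB : Prop := ∀ m : ℕ, (∀ c c' : Cd m, Cd.wf m c → Cd.wf m c' → c < c' → Cd.pi m c < Cd.pi m c') ∧
  (∀ c : Cd m, Cd.pi m c < Ordinal.epsilon 0) ∧ Cd.pi m (Cd.bot m) = 0 ∧
  (∀ c : Cd m, Cd.wf m c → c ≠ Cd.bot m → 1 ≤ Cd.pi m c) ∧
  (∀ c : Cd m, Cd.pi (m + 1) (Cd.up m c) = Cd.pi m c) ∧
  (∀ c c' : Cd m, c < c' ↔ Cd.up m c < Cd.up m c') ∧
  (∀ c : Cd m, Cd.wf m c → Cd.wf (m + 1) (Cd.up m c)) ∧ (∀ c : Cd m, Cd.vd m c ↔ Cd.vd (m + 1) (Cd.up m c)) ∧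
  Cd.up m (Cd.bot m) = Cd.bot (m + 1) ∧
  (∀ (c : Cd m) (c' : Cd (m + 1)), Cd.wf m c → Cd.wf (m + 1) c' → c' ≤ Cd.up m c → ∃ c₀ : Cd m, Cd.wf m c₀ ∧ c' = Cd.up m c₀) ∧
  WellFounded (fun c c' : {c : Cd m // Cd.wf m c} => c.1 < c'.1)

/-! ## Rank operators -/

/-- last code of a list -/
def lastc {m : ℕ} (l : List (Cd m ×ₗ ℕ)) : Cd m :=
  match l.getLast? with
  | none => Cd.bot m
  | some e => (ofLex e).1

/-- derivation attached to a code, given the operators one level below -/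
def delOf {X : Type} (τ : TopologicalSpace X) (m : ℕ) (z : Cd m → Bool → Set X → Set X) (c : Cd m) (Y : Set X) : Set X :=
  Y ∩ ⋂ (c' : Cd m) (_ : Cd.wf m c' ∧ Cd.vd m c' ∧ c' ≤ c) (s : Bool), HomOp τ (z c' s) Y

/-- fold of the derivations along a list -/
noncomputable def foldV {X : Type} (τ : TopologicalSpace X) (m : ℕ) (z : Cd m → Bool → Set X → Set X)
    (l : List (Cd m ×ₗ ℕ)) (B : Set X) : Set X :=
  l.foldl (fun Y e => iter (delOf τ m z (ofLex e).1) Y (ω ^ ((ofLex e).2 : Ordinal.{0}))) B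

/-- the operators `V` and `Z` of height `m` -/
noncomputable def VZ {X : Type} (τ : ℕ → TopologicalSpace X) (f : X → Bool) :
    (m : ℕ) → (Cd m → Set X → Set X) × (Cd m → Bool → Set X → Set X)
  | 0 => (fun c B => {x ∈ B | Cd.B c = false}, fun _ s B => B ∩ f ⁻¹' {s})
  | (m + 1) => (fun l B => foldV (τ (m + 1)) m (VZ τ f m).2 l.L B,
      fun l s B => HomOp (τ (m + 1)) ((VZ τ f m).2 (lastc l.L) s)
        (foldV (τ (m + 1)) m (VZ τ f m).2 (l.L.dropLast) B))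

/-- `V_c` at height `m` -/
noncomputable def Vo {X : Type} (τ : ℕ → TopologicalSpace X) (f : X → Bool) (m : ℕ) (c : Cd m) (B : Set X) : Set X :=
  (VZ τ f m).1 c B

/-- `Z^{c,s}` at height `m` -/
noncomputable def Zo {X : Type} (τ : ℕ → TopologicalSpace X) (f : X → Bool) (m : ℕ) (c : Cd m) (s : Bool) (B : Set X) :
    Set X := (VZ τ f m).2 c s B

/-- the derivation `del_c` for `τ (m+1)`, `c` a code of height `m` -/
noncomputable def del {X : Type} (τ : ℕ → TopologicalSpace X) (f : X → Bool) (m : ℕ) (c : Cd m) (Y : Set X) : Set X :=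
  delOf (τ (m + 1)) m (Zo τ f m) c Y

/-- **UZ** unfolding rules (simple) -/
def StUZ : Prop := ∀ (X : Type) (τ : ℕ → TopologicalSpace X) (f : X → Bool),
  (∀ B, Vo τ f 0 (Cd.bot 0) B = B) ∧ (∀ c B, Cd.vd 0 c → Vo τ f 0 c B = ∅) ∧
  (∀ c s B, Zo τ f 0 c s B = B ∩ f ⁻¹' {s}) ∧
  (∀ m B, Vo τ f (m + 1) (Cd.bot (m + 1)) B = B) ∧ (∀ m B, Vo τ f m (Cd.bot m) B = B) ∧
  (∀ m (l : Cd (m + 1)) c (x : ℕ) B, Vo τ f (m + 1) (l.ext c x) B = iter (del τ f m c) (Vo τ f (m + 1) l B) (ω ^ (x : Ordinal.{0}))) ∧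
  (∀ m (l r : List (Cd m ×ₗ ℕ)) B, Vo τ f (m + 1) (Cd.of (l ++ r)) B = Vo τ f (m + 1) (Cd.of r) (Vo τ f (m + 1) (Cd.of l) B)) ∧
  (∀ m (e : Cd m ×ₗ ℕ) (r : List (Cd m ×ₗ ℕ)) B, Vo τ f (m + 1) (Cd.of (e :: r)) B =
    Vo τ f (m + 1) (Cd.of r) (iter (del τ f m (ofLex e).1) B (ω ^ ((ofLex e).2 : Ordinal.{0})))) ∧
  (∀ m (l : Cd (m + 1)) c (x : ℕ) s B, Zo τ f (m + 1) (l.ext c x) s B =
    HomOp (τ (m + 1)) (Zo τ f m c s) (Vo τ f (m + 1) l B))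

/-- **RA (6.1)** basic properties of the rank operators, for arbitrary topologies and arbitrary sets `B`; no richness.
Induction on `m`. (K): `c < c'` wf: if `c'` is valid put `c'' = c'`, otherwise take a valid `c''`, `c < c'' ≤ c'` (CA); `H = HomOp (Zo c'' s) Y` satisfies
`H ⊆ closure (Zo c'' s H) ⊆ closure (Zo c''' s' H)` for every valid `c''' < c''` by (b),(c) at height `m`, so `H` is a fixpoint of `del c₁` for
every `c₁ < c''`; hence `del c' Y ⊆ H` is inside every iterate of every composition of such `del c₁` on `Y`.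
(a): along the common prefix; `e₁ ≥ e₂ ≥ ..` all `< e'`: first the entries with the same code (exponents add up to less than
`ω ^ x'`), then the entries with smaller codes by (K) applied to the last step. (d): `x ≥ 1`: `ω ^ x` is the supremum of
`ω ^ (x-1) * k`; `x = 0`, `c` not valid: `del c Y = ⋂` over valid `c' < c` of `Y' = Vo (l.ext c' 0) B`. -/
def StRA : Prop := ∀ (X : Type) (τ : ℕ → TopologicalSpace X) (f : X → Bool) (m : ℕ),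
  (∀ c (A B : Set X), A ⊆ B → Vo τ f m c A ⊆ Vo τ f m c B) ∧ (∀ c (B : Set X), Vo τ f m c B ⊆ B) ∧
  (∀ c s (A B : Set X), A ⊆ B → Zo τ f m c s A ⊆ Zo τ f m c s B) ∧ (∀ c s (B : Set X), Zo τ f m c s B ⊆ B) ∧
  (∀ c (A B : Set X), A ⊆ B → del τ f m c A ⊆ del τ f m c B) ∧ (∀ c (B : Set X), del τ f m c B ⊆ B) ∧
  (∀ c c' (B : Set X), c ≤ c' → del τ f m c' B ⊆ del τ f m c B) ∧
  (∀ c c' (B : Set X), Cd.wf m c → Cd.wf m c' → c ≤ c' → Vo τ f m c' B ⊆ Vo τ f m c B) ∧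
  (∀ r c s (B : Set X), Cd.wf m r → Cd.vd m r → Cd.wf m c → c < r → Zo τ f m r s B ⊆ Vo τ f m c B) ∧
  (∀ r (B : Set X), Cd.wf m r → Cd.vd m r → Vo τ f m r B = Zo τ f m r false B ∩ Zo τ f m r true B) ∧
  (∀ c (B : Set X), Cd.wf m c → ¬ Cd.vd m c → c ≠ Cd.bot m → ∀ x, (∀ c', Cd.wf m c' → c' < c → x ∈ Vo τ f m c' B) →
    x ∈ Vo τ f m c B) ∧
  (∀ r s (B : Set X), Cd.wf m r → Cd.vd m r →
    HomOp (τ (m + 1)) (Zo τ f m r s) B ⊆ closure[τ (m + 1)] (Zo τ f m r s (HomOp (τ (m + 1)) (Zo τ f m r s) B))) ∧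
  (∀ r c s (B : Set X), Cd.wf m r → Cd.vd m r → Cd.wf m c → c < r →
    HomOp (τ (m + 1)) (Zo τ f m r s) B ⊆ del τ f m c (HomOp (τ (m + 1)) (Zo τ f m r s) B)) ∧
  (∀ r r' s s' (B : Set X), Cd.wf m r → Cd.vd m r → Cd.wf m r' → Cd.vd m r' → r < r' →
    Zo τ f m r' s' B ⊆ Zo τ f m r s B)

/-- **RB** locality and closedness in a tower -/
def StRB : Prop := ∀ (X : Type) (τ : ℕ → TopologicalSpace X) (f : X → Bool), Tow τ → (∀ s, Clp (τ 0) (f ⁻¹' {s})) → ∀ m,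
  (∀ c, IsDer (τ m) (Vo τ f m c)) ∧ (∀ c s, IsDer (τ m) (Zo τ f m c s)) ∧ (∀ c, IsDer (τ (m + 1)) (del τ f m c)) ∧
  (∀ c s, IsDer (τ (m + 1)) (HomOp (τ (m + 1)) (Zo τ f m c s)))

/-- **RP (6.2)** representation of the rank operators by terms (`f = h ∘ g`). Class `𝓡` (height `m+1`): operators `P` with `P = id` or
`P B = ⋂ i, Z (m+1) (F i) B` for closed `B`, some `F : ℕ → TT S (m+1)`; closed under countable intersections, and `P ∈ 𝓡` implies `Hom^e ∘ P ∈ 𝓡` (terms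
`node e F`, `leaf e`), so all iterates `iter (dL L) (P B) α`, `α` countable (here `α = ω ^ x`), are in `𝓡`. `Vo (m+1) l` is a finite union of members
of `𝓡` on closed sets, by induction on the list: `x ≥ 1`: AD/UF and the representation of `del c`; `x = 0`: `del c (⋃ P_q B) = ⋂ ⋃ ⋃ Hom^e (P_q B)` (HA) and
FN for `TT S m × Fin k`. `Zo` by HU, HA. `del c` for wf `c ≠ 0`: FN. -/
def StRP : Prop := ∀ (S : Type) [Finite S] (h : S → Bool) (X : Type) (τ : ℕ → TopologicalSpace X) (g : X → S), Tow τ → Fib τ g → ∀ m,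
  (∀ (c : Cd m) (s : Bool), ∃ M : Set (TT S m), M.Finite ∧ ∀ B, IsClosed[τ m] B →
    Zo τ (h ∘ g) m c s B = ⋃ t ∈ M, Z τ g m t B) ∧
  (∀ (c : Cd m) (s : Bool), ∃ M : Set (TT S m), M.Finite ∧ ∀ B, IsClosed[τ (m + 1)] B →
    HomOp (τ (m + 1)) (Zo τ (h ∘ g) m c s) B = ⋃ t ∈ M, hom τ g m t B) ∧
  (∀ c : Cd m, Cd.wf m c → c ≠ Cd.bot m → ∃ C : Set (ℕ → TT S m), C.Finite ∧ ∀ B, IsClosed[τ (m + 1)] B →
    del τ (h ∘ g) m c B = ⋃ L ∈ C, dL τ g m L B ∧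
    ∀ x : Ordinal.{0}, iter (del τ (h ∘ g) m c) B (ω ^ x) = ⋃ L ∈ C, iter (dL τ g m L) B (ω ^ x))

/-! ## Rich structures -/

/-- rich structure for a binary labelling `f` -/
structure IsRich {X : Type} (n : ℕ) (τ : ℕ → TopologicalSpace X) (P : ℕ → Set (Set X)) (f : X → Bool) : Prop where
  tow : Tow τ
  fib : ∀ s, Clp (τ 0) (f ⁻¹' {s})
  top : ∀ M, n < M → τ M = ⊤
  anti : ∀ M, P (M + 1) ⊆ P M
  cl : ∀ M, M ≤ n → ∀ B ∈ P M, IsClosed[τ M] B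
  op : ∀ M, M ≤ n → ∀ B ∈ P (M + 1), IsOpen[τ M] B
  op0 : ∀ B ∈ P 0, IsOpen[τ 0] B
  basis : ∀ M, M ≤ n → ∀ (x : X) (U : Set X), IsOpen[τ M] U → x ∈ U → ∃ O ∈ P (M + 1), x ∈ O ∧ O ⊆ U
  cnt : ∀ M, (P M).Countable
  univ : ∀ M, Set.univ ∈ P M
  empty : ∀ M, ∅ ∈ P M
  inter : ∀ M, ∀ B ∈ P M, ∀ B' ∈ P M, B ∩ B' ∈ P M
  union : ∀ M, ∀ B ∈ P M, ∀ B' ∈ P M, B ∪ B' ∈ P M
  clo : ∀ M, M ≤ n + 1 → ∀ B ∈ P 0, closure[τ M] B ∈ P M
  fP : ∀ B ∈ P 0, ∀ s, B ∩ f ⁻¹' {s} ∈ P 0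
  VP : ∀ m, m ≤ n → ∀ c : Cd m, Cd.wf m c → ∀ B ∈ P m, Vo τ f m c B ∈ P m
  ZP : ∀ m, m ≤ n → ∀ c : Cd m, Cd.wf m c → Cd.vd m c → ∀ s, ∀ B ∈ P m, Zo τ f m c s B ∈ P m
  us : ∀ m, m ≤ n → ∀ r : Cd m, Cd.wf m r → Cd.vd m r → ∃ c : Cd m, Cd.wf m c ∧ c < r ∧
    ∀ B ∈ P m, Vo τ f m c B ⊆ Zo τ f m r false B ∪ Zo τ f m r true B
  tm : ∀ m, m ≤ n → ∃ c : Cd m, Cd.wf m c ∧ ∀ B ∈ P m, Vo τ f m c B = ∅
  pol : @PolishSpace X (τ 0)

/-- **VP** closure of the classes `P` under the rank operators, finite type for `del` (RP, `IsSys.dd`, `IsSys.clo`, UF) -/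
def StVP : Prop := ∀ (S : Type) [Finite S] (h : S → Bool) (X : Type) (n N : ℕ) (τ : ℕ → TopologicalSpace X) (g : X → S)
  (P : ℕ → Set (Set X)), IsSys n τ g P → FinType n τ g P N → 1 ≤ N →
  (∀ m, m ≤ n → ∀ c : Cd m, Cd.wf m c → ∀ B ∈ P m, Vo τ (h ∘ g) m c B ∈ P m) ∧
  (∀ m, m ≤ n → ∀ c : Cd m, Cd.wf m c → Cd.vd m c → ∀ s, ∀ B ∈ P m, Zo τ (h ∘ g) m c s B ∈ P m) ∧
  (∀ m, m + 1 ≤ n → ∀ c : Cd m, Cd.wf m c → ∀ (x : ℕ), ∀ B ∈ P (m + 1),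
    iter (del τ (h ∘ g) m c) B (ω ^ (x : Ordinal.{0})) ∈ P (m + 1)) ∧
  (∀ m, m + 1 ≤ n → ∀ c : Cd m, Cd.wf m c → ∀ B ∈ P (m + 1),
    iter (del τ (h ∘ g) m c) B (ω ^ (N : Ordinal.{0})) ⊆
      del τ (h ∘ g) m c (iter (del τ (h ∘ g) m c) B (ω ^ (N : Ordinal.{0}))))

/-- **BA (6.3)** Baire category: a fixpoint of `del c` has `V_c` dense. A `τ m`-closed set is `G_δ` for `τ (m+1)` (`P (m+1)` is a countable basis
of `τ m` consisting of `τ (m+1)`-closed sets). `B` closed in a Polish space; `Zo c' s B` is dense in `B` for all valid `c' ≤ c`; the countable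
intersection of all these is `Vo c B` (RA (c),(d), CA), so it is dense. -/
def StBA : Prop := ∀ (X S : Type) [Finite S] (n : ℕ) (τ : ℕ → TopologicalSpace X) (g : X → S) (h : S → Bool)
  (P : ℕ → Set (Set X)), IsSys n τ g P → ∀ m, m + 1 ≤ n → ∀ c : Cd m, Cd.wf m c → ∀ B, IsClosed[τ (m + 1)] B →
    B ⊆ del τ (h ∘ g) m c B → B ⊆ closure[τ (m + 1)] (Vo τ (h ∘ g) m c B)

/-- **US (6.4)** uniform stabilisation. Induction on `m`. Height `m+1`, `r = l.ext r' 0`, `c` from height `m` for `r'`: if `c = 0` take `l`, else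
`l.ext c N`. `W = Vo (l.ext c N) B ∈ P (m+1)` is a fixpoint of `del c` (VP), so `Vo m c W` is dense in `W` (BA) and contained in
`Zo r' false W ∪ Zo r' true W`; by HU (with `z W = Zo r' false W ∪ Zo r' true W`, `ι = Bool`) `W ⊆ HomOp (Zo r' false) W ∪ HomOp (Zo r' true) W`. -/
def StUS : Prop := ∀ (X S : Type) [Finite S] (n N : ℕ) (τ : ℕ → TopologicalSpace X) (g : X → S) (h : S → Bool)
  (P : ℕ → Set (Set X)), IsSys n τ g P → FinType n τ g P N → 1 ≤ N →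
  ∀ m, m ≤ n → ∀ r : Cd m, Cd.wf m r → Cd.vd m r → ∃ c : Cd m, Cd.wf m c ∧ c < r ∧
    ∀ B ∈ P m, Vo τ (h ∘ g) m c B ⊆ Zo τ (h ∘ g) m r false B ∪ Zo τ (h ∘ g) m r true B

/-- **TM (6.5)** termination: height 0: the code 1; height `m+1`: `[(c, N)]` with `c` for height `m` (`c ≠ 0` may be assumed), by VP and BA. -/
def StTM : Prop := ∀ (X S : Type) [Finite S] (n N : ℕ) (τ : ℕ → TopologicalSpace X) (g : X → S) (h : S → Bool)
  (P : ℕ → Set (Set X)), IsSys n τ g P → FinType n τ g P N → 1 ≤ N →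
  ∀ m, m ≤ n → ∃ c : Cd m, Cd.wf m c ∧ ∀ B ∈ P m, Vo τ (h ∘ g) m c B = ∅

/-- **RI** from rich systems of finite type to rich structures (VP, US, TM) -/
def StRI : Prop := ∀ (X S : Type) [Finite S] (n N : ℕ) (τ : ℕ → TopologicalSpace X) (g : X → S) (h : S → Bool)
  (P : ℕ → Set (Set X)), IsSys n τ g P → FinType n τ g P N → 1 ≤ N → IsRich n τ P (h ∘ g)

/-- **RX** every point has a rank -/
def StRX : Prop := ∀ (X : Type) (n : ℕ) (τ : ℕ → TopologicalSpace X) (P : ℕ → Set (Set X)) (f : X → Bool), IsRich n τ P f →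
  ∀ m, m ≤ n → ∀ A ∈ P m, ∀ x ∈ A, ∃ (r : Cd m) (s : Bool), Cd.wf m r ∧ Cd.vd m r ∧ x ∉ Vo τ f m r A ∧
    (∀ c, Cd.wf m c → c < r → x ∈ Vo τ f m c A) ∧ x ∈ Zo τ f m r s A ∧ x ∉ Zo τ f m r (!s) A

/-- **HC (6.6)** in a rich structure `HomOp` is one closure: `C = closure (Zo r s B) ∈ P (m+1)` is `τ m`-clopen, so by locality
`Zo r s (B ∩ C) = Zo r s B`. -/
def StHC : Prop := ∀ (X : Type) (n : ℕ) (τ : ℕ → TopologicalSpace X) (P : ℕ → Set (Set X)) (f : X → Bool), IsRich n τ P f →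
  ∀ m, m + 1 ≤ n → ∀ r : Cd m, Cd.wf m r → Cd.vd m r → ∀ s, ∀ B ∈ P (m + 1),
    HomOp (τ (m + 1)) (Zo τ f m r s) B = closure[τ (m + 1)] (Zo τ f m r s B)

/-- shifted tower and classes (padding) -/
@[reducible] def padT {X : Type} (τ : ℕ → TopologicalSpace X) : ℕ → TopologicalSpace X
  | 0 => τ 0
  | (M + 1) => τ M

/-- shifted classes -/
def padP {X : Type} (P : ℕ → Set (Set X)) : ℕ → Set (Set X)
  | 0 => P 0
  | (M + 1) => P M

/-- **PA (9.2)** padding. `Vo (padT τ) f (m+1) (up m c) B = Vo τ f m c B`, the same for `Zo`: `m = 0`: `HomOp (τ 0) (B ↦ B ∩ f ⁻¹ {s}) B = B ∩ f ⁻¹ {s}`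
(clopen), so `del 1 B = ∅`. Induction on `m` by CB (range of `up` = initial segment, validity). Codes outside the range of `up` are above
`up c₀`, `c₀` from `tm`, so their `Vo` and `Zo` are empty. -/
def StPA : Prop := ∀ (X : Type) (n : ℕ) (τ : ℕ → TopologicalSpace X) (P : ℕ → Set (Set X)) (f : X → Bool), IsRich n τ P f →
  IsRich (n + 1) (padT τ) (padP P) f ∧
  ∀ (m : ℕ) (c : Cd m) (B : Set X), Cd.wf m c → Vo (padT τ) f (m + 1) (Cd.up m c) B = Vo τ f m c B ∧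
    (Cd.vd m c → ∀ s, Zo (padT τ) f (m + 1) (Cd.up m c) s B = Zo τ f m c s B)

end Pool.Agent.Helper24.WH
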