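import Pool.Agent.Helper24.WH.St5

/-!
# PROJECT WH (MP_76577a_lc), part 6: comparison game (section 8 of the paper proof), reductions, invariants
-/

set_option autoImplicit false

namespace Pool.Agent.Helper24.WH

open Set TopologicalSpace Topology
open Ordinal hiding univ

/-- cylinder of depth `k` around `t` -/
def Cyl {A : Type} (k : ℕ) (t : Tre A) : Set (Tre A) := {t' | ∀ u : List Bool, u.length < k → t' u = t u}

/-- histories of player I's moves, newest move first -/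
abbrev Hist (X Y : Type) := List (Set X × Set Y)

/-- the last source set -/
def lastO {X Y : Type} : Hist X Y → Set X
  | [] => univ
  | mv :: _ => mv.1

/-- history of the first `l` moves of a play -/
def hist {X Y : Type} (p : ℕ → Set X × Set Y) : ℕ → Hist X Y
  | 0 => []
  | (l + 1) => p l :: hist p l

/-- legal histories against the strategy `σ`: each move is a pair (source set in `P`, decreasing, meeting `A`; interference
set, open for `τ'`, meeting the current target set and `A'`) -/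
def Legal {X Y : Type} (P : Set (Set X)) (A : Set X) (τ' : TopologicalSpace Y) (A' : Set Y) (σ : Hist X Y → Set Y) :
    Hist X Y → Prop
  | [] => True
  | mv :: h => Legal P A τ' A' σ h ∧ mv.1 ∈ P ∧ mv.1 ⊆ lastO h ∧ (mv.1 ∩ A).Nonempty ∧ IsOpen[τ'] mv.2 ∧
      (mv.2 ∩ σ h ∩ A').Nonempty

/-- `σ` is a winning strategy of player II. `P` = source sets `P (M+1)`, `τX` = source topology `τ M`, `P'` = target sets `P' (M+1)`,
`τ'` = interference topology `τ' (M+1)`. -/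
structure Wins {X A₂ : Type} (P : Set (Set X)) (τX : TopologicalSpace X) (P' : Set (Set (Tre A₂)))
    (τ' : TopologicalSpace (Tre A₂)) (f : X → Bool) (f' : Tre A₂ → Bool) (A : Set X) (A' : Set (Tre A₂))
    (σ : Hist X (Tre A₂) → Set (Tre A₂)) : Prop where
  move : ∀ mv h, Legal P A τ' A' σ (mv :: h) →
    σ (mv :: h) ∈ P' ∧ σ (mv :: h) ⊆ mv.2 ∩ σ h ∧ (σ (mv :: h) ∩ A').Nonempty
  lim : ∀ p : ℕ → Set X × Set (Tre A₂), (∀ l, Legal P A τ' A' σ (hist p l)) → ∀ x ∈ A, (∀ l, x ∈ (p l).1) →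
    (∀ U, IsOpen[τX] U → x ∈ U → ∃ l, (p l).1 ∩ A ⊆ U) →
    ∃ x' ∈ A', (∀ l, x' ∈ σ (hist p l)) ∧ f' x' = f x ∧ ∀ k, ∃ l, σ (hist p l) ⊆ Cyl k x'

/-- player II wins the game of height `M` from `(A; A', Q)` -/
def WinG {X A₂ : Type} (τ : ℕ → TopologicalSpace X) (P : ℕ → Set (Set X)) (f : X → Bool)
    (τ' : ℕ → TopologicalSpace (Tre A₂)) (P' : ℕ → Set (Set (Tre A₂))) (f' : Tre A₂ → Bool) (M : ℕ)
    (A : Set X) (A' Q : Set (Tre A₂)) : Prop :=
  ∃ σ : Hist X (Tre A₂) → Set (Tre A₂), σ [] = Q ∧ Wins (P (M + 1)) (τ M) (P' (M + 1)) (τ' (M + 1)) f f' A A' σ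

/-- rich structures on trees whose classes contain the cylinders -/
structure IsRichT {A : Type} (n : ℕ) (τ : ℕ → TopologicalSpace (Tre A)) (P : ℕ → Set (Set (Tre A))) (f : Tre A → Bool) : Prop where
  rich : IsRich n τ P f
  cyl : ∀ M k t, Cyl k t ∈ P M

/-- **SH** shrinking lemma: `R ∈ P' j` with `z ∈ R ⊆ U ∩ Cyl k z` (basis of `τ' (j-1)`), `Q₁ = R ∩ closure[τ' j] (R ∩ E)`. -/
def StSH : Prop := ∀ (A₂ : Type) (n : ℕ) (τ' : ℕ → TopologicalSpace (Tre A₂)) (P' : ℕ → Set (Set (Tre A₂))) (f' : Tre A₂ → Bool),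
  IsRichT n τ' P' f' → ∀ j, j ≤ n → ∀ E ∈ P' 0, ∀ z ∈ E, ∀ U, IsOpen[τ' j] U → z ∈ U → ∀ k : ℕ,
    ∃ Q₁ ∈ P' (j + 1), z ∈ Q₁ ∧ Q₁ ⊆ U ∧ Q₁ ⊆ Cyl k z ∧ Q₁ ⊆ closure[τ' (j + 1)] (Q₁ ∩ E)

/-- **C0** the case `M = 0` of the comparison theorem: `f = s` on `A` (`Zo 0 r (!s) A = A ∩ f ⁻¹ {!s} = ∅`). II plays inside `{f' = s}` and shrinks in a
complete metric for `τ' 0` (Polish); all members of `P' 1` are `τ' 0`-clopen and `A' ∩ {f' = s}` is `τ' 0`-closed, so the intersection is a point of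
`A' ∩ {f' = s}`. First move: `P` is open for `τ' 1` and meets `Q ∩ A' ⊆ closure[τ' 1] (Q ∩ A' ∩ {f' = s})`. -/
def StC0 : Prop := ∀ (X A₂ : Type) (n : ℕ) (τ : ℕ → TopologicalSpace X) (P : ℕ → Set (Set X)) (f : X → Bool)
  (τ' : ℕ → TopologicalSpace (Tre A₂)) (P' : ℕ → Set (Set (Tre A₂))) (f' : Tre A₂ → Bool),
  IsRich n τ P f → IsRichT n τ' P' f' → ∀ (s : Bool), ∀ A ∈ P 0, ∀ A' ∈ P' 0, ∀ Q ∈ P' 1,
    (∀ x ∈ A, f x = s) → A' ∩ Q ⊆ closure[τ' 1] (Q ∩ (A' ∩ f' ⁻¹' {s})) →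
    WinG τ P f τ' P' f' 0 A A' Q

/-- **CTA** simulation of a game of height `M` inside a game of height `M+1` (source `B`, small target `H'`). `σ⁺` wins the game of height `M` for `(B; H')` from `Q`.
Let `F 0, F 1, ..` enumerate `P (M+1)` (countable). State after a real history: a bit string `w` and a simulated history `S`, both of the same length
`L` (oldest first: entry `j` of `S` was made with the string `w|j+1`), legal against `σ⁺`. Real move `(O, Pm)`: let `i < L` be least with `w i = 1` and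
`O ∩ B ∩ ⋂_{j<i, w j = 1} F j ∩ F i = ∅`; then `w' = (w|i) 0`, otherwise `w' = w b`, `b = 1` iff `O ∩ B ∩ ⋂_{w j = 1} F j ∩ F L ≠ ∅`. Cut `S` to the oldest `|w'| - 1`
entries and add the simulated move `(O ∩ ⋂_{j<|w'|, w' j = 1} F j, Pm ∩ σ h)`. Then `E = σ⁺ S' ∩ H'`, nonempty, contained in the `τ' (M+1)`-open set `Pm ∩ σ h`; the
real answer is `Q₁` from SH (`j = M+1`, `E`, some `z ∈ E`, `U = Pm ∩ σ h`, `k` = length of the history). Invariant: `σ h ⊆ closure[τ' (M+2)] (σ h ∩ σ⁺ S ∩ H')` for `h ≠ []`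
(for `h = []` use the hypothesis on `Q`), so the next interference meets `σ h ∩ σ⁺ S ∩ H'`, and `σ⁺` of the cut history is larger. Limit at `x ∈ B`: bit `i` converges
to the truth value of `x ∈ F i` (if `x ∈ F i` it is never refuted once the smaller bits are right; if not, `F i` is `τ (M+1)`-closed and `O_l` gets away from it);
the lengths tend to infinity; the entries of `S` stabilise to an infinite legal play of the simulated game, which converges to `x` for `τ M`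
(`P (M+1)` is a basis of `τ M`); `x'` from `σ⁺` works, it lies in all `σ (hist p l)` because `σ⁺ S' ⊆ Pm ∩ σ h` and entries made at arbitrarily late rounds survive;
it is in `Cyl k x'` since `Q₁ ⊆ Cyl k z`. -/
def StCTA : Prop := ∀ (X A₂ : Type) (n : ℕ) (τ : ℕ → TopologicalSpace X) (P : ℕ → Set (Set X)) (f : X → Bool)
  (τ' : ℕ → TopologicalSpace (Tre A₂)) (P' : ℕ → Set (Set (Tre A₂))) (f' : Tre A₂ → Bool),
  IsRich n τ P f → IsRichT n τ' P' f' → ∀ M, M + 1 ≤ n → ∀ B ∈ P (M + 1), ∀ A' ∈ P' (M + 1), ∀ H' ∈ P' (M + 1),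
    ∀ Q ∈ P' (M + 2), H' ⊆ A' → A' ∩ Q ⊆ closure[τ' (M + 2)] (Q ∩ H') →
    WinG τ P f τ' P' f' M B H' Q →
    ∃ σ : Hist X (Tre A₂) → Set (Tre A₂), σ [] = Q ∧
      Wins (P (M + 2)) (τ (M + 1)) (P' (M + 2)) (τ' (M + 2)) f f' B A' σ ∧
      ∀ h, Legal (P (M + 2)) B (τ' (M + 2)) A' σ h → A' ∩ σ h ⊆ closure[τ' (M + 2)] (σ h ∩ H')

/-- **SW** switching of strategies. `σ₁` answers all legal histories correctly; `E` is an event on source sets, inherited by subsets; whenever the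
event happens at the move `mv` (legal against `σ₁`), II wins the rest of the game on `A ∩ mv.1` from the position `σ₁ (mv :: h)`; and plays without the event
satisfy the limit condition. Strategy: follow `σ₁` until the first event, then the chosen strategy applied to the moves made since (tail history). -/
def StSW : Prop := ∀ (X A₂ : Type) (P : Set (Set X)) (τX : TopologicalSpace X) (P' : Set (Set (Tre A₂)))
  (τ' : TopologicalSpace (Tre A₂)) (f : X → Bool) (f' : Tre A₂ → Bool) (A : Set X) (A' : Set (Tre A₂))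
  (σ₁ : Hist X (Tre A₂) → Set (Tre A₂)) (E : Set X → Prop),
  (∀ O O', O' ⊆ O → E O → E O') →
  (∀ mv h, Legal P A τ' A' σ₁ (mv :: h) →
    σ₁ (mv :: h) ∈ P' ∧ σ₁ (mv :: h) ⊆ mv.2 ∩ σ₁ h ∧ (σ₁ (mv :: h) ∩ A').Nonempty) →
  (∀ mv h, Legal P A τ' A' σ₁ (mv :: h) → E mv.1 →
    ∃ σ₂ : Hist X (Tre A₂) → Set (Tre A₂), σ₂ [] = σ₁ (mv :: h) ∧ Wins P τX P' τ' f f' (A ∩ mv.1) A' σ₂) →
  (∀ p : ℕ → Set X × Set (Tre A₂), (∀ l, Legal P A τ' A' σ₁ (hist p l)) → (∀ l, ¬ E (p l).1) → ∀ x ∈ A, (∀ l, x ∈ (p l).1) →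
    (∀ U, IsOpen[τX] U → x ∈ U → ∃ l, (p l).1 ∩ A ⊆ U) →
    ∃ x' ∈ A', (∀ l, x' ∈ σ₁ (hist p l)) ∧ f' x' = f x ∧ ∀ k, ∃ l, σ₁ (hist p l) ⊆ Cyl k x') →
  ∃ σ : Hist X (Tre A₂) → Set (Tre A₂), σ [] = σ₁ [] ∧ Wins P τX P' τ' f f' A A' σ

/-- **CTB** combination at height `M+1`. `B ⊆ A` closed part handled by `σB` (from CTA); off `B` every point has smaller rank and II wins by
induction. `σ₁ (mv :: h) = σB (mv :: h)` if `mv.1` meets `B`, otherwise `Q₁` from SH with `E = mv.2 ∩ σ₁ h ∩ H'`-point and `E := σ₁ h ∩ H' ∩ U`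
(waiting; take `E = σ₁ h ∩ H'`, `U = mv.2 ∩ σ₁ h`); invariant `A' ∩ σ₁ h ⊆ closure (σ₁ h ∩ H')`. Event `E O`: `O ∩ B = ∅` and there are valid `r < ρ`, `s` with
`Zo r (!s) (A ∩ O) = ∅`. A play converging to `x ∈ A` without the event stays near `B`: if `x ∉ B` then by RX `x` has a rank `(r, s)`, `r ≤ γ < ρ`, and late
`O_l` miss `B` and the closed set `Zo r (!s) A`. Then apply SW. -/
def StCTB : Prop := ∀ (X A₂ : Type) (n : ℕ) (τ : ℕ → TopologicalSpace X) (P : ℕ → Set (Set X)) (f : X → Bool)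
  (τ' : ℕ → TopologicalSpace (Tre A₂)) (P' : ℕ → Set (Set (Tre A₂))) (f' : Tre A₂ → Bool),
  IsRich n τ P f → IsRichT n τ' P' f' → ∀ M, M + 1 ≤ n → ∀ A ∈ P (M + 1), ∀ A' ∈ P' (M + 1), ∀ H' ∈ P' (M + 1),
    ∀ Q ∈ P' (M + 2), ∀ (γ ρ : Cd (M + 1)), Cd.wf (M + 1) γ → Cd.wf (M + 1) ρ → γ < ρ → H' ⊆ A' →
    A' ∩ Q ⊆ closure[τ' (M + 2)] (Q ∩ H') →
    (∃ σB : Hist X (Tre A₂) → Set (Tre A₂), σB [] = Q ∧
      Wins (P (M + 2)) (τ (M + 1)) (P' (M + 2)) (τ' (M + 2)) f f' (Vo τ f (M + 1) γ A) A' σB ∧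
      ∀ h, Legal (P (M + 2)) (Vo τ f (M + 1) γ A) (τ' (M + 2)) A' σB h →
        A' ∩ σB h ⊆ closure[τ' (M + 2)] (σB h ∩ H')) →
    (∀ (r : Cd (M + 1)) (s : Bool), Cd.wf (M + 1) r → Cd.vd (M + 1) r → r < ρ → ∀ O ∈ P (M + 2), ∀ Q₁ ∈ P' (M + 2),
      Zo τ f (M + 1) r (!s) (A ∩ O) = ∅ → A' ∩ Q₁ ⊆ closure[τ' (M + 2)] (Q₁ ∩ H') →
      WinG τ P f τ' P' f' (M + 1) (A ∩ O) A' Q₁) →
    WinG τ P f τ' P' f' (M + 1) A A' Q

/-- **CTI** the comparison theorem. Induction on `M`, then on the code `r` (well founded, CB). Height `M+1`, `r = γ.ext ρ' 0`: `B = Vo γ A`,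
`Zo M ρ' (!s) B = ∅` by HC (`Zo (M+1) r (!s) A = HomOp .. B` is the closure of it), `H' = Zo' (M+1) r s A' ⊆ closure[τ' (M+1)] (Zo' M ρ' s H')` (RA), so the
height `M` game for `(B; H')` from `Q` is won by the induction hypothesis (`Q` is `τ' (M+1)`-open and locality RB gives
`H' ∩ Q ⊆ closure[τ' (M+1)] (Q ∩ Zo' M ρ' s H')`); CTA, then CTB (for `r₁ < r`: `H' = Zo' r s A' ⊆ Zo' r₁ s₁ A'` by RA). -/
def StCTI : Prop := ∀ (X A₂ : Type) (n : ℕ) (τ : ℕ → TopologicalSpace X) (P : ℕ → Set (Set X)) (f : X → Bool)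
  (τ' : ℕ → TopologicalSpace (Tre A₂)) (P' : ℕ → Set (Set (Tre A₂))) (f' : Tre A₂ → Bool),
  IsRich n τ P f → IsRichT n τ' P' f' → ∀ M, M ≤ n → ∀ (r : Cd M) (s : Bool), Cd.wf M r → Cd.vd M r →
    ∀ A ∈ P M, ∀ A' ∈ P' M, ∀ Q ∈ P' (M + 1), Zo τ f M r (!s) A = ∅ →
    A' ∩ Q ⊆ closure[τ' (M + 1)] (Q ∩ Zo τ' f' M r s A') → WinG τ P f τ' P' f' M A A' Q

/-- **RE** from a winning strategy at the top height to a continuous reduction on a clopen set `A`: I plays the cylinders around `x` and the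
interference `univ`; `x'` is the unique point; continuity because `σ (hist p l)` depends only on the cylinder of depth `l` of `x`. -/
def StRE : Prop := ∀ (A₁ A₂ : Type) [Finite A₁] [Finite A₂] [Nonempty A₂] (n : ℕ) (τ : ℕ → TopologicalSpace (Tre A₁)) (P : ℕ → Set (Set (Tre A₁)))
  (f : Tre A₁ → Bool) (τ' : ℕ → TopologicalSpace (Tre A₂)) (P' : ℕ → Set (Set (Tre A₂))) (f' : Tre A₂ → Bool),
  IsRichT n τ P f → IsRichT n τ' P' f' → τ n = pT A₁ → τ' n = pT A₂ → ∀ A ∈ P (n + 1),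
    WinG τ P f τ' P' f' n A univ univ →
    ∃ φ : Tre A₁ → Tre A₂, (∀ x ∈ A, f' (φ x) = f x) ∧
      ∀ x ∈ A, ∀ k, ∃ l, ∀ y ∈ A, y ∈ Cyl l x → φ y ∈ Cyl k (φ x)

/-- **IV (9.1)** the invariant: the least code `r` with `Vo n r univ = ∅` is valid (compactness), and the sides are not empty -/
def StIV : Prop := ∀ (A₁ : Type) [Finite A₁] [Nonempty A₁] (n : ℕ) (τ : ℕ → TopologicalSpace (Tre A₁)) (P : ℕ → Set (Set (Tre A₁)))
  (f : Tre A₁ → Bool), IsRichT n τ P f → τ n = pT A₁ → ∃ r : Cd n, Cd.wf n r ∧ Cd.vd n r ∧ Vo τ f n r univ = ∅ ∧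
    ∃ s, (Zo τ f n r s univ).Nonempty

/-- Wadge reducibility of `f` to `f'` (product topologies) -/
def WRed {A₁ A₂ : Type} (f : Tre A₁ → Bool) (f' : Tre A₂ → Bool) : Prop :=
  ∃ φ : Tre A₁ → Tre A₂, @Continuous _ _ (pT A₁) (pT A₂) φ ∧ ∀ x, f' (φ x) = f x

/-- **CM (9.1)** comparison at the top. Let `r` be valid for both, `Vo r = ∅` on the source, and every nonempty side of the source nonempty on the
target. Then `f ≤ f'`. If only the side `s` is nonempty: CTI with `A = A' = Q = univ` (`τ' (n+1) = ⊤`, the closure of a nonempty set is everything). If both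
sides are nonempty: the two sides are disjoint compact sets; separate them by a clopen `A ∈ P (n+1)` (finite union of basic sets) and glue the two
maps of RE. If no side is nonempty (source of smaller rank): `Zo r s univ = ∅` for both `s`; use any nonempty side of the target. -/
def StCM : Prop := ∀ (A₁ A₂ : Type) [Finite A₁] [Finite A₂] [Nonempty A₁] [Nonempty A₂] (n : ℕ)
  (τ : ℕ → TopologicalSpace (Tre A₁)) (P : ℕ → Set (Set (Tre A₁)))
  (f : Tre A₁ → Bool) (τ' : ℕ → TopologicalSpace (Tre A₂)) (P' : ℕ → Set (Set (Tre A₂))) (f' : Tre A₂ → Bool),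
  IsRichT n τ P f → IsRichT n τ' P' f' → τ n = pT A₁ → τ' n = pT A₂ → ∀ r : Cd n, Cd.wf n r → Cd.vd n r →
    Vo τ f n r univ = ∅ → (∃ s, (Zo τ' f' n r s univ).Nonempty) →
    (∀ s, (Zo τ f n r s univ).Nonempty → (Zo τ' f' n r s univ).Nonempty) → WRed f f'

/-- the data attached to a set: rich structure of height `n`, code `r`, sides -/
structure Dat {A₁ : Type} (f : Tre A₁ → Bool) (n : ℕ) (r : Cd n) (sd : Bool → Prop) : Prop where
  wf : Cd.wf n r
  vd : Cd.vd n r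
  side : ∃ s, sd s
  ex : ∃ (τ : ℕ → TopologicalSpace (Tre A₁)) (P : ℕ → Set (Set (Tre A₁))), IsRichT n τ P f ∧ τ n = pT A₁ ∧
    Vo τ f n r univ = ∅ ∧ ∀ s, sd s ↔ (Zo τ f n r s univ).Nonempty

/-- **DP** padding of data (PA, CB): `padT τ (n+1) = τ n`, cylinders stay in the classes -/
def StDP : Prop := ∀ (A₁ : Type) (f : Tre A₁ → Bool) (n : ℕ) (r : Cd n) (sd : Bool → Prop),
  Dat f n r sd → Dat f (n + 1) (Cd.up n r) sd

/-- **DC** comparison of data of the same height (CM, RA): smaller code, or equal code and fewer sides. For `r < r'`: `Zo r' s univ ⊆ Vo r univ = ∅` on the source,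
so CM applies with the code `r'`. -/
def StDC : Prop := ∀ (A₁ A₂ : Type) [Finite A₁] [Finite A₂] [Nonempty A₁] [Nonempty A₂] (f : Tre A₁ → Bool) (f' : Tre A₂ → Bool)
  (n : ℕ) (r r' : Cd n) (sd sd' : Bool → Prop), Dat f n r sd → Dat f' n r' sd' →
  (r < r' ∨ (r = r' ∧ ∀ s, sd s → sd' s)) → WRed f f'

/-- **DN** data of the complement: `Dat (fun t => !f t) n r (fun s => sd (!s))`. The operators satisfy `Vo τ (!f) = Vo τ f`, `Zo τ (!f) r s = Zo τ f r (!s)`. -/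
def StDN : Prop := ∀ (A₁ : Type) (f : Tre A₁ → Bool) (n : ℕ) (r : Cd n) (sd : Bool → Prop),
  Dat f n r sd → Dat (fun t => !(f t)) n r (fun s => sd (!s))

open Classical in
/-- ordinal of the data: `2 * π r`, plus one if both sides occur -/
noncomputable def ordD {n : ℕ} (r : Cd n) (sd : Bool → Prop) : Ordinal.{0} :=
  (2 : Ordinal.{0}) * Cd.pi n r + (if sd false ∧ sd true then 1 else 0)

/-- **OR (9.3)** the ordinal is strictly monotone for strict Wadge reducibility and below `ε₀`. Pad to the same height (DP, CB). If `ordD r' sd' ≤ ordD r sd`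
then `r' < r` or `r' = r` and (`sd'` one sided or `sd` two sided); by DC `f' ≤ f`, or `r = r'` and both one sided with opposite sides; then the data of the complement
of `f'` equal those of `f`: `!f' ≤ f` and `f ≤ f'` give `!f' ≤ f'`, hence `f' ≤ !f' ≤ f`. -/
def StOR : Prop := ∀ (A₁ A₂ : Type) [Finite A₁] [Finite A₂] [Nonempty A₁] [Nonempty A₂] (f : Tre A₁ → Bool) (f' : Tre A₂ → Bool)
  (n n' : ℕ) (r : Cd n) (r' : Cd n') (sd sd' : Bool → Prop), Dat f n r sd → Dat f' n' r' sd' →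
  ordD r sd < Ordinal.epsilon 0 ∧ (WRed f f' → ¬ WRed f' f → ordD r sd < ordD r' sd')

/-- **DE** existence of data for `f = h ∘ g`, `g` as in `Hyp` (FT4, RI, IV) -/
def StDE : Prop := ∀ (A S : Type) [Finite A] [Finite S] [Nonempty A] (n : ℕ) (g : Tre A → S) (Ga : A → S × S → S) (h : S → Bool),
  Hyp n g Ga → ∃ (r : Cd n) (sd : Bool → Prop), Dat (h ∘ g) n r sd

end Pool.Agent.Helper24.WH
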