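import Pool.Agent.Helper24.WH.St6

/-!
# PROJECT WH (MP_76577a_lc), part 7: the modal mu-calculus, front end (section 0), final statements
-/

set_option autoImplicit false

namespace Pool.Agent.Helper24.WH

open Set TopologicalSpace Topology
open Ordinal hiding univ

/-! ## Tree-set semantics and the front end -/

/-- semantics as a set of trees -/
def Fm.SEM {P : Type} : Fm P → (ℕ → Set (Tre (Set P))) → Set (Tre (Set P))
  | .prop p, _ => {t | p ∈ t []}
  | .nprop p, _ => {t | p ∉ t []}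
  | .top, _ => univ
  | .bot, _ => ∅
  | .var n, v => v n
  | .and φ ψ, v => φ.SEM v ∩ ψ.SEM v
  | .or φ ψ, v => φ.SEM v ∪ ψ.SEM v
  | .dia φ, v => {t | ∃ b : Bool, t.sub [b] ∈ φ.SEM v}
  | .box φ, v => {t | ∀ b : Bool, t.sub [b] ∈ φ.SEM v}
  | .mu φ, v => ⋂₀ {X | φ.SEM (ec X v) ⊆ X}
  | .nu φ, v => ⋃₀ {X | X ⊆ φ.SEM (ec X v)}

/-- values of all subformula occurrences in the canonical environment -/
def Fm.subs {P : Type} : Fm P → (ℕ → Set (Tre (Set P))) → List (Set (Tre (Set P)))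
  | .prop p, v => [(Fm.prop p).SEM v]
  | .nprop p, v => [(Fm.nprop p).SEM v]
  | .top, v => [Fm.top.SEM v]
  | .bot, v => [Fm.bot.SEM v]
  | .var n, v => [v n]
  | .and φ ψ, v => (Fm.and φ ψ).SEM v :: (φ.subs v ++ ψ.subs v)
  | .or φ ψ, v => (Fm.or φ ψ).SEM v :: (φ.subs v ++ ψ.subs v)
  | .dia φ, v => (Fm.dia φ).SEM v :: φ.subs v
  | .box φ, v => (Fm.box φ).SEM v :: φ.subs v
  | .mu φ, v => (Fm.mu φ).SEM v :: φ.subs (ec ((Fm.mu φ).SEM v) v)
  | .nu φ, v => (Fm.nu φ).SEM v :: φ.subs (ec ((Fm.nu φ).SEM v) v)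

/-- **F1** node semantics and tree-set semantics agree. Induction on `φ` for all environments; `mu`: `{u | t.sub u ∈ lfp}` is a
prefixpoint; if `X` is a prefixpoint for `t` then `{s | ∀ u, t.sub u = s → u ∈ X}` is a prefixpoint of the tree-set operator; `nu` dual
(`{s | ∃ u ∈ X, t.sub u = s}`). `(t.sub u) = t.sub (u ++ ..)`. -/
def StF1 : Prop := ∀ (P : Type) (φ : Fm P) (t : Tre (Set P)) (V : ℕ → Set (Tre (Set P))) (u : List Bool),
  (u ∈ φ.sem t (fun n => {w | t.sub w ∈ V n}) ↔ t.sub u ∈ φ.SEM V)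

/-- **F2 (0.2)** the sandwich lemma (proof in the paper proof, section 0.2), and monotonicity and dependence on free variables only -/
def StF2 : Prop := ∀ (P : Type) (φ : Fm P),
  (∀ V R : ℕ → Set (Tre (Set P)), (∀ i, V i ⊆ R i) → φ.SEM V ⊆ φ.SEM R) ∧
  (∀ V R : ℕ → Set (Tre (Set P)), (∀ i, φ.free i → V i = R i) → φ.SEM V = φ.SEM R) ∧
  (∀ (V E R : ℕ → Set (Tre (Set P))) (a : Set P) (p p' : Tre (Set P) × Tre (Set P)),
    (∀ i, V i ⊆ E i) → (∀ i, E i ⊆ R i) → (∀ F ∈ φ.subs E, (p.1 ∈ F ↔ p'.1 ∈ F) ∧ (p.2 ∈ F ↔ p'.2 ∈ F)) →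
    (∀ i, Tre.mk a p ∈ V i → Tre.mk a p' ∈ R i) → Tre.mk a p ∈ φ.SEM V → Tre.mk a p' ∈ φ.SEM R)

/-- **F3** homomorphism property of the truth vector -/
def StF3 : Prop := ∀ (P : Type) (φ : Fm P) (E : ℕ → Set (Tre (Set P))) (a : Set P) (p p' : Tre (Set P) × Tre (Set P)),
  (∀ i, φ.free i → (Tre.mk a p ∈ E i ↔ Tre.mk a p' ∈ E i)) →
  (∀ F ∈ φ.subs E, (p.1 ∈ F ↔ p'.1 ∈ F) ∧ (p.2 ∈ F ↔ p'.2 ∈ F)) →
  ∀ F ∈ φ.subs E, (Tre.mk a p ∈ F ↔ Tre.mk a p' ∈ F)

mutual
/-- in a `μ`-block: every `ν`-subformula met is closed -/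
def Fm.okM {P : Type} : Fm P → Prop
  | .and φ ψ => φ.okM ∧ ψ.okM
  | .or φ ψ => φ.okM ∧ ψ.okM
  | .dia φ => φ.okM
  | .box φ => φ.okM
  | .mu φ => φ.okM
  | .nu φ => (∀ n, ¬ φ.free (n + 1)) ∧ φ.okN
  | _ => True

/-- in a `ν`-block: every `μ`-subformula met is closed -/
def Fm.okN {P : Type} : Fm P → Prop
  | .and φ ψ => φ.okN ∧ ψ.okN
  | .or φ ψ => φ.okN ∧ ψ.okN
  | .dia φ => φ.okN
  | .box φ => φ.okN
  | .nu φ => φ.okN
  | .mu φ => (∀ n, ¬ φ.free (n + 1)) ∧ φ.okM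
  | _ => True
end

/-- **F4** alternation-free implies `okM` (if `¬ nuDep i` for all free `i`) and `okN` (if `¬ muDep i` for all free `i`) -/
def StF4 : Prop := ∀ (P : Type) (φ : Fm P), φ.altFree →
  ((∀ i, φ.free i → ¬ φ.nuDep i) → φ.okM) ∧ ((∀ i, φ.free i → ¬ φ.muDep i) → φ.okN)

/-- **F5 (0.4)** openness in the base tower. `g` any finite labelling such that all members of `φ.subs E` are `g`-definable. There is a level `J` such
that for all `j ≥ J`: if `okM`, then `φ.SEM V` is open for `bT g j` for all environments `V` that are open on the free variables; if `okN`, the same with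
closed. Induction on `φ`. `mu` in `okM`: `F X = φ.SEM (ec X V)` preserves open sets, `L = lfp F`, `U = interior L`: `F U` is open and `⊆ F L = L`, so `F U ⊆ U`, so
`L ⊆ U`. `nu φ` in `okM`: closed formula; by the induction hypothesis (`okN`) its value is closed for `bT g J'`, and it is `g`-definable, so by definition of
`bT g (J'+1)` it is clopen there and above; its value does not depend on the environment (F2). Modalities: `t ↦ t.sub [b]` is continuous (NT). -/
def StF5 : Prop := ∀ (P S : Type) [Finite P] [Finite S] (g : Tre (Set P) → S) (Ga : Set P → S × S → S),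
  (∀ a p, g (Tre.mk a p) = Ga a (g p.1, g p.2)) →
  ∀ (φ : Fm P) (E : ℕ → Set (Tre (Set P))), (∀ F ∈ φ.subs E, ∃ K : Set S, F = g ⁻¹' K) →
  ∃ J, ∀ j, J ≤ j →
    (φ.okM → ∀ V : ℕ → Set (Tre (Set P)), (∀ i, φ.free i → IsOpen[bT g j] (V i)) → IsOpen[bT g j] (φ.SEM V)) ∧
    (φ.okN → ∀ V : ℕ → Set (Tre (Set P)), (∀ i, φ.free i → IsClosed[bT g j] (V i)) → IsClosed[bT g j] (φ.SEM V))

/-- **F6 (0.4)** all subformula values are clopen at some level -/
def StF6 : Prop := ∀ (P S : Type) [Finite P] [Finite S] (g : Tre (Set P) → S) (Ga : Set P → S × S → S),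
  (∀ a p, g (Tre.mk a p) = Ga a (g p.1, g p.2)) →
  ∀ (φ : Fm P) (E : ℕ → Set (Tre (Set P))), (∀ F ∈ φ.subs E, ∃ K : Set S, F = g ⁻¹' K) →
  ∃ J, ∀ j, J ≤ j →
    (φ.okM → (∀ i, φ.free i → IsOpen[bT g j] (E i)) → ∀ F ∈ φ.subs E, Clp (bT g (j + 1)) F) ∧
    (φ.okN → (∀ i, φ.free i → IsClosed[bT g j] (E i)) → ∀ F ∈ φ.subs E, Clp (bT g (j + 1)) F)

/-- **F7** front end: every definable set is `{t | h (g t)}` with `g` as in `Hyp`. `E = fun _ => ∅`, `N` = length of `φ.subs E`, `S = Set (Fin N)`,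
`g t = {i | t ∈ (φ.subs E)[i]}`, `Ga` by choice from F3, `cont` from F4, F6, the value of `φ` itself is the head of the list; F1 with `u = []`. -/
def StF7 : Prop := ∀ (P : Type) [Finite P] (L : Set (Tre (Set P))), Definable L →
  ∃ (S : Type) (_ : Finite S) (n : ℕ) (g : Tre (Set P) → S) (Ga : Set P → S × S → S) (h : S → Bool),
    Hyp n g Ga ∧ L = {t | h (g t) = true}

/-! ## Upper bound -/

/-- **UB** the upper bound: strict Wadge reducibility is well founded on the definable sets and all ranks are below `ε₀`; also across alphabets: there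
is one ordinal valued function `< ε₀`. For each definable set choose data (DE, F7) and use `ordD` (OR). -/
def StUB : Prop := ∀ (P : Type) [Finite P], ∃ h : WellFounded (wlt P), ∀ L : {L : Set (Tre (Set P)) // Definable L},
  (h.apply L).rank < Ordinal.epsilon 0

end Pool.Agent.Helper24.WH
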