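import Mathlib

/-!
# The alternation-free modal mu-calculus on full binary trees and the Wadge order

All definitions used in the statement of the main theorem of project WH (MP_76577a_lc):
the set of trees, its topology, formulas, their semantics on a tree, alternation-freeness, definable
sets, Wadge reducibility, the strict Wadge order of the definable sets, and the height of the hierarchy.
-/

set_option autoImplicit false

namespace Pool.Agent.Helper24.WH

open Set TopologicalSpace Topology
open Ordinal hiding univ

/-- full binary trees with labels in `A`: total maps from the nodes `{0,1}*` (lists of Booleans) to `A` -/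
def Tre (A : Type) : Type := List Bool → A

/-- the product topology of the discrete space `A` -/
@[reducible] def pT (A : Type) : TopologicalSpace (Tre A) := @Pi.topologicalSpace (List Bool) (fun _ => A) (fun _ => ⊥)

/-- formulas of the modal mu-calculus over the propositional letters `P`, in negation normal form (negation is
applied to letters only, so every variable is positive); variables are de Bruijn indices: in `mu φ` and `nu φ` the index `0`
of `φ` is the variable bound by the fixpoint and the index `n + 1` of `φ` is the index `n` outside -/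
inductive Fm (P : Type) : Type
  /-- the letter `p` -/
  | prop : P → Fm P
  /-- the negated letter `p` -/
  | nprop : P → Fm P
  | top : Fm P
  | bot : Fm P
  /-- the variable with index `n` -/
  | var : ℕ → Fm P
  | and : Fm P → Fm P → Fm P
  | or : Fm P → Fm P → Fm P
  /-- some child satisfies the formula -/
  | dia : Fm P → Fm P
  /-- both children satisfy the formula -/
  | box : Fm P → Fm P
  /-- least fixpoint -/
  | mu : Fm P → Fm P
  /-- greatest fixpoint -/
  | nu : Fm P → Fm P

/-- environment extended by a value for the variable `0` -/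
def ec {α : Type} (X : α) (v : ℕ → α) : ℕ → α
  | 0 => X
  | (n + 1) => v n

/-- semantics on the full binary tree `t` (whose node `u` carries the set `t u` of letters and has the children `u ++ [b]`): the set of
nodes satisfying the formula; least and greatest fixpoints by Knaster-Tarski -/
def Fm.sem {P : Type} (t : Tre (Set P)) : Fm P → (ℕ → Set (List Bool)) → Set (List Bool)
  | .prop p, _ => {u | p ∈ t u}
  | .nprop p, _ => {u | p ∉ t u}
  | .top, _ => univ
  | .bot, _ => ∅
  | .var n, v => v n
  | .and φ ψ, v => Fm.sem t φ v ∩ Fm.sem t ψ v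
  | .or φ ψ, v => Fm.sem t φ v ∪ Fm.sem t ψ v
  | .dia φ, v => {u | ∃ b : Bool, u ++ [b] ∈ Fm.sem t φ v}
  | .box φ, v => {u | ∀ b : Bool, u ++ [b] ∈ Fm.sem t φ v}
  | .mu φ, v => ⋂₀ {X | Fm.sem t φ (ec X v) ⊆ X}
  | .nu φ, v => ⋃₀ {X | X ⊆ Fm.sem t φ (ec X v)}

/-- the variable `n` occurs free -/
def Fm.free {P : Type} : Fm P → ℕ → Prop
  | .prop _, _ => False
  | .nprop _, _ => False
  | .top, _ => False
  | .bot, _ => False
  | .var k, n => k = n
  | .and φ ψ, n => φ.free n ∨ ψ.free n
  | .or φ ψ, n => φ.free n ∨ ψ.free n
  | .dia φ, n => φ.free n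
  | .box φ, n => φ.free n
  | .mu φ, n => φ.free (n + 1)
  | .nu φ, n => φ.free (n + 1)

/-- the variable `n` occurs free inside some `ν`-subformula -/
def Fm.nuDep {P : Type} : Fm P → ℕ → Prop
  | .prop _, _ => False
  | .nprop _, _ => False
  | .top, _ => False
  | .bot, _ => False
  | .var _, _ => False
  | .and φ ψ, n => φ.nuDep n ∨ ψ.nuDep n
  | .or φ ψ, n => φ.nuDep n ∨ ψ.nuDep n
  | .dia φ, n => φ.nuDep n
  | .box φ, n => φ.nuDep n
  | .mu φ, n => φ.nuDep (n + 1)
  | .nu φ, n => φ.free (n + 1)

/-- the variable `n` occurs free inside some `μ`-subformula -/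
def Fm.muDep {P : Type} : Fm P → ℕ → Prop
  | .prop _, _ => False
  | .nprop _, _ => False
  | .top, _ => False
  | .bot, _ => False
  | .var _, _ => False
  | .and φ ψ, n => φ.muDep n ∨ ψ.muDep n
  | .or φ ψ, n => φ.muDep n ∨ ψ.muDep n
  | .dia φ, n => φ.muDep n
  | .box φ, n => φ.muDep n
  | .mu φ, n => φ.free (n + 1)
  | .nu φ, n => φ.muDep (n + 1)

/-- alternation-free formulas (the class `Δ₂` of the fixpoint alternation hierarchy): no variable bound by a `μ` occurs free
in a `ν`-subformula of its scope, and no variable bound by a `ν` occurs free in a `μ`-subformula of its scope -/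
def Fm.altFree {P : Type} : Fm P → Prop
  | .prop _ => True
  | .nprop _ => True
  | .top => True
  | .bot => True
  | .var _ => True
  | .and φ ψ => φ.altFree ∧ ψ.altFree
  | .or φ ψ => φ.altFree ∧ ψ.altFree
  | .dia φ => φ.altFree
  | .box φ => φ.altFree
  | .mu φ => φ.altFree ∧ ¬ φ.nuDep 0
  | .nu φ => φ.altFree ∧ ¬ φ.muDep 0

/-- the set of trees whose root satisfies `φ` -/
def Fm.lang {P : Type} (φ : Fm P) : Set (Tre (Set P)) := {t | [] ∈ φ.sem t (fun _ => ∅)}

/-- definable by a closed alternation-free formula -/
def Definable {P : Type} (L : Set (Tre (Set P))) : Prop :=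
  ∃ φ : Fm P, (∀ n, ¬ φ.free n) ∧ φ.altFree ∧ φ.lang = L

/-- Wadge reducibility: `L` is a preimage of `L'` under a continuous map -/
def WLe {A₁ A₂ : Type} (L : Set (Tre A₁)) (L' : Set (Tre A₂)) : Prop :=
  ∃ F : Tre A₁ → Tre A₂, @Continuous _ _ (pT A₁) (pT A₂) F ∧ F ⁻¹' L' = L

/-- strict Wadge reducibility on the definable sets over `P` -/
def wlt (P : Type) (L L' : {L : Set (Tre (Set P)) // Definable L}) : Prop := WLe L.1 L'.1 ∧ ¬ WLe L'.1 L.1

/-- the height of the Wadge hierarchy of the definable sets over `P`: the least ordinal above the ranks of all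
definable sets in the well founded relation `wlt P` (the rank of `L` is the least ordinal above the ranks of the definable
sets strictly below `L`) -/
noncomputable def height (P : Type) (h : WellFounded (wlt P)) : Ordinal.{0} :=
  ⨆ L : {L : Set (Tre (Set P)) // Definable L}, Order.succ (h.apply L).rank

end Pool.Agent.Helper24.WH
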